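import Mathlib
import Pool.Agent.NHP.Defs

/-!
# NHR/Defs: the relations of the homotopy theorem, definitions

Paths are functions `f : ℝ → N`, restricted to `[0, 1]`; `PathOn Y f`, `Hmt Y f g` (homotopy with fixed ends in `Y`),
`cat`, `rv`, `seg β a b` (image of a segment).  `GHom Y Γ`: a homomorphism `val` from the paths of `Y` to the group `Γ`;
`Full G`: paths with the same ends and the same value are homotopic, and all values occur.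

`FinE κ p p' η ε T`: `T` is a chord of the knot `core κ` with standard ends with respect to `kap κ η = κ (l, η v)`;
`FinV G κ p p' c T`: `T` has the class `c`.

`Ext N`: the facts on chords which are proved elsewhere (existence, uniqueness, thinning, slides, avoiding cores).

`SP K B W`: the two charts of a special configuration.  In the chart `B` the set `K` consists of two parallel strands
`im = 0`, `x ∈ {0, 1}`.  In the chart `W` it consists of a horizontal pair `x = 0`, `im w ∈ {0, -1/32}` and a vertical pair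
`x = 1`, `re w ∈ {0, -1/32}`; `W = B ∘ ja` near the first pair, `W = B ∘ jb` near the second one.
`KW K W`: the first pair has passed the second one.
-/

open scoped Manifold ContDiff Topology
open Set Filter
open Pool.Agent.CSG (stp)
open Pool.Agent.RSG (E3 ex Thick)
open Pool.Agent.KNT (Dom Str Str2 bmp)
open Pool.Agent.NHP

namespace Pool.Agent.NHR

universe u v

/-! ## paths -/

section
variable {N : Type u} [TopologicalSpace N]

/-- `f`, restricted to `[0, 1]`, is a path in `Y` -/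
def PathOn (Y : Set N) (f : ℝ → N) : Prop :=
  ContinuousOn f (Icc 0 1) ∧ ∀ t ∈ Icc (0 : ℝ) 1, f t ∈ Y

/-- `f` and `g` are homotopic in `Y`, with fixed ends -/
def Hmt (Y : Set N) (f g : ℝ → N) : Prop :=
  ∃ H : ℝ × ℝ → N, ContinuousOn H (Icc 0 1 ×ˢ Icc 0 1) ∧
    (∀ q ∈ Icc (0 : ℝ) 1 ×ˢ Icc (0 : ℝ) 1, H q ∈ Y) ∧
    (∀ t ∈ Icc (0 : ℝ) 1, H (0, t) = f t ∧ H (1, t) = g t) ∧
    ∀ s ∈ Icc (0 : ℝ) 1, H (s, 0) = f 0 ∧ H (s, 1) = f 1

/-- first `f`, then `g` -/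
noncomputable def cat (f g : ℝ → N) : ℝ → N := fun t => if t ≤ 1 / 2 then f (2 * t) else g (2 * t - 1)

/-- the reversed path -/
def rv (f : ℝ → N) : ℝ → N := fun t => f (1 - t)

/-- the image of the segment from `a` to `b` -/
def seg {M : Type*} [AddCommGroup M] [Module ℝ M] (β : M → N) (a b : M) : ℝ → N :=
  fun t => β ((1 - t) • a + t • b)

/-- a homomorphism from the paths in `Y` to the group `Γ` -/
structure GHom (Y : Set N) (Γ : Type v) [Group Γ] where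
  /-- the value -/
  val : (ℝ → N) → Γ
  hmt : ∀ f g, Hmt Y f g → val f = val g
  ct : ∀ f g, PathOn Y f → PathOn Y g → f 1 = g 0 → val (cat f g) = val f * val g

/-- the value determines the homotopy class, and all values occur -/
structure Full {Y : Set N} {Γ : Type v} [Group Γ] (G : GHom Y Γ) : Prop where
  inj : ∀ f g, PathOn Y f → PathOn Y g → f 0 = g 0 → f 1 = g 1 → G.val f = G.val g → Hmt Y f g
  sur : ∀ a ∈ Y, ∀ b ∈ Y, ∀ c : Γ, ∃ f, PathOn Y f ∧ f 0 = a ∧ f 1 = b ∧ G.val f = c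

end

/-! ## chords and their classes -/

section
variable {N : Type u} [TopologicalSpace N] [ChartedSpace E3 N]

/-- the thick knot with a smaller tube -/
def kap (κ : ℝ × ℂ → N) (η : ℝ) : ℝ × ℂ → N := fun q => κ (q.1, (η : ℂ) * q.2)

/-- the thick knot with the tube turned by `c` -/
def rot (κ : ℝ × ℂ → N) (c : ℂ) : ℝ × ℂ → N := fun q => κ (q.1, c * q.2)

/-- the core of the chord, `1/8 ≤ x ≤ 7/8` -/
noncomputable def cor (T : E → N) : ℝ → N := fun t => T (0, 1 / 8 + 3 / 4 * t)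

/-- the meridian loop at the point `κ (p, r)` -/
noncomputable def mer (κ : ℝ × ℂ → N) (p r : ℝ) : ℝ → N := fun t => κ (p, (r : ℂ) * ex t)

/-- chord with standard ends in the thick knot `kap κ η` -/
structure FinE (κ : ℝ × ℂ → N) (p p' η ε : ℝ) (T : E → N) : Prop where
  pos : 0 < η
  le : η ≤ 1
  adm : Adm p p' ε
  chd : Chd (core κ) T
  std : StdE (kap κ η) p p' ε 1 T

/-- the path from `κ (p, r)` to `κ (p', r)`, `r = η' ε' / 8`, which runs radially to the chord `T` and then along its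
core -/
noncomputable def radc (κ : ℝ × ℂ → N) (p p' η ε η' ε' : ℝ) (T : E → N) : ℝ → N :=
  cat (cat (seg κ (p, ((η' * ε' / 8 : ℝ) : ℂ)) (p, ((η * ε / 8 : ℝ) : ℂ))) (cor T))
    (seg κ (p', ((η * ε / 8 : ℝ) : ℂ)) (p', ((η' * ε' / 8 : ℝ) : ℂ)))

variable {Γ : Type v} [Group Γ]

/-- the class of the chord, base points `κ (p, 1/2)` and `κ (p', 1/2)` -/
noncomputable def clV {Y : Set N} (G : GHom Y Γ) (κ : ℝ × ℂ → N) (p p' η ε : ℝ) (T : E → N) : Γ :=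
  G.val (seg κ (p, 1 / 2) (p, ((η * ε / 8 : ℝ) : ℂ))) * G.val (cor T) *
    G.val (seg κ (p', ((η * ε / 8 : ℝ) : ℂ)) (p', 1 / 2))

/-- `T` is a chord with standard ends and class `c` -/
def FinV {Y : Set N} (G : GHom Y Γ) (κ : ℝ × ℂ → N) (p p' : ℝ) (c : Γ) (T : E → N) : Prop :=
  ∃ η ε : ℝ, FinE κ p p' η ε T ∧ clV G κ p p' η ε T = c

/-- the classes which do not change the knot `kn (core κ) T` -/
def Lset {Y : Set N} (G : GHom Y Γ) (κ : ℝ × ℂ → N) (p p' : ℝ) : Set Γ :=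
  {g | ∀ c T T', FinV G κ p p' (g * c) T → FinV G κ p p' c T' → LEqN (kn (core κ) T) (kn (core κ) T')}

end

/-- the facts on chords which are proved elsewhere -/
structure Ext (N : Type u) [TopologicalSpace N] [ChartedSpace E3 N] : Prop where
  /-- existence of a chord in an open set, for a given path -/
  E1 : ∀ κ : ℝ × ℂ → N, Thick κ → ∀ p p' ε : ℝ, Adm p p' ε → Adm p p' (4 * ε) → ∀ O : Set N, IsOpen O →
    (∀ (l : ℝ) (v : ℂ), |l - p| < 4 * ε → ‖v‖ < 4 * ε → κ (l, v) ∈ O) →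
    (∀ (l : ℝ) (v : ℂ), |l - p'| < 4 * ε → ‖v‖ < 4 * ε → κ (l, v) ∈ O) →
    ∀ f : ℝ → N, PathOn (O \ core κ) f → f 0 = κ (p, ((ε / 8 : ℝ) : ℂ)) → f 1 = κ (p', ((ε / 8 : ℝ) : ℂ)) →
    ∃ T : E → N, Chd (core κ) T ∧ StdE κ p p' ε 1 T ∧ T '' TD ⊆ O ∧ Hmt (O \ core κ) (cor T) f
  /-- existence of a chord, the middle part in an open set which is disjoint from the end boxes -/
  E1b : ∀ κ : ℝ × ℂ → N, Thick κ → ∀ p p' ε : ℝ, Adm p p' ε → ∀ Y : Set N, IsOpen Y → Disjoint Y (core κ) →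
    (∀ q : E, ‖q.1‖ ≤ 1 → |q.2| ≤ 1 / 4 → footT κ p ε q ∉ Y ∧ footT κ p' ε q ∉ Y) →
    (∀ q : E, ‖q.1‖ < 1 / 2 → 1 / 4 < q.2 → q.2 < 5 / 8 → footT κ p ε q ∈ Y ∧ footT κ p' ε q ∈ Y) →
    ∀ f : ℝ → N, PathOn Y f → f 0 = κ (p, ((ε / 2 : ℝ) : ℂ)) → f 1 = κ (p', ((ε / 2 : ℝ) : ℂ)) →
    ∃ T : E → N, Chd (core κ) T ∧ StdE κ p p' ε 1 T ∧
      (∀ q ∈ TD, 1 / 4 ≤ q.2 → q.2 ≤ 3 / 4 → T q ∈ Y ∨ ∃ q' : E, ‖q'.1‖ < 1 ∧ 1 / 4 ≤ q'.2 ∧ q'.2 ≤ 3 / 8 ∧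
        (T q = footT κ p ε q' ∨ T q = footT κ p' ε q')) ∧
      Hmt (core κ)ᶜ (cor T) (cat (cat (seg κ (p, ((ε / 8 : ℝ) : ℂ)) (p, ((ε / 2 : ℝ) : ℂ))) f)
        (seg κ (p', ((ε / 2 : ℝ) : ℂ)) (p', ((ε / 8 : ℝ) : ℂ))))
  /-- uniqueness -/
  E2 : ∀ κ : ℝ × ℂ → N, Thick κ → ∀ p p' ε : ℝ, Adm p p' ε → ∀ T T' : E → N, Chd (core κ) T → Chd (core κ) T' →
    StdE κ p p' ε 1 T → StdE κ p p' ε 1 T' → Hmt (core κ)ᶜ (cor T) (cor T') →
    LEqN (kn (core κ) T) (kn (core κ) T')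
  /-- thinning -/
  Thn : ∀ κ : ℝ × ℂ → N, Thick κ → ∀ (p p' η ε : ℝ) (T : E → N), FinE κ p p' η ε T → ∀ O : Set N, IsOpen O →
    (∀ x ∈ Icc (0 : ℝ) 1, T (0, x) ∈ O) → ∃ r : ℝ, 0 < r ∧ ∀ η' ε' : ℝ, 0 < η' → η' ≤ r → 0 < ε' → ε' ≤ r →
    ∃ T' : E → N, FinE κ p p' η' ε' T' ∧ IsCompact (closure (T' '' TD)) ∧ closure (T' '' TD) ⊆ O ∩ T '' TD ∧
      LEqN (kn (core κ) T) (kn (core κ) T') ∧ Hmt (core κ)ᶜ (cor T') (radc κ p p' η ε η' ε' T)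
  /-- the foot moves along the knot, from `p` to `p₀` -/
  Sld : ∀ κ : ℝ × ℂ → N, Thick κ → ∀ (p p₀ p' η ε : ℝ) (T : E → N), FinE κ p p' η ε T →
    (∀ k : ℤ, p' + k ∉ uIcc p p₀) → ∃ (η' ε' : ℝ) (T' : E → N), FinE κ p₀ p' η' ε' T' ∧
      LEqN (kn (core κ) T) (kn (core κ) T') ∧
      Hmt (core κ)ᶜ (cor T') (cat (seg κ (p₀, ((η' * ε' / 8 : ℝ) : ℂ)) (p, ((η' * ε' / 8 : ℝ) : ℂ)))
        (radc κ p p' η ε η' ε' T))
  /-- the foot moves around the knot -/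
  Mrd : ∀ κ : ℝ × ℂ → N, Thick κ → ∀ (p p' η ε : ℝ) (T : E → N), FinE κ p p' η ε T →
    ∃ (η' ε' : ℝ) (T' : E → N), FinE κ p p' η' ε' T' ∧ LEqN (kn (core κ) T) (kn (core κ) T') ∧
      Hmt (core κ)ᶜ (cor T') (cat (mer κ p (η' * ε' / 8)) (radc κ p p' η ε η' ε' T))
  /-- a path can avoid the cores of chords -/
  Avd : ∀ κ : ℝ × ℂ → N, Thick κ → ∀ T : ℕ → E → N, (∀ n, Chd (core κ) (T n)) → ∀ (m : ℕ) (f : ℝ → N),
    PathOn (core κ)ᶜ f → (∀ n < m, ∀ x ∈ Icc (-(1 / 5) : ℝ) (6 / 5), T n (0, x) ≠ f 0 ∧ T n (0, x) ≠ f 1) →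
    ∃ g : ℝ → N, Hmt (core κ)ᶜ f g ∧
      ∀ n < m, ∀ x ∈ Icc (-(1 / 5) : ℝ) (6 / 5), ∀ t ∈ Icc (0 : ℝ) 1, T n (0, x) ≠ g t
  /-- the complement of a knot is path connected -/
  Pcn : ∀ κ : ℝ × ℂ → N, Thick κ → IsPathConnected (core κ)ᶜ

/-! ## the special configuration -/

/-- the point `(x + i y, z)` -/
def P3 (x y z : ℝ) : E := (⟨x, y⟩, z)

/-- the coordinate change near the horizontal pair -/
noncomputable def ja (q : E) : E := (⟨q.1.re / 64, q.2 / 64⟩, -(32 * q.1.im))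

/-- the coordinate change near the vertical pair -/
noncomputable def jb (q : E) : E := (⟨5 / 16 + q.1.im / 64, (1 - q.2) / 64⟩, -(32 * q.1.re))

/-- two parallel strands -/
def TSB : Set E := {q | q ∈ TD ∧ q.1.im = 0 ∧ (q.2 = 0 ∨ q.2 = 1)}

/-- horizontal pair and vertical pair -/
def TS2 : Set E := {q | q ∈ TD ∧ ((q.2 = 0 ∧ (q.1.im = 0 ∨ q.1.im = -(1 / 32))) ∨
  (q.2 = 1 ∧ (q.1.re = 0 ∨ q.1.re = -(1 / 32))))}

/-- the horizontal pair has passed the vertical pair -/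
def TF2 : Set E := {q | q ∈ TD ∧ ((q.2 = 9 / 8 * bmp q.1.re ∧ (q.1.im = 0 ∨ q.1.im = -(1 / 32))) ∨
  (q.2 = 1 ∧ (q.1.re = 0 ∨ q.1.re = -(1 / 32))))}

/-- the slab -/
def Slab : Set E := {q | |q.1.re| ≤ 3 / 4 ∧ |q.1.im| ≤ 1 / 640 ∧ -(9 / 64) ≤ q.2 ∧ q.2 ≤ 73 / 64}

/-- the larger slab -/
def SlabT : Set E := {q | |q.1.re| ≤ 3 / 4 ∧ |q.1.im| ≤ 1 / 512 ∧ -(1 / 5) ≤ q.2 ∧ q.2 ≤ 6 / 5}

section
variable {N : Type u} [TopologicalSpace N] [ChartedSpace E3 N]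

/-- the two charts of a special configuration -/
structure SP (K : Set N) (B W : E → N) : Prop where
  chtB : Cht TD B
  hitB : K ∩ B '' TD = B '' TSB
  chtW : Cht TD W
  hitW : K ∩ W '' TD = W '' TS2
  relA : ∀ q ∈ TD, |q.2| ≤ 1 / 10 → -(9 / 64) ≤ -(32 * q.1.im) → -(32 * q.1.im) ≤ 73 / 64 → W q = B (ja q)
  relB : ∀ q ∈ TD, |q.2 - 1| ≤ 1 / 10 → -(9 / 64) ≤ -(32 * q.1.re) → -(32 * q.1.re) ≤ 73 / 64 → W q = B (jb q)
  sep : ∀ q ∈ TD, ∀ r ∈ Slab, W q = B r → (|q.2| ≤ 1 / 10 ∧ ja q = r) ∨ (|q.2 - 1| ≤ 1 / 10 ∧ jb q = r)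

/-- the new set -/
def KW (K : Set N) (W : E → N) : Set N := (K \ W '' TD) ∪ W '' TF2

/-- the box around the ribbon, in the chart `B` -/
def QCB : Set E := {q | |q.1.re| ≤ 1 / 2 ∧ |q.1.im| ≤ 1 / 1024 ∧ -(1 / 12) ≤ q.2 ∧ q.2 ≤ 13 / 12}

/-- the box around the moving part of the ribbon, in the chart `W` -/
def QCW : Set E := {q | |q.1.re| ≤ 1 / 8 ∧ -(13 / 384) ≤ q.1.im ∧ q.1.im ≤ 1 / 384 ∧ -(1 / 16) ≤ q.2 ∧ q.2 ≤ 19 / 16}

/-- the support of the move -/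
def QC (B W : E → N) : Set N := B '' QCB ∪ W '' QCW

/-- position of the strands `re ζ = ± 1` of the ribbon -/
noncomputable def Xr (r : ℝ) : ℝ := 1 / 2 - r / Real.sqrt (1 + 3 * r ^ 2)

/-- the ribbon -/
noncomputable def bl (B W : E → N) (l : ℝ) (q : E) : N :=
  if |q.2| < 1 / 64 then W (⟨32 * q.2, -(Xr q.1.re / 32)⟩, q.1.im / 64 + l * (9 / 8 * bmp (32 * q.2)))
  else B (⟨q.2 / 2, q.1.im / 4096⟩, Xr q.1.re)

/-- the part of the chart `W` which is moved -/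
def QA : Set E := {q | |q.1.re| ≤ 1 / 8 ∧ -(13 / 384) ≤ q.1.im ∧ q.1.im ≤ 1 / 384 ∧ |q.2| ≤ 1 / 16}

/-- the move, on a neighbourhood of the knot -/
noncomputable def Psi (W : E → N) (y : N) : N := by
  classical
  exact if h : ∃ q ∈ QA, W q = y then W (h.choose.1, h.choose.2 + 9 / 8 * bmp h.choose.1.re) else y

/-- the thick knot with core `KW (core κ) W` -/
noncomputable def kW (κ : ℝ × ℂ → N) (W : E → N) (η : ℝ) : ℝ × ℂ → N := fun q => Psi W (κ (q.1, (η : ℂ) * q.2))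

/-- the chart `B` and the thick knot: the strand `x = 0` is the arc of the knot near `l = P`, the strand `x = 1` the arc
near `l = P₂` -/
structure Lnk (κ : ℝ × ℂ → N) (B : E → N) (P P₂ D H H' τ : ℝ) : Prop where
  Dpos : 0 < D
  Dlt : D < 1 / 4
  Hpos : 0 < H
  Hlt : H < 1 / 4
  Hpos' : 0 < H'
  Hlt' : H' < 1 / 4
  sgn : τ = 1 ∨ τ = -1
  foot : ∀ q ∈ TD, q.2 < 1 / 4 → B q = κ (P + D * q.1.re, -⟨H * q.2, H' * q.1.im⟩)
  tip : ∀ q ∈ TD, 3 / 4 < q.2 → B q = κ (P₂ + τ * D * q.1.re, -⟨H * (1 - q.2), -(τ * H' * q.1.im)⟩)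

/-- the positions: `p`, `P`, `p₀`, `P₂`, `p'` in this order -/
structure Pos (p P p₀ P₂ p' D : ℝ) : Prop where
  h1 : p < P - D
  h2 : P + D < p₀
  h3 : p₀ < P₂ - D
  h4 : P₂ + D < p'
  h5 : p' < p + 1

/-- the untwisted thin chord tube, two parallel strands in the direction of `re u` -/
noncomputable def Bd (T : E → N) (δ τ : ℝ) (q : E) : N :=
  T (ex (τ / 4 * stp (1 / 4) (3 / 4) q.2) * ((δ : ℂ) * q.1), q.2)

end

/-! ## the values of the special paths -/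

section
variable {N : Type u} [TopologicalSpace N] {Γ : Type v} [Group Γ] {Y : Set N}

/-- the loop around the two strands of `B`, in the plane `re u = r` -/
noncomputable def BL (G : GHom Y Γ) (B : E → N) (r : ℝ) : Γ :=
  G.val (seg B (P3 r 0 (-(1 / 8))) (P3 r (-(1 / 768)) (-(1 / 8)))) *
  G.val (seg B (P3 r (-(1 / 768)) (-(1 / 8))) (P3 r (-(1 / 768)) (9 / 8))) *
  G.val (seg B (P3 r (-(1 / 768)) (9 / 8)) (P3 r (1 / 768) (9 / 8))) *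
  G.val (seg B (P3 r (1 / 768) (9 / 8)) (P3 r (1 / 768) (-(1 / 8)))) *
  G.val (seg B (P3 r (1 / 768) (-(1 / 8))) (P3 r 0 (-(1 / 8))))

/-- from the outer side of the first strand of `B` to the outer side of the second one, over `im u > 0` -/
noncomputable def HU (G : GHom Y Γ) (B : E → N) (r : ℝ) : Γ :=
  G.val (seg B (P3 r 0 (-(1 / 8))) (P3 r (1 / 768) (-(1 / 8)))) *
  G.val (seg B (P3 r (1 / 768) (-(1 / 8))) (P3 r (1 / 768) (9 / 8))) *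
  G.val (seg B (P3 r (1 / 768) (9 / 8)) (P3 r 0 (9 / 8)))

/-- over the vertical pair -/
noncomputable def Ov (G : GHom Y Γ) (W : E → N) : Γ :=
  G.val (seg W (P3 (-(1 / 4)) (1 / 256) 0) (P3 (-(1 / 4)) (1 / 256) (39 / 32))) *
  G.val (seg W (P3 (-(1 / 4)) (1 / 256) (39 / 32)) (P3 (1 / 4) (1 / 256) (39 / 32))) *
  G.val (seg W (P3 (1 / 4) (1 / 256) (39 / 32)) (P3 (1 / 4) (1 / 256) 0))

/-- under the horizontal pair -/
noncomputable def Lo (G : GHom Y Γ) (W : E → N) : Γ :=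
  G.val (seg W (P3 (1 / 256) (-(1 / 4)) 1) (P3 (1 / 256) (-(1 / 4)) (-(1 / 8)))) *
  G.val (seg W (P3 (1 / 256) (-(1 / 4)) (-(1 / 8))) (P3 (1 / 256) (1 / 4) (-(1 / 8)))) *
  G.val (seg W (P3 (1 / 256) (1 / 4) (-(1 / 8))) (P3 (1 / 256) (1 / 4) 1))

/-- from the horizontal pair to the vertical pair -/
noncomputable def Xc (G : GHom Y Γ) (W : E → N) : Γ :=
  G.val (seg W (P3 (-(1 / 4)) (1 / 256) 0) (P3 (-(1 / 4)) (1 / 256) (1 / 2))) *
  G.val (seg W (P3 (-(1 / 4)) (1 / 256) (1 / 2)) (P3 (1 / 256) (-(1 / 4)) (1 / 2))) *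
  G.val (seg W (P3 (1 / 256) (-(1 / 4)) (1 / 2)) (P3 (1 / 256) (-(1 / 4)) 1))

/-- the loop around the vertical pair, in the plane `im w = c` -/
noncomputable def RL (G : GHom Y Γ) (W : E → N) (c : ℝ) : Γ :=
  G.val (seg W (P3 (3 / 64) c (1 / 2)) (P3 (3 / 64) c (13 / 12))) *
  G.val (seg W (P3 (3 / 64) c (13 / 12)) (P3 (-(3 / 64)) c (13 / 12))) *
  G.val (seg W (P3 (-(3 / 64)) c (13 / 12)) (P3 (-(3 / 64)) c (1 / 2))) *
  G.val (seg W (P3 (-(3 / 64)) c (1 / 2)) (P3 (3 / 64) c (1 / 2)))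

/-- under the horizontal pair, in the plane `re w = 3/64` -/
noncomputable def Lw (G : GHom Y Γ) (W : E → N) : Γ :=
  G.val (seg W (P3 (3 / 64) (1 / 4) (1 / 2)) (P3 (3 / 64) (1 / 4) (-(1 / 8)))) *
  G.val (seg W (P3 (3 / 64) (1 / 4) (-(1 / 8))) (P3 (3 / 64) (-(1 / 4)) (-(1 / 8)))) *
  G.val (seg W (P3 (3 / 64) (-(1 / 4)) (-(1 / 8))) (P3 (3 / 64) (-(1 / 4)) (1 / 2)))

/-- from `κ (p, ρ)` to the special configuration -/
noncomputable def In (G : GHom Y Γ) (κ : ℝ × ℂ → N) (B : E → N) (p P D H ρ : ℝ) : Γ :=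
  G.val (seg κ (p, (ρ : ℂ)) (P - 3 / 4 * D, (ρ : ℂ))) *
  G.val (seg B (P3 (-(3 / 4)) 0 (-(ρ / H))) (P3 (-(3 / 4)) 0 (-(1 / 8)))) *
  G.val (seg B (P3 (-(3 / 4)) 0 (-(1 / 8))) (P3 (-(1 / 256)) 0 (-(1 / 8))))

/-- from the special configuration to `κ (p₀, ρ)` -/
noncomputable def Out (G : GHom Y Γ) (κ : ℝ × ℂ → N) (B : E → N) (p₀ P D H ρ : ℝ) : Γ :=
  G.val (seg B (P3 (81 / 256) 0 (-(1 / 8))) (P3 (3 / 4) 0 (-(1 / 8)))) *
  G.val (seg B (P3 (3 / 4) 0 (-(1 / 8))) (P3 (3 / 4) 0 (-(ρ / H)))) *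
  G.val (seg κ (P + 3 / 4 * D, (ρ : ℂ)) (p₀, (ρ : ℂ)))

/-- the value of the path of relation (3) -/
noncomputable def ex3 (G : GHom Y Γ) (κ : ℝ × ℂ → N) (B W : E → N) (p p₀ P D H ρ : ℝ) : Γ :=
  In G κ B p P D H ρ * Ov G W *
  G.val (seg B (P3 (1 / 256) 0 (-(1 / 8))) (P3 (79 / 256) 0 (-(1 / 8)))) *
  Lo G W * Out G κ B p₀ P D H ρ

/-- from `κ (p, ρ)` to the base point of the loop of relation (1) -/
noncomputable def In1 (G : GHom Y Γ) (κ : ℝ × ℂ → N) (B W : E → N) (p P D H ρ : ℝ) : Γ :=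
  In G κ B p P D H ρ *
  G.val (seg W (P3 (-(1 / 4)) (1 / 256) 0) (P3 (-(1 / 4)) (1 / 256) (1 / 2))) *
  G.val (seg W (P3 (-(1 / 4)) (1 / 256) (1 / 2)) (P3 (3 / 64) (1 / 4) (1 / 2)))

/-- the value of the loop of relation (1) -/
noncomputable def ex1 (G : GHom Y Γ) (κ : ℝ × ℂ → N) (B W : E → N) (p P D H ρ : ℝ) : Γ :=
  In1 G κ B W p P D H ρ * (RL G W (1 / 4) * Lw G W * (RL G W (-(1 / 4)))⁻¹ * (Lw G W)⁻¹) *
  (In1 G κ B W p P D H ρ)⁻¹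

/-- from the base point `κ (p, 1/2)` to the special configuration -/
noncomputable def t0 (G : GHom Y Γ) (κ : ℝ × ℂ → N) (p P D H : ℝ) : Γ :=
  G.val (seg κ (p, 1 / 2) (P - D / 256, ((H / 8 : ℝ) : ℂ)))

/-- the element `β` -/
noncomputable def bet (G : GHom Y Γ) (κ : ℝ × ℂ → N) (B : E → N) (p P D H : ℝ) : Γ :=
  t0 G κ p P D H * BL G B (-(1 / 256)) * (t0 G κ p P D H)⁻¹

/-- the element `e` -/
noncomputable def lbe (G : GHom Y Γ) (κ : ℝ × ℂ → N) (B W : E → N) (p P D H : ℝ) : Γ :=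
  t0 G κ p P D H * Xc G W *
  (t0 G κ p P D H * G.val (seg B (P3 (-(1 / 256)) 0 (-(1 / 8))) (P3 (79 / 256) 0 (-(1 / 8)))))⁻¹

/-- the element `a` -/
noncomputable def lba (G : GHom Y Γ) (κ : ℝ × ℂ → N) (B : E → N) (p P P₂ D H τ : ℝ) : Γ :=
  t0 G κ p P D H * HU G B (-(1 / 256)) *
  G.val (seg κ (P₂ - τ * D / 256, ((H / 8 : ℝ) : ℂ)) (p, 1 / 2))

end

end Pool.Agent.NHR
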