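import Mathlib
import Pool.Agent.NHR.Defs

/-!
# NHR/Pth: calculus of paths and homotopies (difficulty 2)

Elementary.  `Hmt.cat`: glue the homotopies (`if t ≤ 1/2`).  `val_const`: `cat f f` agrees with `f` on `[0, 1]`, so
`val f = val f * val f`.  `val_rv`: `cat f (rv f)` is homotopic to the constant path `f 0` by
`H (s, t) = f ((1 - s) * (if t ≤ 1/2 then 2 t else 2 - 2 t))`, then `val_const`.
-/

open scoped Manifold ContDiff Topology
open Set Filter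
open Pool.Agent.CSG (stp)
open Pool.Agent.RSG (E3 ex Thick)
open Pool.Agent.KNT (Dom Str Str2 bmp)
open Pool.Agent.NHP

namespace Pool.Agent.NHR

universe u v

variable {N : Type u} [TopologicalSpace N] {Y Y' : Set N} {f f' g g' : ℝ → N}

theorem pth_seg {a b s : ℝ} (ha : a ∈ Icc (0 : ℝ) 1) (hb : b ∈ Icc (0 : ℝ) 1) (hs : s ∈ Icc (0 : ℝ) 1) :
    (1 - s) * a + s * b ∈ Icc (0 : ℝ) 1 := by
  obtain ⟨h1, h2⟩ := hs
  obtain ⟨h3, h4⟩ := ha
  obtain ⟨h5, h6⟩ := hb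
  have h7 : 0 ≤ 1 - s := by linarith
  constructor
  · have := mul_nonneg h7 h3
    have := mul_nonneg h1 h5
    linarith
  · nlinarith [mul_le_mul_of_nonneg_left h4 h7, mul_le_mul_of_nonneg_left h6 h1]

/-- gluing in the second variable -/
theorem pth_glue {H H' : ℝ × ℝ → N} (h : ContinuousOn H (Icc 0 1 ×ˢ Icc 0 1))
    (h' : ContinuousOn H' (Icc 0 1 ×ˢ Icc 0 1)) (he : ∀ s ∈ Icc (0 : ℝ) 1, H (s, 1) = H' (s, 0)) :
    ContinuousOn (fun q : ℝ × ℝ => if q.2 ≤ 1 / 2 then H (q.1, 2 * q.2) else H' (q.1, 2 * q.2 - 1))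
      (Icc 0 1 ×ˢ Icc 0 1) := by
  have hA : ContinuousOn (fun q : ℝ × ℝ => if q.2 ≤ 1 / 2 then H (q.1, 2 * q.2) else H' (q.1, 2 * q.2 - 1))
      (Icc (0 : ℝ) 1 ×ˢ Icc (0 : ℝ) (1 / 2)) := by
    have h1 : ContinuousOn (fun q : ℝ × ℝ => H (q.1, 2 * q.2)) (Icc (0 : ℝ) 1 ×ˢ Icc (0 : ℝ) (1 / 2)) := by
      refine h.comp (f := fun q : ℝ × ℝ => (q.1, 2 * q.2)) (by fun_prop) ?_
      rintro ⟨s, t⟩ ⟨hs, ht1, ht2⟩
      simp only at ht1 ht2
      exact ⟨hs, by show 0 ≤ 2 * t; linarith, by show 2 * t ≤ 1; linarith⟩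
    refine h1.congr ?_
    rintro ⟨s, t⟩ ⟨hs, ht1, ht2⟩
    exact if_pos ht2
  have hB : ContinuousOn (fun q : ℝ × ℝ => if q.2 ≤ 1 / 2 then H (q.1, 2 * q.2) else H' (q.1, 2 * q.2 - 1))
      (Icc (0 : ℝ) 1 ×ˢ Icc (1 / 2 : ℝ) 1) := by
    have h1 : ContinuousOn (fun q : ℝ × ℝ => H' (q.1, 2 * q.2 - 1)) (Icc (0 : ℝ) 1 ×ˢ Icc (1 / 2 : ℝ) 1) := by
      refine h'.comp (f := fun q : ℝ × ℝ => (q.1, 2 * q.2 - 1)) (by fun_prop) ?_
      rintro ⟨s, t⟩ ⟨hs, ht1, ht2⟩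
      simp only at ht1 ht2
      exact ⟨hs, by show 0 ≤ 2 * t - 1; linarith, by show 2 * t - 1 ≤ 1; linarith⟩
    refine h1.congr ?_
    rintro ⟨s, t⟩ ⟨hs, ht1, ht2⟩
    simp only at ht1 ht2
    by_cases h2 : t ≤ 1 / 2
    · have h3 : t = 1 / 2 := le_antisymm h2 ht1
      show (if t ≤ 1 / 2 then H (s, 2 * t) else H' (s, 2 * t - 1)) = H' (s, 2 * t - 1)
      rw [if_pos h2, h3]
      have h4 := he s hs
      norm_num
      exact h4
    · exact if_neg h2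
  have hu : (Icc (0 : ℝ) 1 ×ˢ Icc (0 : ℝ) 1) = (Icc (0 : ℝ) 1 ×ˢ Icc (0 : ℝ) (1 / 2)) ∪ (Icc (0 : ℝ) 1 ×ˢ Icc (1 / 2 : ℝ) 1) := by
    rw [← prod_union, Icc_union_Icc_eq_Icc (by norm_num) (by norm_num)]
  rw [hu]
  exact hA.union_of_isClosed hB (isClosed_Icc.prod isClosed_Icc) (isClosed_Icc.prod isClosed_Icc)

/-- the condition of membership of a glued function -/
theorem pth_glue_mem {P : N → Prop} {F F' : ℝ → N} (h : ∀ t ∈ Icc (0 : ℝ) 1, P (F t)) (h' : ∀ t ∈ Icc (0 : ℝ) 1, P (F' t))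
    {t : ℝ} (ht : t ∈ Icc (0 : ℝ) 1) : P (if t ≤ 1 / 2 then F (2 * t) else F' (2 * t - 1)) := by
  obtain ⟨h1, h2⟩ := ht
  split_ifs with h3
  · exact h _ ⟨by linarith, by linarith⟩
  · exact h' _ ⟨by linarith [not_le.1 h3], by linarith⟩

theorem pth_sq {f : ℝ → N} (h : ContinuousOn f (Icc 0 1)) :
    ContinuousOn (fun q : ℝ × ℝ => f q.2) (Icc (0 : ℝ) 1 ×ˢ Icc (0 : ℝ) 1) :=
  h.comp (f := fun q : ℝ × ℝ => q.2) (by fun_prop) (fun q hq => hq.2)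

theorem PathOn.mono (h : PathOn Y f) (hY : Y ⊆ Y') : PathOn Y' f :=
  ⟨h.1, fun t ht => hY (h.2 t ht)⟩

theorem PathOn.congr (h : PathOn Y f) (h' : ∀ t ∈ Icc (0 : ℝ) 1, g t = f t) : PathOn Y g :=
  ⟨h.1.congr h', fun t ht => by rw [h' t ht]; exact h.2 t ht⟩

theorem PathOn.cat (hf : PathOn Y f) (hg : PathOn Y g) (h : f 1 = g 0) : PathOn Y (cat f g) := by
  refine ⟨?_, fun t ht => pth_glue_mem (P := fun y => y ∈ Y) hf.2 hg.2 ht⟩
  have h1 := pth_glue (pth_sq hf.1) (pth_sq hg.1) (fun s _ => h)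
  exact h1.comp (f := fun t : ℝ => ((0 : ℝ), t)) (by fun_prop) (fun t ht => ⟨⟨le_rfl, zero_le_one⟩, ht⟩)

theorem PathOn.rv (hf : PathOn Y f) : PathOn Y (rv f) :=
  ⟨hf.1.comp (f := fun t : ℝ => 1 - t) (by fun_prop) (fun t ht => ⟨by linarith [ht.2], by linarith [ht.1]⟩),
    fun t ht => hf.2 _ ⟨by linarith [ht.2], by linarith [ht.1]⟩⟩

theorem cat_zero (f g : ℝ → N) : cat f g 0 = f 0 := by
  unfold cat
  rw [if_pos (by norm_num), mul_zero]

theorem cat_one (f g : ℝ → N) : cat f g 1 = g 1 := by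
  unfold cat
  rw [if_neg (by norm_num)]
  norm_num

theorem rv_zero (f : ℝ → N) : rv f 0 = f 1 := by
  unfold rv
  rw [sub_zero]

theorem rv_one (f : ℝ → N) : rv f 1 = f 0 := by
  unfold rv
  rw [sub_self]

theorem pth_I0 : (0 : ℝ) ∈ Icc (0 : ℝ) 1 := ⟨le_rfl, zero_le_one⟩

theorem pth_I1 : (1 : ℝ) ∈ Icc (0 : ℝ) 1 := ⟨zero_le_one, le_rfl⟩

theorem Hmt.congr (h : PathOn Y f) (h' : ∀ t ∈ Icc (0 : ℝ) 1, g t = f t) : Hmt Y f g :=
  ⟨fun q => f q.2, pth_sq h.1, fun q hq => h.2 _ hq.2, fun t ht => ⟨rfl, (h' t ht).symm⟩, fun s _ => ⟨rfl, rfl⟩⟩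

theorem Hmt.refl (h : PathOn Y f) : Hmt Y f f := Hmt.congr h fun _ _ => rfl

theorem Hmt.zero (h : Hmt Y f g) : f 0 = g 0 := by
  obtain ⟨H, -, -, h1, h2⟩ := h
  rw [← (h1 0 pth_I0).2, (h2 1 pth_I1).1]

theorem Hmt.one (h : Hmt Y f g) : f 1 = g 1 := by
  obtain ⟨H, -, -, h1, h2⟩ := h
  rw [← (h1 1 pth_I1).2, (h2 1 pth_I1).2]

theorem Hmt.symm (h : Hmt Y f g) : Hmt Y g f := by
  have e0 := h.zero
  have e1 := h.one
  obtain ⟨H, hc, hm, h1, h2⟩ := h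
  have hf : ∀ s ∈ Icc (0 : ℝ) 1, 1 - s ∈ Icc (0 : ℝ) 1 := fun s hs => ⟨by linarith [hs.2], by linarith [hs.1]⟩
  refine ⟨fun q => H (1 - q.1, q.2), ?_, ?_, ?_, ?_⟩
  · exact hc.comp (f := fun q : ℝ × ℝ => (1 - q.1, q.2)) (by fun_prop) (fun q hq => ⟨hf _ hq.1, hq.2⟩)
  · exact fun q hq => hm _ ⟨hf _ hq.1, hq.2⟩
  · intro t ht
    show H (1 - 0, t) = g t ∧ H (1 - 1, t) = f t
    rw [sub_zero, sub_self]
    exact ⟨(h1 t ht).2, (h1 t ht).1⟩
  · intro s hs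
    show H (1 - s, 0) = g 0 ∧ H (1 - s, 1) = g 1
    rw [← e0, ← e1]
    exact h2 _ (hf s hs)

theorem Hmt.trans {k : ℝ → N} (h : Hmt Y f g) (h' : Hmt Y g k) : Hmt Y f k := by
  have e0 := h.zero
  have e1 := h.one
  obtain ⟨H, hc, hm, h1, h2⟩ := h
  obtain ⟨H', hc', hm', h1', h2'⟩ := h'
  have hsw : ∀ {F : ℝ × ℝ → N}, ContinuousOn F (Icc 0 1 ×ˢ Icc 0 1) →
      ContinuousOn (fun q : ℝ × ℝ => F (q.2, q.1)) (Icc 0 1 ×ˢ Icc 0 1) := fun hF =>
    hF.comp (f := fun q : ℝ × ℝ => (q.2, q.1)) (by fun_prop) (fun q hq => ⟨hq.2, hq.1⟩)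
  refine ⟨fun q => if q.1 ≤ 1 / 2 then H (2 * q.1, q.2) else H' (2 * q.1 - 1, q.2), ?_, ?_, ?_, ?_⟩
  · exact hsw (pth_glue (hsw hc) (hsw hc') (fun t ht => by
      show H (1, t) = H' (0, t)
      rw [(h1 t ht).2, (h1' t ht).1]))
  · rintro ⟨s, t⟩ ⟨hs, ht⟩
    exact pth_glue_mem (P := fun y => y ∈ Y) (F := fun s => H (s, t)) (F' := fun s => H' (s, t))
      (fun s hs => hm _ ⟨hs, ht⟩) (fun s hs => hm' _ ⟨hs, ht⟩) hs
  · intro t ht
    constructor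
    · show (if (0 : ℝ) ≤ 1 / 2 then H (2 * 0, t) else H' (2 * 0 - 1, t)) = f t
      rw [if_pos (by norm_num), mul_zero]
      exact (h1 t ht).1
    · show (if (1 : ℝ) ≤ 1 / 2 then H (2 * 1, t) else H' (2 * 1 - 1, t)) = k t
      rw [if_neg (by norm_num)]
      have h3 := (h1' t ht).2
      norm_num
      exact h3
  · intro s hs
    constructor
    · exact pth_glue_mem (P := fun y => y = f 0) (F := fun s => H (s, 0)) (F' := fun s => H' (s, 0))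
        (fun s hs => (h2 s hs).1) (fun s hs => by rw [e0]; exact (h2' s hs).1) hs
    · exact pth_glue_mem (P := fun y => y = f 1) (F := fun s => H (s, 1)) (F' := fun s => H' (s, 1))
        (fun s hs => (h2 s hs).2) (fun s hs => by rw [e1]; exact (h2' s hs).2) hs

theorem Hmt.mono (h : Hmt Y f g) (hY : Y ⊆ Y') : Hmt Y' f g := by
  obtain ⟨H, hc, hm, h1, h2⟩ := h
  exact ⟨H, hc, fun q hq => hY (hm q hq), h1, h2⟩

theorem Hmt.left (h : Hmt Y f g) : PathOn Y f := by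
  obtain ⟨H, hc, hm, h1, h2⟩ := h
  refine ⟨?_, fun t ht => ?_⟩
  · have h3 : ContinuousOn (fun t : ℝ => H (0, t)) (Icc 0 1) :=
      hc.comp (f := fun t : ℝ => ((0 : ℝ), t)) (by fun_prop) (fun t ht => ⟨pth_I0, ht⟩)
    exact h3.congr (fun t ht => (h1 t ht).1.symm)
  · rw [← (h1 t ht).1]
    exact hm _ ⟨pth_I0, ht⟩

theorem Hmt.right (h : Hmt Y f g) : PathOn Y g := h.symm.left

theorem Hmt.cat (h : Hmt Y f f') (h' : Hmt Y g g') (h1 : f 1 = g 0) : Hmt Y (cat f g) (cat f' g') := by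
  obtain ⟨H, hc, hm, h1, h2⟩ := h
  obtain ⟨H', hc', hm', h1', h2'⟩ := h'
  refine ⟨fun q => if q.2 ≤ 1 / 2 then H (q.1, 2 * q.2) else H' (q.1, 2 * q.2 - 1), ?_, ?_, ?_, ?_⟩
  · exact pth_glue hc hc' (fun s hs => by rw [(h2 s hs).2, (h2' s hs).1]; assumption)
  · rintro ⟨s, t⟩ ⟨hs, ht⟩
    exact pth_glue_mem (P := fun y => y ∈ Y) (F := fun t => H (s, t)) (F' := fun t => H' (s, t))
      (fun t ht => hm _ ⟨hs, ht⟩) (fun t ht => hm' _ ⟨hs, ht⟩) ht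
  · rintro t ⟨ht1, ht2⟩
    constructor
    · show (if t ≤ 1 / 2 then H (0, 2 * t) else H' (0, 2 * t - 1)) = if t ≤ 1 / 2 then f (2 * t) else g (2 * t - 1)
      split_ifs with h3
      · exact (h1 _ ⟨by linarith, by linarith⟩).1
      · exact (h1' _ ⟨by linarith [not_le.1 h3], by linarith⟩).1
    · show (if t ≤ 1 / 2 then H (1, 2 * t) else H' (1, 2 * t - 1)) = if t ≤ 1 / 2 then f' (2 * t) else g' (2 * t - 1)
      split_ifs with h3
      · exact (h1 _ ⟨by linarith, by linarith⟩).2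
      · exact (h1' _ ⟨by linarith [not_le.1 h3], by linarith⟩).2
  · intro s hs
    rw [cat_zero, cat_one]
    constructor
    · show (if (0 : ℝ) ≤ 1 / 2 then H (s, 2 * 0) else H' (s, 2 * 0 - 1)) = f 0
      rw [if_pos (by norm_num), mul_zero]
      exact (h2 s hs).1
    · show (if (1 : ℝ) ≤ 1 / 2 then H (s, 2 * 1) else H' (s, 2 * 1 - 1)) = g 1
      rw [if_neg (by norm_num)]
      have h3 := (h2' s hs).2
      norm_num
      exact h3

theorem Hmt.rv (h : Hmt Y f g) : Hmt Y (rv f) (rv g) := by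
  obtain ⟨H, hc, hm, h1, h2⟩ := h
  have hf : ∀ s ∈ Icc (0 : ℝ) 1, 1 - s ∈ Icc (0 : ℝ) 1 := fun s hs => ⟨by linarith [hs.2], by linarith [hs.1]⟩
  refine ⟨fun q => H (q.1, 1 - q.2), ?_, ?_, ?_, ?_⟩
  · exact hc.comp (f := fun q : ℝ × ℝ => (q.1, 1 - q.2)) (by fun_prop) (fun q hq => ⟨hq.1, hf _ hq.2⟩)
  · exact fun q hq => hm _ ⟨hq.1, hf _ hq.2⟩
  · exact fun t ht => h1 _ (hf t ht)
  · intro s hs
    rw [rv_zero, rv_one]
    show H (s, 1 - 0) = f 1 ∧ H (s, 1 - 1) = f 0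
    rw [sub_zero, sub_self]
    exact ⟨(h2 s hs).2, (h2 s hs).1⟩

/-- change of the parameter -/
theorem Hmt.pth_repar (h : PathOn Y f) {φ ψ : ℝ → ℝ} (hφ : ContinuousOn φ (Icc 0 1)) (hψ : ContinuousOn ψ (Icc 0 1))
    (hφm : ∀ t ∈ Icc (0 : ℝ) 1, φ t ∈ Icc (0 : ℝ) 1) (hψm : ∀ t ∈ Icc (0 : ℝ) 1, ψ t ∈ Icc (0 : ℝ) 1)
    (h0 : φ 0 = ψ 0) (h1 : φ 1 = ψ 1) : Hmt Y (fun t => f (φ t)) (fun t => f (ψ t)) := by
  have hm : ∀ q ∈ Icc (0 : ℝ) 1 ×ˢ Icc (0 : ℝ) 1, (1 - q.1) * φ q.2 + q.1 * ψ q.2 ∈ Icc (0 : ℝ) 1 :=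
    fun q hq => pth_seg (hφm _ hq.2) (hψm _ hq.2) hq.1
  refine ⟨fun q => f ((1 - q.1) * φ q.2 + q.1 * ψ q.2), ?_, fun q hq => h.2 _ (hm q hq), ?_, ?_⟩
  · refine h.1.comp ?_ hm
    have h2 : ContinuousOn (fun q : ℝ × ℝ => φ q.2) (Icc (0 : ℝ) 1 ×ˢ Icc (0 : ℝ) 1) := pth_sq hφ
    have h3 : ContinuousOn (fun q : ℝ × ℝ => ψ q.2) (Icc (0 : ℝ) 1 ×ˢ Icc (0 : ℝ) 1) := pth_sq hψ
    have h4 : ContinuousOn (fun q : ℝ × ℝ => 1 - q.1) (Icc (0 : ℝ) 1 ×ˢ Icc (0 : ℝ) 1) := by fun_prop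
    have h5 : ContinuousOn (fun q : ℝ × ℝ => q.1) (Icc (0 : ℝ) 1 ×ˢ Icc (0 : ℝ) 1) := by fun_prop
    exact (h4.mul h2).add (h5.mul h3)
  · intro t _
    constructor
    · show f ((1 - 0) * φ t + 0 * ψ t) = f (φ t)
      congr 1; ring
    · show f ((1 - 1) * φ t + 1 * ψ t) = f (ψ t)
      congr 1; ring
  · intro s _
    constructor
    · show f ((1 - s) * φ 0 + s * ψ 0) = f (φ 0)
      rw [← h0]; congr 1; ring
    · show f ((1 - s) * φ 1 + s * ψ 1) = f (φ 1)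
      rw [← h1]; congr 1; ring

/-- `f` followed by its inverse is homotopic to the constant path -/
theorem Hmt.cat_rv (h : PathOn Y f) : Hmt Y (NHR.cat f (NHR.rv f)) (fun _ => f 0) := by
  have h1 := Hmt.pth_repar h (φ := fun t => min (2 * t) (2 - 2 * t)) (ψ := fun _ => 0)
    (by fun_prop) (by fun_prop) (fun t ht => ⟨le_min (by linarith [ht.1]) (by linarith [ht.2]), by
      rcases le_total t (1 / 2) with h2 | h2
      · exact (min_le_left _ _).trans (by linarith)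
      · exact (min_le_right _ _).trans (by linarith)⟩) (fun _ _ => pth_I0) (by norm_num) (by norm_num)
  refine (Hmt.congr (f := fun t => f (min (2 * t) (2 - 2 * t))) h1.left ?_).symm.trans h1
  intro t ht
  show (if t ≤ 1 / 2 then f (2 * t) else f (1 - (2 * t - 1))) = f (min (2 * t) (2 - 2 * t))
  split_ifs with h2
  · rw [min_eq_left (by linarith)]
  · rw [min_eq_right (by linarith [not_le.1 h2])]
    congr 1; ring

theorem Hmt.cat_const (h : PathOn Y f) : Hmt Y (NHR.cat f (fun _ => f 1)) f := by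
  have h1 := Hmt.pth_repar h (φ := fun t => min (2 * t) 1) (ψ := fun t => t)
    (by fun_prop) (by fun_prop) (fun t ht => ⟨le_min (by linarith [ht.1]) zero_le_one, min_le_right _ _⟩)
    (fun _ ht => ht) (by norm_num) (by norm_num)
  refine (Hmt.congr (f := fun t => f (min (2 * t) 1)) h1.left ?_).symm.trans h1
  intro t ht
  show (if t ≤ 1 / 2 then f (2 * t) else f 1) = f (min (2 * t) 1)
  split_ifs with h2
  · rw [min_eq_left (by linarith)]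
  · rw [min_eq_right (by linarith [not_le.1 h2])]

theorem Hmt.const_cat (h : PathOn Y f) : Hmt Y (NHR.cat (fun _ => f 0) f) f := by
  have h1 := Hmt.pth_repar h (φ := fun t => max (2 * t - 1) 0) (ψ := fun t => t)
    (by fun_prop) (by fun_prop) (fun t ht => ⟨le_max_right _ _, max_le (by linarith [ht.2]) zero_le_one⟩)
    (fun _ ht => ht) (by norm_num) (by norm_num)
  refine (Hmt.congr (f := fun t => f (max (2 * t - 1) 0)) h1.left ?_).symm.trans h1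
  intro t ht
  show (if t ≤ 1 / 2 then f 0 else f (2 * t - 1)) = f (max (2 * t - 1) 0)
  split_ifs with h2
  · rw [max_eq_right (by linarith)]
  · rw [max_eq_left (by linarith [not_le.1 h2])]

theorem Hmt.assoc {k : ℝ → N} (hf : PathOn Y f) (hg : PathOn Y g) (hk : PathOn Y k) (h1 : f 1 = g 0) (h2 : g 1 = k 0) :
    Hmt Y (NHR.cat (NHR.cat f g) k) (NHR.cat f (NHR.cat g k)) := by
  have hF : PathOn Y (NHR.cat (NHR.cat f g) k) := (hf.cat hg h1).cat hk (by rw [cat_one, h2])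
  have h3 := Hmt.pth_repar hF (φ := fun t => t) (ψ := fun t => max (t / 2) (max (t - 1 / 4) (2 * t - 1)))
    (by fun_prop) (by fun_prop) (fun _ ht => ht)
    (fun t ht => ⟨(by linarith [ht.1] : (0 : ℝ) ≤ t / 2).trans (le_max_left _ _),
      max_le (by linarith [ht.2]) (max_le (by linarith [ht.2]) (by linarith [ht.2]))⟩) (by norm_num) (by norm_num)
  refine h3.trans (Hmt.congr h3.right ?_)
  intro t ht
  unfold NHR.cat
  rcases le_or_gt t (1 / 2) with h4 | h4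
  · rw [max_eq_left (max_le (by linarith) (by linarith)), if_pos h4, if_pos (by linarith), if_pos (by linarith)]
    congr 1; ring
  · rw [if_neg (not_le.2 h4)]
    rcases le_or_gt t (3 / 4) with h5 | h5
    · rw [max_eq_left (by linarith : 2 * t - 1 ≤ t - 1 / 4), max_eq_right (by linarith), if_pos (by linarith),
        if_pos (by linarith), if_neg (by linarith)]
      congr 1; ring
    · rw [max_eq_right (by linarith : t - 1 / 4 ≤ 2 * t - 1), max_eq_right (by linarith), if_neg (by linarith),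
        if_neg (by linarith)]


variable {Γ : Type v} [Group Γ]

theorem GHom.val_congr (G : GHom Y Γ) (h : PathOn Y f) (h' : ∀ t ∈ Icc (0 : ℝ) 1, g t = f t) : G.val g = G.val f :=
  (G.hmt _ _ (Hmt.congr h h')).symm

theorem GHom.val_const (G : GHom Y Γ) (h : PathOn Y f) (h' : ∀ t ∈ Icc (0 : ℝ) 1, f t = f 0) : G.val f = 1 := by
  have h1 := G.ct f f h h (h' 1 pth_I1)
  have h2 : G.val (cat f f) = G.val f := by
    refine G.val_congr h ?_
    rintro t ⟨ht1, ht2⟩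
    unfold cat
    split_ifs with h3
    · rw [h' _ ⟨by linarith, by linarith⟩, h' t ⟨ht1, ht2⟩]
    · rw [h' _ ⟨by linarith [not_le.1 h3], by linarith⟩, h' t ⟨ht1, ht2⟩]
  rw [h2] at h1
  exact (left_eq_mul.1 h1)

theorem GHom.val_rv (G : GHom Y Γ) (h : PathOn Y f) : G.val (rv f) = (G.val f)⁻¹ := by
  have h1 := G.ct f (rv f) h h.rv (by rw [rv_zero])
  have h2 : G.val (cat f (rv f)) = G.val (fun _ => f 0) := G.hmt _ _ (Hmt.cat_rv h)
  have h3 : G.val (fun _ => f 0) = 1 :=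
    G.val_const ⟨continuousOn_const, fun _ _ => h.2 0 pth_I0⟩ (fun _ _ => rfl)
  rw [h2, h3] at h1
  exact (inv_eq_of_mul_eq_one_right h1.symm).symm

/-- restriction to a smaller set -/
def GHom.res (G : GHom Y' Γ) (h : Y ⊆ Y') : GHom Y Γ where
  val := G.val
  hmt := fun f g hfg => G.hmt f g (hfg.mono h)
  ct := fun f g hf hg hfg => G.ct f g (hf.mono h) (hg.mono h) hfg

end Pool.Agent.NHR
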