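import Mathlib
import Pool.Agent.NHR.Defs
import Pool.Agent.NHR.Pth

/-!
# NHR/Grp: the fundamental group as a `Full` homomorphism (difficulty 3)

`Γ = (FundamentalGroup Y y₀)ᵐᵒᵖ` (Mathlib: `p * q` = first `q`, then `p`; see `mul_def`), for every `y ∈ Y` choose a path
`c y` from `y₀` to `y` (`IsPathConnected`), `val f = [c (f 0) · f · (c (f 1))⁻¹]` if `PathOn Y f`, else `1`.
A `PathOn Y f` gives a `Path` of the subtype `Y` (restrict to `unitInterval`).  `Hmt` gives `Path.Homotopic` and conversely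
(extend a homotopy `I × I → Y` to `ℝ × ℝ` by `Set.projIcc`).  Alternatively define `val` in any other way
(e.g. with `FundamentalGroupoid`), only the statement counts.
-/

open scoped Manifold ContDiff Topology
open Set Filter
open Pool.Agent.CSG (stp)
open Pool.Agent.RSG (E3 ex Thick)
open Pool.Agent.KNT (Dom Str Str2 bmp)
open Pool.Agent.NHP

namespace Pool.Agent.NHR

universe u v

variable {N : Type u} [TopologicalSpace N]

/-- the path of the subtype -/
def Grp_pth {Y : Set N} {f : ℝ → N} (h : PathOn Y f) (x y : Y) (hx : (x : N) = f 0) (hy : (y : N) = f 1) :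
    Path x y where
  toFun t := ⟨f t, h.2 t t.2⟩
  continuous_toFun := by
    refine Continuous.subtype_mk ?_ _
    exact h.1.comp_continuous continuous_subtype_val (fun t => t.2)
  source' := by
    apply Subtype.ext
    simp [hx]
  target' := by
    apply Subtype.ext
    simp [hy]

theorem Grp_pth_apply {Y : Set N} {f : ℝ → N} (h : PathOn Y f) (x y : Y) (hx : (x : N) = f 0) (hy : (y : N) = f 1)
    (t : unitInterval) : ((Grp_pth h x y hx hy t : Y) : N) = f t := rfl

/-- homotopic functions give homotopic paths -/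
theorem Grp_hom {Y : Set N} {f g : ℝ → N} (hf : PathOn Y f) (hg : PathOn Y g) (H : Hmt Y f g) (x y : Y)
    (hx : (x : N) = f 0) (hy : (y : N) = f 1) (hx' : (x : N) = g 0) (hy' : (y : N) = g 1) :
    (Grp_pth hf x y hx hy).Homotopic (Grp_pth hg x y hx' hy') := by
  obtain ⟨H, hc, hm, h01, hs⟩ := H
  refine ⟨{ toFun := fun q => ⟨H (q.1, q.2), hm _ ⟨q.1.2, q.2.2⟩⟩
            continuous_toFun := ?_
            map_zero_left := ?_
            map_one_left := ?_
            prop' := ?_ }⟩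
  · refine Continuous.subtype_mk ?_ _
    exact hc.comp_continuous (by fun_prop) (fun q => ⟨q.1.2, q.2.2⟩)
  · intro t
    apply Subtype.ext
    exact (h01 t t.2).1
  · intro t
    apply Subtype.ext
    exact (h01 t t.2).2
  · intro s t ht
    apply Subtype.ext
    rcases ht with ht | ht
    · subst ht
      have := (hs s s.2).1
      simpa [Grp_pth] using this
    · rw [Set.mem_singleton_iff] at ht
      subst ht
      have := (hs s s.2).2
      simpa [Grp_pth] using this

/-- homotopic paths give homotopic functions -/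
theorem Grp_hom' {Y : Set N} {f g : ℝ → N} (hf : PathOn Y f) (hg : PathOn Y g) (x y : Y)
    (hx : (x : N) = f 0) (hy : (y : N) = f 1) (hx' : (x : N) = g 0) (hy' : (y : N) = g 1)
    (H : (Grp_pth hf x y hx hy).Homotopic (Grp_pth hg x y hx' hy')) : Hmt Y f g := by
  obtain ⟨F⟩ := H
  have h01 : (0 : ℝ) ≤ 1 := zero_le_one
  refine ⟨fun q => (F (Set.projIcc 0 1 h01 q.1, Set.projIcc 0 1 h01 q.2) : Y), ?_, ?_, ?_, ?_⟩
  · apply Continuous.continuousOn
    have h1 : Continuous fun q : ℝ × ℝ => (Set.projIcc 0 1 h01 q.1, Set.projIcc 0 1 h01 q.2) := by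
      apply Continuous.prodMk
      · exact continuous_projIcc.comp continuous_fst
      · exact continuous_projIcc.comp continuous_snd
    exact continuous_subtype_val.comp (F.continuous.comp h1)
  · intro q _
    exact Subtype.coe_prop _
  · intro t ht
    have e0 : Set.projIcc 0 1 h01 0 = (0 : unitInterval) := Set.projIcc_left _
    have e1 : Set.projIcc 0 1 h01 1 = (1 : unitInterval) := Set.projIcc_right _
    have et : Set.projIcc 0 1 h01 t = ⟨t, ht⟩ := Set.projIcc_of_mem h01 ht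
    constructor
    · show ((F (Set.projIcc 0 1 h01 0, Set.projIcc 0 1 h01 t) : Y) : N) = f t
      rw [e0, et, F.apply_zero]
      rfl
    · show ((F (Set.projIcc 0 1 h01 1, Set.projIcc 0 1 h01 t) : Y) : N) = g t
      rw [e1, et, F.apply_one]
      rfl
  · intro s hs
    have e0 : Set.projIcc 0 1 h01 0 = (0 : unitInterval) := Set.projIcc_left _
    have e1 : Set.projIcc 0 1 h01 1 = (1 : unitInterval) := Set.projIcc_right _
    constructor
    · show ((F (Set.projIcc 0 1 h01 s, Set.projIcc 0 1 h01 0) : Y) : N) = f 0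
      rw [e0, Path.Homotopy.source, hx]
    · show ((F (Set.projIcc 0 1 h01 s, Set.projIcc 0 1 h01 1) : Y) : N) = f 1
      rw [e1, Path.Homotopy.target, hy]

theorem Grp_cat {Y : Set N} {f g : ℝ → N} (hf : PathOn Y f) (hg : PathOn Y g) (x y z : Y)
    (hx : (x : N) = f 0) (hy : (y : N) = f 1) (hy' : (y : N) = g 0) (hz : (z : N) = g 1)
    (hc : PathOn Y (cat f g)) (hx' : (x : N) = cat f g 0) (hz' : (z : N) = cat f g 1) :
    Grp_pth hc x z hx' hz' = (Grp_pth hf x y hx hy).trans (Grp_pth hg y z hy' hz) := by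
  ext t
  rw [Grp_pth_apply, Path.trans_apply]
  by_cases ht : (t : ℝ) ≤ 1 / 2
  · rw [dif_pos ht, Grp_pth_apply]
    simp only [cat, if_pos ht]
  · rw [dif_neg ht, Grp_pth_apply]
    simp only [cat, if_neg ht]

theorem Grp_cancel {Y : Type*} [TopologicalSpace Y] {x y z : Y} (c : Path.Homotopic.Quotient x y)
    (a : Path.Homotopic.Quotient y z) : c.symm.trans (c.trans a) = a := by
  rw [← Path.Homotopic.Quotient.trans_assoc, Path.Homotopic.Quotient.symm_trans, Path.Homotopic.Quotient.refl_trans]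

theorem Grp_cancel' {Y : Type*} [TopologicalSpace Y] {x y z : Y} (c : Path.Homotopic.Quotient y x)
    (a : Path.Homotopic.Quotient y z) : c.trans (c.symm.trans a) = a := by
  rw [← Path.Homotopic.Quotient.trans_assoc, Path.Homotopic.Quotient.trans_symm, Path.Homotopic.Quotient.refl_trans]

/-- the value -/
noncomputable def Grp_val {Y : Set N} (y₀ : Y) (c : ∀ y : Y, Path.Homotopic.Quotient y₀ y) (f : ℝ → N) :
    (FundamentalGroup Y y₀)ᵐᵒᵖ := by
  classical
  exact if h : PathOn Y f then MulOpposite.op (FundamentalGroup.fromPath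
    (((c ⟨f 0, h.2 0 ⟨le_rfl, zero_le_one⟩⟩).trans
      (Path.Homotopic.Quotient.mk (Grp_pth h ⟨f 0, h.2 0 ⟨le_rfl, zero_le_one⟩⟩
        ⟨f 1, h.2 1 ⟨zero_le_one, le_rfl⟩⟩ rfl rfl))).trans
      (c ⟨f 1, h.2 1 ⟨zero_le_one, le_rfl⟩⟩).symm)) else 1

theorem Grp_val_eq {Y : Set N} (y₀ : Y) (c : ∀ y : Y, Path.Homotopic.Quotient y₀ y) {f : ℝ → N} (h : PathOn Y f)
    (x y : Y) (hx : (x : N) = f 0) (hy : (y : N) = f 1) :
    Grp_val y₀ c f = MulOpposite.op (FundamentalGroup.fromPath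
      (((c x).trans (Path.Homotopic.Quotient.mk (Grp_pth h x y hx hy))).trans (c y).symm)) := by
  obtain ⟨x, hxY⟩ := x
  obtain ⟨y, hyY⟩ := y
  change x = f 0 at hx
  change y = f 1 at hy
  subst hx
  subst hy
  unfold Grp_val
  rw [dif_pos h]

/-- the homomorphism -/
noncomputable def Grp_hG {Y : Set N} (y₀ : Y) (c : ∀ y : Y, Path.Homotopic.Quotient y₀ y) :
    GHom Y (FundamentalGroup Y y₀)ᵐᵒᵖ where
  val := Grp_val y₀ c
  hmt := by
    intro f g H
    have hf := H.left
    have hg := H.right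
    have h0 := H.zero
    have h1 := H.one
    rw [Grp_val_eq y₀ c hf ⟨f 0, hf.2 0 ⟨le_rfl, zero_le_one⟩⟩ ⟨f 1, hf.2 1 ⟨zero_le_one, le_rfl⟩⟩ rfl rfl,
      Grp_val_eq y₀ c hg ⟨f 0, hf.2 0 ⟨le_rfl, zero_le_one⟩⟩ ⟨f 1, hf.2 1 ⟨zero_le_one, le_rfl⟩⟩ h0 h1]
    have := Path.Homotopic.Quotient.eq.2 (Grp_hom hf hg H ⟨f 0, hf.2 0 ⟨le_rfl, zero_le_one⟩⟩
      ⟨f 1, hf.2 1 ⟨zero_le_one, le_rfl⟩⟩ rfl rfl h0 h1)
    rw [this]
  ct := by
    intro f g hf hg h
    have hc := hf.cat hg h
    rw [Grp_val_eq y₀ c hf ⟨f 0, hf.2 0 ⟨le_rfl, zero_le_one⟩⟩ ⟨f 1, hf.2 1 ⟨zero_le_one, le_rfl⟩⟩ rfl rfl,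
      Grp_val_eq y₀ c hg ⟨f 1, hf.2 1 ⟨zero_le_one, le_rfl⟩⟩ ⟨g 1, hg.2 1 ⟨zero_le_one, le_rfl⟩⟩ h rfl,
      Grp_val_eq y₀ c hc ⟨f 0, hf.2 0 ⟨le_rfl, zero_le_one⟩⟩ ⟨g 1, hg.2 1 ⟨zero_le_one, le_rfl⟩⟩
        (cat_zero f g).symm (cat_one f g).symm,
      Grp_cat hf hg ⟨f 0, hf.2 0 ⟨le_rfl, zero_le_one⟩⟩ ⟨f 1, hf.2 1 ⟨zero_le_one, le_rfl⟩⟩
        ⟨g 1, hg.2 1 ⟨zero_le_one, le_rfl⟩⟩ rfl rfl h rfl hc (cat_zero f g).symm (cat_one f g).symm,
      ← MulOpposite.op_mul]
    congr 1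
    rw [FundamentalGroup.mul_def, Path.Homotopic.Quotient.mk_trans]
    simp only [FundamentalGroup.fromPath, FundamentalGroup.fromArrow, Path.Homotopic.Quotient.trans_assoc]
    congr 2
    rw [← Path.Homotopic.Quotient.trans_assoc (c ⟨f 1, _⟩).symm, Path.Homotopic.Quotient.symm_trans,
      Path.Homotopic.Quotient.refl_trans]

theorem Grp_full {Y : Set N} (y₀ : Y) (c : ∀ y : Y, Path.Homotopic.Quotient y₀ y) : Full (Grp_hG y₀ c) := by
  constructor
  · intro f g hf hg h0 h1 hv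
    change Grp_val y₀ c f = Grp_val y₀ c g at hv
    rw [Grp_val_eq y₀ c hf ⟨f 0, hf.2 0 ⟨le_rfl, zero_le_one⟩⟩ ⟨f 1, hf.2 1 ⟨zero_le_one, le_rfl⟩⟩ rfl rfl,
      Grp_val_eq y₀ c hg ⟨f 0, hf.2 0 ⟨le_rfl, zero_le_one⟩⟩ ⟨f 1, hf.2 1 ⟨zero_le_one, le_rfl⟩⟩ h0 h1] at hv
    have hv := MulOpposite.op_injective hv
    simp only [FundamentalGroup.fromPath, FundamentalGroup.fromArrow] at hv
    refine Grp_hom' hf hg ⟨f 0, hf.2 0 ⟨le_rfl, zero_le_one⟩⟩ ⟨f 1, hf.2 1 ⟨zero_le_one, le_rfl⟩⟩ rfl rfl h0 h1 ?_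
    rw [← Path.Homotopic.Quotient.eq]
    have key : ∀ (x y : Y) (a b : Path.Homotopic.Quotient x y),
        ((c x).trans a).trans (c y).symm = ((c x).trans b).trans (c y).symm → a = b := by
      intro x y a b hab
      have h1 := congrArg (fun q => ((c x).symm.trans q).trans (c y)) hab
      simpa [Grp_cancel, Grp_cancel'] using h1
    exact key _ _ _ _ hv
  · intro a ha b hb g
    obtain ⟨g, rfl⟩ := MulOpposite.op_surjective g
    obtain ⟨γ, hγ⟩ := Path.Homotopic.Quotient.mk_surjective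
      (((c ⟨a, ha⟩).symm.trans g).trans (c ⟨b, hb⟩) : Path.Homotopic.Quotient (⟨a, ha⟩ : Y) (⟨b, hb⟩ : Y))
    have h01 : (0 : ℝ) ≤ 1 := zero_le_one
    have hf : PathOn Y (fun t : ℝ => ((γ (Set.projIcc 0 1 h01 t) : Y) : N)) := by
      constructor
      · apply Continuous.continuousOn
        exact continuous_subtype_val.comp (γ.continuous.comp continuous_projIcc)
      · intro t _
        exact Subtype.coe_prop _
    have e0 : ((γ (Set.projIcc 0 1 h01 0) : Y) : N) = a := by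
      have : Set.projIcc 0 1 h01 0 = (0 : unitInterval) := Set.projIcc_left _
      rw [this, γ.source]
    have e1 : ((γ (Set.projIcc 0 1 h01 1) : Y) : N) = b := by
      have : Set.projIcc 0 1 h01 1 = (1 : unitInterval) := Set.projIcc_right _
      rw [this, γ.target]
    refine ⟨_, hf, e0, e1, ?_⟩
    change Grp_val y₀ c _ = _
    rw [Grp_val_eq y₀ c hf ⟨a, ha⟩ ⟨b, hb⟩ e0.symm e1.symm]
    have : Grp_pth hf ⟨a, ha⟩ ⟨b, hb⟩ e0.symm e1.symm = γ := by
      ext t
      rw [Grp_pth_apply]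
      simp only [Set.projIcc_val]
    rw [this, hγ]
    congr 1
    simp [FundamentalGroup.fromPath, FundamentalGroup.fromArrow, Grp_cancel']

/-- the values of the loops at `y₀` are the elements of the fundamental group -/
theorem exists_GHom_loop {Y : Set N} (hY : IsPathConnected Y) (y₀ : Y) :
    ∃ G : GHom Y (FundamentalGroup Y y₀)ᵐᵒᵖ, Full G ∧ ∀ (γ : Path y₀ y₀) (f : ℝ → N),
      (∀ t : unitInterval, (γ t : N) = f t) →
      G.val f = MulOpposite.op (FundamentalGroup.fromPath (Path.Homotopic.Quotient.mk γ)) := by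
  classical
  have : PathConnectedSpace Y := isPathConnected_iff_pathConnectedSpace.1 hY
  let c : ∀ y : Y, Path.Homotopic.Quotient y₀ y := fun y =>
    if h : y = y₀ then (Path.Homotopic.Quotient.refl y₀).cast rfl h
    else Path.Homotopic.Quotient.mk (PathConnectedSpace.somePath y₀ y)
  have hc : c y₀ = Path.Homotopic.Quotient.refl y₀ := by
    simp only [c, dif_pos]
    exact Path.Homotopic.Quotient.cast_rfl_rfl _
  refine ⟨Grp_hG y₀ c, Grp_full y₀ c, ?_⟩
  intro γ f hf
  have hp : PathOn Y f := by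
    constructor
    · have : ContinuousOn (fun t : ℝ => ((γ (Set.projIcc 0 1 zero_le_one t) : Y) : N)) (Icc 0 1) :=
        (continuous_subtype_val.comp (γ.continuous.comp continuous_projIcc)).continuousOn
      refine this.congr ?_
      intro t ht
      show f t = ((γ (Set.projIcc 0 1 zero_le_one t) : Y) : N)
      rw [Set.projIcc_of_mem zero_le_one ht, hf]
    · intro t ht
      have := hf ⟨t, ht⟩
      rw [← this]
      exact Subtype.coe_prop _
  have h0 : (y₀ : N) = f 0 := by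
    have := hf 0
    rw [γ.source] at this
    simpa using this
  have h1 : (y₀ : N) = f 1 := by
    have := hf 1
    rw [γ.target] at this
    simpa using this
  change Grp_val y₀ c f = _
  rw [Grp_val_eq y₀ c hp y₀ y₀ h0 h1, hc]
  have : Grp_pth hp y₀ y₀ h0 h1 = γ := by
    ext t
    rw [Grp_pth_apply, hf]
  rw [this]
  congr 1
  have hr : (Path.Homotopic.Quotient.refl y₀).symm = Path.Homotopic.Quotient.refl y₀ := by
    rw [← Path.Homotopic.Quotient.mk_refl, ← Path.Homotopic.Quotient.mk_symm, Path.refl_symm]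
  rw [hr]
  simp [FundamentalGroup.fromPath, FundamentalGroup.fromArrow]

theorem exists_GHom {Y : Set N} (hY : IsPathConnected Y) :
    ∃ (Γ : Type u) (_ : Group Γ) (G : GHom Y Γ), Full G := by
  obtain ⟨y, hy⟩ := hY.nonempty
  obtain ⟨G, hG, -⟩ := exists_GHom_loop hY ⟨y, hy⟩
  exact ⟨_, _, G, hG⟩

end Pool.Agent.NHR
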