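import Mathlib
import Pool.Agent.NHR.Defs
import Pool.Agent.KNT.PrfL

/-!
# NHR/Geo: elementary facts on the special configuration (difficulty 2)

Numerical facts on `TD`, charts and thick knots.
-/

open scoped Manifold ContDiff Topology
open Set Filter
open Pool.Agent.CSG (stp)
open Pool.Agent.RSG (E3 ex Thick)
open Pool.Agent.KNT (Dom Str Str2 bmp)
open Pool.Agent.NHP

namespace Pool.Agent.NHR

universe u v

section
variable {N : Type u} [TopologicalSpace N] [ChartedSpace E3 N]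

theorem geo_norm_lt {z : ℂ} {r : ℝ} (hr : 0 < r) (h : z.re ^ 2 + z.im ^ 2 < r ^ 2) : ‖z‖ < r := by
  have h1 : ‖z‖ ^ 2 = z.re ^ 2 + z.im ^ 2 := by
    rw [Complex.sq_norm, Complex.normSq_apply]
    ring
  exact lt_of_pow_lt_pow_left₀ 2 hr.le (by rw [h1]; exact h)

theorem TD_open : IsOpen TD := by
  have h1 : IsOpen {q : E | ‖q.1‖ < 1} := isOpen_lt (by fun_prop) continuous_const
  have h2 : IsOpen {q : E | -(1 / 4) < q.2} := isOpen_lt continuous_const (by fun_prop)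
  have h3 : IsOpen {q : E | q.2 < 5 / 4} := isOpen_lt (by fun_prop) continuous_const
  have : TD = {q : E | ‖q.1‖ < 1} ∩ ({q : E | -(1 / 4) < q.2} ∩ {q : E | q.2 < 5 / 4}) := by
    ext q
    rfl
  rw [this]
  exact h1.inter (h2.inter h3)

theorem TD_convex : Convex ℝ TD := by
  have : TD = Metric.ball (0 : ℂ) 1 ×ˢ Ioo (-(1 / 4) : ℝ) (5 / 4) := by
    ext q
    constructor
    · rintro ⟨h1, h2, h3⟩
      exact ⟨by simpa using h1, h2, h3⟩
    · rintro ⟨h1, h2, h3⟩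
      exact ⟨by simpa using h1, h2, h3⟩
  rw [this]
  exact (convex_ball _ _).prod (convex_Ioo _ _)

theorem P3_mem {x y z : ℝ} (h : x ^ 2 + y ^ 2 < 1) (h1 : -(1 / 4) < z) (h2 : z < 5 / 4) : P3 x y z ∈ TD :=
  ⟨geo_norm_lt one_pos (by simpa [P3] using h), h1, h2⟩

theorem bmp_one {y : ℝ} (h : |y| ≤ 1 / 16) : bmp y = 1 := KNT.bmp_one h

theorem bmp_zero {y : ℝ} (h : 1 / 8 ≤ |y|) : bmp y = 0 := KNT.bmp_zero h

theorem bmp_nonneg (y : ℝ) : 0 ≤ bmp y := KNT.bmp_nonneg y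

theorem bmp_le (y : ℝ) : bmp y ≤ 1 := KNT.bmp_le_one y

theorem bmp_smooth : ContDiff ℝ ∞ bmp := KNT.bmp_smooth

theorem geo_mem {q : E} {a b : ℝ} (ha : |q.1.re| ≤ a) (hb : |q.1.im| ≤ b) (hab : a ^ 2 + b ^ 2 < 1)
    (h1 : -(1 / 4) < q.2) (h2 : q.2 < 5 / 4) : q ∈ TD := by
  refine ⟨geo_norm_lt one_pos ?_, h1, h2⟩
  have h3 : q.1.re ^ 2 ≤ a ^ 2 := by
    rw [← sq_abs]
    exact pow_le_pow_left₀ (abs_nonneg _) ha 2
  have h4 : q.1.im ^ 2 ≤ b ^ 2 := by
    rw [← sq_abs]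
    exact pow_le_pow_left₀ (abs_nonneg _) hb 2
  rw [one_pow]
  linarith

theorem Slab_sub : Slab ⊆ TD := by
  rintro q ⟨h1, h2, h3, h4⟩
  exact geo_mem h1 h2 (by norm_num) (by linarith) (by linarith)

theorem SlabT_sub : SlabT ⊆ TD := by
  rintro q ⟨h1, h2, h3, h4⟩
  exact geo_mem h1 h2 (by norm_num) (by linarith) (by linarith)

theorem QCB_sub : QCB ⊆ Slab := by
  rintro q ⟨h1, h2, h3, h4⟩
  exact ⟨by linarith, by linarith, by linarith, by linarith⟩

theorem QCW_sub : QCW ⊆ TD := by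
  rintro q ⟨h1, h2, h3, h4, h5⟩
  exact geo_mem h1 (abs_le.2 ⟨by linarith, by linarith⟩ : |q.1.im| ≤ 1 / 4) (by norm_num) (by linarith) (by linarith)

theorem QA_sub : QA ⊆ QCW := by
  rintro q ⟨h1, h2, h3, h4⟩
  have := abs_le.1 h4
  exact ⟨h1, h2, h3, by linarith, by linarith⟩

theorem Slab_convex : Convex ℝ Slab := by
  have h1 : Convex ℝ {q : E | |q.1.re| ≤ 3 / 4} := by
    have : {q : E | |q.1.re| ≤ 3 / 4} =
        (Complex.reLm ∘ₗ LinearMap.fst ℝ ℂ ℝ) ⁻¹' (Icc (-(3 / 4)) (3 / 4)) := by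
      ext q
      constructor
      · exact fun h => abs_le.1 h
      · exact fun h => abs_le.2 h
    rw [this]
    exact (convex_Icc _ _).linear_preimage _
  have h2 : Convex ℝ {q : E | |q.1.im| ≤ 1 / 640} := by
    have : {q : E | |q.1.im| ≤ 1 / 640} =
        (Complex.imLm ∘ₗ LinearMap.fst ℝ ℂ ℝ) ⁻¹' (Icc (-(1 / 640)) (1 / 640)) := by
      ext q
      constructor
      · exact fun h => abs_le.1 h
      · exact fun h => abs_le.2 h
    rw [this]
    exact (convex_Icc _ _).linear_preimage _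
  have h3 : Convex ℝ {q : E | -(9 / 64) ≤ q.2 ∧ q.2 ≤ 73 / 64} := by
    have : {q : E | -(9 / 64) ≤ q.2 ∧ q.2 ≤ 73 / 64} =
        (LinearMap.snd ℝ ℂ ℝ) ⁻¹' (Icc (-(9 / 64)) (73 / 64)) := by
      ext q
      exact Iff.rfl
    rw [this]
    exact (convex_Icc _ _).linear_preimage _
  have : Slab = {q : E | |q.1.re| ≤ 3 / 4} ∩ ({q : E | |q.1.im| ≤ 1 / 640} ∩ {q : E | -(9 / 64) ≤ q.2 ∧ q.2 ≤ 73 / 64}) := by
    ext q
    exact Iff.rfl
  rw [this]
  exact h1.inter (h2.inter h3)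

theorem TS2_sub : TS2 ⊆ TD := fun _ h => h.1

theorem TF2_sub : TF2 ⊆ TD := fun _ h => h.1

theorem cht_cont {O : Set E} {β : E → N} (h : Cht O β) : ContinuousOn β O :=
  fun q hq => (h.loc q hq).contMDiffAt.continuousAt.continuousWithinAt

theorem cht_open {O : Set E} {β : E → N} (h : Cht O β) {O' : Set E} (hO : IsOpen O') (hs : O' ⊆ O) :
    IsOpen (β '' O') := by
  rw [isOpen_iff_mem_nhds]
  rintro x ⟨q, hq, rfl⟩
  have hl := h.loc q (hs hq)
  set g := hl.localInverse with hg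
  have h1 : g (β q) = q := hl.localInverse_left_inv (hl.localInverse_mem_target)
  have hs' : g.source ∈ 𝓝 (β q) := hl.localInverse_open_source.mem_nhds hl.localInverse_mem_source
  have hc : ContinuousAt g (β q) := hl.localInverse_contMDiffAt.continuousAt
  have h2 : ∀ᶠ x in 𝓝 (β q), g x ∈ O' := by
    apply hc.eventually_mem
    rw [h1]
    exact hO.mem_nhds hq
  filter_upwards [hs', h2] with x hx hx'
  exact ⟨g x, hx', hl.localInverse_right_inv hx⟩

theorem thick_cont {κ : ℝ × ℂ → N} (hκ : Thick κ) : ContinuousOn κ {q | ‖q.2‖ < 1} :=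
  fun q hq => (hκ.loc q.1 q.2 hq).contMDiffAt.continuousAt.continuousWithinAt

theorem core_compact {κ : ℝ × ℂ → N} (hκ : Thick κ) : IsCompact (core κ) := by
  have hp : ∀ (m : ℕ) (l : ℝ) (v : ℂ), κ (l + m, v) = κ (l, v) := by
    intro m
    induction m with
    | zero => intro l v; simp
    | succ k ih =>
      intro l v
      have : l + ((k + 1 : ℕ) : ℝ) = (l + k) + 1 := by push_cast; ring
      rw [this, hκ.per, ih]
  have h1 : core κ = (fun l : ℝ => κ (l, 0)) '' Icc 0 1 := by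
    ext x
    constructor
    · rintro ⟨l, rfl⟩
      refine ⟨Int.fract l, ⟨Int.fract_nonneg l, (Int.fract_lt_one l).le⟩, ?_⟩
      have h2 : l = Int.fract l + (⌊l⌋ : ℤ) := (Int.fract_add_floor l).symm
      rcases Int.eq_nat_or_neg ⌊l⌋ with ⟨m, hm | hm⟩
      · have h3 : l = Int.fract l + (m : ℝ) := by
          conv_lhs => rw [h2]
          rw [hm]
          simp
        change κ (Int.fract l, 0) = κ (l, 0)
        conv_rhs => rw [h3]
        rw [hp]
      · have h3 : Int.fract l = l + (m : ℝ) := by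
          have : l - Int.fract l = (⌊l⌋ : ℝ) := by rw [Int.self_sub_fract]
          rw [hm] at this
          push_cast at this
          linarith
        change κ (Int.fract l, 0) = κ (l, 0)
        rw [h3, hp]
    · rintro ⟨l, -, rfl⟩
      exact ⟨l, rfl⟩
  rw [h1]
  refine isCompact_Icc.image_of_continuousOn ?_
  refine (thick_cont hκ).comp (by fun_prop) ?_
  intro l _
  simp

theorem thick_off {κ : ℝ × ℂ → N} (hκ : Thick κ) {l : ℝ} {v : ℂ} (hv : ‖v‖ < 1) (h0 : v ≠ 0) : κ (l, v) ∉ core κ := by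
  rintro ⟨l', h⟩
  have := (hκ.inj l' 0 l v (by simp) hv h).1
  exact h0 this.symm

theorem core_kap (κ : ℝ × ℂ → N) (η : ℝ) : core (kap κ η) = core κ := by
  unfold core kap
  simp

theorem core_rot (κ : ℝ × ℂ → N) (c : ℂ) : core (rot κ c) = core κ := by
  unfold core rot
  simp

theorem geo_thick {κ : ℝ × ℂ → N} (hκ : Thick κ) {c : ℂ} (h : c ≠ 0) (h1 : ‖c‖ ≤ 1) :
    Thick (fun q : ℝ × ℂ => κ (q.1, c * q.2)) := by
  have hn : ∀ v : ℂ, ‖v‖ < 1 → ‖c * v‖ < 1 := by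
    intro v hv
    rw [norm_mul]
    calc ‖c‖ * ‖v‖ ≤ 1 * ‖v‖ := mul_le_mul_of_nonneg_right h1 (norm_nonneg _)
      _ < 1 := by rw [one_mul]; exact hv
  refine ⟨fun l v => hκ.per l (c * v), ?_, ?_⟩
  · intro l v hv
    let e : (ℝ × ℂ) ≃L[ℝ] (ℝ × ℂ) := (ContinuousLinearEquiv.refl ℝ ℝ).prodCongr
      ((ContinuousLinearEquiv.smulLeft (Units.mk0 c h) : ℂ ≃L[ℂ] ℂ).restrictScalars ℝ)
    have he : ∀ q : ℝ × ℂ, e q = (q.1, c * q.2) := fun q => rfl
    have h2 : IsLocalDiffeomorphAt 𝓘(ℝ, ℝ × ℂ) 𝓘(ℝ, ℝ × ℂ) ∞ (fun q : ℝ × ℂ => (q.1, c * q.2)) (l, v) :=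
      e.toDiffeomorph.isLocalDiffeomorph ..
    exact IsLocalDiffeomorphAt.comp (hf := h2) (hg := hκ.loc l (c * v) (hn v hv)) ..
  · intro l v l' v' hv hv' he
    obtain ⟨h3, h4⟩ := hκ.inj l (c * v) l' (c * v') (hn v hv) (hn v' hv') he
    exact ⟨mul_left_cancel₀ h h3, h4⟩

theorem thick_kap {κ : ℝ × ℂ → N} (hκ : Thick κ) {η : ℝ} (h : 0 < η) (h1 : η ≤ 1) : Thick (kap κ η) := by
  refine geo_thick hκ (c := (η : ℂ)) (by exact_mod_cast h.ne') ?_
  rw [Complex.norm_real, Real.norm_eq_abs, abs_of_pos h]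
  exact h1

theorem thick_rot {κ : ℝ × ℂ → N} (hκ : Thick κ) {c : ℂ} (h : ‖c‖ = 1) : Thick (rot κ c) := by
  refine geo_thick hκ ?_ h.le
  intro h0
  rw [h0, norm_zero] at h
  exact zero_ne_one h

end

end Pool.Agent.NHR
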