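import Mathlib
import Pool.Agent.NHR.Defs
import Pool.Agent.NHR.Pth

/-!
# NHR/Sgm: values of segments in convex sets (difficulty 2)

`β : M → N` is continuous on the convex set `C`, `β '' C ⊆ Y`.  All statements follow from `seg_hmt` (straight line homotopy
`H (s, t) = β ((1 - s) • g t + s • ((1 - t) • g 0 + t • g 1))` of a path `g` of `C` to the segment), `G.ct`, `G.hmt`:
`cat (seg β a b) (seg β b c) = β ∘ g` on `[0, 1]` with `g = if t ≤ 1/2 ...`.
-/

open scoped Manifold ContDiff Topology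
open Set Filter
open Pool.Agent.CSG (stp)
open Pool.Agent.RSG (E3 ex Thick)
open Pool.Agent.KNT (Dom Str Str2 bmp)
open Pool.Agent.NHP

namespace Pool.Agent.NHR

universe u v

variable {N : Type u} [TopologicalSpace N] {Y : Set N} {Γ : Type v} [Group Γ]
variable {M : Type*} [NormedAddCommGroup M] [NormedSpace ℝ M] {M' : Type*} [NormedAddCommGroup M'] [NormedSpace ℝ M']

theorem seg_zero (β : M → N) (a b : M) : seg β a b 0 = β a := by
  unfold seg
  rw [sub_zero, one_smul, zero_smul, add_zero]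

theorem seg_one (β : M → N) (a b : M) : seg β a b 1 = β b := by
  unfold seg
  rw [sub_self, zero_smul, one_smul, zero_add]

theorem rv_seg (β : M → N) (a b : M) : rv (seg β a b) = seg β b a := by
  funext t
  unfold rv seg
  rw [sub_sub_cancel, add_comm]

theorem seg_path {β : M → N} {C : Set M} (hC : Convex ℝ C) (hβ : ContinuousOn β C) (hY : ∀ q ∈ C, β q ∈ Y) {a b : M}
    (ha : a ∈ C) (hb : b ∈ C) : PathOn Y (seg β a b) := by
  refine ⟨?_, fun t ht => hY _ (hC ha hb (by linarith [ht.2]) ht.1 (by ring))⟩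
  exact hβ.comp (f := fun t : ℝ => (1 - t) • a + t • b) (by fun_prop)
    (fun t ht => hC ha hb (by linarith [ht.2]) ht.1 (by ring))

theorem seg_hmt {β : M → N} {C : Set M} (hC : Convex ℝ C) (hβ : ContinuousOn β C) (hY : ∀ q ∈ C, β q ∈ Y) {g : ℝ → M}
    (hg : ContinuousOn g (Icc 0 1)) (hgC : ∀ t ∈ Icc (0 : ℝ) 1, g t ∈ C) :
    Hmt Y (fun t => β (g t)) (seg β (g 0) (g 1)) := by
  have h0 : g 0 ∈ C := hgC 0 ⟨le_rfl, zero_le_one⟩
  have h1 : g 1 ∈ C := hgC 1 ⟨zero_le_one, le_rfl⟩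
  have hmem : ∀ q ∈ Icc (0 : ℝ) 1 ×ˢ Icc (0 : ℝ) 1,
      (1 - q.1) • g q.2 + q.1 • ((1 - q.2) • g 0 + q.2 • g 1) ∈ C := by
    rintro ⟨s, t⟩ ⟨hs, ht⟩
    exact hC (hgC t ht) (hC h0 h1 (by linarith [ht.2]) ht.1 (by ring)) (by linarith [hs.2]) hs.1 (by ring)
  refine ⟨fun q => β ((1 - q.1) • g q.2 + q.1 • ((1 - q.2) • g 0 + q.2 • g 1)), ?_, fun q hq => hY _ (hmem q hq), ?_, ?_⟩
  · refine hβ.comp (f := fun q : ℝ × ℝ => (1 - q.1) • g q.2 + q.1 • ((1 - q.2) • g 0 + q.2 • g 1)) ?_ hmem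
    have h2 : ContinuousOn (fun q : ℝ × ℝ => g q.2) (Icc (0 : ℝ) 1 ×ˢ Icc (0 : ℝ) 1) :=
      hg.comp continuousOn_snd (fun q hq => hq.2)
    refine ContinuousOn.add (ContinuousOn.smul (by fun_prop) h2) (by fun_prop)
  · intro t _
    constructor
    · change β ((1 - (0 : ℝ)) • g t + (0 : ℝ) • ((1 - t) • g 0 + t • g 1)) = β (g t)
      rw [sub_zero, one_smul, zero_smul, add_zero]
    · change β ((1 - (1 : ℝ)) • g t + (1 : ℝ) • ((1 - t) • g 0 + t • g 1)) = β ((1 - t) • g 0 + t • g 1)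
      rw [sub_self, zero_smul, one_smul, zero_add]
  · intro s _
    constructor
    · change β ((1 - s) • g 0 + s • ((1 - (0 : ℝ)) • g 0 + (0 : ℝ) • g 1)) = β (g 0)
      rw [sub_zero, one_smul, zero_smul, add_zero, ← add_smul, sub_add_cancel, one_smul]
    · change β ((1 - s) • g 1 + s • ((1 - (1 : ℝ)) • g 0 + (1 : ℝ) • g 1)) = β (g 1)
      rw [sub_self, zero_smul, one_smul, zero_add, ← add_smul, sub_add_cancel, one_smul]

theorem seg_in (G : GHom Y Γ) {β : M → N} {C : Set M} (hC : Convex ℝ C) (hβ : ContinuousOn β C) (hY : ∀ q ∈ C, β q ∈ Y)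
    {g : ℝ → M} (hg : ContinuousOn g (Icc 0 1)) (hgC : ∀ t ∈ Icc (0 : ℝ) 1, g t ∈ C) :
    G.val (fun t => β (g t)) = G.val (seg β (g 0) (g 1)) := by
  exact G.hmt _ _ (seg_hmt hC hβ hY hg hgC)

theorem seg_tri (G : GHom Y Γ) {β : M → N} {C : Set M} (hC : Convex ℝ C) (hβ : ContinuousOn β C) (hY : ∀ q ∈ C, β q ∈ Y)
    {a b c : M} (ha : a ∈ C) (hb : b ∈ C) (hc : c ∈ C) :
    G.val (seg β a b) * G.val (seg β b c) = G.val (seg β a c) := by
  let g : ℝ → M := fun t => if t ≤ 1 / 2 then (1 - 2 * t) • a + (2 * t) • b else (1 - (2 * t - 1)) • b + (2 * t - 1) • c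
  have hg : Continuous g := by
    refine Continuous.if_le (by fun_prop) (by fun_prop) continuous_id continuous_const ?_
    intro t ht
    have ht' : t = 1 / 2 := ht
    subst ht'
    norm_num
  have hgC : ∀ t ∈ Icc (0 : ℝ) 1, g t ∈ C := by
    intro t ht
    change (if t ≤ 1 / 2 then (1 - 2 * t) • a + (2 * t) • b else (1 - (2 * t - 1)) • b + (2 * t - 1) • c) ∈ C
    split_ifs with h
    · exact hC ha hb (by linarith) (by linarith [ht.1]) (by ring)
    · have h' : 1 / 2 < t := not_le.1 h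
      exact hC hb hc (by linarith [ht.2]) (by linarith) (by ring)
  have h0 : g 0 = a := by
    change (if (0 : ℝ) ≤ 1 / 2 then (1 - 2 * (0 : ℝ)) • a + (2 * (0 : ℝ)) • b else _) = a
    rw [if_pos (by norm_num), mul_zero, sub_zero, one_smul, zero_smul, add_zero]
  have h1 : g 1 = c := by
    change (if (1 : ℝ) ≤ 1 / 2 then _ else (1 - (2 * (1 : ℝ) - 1)) • b + (2 * (1 : ℝ) - 1) • c) = c
    rw [if_neg (by norm_num)]
    norm_num
  have h2 : cat (seg β a b) (seg β b c) = fun t => β (g t) := by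
    funext t
    change (if t ≤ 1 / 2 then seg β a b (2 * t) else seg β b c (2 * t - 1)) =
      β (if t ≤ 1 / 2 then (1 - 2 * t) • a + (2 * t) • b else (1 - (2 * t - 1)) • b + (2 * t - 1) • c)
    split_ifs with h
    · rfl
    · rfl
  rw [← G.ct _ _ (seg_path hC hβ hY ha hb) (seg_path hC hβ hY hb hc) (by rw [seg_one, seg_zero]), h2,
    seg_in G hC hβ hY hg.continuousOn hgC, h0, h1]

theorem seg_self (G : GHom Y Γ) {β : M → N} {a : M} (ha : β a ∈ Y) : G.val (seg β a a) = 1 := by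
  have h : seg β a a = fun _ => β a := by
    funext t
    unfold seg
    rw [← add_smul, sub_add_cancel, one_smul]
  rw [h]
  exact G.val_const ⟨continuousOn_const, fun _ _ => ha⟩ (fun _ _ => rfl)

theorem seg_symm (G : GHom Y Γ) {β : M → N} {a b : M} (h : PathOn Y (seg β a b)) :
    G.val (seg β b a) = (G.val (seg β a b))⁻¹ := by
  rw [← rv_seg, G.val_rv h]

/-- a map which is affine on segments, `β = β' ∘ φ` on `C` -/
theorem seg_aff (G : GHom Y Γ) {β : M → N} {β' : M' → N} {φ : M → M'} {C : Set M} (hC : Convex ℝ C)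
    (hφ : ∀ (x y : M) (t : ℝ), φ ((1 - t) • x + t • y) = (1 - t) • φ x + t • φ y) (h : ∀ q ∈ C, β q = β' (φ q)) {a b : M}
    (ha : a ∈ C) (hb : b ∈ C) (hp : PathOn Y (seg β a b)) : G.val (seg β' (φ a) (φ b)) = G.val (seg β a b) := by
  refine G.val_congr hp (fun t ht => ?_)
  change β' ((1 - t) • φ a + t • φ b) = β ((1 - t) • a + t • b)
  rw [← hφ, h _ (hC ha hb (by linarith [ht.2]) ht.1 (by ring))]

/-- a path is cut at the points `a`, `b`, `c` of the parameter line -/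
theorem sub_tri (G : GHom Y Γ) {f : ℝ → N} {C : Set ℝ} (hC : Convex ℝ C) (hf : ContinuousOn f C) (hY : ∀ t ∈ C, f t ∈ Y)
    {a b c : ℝ} (ha : a ∈ C) (hb : b ∈ C) (hc : c ∈ C) :
    G.val (seg f a b) * G.val (seg f b c) = G.val (seg f a c) := by
  exact seg_tri G hC hf hY ha hb hc

end Pool.Agent.NHR
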