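import Mathlib
import Pool.Agent.NHR.Defs
import Pool.Agent.NHR.Geo
import Pool.Agent.NHR.Sgm

/-!
# NHR/MdY: convex sets in the complement of `K` (difficulty 2)

`Y = Kᶜ`.  In each chart: three points in a common convex set which is disjoint from the strands.  `hA`, `hB`: the four half spaces on
the sides of the horizontal / vertical pair of `W`; `gA`, `gB`: the same for the strands `x = 0`, `x = 1` of `B`.
Use `seg_tri`, `seg_path`, `seg_symm` with `C = TD ∩ hA i ∩ hB j`.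
-/

open scoped Manifold ContDiff Topology
open Set Filter
open Pool.Agent.CSG (stp)
open Pool.Agent.RSG (E3 ex Thick)
open Pool.Agent.KNT (Dom Str Str2 bmp)
open Pool.Agent.NHP

namespace Pool.Agent.NHR

universe u v

/-- half spaces beside the horizontal pair -/
def hA : Fin 4 → Set E := ![{q | 0 < q.1.im}, {q | q.1.im < -(1 / 32)}, {q | 0 < q.2}, {q | q.2 < 0}]

/-- half spaces beside the vertical pair -/
def hB : Fin 4 → Set E := ![{q | 0 < q.1.re}, {q | q.1.re < -(1 / 32)}, {q | 1 < q.2}, {q | q.2 < 1}]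

/-- half spaces beside the strand `x = 0` of `B` -/
def gA : Fin 4 → Set E := ![{q | 0 < q.1.im}, {q | q.1.im < 0}, {q | 0 < q.2}, {q | q.2 < 0}]

/-- half spaces beside the strand `x = 1` of `B` -/
def gB : Fin 4 → Set E := ![{q | 0 < q.1.im}, {q | q.1.im < 0}, {q | 1 < q.2}, {q | q.2 < 1}]

/-- the region near the horizontal pair where `W = B ∘ ja` -/
def zA : Set E := {q | q ∈ TD ∧ |q.2| ≤ 1 / 10 ∧ -(9 / 64) ≤ -(32 * q.1.im) ∧ -(32 * q.1.im) ≤ 73 / 64}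

/-- the region near the vertical pair where `W = B ∘ jb` -/
def zB : Set E := {q | q ∈ TD ∧ |q.2 - 1| ≤ 1 / 10 ∧ -(9 / 64) ≤ -(32 * q.1.re) ∧ -(32 * q.1.re) ≤ 73 / 64}

/-- half plane of the tube of a thick knot -/
def kH (n : ℂ) : Set (ℝ × ℂ) := {q | ‖q.2‖ < 1 ∧ 0 < ((starRingEnd ℂ) n * q.2).re}

variable {N : Type u} [TopologicalSpace N] [ChartedSpace E3 N] {Γ : Type v} [Group Γ]

theorem mdy_im : IsLinearMap ℝ (fun q : E => q.1.im) := ⟨fun x y => by simp, fun c x => by simp⟩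

theorem mdy_re : IsLinearMap ℝ (fun q : E => q.1.re) := ⟨fun x y => by simp, fun c x => by simp⟩

theorem mdy_sn : IsLinearMap ℝ (fun q : E => q.2) := ⟨fun x y => by simp, fun c x => by simp⟩

theorem mdy_hA (i : Fin 4) : Convex ℝ (hA i) := by
  fin_cases i
  · exact convex_halfSpace_gt mdy_im 0
  · exact convex_halfSpace_lt mdy_im (-(1 / 32))
  · exact convex_halfSpace_gt mdy_sn 0
  · exact convex_halfSpace_lt mdy_sn 0

theorem mdy_hB (i : Fin 4) : Convex ℝ (hB i) := by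
  fin_cases i
  · exact convex_halfSpace_gt mdy_re 0
  · exact convex_halfSpace_lt mdy_re (-(1 / 32))
  · exact convex_halfSpace_gt mdy_sn 1
  · exact convex_halfSpace_lt mdy_sn 1

theorem mdy_gA (i : Fin 4) : Convex ℝ (gA i) := by
  fin_cases i
  · exact convex_halfSpace_gt mdy_im 0
  · exact convex_halfSpace_lt mdy_im 0
  · exact convex_halfSpace_gt mdy_sn 0
  · exact convex_halfSpace_lt mdy_sn 0

theorem mdy_gB (i : Fin 4) : Convex ℝ (gB i) := by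
  fin_cases i
  · exact convex_halfSpace_gt mdy_im 0
  · exact convex_halfSpace_lt mdy_im 0
  · exact convex_halfSpace_gt mdy_sn 1
  · exact convex_halfSpace_lt mdy_sn 1

theorem mdy_hA_off {i : Fin 4} {q : E} (h : q ∈ hA i) (h0 : q.2 = 0) (h1 : q.1.im = 0 ∨ q.1.im = -(1 / 32)) : False := by
  fin_cases i
  · have h' : 0 < q.1.im := h
    rcases h1 with h1 | h1 <;> linarith
  · have h' : q.1.im < -(1 / 32) := h
    rcases h1 with h1 | h1 <;> linarith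
  · have h' : 0 < q.2 := h
    linarith
  · have h' : q.2 < 0 := h
    linarith

theorem mdy_hB_off {i : Fin 4} {q : E} (h : q ∈ hB i) (h0 : q.2 = 1) (h1 : q.1.re = 0 ∨ q.1.re = -(1 / 32)) : False := by
  fin_cases i
  · have h' : 0 < q.1.re := h
    rcases h1 with h1 | h1 <;> linarith
  · have h' : q.1.re < -(1 / 32) := h
    rcases h1 with h1 | h1 <;> linarith
  · have h' : 1 < q.2 := h
    linarith
  · have h' : q.2 < 1 := h
    linarith

theorem mdy_gA_off {i : Fin 4} {q : E} (h : q ∈ gA i) (h0 : q.2 = 0) (h1 : q.1.im = 0) : False := by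
  fin_cases i
  · have h' : 0 < q.1.im := h
    linarith
  · have h' : q.1.im < 0 := h
    linarith
  · have h' : 0 < q.2 := h
    linarith
  · have h' : q.2 < 0 := h
    linarith

theorem mdy_gB_off {i : Fin 4} {q : E} (h : q ∈ gB i) (h0 : q.2 = 1) (h1 : q.1.im = 0) : False := by
  fin_cases i
  · have h' : 0 < q.1.im := h
    linarith
  · have h' : q.1.im < 0 := h
    linarith
  · have h' : 1 < q.2 := h
    linarith
  · have h' : q.2 < 1 := h
    linarith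

theorem mdy_W_convex (i j : Fin 4) : Convex ℝ (TD ∩ hA i ∩ hB j) := (TD_convex.inter (mdy_hA i)).inter (mdy_hB j)

theorem mdy_B_convex (i j : Fin 4) : Convex ℝ (TD ∩ gA i ∩ gB j) := (TD_convex.inter (mdy_gA i)).inter (mdy_gB j)

theorem mdy_W_cont {K : Set N} {B W : E → N} (S : SP K B W) (i j : Fin 4) : ContinuousOn W (TD ∩ hA i ∩ hB j) :=
  (cht_cont S.chtW).mono fun _ hq => hq.1.1

theorem mdy_B_cont {K : Set N} {B W : E → N} (S : SP K B W) (i j : Fin 4) : ContinuousOn B (TD ∩ gA i ∩ gB j) :=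
  (cht_cont S.chtB).mono fun _ hq => hq.1.1

theorem mdy_W_off {K : Set N} {B W : E → N} (S : SP K B W) (i j : Fin 4) : ∀ q ∈ TD ∩ hA i ∩ hB j, W q ∈ Kᶜ := by
  intro q hq hK
  have h1 : W q ∈ K ∩ W '' TD := ⟨hK, q, hq.1.1, rfl⟩
  rw [S.hitW] at h1
  obtain ⟨r, hr, hrq⟩ := h1
  have h2 : r = q := S.chtW.inj hr.1 hq.1.1 hrq
  subst h2
  rcases hr.2 with ⟨h3, h4⟩ | ⟨h3, h4⟩
  · exact mdy_hA_off hq.1.2 h3 h4
  · exact mdy_hB_off hq.2 h3 h4

theorem mdy_B_off {K : Set N} {B W : E → N} (S : SP K B W) (i j : Fin 4) : ∀ q ∈ TD ∩ gA i ∩ gB j, B q ∈ Kᶜ := by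
  intro q hq hK
  have h1 : B q ∈ K ∩ B '' TD := ⟨hK, q, hq.1.1, rfl⟩
  rw [S.hitB] at h1
  obtain ⟨r, hr, hrq⟩ := h1
  have h2 : r = q := S.chtB.inj hr.1 hq.1.1 hrq
  subst h2
  rcases hr.2.2 with h3 | h3
  · exact mdy_gA_off hq.1.2 h3 hr.2.1
  · exact mdy_gB_off hq.2 h3 hr.2.1

theorem W_path {K : Set N} {B W : E → N} (S : SP K B W) (i j : Fin 4) {a b : E}
    (ha : a ∈ TD ∩ hA i ∩ hB j) (hb : b ∈ TD ∩ hA i ∩ hB j) : PathOn Kᶜ (seg W a b) :=
  seg_path (mdy_W_convex i j) (mdy_W_cont S i j) (mdy_W_off S i j) ha hb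

theorem W_tri {K : Set N} {B W : E → N} (S : SP K B W) (G : GHom Kᶜ Γ) (i j : Fin 4) {a b c : E}
    (ha : a ∈ TD ∩ hA i ∩ hB j) (hb : b ∈ TD ∩ hA i ∩ hB j) (hc : c ∈ TD ∩ hA i ∩ hB j) :
    G.val (seg W a b) * G.val (seg W b c) = G.val (seg W a c) :=
  seg_tri G (mdy_W_convex i j) (mdy_W_cont S i j) (mdy_W_off S i j) ha hb hc

theorem W_symm {K : Set N} {B W : E → N} (S : SP K B W) (G : GHom Kᶜ Γ) (i j : Fin 4) {a b : E}
    (ha : a ∈ TD ∩ hA i ∩ hB j) (hb : b ∈ TD ∩ hA i ∩ hB j) : G.val (seg W b a) = (G.val (seg W a b))⁻¹ :=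
  seg_symm G (W_path S i j ha hb)

theorem B_path {K : Set N} {B W : E → N} (S : SP K B W) (i j : Fin 4) {a b : E}
    (ha : a ∈ TD ∩ gA i ∩ gB j) (hb : b ∈ TD ∩ gA i ∩ gB j) : PathOn Kᶜ (seg B a b) :=
  seg_path (mdy_B_convex i j) (mdy_B_cont S i j) (mdy_B_off S i j) ha hb

theorem B_tri {K : Set N} {B W : E → N} (S : SP K B W) (G : GHom Kᶜ Γ) (i j : Fin 4) {a b c : E}
    (ha : a ∈ TD ∩ gA i ∩ gB j) (hb : b ∈ TD ∩ gA i ∩ gB j) (hc : c ∈ TD ∩ gA i ∩ gB j) :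
    G.val (seg B a b) * G.val (seg B b c) = G.val (seg B a c) :=
  seg_tri G (mdy_B_convex i j) (mdy_B_cont S i j) (mdy_B_off S i j) ha hb hc

theorem B_symm {K : Set N} {B W : E → N} (S : SP K B W) (G : GHom Kᶜ Γ) (i j : Fin 4) {a b : E}
    (ha : a ∈ TD ∩ gA i ∩ gB j) (hb : b ∈ TD ∩ gA i ∩ gB j) : G.val (seg B b a) = (G.val (seg B a b))⁻¹ :=
  seg_symm G (B_path S i j ha hb)

theorem mdy_kH_convex (n : ℂ) : Convex ℝ (kH n) := by
  have h1 : Convex ℝ {q : ℝ × ℂ | ‖q.2‖ < 1} := by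
    have h2 : Convex ℝ ((LinearMap.snd ℝ ℝ ℂ) ⁻¹' Metric.ball (0 : ℂ) 1) := (convex_ball (0 : ℂ) 1).linear_preimage _
    have h3 : ((LinearMap.snd ℝ ℝ ℂ) ⁻¹' Metric.ball (0 : ℂ) 1) = {q : ℝ × ℂ | ‖q.2‖ < 1} := by
      ext q
      simp
    rwa [h3] at h2
  have h2 : IsLinearMap ℝ (fun q : ℝ × ℂ => ((starRingEnd ℂ) n * q.2).re) :=
    ⟨fun x y => by simp; ring, fun c x => by simp; ring⟩
  exact h1.inter (convex_halfSpace_gt h2 0)

theorem mdy_kH_cont {κ : ℝ × ℂ → N} (hκ : Thick κ) (n : ℂ) : ContinuousOn κ (kH n) :=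
  (thick_cont hκ).mono fun _ hq => hq.1

theorem mdy_kH_off {κ : ℝ × ℂ → N} (hκ : Thick κ) (n : ℂ) : ∀ q ∈ kH n, κ q ∈ (core κ)ᶜ := by
  intro q hq
  have h0 : q.2 ≠ 0 := by
    intro h
    have h1 := hq.2
    rw [h, mul_zero] at h1
    exact lt_irrefl _ h1
  exact thick_off hκ (l := q.1) (v := q.2) hq.1 h0

theorem K_path {κ : ℝ × ℂ → N} (hκ : Thick κ) (n : ℂ) {a b : ℝ × ℂ} (ha : a ∈ kH n) (hb : b ∈ kH n) :
    PathOn (core κ)ᶜ (seg κ a b) :=
  seg_path (mdy_kH_convex n) (mdy_kH_cont hκ n) (mdy_kH_off hκ n) ha hb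

theorem K_tri {κ : ℝ × ℂ → N} (hκ : Thick κ) (G : GHom (core κ)ᶜ Γ) (n : ℂ) {a b c : ℝ × ℂ} (ha : a ∈ kH n)
    (hb : b ∈ kH n) (hc : c ∈ kH n) : G.val (seg κ a b) * G.val (seg κ b c) = G.val (seg κ a c) :=
  seg_tri G (mdy_kH_convex n) (mdy_kH_cont hκ n) (mdy_kH_off hκ n) ha hb hc

theorem K_symm {κ : ℝ × ℂ → N} (hκ : Thick κ) (G : GHom (core κ)ᶜ Γ) (n : ℂ) {a b : ℝ × ℂ} (ha : a ∈ kH n)
    (hb : b ∈ kH n) : G.val (seg κ b a) = (G.val (seg κ a b))⁻¹ :=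
  seg_symm G (K_path hκ n ha hb)

theorem mdy_zA_convex : Convex ℝ zA := by
  intro x hx y hy s t hs ht hst
  obtain ⟨hx1, hx2, hx3, hx4⟩ := hx
  obtain ⟨hy1, hy2, hy3, hy4⟩ := hy
  refine ⟨TD_convex hx1 hy1 hs ht hst, ?_, ?_, ?_⟩
  · rw [abs_le] at hx2 hy2 ⊢
    have e : (s • x + t • y).2 = s * x.2 + t * y.2 := rfl
    rw [e]
    constructor <;> nlinarith
  · have e : (s • x + t • y).1.im = s * x.1.im + t * y.1.im := by simp
    rw [e]
    nlinarith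
  · have e : (s • x + t • y).1.im = s * x.1.im + t * y.1.im := by simp
    rw [e]
    nlinarith

theorem mdy_zB_convex : Convex ℝ zB := by
  intro x hx y hy s t hs ht hst
  obtain ⟨hx1, hx2, hx3, hx4⟩ := hx
  obtain ⟨hy1, hy2, hy3, hy4⟩ := hy
  refine ⟨TD_convex hx1 hy1 hs ht hst, ?_, ?_, ?_⟩
  · rw [abs_le] at hx2 hy2 ⊢
    have e : (s • x + t • y).2 = s * x.2 + t * y.2 := rfl
    rw [e]
    constructor <;> nlinarith
  · have e : (s • x + t • y).1.re = s * x.1.re + t * y.1.re := by simp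
    rw [e]
    nlinarith
  · have e : (s • x + t • y).1.re = s * x.1.re + t * y.1.re := by simp
    rw [e]
    nlinarith

/-- from `W` to `B` near the horizontal pair -/
theorem W_ja {Y : Set N} {K : Set N} {B W : E → N} (S : SP K B W) (G : GHom Y Γ) {a b : E} (ha : a ∈ zA) (hb : b ∈ zA)
    (hp : PathOn Y (seg W a b)) : G.val (seg B (ja a) (ja b)) = G.val (seg W a b) := by
  refine seg_aff G mdy_zA_convex (φ := ja) (fun x y t => ?_) (fun q hq => S.relA q hq.1 hq.2.1 hq.2.2.1 hq.2.2.2) ha hb hp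
  refine Prod.ext (Complex.ext ?_ ?_) ?_
  · simp [ja]
    ring
  · simp [ja]
    ring
  · simp [ja]
    ring

/-- from `W` to `B` near the vertical pair -/
theorem W_jb {Y : Set N} {K : Set N} {B W : E → N} (S : SP K B W) (G : GHom Y Γ) {a b : E} (ha : a ∈ zB) (hb : b ∈ zB)
    (hp : PathOn Y (seg W a b)) : G.val (seg B (jb a) (jb b)) = G.val (seg W a b) := by
  refine seg_aff G mdy_zB_convex (φ := jb) (fun x y t => ?_) (fun q hq => S.relB q hq.1 hq.2.1 hq.2.2.1 hq.2.2.2) ha hb hp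
  refine Prod.ext (Complex.ext ?_ ?_) ?_
  · simp [jb]
    ring
  · simp [jb]
    ring
  · simp [jb]
    ring

/-- from `B` to the thick knot, `x < 1/4` -/
theorem B_foot {Y : Set N} {κ : ℝ × ℂ → N} {B : E → N} {P P₂ D H H' τ : ℝ} (L : Lnk κ B P P₂ D H H' τ) (G : GHom Y Γ)
    {a b : E} (ha : a ∈ TD) (hb : b ∈ TD) (ha1 : a.2 < 1 / 4) (hb1 : b.2 < 1 / 4) (hp : PathOn Y (seg B a b)) :
    G.val (seg κ (P + D * a.1.re, -⟨H * a.2, H' * a.1.im⟩) (P + D * b.1.re, -⟨H * b.2, H' * b.1.im⟩)) =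
      G.val (seg B a b) := by
  refine seg_aff G (TD_convex.inter (convex_halfSpace_lt mdy_sn (1 / 4)))
    (φ := fun q : E => ((P + D * q.1.re, -⟨H * q.2, H' * q.1.im⟩) : ℝ × ℂ)) (fun x y t => ?_)
    (fun q hq => L.foot q hq.1 hq.2) ⟨ha, ha1⟩ ⟨hb, hb1⟩ hp
  refine Prod.ext ?_ (Complex.ext ?_ ?_)
  · simp
    ring
  · simp
    ring
  · simp
    ring

/-- from `B` to the thick knot, `3/4 < x` -/
theorem B_tip {Y : Set N} {κ : ℝ × ℂ → N} {B : E → N} {P P₂ D H H' τ : ℝ} (L : Lnk κ B P P₂ D H H' τ) (G : GHom Y Γ)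
    {a b : E} (ha : a ∈ TD) (hb : b ∈ TD) (ha1 : 3 / 4 < a.2) (hb1 : 3 / 4 < b.2) (hp : PathOn Y (seg B a b)) :
    G.val (seg κ (P₂ + τ * D * a.1.re, -⟨H * (1 - a.2), -(τ * H' * a.1.im)⟩)
      (P₂ + τ * D * b.1.re, -⟨H * (1 - b.2), -(τ * H' * b.1.im)⟩)) = G.val (seg B a b) := by
  refine seg_aff G (TD_convex.inter (convex_halfSpace_gt mdy_sn (3 / 4)))
    (φ := fun q : E => ((P₂ + τ * D * q.1.re, -⟨H * (1 - q.2), -(τ * H' * q.1.im)⟩) : ℝ × ℂ)) (fun x y t => ?_)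
    (fun q hq => L.tip q hq.1 hq.2) ⟨ha, ha1⟩ ⟨hb, hb1⟩ hp
  refine Prod.ext ?_ (Complex.ext ?_ ?_)
  · simp
    ring
  · simp
    ring
  · simp
    ring

end Pool.Agent.NHR
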