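import Mathlib
import Pool.Agent.NHR.Defs
import Pool.Agent.NHR.Geo
import Pool.Agent.NHR.Sgm
import Pool.Agent.NHR.MdY

/-!
# NHR/FinB: calculus of chords with classes (difficulty 3)

`core (kap κ η) = core κ`, `thick_kap`; `kap κ η (l, v) = κ (l, η v)`.  All radial segments are in `kH 1`.
`finV_uniq`: thin both chords to common `(η'', ε'')` (`thnV` with `O = univ`), then the values of `cor` agree (`clV` differs by the same factors), so they are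
homotopic (`hG.inj`), then `ext.E2` for `kap κ η''`.  `finV_ex`: `hG.sur`, `E1V` with `O = univ`, `η = 1`, `ε` small.
`finV_sld`: `ext.Sld`.  `exists_L`: from `finV_ex`, `LEqN.trans`, `LEqN.symm`.
-/

open scoped Manifold ContDiff Topology
open Set Filter
open Pool.Agent.CSG (stp)
open Pool.Agent.RSG (E3 ex Thick)
open Pool.Agent.KNT (Dom Str Str2 bmp)
open Pool.Agent.NHP

namespace Pool.Agent.NHR

universe u v

variable {N : Type u} [TopologicalSpace N] [ChartedSpace E3 N] {Γ : Type v} [Group Γ]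

theorem finB_kH {l r : ℝ} (h0 : 0 < r) (h1 : r < 1) : ((l, (r : ℂ)) : ℝ × ℂ) ∈ kH 1 := by
  refine ⟨?_, ?_⟩
  · show ‖(r : ℂ)‖ < 1
    rw [Complex.norm_real, Real.norm_eq_abs, abs_of_pos h0]
    exact h1
  · show 0 < ((starRingEnd ℂ) 1 * (r : ℂ)).re
    simpa using h0

theorem finB_half {l : ℝ} : ((l, (1 / 2 : ℂ)) : ℝ × ℂ) ∈ kH 1 := by
  have h := finB_kH (l := l) (r := 1 / 2) (by norm_num) (by norm_num)
  have e : (((1 / 2 : ℝ)) : ℂ) = 1 / 2 := by push_cast; rfl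
  rwa [e] at h

theorem finB_rad {η ε : ℝ} (h0 : 0 < η) (h1 : η ≤ 1) (h2 : 0 < ε) (h3 : ε < 1 / 4) {l : ℝ} :
    ((l, ((η * ε / 8 : ℝ) : ℂ)) : ℝ × ℂ) ∈ kH 1 := by
  refine finB_kH (by positivity) ?_
  nlinarith

theorem finB_mem {x : ℝ} (h1 : -(1 / 4) < x) (h2 : x < 5 / 4) : ((0 : ℂ), x) ∈ TD := ⟨by simp, h1, h2⟩

/-- end points of the core -/
theorem cor_ends {κ : ℝ × ℂ → N} {p p' η ε : ℝ} {T : E → N} (h : FinE κ p p' η ε T) :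
    cor T 0 = κ (p, ((η * ε / 8 : ℝ) : ℂ)) ∧ cor T 1 = κ (p', ((η * ε / 8 : ℝ) : ℂ)) := by
  constructor
  · have e0 : cor T 0 = T ((0 : ℂ), 1 / 8) := by
      unfold cor
      norm_num
    rw [e0, h.std.foot _ (finB_mem (by norm_num) (by norm_num)) (by norm_num : (1 / 8 : ℝ) < 1 / 4)]
    unfold footT kap
    congr 1
    refine Prod.ext ?_ ?_
    · show p + ε * (0 : ℂ).re = p
      simp
    · show (η : ℂ) * ((ε : ℂ) * ⟨1 / 8, (0 : ℂ).im⟩) = ((η * ε / 8 : ℝ) : ℂ)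
      have e1 : (⟨1 / 8, (0 : ℂ).im⟩ : ℂ) = ((1 / 8 : ℝ) : ℂ) := by
        apply Complex.ext <;> simp
      rw [e1, ← Complex.ofReal_mul, ← Complex.ofReal_mul]
      congr 1
      ring
  · have e0 : cor T 1 = T ((0 : ℂ), 7 / 8) := by
      unfold cor
      norm_num
    rw [e0, h.std.tip _ (finB_mem (by norm_num) (by norm_num)) (by norm_num : (3 / 4 : ℝ) < 7 / 8)]
    unfold tipT kap
    congr 1
    refine Prod.ext ?_ ?_
    · show p' + 1 * ε * (0 : ℂ).im = p'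
      simp
    · show (η : ℂ) * ((ε : ℂ) * ⟨1 - 7 / 8, (0 : ℂ).re⟩) = ((η * ε / 8 : ℝ) : ℂ)
      have e1 : (⟨1 - 7 / 8, (0 : ℂ).re⟩ : ℂ) = ((1 / 8 : ℝ) : ℂ) := by
        apply Complex.ext
        · simp
          norm_num
        · simp
      rw [e1, ← Complex.ofReal_mul, ← Complex.ofReal_mul]
      congr 1
      ring

theorem cor_path {κ : ℝ × ℂ → N} {p p' η ε : ℝ} {T : E → N} (h : FinE κ p p' η ε T) : PathOn (core κ)ᶜ (cor T) := by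
  have hm : ∀ t ∈ Icc (0 : ℝ) 1, ((0 : ℂ), 1 / 8 + 3 / 4 * t) ∈ TD := by
    intro t ht
    exact finB_mem (by linarith [ht.1]) (by linarith [ht.2])
  refine ⟨?_, ?_⟩
  · exact (cht_cont h.chd.cht).comp (f := fun t : ℝ => ((0 : ℂ), 1 / 8 + 3 / 4 * t)) (by fun_prop) hm
  · intro t ht hc
    have h1 : T ((0 : ℂ), 1 / 8 + 3 / 4 * t) ∈ core κ ∩ T '' TD := ⟨hc, ⟨_, hm t ht, rfl⟩⟩
    rw [h.chd.hit] at h1
    obtain ⟨q, hq, hqe⟩ := h1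
    have h2 : q = ((0 : ℂ), 1 / 8 + 3 / 4 * t) := h.chd.cht.inj hq.1 (hm t ht) hqe
    rcases hq.2 with ⟨h3, -⟩ | ⟨h3, -⟩
    · rw [h2] at h3
      simp only at h3
      linarith [ht.1]
    · rw [h2] at h3
      simp only at h3
      linarith [ht.2]

theorem radc_path {κ : ℝ × ℂ → N} (hκ : Thick κ) {p p' η ε η' ε' : ℝ} {T : E → N} (h : FinE κ p p' η ε T) (h0 : 0 < η')
    (h1 : η' ≤ 1) (h2 : 0 < ε') (h3 : ε' < 1 / 4) : PathOn (core κ)ᶜ (radc κ p p' η ε η' ε' T) := by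
  have a1 := K_path hκ 1 (finB_rad h0 h1 h2 h3 (l := p)) (finB_rad h.pos h.le h.adm.pos h.adm.lt (l := p))
  have a2 := K_path hκ 1 (finB_rad h.pos h.le h.adm.pos h.adm.lt (l := p')) (finB_rad h0 h1 h2 h3 (l := p'))
  obtain ⟨c0, c1⟩ := cor_ends h
  refine (a1.cat (cor_path h) ?_).cat a2 ?_
  · rw [seg_one, c0]
  · rw [cat_one, c1, seg_zero]

theorem radc_val {κ : ℝ × ℂ → N} (hκ : Thick κ) (G : GHom (core κ)ᶜ Γ) {p p' η ε η' ε' : ℝ} {T : E → N}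
    (h : FinE κ p p' η ε T) (h0 : 0 < η') (h1 : η' ≤ 1) (h2 : 0 < ε') (h3 : ε' < 1 / 4) :
    G.val (radc κ p p' η ε η' ε' T) =
      G.val (seg κ (p, ((η' * ε' / 8 : ℝ) : ℂ)) (p, ((η * ε / 8 : ℝ) : ℂ))) * G.val (cor T) *
        G.val (seg κ (p', ((η * ε / 8 : ℝ) : ℂ)) (p', ((η' * ε' / 8 : ℝ) : ℂ))) := by
  have a1 := K_path hκ 1 (finB_rad h0 h1 h2 h3 (l := p)) (finB_rad h.pos h.le h.adm.pos h.adm.lt (l := p))
  have a2 := K_path hκ 1 (finB_rad h.pos h.le h.adm.pos h.adm.lt (l := p')) (finB_rad h0 h1 h2 h3 (l := p'))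
  obtain ⟨c0, c1⟩ := cor_ends h
  have e1 : seg κ (p, ((η' * ε' / 8 : ℝ) : ℂ)) (p, ((η * ε / 8 : ℝ) : ℂ)) 1 = cor T 0 := by rw [seg_one, c0]
  have e2 : cat (seg κ (p, ((η' * ε' / 8 : ℝ) : ℂ)) (p, ((η * ε / 8 : ℝ) : ℂ))) (cor T) 1 =
      seg κ (p', ((η * ε / 8 : ℝ) : ℂ)) (p', ((η' * ε' / 8 : ℝ) : ℂ)) 0 := by
    rw [cat_one, c1, seg_zero]
  unfold radc
  rw [G.ct _ _ (a1.cat (cor_path h) e1) a2 e2, G.ct _ _ a1 (cor_path h) e1]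

theorem clV_of_hmt {κ : ℝ × ℂ → N} (hκ : Thick κ) (G : GHom (core κ)ᶜ Γ) {p p' η ε η' ε' : ℝ} {T T' : E → N}
    (h : FinE κ p p' η ε T) (h' : FinE κ p p' η' ε' T') (hh : Hmt (core κ)ᶜ (cor T') (radc κ p p' η ε η' ε' T)) :
    clV G κ p p' η' ε' T' = clV G κ p p' η ε T := by
  have b1 := finB_rad h'.pos h'.le h'.adm.pos h'.adm.lt (l := p)
  have b2 := finB_rad h'.pos h'.le h'.adm.pos h'.adm.lt (l := p')
  have b3 := finB_rad h.pos h.le h.adm.pos h.adm.lt (l := p)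
  have b4 := finB_rad h.pos h.le h.adm.pos h.adm.lt (l := p')
  unfold clV
  rw [G.hmt _ _ hh, radc_val hκ G h h'.pos h'.le h'.adm.pos h'.adm.lt,
    ← K_tri hκ G 1 (finB_half (l := p)) b1 b3, ← K_tri hκ G 1 b4 b2 (finB_half (l := p'))]
  group

theorem thnV (ext : Ext N) {κ : ℝ × ℂ → N} (hκ : Thick κ) (G : GHom (core κ)ᶜ Γ) {p p' : ℝ} {c : Γ} {T : E → N}
    (h : FinV G κ p p' c T) {O : Set N} (hO : IsOpen O) (hT : ∀ x ∈ Icc (0 : ℝ) 1, T (0, x) ∈ O) :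
    ∃ r : ℝ, 0 < r ∧ ∀ η' ε' : ℝ, 0 < η' → η' ≤ r → 0 < ε' → ε' ≤ r → ∃ T' : E → N, FinE κ p p' η' ε' T' ∧
      clV G κ p p' η' ε' T' = c ∧ IsCompact (closure (T' '' TD)) ∧ closure (T' '' TD) ⊆ O ∩ T '' TD ∧
      LEqN (kn (core κ) T) (kn (core κ) T') := by
  obtain ⟨η, ε, hE, hc⟩ := h
  obtain ⟨r, hr, H⟩ := ext.Thn κ hκ p p' η ε T hE O hO hT
  refine ⟨r, hr, fun η' ε' h1 h2 h3 h4 => ?_⟩
  obtain ⟨T', a1, a2, a3, a4, a5⟩ := H η' ε' h1 h2 h3 h4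
  exact ⟨T', a1, by rw [clV_of_hmt hκ G hE a1 a5, hc], a2, a3, a4⟩

theorem E1V (ext : Ext N) {κ : ℝ × ℂ → N} (hκ : Thick κ) {p p' η ε : ℝ} (hη : 0 < η) (hη1 : η ≤ 1) (ha : Adm p p' ε)
    (ha4 : Adm p p' (4 * ε)) {O : Set N} (hO : IsOpen O)
    (hf : ∀ l : ℝ, |l - p| < 4 * ε → ∀ v : ℂ, ‖v‖ < 4 * (η * ε) → κ (l, v) ∈ O)
    (ht : ∀ l : ℝ, |l - p'| < 4 * ε → ∀ v : ℂ, ‖v‖ < 4 * (η * ε) → κ (l, v) ∈ O) {f : ℝ → N}
    (hfp : PathOn (O \ core κ) f)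
    (h0 : f 0 = κ (p, ((η * ε / 8 : ℝ) : ℂ))) (h1 : f 1 = κ (p', ((η * ε / 8 : ℝ) : ℂ))) :
    ∃ T : E → N, FinE κ p p' η ε T ∧ T '' TD ⊆ O ∧ Hmt (O \ core κ) (cor T) f := by
  have hcore := core_kap κ η
  have hnorm : ∀ v : ℂ, ‖v‖ < 4 * ε → ‖(η : ℂ) * v‖ < 4 * (η * ε) := by
    intro v hv
    rw [norm_mul, Complex.norm_real, Real.norm_eq_abs, abs_of_pos hη]
    have := mul_lt_mul_of_pos_left hv hη
    linarith
  have e8 : ∀ l : ℝ, κ (l, ((η * ε / 8 : ℝ) : ℂ)) = kap κ η (l, ((ε / 8 : ℝ) : ℂ)) := by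
    intro l
    unfold kap
    congr 1
    refine Prod.ext rfl ?_
    show ((η * ε / 8 : ℝ) : ℂ) = (η : ℂ) * ((ε / 8 : ℝ) : ℂ)
    rw [← Complex.ofReal_mul]
    congr 1
    ring
  have q1 : ∀ (l : ℝ) (v : ℂ), |l - p| < 4 * ε → ‖v‖ < 4 * ε → kap κ η (l, v) ∈ O :=
    fun l v hl hv => hf l hl _ (hnorm v hv)
  have q2 : ∀ (l : ℝ) (v : ℂ), |l - p'| < 4 * ε → ‖v‖ < 4 * ε → kap κ η (l, v) ∈ O :=
    fun l v hl hv => ht l hl _ (hnorm v hv)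
  obtain ⟨T, hT1, hT2, hT3, hT4⟩ := ext.E1 (kap κ η) (thick_kap hκ hη hη1) p p' ε ha ha4 O hO q1 q2 f
    (by rw [hcore]; exact hfp) (by rw [h0, e8]) (by rw [h1, e8])
  rw [hcore] at hT1 hT4
  exact ⟨T, ⟨hη, hη1, ha, hT1, hT2⟩, hT3, hT4⟩

theorem finV_uniq (ext : Ext N) {κ : ℝ × ℂ → N} (hκ : Thick κ) (G : GHom (core κ)ᶜ Γ) (hG : Full G) {p p' : ℝ} {c : Γ}
    {T T' : E → N} (h : FinV G κ p p' c T) (h' : FinV G κ p p' c T') : LEqN (kn (core κ) T) (kn (core κ) T') := by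
  obtain ⟨r, hr, H⟩ := thnV ext hκ G h isOpen_univ (fun _ _ => mem_univ _)
  obtain ⟨r', hr', H'⟩ := thnV ext hκ G h' isOpen_univ (fun _ _ => mem_univ _)
  have hm : 0 < min r r' := lt_min hr hr'
  obtain ⟨T₁, a1, a2, -, -, a3⟩ := H _ _ hm (min_le_left _ _) hm (min_le_left _ _)
  obtain ⟨T₂, b1, b2, -, -, b3⟩ := H' _ _ hm (min_le_right _ _) hm (min_le_right _ _)
  obtain ⟨c0, c1⟩ := cor_ends a1
  obtain ⟨d0, d1⟩ := cor_ends b1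
  have hv : G.val (cor T₁) = G.val (cor T₂) := by
    have := a2.trans b2.symm
    unfold clV at this
    exact mul_left_cancel (mul_right_cancel this)
  have hh := hG.inj _ _ (cor_path a1) (cor_path b1) (c0.trans d0.symm) (c1.trans d1.symm) hv
  have hcore := core_kap κ (min r r')
  have hE := ext.E2 (kap κ (min r r')) (thick_kap hκ a1.pos a1.le) p p' _ a1.adm T₁ T₂
    (by rw [hcore]; exact a1.chd) (by rw [hcore]; exact b1.chd) a1.std b1.std (by rw [hcore]; exact hh)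
  rw [hcore] at hE
  exact a3.trans (hE.trans b3.symm)

theorem finB_adm {p p' : ℝ} (hp : p < p') (hp' : p' < p + 1) : ∃ ε, Adm p p' ε ∧ Adm p p' (4 * ε) := by
  set δ := min (p' - p) (p + 1 - p') with hδ
  have h1 : δ ≤ p' - p := min_le_left _ _
  have h2 : δ ≤ p + 1 - p' := min_le_right _ _
  have h3 : 0 < δ := lt_min (by linarith) (by linarith)
  have hfar : ∀ k : ℤ, δ ≤ |p - p' + k| := by
    intro k
    rcases le_or_gt k 0 with hk | hk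
    · have hk' : (k : ℝ) ≤ 0 := by exact_mod_cast hk
      rw [abs_of_neg (by linarith)]
      linarith
    · have hk' : (1 : ℝ) ≤ k := by exact_mod_cast hk
      rw [abs_of_pos (by linarith)]
      linarith
  refine ⟨δ / 16, ⟨by positivity, by linarith, fun k => ?_⟩, ⟨by positivity, by linarith, fun k => ?_⟩⟩
  · have := hfar k
    linarith
  · have := hfar k
    linarith

theorem finV_ex (ext : Ext N) {κ : ℝ × ℂ → N} (hκ : Thick κ) (G : GHom (core κ)ᶜ Γ) (hG : Full G) {p p' : ℝ}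
    (hp : p < p') (hp' : p' < p + 1) (c : Γ) : ∃ T, FinV G κ p p' c T := by
  obtain ⟨ε, ha, ha4⟩ := finB_adm hp hp'
  have hm : ∀ l : ℝ, κ (l, ((1 * ε / 8 : ℝ) : ℂ)) ∈ (core κ)ᶜ := by
    intro l
    refine thick_off hκ ?_ ?_
    · rw [Complex.norm_real, Real.norm_eq_abs, abs_of_pos (by linarith [ha.pos])]
      linarith [ha.lt]
    · have : (1 * ε / 8 : ℝ) ≠ 0 := by
        have := ha.pos
        positivity
      exact_mod_cast this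
  obtain ⟨f, hf, hf0, hf1, hfv⟩ := hG.sur _ (hm p) _ (hm p')
    ((G.val (seg κ (p, 1 / 2) (p, ((1 * ε / 8 : ℝ) : ℂ))))⁻¹ * c *
      (G.val (seg κ (p', ((1 * ε / 8 : ℝ) : ℂ)) (p', 1 / 2)))⁻¹)
  obtain ⟨T, hT, -, hh⟩ := E1V ext hκ one_pos le_rfl ha ha4 isOpen_univ (fun _ _ _ _ => mem_univ _)
    (fun _ _ _ _ => mem_univ _) (f := f) (by rw [← compl_eq_univ_sdiff]; exact hf) hf0 hf1
  rw [← compl_eq_univ_sdiff] at hh
  refine ⟨T, 1, ε, hT, ?_⟩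
  unfold clV
  rw [G.hmt _ _ hh, hfv]
  group

theorem finV_sld (ext : Ext N) {κ : ℝ × ℂ → N} (hκ : Thick κ) (G : GHom (core κ)ᶜ Γ) {p p₀ p' : ℝ}
    (hs : ∀ k : ℤ, p' + k ∉ uIcc p p₀) {c : Γ} {T : E → N} (h : FinV G κ p p' c T) :
    ∃ T', FinV G κ p₀ p' (G.val (seg κ (p₀, 1 / 2) (p, 1 / 2)) * c) T' ∧ LEqN (kn (core κ) T) (kn (core κ) T') := by
  obtain ⟨η, ε, hE, hc⟩ := h
  obtain ⟨η', ε', T', hE', hl, hh⟩ := ext.Sld κ hκ p p₀ p' η ε T hE hs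
  refine ⟨T', ⟨η', ε', hE', ?_⟩, hl⟩
  have b0 := finB_rad hE'.pos hE'.le hE'.adm.pos hE'.adm.lt (l := p₀)
  have b1 := finB_rad hE'.pos hE'.le hE'.adm.pos hE'.adm.lt (l := p)
  have b2 := finB_rad hE'.pos hE'.le hE'.adm.pos hE'.adm.lt (l := p')
  have b3 := finB_rad hE.pos hE.le hE.adm.pos hE.adm.lt (l := p)
  have b4 := finB_rad hE.pos hE.le hE.adm.pos hE.adm.lt (l := p')
  have e1 : seg κ (p₀, ((η' * ε' / 8 : ℝ) : ℂ)) (p, ((η' * ε' / 8 : ℝ) : ℂ)) 1 = radc κ p p' η ε η' ε' T 0 := by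
    unfold radc
    rw [seg_one, cat_zero, cat_zero, seg_zero]
  rw [← hc]
  unfold clV
  rw [G.hmt _ _ hh, G.ct _ _ (K_path hκ 1 b0 b1)
    (radc_path hκ hE hE'.pos hE'.le hE'.adm.pos hE'.adm.lt) e1,
    radc_val hκ G hE hE'.pos hE'.le hE'.adm.pos hE'.adm.lt]
  have k1 := K_tri hκ G 1 (finB_half (l := p₀)) b0 b1
  have k2 := K_tri hκ G 1 (finB_half (l := p₀)) b1 b3
  have k3 := K_tri hκ G 1 (finB_half (l := p₀)) (finB_half (l := p)) b3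
  have k4 := K_tri hκ G 1 b4 b2 (finB_half (l := p'))
  rw [← k4]
  have k5 : G.val (seg κ (p₀, 1 / 2) (p₀, ((η' * ε' / 8 : ℝ) : ℂ))) *
      G.val (seg κ (p₀, ((η' * ε' / 8 : ℝ) : ℂ)) (p, ((η' * ε' / 8 : ℝ) : ℂ))) *
      G.val (seg κ (p, ((η' * ε' / 8 : ℝ) : ℂ)) (p, ((η * ε / 8 : ℝ) : ℂ))) =
      G.val (seg κ (p₀, 1 / 2) (p, 1 / 2)) * G.val (seg κ (p, 1 / 2) (p, ((η * ε / 8 : ℝ) : ℂ))) := by
    rw [k1, k2, k3]
  simp only [← mul_assoc]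
  rw [k5]

theorem exists_L (ext : Ext N) {κ : ℝ × ℂ → N} (hκ : Thick κ) (G : GHom (core κ)ᶜ Γ) (hG : Full G) {p p' : ℝ}
    (hp : p < p') (hp' : p' < p + 1) : ∃ L : Subgroup Γ, ∀ g, g ∈ L ↔ g ∈ Lset G κ p p' := by
  refine ⟨{ carrier := Lset G κ p p', mul_mem' := ?_, one_mem' := ?_, inv_mem' := ?_ }, fun g => Iff.rfl⟩
  · intro a b ha hb c T T' hT hT'
    obtain ⟨T'', hT''⟩ := finV_ex ext hκ G hG hp hp' (b * c)
    rw [mul_assoc] at hT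
    exact (ha _ _ _ hT hT'').trans (hb _ _ _ hT'' hT')
  · intro c T T' hT hT'
    rw [one_mul] at hT
    exact finV_uniq ext hκ G hG hT hT'
  · intro a ha c T T' hT hT'
    refine (ha (a⁻¹ * c) T' T ?_ hT).symm
    rw [mul_inv_cancel_left]
    exact hT'

end Pool.Agent.NHR
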