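import Mathlib
import Pool.Agent.NHR.Defs
import Pool.Agent.NHR.MdY

/-!
# NHR/IdB: the loop `β` is the commutator of the meridian and `a` (difficulty 3)

`τ = -1`.  Points `(im, x)` in the plane `re u = r = -1/256` of `B`, `y = 1/768`: `s₀ = (0, -1/8)`, `s₁ = (-y, -1/8)`, `s₂ = (-y, 9/8)`, `s₃ = (y, 9/8)`, `s₄ = (y, -1/8)`,
`s₅ = (0, 9/8)`, `s₆ = (-y, 1/8)`, `s₇ = (y, 1/8)`, `s₆' = (-y, 7/8)`, `s₇' = (y, 7/8)`.  `v = G.val ∘ seg B`.  `BL = v(s₀,s₁) v(s₁,s₂) v(s₂,s₃) v(s₃,s₄) v(s₄,s₀)`,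
`HU = v(s₀,s₄) v(s₄,s₃) v(s₃,s₅)`.  `M₀ = v(s₀,s₁) v(s₁,s₆) v(s₆,s₇) v(s₇,s₄) v(s₄,s₀)`,
`M₂ = v(s₅,s₃) v(s₃,s₇') v(s₇',s₆') v(s₆',s₂) v(s₂,s₅)`.  Then `BL = M₀ HU M₂ HU⁻¹`
(`v(s₆,s₂) = v(s₆,s₆') v(s₆',s₂)`, `v(s₄,s₃) = v(s₄,s₇) v(s₇,s₇') v(s₇',s₃)`, `v(s₇,s₆) = v(s₇,s₇') v(s₇',s₆') v(s₆',s₆)` in `0 < x < 1`).
In the chart `κ` (`B_foot`, `B_tip`): `M₀` is the loop through `v = H/8, H/8 + iH'y, -H/8 + iH'y, -H/8 - iH'y, H/8 - iH'y` at `l = P + D r`: it is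
`t0⁻¹ m t0` by `K_tri` with `n = 1, I, -1, -I` and `n = 1 ± I ..`; `M₂` is the inverse loop at `l = P₂ - τ D / 256 = P₂ + D/256` (`τ = -1`).
First show that the round loop `mer κ p r` is the product of the four segments through `r, i r, -r, -i r` (`seg_in` with half planes `kH`), and is carried by translations
in `l` and by changes of the radius.
-/

open scoped Manifold ContDiff Topology
open Set Filter
open Pool.Agent.CSG (stp)
open Pool.Agent.RSG (E3 ex Thick)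
open Pool.Agent.KNT (Dom Str Str2 bmp)
open Pool.Agent.NHP

namespace Pool.Agent.NHR

universe u v

variable {N : Type u} [TopologicalSpace N] [ChartedSpace E3 N] {Γ : Type v} [Group Γ]

/-! ## the circle -/

theorem idb_re (x : ℝ) : (ex x).re = Real.cos (2 * Real.pi * x) := by
  rw [ex, Complex.exp_ofReal_mul_I_re]

theorem idb_im (x : ℝ) : (ex x).im = Real.sin (2 * Real.pi * x) := by
  rw [ex, Complex.exp_ofReal_mul_I_im]

theorem idb_add (x y : ℝ) : ex (x + y) = ex x * ex y := by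
  rw [ex, ex, ex, ← Complex.exp_add]
  congr 1
  push_cast
  ring

theorem idb_ex0 : ex 0 = 1 := by
  simp [ex]

theorem idb_ex1 : ex (1 / 4) = Complex.I := by
  apply Complex.ext
  · rw [idb_re, show 2 * Real.pi * (1 / 4) = Real.pi / 2 by ring, Real.cos_pi_div_two, Complex.I_re]
  · rw [idb_im, show 2 * Real.pi * (1 / 4) = Real.pi / 2 by ring, Real.sin_pi_div_two, Complex.I_im]

theorem idb_ex2 : ex (1 / 2) = -1 := by
  rw [show (1 / 2 : ℝ) = 1 / 4 + 1 / 4 by norm_num, idb_add, idb_ex1, Complex.I_mul_I]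

theorem idb_ex3 : ex (3 / 4) = -Complex.I := by
  rw [show (3 / 4 : ℝ) = 1 / 2 + 1 / 4 by norm_num, idb_add, idb_ex1, idb_ex2, neg_one_mul]

theorem idb_norm (x : ℝ) : ‖ex x‖ = 1 := by
  rw [ex, Complex.norm_exp_ofReal_mul_I]

theorem idb_cont : Continuous ex := by
  unfold ex
  fun_prop

theorem idb_pos {t : ℝ} (h0 : 0 ≤ t) (h1 : t ≤ 1) : 0 < (ex (t / 4)).re + (ex (t / 4)).im := by
  rw [idb_re, idb_im]
  have hp := Real.pi_pos
  have a0 : 0 ≤ 2 * Real.pi * (t / 4) := by positivity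
  have a1 : 2 * Real.pi * (t / 4) ≤ Real.pi / 2 := by nlinarith
  have hc : 0 ≤ Real.cos (2 * Real.pi * (t / 4)) :=
    Real.cos_nonneg_of_neg_pi_div_two_le_of_le (by linarith) a1
  have hs : 0 ≤ Real.sin (2 * Real.pi * (t / 4)) :=
    Real.sin_nonneg_of_nonneg_of_le_pi a0 (by linarith)
  have h := Real.sin_sq_add_cos_sq (2 * Real.pi * (t / 4))
  by_contra hh
  have e1 : Real.cos (2 * Real.pi * (t / 4)) = 0 := by linarith
  have e2 : Real.sin (2 * Real.pi * (t / 4)) = 0 := by linarith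
  rw [e1, e2] at h
  norm_num at h

/-! ## half planes -/

theorem idb_convex (n : ℂ) : Convex ℝ (kH n) := by
  intro a ha b hb s t hs ht hst
  refine ⟨?_, ?_⟩
  · have h1 : ‖s • a.2 + t • b.2‖ ≤ s * ‖a.2‖ + t * ‖b.2‖ := by
      refine (norm_add_le _ _).trans ?_
      rw [norm_smul, norm_smul, Real.norm_of_nonneg hs, Real.norm_of_nonneg ht]
    refine lt_of_le_of_lt h1 ?_
    have ha' : ‖a.2‖ < 1 := ha.1
    have hb' : ‖b.2‖ < 1 := hb.1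
    rcases eq_or_lt_of_le hs with h | h
    · have : t = 1 := by linarith
      rw [← h, this]
      linarith
    · nlinarith
  · have e : ((starRingEnd ℂ) n * (s • a + t • b).2).re =
        s * ((starRingEnd ℂ) n * a.2).re + t * ((starRingEnd ℂ) n * b.2).re := by
      simp only [Prod.snd_add, Prod.smul_snd, Complex.mul_re, Complex.add_re, Complex.add_im, Complex.real_smul,
        Complex.ofReal_re, Complex.ofReal_im, Complex.mul_im]
      ring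
    have ha' : 0 < ((starRingEnd ℂ) n * a.2).re := ha.2
    have hb' : 0 < ((starRingEnd ℂ) n * b.2).re := hb.2
    show 0 < ((starRingEnd ℂ) n * (s • a + t • b).2).re
    rw [e]
    rcases eq_or_lt_of_le hs with h | h
    · have : t = 1 := by linarith
      rw [← h, this]
      linarith
    · have := mul_pos h ha'
      have := mul_nonneg ht hb'.le
      linarith

theorem idb_at {κ : ℝ × ℂ → N} (hκ : Thick κ) {q : ℝ × ℂ} (hq : ‖q.2‖ < 1) : ContinuousAt κ q :=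
  (hκ.loc q.1 q.2 hq).contMDiffAt.continuousAt

theorem idb_out {κ : ℝ × ℂ → N} (hκ : Thick κ) {q : ℝ × ℂ} (hq : ‖q.2‖ < 1) (h0 : q.2 ≠ 0) : κ q ∈ (core κ)ᶜ := by
  rintro ⟨l, hl⟩
  have := hκ.inj l 0 q.1 q.2 (by simp) hq hl
  exact h0 this.1.symm

theorem idb_contOn {κ : ℝ × ℂ → N} (hκ : Thick κ) (n : ℂ) : ContinuousOn κ (kH n) :=
  fun _ hq => (idb_at hκ hq.1).continuousWithinAt

theorem idb_sub {κ : ℝ × ℂ → N} (hκ : Thick κ) (n : ℂ) : ∀ q ∈ kH n, κ q ∈ (core κ)ᶜ := by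
  intro q hq
  refine idb_out hκ hq.1 ?_
  intro h
  have := hq.2
  rw [h] at this
  simp at this

/-- a quarter of a circle -/
theorem idb_quarter {κ : ℝ × ℂ → N} (hκ : Thick κ) (G : GHom (core κ)ᶜ Γ) (p : ℝ) {c : ℂ} (h0 : c ≠ 0)
    (h1 : ‖c‖ < 1) : G.val (fun t => κ (p, c * ex (t / 4))) = G.val (seg κ (p, c) (p, c * Complex.I)) := by
  have h := seg_in G (idb_convex (c * (1 + Complex.I))) (idb_contOn hκ _) (idb_sub hκ _)
    (g := fun t : ℝ => ((p, c * ex (t / 4)) : ℝ × ℂ)) ?_ ?_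
  · rw [h]
    congr 2
    · simp [idb_ex0]
    · rw [idb_ex1]
  · apply Continuous.continuousOn
    have := idb_cont
    fun_prop
  · intro t ht
    refine ⟨?_, ?_⟩
    · show ‖c * ex (t / 4)‖ < 1
      rw [norm_mul, idb_norm, mul_one]
      exact h1
    · have hp := idb_pos ht.1 ht.2
      have hc : 0 < c.re ^ 2 + c.im ^ 2 := by
        rcases lt_or_eq_of_le (add_nonneg (sq_nonneg c.re) (sq_nonneg c.im)) with h | h
        · exact h
        · exfalso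
          apply h0
          apply Complex.ext
          · have := sq_nonneg c.im
            have := sq_nonneg c.re
            have : c.re ^ 2 = 0 := by linarith
            simpa using this
          · have := sq_nonneg c.im
            have := sq_nonneg c.re
            have : c.im ^ 2 = 0 := by linarith
            simpa using this
      have e : ((starRingEnd ℂ) (c * (1 + Complex.I)) * (c * ex (t / 4))).re =
          (c.re ^ 2 + c.im ^ 2) * ((ex (t / 4)).re + (ex (t / 4)).im) := by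
        simp only [map_mul, map_add, map_one, Complex.conj_I, Complex.mul_re, Complex.mul_im, Complex.conj_re,
          Complex.conj_im, Complex.add_re, Complex.add_im, Complex.one_re, Complex.one_im, Complex.neg_re,
          Complex.neg_im, Complex.I_re, Complex.I_im]
        ring
      show 0 < ((starRingEnd ℂ) (c * (1 + Complex.I)) * (c * ex (t / 4))).re
      rw [e]
      exact mul_pos hc hp

theorem mer_four {κ : ℝ × ℂ → N} (hκ : Thick κ) (G : GHom (core κ)ᶜ Γ) (p : ℝ) {r : ℝ} (h0 : 0 < r) (h1 : r < 1) :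
    G.val (mer κ p r) = G.val (seg κ (p, (r : ℂ)) (p, (r : ℂ) * Complex.I)) *
      G.val (seg κ (p, (r : ℂ) * Complex.I) (p, -(r : ℂ))) *
      G.val (seg κ (p, -(r : ℂ)) (p, -((r : ℂ) * Complex.I))) *
      G.val (seg κ (p, -((r : ℂ) * Complex.I)) (p, (r : ℂ))) := by
  have hr : (r : ℂ) ≠ 0 := by exact_mod_cast h0.ne'
  have hn : ‖(r : ℂ)‖ < 1 := by
    rw [Complex.norm_real, Real.norm_of_nonneg h0.le]
    exact h1
  have hf : ContinuousOn (mer κ p r) (univ : Set ℝ) := by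
    intro t _
    apply ContinuousAt.continuousWithinAt
    have h : ContinuousAt κ (p, (r : ℂ) * ex t) := by
      apply idb_at hκ
      show ‖(r : ℂ) * ex t‖ < 1
      rw [norm_mul, idb_norm, mul_one]
      exact hn
    have h' : ContinuousAt (fun t : ℝ => ((p, (r : ℂ) * ex t) : ℝ × ℂ)) t := by
      apply Continuous.continuousAt
      have := idb_cont
      fun_prop
    exact ContinuousAt.comp (f := fun t : ℝ => ((p, (r : ℂ) * ex t) : ℝ × ℂ)) (g := κ) h h'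
  have hY : ∀ t ∈ (univ : Set ℝ), mer κ p r t ∈ (core κ)ᶜ := by
    intro t _
    apply idb_out hκ
    · show ‖(r : ℂ) * ex t‖ < 1
      rw [norm_mul, idb_norm, mul_one]
      exact hn
    · show (r : ℂ) * ex t ≠ 0
      refine mul_ne_zero hr ?_
      intro h
      have := idb_norm t
      rw [h] at this
      simp at this
  have e0 : seg (mer κ p r) 0 1 = mer κ p r := by
    funext t
    simp [seg]
  have hseg : ∀ (a b : ℝ) (c : ℂ), b = a + 1 / 4 → (r : ℂ) * ex a = c →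
      seg (mer κ p r) a b = fun t => κ (p, c * ex (t / 4)) := by
    intro a b c hb hc
    funext t
    show κ (p, (r : ℂ) * ex ((1 - t) • a + t • b)) = κ (p, c * ex (t / 4))
    rw [← hc, mul_assoc, ← idb_add, hb]
    congr 4
    simp only [smul_eq_mul]
    ring
  have q0 := hseg 0 (1 / 4) r (by norm_num) (by rw [idb_ex0, mul_one])
  have q1 := hseg (1 / 4) (1 / 2) (r * Complex.I) (by norm_num) (by rw [idb_ex1])
  have q2 := hseg (1 / 2) (3 / 4) (-r) (by norm_num) (by rw [idb_ex2, mul_neg_one])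
  have q3 := hseg (3 / 4) 1 (-(r * Complex.I)) (by norm_num) (by rw [idb_ex3, mul_neg])
  have s1 := sub_tri G convex_univ hf hY (mem_univ (0 : ℝ)) (mem_univ (1 / 4 : ℝ)) (mem_univ (1 / 2 : ℝ))
  have s2 := sub_tri G convex_univ hf hY (mem_univ (0 : ℝ)) (mem_univ (1 / 2 : ℝ)) (mem_univ (3 / 4 : ℝ))
  have s3 := sub_tri G convex_univ hf hY (mem_univ (0 : ℝ)) (mem_univ (3 / 4 : ℝ)) (mem_univ (1 : ℝ))
  rw [← e0, ← s3, ← s2, ← s1, q0, q1, q2, q3, idb_quarter hκ G p hr hn,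
    idb_quarter hκ G p (c := r * Complex.I) (mul_ne_zero hr Complex.I_ne_zero) (by simpa using hn),
    idb_quarter hκ G p (c := -r) (neg_ne_zero.mpr hr) (by simpa using hn),
    idb_quarter hκ G p (c := -(r * Complex.I)) (neg_ne_zero.mpr (mul_ne_zero hr Complex.I_ne_zero)) (by simpa using hn)]
  have i1 : (r : ℂ) * Complex.I * Complex.I = -(r : ℂ) := by
    rw [mul_assoc, Complex.I_mul_I, mul_neg_one]
  have i2 : -(r : ℂ) * Complex.I = -((r : ℂ) * Complex.I) := by ring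
  have i3 : -((r : ℂ) * Complex.I) * Complex.I = (r : ℂ) := by
    rw [neg_mul, i1, neg_neg]
  rw [i1, i2, i3]

theorem idb_mem {l x y a b : ℝ} (h : |x| + |y| < 1) (h' : 0 < a * x + b * y) :
    ((l, (⟨x, y⟩ : ℂ)) : ℝ × ℂ) ∈ kH (⟨a, b⟩ : ℂ) := by
  refine ⟨lt_of_le_of_lt (Complex.norm_le_abs_re_add_abs_im _) h, ?_⟩
  show 0 < ((starRingEnd ℂ) (⟨a, b⟩ : ℂ) * (⟨x, y⟩ : ℂ)).re
  simp only [Complex.mul_re, Complex.conj_re, Complex.conj_im]
  linarith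

theorem idb_four {κ : ℝ × ℂ → N} (hκ : Thick κ) (G : GHom (core κ)ᶜ Γ) (p : ℝ) {r : ℝ} (h0 : 0 < r) (h1 : r < 1) :
    G.val (mer κ p r) = G.val (seg κ (p, (⟨r, 0⟩ : ℂ)) (p, (⟨0, r⟩ : ℂ))) *
      G.val (seg κ (p, (⟨0, r⟩ : ℂ)) (p, (⟨-r, 0⟩ : ℂ))) *
      G.val (seg κ (p, (⟨-r, 0⟩ : ℂ)) (p, (⟨0, -r⟩ : ℂ))) *
      G.val (seg κ (p, (⟨0, -r⟩ : ℂ)) (p, (⟨r, 0⟩ : ℂ))) := by
  have c0 : (r : ℂ) = ⟨r, 0⟩ := rfl
  have c1 : (r : ℂ) * Complex.I = ⟨0, r⟩ := by apply Complex.ext <;> simp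
  have c2 : -(⟨r, 0⟩ : ℂ) = ⟨-r, 0⟩ := by apply Complex.ext <;> simp
  have c3 : -(⟨0, r⟩ : ℂ) = ⟨0, -r⟩ := by apply Complex.ext <;> simp
  rw [mer_four hκ G p h0 h1, c1, c0, c2, c3]

theorem mer_move {κ : ℝ × ℂ → N} (hκ : Thick κ) (G : GHom (core κ)ᶜ Γ) (p p' : ℝ) {r r' : ℝ} (h0 : 0 < r) (h1 : r < 1)
    (h0' : 0 < r') (h1' : r' < 1) :
    G.val (mer κ p' r') = (G.val (seg κ (p, (r : ℂ)) (p', (r' : ℂ))))⁻¹ * G.val (mer κ p r) *
      G.val (seg κ (p, (r : ℂ)) (p', (r' : ℂ))) := by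
  have c0 : (r : ℂ) = ⟨r, 0⟩ := rfl
  have c0' : (r' : ℂ) = ⟨r', 0⟩ := rfl
  rw [c0, c0', idb_four hκ G p h0 h1, idb_four hκ G p' h0' h1']
  have ha : ∀ {l s : ℝ}, 0 < s → s < 1 → |s| + |(0 : ℝ)| < 1 := by
    intro l s h h'
    rw [abs_of_pos h, abs_zero, add_zero]
    exact h'
  have ha' : ∀ {l s : ℝ}, 0 < s → s < 1 → |(0 : ℝ)| + |s| < 1 := by
    intro l s h h'
    rw [abs_of_pos h, abs_zero, zero_add]
    exact h'
  have hb : ∀ {l s : ℝ}, 0 < s → s < 1 → |-s| + |(0 : ℝ)| < 1 := by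
    intro l s h h'
    rw [abs_neg, abs_of_pos h, abs_zero, add_zero]
    exact h'
  have hb' : ∀ {l s : ℝ}, 0 < s → s < 1 → |(0 : ℝ)| + |-s| < 1 := by
    intro l s h h'
    rw [abs_neg, abs_of_pos h, abs_zero, zero_add]
    exact h'
  have q1 : ∀ {l s : ℝ}, 0 < s → s < 1 → ((l, (⟨s, 0⟩ : ℂ)) : ℝ × ℂ) ∈ kH (⟨1, 1⟩ : ℂ) :=
    fun h h' => idb_mem (ha (l := 0) h h') (by linarith)
  have q2 : ∀ {l s : ℝ}, 0 < s → s < 1 → ((l, (⟨0, s⟩ : ℂ)) : ℝ × ℂ) ∈ kH (⟨1, 1⟩ : ℂ) :=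
    fun h h' => idb_mem (ha' (l := 0) h h') (by linarith)
  have q3 : ∀ {l s : ℝ}, 0 < s → s < 1 → ((l, (⟨0, s⟩ : ℂ)) : ℝ × ℂ) ∈ kH (⟨-1, 1⟩ : ℂ) :=
    fun h h' => idb_mem (ha' (l := 0) h h') (by linarith)
  have q4 : ∀ {l s : ℝ}, 0 < s → s < 1 → ((l, (⟨-s, 0⟩ : ℂ)) : ℝ × ℂ) ∈ kH (⟨-1, 1⟩ : ℂ) :=
    fun h h' => idb_mem (hb (l := 0) h h') (by linarith)
  have q5 : ∀ {l s : ℝ}, 0 < s → s < 1 → ((l, (⟨-s, 0⟩ : ℂ)) : ℝ × ℂ) ∈ kH (⟨-1, -1⟩ : ℂ) :=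
    fun h h' => idb_mem (hb (l := 0) h h') (by linarith)
  have q6 : ∀ {l s : ℝ}, 0 < s → s < 1 → ((l, (⟨0, -s⟩ : ℂ)) : ℝ × ℂ) ∈ kH (⟨-1, -1⟩ : ℂ) :=
    fun h h' => idb_mem (hb' (l := 0) h h') (by linarith)
  have q7 : ∀ {l s : ℝ}, 0 < s → s < 1 → ((l, (⟨0, -s⟩ : ℂ)) : ℝ × ℂ) ∈ kH (⟨1, -1⟩ : ℂ) :=
    fun h h' => idb_mem (hb' (l := 0) h h') (by linarith)
  have q8 : ∀ {l s : ℝ}, 0 < s → s < 1 → ((l, (⟨s, 0⟩ : ℂ)) : ℝ × ℂ) ∈ kH (⟨1, -1⟩ : ℂ) :=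
    fun h h' => idb_mem (ha (l := 0) h h') (by linarith)
  -- `v(a', b') = v(a', a) v(a, b) v(b, b')`
  have key : ∀ {n : ℂ} {a b a' b' : ℝ × ℂ}, a ∈ kH n → b ∈ kH n → a' ∈ kH n → b' ∈ kH n →
      G.val (seg κ a' b') = (G.val (seg κ a a'))⁻¹ * G.val (seg κ a b) * G.val (seg κ b b') := by
    intro n a b a' b' h1 h2 h3 h4
    rw [← K_symm hκ G n h1 h3, K_tri hκ G n h3 h1 h2, K_tri hκ G n h3 h2 h4]
  rw [key (q1 (l := p) h0 h1) (q2 (l := p) h0 h1) (q1 (l := p') h0' h1') (q2 (l := p') h0' h1'),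
    key (q3 (l := p) h0 h1) (q4 (l := p) h0 h1) (q3 (l := p') h0' h1') (q4 (l := p') h0' h1'),
    key (q5 (l := p) h0 h1) (q6 (l := p) h0 h1) (q5 (l := p') h0' h1') (q6 (l := p') h0' h1'),
    key (q7 (l := p) h0 h1) (q8 (l := p) h0 h1) (q7 (l := p') h0' h1') (q8 (l := p') h0' h1')]
  group

/-- the rectangle -/
theorem idb_rect {κ : ℝ × ℂ → N} (hκ : Thick κ) (G : GHom (core κ)ᶜ Γ) (l : ℝ) {a b : ℝ} (h0 : 0 < a) (h1 : 0 < b)
    (h : a + b < 1) :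
    G.val (seg κ (l, (⟨a, 0⟩ : ℂ)) (l, (⟨a, b⟩ : ℂ))) * G.val (seg κ (l, (⟨a, b⟩ : ℂ)) (l, (⟨-a, b⟩ : ℂ))) *
      G.val (seg κ (l, (⟨-a, b⟩ : ℂ)) (l, (⟨-a, -b⟩ : ℂ))) * G.val (seg κ (l, (⟨-a, -b⟩ : ℂ)) (l, (⟨a, -b⟩ : ℂ))) *
      G.val (seg κ (l, (⟨a, -b⟩ : ℂ)) (l, (⟨a, 0⟩ : ℂ))) = G.val (mer κ l a) := by
  have ha : |a| = a := abs_of_pos h0
  have hb : |b| = b := abs_of_pos h1
  have m : ∀ {n₁ n₂ : ℝ} {x y : ℝ}, |x| ≤ a → |y| ≤ b ∨ (|x| ≤ 0 ∧ |y| ≤ a) → 0 < n₁ * x + n₂ * y →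
      ((l, (⟨x, y⟩ : ℂ)) : ℝ × ℂ) ∈ kH (⟨n₁, n₂⟩ : ℂ) := by
    intro n₁ n₂ x y hx hy hn
    refine idb_mem ?_ hn
    rcases hy with hy | ⟨hx', hy⟩ <;> linarith
  have ca : |-a| = a := by rw [abs_neg, ha]
  have cb : |-b| = b := by rw [abs_neg, hb]
  have f1 : G.val (seg κ (l, (⟨a, b⟩ : ℂ)) (l, (⟨-a, b⟩ : ℂ))) =
      G.val (seg κ (l, (⟨a, b⟩ : ℂ)) (l, (⟨0, a⟩ : ℂ))) * G.val (seg κ (l, (⟨0, a⟩ : ℂ)) (l, (⟨-a, b⟩ : ℂ))) :=
    (K_tri hκ G ⟨0, 1⟩ (m ha.le (Or.inl hb.le) (by linarith)) (m (by simp [h0.le]) (Or.inr ⟨by simp, ha.le⟩) (by linarith))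
      (m ca.le (Or.inl hb.le) (by linarith))).symm
  have f2 : G.val (seg κ (l, (⟨-a, b⟩ : ℂ)) (l, (⟨-a, -b⟩ : ℂ))) =
      G.val (seg κ (l, (⟨-a, b⟩ : ℂ)) (l, (⟨-a, 0⟩ : ℂ))) * G.val (seg κ (l, (⟨-a, 0⟩ : ℂ)) (l, (⟨-a, -b⟩ : ℂ))) :=
    (K_tri hκ G ⟨-1, 0⟩ (m ca.le (Or.inl hb.le) (by linarith)) (m ca.le (Or.inl (by simp [h1.le])) (by linarith))
      (m ca.le (Or.inl cb.le) (by linarith))).symm
  have f3 : G.val (seg κ (l, (⟨-a, -b⟩ : ℂ)) (l, (⟨a, -b⟩ : ℂ))) =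
      G.val (seg κ (l, (⟨-a, -b⟩ : ℂ)) (l, (⟨0, -a⟩ : ℂ))) * G.val (seg κ (l, (⟨0, -a⟩ : ℂ)) (l, (⟨a, -b⟩ : ℂ))) :=
    (K_tri hκ G ⟨0, -1⟩ (m ca.le (Or.inl cb.le) (by linarith)) (m (by simp [h0.le]) (Or.inr ⟨by simp, ca.le⟩) (by linarith))
      (m ha.le (Or.inl cb.le) (by linarith))).symm
  have g1 : G.val (seg κ (l, (⟨a, 0⟩ : ℂ)) (l, (⟨a, b⟩ : ℂ))) * G.val (seg κ (l, (⟨a, b⟩ : ℂ)) (l, (⟨0, a⟩ : ℂ))) =
      G.val (seg κ (l, (⟨a, 0⟩ : ℂ)) (l, (⟨0, a⟩ : ℂ))) :=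
    K_tri hκ G ⟨1, 1⟩ (m ha.le (Or.inl (by simp [h1.le])) (by linarith)) (m ha.le (Or.inl hb.le) (by linarith))
      (m (by simp [h0.le]) (Or.inr ⟨by simp, ha.le⟩) (by linarith))
  have g2 : G.val (seg κ (l, (⟨0, a⟩ : ℂ)) (l, (⟨-a, b⟩ : ℂ))) * G.val (seg κ (l, (⟨-a, b⟩ : ℂ)) (l, (⟨-a, 0⟩ : ℂ))) =
      G.val (seg κ (l, (⟨0, a⟩ : ℂ)) (l, (⟨-a, 0⟩ : ℂ))) :=
    K_tri hκ G ⟨-1, 1⟩ (m (by simp [h0.le]) (Or.inr ⟨by simp, ha.le⟩) (by linarith)) (m ca.le (Or.inl hb.le) (by linarith))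
      (m ca.le (Or.inl (by simp [h1.le])) (by linarith))
  have g3 : G.val (seg κ (l, (⟨-a, 0⟩ : ℂ)) (l, (⟨-a, -b⟩ : ℂ))) * G.val (seg κ (l, (⟨-a, -b⟩ : ℂ)) (l, (⟨0, -a⟩ : ℂ))) =
      G.val (seg κ (l, (⟨-a, 0⟩ : ℂ)) (l, (⟨0, -a⟩ : ℂ))) :=
    K_tri hκ G ⟨-1, -1⟩ (m ca.le (Or.inl (by simp [h1.le])) (by linarith)) (m ca.le (Or.inl cb.le) (by linarith))
      (m (by simp [h0.le]) (Or.inr ⟨by simp, ca.le⟩) (by linarith))
  have g4 : G.val (seg κ (l, (⟨0, -a⟩ : ℂ)) (l, (⟨a, -b⟩ : ℂ))) * G.val (seg κ (l, (⟨a, -b⟩ : ℂ)) (l, (⟨a, 0⟩ : ℂ))) =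
      G.val (seg κ (l, (⟨0, -a⟩ : ℂ)) (l, (⟨a, 0⟩ : ℂ))) :=
    K_tri hκ G ⟨1, -1⟩ (m (by simp [h0.le]) (Or.inr ⟨by simp, ca.le⟩) (by linarith)) (m ha.le (Or.inl cb.le) (by linarith))
      (m ha.le (Or.inl (by simp [h1.le])) (by linarith))
  rw [idb_four hκ G l h0 (by linarith), f1, f2, f3, ← g1, ← g2, ← g3, ← g4]
  simp only [mul_assoc]

theorem idb_B {x y z : ℝ} (h : x ^ 2 + y ^ 2 < 1) (h1 : -(1 / 4) < z) (h2 : z < 5 / 4) (i j : Fin 4)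
    (hi : P3 x y z ∈ gA i) (hj : P3 x y z ∈ gB j) : P3 x y z ∈ TD ∩ gA i ∩ gB j :=
  ⟨⟨P3_mem h h1 h2, hi⟩, hj⟩

/-- decomposition of the loop around both strands -/
theorem idb_BL {K : Set N} {B W : E → N} (S : SP K B W) (G : GHom Kᶜ Γ) :
    BL G B (-(1 / 256)) = G.val (seg B (P3 (-(1 / 256)) 0 (-(1 / 8))) (P3 (-(1 / 256)) (-(1 / 768)) (-(1 / 8)))) *
      G.val (seg B (P3 (-(1 / 256)) (-(1 / 768)) (-(1 / 8))) (P3 (-(1 / 256)) (-(1 / 768)) (1 / 8))) *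
      G.val (seg B (P3 (-(1 / 256)) (-(1 / 768)) (1 / 8)) (P3 (-(1 / 256)) (1 / 768) (1 / 8))) *
      G.val (seg B (P3 (-(1 / 256)) (1 / 768) (1 / 8)) (P3 (-(1 / 256)) (1 / 768) (-(1 / 8)))) *
      G.val (seg B (P3 (-(1 / 256)) (1 / 768) (-(1 / 8))) (P3 (-(1 / 256)) 0 (-(1 / 8)))) *
      HU G B (-(1 / 256)) *
      (G.val (seg B (P3 (-(1 / 256)) 0 (9 / 8)) (P3 (-(1 / 256)) (-(1 / 768)) (9 / 8))) *
      G.val (seg B (P3 (-(1 / 256)) (-(1 / 768)) (9 / 8)) (P3 (-(1 / 256)) (-(1 / 768)) (7 / 8))) *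
      G.val (seg B (P3 (-(1 / 256)) (-(1 / 768)) (7 / 8)) (P3 (-(1 / 256)) (1 / 768) (7 / 8))) *
      G.val (seg B (P3 (-(1 / 256)) (1 / 768) (7 / 8)) (P3 (-(1 / 256)) (1 / 768) (9 / 8))) *
      G.val (seg B (P3 (-(1 / 256)) (1 / 768) (9 / 8)) (P3 (-(1 / 256)) 0 (9 / 8))))⁻¹ *
      (HU G B (-(1 / 256)))⁻¹ := by
  rw [BL, HU]
  set s0 := P3 (-(1 / 256)) 0 (-(1 / 8)) with hs0
  set s1 := P3 (-(1 / 256)) (-(1 / 768)) (-(1 / 8)) with hs1
  set s2 := P3 (-(1 / 256)) (-(1 / 768)) (9 / 8) with hs2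
  set s3 := P3 (-(1 / 256)) (1 / 768) (9 / 8) with hs3
  set s4 := P3 (-(1 / 256)) (1 / 768) (-(1 / 8)) with hs4
  set s5 := P3 (-(1 / 256)) 0 (9 / 8) with hs5
  set s6 := P3 (-(1 / 256)) (-(1 / 768)) (1 / 8) with hs6
  set s7 := P3 (-(1 / 256)) (1 / 768) (1 / 8) with hs7
  set s6' := P3 (-(1 / 256)) (-(1 / 768)) (7 / 8) with hs6'
  set s7' := P3 (-(1 / 256)) (1 / 768) (7 / 8) with hs7'
  -- im < 0
  have n1 : s1 ∈ TD ∩ gA 1 ∩ gB 1 := by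
    apply idb_B <;> first | (norm_num; done) | (simp [gA, gB, P3]; done) | (simp [gA, gB, P3]; norm_num; done)
  have n2 : s2 ∈ TD ∩ gA 1 ∩ gB 1 := by
    apply idb_B <;> first | (norm_num; done) | (simp [gA, gB, P3]; done) | (simp [gA, gB, P3]; norm_num; done)
  have n6 : s6 ∈ TD ∩ gA 1 ∩ gB 1 := by
    apply idb_B <;> first | (norm_num; done) | (simp [gA, gB, P3]; done) | (simp [gA, gB, P3]; norm_num; done)
  have n6' : s6' ∈ TD ∩ gA 1 ∩ gB 1 := by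
    apply idb_B <;> first | (norm_num; done) | (simp [gA, gB, P3]; done) | (simp [gA, gB, P3]; norm_num; done)
  -- im > 0
  have p3 : s3 ∈ TD ∩ gA 0 ∩ gB 0 := by
    apply idb_B <;> first | (norm_num; done) | (simp [gA, gB, P3]; done) | (simp [gA, gB, P3]; norm_num; done)
  have p4 : s4 ∈ TD ∩ gA 0 ∩ gB 0 := by
    apply idb_B <;> first | (norm_num; done) | (simp [gA, gB, P3]; done) | (simp [gA, gB, P3]; norm_num; done)
  have p7 : s7 ∈ TD ∩ gA 0 ∩ gB 0 := by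
    apply idb_B <;> first | (norm_num; done) | (simp [gA, gB, P3]; done) | (simp [gA, gB, P3]; norm_num; done)
  have p7' : s7' ∈ TD ∩ gA 0 ∩ gB 0 := by
    apply idb_B <;> first | (norm_num; done) | (simp [gA, gB, P3]; done) | (simp [gA, gB, P3]; norm_num; done)
  -- 0 < x < 1
  have m6 : s6 ∈ TD ∩ gA 2 ∩ gB 3 := by
    apply idb_B <;> first | (norm_num; done) | (simp [gA, gB, P3]; done) | (simp [gA, gB, P3]; norm_num; done)
  have m7 : s7 ∈ TD ∩ gA 2 ∩ gB 3 := by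
    apply idb_B <;> first | (norm_num; done) | (simp [gA, gB, P3]; done) | (simp [gA, gB, P3]; norm_num; done)
  have m6' : s6' ∈ TD ∩ gA 2 ∩ gB 3 := by
    apply idb_B <;> first | (norm_num; done) | (simp [gA, gB, P3]; done) | (simp [gA, gB, P3]; norm_num; done)
  have m7' : s7' ∈ TD ∩ gA 2 ∩ gB 3 := by
    apply idb_B <;> first | (norm_num; done) | (simp [gA, gB, P3]; done) | (simp [gA, gB, P3]; norm_num; done)
  -- 1 < x
  have u2 : s2 ∈ TD ∩ gA 2 ∩ gB 2 := by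
    apply idb_B <;> first | (norm_num; done) | (simp [gA, gB, P3]; done) | (simp [gA, gB, P3]; norm_num; done)
  have u3 : s3 ∈ TD ∩ gA 2 ∩ gB 2 := by
    apply idb_B <;> first | (norm_num; done) | (simp [gA, gB, P3]; done) | (simp [gA, gB, P3]; norm_num; done)
  have u5 : s5 ∈ TD ∩ gA 2 ∩ gB 2 := by
    apply idb_B <;> first | (norm_num; done) | (simp [gA, gB, P3]; done) | (simp [gA, gB, P3]; norm_num; done)
  -- x < 0
  have d0 : s0 ∈ TD ∩ gA 3 ∩ gB 3 := by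
    apply idb_B <;> first | (norm_num; done) | (simp [gA, gB, P3]; done) | (simp [gA, gB, P3]; norm_num; done)
  have d4 : s4 ∈ TD ∩ gA 3 ∩ gB 3 := by
    apply idb_B <;> first | (norm_num; done) | (simp [gA, gB, P3]; done) | (simp [gA, gB, P3]; norm_num; done)
  have e1 : G.val (seg B s1 s2) = G.val (seg B s1 s6) * G.val (seg B s6 s6') * G.val (seg B s6' s2) := by
    rw [B_tri S G 1 1 n1 n6 n6', B_tri S G 1 1 n1 n6' n2]
  have e2 : G.val (seg B s6 s6') = G.val (seg B s6 s7) * G.val (seg B s7 s7') * G.val (seg B s7' s6') := by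
    rw [B_tri S G 2 3 m6 m7 m7', B_tri S G 2 3 m6 m7' m6']
  have e3 : G.val (seg B s7 s7') = G.val (seg B s7 s4) * G.val (seg B s4 s3) * G.val (seg B s3 s7') := by
    rw [B_tri S G 0 0 p7 p4 p3, B_tri S G 0 0 p7 p3 p7']
  have e4 : G.val (seg B s2 s3) = G.val (seg B s2 s5) * G.val (seg B s5 s3) := (B_tri S G 2 2 u2 u5 u3).symm
  have i1 : G.val (seg B s4 s0) = (G.val (seg B s0 s4))⁻¹ := B_symm S G 3 3 d0 d4
  have i2 : G.val (seg B s3 s4) = (G.val (seg B s4 s3))⁻¹ := B_symm S G 0 0 p4 p3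
  have i3 : G.val (seg B s5 s3) = (G.val (seg B s3 s5))⁻¹ := B_symm S G 2 2 u3 u5
  have i4 : G.val (seg B s7' s3) = (G.val (seg B s3 s7'))⁻¹ := B_symm S G 0 0 p3 p7'
  have i5 : G.val (seg B s7' s6') = (G.val (seg B s6' s7'))⁻¹ := B_symm S G 2 3 m6' m7'
  have i6 : G.val (seg B s6' s2) = (G.val (seg B s2 s6'))⁻¹ := B_symm S G 1 1 n2 n6'
  have i7 : G.val (seg B s2 s5) = (G.val (seg B s5 s2))⁻¹ := B_symm S G 2 2 u5 u2
  rw [e1, e2, e3, e4, i1, i2, i3, i4, i5, i6, i7]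
  group

theorem IdB {κ : ℝ × ℂ → N} (hκ : Thick κ) {B W : E → N} (S : SP (core κ) B W) (G : GHom (core κ)ᶜ Γ) {P P₂ D H H' : ℝ}
    (L : Lnk κ B P P₂ D H H' (-1)) (p : ℝ) :
    bet G κ B p P D H = G.val (mer κ p (1 / 2)) * lba G κ B p P P₂ D H (-1) * (G.val (mer κ p (1 / 2)))⁻¹ *
      (lba G κ B p P P₂ D H (-1))⁻¹ := by
  have hH := L.Hpos
  have hH1 := L.Hlt
  have hH' := L.Hpos'
  have hH1' := L.Hlt'
  have h0 : 0 < H / 8 := by linarith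
  have h1 : 0 < H' / 768 := by linarith
  -- foot
  have keyf : ∀ (x y z x' y' z' : ℝ) {b b' : ℂ}, P3 x y z ∈ TD → P3 x' y' z' ∈ TD → z < 1 / 4 → z' < 1 / 4 →
      PathOn (core κ)ᶜ (seg B (P3 x y z) (P3 x' y' z')) → (⟨-(H * z), -(H' * y)⟩ : ℂ) = b →
      (⟨-(H * z'), -(H' * y')⟩ : ℂ) = b' →
      G.val (seg B (P3 x y z) (P3 x' y' z')) = G.val (seg κ (P + D * x, b) (P + D * x', b')) := by
    intro x y z x' y' z' b b' ha hb hz hz' hp e e'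
    rw [← B_foot L G ha hb hz hz' hp, ← e, ← e']
    congr 2
  -- tip
  have keyt : ∀ (x y z x' y' z' : ℝ) {b b' : ℂ}, P3 x y z ∈ TD → P3 x' y' z' ∈ TD → 3 / 4 < z → 3 / 4 < z' →
      PathOn (core κ)ᶜ (seg B (P3 x y z) (P3 x' y' z')) → (⟨-(H * (1 - z)), -(H' * y)⟩ : ℂ) = b →
      (⟨-(H * (1 - z')), -(H' * y')⟩ : ℂ) = b' →
      G.val (seg B (P3 x y z) (P3 x' y' z')) = G.val (seg κ (P₂ - D * x, b) (P₂ - D * x', b')) := by
    intro x y z x' y' z' b b' ha hb hz hz' hp e e'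
    rw [← B_tip L G ha hb hz hz' hp, ← e, ← e']
    simp only [P3]
    congr 2
    · refine Prod.ext ?_ ?_
      · simp; ring
      · apply Complex.ext <;> simp
    · refine Prod.ext ?_ ?_
      · simp; ring
      · apply Complex.ext <;> simp
  have c1 : (⟨-(H * (-(1 / 8))), -(H' * 0)⟩ : ℂ) = ⟨H / 8, 0⟩ := by
    apply Complex.ext
    · show -(H * (-(1 / 8))) = H / 8
      ring
    · show -(H' * 0) = 0
      ring
  have c2 : (⟨-(H * (-(1 / 8))), -(H' * (-(1 / 768)))⟩ : ℂ) = ⟨H / 8, H' / 768⟩ := by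
    apply Complex.ext
    · show -(H * (-(1 / 8))) = H / 8
      ring
    · show -(H' * (-(1 / 768))) = H' / 768
      ring
  have c3 : (⟨-(H * (1 / 8)), -(H' * (-(1 / 768)))⟩ : ℂ) = ⟨-(H / 8), H' / 768⟩ := by
    apply Complex.ext
    · show -(H * (1 / 8)) = -(H / 8)
      ring
    · show -(H' * (-(1 / 768))) = H' / 768
      ring
  have c4 : (⟨-(H * (1 / 8)), -(H' * (1 / 768))⟩ : ℂ) = ⟨-(H / 8), -(H' / 768)⟩ := by
    apply Complex.ext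
    · show -(H * (1 / 8)) = -(H / 8)
      ring
    · show -(H' * (1 / 768)) = -(H' / 768)
      ring
  have c5 : (⟨-(H * (-(1 / 8))), -(H' * (1 / 768))⟩ : ℂ) = ⟨H / 8, -(H' / 768)⟩ := by
    apply Complex.ext
    · show -(H * (-(1 / 8))) = H / 8
      ring
    · show -(H' * (1 / 768)) = -(H' / 768)
      ring
  have k1 : (⟨-(H * (1 - 9 / 8)), -(H' * 0)⟩ : ℂ) = ⟨H / 8, 0⟩ := by
    rw [← c1]; norm_num
  have k2 : (⟨-(H * (1 - 9 / 8)), -(H' * (-(1 / 768)))⟩ : ℂ) = ⟨H / 8, H' / 768⟩ := by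
    rw [← c2]; norm_num
  have k3 : (⟨-(H * (1 - 7 / 8)), -(H' * (-(1 / 768)))⟩ : ℂ) = ⟨-(H / 8), H' / 768⟩ := by
    rw [← c3]; norm_num
  have k4 : (⟨-(H * (1 - 7 / 8)), -(H' * (1 / 768))⟩ : ℂ) = ⟨-(H / 8), -(H' / 768)⟩ := by
    rw [← c4]; norm_num
  have k5 : (⟨-(H * (1 - 9 / 8)), -(H' * (1 / 768))⟩ : ℂ) = ⟨H / 8, -(H' / 768)⟩ := by
    rw [← c5]; norm_num
  have f1 := keyf (-(1 / 256)) 0 (-(1 / 8)) (-(1 / 256)) (-(1 / 768)) (-(1 / 8))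
    (P3_mem (by norm_num) (by norm_num) (by norm_num)) (P3_mem (by norm_num) (by norm_num) (by norm_num))
    (by norm_num) (by norm_num)
    (by apply B_path S 3 3 <;> apply idb_B <;> first | (norm_num; done) | (simp [gA, gB, P3]; done) | (simp [gA, gB, P3]; norm_num; done))
    c1 c2
  have f2 := keyf (-(1 / 256)) (-(1 / 768)) (-(1 / 8)) (-(1 / 256)) (-(1 / 768)) (1 / 8)
    (P3_mem (by norm_num) (by norm_num) (by norm_num)) (P3_mem (by norm_num) (by norm_num) (by norm_num))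
    (by norm_num) (by norm_num)
    (by apply B_path S 1 1 <;> apply idb_B <;> first | (norm_num; done) | (simp [gA, gB, P3]; done) | (simp [gA, gB, P3]; norm_num; done))
    c2 c3
  have f3 := keyf (-(1 / 256)) (-(1 / 768)) (1 / 8) (-(1 / 256)) (1 / 768) (1 / 8)
    (P3_mem (by norm_num) (by norm_num) (by norm_num)) (P3_mem (by norm_num) (by norm_num) (by norm_num))
    (by norm_num) (by norm_num)
    (by apply B_path S 2 3 <;> apply idb_B <;> first | (norm_num; done) | (simp [gA, gB, P3]; done) | (simp [gA, gB, P3]; norm_num; done))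
    c3 c4
  have f4 := keyf (-(1 / 256)) (1 / 768) (1 / 8) (-(1 / 256)) (1 / 768) (-(1 / 8))
    (P3_mem (by norm_num) (by norm_num) (by norm_num)) (P3_mem (by norm_num) (by norm_num) (by norm_num))
    (by norm_num) (by norm_num)
    (by apply B_path S 0 0 <;> apply idb_B <;> first | (norm_num; done) | (simp [gA, gB, P3]; done) | (simp [gA, gB, P3]; norm_num; done))
    c4 c5
  have f5 := keyf (-(1 / 256)) (1 / 768) (-(1 / 8)) (-(1 / 256)) 0 (-(1 / 8))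
    (P3_mem (by norm_num) (by norm_num) (by norm_num)) (P3_mem (by norm_num) (by norm_num) (by norm_num))
    (by norm_num) (by norm_num)
    (by apply B_path S 3 3 <;> apply idb_B <;> first | (norm_num; done) | (simp [gA, gB, P3]; done) | (simp [gA, gB, P3]; norm_num; done))
    c5 c1
  have t1 := keyt (-(1 / 256)) 0 (9 / 8) (-(1 / 256)) (-(1 / 768)) (9 / 8)
    (P3_mem (by norm_num) (by norm_num) (by norm_num)) (P3_mem (by norm_num) (by norm_num) (by norm_num))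
    (by norm_num) (by norm_num)
    (by apply B_path S 2 2 <;> apply idb_B <;> first | (norm_num; done) | (simp [gA, gB, P3]; done) | (simp [gA, gB, P3]; norm_num; done))
    k1 k2
  have t2 := keyt (-(1 / 256)) (-(1 / 768)) (9 / 8) (-(1 / 256)) (-(1 / 768)) (7 / 8)
    (P3_mem (by norm_num) (by norm_num) (by norm_num)) (P3_mem (by norm_num) (by norm_num) (by norm_num))
    (by norm_num) (by norm_num)
    (by apply B_path S 1 1 <;> apply idb_B <;> first | (norm_num; done) | (simp [gA, gB, P3]; done) | (simp [gA, gB, P3]; norm_num; done))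
    k2 k3
  have t3 := keyt (-(1 / 256)) (-(1 / 768)) (7 / 8) (-(1 / 256)) (1 / 768) (7 / 8)
    (P3_mem (by norm_num) (by norm_num) (by norm_num)) (P3_mem (by norm_num) (by norm_num) (by norm_num))
    (by norm_num) (by norm_num)
    (by apply B_path S 2 3 <;> apply idb_B <;> first | (norm_num; done) | (simp [gA, gB, P3]; done) | (simp [gA, gB, P3]; norm_num; done))
    k3 k4
  have t4 := keyt (-(1 / 256)) (1 / 768) (7 / 8) (-(1 / 256)) (1 / 768) (9 / 8)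
    (P3_mem (by norm_num) (by norm_num) (by norm_num)) (P3_mem (by norm_num) (by norm_num) (by norm_num))
    (by norm_num) (by norm_num)
    (by apply B_path S 0 0 <;> apply idb_B <;> first | (norm_num; done) | (simp [gA, gB, P3]; done) | (simp [gA, gB, P3]; norm_num; done))
    k4 k5
  have t5 := keyt (-(1 / 256)) (1 / 768) (9 / 8) (-(1 / 256)) 0 (9 / 8)
    (P3_mem (by norm_num) (by norm_num) (by norm_num)) (P3_mem (by norm_num) (by norm_num) (by norm_num))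
    (by norm_num) (by norm_num)
    (by apply B_path S 2 2 <;> apply idb_B <;> first | (norm_num; done) | (simp [gA, gB, P3]; done) | (simp [gA, gB, P3]; norm_num; done))
    k5 k1
  have r1 := idb_rect hκ G (P + D * (-(1 / 256))) h0 h1 (by linarith)
  have r2 := idb_rect hκ G (P₂ - D * (-(1 / 256))) h0 h1 (by linarith)
  have m1 := mer_move hκ G p (P + D * (-(1 / 256))) (r := 1 / 2) (r' := H / 8) (by norm_num) (by norm_num) h0
    (by linarith)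
  have m2 := mer_move hκ G p (P₂ - D * (-(1 / 256))) (r := 1 / 2) (r' := H / 8) (by norm_num) (by norm_num) h0
    (by linarith)
  have eq1 : ((1 / 2 : ℝ) : ℂ) = 1 / 2 := by push_cast; rfl
  have eP : P + D * (-(1 / 256)) = P - D / 256 := by ring
  have eP2 : P₂ - D * (-(1 / 256)) = P₂ - -1 * D / 256 := by ring
  rw [eq1] at m1 m2
  have np : ((p, (1 / 2 : ℂ)) : ℝ × ℂ) ∈ kH 1 := by
    refine ⟨?_, ?_⟩
    · show ‖(1 / 2 : ℂ)‖ < 1
      norm_num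
    · show 0 < ((starRingEnd ℂ) 1 * (1 / 2 : ℂ)).re
      norm_num
  have nq : ((P₂ - -1 * D / 256, ((H / 8 : ℝ) : ℂ)) : ℝ × ℂ) ∈ kH 1 := by
    refine ⟨?_, ?_⟩
    · show ‖((H / 8 : ℝ) : ℂ)‖ < 1
      rw [Complex.norm_real, Real.norm_of_nonneg h0.le]
      linarith
    · show 0 < ((starRingEnd ℂ) 1 * ((H / 8 : ℝ) : ℂ)).re
      rw [map_one, one_mul, Complex.ofReal_re]
      exact h0
  have i1 : G.val (seg κ (P₂ - -1 * D / 256, ((H / 8 : ℝ) : ℂ)) (p, 1 / 2)) =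
      (G.val (seg κ (p, 1 / 2) (P₂ - -1 * D / 256, ((H / 8 : ℝ) : ℂ))))⁻¹ := K_symm hκ G 1 np nq
  rw [bet, lba, idb_BL S G, f1, f2, f3, f4, f5, t1, t2, t3, t4, t5, r1, r2, m1, m2, eP, eP2, i1, t0]
  group

end Pool.Agent.NHR
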