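import Mathlib
import Pool.Agent.RSG.ExM
import Pool.Agent.NHR.Defs
import Pool.Agent.NHR.Pth
import Pool.Agent.NHR.Geo
import Pool.Agent.NHR.Sgm
import Pool.Agent.NHR.MdY
import Pool.Agent.NHR.IdB
import Pool.Agent.NHR.FinB

/-!
# NHR/Mem: the meridian does not change the knot (difficulty 2)

`FinV c T'` gives (`ext.Mrd`) a chord `T''` with `kn K T' ~ kn K T''` of class `m c`: `clV T'' = G (seg (p,1/2) (p,r')) · G (mer κ p r') · G (radc ..) · ..`, `mer_move`.  Then `finV_uniq`.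
-/

open scoped Manifold ContDiff Topology
open Set Filter
open Pool.Agent.CSG (stp)
open Pool.Agent.RSG (E3 ex Thick)
open Pool.Agent.KNT (Dom Str Str2 bmp)
open Pool.Agent.NHP

namespace Pool.Agent.NHR

universe u v

variable {N : Type u} [TopologicalSpace N] [ChartedSpace E3 N] {Γ : Type v} [Group Γ]

omit [ChartedSpace E3 N] in
theorem mem_mer_zero (κ : ℝ × ℂ → N) (p r : ℝ) : mer κ p r 0 = κ (p, (r : ℂ)) := by
  unfold mer
  rw [RSG.ex_zero, mul_one]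

omit [ChartedSpace E3 N] in
theorem mem_mer_one (κ : ℝ × ℂ → N) (p r : ℝ) : mer κ p r 1 = κ (p, (r : ℂ)) := by
  unfold mer
  have h : ex (1 : ℝ) = 1 := by
    have := RSG.ex_int 1
    simpa using this
  rw [h, mul_one]

theorem mem_mer_path {κ : ℝ × ℂ → N} (hκ : Thick κ) (p : ℝ) {r : ℝ} (h0 : 0 < r) (h1 : r < 1) :
    PathOn (core κ)ᶜ (mer κ p r) := by
  have hn : ∀ t : ℝ, ‖(r : ℂ) * ex t‖ < 1 := by
    intro t
    rw [norm_mul, RSG.ex_norm, mul_one, Complex.norm_real, Real.norm_eq_abs, abs_of_pos h0]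
    exact h1
  refine ⟨?_, fun t _ => ?_⟩
  · refine (thick_cont hκ).comp (f := fun t : ℝ => (p, (r : ℂ) * ex t)) ?_ (fun t _ => hn t)
    have h2 : Continuous fun t : ℝ => (p, (r : ℂ) * ex t) :=
      continuous_const.prodMk (continuous_const.mul RSG.ex_smooth.continuous)
    exact h2.continuousOn
  · exact thick_off hκ (hn t) (mul_ne_zero (by exact_mod_cast h0.ne') (RSG.ex_ne t))

theorem mem_kH {r : ℝ} (p : ℝ) (h0 : 0 < r) (h1 : r < 1) : ((p, (r : ℂ)) : ℝ × ℂ) ∈ kH 1 := by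
  refine ⟨?_, ?_⟩
  · change ‖(r : ℂ)‖ < 1
    rw [Complex.norm_real, Real.norm_eq_abs, abs_of_pos h0]
    exact h1
  · change 0 < ((starRingEnd ℂ) 1 * (r : ℂ)).re
    rw [map_one, one_mul, Complex.ofReal_re]
    exact h0

/-- value of the radial path -/
theorem mem_radc {κ : ℝ × ℂ → N} (hκ : Thick κ) (G : GHom (core κ)ᶜ Γ) {p p' η ε η' ε' : ℝ} {T : E → N}
    (h : FinE κ p p' η ε T) {r r' : ℝ} (hr : r = η * ε / 8) (hr' : r' = η' * ε' / 8) (h0 : 0 < r) (h1 : r < 1)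
    (h0' : 0 < r') (h1' : r' < 1) :
    G.val (seg κ (p, ((1 / 2 : ℝ) : ℂ)) (p, (r' : ℂ))) * G.val (radc κ p p' η ε η' ε' T) *
      G.val (seg κ (p', (r' : ℂ)) (p', ((1 / 2 : ℝ) : ℂ))) =
      G.val (seg κ (p, ((1 / 2 : ℝ) : ℂ)) (p, (r : ℂ))) * G.val (cor T) *
      G.val (seg κ (p', (r : ℂ)) (p', ((1 / 2 : ℝ) : ℂ))) := by
  have hh0 : (0 : ℝ) < 1 / 2 := by norm_num
  have hh1 : (1 / 2 : ℝ) < 1 := by norm_num
  have hc := cor_path h
  obtain ⟨e0, e1⟩ := cor_ends h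
  rw [← hr] at e0 e1
  have s1 : PathOn (core κ)ᶜ (seg κ (p, (r' : ℂ)) (p, (r : ℂ))) := K_path hκ 1 (mem_kH p h0' h1') (mem_kH p h0 h1)
  have s2 : PathOn (core κ)ᶜ (seg κ (p', (r : ℂ)) (p', (r' : ℂ))) := K_path hκ 1 (mem_kH p' h0 h1) (mem_kH p' h0' h1')
  have e2 : seg κ (p, (r' : ℂ)) (p, (r : ℂ)) 1 = cor T 0 := by rw [seg_one, e0]
  have e3 : cat (seg κ (p, (r' : ℂ)) (p, (r : ℂ))) (cor T) 1 = seg κ (p', (r : ℂ)) (p', (r' : ℂ)) 0 := by
    rw [cat_one, seg_zero, e1]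
  have e4 : G.val (radc κ p p' η ε η' ε' T) = G.val (seg κ (p, (r' : ℂ)) (p, (r : ℂ))) * G.val (cor T) *
      G.val (seg κ (p', (r : ℂ)) (p', (r' : ℂ))) := by
    unfold radc
    rw [← hr, ← hr', G.ct _ _ (s1.cat hc e2) s2 e3, G.ct _ _ s1 hc e2]
  have t1 := K_tri hκ G 1 (mem_kH p hh0 hh1) (mem_kH p h0' h1') (mem_kH p h0 h1)
  have t2 := K_tri hκ G 1 (mem_kH p' h0 h1) (mem_kH p' h0' h1') (mem_kH p' hh0 hh1)
  rw [e4, ← t1, ← t2]
  group

theorem mer_mem (ext : Ext N) {κ : ℝ × ℂ → N} (hκ : Thick κ) (G : GHom (core κ)ᶜ Γ) (hG : Full G) {p p' : ℝ}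
    (hp : p < p') (hp' : p' < p + 1) : G.val (mer κ p (1 / 2)) ∈ Lset G κ p p' := by
  intro c T T' hT hT'
  obtain ⟨η, ε, hF, hc⟩ := hT'
  obtain ⟨η', ε', T'', hF'', hle, hh⟩ := ext.Mrd κ hκ p p' η ε T' hF
  have hr0 : 0 < η * ε / 8 := by have := mul_pos hF.pos hF.adm.pos; linarith
  have hr1 : η * ε / 8 < 1 := by
    have h1 : η * ε ≤ 1 * (1 / 4) := mul_le_mul hF.le hF.adm.lt.le hF.adm.pos.le zero_le_one
    linarith
  have hr0' : 0 < η' * ε' / 8 := by have := mul_pos hF''.pos hF''.adm.pos; linarith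
  have hr1' : η' * ε' / 8 < 1 := by
    have h1 : η' * ε' ≤ 1 * (1 / 4) := mul_le_mul hF''.le hF''.adm.lt.le hF''.adm.pos.le zero_le_one
    linarith
  have hhalf : (1 / 2 : ℂ) = ((1 / 2 : ℝ) : ℂ) := by norm_num
  have hm := mer_move hκ G p p (r := 1 / 2) (r' := η' * ε' / 8) (by norm_num) (by norm_num) hr0' hr1'
  have hrp := radc_path hκ hF (η' := η') (ε' := ε') hF''.pos hF''.le hF''.adm.pos hF''.adm.lt
  have hmp := mem_mer_path hκ p hr0' hr1'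
  have he : mer κ p (η' * ε' / 8) 1 = radc κ p p' η ε η' ε' T' 0 := by
    rw [mem_mer_one]
    unfold radc
    rw [cat_zero, cat_zero, seg_zero]
  have hcor : G.val (cor T'') = G.val (mer κ p (η' * ε' / 8)) * G.val (radc κ p p' η ε η' ε' T') := by
    rw [G.hmt _ _ hh, G.ct _ _ hmp hrp he]
  have hrad := mem_radc hκ G hF (η' := η') (ε' := ε') rfl rfl hr0 hr1 hr0' hr1'
  have hcl : clV G κ p p' η' ε' T'' = G.val (mer κ p (1 / 2)) * c := by
    rw [← hc]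
    unfold clV
    rw [hcor, hm, hhalf, ← hrad]
    group
  exact (finV_uniq ext hκ G hG hT ⟨η', ε', hF'', hcl⟩).trans hle.symm

end Pool.Agent.NHR
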