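import Mathlib
import Pool.Agent.NHR.Defs
import Pool.Agent.NHR.Geo
import Pool.Agent.CSG.LDa
import Pool.Agent.CSG.LDb

/-!
# NHR/Rbn: the ribbon family (difficulty 3)

`bl B W l`.  Near `|s| < 1/64` it is `W ∘ (explicit)`, for `|s| > 1/256` it is `B ∘ (explicit)` (`bmp (32 s) = 0`, `relA`; `|Im ζ / 64| < 1/16`,
`-9/64 < Xr < 73/64`); `Xr` is smooth and strictly decreasing, `Xr 1 = 0`, `Xr (-1) = 1`, `|Xr r - 1/2| < 4/7` for `|r| < 4`.
`inj1`, `sep`: a moved point is `W q`, `q ∈ QCW`; if it is `B r`, `r = b₀ (..)`, then (`sep` of `SP`) `ja q = r` (not moved in the chart `W`: injectivity of `W`)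
or `jb q = r`: `re r = 5/16 + im q / 64`, so `s = 2 re r ∈ (5/8 - 1/64, 5/8 + 1/64)`, and `-(32 re q) = r.2`.
-/

open scoped Manifold ContDiff Topology
open Set Filter
open Pool.Agent.CSG (stp)
open Pool.Agent.RSG (E3 ex Thick)
open Pool.Agent.KNT (Dom Str Str2 bmp)
open Pool.Agent.NHP

namespace Pool.Agent.NHR

universe u v

/-! ### the function `Xr` -/

theorem Rbn_Xr_smooth : ContDiff ℝ ∞ Xr := by
  have h1 : ContDiff ℝ ∞ fun r : ℝ => 1 + 3 * r ^ 2 := contDiff_const.add (contDiff_const.mul (contDiff_id.pow 2))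
  have h2 : ∀ r : ℝ, 1 + 3 * r ^ 2 ≠ 0 := fun r => by positivity
  have h3 : ∀ r : ℝ, Real.sqrt (1 + 3 * r ^ 2) ≠ 0 := fun r => by positivity
  exact contDiff_const.sub (contDiff_id.div (h1.sqrt h2) h3)

theorem Rbn_Xr_deriv (r : ℝ) : ∃ d : ℝ, d < 0 ∧ HasDerivAt Xr d r := by
  have hpos : (0 : ℝ) < 1 + 3 * r ^ 2 := by positivity
  have hs : 0 < Real.sqrt (1 + 3 * r ^ 2) := Real.sqrt_pos.2 hpos
  have h1 : HasDerivAt (fun r : ℝ => 1 + 3 * r ^ 2) (3 * (2 * r)) r := by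
    have := ((hasDerivAt_pow 2 r).const_mul 3).const_add 1
    simpa using this
  have h2 := h1.sqrt hpos.ne'
  have h3 := ((hasDerivAt_id r).div h2 hs.ne').const_sub (1 / 2)
  refine ⟨_, ?_, h3⟩
  have hsq : Real.sqrt (1 + 3 * r ^ 2) ^ 2 = 1 + 3 * r ^ 2 := Real.sq_sqrt hpos.le
  have : 0 < (1 * Real.sqrt (1 + 3 * r ^ 2) - id r * (3 * (2 * r) / (2 * Real.sqrt (1 + 3 * r ^ 2)))) /
      Real.sqrt (1 + 3 * r ^ 2) ^ 2 := by
    apply div_pos _ (by positivity)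
    have e : 1 * Real.sqrt (1 + 3 * r ^ 2) - id r * (3 * (2 * r) / (2 * Real.sqrt (1 + 3 * r ^ 2))) =
        (Real.sqrt (1 + 3 * r ^ 2) ^ 2 - 3 * r ^ 2) / Real.sqrt (1 + 3 * r ^ 2) := by
      simp only [id_eq]
      field_simp
    rw [e, hsq]
    apply div_pos _ hs
    linarith
  linarith

theorem Rbn_Xr_anti : StrictAnti Xr := by
  apply strictAnti_of_deriv_neg
  intro x
  obtain ⟨d, hd, hd'⟩ := Rbn_Xr_deriv x
  rw [hd'.deriv]
  exact hd

theorem Rbn_Xr_one : Xr 1 = 0 := by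
  unfold Xr
  have : Real.sqrt (1 + 3 * 1 ^ 2) = 2 := by
    rw [show (1 + 3 * 1 ^ 2 : ℝ) = 2 ^ 2 by norm_num]
    exact Real.sqrt_sq (by norm_num)
  rw [this]; norm_num

theorem Rbn_Xr_neg_one : Xr (-1) = 1 := by
  unfold Xr
  have : Real.sqrt (1 + 3 * (-1) ^ 2) = 2 := by
    rw [show (1 + 3 * (-1) ^ 2 : ℝ) = 2 ^ 2 by norm_num]
    exact Real.sqrt_sq (by norm_num)
  rw [this]; norm_num

theorem Rbn_Xr_bd {r : ℝ} (h : |r| < 4) : -(1 / 14) < Xr r ∧ Xr r < 15 / 14 := by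
  have h4 : Xr 4 = -(1 / 14) := by
    unfold Xr
    have : Real.sqrt (1 + 3 * 4 ^ 2) = 7 := by
      rw [show (1 + 3 * 4 ^ 2 : ℝ) = 7 ^ 2 by norm_num]
      exact Real.sqrt_sq (by norm_num)
    rw [this]; norm_num
  have h4' : Xr (-4) = 15 / 14 := by
    unfold Xr
    have : Real.sqrt (1 + 3 * (-4) ^ 2) = 7 := by
      rw [show (1 + 3 * (-4) ^ 2 : ℝ) = 7 ^ 2 by norm_num]
      exact Real.sqrt_sq (by norm_num)
    rw [this]; norm_num
  obtain ⟨h1, h2⟩ := abs_lt.1 h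
  rw [← h4, ← h4']
  exact ⟨Rbn_Xr_anti h2, Rbn_Xr_anti h1⟩

/-! ### the explicit maps -/

/-- the ribbon in the chart `B` -/
noncomputable def Rbn_eb (q : E) : E := (⟨q.2 / 2, q.1.im / 4096⟩, Xr q.1.re)

/-- the ribbon in the chart `W` -/
noncomputable def Rbn_ew (l : ℝ) (q : E) : E :=
  (⟨32 * q.2, -(Xr q.1.re / 32)⟩, q.1.im / 64 + l * (9 / 8 * bmp (32 * q.2)))

theorem Rbn_mk {F : Type*} [NormedAddCommGroup F] [NormedSpace ℝ F] {f g : F → ℝ} (hf : ContDiff ℝ ∞ f)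
    (hg : ContDiff ℝ ∞ g) : ContDiff ℝ ∞ fun x => (⟨f x, g x⟩ : ℂ) := by
  have : (fun x => (⟨f x, g x⟩ : ℂ)) = fun x => (f x : ℂ) + (g x : ℂ) * Complex.I := by
    funext x
    apply Complex.ext <;> simp
  rw [this]
  exact (Complex.ofRealCLM.contDiff.comp hf).add ((Complex.ofRealCLM.contDiff.comp hg).mul contDiff_const)

theorem Rbn_re {F : Type*} [NormedAddCommGroup F] [NormedSpace ℝ F] {f : F → E} (hf : ContDiff ℝ ∞ f) :
    ContDiff ℝ ∞ fun x => (f x).1.re := Complex.reCLM.contDiff.comp (contDiff_fst.comp hf)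

theorem Rbn_im {F : Type*} [NormedAddCommGroup F] [NormedSpace ℝ F] {f : F → E} (hf : ContDiff ℝ ∞ f) :
    ContDiff ℝ ∞ fun x => (f x).1.im := Complex.imCLM.contDiff.comp (contDiff_fst.comp hf)

theorem Rbn_eb_smooth : ContDiff ℝ ∞ Rbn_eb := by
  unfold Rbn_eb
  refine (Rbn_mk ?_ ?_).prodMk ?_
  · exact contDiff_snd.div_const 2
  · exact (Rbn_im contDiff_id).div_const 4096
  · exact Rbn_Xr_smooth.comp (Rbn_re contDiff_id)

theorem Rbn_ew_smooth : ContDiff ℝ ∞ fun p : ℝ × E => Rbn_ew p.1 p.2 := by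
  unfold Rbn_ew
  refine (Rbn_mk ?_ ?_).prodMk ?_
  · exact contDiff_const.mul (contDiff_snd.comp contDiff_snd)
  · exact ((Rbn_Xr_smooth.comp (Rbn_re contDiff_snd)).div_const 32).neg
  · refine ((Rbn_im contDiff_snd).div_const 64).add (contDiff_fst.mul (contDiff_const.mul ?_))
    exact bmp_smooth.comp (contDiff_const.mul (contDiff_snd.comp contDiff_snd))

theorem Rbn_ew_smooth' (l : ℝ) : ContDiff ℝ ∞ (Rbn_ew l) := by
  have := Rbn_ew_smooth.comp (contDiff_const.prodMk contDiff_id : ContDiff ℝ ∞ fun q : E => (l, q))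
  exact this

/-- derivative along a line -/
theorem Rbn_line {f : E → E} (hf : ContDiff ℝ ∞ f) (q v : E) :
    HasDerivAt (fun t : ℝ => f (q + t • v)) (fderiv ℝ f q v) 0 := by
  have h1 : HasFDerivAt f (fderiv ℝ f q) (q + (0 : ℝ) • v) := by
    rw [zero_smul, add_zero]
    exact (hf.differentiable (by simp) q).hasFDerivAt
  have h2 : HasDerivAt (fun t : ℝ => q + t • v) v 0 := by
    simpa using ((hasDerivAt_id (0 : ℝ)).smul_const v).const_add q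
  exact h1.comp_hasDerivAt (0 : ℝ) h2

theorem Rbn_eb_inj (q v : E) (h : fderiv ℝ Rbn_eb q v = 0) : v = 0 := by
  have h0 := Rbn_line Rbn_eb_smooth q v
  rw [h] at h0
  have h1 : HasDerivAt (fun t : ℝ => (Rbn_eb (q + t • v)).1) (0 : ℂ) 0 :=
    (ContinuousLinearMap.fst ℝ ℂ ℝ).hasFDerivAt.comp_hasDerivAt (0 : ℝ) h0
  have h2 : HasDerivAt (fun t : ℝ => (Rbn_eb (q + t • v)).2) (0 : ℝ) 0 :=
    (ContinuousLinearMap.snd ℝ ℂ ℝ).hasFDerivAt.comp_hasDerivAt (0 : ℝ) h0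
  have h3 : HasDerivAt (fun t : ℝ => (Rbn_eb (q + t • v)).1.re) (0 : ℝ) 0 :=
    Complex.reCLM.hasFDerivAt.comp_hasDerivAt (0 : ℝ) h1
  have h4 : HasDerivAt (fun t : ℝ => (Rbn_eb (q + t • v)).1.im) (0 : ℝ) 0 :=
    Complex.imCLM.hasFDerivAt.comp_hasDerivAt (0 : ℝ) h1
  have e1 : HasDerivAt (fun t : ℝ => (Rbn_eb (q + t • v)).1.re) (v.2 / 2) 0 := by
    have : HasDerivAt (fun t : ℝ => (q.2 + t * v.2) / 2) (1 * v.2 / 2) 0 :=
      (((hasDerivAt_id (0 : ℝ)).mul_const v.2).const_add q.2).div_const 2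
    simpa [Rbn_eb] using this
  have e2 : HasDerivAt (fun t : ℝ => (Rbn_eb (q + t • v)).1.im) (v.1.im / 4096) 0 := by
    have : HasDerivAt (fun t : ℝ => (q.1.im + t * v.1.im) / 4096) (1 * v.1.im / 4096) 0 :=
      (((hasDerivAt_id (0 : ℝ)).mul_const v.1.im).const_add q.1.im).div_const 4096
    simpa [Rbn_eb] using this
  obtain ⟨d, hd, hd'⟩ := Rbn_Xr_deriv q.1.re
  have e3 : HasDerivAt (fun t : ℝ => (Rbn_eb (q + t • v)).2) (d * v.1.re) 0 := by
    have h5 : HasDerivAt (fun t : ℝ => q.1.re + t * v.1.re) (1 * v.1.re) 0 :=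
      ((hasDerivAt_id (0 : ℝ)).mul_const v.1.re).const_add q.1.re
    have h6 : HasDerivAt Xr d (q.1.re + 0 * v.1.re) := by simpa using hd'
    have h7 := HasDerivAt.comp (0 : ℝ) h6 h5
    simpa [Rbn_eb, Function.comp_def] using h7
  have f1 := e1.unique h3
  have f2 := e2.unique h4
  have f3 := e3.unique h2
  have g1 : v.2 = 0 := by linarith
  have g2 : v.1.im = 0 := by linarith
  have g3 : v.1.re = 0 := by
    rcases mul_eq_zero.1 f3 with h | h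
    · exact absurd h hd.ne
    · exact h
  exact Prod.ext (Complex.ext g3 g2) g1

theorem Rbn_ew_inj (l : ℝ) (q v : E) (h : fderiv ℝ (Rbn_ew l) q v = 0) : v = 0 := by
  have h0 := Rbn_line (Rbn_ew_smooth' l) q v
  rw [h] at h0
  have h1 : HasDerivAt (fun t : ℝ => (Rbn_ew l (q + t • v)).1) (0 : ℂ) 0 :=
    (ContinuousLinearMap.fst ℝ ℂ ℝ).hasFDerivAt.comp_hasDerivAt (0 : ℝ) h0
  have h2 : HasDerivAt (fun t : ℝ => (Rbn_ew l (q + t • v)).2) (0 : ℝ) 0 :=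
    (ContinuousLinearMap.snd ℝ ℂ ℝ).hasFDerivAt.comp_hasDerivAt (0 : ℝ) h0
  have h3 : HasDerivAt (fun t : ℝ => (Rbn_ew l (q + t • v)).1.re) (0 : ℝ) 0 :=
    Complex.reCLM.hasFDerivAt.comp_hasDerivAt (0 : ℝ) h1
  have h4 : HasDerivAt (fun t : ℝ => (Rbn_ew l (q + t • v)).1.im) (0 : ℝ) 0 :=
    Complex.imCLM.hasFDerivAt.comp_hasDerivAt (0 : ℝ) h1
  have e1 : HasDerivAt (fun t : ℝ => (Rbn_ew l (q + t • v)).1.re) (32 * v.2) 0 := by
    have : HasDerivAt (fun t : ℝ => 32 * (q.2 + t * v.2)) (32 * (1 * v.2)) 0 :=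
      (((hasDerivAt_id (0 : ℝ)).mul_const v.2).const_add q.2).const_mul 32
    simpa [Rbn_ew] using this
  obtain ⟨d, hd, hd'⟩ := Rbn_Xr_deriv q.1.re
  have e2 : HasDerivAt (fun t : ℝ => (Rbn_ew l (q + t • v)).1.im) (-(d * v.1.re / 32)) 0 := by
    have h5 : HasDerivAt (fun t : ℝ => q.1.re + t * v.1.re) (1 * v.1.re) 0 :=
      ((hasDerivAt_id (0 : ℝ)).mul_const v.1.re).const_add q.1.re
    have h6 : HasDerivAt Xr d (q.1.re + 0 * v.1.re) := by simpa using hd'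
    have h8 : HasDerivAt (fun t : ℝ => Xr (q.1.re + t * v.1.re)) (d * (1 * v.1.re)) 0 :=
      HasDerivAt.comp (h₂ := Xr) (h := fun t : ℝ => q.1.re + t * v.1.re) (0 : ℝ) h6 h5
    have h7 : HasDerivAt (fun t : ℝ => -(Xr (q.1.re + t * v.1.re) / 32)) (-(d * (1 * v.1.re) / 32)) 0 :=
      (h8.div_const 32).neg
    simpa [Rbn_ew] using h7
  have f1 := e1.unique h3
  have f2 := e2.unique h4
  have g1 : v.2 = 0 := by linarith
  have g3 : v.1.re = 0 := by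
    have : d * v.1.re = 0 := by linarith
    rcases mul_eq_zero.1 this with h | h
    · exact absurd h hd.ne
    · exact h
  have e3 : HasDerivAt (fun t : ℝ => (Rbn_ew l (q + t • v)).2) (v.1.im / 64) 0 := by
    have : HasDerivAt (fun t : ℝ => (q.1.im + t * v.1.im) / 64 + l * (9 / 8 * bmp (32 * q.2))) (1 * v.1.im / 64) 0 :=
      ((((hasDerivAt_id (0 : ℝ)).mul_const v.1.im).const_add q.1.im).div_const 64).add_const _
    simpa [Rbn_ew, g1] using this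
  have f3 := e3.unique h2
  have g2 : v.1.im = 0 := by linarith
  exact Prod.ext (Complex.ext g3 g2) g1

/-! ### domains -/

theorem Rbn_dom {q : E} (h : q ∈ Dom) : |q.1.re| < 4 ∧ |q.1.im| < 4 ∧ |q.2| < 1 :=
  ⟨(Complex.abs_re_le_norm _).trans_lt h.1, (Complex.abs_im_le_norm _).trans_lt h.1, h.2⟩

theorem Rbn_dom_open : IsOpen Dom := by
  have h1 : IsOpen {q : E | ‖q.1‖ < 4} := isOpen_lt (by fun_prop) continuous_const
  have h2 : IsOpen {q : E | |q.2| < 1} := isOpen_lt (by fun_prop) continuous_const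
  exact h1.inter h2

theorem Rbn_eb_QCB {q : E} (h : q ∈ Dom) : Rbn_eb q ∈ QCB := by
  obtain ⟨h1, h2, h3⟩ := Rbn_dom h
  have h4 := Rbn_Xr_bd h1
  obtain ⟨a1, a2⟩ := abs_lt.1 h2
  obtain ⟨b1, b2⟩ := abs_lt.1 h3
  refine ⟨?_, ?_, ?_, ?_⟩
  · show |q.2 / 2| ≤ 1 / 2
    rw [abs_le]; constructor <;> linarith
  · show |q.1.im / 4096| ≤ 1 / 1024
    rw [abs_le]; constructor <;> linarith
  · show -(1 / 12) ≤ Xr q.1.re
    linarith [h4.1]
  · show Xr q.1.re ≤ 13 / 12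
    linarith [h4.2]

theorem Rbn_eb_Slab {q : E} (h : q ∈ Dom) : Rbn_eb q ∈ Slab := QCB_sub (Rbn_eb_QCB h)

theorem Rbn_eb_TD {q : E} (h : q ∈ Dom) : Rbn_eb q ∈ TD := Slab_sub (Rbn_eb_Slab h)

theorem Rbn_ew_bd {q : E} (h : q ∈ Dom) {l : ℝ} (hl : l ∈ Icc (0 : ℝ) 1) :
    -(13 / 384) ≤ (Rbn_ew l q).1.im ∧ (Rbn_ew l q).1.im ≤ 1 / 384 ∧ -(1 / 16) < (Rbn_ew l q).2 ∧
      (Rbn_ew l q).2 < 19 / 16 := by
  obtain ⟨h1, h2, h3⟩ := Rbn_dom h
  have h4 := Rbn_Xr_bd h1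
  obtain ⟨a1, a2⟩ := abs_lt.1 h2
  have k1 := bmp_nonneg (32 * q.2)
  have k2 := bmp_le (32 * q.2)
  have k3 : 0 ≤ l * (9 / 8 * bmp (32 * q.2)) := mul_nonneg hl.1 (by linarith)
  have k4 : l * (9 / 8 * bmp (32 * q.2)) ≤ 9 / 8 := by
    have := hl.1
    have := hl.2
    nlinarith
  refine ⟨?_, ?_, ?_, ?_⟩
  · show -(13 / 384) ≤ -(Xr q.1.re / 32)
    linarith [h4.2]
  · show -(Xr q.1.re / 32) ≤ 1 / 384
    linarith [h4.1]
  · show -(1 / 16) < q.1.im / 64 + l * (9 / 8 * bmp (32 * q.2))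
    linarith
  · show q.1.im / 64 + l * (9 / 8 * bmp (32 * q.2)) < 19 / 16
    linarith

theorem Rbn_ew_TD {q : E} (h : q ∈ Dom) {l : ℝ} (hl : l ∈ Icc (0 : ℝ) 1) (hs : |q.2| < 1 / 64) :
    Rbn_ew l q ∈ TD := by
  obtain ⟨h1, h2, h3, h4⟩ := Rbn_ew_bd h hl
  have h5 : |(Rbn_ew l q).1.re| ≤ 1 / 2 := by
    show |32 * q.2| ≤ 1 / 2
    rw [abs_mul, abs_of_pos (by norm_num : (0 : ℝ) < 32)]
    linarith
  have h6 : |(Rbn_ew l q).1.im| ≤ 1 / 16 := by
    rw [abs_le]; constructor <;> linarith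
  refine ⟨?_, by linarith, by linarith⟩
  have := Complex.norm_le_abs_re_add_abs_im (Rbn_ew l q).1
  linarith

theorem Rbn_ew_QCW {q : E} (h : q ∈ Dom) {l : ℝ} (hl : l ∈ Icc (0 : ℝ) 1) (hs : |q.2| ≤ 1 / 256) :
    Rbn_ew l q ∈ QCW := by
  obtain ⟨h1, h2, h3, h4⟩ := Rbn_ew_bd h hl
  refine ⟨?_, h1, h2, h3.le, h4.le⟩
  show |32 * q.2| ≤ 1 / 8
  rw [abs_mul, abs_of_pos (by norm_num : (0 : ℝ) < 32)]
  linarith

/-- the points of the two strands -/
noncomputable def Rbn_pt (x s : ℝ) : E := (((1 - 2 * x : ℝ) : ℂ), s)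

theorem Rbn_pt_str {x s : ℝ} (hx : x = 0 ∨ x = 1) (hs : |s| < 1) : Rbn_pt x s ∈ Str := by
  refine ⟨?_, hs⟩
  rcases hx with rfl | rfl
  · left; simp [Rbn_pt]
  · right
    show (((1 - 2 * 1 : ℝ) : ℂ)) = -1
    norm_num

theorem Rbn_str_pt {q : E} (h : q ∈ Str) : ∃ x : ℝ, (x = 0 ∨ x = 1) ∧ q = Rbn_pt x q.2 := by
  rcases h.1 with h1 | h1
  · refine ⟨0, Or.inl rfl, Prod.ext ?_ rfl⟩
    show q.1 = (((1 - 2 * 0 : ℝ) : ℂ))
    rw [h1]; norm_num
  · refine ⟨1, Or.inr rfl, Prod.ext ?_ rfl⟩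
    show q.1 = (((1 - 2 * 1 : ℝ) : ℂ))
    rw [h1]; norm_num

theorem Rbn_str_dom {q : E} (h : q ∈ Str) : q ∈ Dom := by
  refine ⟨?_, h.2⟩
  rcases h.1 with h1 | h1 <;> rw [h1] <;> norm_num

theorem Rbn_Xr_pt {x : ℝ} (hx : x = 0 ∨ x = 1) : Xr (1 - 2 * x) = x := by
  rcases hx with rfl | rfl
  · norm_num [Rbn_Xr_one]
  · rw [show (1 - 2 * 1 : ℝ) = -1 by norm_num, Rbn_Xr_neg_one]

theorem Rbn_eb_pt {x s : ℝ} (hx : x = 0 ∨ x = 1) : Rbn_eb (Rbn_pt x s) = (⟨s / 2, 0⟩, x) := by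
  refine Prod.ext (Complex.ext rfl ?_) ?_
  · show (((1 - 2 * x : ℝ) : ℂ)).im / 4096 = 0
    rw [Complex.ofReal_im]; norm_num
  · show Xr (((1 - 2 * x : ℝ) : ℂ)).re = x
    rw [Complex.ofReal_re, Rbn_Xr_pt hx]

theorem Rbn_ew_pt {x s : ℝ} (hx : x = 0 ∨ x = 1) (l : ℝ) :
    Rbn_ew l (Rbn_pt x s) = (⟨32 * s, -(x / 32)⟩, l * (9 / 8 * bmp (32 * s))) := by
  refine Prod.ext (Complex.ext rfl ?_) ?_
  · show -(Xr (((1 - 2 * x : ℝ) : ℂ)).re / 32) = -(x / 32)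
    rw [Complex.ofReal_re, Rbn_Xr_pt hx]
  · show (((1 - 2 * x : ℝ) : ℂ)).im / 64 + l * (9 / 8 * bmp (32 * s)) = l * (9 / 8 * bmp (32 * s))
    rw [Complex.ofReal_im]; ring

theorem Rbn_eb_injOn : Function.Injective Rbn_eb := by
  intro q q' h
  have h1 : q.2 / 2 = q'.2 / 2 := congrArg (fun e : E => e.1.re) h
  have h2 : q.1.im / 4096 = q'.1.im / 4096 := congrArg (fun e : E => e.1.im) h
  have h3 : Xr q.1.re = Xr q'.1.re := congrArg (fun e : E => e.2) h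
  exact Prod.ext (Complex.ext (Rbn_Xr_anti.injective h3) (by linarith)) (by linarith)

theorem Rbn_ew_injOn (l : ℝ) : Function.Injective (Rbn_ew l) := by
  intro q q' h
  have h1 : 32 * q.2 = 32 * q'.2 := congrArg (fun e : E => e.1.re) h
  have h2 : -(Xr q.1.re / 32) = -(Xr q'.1.re / 32) := congrArg (fun e : E => e.1.im) h
  have h3 : q.1.im / 64 + l * (9 / 8 * bmp (32 * q.2)) = q'.1.im / 64 + l * (9 / 8 * bmp (32 * q'.2)) :=
    congrArg (fun e : E => e.2) h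
  rw [h1] at h3
  exact Prod.ext (Complex.ext (Rbn_Xr_anti.injective (by linarith)) (by linarith)) (by linarith)

/-! ### the family -/

variable {N : Type u} [TopologicalSpace N] [ChartedSpace E3 N]

omit [TopologicalSpace N] [ChartedSpace E3 N] in
theorem Rbn_near {B W : E → N} {l : ℝ} {q : E} (h : |q.2| < 1 / 64) : bl B W l q = W (Rbn_ew l q) := by
  unfold bl
  rw [if_pos h]
  rfl

theorem Rbn_relA {K : Set N} {B W : E → N} (S : SP K B W) {l : ℝ} {q : E} (h : q ∈ Dom) (hs : |q.2| < 1 / 64)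
    (h0 : l * (9 / 8 * bmp (32 * q.2)) = 0) : W (Rbn_ew l q) = B (Rbn_eb q) := by
  obtain ⟨h1, h2, h3⟩ := Rbn_dom h
  have h4 := Rbn_Xr_bd h1
  obtain ⟨a1, a2⟩ := abs_lt.1 h2
  have e0 : Rbn_ew l q = Rbn_ew 0 q := by
    unfold Rbn_ew
    rw [h0]
    simp
  have hT : Rbn_ew 0 q ∈ TD := Rbn_ew_TD h ⟨le_rfl, zero_le_one⟩ hs
  have e1 : (Rbn_ew 0 q).2 = q.1.im / 64 := by
    show q.1.im / 64 + 0 * (9 / 8 * bmp (32 * q.2)) = q.1.im / 64
    ring
  have e2 : -(32 * (Rbn_ew 0 q).1.im) = Xr q.1.re := by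
    show -(32 * (-(Xr q.1.re / 32))) = Xr q.1.re
    ring
  rw [e0, S.relA _ hT (by rw [e1, abs_le]; constructor <;> linarith) (by rw [e2]; linarith [h4.1])
    (by rw [e2]; linarith [h4.2])]
  congr 1
  refine Prod.ext (Complex.ext ?_ ?_) e2
  · show 32 * q.2 / 64 = q.2 / 2
    ring
  · show (Rbn_ew 0 q).2 / 64 = q.1.im / 4096
    rw [e1]; ring

theorem Rbn_far {K : Set N} {B W : E → N} (S : SP K B W) {l : ℝ} {q : E} (h : q ∈ Dom) (hs : 1 / 256 ≤ |q.2|) :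
    bl B W l q = B (Rbn_eb q) := by
  by_cases h1 : |q.2| < 1 / 64
  · rw [Rbn_near h1]
    apply Rbn_relA S h h1
    rw [bmp_zero (by rw [abs_mul, abs_of_pos (by norm_num : (0 : ℝ) < 32)]; linarith)]
    ring
  · unfold bl
    rw [if_neg h1]
    rfl

theorem Rbn_dom0 {K : Set N} {B W : E → N} (S : SP K B W) {q : E} (h : q ∈ Dom) :
    bl B W 0 q = B (Rbn_eb q) := by
  by_cases h1 : |q.2| < 1 / 64
  · rw [Rbn_near h1]
    exact Rbn_relA S h h1 (by ring)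
  · exact Rbn_far S h (by linarith [not_lt.1 h1])

/-- a moved point is not a point of the fixed part -/
theorem Rbn_sep {K : Set N} {B W : E → N} (S : SP K B W) {l : ℝ} (hl : l ∈ Icc (0 : ℝ) 1) {q q' : E} (h : q ∈ Dom)
    (hs : |q.2| < 1 / 256) (h' : q' ∈ Dom) (he : W (Rbn_ew l q) = B (Rbn_eb q')) :
    q.2 = q'.2 ∨ (5 / 8 - 1 / 64 < q'.2 ∧ q'.2 < 5 / 8 + 1 / 64 ∧ |32 * q.2| ≤ 1 / 16 ∧
      1 - (Rbn_ew l q).2 = q'.1.im / 64) := by
  obtain ⟨b1, b2, b3, b4⟩ := Rbn_ew_bd h hl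
  obtain ⟨c1, c2, c3⟩ := Rbn_dom h'
  have c4 := Rbn_Xr_bd c1
  rcases S.sep _ (Rbn_ew_TD h hl (by linarith)) _ (Rbn_eb_Slab h') he with ⟨-, h1⟩ | ⟨-, h1⟩
  · left
    have h2 : 32 * q.2 / 64 = q'.2 / 2 := congrArg (fun e : E => e.1.re) h1
    linarith
  · right
    have h2 : 5 / 16 + (Rbn_ew l q).1.im / 64 = q'.2 / 2 := congrArg (fun e : E => e.1.re) h1
    have h3 : (1 - (Rbn_ew l q).2) / 64 = q'.1.im / 4096 := congrArg (fun e : E => e.1.im) h1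
    have h4 : -(32 * (32 * q.2)) = Xr q'.1.re := congrArg (fun e : E => e.2) h1
    refine ⟨by linarith, by linarith, ?_, by linarith⟩
    rw [abs_le]
    constructor <;> linarith [c4.1, c4.2]

theorem rbn_tubes {K : Set N} {B W : E → N} (S : SP K B W) : TubesN (bl B W) := by
  have hev1 : ∀ q : E, |q.2| < 1 / 64 → ∀ᶠ y in 𝓝 q, |y.2| < 1 / 64 := by
    intro q hq
    have : IsOpen {q : E | |q.2| < 1 / 64} := isOpen_lt (by fun_prop) continuous_const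
    exact this.mem_nhds hq
  have hev2 : ∀ q : E, q ∈ Dom → 1 / 256 < |q.2| → ∀ᶠ y in 𝓝 q, y ∈ Dom ∧ 1 / 256 < |y.2| := by
    intro q hq hq'
    have : IsOpen {q : E | 1 / 256 < |q.2|} := isOpen_lt continuous_const (by fun_prop)
    filter_upwards [Rbn_dom_open.mem_nhds hq, this.mem_nhds hq'] with y h1 h2 using ⟨h1, h2⟩
  refine ⟨?_, ?_, ?_, ?_, ?_, ?_⟩
  · intro l hl q hq
    by_cases hs : |q.2| < 1 / 64
    · have h1 : ContMDiffAt 𝓘(ℝ, ℝ × (ℂ × ℝ)) (𝓡 3) ∞ (fun p : ℝ × (ℂ × ℝ) => W (Rbn_ew p.1 p.2)) (l, q) :=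
        ContMDiffAt.comp (l, q) (g := W) (f := fun p : ℝ × (ℂ × ℝ) => Rbn_ew p.1 p.2)
          (S.chtW.loc _ (Rbn_ew_TD hq hl hs)).contMDiffAt Rbn_ew_smooth.contMDiff.contMDiffAt
      refine h1.congr_of_eventuallyEq ?_
      have h2 := (continuous_snd.tendsto ((l, q) : ℝ × E)).eventually (hev1 q hs)
      filter_upwards [h2] with p hp
      exact Rbn_near hp
    · have h1 : ContMDiffAt 𝓘(ℝ, ℝ × (ℂ × ℝ)) (𝓡 3) ∞ (fun p : ℝ × (ℂ × ℝ) => B (Rbn_eb p.2)) (l, q) :=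
        ContMDiffAt.comp (l, q) (g := B) (f := fun p : ℝ × (ℂ × ℝ) => Rbn_eb p.2)
          (S.chtB.loc _ (Rbn_eb_TD hq)).contMDiffAt (Rbn_eb_smooth.comp contDiff_snd).contMDiff.contMDiffAt
      refine h1.congr_of_eventuallyEq ?_
      have h2 := (continuous_snd.tendsto ((l, q) : ℝ × E)).eventually
        (hev2 q hq (by linarith [not_lt.1 hs]))
      filter_upwards [h2] with p hp
      exact Rbn_far S hp.1 hp.2.le
  · intro l hl q hq
    by_cases hs : |q.2| < 1 / 64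
    · have h1 : IsLocalDiffeomorphAt 𝓘(ℝ, E) 𝓘(ℝ, E) ∞ (Rbn_ew l) q :=
        CSG.ld_of_fderiv (Eventually.of_forall fun y => (Rbn_ew_smooth' l).contDiffAt) rfl (Rbn_ew_inj l q)
      have h2 : IsLocalDiffeomorphAt 𝓘(ℝ, E) (𝓡 3) ∞ (fun q => W (Rbn_ew l q)) q :=
        IsLocalDiffeomorphAt.comp (hf := h1) (hg := S.chtW.loc _ (Rbn_ew_TD hq hl hs))
      refine CSG.ld_congr h2 ?_
      filter_upwards [hev1 q hs] with p hp
      exact Rbn_near hp
    · have h1 : IsLocalDiffeomorphAt 𝓘(ℝ, E) 𝓘(ℝ, E) ∞ Rbn_eb q :=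
        CSG.ld_of_fderiv (Eventually.of_forall fun y => Rbn_eb_smooth.contDiffAt) rfl (Rbn_eb_inj q)
      have h2 : IsLocalDiffeomorphAt 𝓘(ℝ, E) (𝓡 3) ∞ (fun q => B (Rbn_eb q)) q :=
        IsLocalDiffeomorphAt.comp (hf := h1) (hg := S.chtB.loc _ (Rbn_eb_TD hq))
      refine CSG.ld_congr h2 ?_
      filter_upwards [hev2 q hq (by linarith [not_lt.1 hs])] with p hp
      exact Rbn_far S hp.1 hp.2.le
  · intro l hl q hq hs
    rw [Rbn_far S hq (by linarith), Rbn_far S hq (by linarith)]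
  · intro q hq q' hq' he
    rw [Rbn_dom0 S hq, Rbn_dom0 S hq'] at he
    exact Rbn_eb_injOn (S.chtB.inj (Rbn_eb_TD hq) (Rbn_eb_TD hq') he)
  · have hl : (1 : ℝ) ∈ Icc (0 : ℝ) 1 := ⟨zero_le_one, le_rfl⟩
    -- the mixed case
    have key : ∀ q ∈ Dom, ∀ q' ∈ Dom, |q.2| < 1 / 256 → 1 / 64 ≤ |q'.2| → W (Rbn_ew 1 q) ≠ B (Rbn_eb q') := by
      intro q hq q' hq' hs hs' he
      rcases Rbn_sep S hl hq hs hq' he with h1 | ⟨-, -, h2, h3⟩
      · rw [h1] at hs; linarith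
      · have h4 : (Rbn_ew 1 q).2 = q.1.im / 64 + 1 * (9 / 8 * bmp (32 * q.2)) := rfl
        rw [bmp_one h2] at h4
        have h5 := abs_lt.1 (Rbn_dom hq).2.1
        have h6 := abs_lt.1 (Rbn_dom hq').2.1
        linarith [h5.1, h6.1]
    intro q hq q' hq' he
    by_cases h1 : |q.2| < 1 / 64
    · by_cases h2 : |q'.2| < 1 / 64
      · rw [Rbn_near h1, Rbn_near h2] at he
        exact Rbn_ew_injOn 1 (S.chtW.inj (Rbn_ew_TD hq hl h1) (Rbn_ew_TD hq' hl h2) he)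
      · by_cases h3 : |q.2| < 1 / 256
        · rw [Rbn_near h1, Rbn_far S hq' (by linarith [not_lt.1 h2])] at he
          exact absurd he (key q hq q' hq' h3 (not_lt.1 h2))
        · rw [Rbn_far S hq (not_lt.1 h3), Rbn_far S hq' (by linarith [not_lt.1 h2])] at he
          exact Rbn_eb_injOn (S.chtB.inj (Rbn_eb_TD hq) (Rbn_eb_TD hq') he)
    · by_cases h3 : |q'.2| < 1 / 256
      · rw [Rbn_near (q := q') (by linarith), Rbn_far S hq (by linarith [not_lt.1 h1])] at he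
        exact absurd he.symm (key q' hq' q hq h3 (not_lt.1 h1))
      · rw [Rbn_far S hq (by linarith [not_lt.1 h1]), Rbn_far S hq' (not_lt.1 h3)] at he
        exact Rbn_eb_injOn (S.chtB.inj (Rbn_eb_TD hq) (Rbn_eb_TD hq') he)
  · intro l hl q hq hs q' hq' hs' he
    rw [Rbn_dom0 S hq'] at he
    by_cases h1 : |q.2| < 1 / 256
    · rw [Rbn_near (by linarith)] at he
      rcases Rbn_sep S hl hq h1 hq' he with h2 | ⟨h2, h3, -, -⟩
      · rw [h2] at h1; linarith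
      · rw [abs_of_pos (by linarith)] at hs'
        linarith
    · rw [Rbn_far S hq (not_lt.1 h1)] at he
      have := Rbn_eb_injOn (S.chtB.inj (Rbn_eb_TD hq) (Rbn_eb_TD hq') he)
      rw [this] at hs
      linarith

theorem rbn_sub {K : Set N} {B W : E → N} (S : SP K B W) {l : ℝ} (h : l ∈ Icc (0 : ℝ) 1) : bl B W l '' Dom ⊆ QC B W := by
  rintro _ ⟨q, hq, rfl⟩
  by_cases h1 : |q.2| < 1 / 256
  · right
    rw [Rbn_near (by linarith)]
    exact ⟨_, Rbn_ew_QCW hq h h1.le, rfl⟩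
  · left
    rw [Rbn_far S hq (not_lt.1 h1)]
    exact ⟨_, Rbn_eb_QCB hq, rfl⟩

/-! ### the set `K` -/

theorem Rbn_KB {K : Set N} {B W : E → N} (S : SP K B W) {e : E} (he : e ∈ TD) : B e ∈ K ↔ e ∈ TSB := by
  constructor
  · intro h
    have : B e ∈ K ∩ B '' TD := ⟨h, e, he, rfl⟩
    rw [S.hitB] at this
    obtain ⟨e', he', h'⟩ := this
    rwa [← S.chtB.inj he'.1 he h']
  · intro h
    have : B e ∈ B '' TSB := ⟨e, h, rfl⟩
    rw [← S.hitB] at this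
    exact this.1

theorem Rbn_KW {K : Set N} {B W : E → N} (S : SP K B W) {e : E} (he : e ∈ TD) : W e ∈ K ↔ e ∈ TS2 := by
  constructor
  · intro h
    have : W e ∈ K ∩ W '' TD := ⟨h, e, he, rfl⟩
    rw [S.hitW] at this
    obtain ⟨e', he', h'⟩ := this
    rwa [← S.chtW.inj (TS2_sub he') he h']
  · intro h
    have : W e ∈ W '' TS2 := ⟨e, h, rfl⟩
    rw [← S.hitW] at this
    exact this.1

/-- the points of `K` in the ribbon -/
theorem Rbn_str {K : Set N} {B W : E → N} (S : SP K B W) {q : E} (hq : q ∈ Dom) (h : B (Rbn_eb q) ∈ K) : q ∈ Str := by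
  have h1 := (Rbn_KB S (Rbn_eb_TD hq)).1 h
  have h2 : q.1.im / 4096 = 0 := h1.2.1
  have h3 : Xr q.1.re = 0 ∨ Xr q.1.re = 1 := h1.2.2
  have him : q.1.im = 0 := by linarith
  refine ⟨?_, hq.2⟩
  rcases h3 with h3 | h3
  · left
    have : q.1.re = 1 := Rbn_Xr_anti.injective (h3.trans Rbn_Xr_one.symm)
    exact Complex.ext (by simpa using this) (by simpa using him)
  · right
    have : q.1.re = -1 := Rbn_Xr_anti.injective (h3.trans Rbn_Xr_neg_one.symm)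
    exact Complex.ext (by simpa using this) (by simpa using him)

theorem Rbn_str_K {K : Set N} {B W : E → N} (S : SP K B W) {x s : ℝ} (hx : x = 0 ∨ x = 1) (hs : |s| < 1) :
    B (⟨s / 2, 0⟩, x) ∈ K := by
  have hd := Rbn_str_dom (Rbn_pt_str hx hs)
  have := Rbn_eb_TD hd
  rw [Rbn_eb_pt hx] at this
  exact (Rbn_KB S this).2 ⟨this, rfl, hx⟩

/-- the horizontal pair in the chart `B` -/
theorem Rbn_hor {K : Set N} {B W : E → N} (S : SP K B W) {p : E} (hp : p ∈ TD) (h0 : p.2 = 0)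
    (h1 : p.1.im = 0 ∨ p.1.im = -(1 / 32)) :
    (-(32 * p.1.im) = 0 ∨ -(32 * p.1.im) = 1) ∧ |p.1.re / 32| < 1 ∧
      W p = B (⟨p.1.re / 32 / 2, 0⟩, -(32 * p.1.im)) := by
  have hx : -(32 * p.1.im) = 0 ∨ -(32 * p.1.im) = 1 := by
    rcases h1 with h | h
    · left; rw [h]; norm_num
    · right; rw [h]; norm_num
  refine ⟨hx, ?_, ?_⟩
  · have := (Complex.abs_re_le_norm p.1).trans_lt hp.1
    rw [abs_div, abs_of_pos (by norm_num : (0 : ℝ) < 32)]
    linarith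
  · rw [S.relA p hp (by rw [h0]; norm_num) (by rcases hx with h | h <;> rw [h] <;> norm_num)
      (by rcases hx with h | h <;> rw [h] <;> norm_num)]
    congr 1
    refine Prod.ext (Complex.ext ?_ ?_) rfl
    · show p.1.re / 64 = p.1.re / 32 / 2
      ring
    · show p.2 / 64 = 0
      rw [h0]; norm_num

/-- the vertical pair in the chart `B` -/
theorem Rbn_ver {K : Set N} {B W : E → N} (S : SP K B W) {p : E} (hp : p ∈ TD) (h0 : p.2 = 1)
    (h1 : p.1.re = 0 ∨ p.1.re = -(1 / 32)) :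
    (-(32 * p.1.re) = 0 ∨ -(32 * p.1.re) = 1) ∧ (1 / 64 ≤ |5 / 8 + p.1.im / 32| ∧ |5 / 8 + p.1.im / 32| < 1) ∧
      W p = B (⟨(5 / 8 + p.1.im / 32) / 2, 0⟩, -(32 * p.1.re)) := by
  have hx : -(32 * p.1.re) = 0 ∨ -(32 * p.1.re) = 1 := by
    rcases h1 with h | h
    · left; rw [h]; norm_num
    · right; rw [h]; norm_num
  refine ⟨hx, ?_, ?_⟩
  · have := abs_lt.1 ((Complex.abs_im_le_norm p.1).trans_lt hp.1)
    rw [abs_of_pos (by linarith [this.1])]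
    constructor <;> linarith [this.1, this.2]
  · rw [S.relB p hp (by rw [h0]; norm_num) (by rcases hx with h | h <;> rw [h] <;> norm_num)
      (by rcases hx with h | h <;> rw [h] <;> norm_num)]
    congr 1
    refine Prod.ext (Complex.ext ?_ ?_) rfl
    · show 5 / 16 + p.1.im / 64 = (5 / 8 + p.1.im / 32) / 2
      ring
    · show (1 - p.2) / 64 = 0
      rw [h0]; norm_num

theorem Rbn_bl0 {K : Set N} {B W : E → N} (S : SP K B W) {x s : ℝ} (hx : x = 0 ∨ x = 1) (hs : |s| < 1) :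
    bl B W 0 (Rbn_pt x s) = B (⟨s / 2, 0⟩, x) := by
  rw [Rbn_dom0 S (Rbn_str_dom (Rbn_pt_str hx hs)), Rbn_eb_pt hx]

theorem Rbn_W_bl0 {K : Set N} {B W : E → N} (S : SP K B W) {p : E} (hp : p ∈ TD) (hK : W p ∈ K) :
    W p ∈ bl B W 0 '' Dom := by
  have h := (Rbn_KW S hp).1 hK
  rcases h.2 with ⟨h0, h1⟩ | ⟨h0, h1⟩
  · obtain ⟨hx, hs, he⟩ := Rbn_hor S hp h0 h1
    exact ⟨Rbn_pt _ _, Rbn_str_dom (Rbn_pt_str hx hs), by rw [he, Rbn_bl0 S hx hs]⟩
  · obtain ⟨hx, ⟨-, hs⟩, he⟩ := Rbn_ver S hp h0 h1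
    exact ⟨Rbn_pt _ _, Rbn_str_dom (Rbn_pt_str hx hs), by rw [he, Rbn_bl0 S hx hs]⟩

/-- the set `K` outside of the ribbon is disjoint from the family -/
theorem rbn_disj {K : Set N} {B W : E → N} (S : SP K B W) {l : ℝ} (h : l ∈ Icc (0 : ℝ) 1) :
    Disjoint (K \ bl B W 0 '' Dom) (bl B W l '' Dom) := by
  rw [Set.disjoint_left]
  rintro _ ⟨hK, hn⟩ ⟨q, hq, rfl⟩
  apply hn
  by_cases h1 : |q.2| < 1 / 256
  · rw [Rbn_near (by linarith)] at hK ⊢
    exact Rbn_W_bl0 S (Rbn_ew_TD hq h (by linarith)) hK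
  · rw [Rbn_far S hq (not_lt.1 h1)]
    exact ⟨q, hq, Rbn_dom0 S hq⟩

theorem rbn_zero {K : Set N} {B W : E → N} (S : SP K B W) : K = (K \ bl B W 0 '' Dom) ∪ bl B W 0 '' Str := by
  ext y
  constructor
  · intro hy
    by_cases h : y ∈ bl B W 0 '' Dom
    · right
      obtain ⟨q, hq, rfl⟩ := h
      refine ⟨q, ?_, rfl⟩
      rw [Rbn_dom0 S hq] at hy
      exact Rbn_str S hq hy
    · exact Or.inl ⟨hy, h⟩
  · rintro (h | ⟨q, hq, rfl⟩)
    · exact h.1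
    · obtain ⟨x, hx, he⟩ := Rbn_str_pt hq
      rw [he, Rbn_bl0 S hx hq.2]
      exact Rbn_str_K S hx hq.2

theorem rbn_one {K : Set N} {B W : E → N} (S : SP K B W) : KW K W = (K \ bl B W 0 '' Dom) ∪ bl B W 1 '' Str := by
  have hl : (1 : ℝ) ∈ Icc (0 : ℝ) 1 := ⟨zero_le_one, le_rfl⟩
  have hfar : ∀ {x s : ℝ}, (x = 0 ∨ x = 1) → |s| < 1 → 1 / 64 ≤ |s| → bl B W 1 (Rbn_pt x s) = B (⟨s / 2, 0⟩, x) := by
    intro x s hx hs hs'
    have hs'' : 1 / 256 ≤ |(Rbn_pt x s).2| := by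
      show 1 / 256 ≤ |s|
      linarith
    rw [Rbn_far S (Rbn_str_dom (Rbn_pt_str hx hs)) hs'', Rbn_eb_pt hx]
  have hnear : ∀ {x s : ℝ}, (x = 0 ∨ x = 1) → |s| < 1 / 64 →
      bl B W 1 (Rbn_pt x s) = W (⟨32 * s, -(x / 32)⟩, 9 / 8 * bmp (32 * s)) := by
    intro x s hx hs
    rw [Rbn_near (q := Rbn_pt x s) hs, Rbn_ew_pt hx, one_mul]
  ext y
  constructor
  · rintro (⟨hK, hnW⟩ | ⟨p, hp, rfl⟩)
    · by_cases h : y ∈ bl B W 0 '' Dom
      · right
        obtain ⟨q, hq, rfl⟩ := h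
        rw [Rbn_dom0 S hq] at hK hnW ⊢
        have hstr := Rbn_str S hq hK
        have hs : ¬ |q.2| < 1 / 64 := by
          intro hs
          apply hnW
          exact ⟨_, Rbn_ew_TD hq (l := 0) ⟨le_rfl, zero_le_one⟩ hs,
            (Rbn_near (B := B) (W := W) (l := 0) hs).symm.trans (Rbn_dom0 S hq)⟩
        exact ⟨q, hstr, Rbn_far S hq (by linarith [not_lt.1 hs])⟩
      · exact Or.inl ⟨hK, h⟩
    · right
      rcases hp.2 with ⟨h0, h1⟩ | ⟨h0, h1⟩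
      · have hre := (Complex.abs_re_le_norm p.1).trans_lt hp.1.1
        have hx : -(32 * p.1.im) = 0 ∨ -(32 * p.1.im) = 1 := by
          rcases h1 with h | h
          · left; rw [h]; norm_num
          · right; rw [h]; norm_num
        have hs1 : |p.1.re / 32| < 1 := by
          rw [abs_div, abs_of_pos (by norm_num : (0 : ℝ) < 32)]
          linarith
        by_cases hs : |p.1.re / 32| < 1 / 64
        · refine ⟨Rbn_pt (-(32 * p.1.im)) (p.1.re / 32), Rbn_pt_str hx hs1, ?_⟩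
          rw [hnear hx hs]
          congr 1
          have e1 : 32 * (p.1.re / 32) = p.1.re := by ring
          refine Prod.ext (Complex.ext e1 ?_) ?_
          · show -(-(32 * p.1.im) / 32) = p.1.im
            ring
          · show 9 / 8 * bmp (32 * (p.1.re / 32)) = p.2
            rw [e1, h0]
        · have hb : bmp p.1.re = 0 := by
            apply bmp_zero
            have := not_lt.1 hs
            rw [abs_div, abs_of_pos (by norm_num : (0 : ℝ) < 32)] at this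
            linarith
          have h0' : p.2 = 0 := by rw [h0, hb]; norm_num
          obtain ⟨-, -, he⟩ := Rbn_hor S hp.1 h0' h1
          exact ⟨Rbn_pt (-(32 * p.1.im)) (p.1.re / 32), Rbn_pt_str hx hs1, by
            rw [he, hfar hx hs1 (not_lt.1 hs)]⟩
      · obtain ⟨hx, ⟨hs', hs⟩, he⟩ := Rbn_ver S hp.1 h0 h1
        exact ⟨Rbn_pt _ _, Rbn_pt_str hx hs, by rw [he, hfar hx hs hs']⟩
  · rintro (⟨hK, hn⟩ | ⟨q, hq, rfl⟩)
    · left
      refine ⟨hK, ?_⟩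
      rintro ⟨p, hp, rfl⟩
      exact hn (Rbn_W_bl0 S hp hK)
    · obtain ⟨x, hx, he⟩ := Rbn_str_pt hq
      have hq2 := hq.2
      generalize q.2 = s at he hq2
      subst he
      by_cases hs : |s| < 1 / 64
      · right
        rw [hnear hx hs]
        refine ⟨_, ⟨?_, Or.inl ⟨rfl, ?_⟩⟩, rfl⟩
        · have := Rbn_ew_TD (Rbn_str_dom (Rbn_pt_str hx hq2)) hl hs
          rw [Rbn_ew_pt hx, one_mul] at this
          exact this
        · show -(x / 32) = 0 ∨ -(x / 32) = -(1 / 32)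
          rcases hx with h | h
          · left; rw [h]; norm_num
          · right; rw [h]
      · have hK := Rbn_str_K S hx hq2
        rw [hfar hx hq2 (not_lt.1 hs)]
        by_cases hW : B (⟨s / 2, 0⟩, x) ∈ W '' TD
        · right
          obtain ⟨p, hp, hpe⟩ := hW
          rw [← hpe] at hK ⊢
          have h2 := (Rbn_KW S hp).1 hK
          refine ⟨p, ⟨hp, ?_⟩, rfl⟩
          rcases h2.2 with ⟨h0, h1⟩ | h3
          · left
            refine ⟨?_, h1⟩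
            obtain ⟨hx', hs', he'⟩ := Rbn_hor S hp h0 h1
            rw [hpe] at he'
            have hT1 := Rbn_eb_TD (Rbn_str_dom (Rbn_pt_str hx hq2))
            have hT2 := Rbn_eb_TD (Rbn_str_dom (Rbn_pt_str hx' hs'))
            rw [Rbn_eb_pt hx] at hT1
            rw [Rbn_eb_pt hx'] at hT2
            have h4 := S.chtB.inj hT1 hT2 he'
            have h5 : s / 2 = p.1.re / 32 / 2 := congrArg (fun e : E => e.1.re) h4
            have h6 : p.1.re = 32 * s := by linarith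
            rw [h0, h6, bmp_zero (by
              rw [abs_mul, abs_of_pos (by norm_num : (0 : ℝ) < 32)]; linarith [not_lt.1 hs])]
            norm_num
          · exact Or.inr h3
        · exact Or.inl ⟨hK, hW⟩

end Pool.Agent.NHR
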