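import Mathlib
import Pool.Agent.NHR.Defs
import Pool.Agent.NHR.Geo
import Pool.Agent.NHR.Rbn

/-!
# NHR/Rib: chords off the special configuration (difficulty 2)

`KW K W` and `K` agree off `QC B W` (`KW K W - QC = K - QC`: the points of `W '' TS2`, `W '' TF2` which are not common are in `QC`).
`Z = kn K T \ bl B W 0 '' Dom`.
-/

open scoped Manifold ContDiff Topology
open Set Filter
open Pool.Agent.CSG (stp)
open Pool.Agent.RSG (E3 ex Thick)
open Pool.Agent.KNT (Dom Str Str2 bmp)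
open Pool.Agent.NHP

namespace Pool.Agent.NHR

universe u v

variable {N : Type u} [TopologicalSpace N] [ChartedSpace E3 N]

theorem rib_bmp {x y : ℝ} (h : y = 9 / 8 * bmp x) : 0 ≤ y ∧ y ≤ 9 / 8 := by
  have h1 := bmp_nonneg x
  have h2 := bmp_le x
  constructor <;> linarith

theorem rib_big {q : E} (hq : q ∉ QCW) (him : q.1.im = 0 ∨ q.1.im = -(1 / 32)) (h0 : -(1 / 16) ≤ q.2) (h1 : q.2 ≤ 19 / 16) :
    1 / 8 ≤ |q.1.re| := by
  by_contra h
  push Not at h
  apply hq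
  refine ⟨h.le, ?_, ?_, h0, h1⟩
  · rcases him with h2 | h2 <;> rw [h2] <;> norm_num
  · rcases him with h2 | h2 <;> rw [h2] <;> norm_num

theorem rib_iff {q : E} (hq : q ∉ QCW) : q ∈ TF2 ↔ q ∈ TS2 := by
  constructor
  · rintro ⟨h, ⟨h1, h2⟩ | h1⟩
    · have h3 := rib_bmp h1
      have h4 := rib_big hq h2 (by linarith) (by linarith)
      refine ⟨h, Or.inl ⟨?_, h2⟩⟩
      rw [h1, bmp_zero h4, mul_zero]
    · exact ⟨h, Or.inr h1⟩
  · rintro ⟨h, ⟨h1, h2⟩ | h1⟩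
    · have h4 := rib_big hq h2 (by linarith) (by linarith)
      refine ⟨h, Or.inl ⟨?_, h2⟩⟩
      rw [h1, bmp_zero h4, mul_zero]
    · exact ⟨h, Or.inr h1⟩

theorem KW_off {K : Set N} {B W : E → N} (S : SP K B W) {y : N} (hy : y ∉ QC B W) : y ∈ KW K W ↔ y ∈ K := by
  by_cases h : y ∈ W '' TD
  · obtain ⟨q, hq, rfl⟩ := h
    have hqc : q ∉ QCW := fun h1 => hy (Or.inr ⟨q, h1, rfl⟩)
    have h1 : W q ∈ KW K W ↔ q ∈ TF2 := by
      constructor
      · rintro (h2 | ⟨r, hr, hrq⟩)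
        · exact absurd ⟨q, hq, rfl⟩ h2.2
        · rw [← S.chtW.inj (TF2_sub hr) hq hrq]
          exact hr
      · intro h2
        exact Or.inr ⟨q, h2, rfl⟩
    have h2 : W q ∈ K ↔ q ∈ TS2 := by
      constructor
      · intro h3
        have h4 : W q ∈ K ∩ W '' TD := ⟨h3, q, hq, rfl⟩
        rw [S.hitW] at h4
        obtain ⟨r, hr, hrq⟩ := h4
        rw [← S.chtW.inj (TS2_sub hr) hq hrq]
        exact hr
      · intro h3
        have h4 : W q ∈ W '' TS2 := ⟨q, h3, rfl⟩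
        rw [← S.hitW] at h4
        exact h4.1
    rw [h1, h2, rib_iff hqc]
  · constructor
    · rintro (h1 | ⟨r, hr, rfl⟩)
      · exact h1.1
      · exact absurd ⟨r, TF2_sub hr, rfl⟩ h
    · intro h1
      exact Or.inl ⟨h1, h⟩

/-- the rib move of the set itself -/
theorem rib_K {K : Set N} {B W : E → N} (S : SP K B W) : LEqN K (KW K W) := by
  have h := LEqN.rib (Z := K \ bl B W 0 '' Dom) (rbn_tubes S) (fun l hl => rbn_disj S hl)
  rwa [← rbn_zero S, ← rbn_one S] at h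

theorem rib_chd {K : Set N} {B W : E → N} (S : SP K B W) {T : E → N} (hd : Disjoint (T '' TD) (QC B W)) :
    Chd (KW K W) T ↔ Chd K T := by
  have h : KW K W ∩ T '' TD = K ∩ T '' TD := by
    ext y
    constructor
    · rintro ⟨h1, h2⟩
      exact ⟨(KW_off S (fun h3 => Set.disjoint_left.1 hd h2 h3)).1 h1, h2⟩
    · rintro ⟨h1, h2⟩
      exact ⟨(KW_off S (fun h3 => Set.disjoint_left.1 hd h2 h3)).2 h1, h2⟩
  constructor
  · intro hT
    exact ⟨hT.cht, by rw [← h]; exact hT.hit⟩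
  · intro hT
    exact ⟨hT.cht, by rw [h]; exact hT.hit⟩

theorem rib_kn {K : Set N} {B W : E → N} (S : SP K B W) {T : E → N} (hd : Disjoint (T '' TD) (QC B W)) (hT : Chd K T) :
    LEqN (kn K T) (kn (KW K W) T) := by
  have hSD : Str ⊆ Dom := by
    rintro q ⟨h1, h2⟩
    refine ⟨?_, h2⟩
    rcases h1 with h1 | h1 <;> rw [h1] <;> norm_num
  have hTF : T '' TF ⊆ T '' TD := image_mono fun q hq => hq.1
  have hQ : ∀ l ∈ Icc (0 : ℝ) 1, ∀ x ∈ bl B W l '' Dom, x ∉ T '' TD := fun l hl x hx h1 =>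
    Set.disjoint_left.1 hd h1 (rbn_sub S hl hx)
  have h01 : (0 : ℝ) ∈ Icc (0 : ℝ) 1 := ⟨le_rfl, zero_le_one⟩
  have h11 : (1 : ℝ) ∈ Icc (0 : ℝ) 1 := ⟨zero_le_one, le_rfl⟩
  have hS0 : bl B W 0 '' Str ⊆ K := by
    intro x hx
    rw [rbn_zero S]
    exact Or.inr hx
  have hK0 : ∀ x ∈ K, x ∈ bl B W 0 '' Dom → x ∈ bl B W 0 '' Str := by
    intro x hx hx2
    rw [rbn_zero S] at hx
    rcases hx with hx | hx
    · exact absurd hx2 hx.2
    · exact hx
  have e0 : kn K T = (kn K T \ bl B W 0 '' Dom) ∪ bl B W 0 '' Str := by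
    ext x
    constructor
    · intro hx
      by_cases h : x ∈ bl B W 0 '' Dom
      · rcases hx with hx | hx
        · exact Or.inr (hK0 x hx.1 h)
        · exact absurd (hTF hx) (hQ 0 h01 x h)
      · exact Or.inl ⟨hx, h⟩
    · rintro (hx | hx)
      · exact hx.1
      · exact Or.inl ⟨hS0 hx, hQ 0 h01 x (image_mono hSD hx)⟩
  have e1 : kn (KW K W) T = (kn K T \ bl B W 0 '' Dom) ∪ bl B W 1 '' Str := by
    ext x
    constructor
    · rintro (⟨hx, hxT⟩ | hx)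
      · rw [rbn_one S] at hx
        rcases hx with hx | hx
        · exact Or.inl ⟨Or.inl ⟨hx.1, hxT⟩, hx.2⟩
        · exact Or.inr hx
      · exact Or.inl ⟨Or.inr hx, fun h => hQ 0 h01 x h (hTF hx)⟩
    · rintro (⟨hx | hx, hx2⟩ | hx)
      · refine Or.inl ⟨?_, hx.2⟩
        rw [rbn_one S]
        exact Or.inl ⟨hx.1, hx2⟩
      · exact Or.inr hx
      · refine Or.inl ⟨?_, hQ 1 h11 x (image_mono hSD hx)⟩
        rw [rbn_one S]
        exact Or.inr hx
  have h := LEqN.rib (Z := kn K T \ bl B W 0 '' Dom) (rbn_tubes S) (fun l hl => by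
    rw [Set.disjoint_left]
    rintro x ⟨hx | hx, hx2⟩ hx3
    · exact Set.disjoint_left.1 (rbn_disj S hl) ⟨hx.1, hx2⟩ hx3
    · exact hQ l hl x hx3 (hTF hx))
  rwa [← e0, ← e1] at h

end Pool.Agent.NHR
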