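import Mathlib
import Pool.Agent.NHR.Defs
import Pool.Agent.NHR.Geo
import Pool.Agent.CSG.LDa

/-!
# NHR/ThW: the new thick knot (difficulty 4)

`QC' = W '' (QCW \ (A ∪ B))` with `A = {|x| < 1/64, -1/32 - 1/1024 < im w < 1/1024}`, `B = {|x - 1| < 1/64, -3/64 < re w < 1/64}`, is compact and disjoint
from `K = core κ`; so there is `r` with `κ (l, v) ∉ QC'` for `‖v‖ < r`.  For `η ≤ r`: the points of the tube in `W '' QA` are in
`W '' A`; `Psi W (W q) = W (q.1, q.2 + 9/8 bmp (re q.1))` for `q ∈ QA`, `Psi W y = y` for `y ∉ W '' QA`.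
Local diffeomorphism: a point `y = W q` of the tube, `q ∈ A`, `|re q| < 1/4`: `Psi W = W ∘ shear ∘ W⁻¹` near `y` (for `1/8 ≤ |re q|` both are the
identity); a point `y` of the tube not of this form is not in the closed set `W '' QA`, `Psi W = id` near `y`.
Injectivity: moved points are in `W '' {..}` with `9/8 bmp - 1/64 < x < 9/8 bmp + 1/64`; they are `≠` unmoved tube points, which are
in `W '' (A ∪ B)` or not in `W '' QCW` (`|re w| ≤ 3/64` in `B`, where `bmp = 1`, `x > 9/8 - 1/64 > 1 + 1/64`).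
-/

open scoped Manifold ContDiff Topology
open Set Filter
open Pool.Agent.CSG (stp)
open Pool.Agent.RSG (E3 ex Thick)
open Pool.Agent.KNT (Dom Str Str2 bmp)
open Pool.Agent.NHP

namespace Pool.Agent.NHR

universe u v

variable {N : Type u} [TopologicalSpace N] [ChartedSpace E3 N]

section
variable {N : Type u} [TopologicalSpace N] [ChartedSpace E3 N]

/-- the shear -/
noncomputable def ThW_sh : Diffeomorph 𝓘(ℝ, ℂ × ℝ) 𝓘(ℝ, ℂ × ℝ) (ℂ × ℝ) (ℂ × ℝ) ∞ where
  toFun := fun q => (q.1, q.2 + 9 / 8 * bmp q.1.re)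
  invFun := fun q => (q.1, q.2 - 9 / 8 * bmp q.1.re)
  left_inv := by
    intro q
    show (q.1, q.2 + 9 / 8 * bmp q.1.re - 9 / 8 * bmp q.1.re) = q
    rw [add_sub_cancel_right]
  right_inv := by
    intro q
    show (q.1, q.2 - 9 / 8 * bmp q.1.re + 9 / 8 * bmp q.1.re) = q
    rw [sub_add_cancel]
  contMDiff_toFun := by
    have h1 : ContDiff ℝ ∞ fun q : ℂ × ℝ => bmp q.1.re :=
      bmp_smooth.comp (Complex.reCLM.contDiff.comp contDiff_fst)
    exact (contDiff_fst.prodMk (contDiff_snd.add (contDiff_const.mul h1))).contMDiff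
  contMDiff_invFun := by
    have h1 : ContDiff ℝ ∞ fun q : ℂ × ℝ => bmp q.1.re :=
      bmp_smooth.comp (Complex.reCLM.contDiff.comp contDiff_fst)
    exact (contDiff_fst.prodMk (contDiff_snd.sub (contDiff_const.mul h1))).contMDiff

theorem ThW_sh_apply (q : E) : ThW_sh q = (q.1, q.2 + 9 / 8 * bmp q.1.re) := rfl

/-- a neighbourhood of the knot in the box -/
def ThW_O : Set E :=
  {q | |q.2| < 1 / 64 ∧ -(33 / 1024) < q.1.im ∧ q.1.im < 1 / 1024} ∪
    {q | |q.2 - 1| < 1 / 64 ∧ -(3 / 64) < q.1.re ∧ q.1.re < 1 / 64}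

theorem ThW_re : Continuous fun q : E => q.1.re := Complex.continuous_re.comp continuous_fst
theorem ThW_im : Continuous fun q : E => q.1.im := Complex.continuous_im.comp continuous_fst

theorem ThW_O_open : IsOpen ThW_O := by
  apply IsOpen.union
  · exact (isOpen_lt continuous_snd.abs continuous_const).inter
      ((isOpen_lt continuous_const ThW_im).inter (isOpen_lt ThW_im continuous_const))
  · exact (isOpen_lt (continuous_snd.sub continuous_const).abs continuous_const).inter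
      ((isOpen_lt continuous_const ThW_re).inter (isOpen_lt ThW_re continuous_const))

theorem ThW_norm (q : E) : ‖q.1‖ ≤ |q.1.re| + |q.1.im| := Complex.norm_le_abs_re_add_abs_im q.1

theorem ThW_bdd {S : Set E} (h : ∀ q ∈ S, |q.1.re| ≤ 1 / 2 ∧ |q.1.im| ≤ 1 / 2 ∧ |q.2| ≤ 2) :
    Bornology.IsBounded S := by
  apply (Metric.isBounded_closedBall (x := (0 : E)) (r := 2)).subset
  intro q hq
  obtain ⟨h1, h2, h3⟩ := h q hq
  rw [mem_closedBall_zero_iff, Prod.norm_def]
  refine max_le ?_ ?_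
  · have := ThW_norm q
    linarith
  · rw [Real.norm_eq_abs]
    exact h3

theorem ThW_QCW_compact : IsCompact QCW := by
  apply Metric.isCompact_of_isClosed_isBounded
  · exact (isClosed_le ThW_re.abs continuous_const).inter
      ((isClosed_le continuous_const ThW_im).inter ((isClosed_le ThW_im continuous_const).inter
        ((isClosed_le continuous_const continuous_snd).inter (isClosed_le continuous_snd continuous_const))))
  · apply ThW_bdd
    rintro q ⟨h1, h2, h3, h4, h5⟩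
    refine ⟨by linarith, ?_, ?_⟩
    · rw [abs_le]
      constructor <;> linarith
    · rw [abs_le]
      constructor <;> linarith

theorem ThW_QA_compact : IsCompact QA := by
  apply Metric.isCompact_of_isClosed_isBounded
  · exact (isClosed_le ThW_re.abs continuous_const).inter
      ((isClosed_le continuous_const ThW_im).inter ((isClosed_le ThW_im continuous_const).inter
        (isClosed_le continuous_snd.abs continuous_const)))
  · apply ThW_bdd
    rintro q ⟨h1, h2, h3, h4⟩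
    refine ⟨by linarith, ?_, by linarith⟩
    rw [abs_le]
    constructor <;> linarith

end

theorem Psi_in {W : E → N} (hW : Cht TD W) {q : E} (hq : q ∈ QA) : Psi W (W q) = W (q.1, q.2 + 9 / 8 * bmp q.1.re) := by
  have hqT : q ∈ TD := QCW_sub (QA_sub hq)
  have h : ∃ q' ∈ QA, W q' = W q := ⟨q, hq, rfl⟩
  have h1 : h.choose = q := hW.inj (QCW_sub (QA_sub h.choose_spec.1)) hqT h.choose_spec.2
  unfold Psi
  rw [dif_pos h, h1]

theorem Psi_out {W : E → N} {y : N} (hy : y ∉ W '' QA) : Psi W y = y := by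
  unfold Psi
  rw [dif_neg]
  rintro ⟨q, hq, he⟩
  exact hy ⟨q, hq, he⟩

section
variable {N : Type u} [TopologicalSpace N] [ChartedSpace E3 N]

theorem ThW_not {W : E → N} (hW : Cht TD W) {q : E} (hq : q ∈ TD) (h : q ∉ QA) : W q ∉ W '' QA := by
  rintro ⟨q', hq', he⟩
  have := hW.inj (QCW_sub (QA_sub hq')) hq he
  rw [this] at hq'
  exact h hq'

/-- `Psi W` is the shear in the slab -/
theorem ThW_slab {W : E → N} (hW : Cht TD W) {q : E} (hq : q ∈ TD) (h1 : -(13 / 384) ≤ q.1.im)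
    (h2 : q.1.im ≤ 1 / 384) (h3 : |q.2| ≤ 1 / 16) : Psi W (W q) = W (ThW_sh q) := by
  by_cases h : |q.1.re| ≤ 1 / 8
  · exact Psi_in hW ⟨h, h1, h2, h3⟩
  · push Not at h
    rw [Psi_out (ThW_not hW hq fun hn => absurd hn.1 (not_le.mpr h)), ThW_sh_apply, bmp_zero h.le,
      mul_zero, add_zero]

/-- there is a thin tube which avoids a compact set -/
theorem ThW_thin [T2Space N] {κ : ℝ × ℂ → N} (hκ : Thick κ) {C : Set N} (hC : IsCompact C)
    (hd : ∀ l, κ (l, 0) ∉ C) : ∃ r : ℝ, 0 < r ∧ r ≤ 1 ∧ ∀ l v, ‖v‖ < r → κ (l, v) ∉ C := by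
  have hopen : IsOpen {q : ℝ × ℂ | ‖q.2‖ < 1} := isOpen_lt continuous_snd.norm continuous_const
  have hO : IsOpen ({q : ℝ × ℂ | ‖q.2‖ < 1} ∩ κ ⁻¹' Cᶜ) :=
    (thick_cont hκ).isOpen_inter_preimage hopen hC.isClosed.isOpen_compl
  obtain ⟨u, v, hu, hv, hu1, hv1, huv⟩ := generalized_tube_lemma (isCompact_Icc (a := (0 : ℝ)) (b := 1))
    (isCompact_singleton (x := (0 : ℂ))) hO (by
      rintro ⟨s, w⟩ ⟨_, hw⟩
      have hw' : w = 0 := hw
      rw [hw']
      refine ⟨?_, hd s⟩
      show ‖(0 : ℂ)‖ < 1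
      rw [norm_zero]
      exact one_pos)
  obtain ⟨r, hr, hrv⟩ := Metric.isOpen_iff.mp hv 0 (hv1 rfl)
  refine ⟨min r 1, lt_min hr one_pos, min_le_right _ _, ?_⟩
  intro l w hw
  have hper : Function.Periodic (fun l : ℝ => κ (l, w)) 1 := fun l => hκ.per l w
  have h1 : κ (Int.fract l, w) = κ (l, w) := by
    have := hper.sub_zsmul_eq (x := l) ⌊l⌋
    have e : l - ⌊l⌋ • (1 : ℝ) = Int.fract l := by
      rw [zsmul_eq_mul, mul_one]
      rfl
    rw [e] at this
    exact this
  rw [← h1]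
  have h2 : (Int.fract l, w) ∈ u ×ˢ v := by
    refine ⟨hu1 ⟨Int.fract_nonneg l, (Int.fract_lt_one l).le⟩, hrv ?_⟩
    rw [mem_ball_zero_iff]
    exact lt_of_lt_of_le hw (min_le_left _ _)
  exact (huv h2).2

end

theorem kW_thick [T2Space N] {κ : ℝ × ℂ → N} (hκ : Thick κ) {B W : E → N} (S : SP (core κ) B W) :
    ∃ r : ℝ, 0 < r ∧ r ≤ 1 ∧ ∀ η : ℝ, 0 < η → η ≤ r → Thick (kW κ W η) ∧ core (kW κ W η) = KW (core κ) W := by
  have hW := S.chtW
  have hcomp : IsCompact (W '' (QCW \ ThW_O)) :=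
    (ThW_QCW_compact.diff ThW_O_open).image_of_continuousOn
      ((cht_cont hW).mono fun q hq => QCW_sub hq.1)
  have hTS : ∀ q ∈ TS2, q ∈ ThW_O := by
    rintro q ⟨_, ⟨h1, h2⟩ | ⟨h1, h2⟩⟩
    · left
      refine ⟨?_, ?_, ?_⟩
      · show |q.2| < 1 / 64
        rw [h1, abs_zero]
        norm_num
      · show -(33 / 1024) < q.1.im
        rcases h2 with h2 | h2 <;> rw [h2] <;> norm_num
      · show q.1.im < 1 / 1024
        rcases h2 with h2 | h2 <;> rw [h2] <;> norm_num
    · right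
      refine ⟨?_, ?_, ?_⟩
      · show |q.2 - 1| < 1 / 64
        rw [h1, sub_self, abs_zero]
        norm_num
      · show -(3 / 64) < q.1.re
        rcases h2 with h2 | h2 <;> rw [h2] <;> norm_num
      · show q.1.re < 1 / 64
        rcases h2 with h2 | h2 <;> rw [h2] <;> norm_num
  have hhit : ∀ q ∈ TD, W q ∈ core κ → q ∈ TS2 := by
    intro q hq hc
    have : W q ∈ core κ ∩ W '' TD := ⟨hc, q, hq, rfl⟩
    rw [S.hitW] at this
    obtain ⟨q', hq', he⟩ := this
    have := hW.inj (TS2_sub hq') hq he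
    rwa [← this]
  obtain ⟨r, hr0, hr1, hr⟩ := ThW_thin hκ hcomp (by
    rintro l ⟨q, ⟨hq1, hq2⟩, he⟩
    exact hq2 (hTS q (hhit q (QCW_sub hq1) ⟨l, he.symm⟩)))
  refine ⟨r, hr0, hr1, ?_⟩
  intro η hη hηr
  have hη1 : η ≤ 1 := hηr.trans hr1
  have hkap := thick_kap hκ hη hη1
  have hkW : kW κ W η = Psi W ∘ kap κ η := rfl
  -- points of the tube
  have htube : ∀ (l : ℝ) (v : ℂ), ‖v‖ < 1 → ∀ q ∈ QCW, W q = kap κ η (l, v) → q ∈ ThW_O := by
    intro l v hv q hq he
    by_contra hn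
    have hv' : ‖(η : ℂ) * v‖ < r := by
      rw [norm_mul, Complex.norm_real, Real.norm_eq_abs, abs_of_pos hη]
      calc η * ‖v‖ < η * 1 := mul_lt_mul_of_pos_left hv hη
        _ ≤ r := by rw [mul_one]; exact hηr
    exact hr l _ hv' ⟨q, ⟨hq, hn⟩, he⟩
  have htubeA : ∀ (l : ℝ) (v : ℂ), ‖v‖ < 1 → ∀ q ∈ QA, W q = kap κ η (l, v) →
      |q.2| < 1 / 64 ∧ -(33 / 1024) < q.1.im ∧ q.1.im < 1 / 1024 := by
    intro l v hv q hq he
    rcases htube l v hv q (QA_sub hq) he with h | h
    · exact h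
    · exfalso
      have h1 := abs_le.mp hq.2.2.2
      have h2 := abs_lt.mp h.1
      linarith [h1.2, h2.1]
  -- local diffeomorphism
  have hloc : ∀ (l : ℝ) (v : ℂ), ‖v‖ < 1 →
      IsLocalDiffeomorphAt (𝓡 3) (𝓡 3) ∞ (Psi W) (kap κ η (l, v)) := by
    intro l v hv
    by_cases hy : kap κ η (l, v) ∈ W '' QA
    · obtain ⟨q, hq, he⟩ := hy
      obtain ⟨a1, a2, a3⟩ := htubeA l v hv q hq he
      have hqT : q ∈ TD := QCW_sub (QA_sub hq)
      have hsq : ThW_sh q ∈ TD := by
        refine ⟨hqT.1, ?_, ?_⟩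
        · show -(1 / 4) < q.2 + 9 / 8 * bmp q.1.re
          have := bmp_nonneg q.1.re
          linarith [(abs_lt.mp a1).1]
        · show q.2 + 9 / 8 * bmp q.1.re < 5 / 4
          have := bmp_le q.1.re
          linarith [(abs_lt.mp a1).2]
      rw [← he]
      have e1 : IsLocalDiffeomorphAt 𝓘(ℝ, ℂ × ℝ) 𝓘(ℝ, ℂ × ℝ) ∞ ThW_sh q :=
        ThW_sh.isLocalDiffeomorph q
      have e2 : IsLocalDiffeomorphAt 𝓘(ℝ, ℂ × ℝ) (𝓡 3) ∞ (W ∘ ThW_sh) q :=
        IsLocalDiffeomorphAt.comp (hf := e1) (hg := hW.loc _ hsq) ..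
      have e3 : Psi W ∘ W =ᶠ[𝓝 q] W ∘ ThW_sh := by
        have o1 : IsOpen {q : E | -(33 / 1024) < q.1.im ∧ q.1.im < 1 / 1024 ∧ |q.2| < 1 / 64} :=
          (isOpen_lt continuous_const ThW_im).inter ((isOpen_lt ThW_im continuous_const).inter
            (isOpen_lt continuous_snd.abs continuous_const))
        filter_upwards [TD_open.mem_nhds hqT, o1.mem_nhds ⟨a2, a3, a1⟩] with q' hq' hq''
        obtain ⟨b1, b2, b3⟩ := hq''
        exact ThW_slab hW hq' (by linarith) (by linarith) (by linarith)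
      exact CSG.ld_of_comp_left (CSG.ld_congr e2 e3) (hW.loc q hqT)
    · have hcl : IsClosed (W '' QA) :=
        (ThW_QA_compact.image_of_continuousOn ((cht_cont hW).mono fun q hq => QCW_sub (QA_sub hq))).isClosed
      have e1 : Psi W =ᶠ[𝓝 (kap κ η (l, v))] id := by
        filter_upwards [hcl.isOpen_compl.mem_nhds hy] with y hy'
        exact Psi_out hy'
      exact CSG.ld_congr (CSG.ld_id _) e1
  -- injectivity
  have hmix : ∀ (l l' : ℝ) (v v' : ℂ), ‖v‖ < 1 → ‖v'‖ < 1 → ∀ q ∈ QA, W q = kap κ η (l, v) →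
      kap κ η (l', v') ∉ W '' QA → W (ThW_sh q) ≠ kap κ η (l', v') := by
    intro l l' v v' hv hv' q hq he hn he'
    obtain ⟨a1, a2, a3⟩ := htubeA l v hv q hq he
    have b1 := bmp_nonneg q.1.re
    have b2 := bmp_le q.1.re
    have c1 := abs_lt.mp a1
    have hQ : ThW_sh q ∈ QCW := by
      refine ⟨hq.1, hq.2.1, hq.2.2.1, ?_, ?_⟩
      · show -(1 / 16) ≤ q.2 + 9 / 8 * bmp q.1.re
        linarith [c1.1]
      · show q.2 + 9 / 8 * bmp q.1.re ≤ 19 / 16
        linarith [c1.2]
    rcases htube l' v' hv' _ hQ he' with h | h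
    · apply hn
      rw [← he']
      refine ⟨ThW_sh q, ⟨hq.1, hq.2.1, hq.2.2.1, ?_⟩, rfl⟩
      have h1 : |(ThW_sh q).2| < 1 / 64 := h.1
      linarith
    · obtain ⟨h1, h2, h3⟩ := h
      have h2' : -(3 / 64) < q.1.re := h2
      have h3' : q.1.re < 1 / 64 := h3
      have h4 : bmp q.1.re = 1 := bmp_one (by
        rw [abs_le]
        constructor <;> linarith)
      have h5 : |q.2 + 9 / 8 * bmp q.1.re - 1| < 1 / 64 := h1
      rw [h4] at h5
      have h6 := (abs_lt.mp h5).2
      linarith [c1.1]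
  have hinj : ∀ (l l' : ℝ) (v v' : ℂ), ‖v‖ < 1 → ‖v'‖ < 1 →
      Psi W (kap κ η (l, v)) = Psi W (kap κ η (l', v')) → kap κ η (l, v) = kap κ η (l', v') := by
    intro l l' v v' hv hv' he
    by_cases h1 : kap κ η (l, v) ∈ W '' QA
    · obtain ⟨q, hq, hqe⟩ := h1
      by_cases h2 : kap κ η (l', v') ∈ W '' QA
      · obtain ⟨q', hq', hqe'⟩ := h2
        obtain ⟨a1, a2, a3⟩ := htubeA l v hv q hq hqe
        obtain ⟨a1', a2', a3'⟩ := htubeA l' v' hv' q' hq' hqe'
        have hT : ∀ q : E, q ∈ QA → |q.2| < 1 / 64 → ThW_sh q ∈ TD := by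
          intro q hq a1
          refine ⟨(QCW_sub (QA_sub hq)).1, ?_, ?_⟩
          · show -(1 / 4) < q.2 + 9 / 8 * bmp q.1.re
            have := bmp_nonneg q.1.re
            linarith [(abs_lt.mp a1).1]
          · show q.2 + 9 / 8 * bmp q.1.re < 5 / 4
            have := bmp_le q.1.re
            linarith [(abs_lt.mp a1).2]
        rw [← hqe, ← hqe', Psi_in hW hq, Psi_in hW hq'] at he
        have h3 : ThW_sh q = ThW_sh q' := hW.inj (hT q hq a1) (hT q' hq' a1') he
        have h4 : q = q' := ThW_sh.injective h3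
        rw [← hqe, ← hqe', h4]
      · exfalso
        rw [← hqe, Psi_in hW hq, Psi_out h2] at he
        exact hmix l l' v v' hv hv' q hq hqe h2 he
    · by_cases h2 : kap κ η (l', v') ∈ W '' QA
      · exfalso
        obtain ⟨q', hq', hqe'⟩ := h2
        rw [← hqe', Psi_in hW hq', Psi_out h1] at he
        exact hmix l' l v' v hv' hv q' hq' hqe' h1 he.symm
      · rw [Psi_out h1, Psi_out h2] at he
        exact he
  constructor
  · refine ⟨?_, ?_, ?_⟩
    · intro l v
      show Psi W (kap κ η (l + 1, v)) = Psi W (kap κ η (l, v))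
      rw [hkap.per]
    · intro l v hv
      rw [hkW]
      exact IsLocalDiffeomorphAt.comp (hf := hkap.loc l v hv) (hg := hloc l v hv) ..
    · intro l v l' v' hv hv' he
      exact hkap.inj l v l' v' hv hv' (hinj l l' v v' hv hv' he)
  · -- the core
    have hcore : core (kW κ W η) = Psi W '' core κ := by
      unfold core
      rw [← range_comp]
      congr 1
      funext l
      show Psi W (κ (l, (η : ℂ) * 0)) = Psi W (κ (l, 0))
      rw [mul_zero]
    rw [hcore]
    have hnot : ∀ y, y ∉ W '' TD → Psi W y = y := fun y hy =>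
      Psi_out fun hn => hy (image_mono (fun q hq => QCW_sub (QA_sub hq)) hn)
    -- vertical pair
    have hver : ∀ q ∈ TD, q.2 = 1 → Psi W (W q) = W q := by
      intro q hq h
      apply Psi_out
      apply ThW_not hW hq
      intro hn
      have h1 := hn.2.2.2
      rw [h] at h1
      norm_num at h1
    have hhor : ∀ q ∈ TD, q.2 = 0 → (q.1.im = 0 ∨ q.1.im = -(1 / 32)) → Psi W (W q) = W (ThW_sh q) := by
      intro q hq h h'
      apply ThW_slab hW hq
      · rcases h' with h' | h' <;> rw [h'] <;> norm_num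
      · rcases h' with h' | h' <;> rw [h'] <;> norm_num
      · rw [h, abs_zero]
        norm_num
    apply Subset.antisymm
    · rintro _ ⟨y, hy, rfl⟩
      by_cases hyT : y ∈ W '' TD
      · right
        obtain ⟨q, hq, rfl⟩ := hyT
        obtain ⟨_, hq2⟩ := hhit q hq hy
        rcases hq2 with ⟨h1, h2⟩ | ⟨h1, h2⟩
        · rw [hhor q hq h1 h2]
          refine ⟨ThW_sh q, ⟨?_, Or.inl ⟨?_, h2⟩⟩, rfl⟩
          · refine ⟨hq.1, ?_, ?_⟩
            · show -(1 / 4) < q.2 + 9 / 8 * bmp q.1.re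
              have := bmp_nonneg q.1.re
              rw [h1]
              linarith
            · show q.2 + 9 / 8 * bmp q.1.re < 5 / 4
              have := bmp_le q.1.re
              rw [h1]
              linarith
          · show q.2 + 9 / 8 * bmp q.1.re = 9 / 8 * bmp q.1.re
            rw [h1, zero_add]
        · rw [hver q hq h1]
          exact ⟨q, ⟨hq, Or.inr ⟨h1, h2⟩⟩, rfl⟩
      · left
        rw [hnot y hyT]
        exact ⟨hy, hyT⟩
    · rintro y (⟨hy, hyT⟩ | ⟨q, ⟨hq, hq2⟩, rfl⟩)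
      · exact ⟨y, hy, hnot y hyT⟩
      · rcases hq2 with ⟨h1, h2⟩ | ⟨h1, h2⟩
        · have hq0 : ((q.1, 0) : E) ∈ TD := by
            refine ⟨hq.1, ?_, ?_⟩
            · show -(1 / 4 : ℝ) < 0
              norm_num
            · show (0 : ℝ) < 5 / 4
              norm_num
          have hm : W (q.1, 0) ∈ core κ := by
            have : W (q.1, 0) ∈ W '' TS2 := ⟨(q.1, 0), ⟨hq0, Or.inl ⟨rfl, h2⟩⟩, rfl⟩
            rw [← S.hitW] at this
            exact this.1
          refine ⟨W (q.1, 0), hm, ?_⟩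
          rw [hhor (q.1, 0) hq0 rfl h2]
          have : ThW_sh (q.1, 0) = q := by
            rw [ThW_sh_apply]
            refine Prod.ext rfl ?_
            show 0 + 9 / 8 * bmp q.1.re = q.2
            rw [zero_add, h1]
          rw [this]
        · have hm : W q ∈ core κ := by
            have : W q ∈ W '' TS2 := ⟨q, ⟨hq, Or.inr ⟨h1, h2⟩⟩, rfl⟩
            rw [← S.hitW] at this
            exact this.1
          exact ⟨W q, hm, hver q hq h1⟩

end Pool.Agent.NHR
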