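import Mathlib
import Pool.Agent.NHR.Defs
import Pool.Agent.NHR.Geo
import Pool.Agent.NHR.Rib
import Pool.Agent.NHR.ThW

/-!
# NHR/Cmn: transfer of chords between `κ` and `kW κ W η` (difficulty 3)

`kW κ W η (l, v) = κ (l, η v)` if `κ (l, η v) ∉ QC B W` (`Psi_out`, `QA ⊆ QCW`); so near the feet `p`, `p'` (`hoff`), `kap (kW κ W η) (η' / η)` and `kap κ η'` agree on the end tubes (`ε < r`), for
`η' ≤ η`.  `rib_chd`.
-/

open scoped Manifold ContDiff Topology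
open Set Filter
open Pool.Agent.CSG (stp)
open Pool.Agent.RSG (E3 ex Thick)
open Pool.Agent.KNT (Dom Str Str2 bmp)
open Pool.Agent.NHP

namespace Pool.Agent.NHR

universe u v

variable {N : Type u} [TopologicalSpace N] [ChartedSpace E3 N]

theorem Cmn_eq {κ : ℝ × ℂ → N} {B W : E → N} {η r p η' : ℝ} (hη : 0 < η) (hη' : 0 < η') (hle : η' ≤ η)
    (h1 : ∀ l : ℝ, |l - p| < r → ∀ v : ℂ, ‖v‖ ≤ η → κ (l, v) ∉ QC B W) {l : ℝ} (hl : |l - p| < r) {v : ℂ}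
    (hv : ‖v‖ ≤ 1) : kap (kW κ W η) (η' / η) (l, v) = kap κ η' (l, v) := by
  have e1 : (η : ℂ) * (((η' / η : ℝ) : ℂ) * v) = (η' : ℂ) * v := by
    rw [← mul_assoc, ← Complex.ofReal_mul]
    congr 2
    field_simp
  have e2 : ‖(η' : ℂ) * v‖ ≤ η := by
    rw [norm_mul, Complex.norm_real, Real.norm_eq_abs, abs_of_pos hη']
    calc η' * ‖v‖ ≤ η' * 1 := mul_le_mul_of_nonneg_left hv hη'.le
      _ ≤ η := by rw [mul_one]; exact hle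
  have e3 : κ (l, (η' : ℂ) * v) ∉ W '' QA := by
    rintro ⟨q, hq, h2⟩
    exact h1 l hl _ e2 (Or.inr ⟨q, QA_sub hq, h2⟩)
  change Psi W (κ (l, (η : ℂ) * (((η' / η : ℝ) : ℂ) * v))) = κ (l, (η' : ℂ) * v)
  rw [e1]
  exact Psi_out e3

theorem Cmn_norm {ε a b : ℝ} (hε : 0 < ε) (hε1 : ε < 1 / 4) (ha : |a| ≤ 1 / 4) (hb : |b| ≤ 1) :
    ‖(ε : ℂ) * ⟨a, b⟩‖ ≤ 1 := by
  rw [norm_mul, Complex.norm_real, Real.norm_eq_abs, abs_of_pos hε]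
  have h1 : ‖(⟨a, b⟩ : ℂ)‖ ≤ |a| + |b| := Complex.norm_le_abs_re_add_abs_im (⟨a, b⟩ : ℂ)
  have h2 : 0 ≤ ‖(⟨a, b⟩ : ℂ)‖ := norm_nonneg _
  nlinarith

theorem Cmn_std {κ : ℝ × ℂ → N} {B W : E → N} {η r p p' η' ε : ℝ} (hη : 0 < η)
    (hη' : 0 < η') (hle : η' ≤ η) (hr : ε ≤ r) (ha : Adm p p' ε)
    (h1 : ∀ l : ℝ, |l - p| < r → ∀ v : ℂ, ‖v‖ ≤ η → κ (l, v) ∉ QC B W)
    (h2 : ∀ l : ℝ, |l - p'| < r → ∀ v : ℂ, ‖v‖ ≤ η → κ (l, v) ∉ QC B W) {T : E → N} :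
    StdE (kap (kW κ W η) (η' / η)) p p' ε 1 T ↔ StdE (kap κ η') p p' ε 1 T := by
  have hε := ha.pos
  have f1 : ∀ q ∈ TD, q.2 < 1 / 4 → footT (kap (kW κ W η) (η' / η)) p ε q = footT (kap κ η') p ε q := by
    intro q hq hq2
    have a1 : |q.1.re| < 1 := (Complex.abs_re_le_norm q.1).trans_lt hq.1
    have a2 : |q.1.im| < 1 := (Complex.abs_im_le_norm q.1).trans_lt hq.1
    have a3 : |q.2| ≤ 1 / 4 := abs_le.2 ⟨hq.2.1.le, hq2.le⟩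
    unfold footT
    refine Cmn_eq hη hη' hle h1 ?_ (Cmn_norm hε ha.lt a3 a2.le)
    rw [add_sub_cancel_left, abs_mul, abs_of_pos hε]
    calc ε * |q.1.re| < ε * 1 := mul_lt_mul_of_pos_left a1 hε
      _ ≤ r := by rw [mul_one]; exact hr
  have f2 : ∀ q ∈ TD, 3 / 4 < q.2 → tipT (kap (kW κ W η) (η' / η)) p' ε 1 q = tipT (kap κ η') p' ε 1 q := by
    intro q hq hq2
    have a1 : |q.1.re| < 1 := (Complex.abs_re_le_norm q.1).trans_lt hq.1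
    have a2 : |q.1.im| < 1 := (Complex.abs_im_le_norm q.1).trans_lt hq.1
    have a3 : |1 - q.2| ≤ 1 / 4 := abs_le.2 ⟨by linarith [hq.2.2], by linarith⟩
    unfold tipT
    refine Cmn_eq hη hη' hle h2 ?_ (Cmn_norm hε ha.lt a3 a1.le)
    rw [add_sub_cancel_left, one_mul, abs_mul, abs_of_pos hε]
    calc ε * |q.1.im| < ε * 1 := mul_lt_mul_of_pos_left a2 hε
      _ ≤ r := by rw [mul_one]; exact hr
  constructor
  · intro h
    exact ⟨fun q hq hq2 => (h.foot q hq hq2).trans (f1 q hq hq2), fun q hq hq2 => (h.tip q hq hq2).trans (f2 q hq hq2)⟩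
  · intro h
    exact ⟨fun q hq hq2 => (h.foot q hq hq2).trans (f1 q hq hq2).symm,
      fun q hq hq2 => (h.tip q hq hq2).trans (f2 q hq hq2).symm⟩

theorem finE_kW {κ : ℝ × ℂ → N} {B W : E → N} (S : SP (core κ) B W) {η r p p' η' ε : ℝ} (hη : 0 < η)
    (hc : core (kW κ W η) = KW (core κ) W) (hη' : 0 < η') (hle : η' ≤ η) (hη1 : η ≤ 1) (hr : ε ≤ r)
    (h1 : ∀ l : ℝ, |l - p| < r → ∀ v : ℂ, ‖v‖ ≤ η → κ (l, v) ∉ QC B W)
    (h2 : ∀ l : ℝ, |l - p'| < r → ∀ v : ℂ, ‖v‖ ≤ η → κ (l, v) ∉ QC B W) {T : E → N} (hd : Disjoint (T '' TD) (QC B W)) :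
    FinE (kW κ W η) p p' (η' / η) ε T ↔ FinE κ p p' η' ε T := by
  constructor
  · rintro ⟨-, -, a3, a4, a5⟩
    rw [hc, rib_chd S hd] at a4
    exact ⟨hη', hle.trans hη1, a3, a4, (Cmn_std hη hη' hle hr a3 h1 h2).1 a5⟩
  · rintro ⟨-, -, a3, a4, a5⟩
    refine ⟨div_pos hη' hη, (div_le_one hη).2 hle, a3, ?_, (Cmn_std hη hη' hle hr a3 h1 h2).2 a5⟩
    rw [hc, rib_chd S hd]
    exact a4

end Pool.Agent.NHR
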