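import Mathlib
import Pool.Agent.NHR.Defs
import Pool.Agent.NHR.Geo
import Pool.Agent.NHP.Grp

/-!
# NHR/Bdl: the untwisted tube `Bd T δ τ` (difficulty 2)

`Bd T δ τ = T ∘ ρ`, `ρ (u, x) = (ex (τ/4 stp (1/4) (3/4) x) δ u, x)`, an injective local diffeomorphism `TD → TD`.
`x < 1/4`: `ρ (u, x) = (δ u, x)`; `x > 3/4`: `ρ (u, x) = (τ i δ u, x)`.  `T (w, x) = κ (P + ε re w, -η ε (x + i im w))` for `x < 1/4`,
`T (w, x) = κ (P₂ + ε im w, -η ε (1 - x + i re w))` for `x > 3/4`.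
-/

open scoped Manifold ContDiff Topology
open Set Filter
open Pool.Agent.CSG (stp)
open Pool.Agent.RSG (E3 ex Thick)
open Pool.Agent.KNT (Dom Str Str2 bmp)
open Pool.Agent.NHP

namespace Pool.Agent.NHR

universe u v

theorem Bdl_ex_add (x y : ℝ) : ex (x + y) = ex x * ex y := by
  unfold ex
  rw [← Complex.exp_add]
  congr 1
  push_cast
  ring

theorem Bdl_ex_zero : ex 0 = 1 := by
  unfold ex
  simp

theorem Bdl_ex_norm (x : ℝ) : ‖ex x‖ = 1 := by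
  unfold ex
  exact Complex.norm_exp_ofReal_mul_I _

theorem Bdl_ex_smooth : ContDiff ℝ ∞ ex := by
  unfold ex
  apply Complex.contDiff_exp.comp
  apply ContDiff.mul _ contDiff_const
  have h : ContDiff ℝ ∞ (fun x : ℝ => 2 * Real.pi * x) := by fun_prop
  exact Complex.ofRealCLM.contDiff.comp h

theorem Bdl_ex_quarter : ex (1 / 4) = Complex.I := by
  unfold ex
  rw [show 2 * Real.pi * (1 / 4) = Real.pi / 2 by ring]
  push_cast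
  exact Complex.exp_pi_div_two_mul_I

theorem Bdl_ex_mul (x : ℝ) : ex x * ex (-x) = 1 := by
  rw [← Bdl_ex_add, add_neg_cancel, Bdl_ex_zero]

theorem Bdl_ex_quarter' : ex (-(1 / 4)) = -Complex.I := by
  have h := Bdl_ex_mul (1 / 4)
  rw [Bdl_ex_quarter] at h
  calc ex (-(1 / 4)) = -(Complex.I * Complex.I) * ex (-(1 / 4)) := by rw [Complex.I_mul_I]; ring
    _ = -Complex.I * (Complex.I * ex (-(1 / 4))) := by ring
    _ = -Complex.I := by rw [h, mul_one]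

theorem Bdl_ex_tau {τ : ℝ} (hτ : τ = 1 ∨ τ = -1) : ex (τ / 4) = (τ : ℂ) * Complex.I := by
  rcases hτ with rfl | rfl
  · rw [Bdl_ex_quarter, Complex.ofReal_one, one_mul]
  · rw [show (-1 : ℝ) / 4 = -(1 / 4) by norm_num, Bdl_ex_quarter']
    push_cast
    ring

/-- the coordinate change -/
noncomputable def Bdl_r (δ τ : ℝ) (q : E) : E := (ex (τ / 4 * stp (1 / 4) (3 / 4) q.2) * ((δ : ℂ) * q.1), q.2)

/-- its inverse -/
noncomputable def Bdl_s (δ τ : ℝ) (q : E) : E := (ex (-(τ / 4 * stp (1 / 4) (3 / 4) q.2)) * (((δ⁻¹ : ℝ) : ℂ) * q.1), q.2)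

theorem Bdl_sr {δ τ : ℝ} (hδ : 0 < δ) (q : E) : Bdl_s δ τ (Bdl_r δ τ q) = q := by
  refine Prod.ext ?_ rfl
  change ex (-(τ / 4 * stp (1 / 4) (3 / 4) q.2)) * (((δ⁻¹ : ℝ) : ℂ) *
    (ex (τ / 4 * stp (1 / 4) (3 / 4) q.2) * ((δ : ℂ) * q.1))) = q.1
  have h := Bdl_ex_mul (τ / 4 * stp (1 / 4) (3 / 4) q.2)
  have h2 : ((δ⁻¹ : ℝ) : ℂ) * (δ : ℂ) = 1 := by
    rw [← Complex.ofReal_mul, inv_mul_cancel₀ hδ.ne', Complex.ofReal_one]
  calc _ = (ex (τ / 4 * stp (1 / 4) (3 / 4) q.2) * ex (-(τ / 4 * stp (1 / 4) (3 / 4) q.2))) *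
        (((δ⁻¹ : ℝ) : ℂ) * (δ : ℂ)) * q.1 := by ring
    _ = q.1 := by rw [h, h2, one_mul, one_mul]

theorem Bdl_rs {δ τ : ℝ} (hδ : 0 < δ) (q : E) : Bdl_r δ τ (Bdl_s δ τ q) = q := by
  refine Prod.ext ?_ rfl
  change ex (τ / 4 * stp (1 / 4) (3 / 4) q.2) * ((δ : ℂ) *
    (ex (-(τ / 4 * stp (1 / 4) (3 / 4) q.2)) * (((δ⁻¹ : ℝ) : ℂ) * q.1))) = q.1
  have h := Bdl_ex_mul (τ / 4 * stp (1 / 4) (3 / 4) q.2)
  have h2 : ((δ⁻¹ : ℝ) : ℂ) * (δ : ℂ) = 1 := by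
    rw [← Complex.ofReal_mul, inv_mul_cancel₀ hδ.ne', Complex.ofReal_one]
  calc _ = (ex (τ / 4 * stp (1 / 4) (3 / 4) q.2) * ex (-(τ / 4 * stp (1 / 4) (3 / 4) q.2))) *
        (((δ⁻¹ : ℝ) : ℂ) * (δ : ℂ)) * q.1 := by ring
    _ = q.1 := by rw [h, h2, one_mul, one_mul]

theorem Bdl_r_smooth (δ τ : ℝ) : ContDiff ℝ ∞ (Bdl_r δ τ) := by
  have h1 : ContDiff ℝ ∞ fun q : E => τ / 4 * stp (1 / 4) (3 / 4) q.2 :=
    contDiff_const.mul ((Pool.Agent.CSG.stp_smooth (1 / 4) (3 / 4)).comp contDiff_snd)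
  exact ((Bdl_ex_smooth.comp h1).mul (contDiff_const.mul contDiff_fst)).prodMk contDiff_snd

theorem Bdl_s_smooth (δ τ : ℝ) : ContDiff ℝ ∞ (Bdl_s δ τ) := by
  have h1 : ContDiff ℝ ∞ fun q : E => -(τ / 4 * stp (1 / 4) (3 / 4) q.2) :=
    (contDiff_const.mul ((Pool.Agent.CSG.stp_smooth (1 / 4) (3 / 4)).comp contDiff_snd)).neg
  exact ((Bdl_ex_smooth.comp h1).mul (contDiff_const.mul contDiff_fst)).prodMk contDiff_snd

theorem Bdl_bij {f g : E → E} (hf : ContDiff ℝ ∞ f) (hg : ContDiff ℝ ∞ g) (h1 : ∀ q, g (f q) = q) (h2 : ∀ q, f (g q) = q)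
    (q : E) : Function.Bijective (fderiv ℝ f q) := by
  have a1 : HasFDerivAt f (fderiv ℝ f q) q := (hf.differentiable (by simp) q).hasFDerivAt
  have a2 : HasFDerivAt g (fderiv ℝ g (f q)) (f q) := (hg.differentiable (by simp) _).hasFDerivAt
  have a3 : HasFDerivAt f (fderiv ℝ f q) (g (f q)) := by rw [h1]; exact a1
  have b1 := a2.comp q a1
  have b2 := a3.comp (f q) a2
  have c1 : g ∘ f = id := funext h1
  have c2 : f ∘ g = id := funext h2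
  rw [c1] at b1
  rw [c2] at b2
  have d1 := b1.unique (hasFDerivAt_id q)
  have d2 := b2.unique (hasFDerivAt_id (f q))
  constructor
  · intro x y hxy
    have e1 := congrArg (fun L : E →L[ℝ] E => L x) d1
    have e2 := congrArg (fun L : E →L[ℝ] E => L y) d1
    change (fderiv ℝ g (f q)) ((fderiv ℝ f q) x) = x at e1
    change (fderiv ℝ g (f q)) ((fderiv ℝ f q) y) = y at e2
    rw [← e1, ← e2, hxy]
  · intro y
    have e1 := congrArg (fun L : E →L[ℝ] E => L y) d2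
    exact ⟨_, e1⟩

theorem Bdl_norm {δ τ : ℝ} (hδ : 0 < δ) (q : E) : ‖(Bdl_r δ τ q).1‖ = δ * ‖q.1‖ := by
  change ‖ex (τ / 4 * stp (1 / 4) (3 / 4) q.2) * ((δ : ℂ) * q.1)‖ = _
  rw [norm_mul, Bdl_ex_norm, one_mul, norm_mul, Complex.norm_real, Real.norm_eq_abs, abs_of_pos hδ]

theorem Bdl_TD {δ τ : ℝ} (hδ : 0 < δ) (hδ1 : δ ≤ 1) {q : E} (hq : q ∈ TD) : Bdl_r δ τ q ∈ TD := by
  refine ⟨?_, hq.2.1, hq.2.2⟩
  rw [Bdl_norm hδ]
  calc δ * ‖q.1‖ ≤ 1 * ‖q.1‖ := mul_le_mul_of_nonneg_right hδ1 (norm_nonneg _)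
    _ < 1 := by rw [one_mul]; exact hq.1

/-- `x ≤ 1/4` -/
theorem Bdl_low (δ τ : ℝ) {q : E} (h : q.2 ≤ 1 / 4) : Bdl_r δ τ q = ((⟨δ * q.1.re, δ * q.1.im⟩ : ℂ), q.2) := by
  refine Prod.ext ?_ rfl
  change ex (τ / 4 * stp (1 / 4) (3 / 4) q.2) * ((δ : ℂ) * q.1) = _
  rw [Pool.Agent.CSG.stp_zero (by norm_num) h, mul_zero, Bdl_ex_zero, one_mul]
  apply Complex.ext
  · rw [Complex.re_ofReal_mul]
  · rw [Complex.im_ofReal_mul]

/-- `3/4 ≤ x` -/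
theorem Bdl_high (δ : ℝ) {τ : ℝ} (hτ : τ = 1 ∨ τ = -1) {q : E} (h : 3 / 4 ≤ q.2) :
    Bdl_r δ τ q = ((⟨-(τ * δ * q.1.im), τ * δ * q.1.re⟩ : ℂ), q.2) := by
  refine Prod.ext ?_ rfl
  change ex (τ / 4 * stp (1 / 4) (3 / 4) q.2) * ((δ : ℂ) * q.1) = _
  rw [Pool.Agent.CSG.stp_one (by norm_num) h, mul_one, Bdl_ex_tau hτ]
  have e : (τ : ℂ) * Complex.I * ((δ : ℂ) * q.1) = ((τ * δ : ℝ) : ℂ) * (Complex.I * q.1) := by
    push_cast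
    ring
  rw [e]
  apply Complex.ext
  · rw [Complex.re_ofReal_mul, Complex.I_mul_re]
    change τ * δ * -q.1.im = -(τ * δ * q.1.im)
    ring
  · rw [Complex.im_ofReal_mul, Complex.I_mul_im]

variable {N : Type u} [TopologicalSpace N] [ChartedSpace E3 N]

omit [TopologicalSpace N] [ChartedSpace E3 N] in
theorem Bdl_eq (T : E → N) (δ τ : ℝ) (q : E) : Bd T δ τ q = T (Bdl_r δ τ q) := rfl

theorem Bd_cht {T : E → N} (hT : Cht TD T) {δ τ : ℝ} (hδ : 0 < δ) (hδ1 : δ ≤ 1) : Cht TD (Bd T δ τ) :=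
  hT.comp (f := Bdl_r δ τ) TD_open (fun _ _ => (Bdl_r_smooth δ τ).contDiffAt)
    (fun q _ => Bdl_bij (Bdl_r_smooth δ τ) (Bdl_s_smooth δ τ) (Bdl_sr hδ) (Bdl_rs hδ) q)
    (fun a _ b _ h => by rw [← Bdl_sr (τ := τ) hδ a, h, Bdl_sr hδ]) (fun q hq => Bdl_TD hδ hδ1 hq)

theorem Bd_sub {T : E → N} {δ τ : ℝ} (hδ : 0 < δ) (hδ1 : δ ≤ 1) : Bd T δ τ '' TD ⊆ T '' TD := by
  rintro _ ⟨q, hq, rfl⟩
  exact ⟨_, Bdl_TD hδ hδ1 hq, rfl⟩

theorem Bd_hit {K : Set N} {T : E → N} (hT : Chd K T) {δ τ : ℝ} (hδ : 0 < δ) (hδ1 : δ ≤ 1) (hτ : τ = 1 ∨ τ = -1) :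
    K ∩ Bd T δ τ '' TD = Bd T δ τ '' TSB := by
  have hτ0 : τ ≠ 0 := by
    rcases hτ with rfl | rfl <;> norm_num
  apply Subset.antisymm
  · rintro _ ⟨hK, q, hq, rfl⟩
    have hq' := Bdl_TD (τ := τ) hδ hδ1 hq
    have h1 : T (Bdl_r δ τ q) ∈ T '' TS := by
      rw [← hT.hit]
      exact ⟨hK, _, hq', rfl⟩
    obtain ⟨q', hq1, h2⟩ := h1
    have h3 : q' = Bdl_r δ τ q := hT.cht.inj hq1.1 hq' h2
    rw [h3] at hq1
    refine ⟨q, ⟨hq, ?_⟩, rfl⟩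
    rcases hq1.2 with ⟨h4, h5⟩ | ⟨h4, h5⟩
    · change q.2 = 0 at h4
      rw [Bdl_low δ τ (by rw [h4]; norm_num)] at h5
      change δ * q.1.im = 0 at h5
      exact ⟨(mul_eq_zero.1 h5).resolve_left hδ.ne', Or.inl h4⟩
    · change q.2 = 1 at h4
      rw [Bdl_high δ hτ (by rw [h4]; norm_num)] at h5
      change -(τ * δ * q.1.im) = 0 at h5
      rw [neg_eq_zero] at h5
      exact ⟨(mul_eq_zero.1 h5).resolve_left (mul_ne_zero hτ0 hδ.ne'), Or.inr h4⟩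
  · rintro _ ⟨q, ⟨hq, h1, h2⟩, rfl⟩
    have h3 : Bdl_r δ τ q ∈ TS := by
      refine ⟨Bdl_TD hδ hδ1 hq, ?_⟩
      rcases h2 with h2 | h2
      · left
        refine ⟨h2, ?_⟩
        rw [Bdl_low δ τ (by rw [h2]; norm_num)]
        change δ * q.1.im = 0
        rw [h1, mul_zero]
      · right
        refine ⟨h2, ?_⟩
        rw [Bdl_high δ hτ (by rw [h2]; norm_num)]
        change -(τ * δ * q.1.im) = 0
        rw [h1, mul_zero, neg_zero]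
    have h4 : T (Bdl_r δ τ q) ∈ K ∩ T '' TD := by
      rw [hT.hit]
      exact ⟨_, h3, rfl⟩
    exact ⟨h4.1, q, hq, rfl⟩

theorem Bd_lnk {κ : ℝ × ℂ → N} {P P₂ η ε δ τ : ℝ} (hη : 0 < η) (hη1 : η ≤ 1) (hε : 0 < ε) (hε1 : ε < 1 / 4)
    (hδ : 0 < δ) (hδ1 : δ ≤ 1) (hτ : τ = 1 ∨ τ = -1) {T : E → N} (hT : StdE (kap (rot κ (-1)) η) P P₂ ε 1 T) :
    Lnk κ (Bd T δ τ) P P₂ (ε * δ) (η * ε) (η * ε * δ) τ := by
  have a1 : ε * δ ≤ ε := mul_le_of_le_one_right hε.le hδ1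
  have a2 : η * ε ≤ ε := mul_le_of_le_one_left hε.le hη1
  have a3 : η * ε * δ ≤ η * ε := mul_le_of_le_one_right (mul_pos hη hε).le hδ1
  refine ⟨mul_pos hε hδ, by linarith, mul_pos hη hε, by linarith, mul_pos (mul_pos hη hε) hδ, by linarith, hτ, ?_, ?_⟩
  · intro q hq hq2
    rw [Bdl_eq, hT.foot _ (Bdl_TD hδ hδ1 hq) hq2, Bdl_low δ τ hq2.le]
    change κ (P + ε * (δ * q.1.re), (-1 : ℂ) * ((η : ℂ) * ((ε : ℂ) * ⟨q.2, δ * q.1.im⟩)))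
      = κ (P + ε * δ * q.1.re, -⟨η * ε * q.2, η * ε * δ * q.1.im⟩)
    have e1 : P + ε * (δ * q.1.re) = P + ε * δ * q.1.re := by ring
    have e2 : (-1 : ℂ) * ((η : ℂ) * ((ε : ℂ) * ⟨q.2, δ * q.1.im⟩)) = -⟨η * ε * q.2, η * ε * δ * q.1.im⟩ := by
      rw [neg_one_mul]
      congr 1
      apply Complex.ext
      · rw [Complex.re_ofReal_mul, Complex.re_ofReal_mul]
        change η * (ε * q.2) = η * ε * q.2
        ring
      · rw [Complex.im_ofReal_mul, Complex.im_ofReal_mul]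
        change η * (ε * (δ * q.1.im)) = η * ε * δ * q.1.im
        ring
    rw [e1, e2]
  · intro q hq hq2
    rw [Bdl_eq, hT.tip _ (Bdl_TD hδ hδ1 hq) hq2, Bdl_high δ hτ hq2.le]
    change κ (P₂ + 1 * ε * (τ * δ * q.1.re), (-1 : ℂ) * ((η : ℂ) * ((ε : ℂ) * ⟨1 - q.2, -(τ * δ * q.1.im)⟩)))
      = κ (P₂ + τ * (ε * δ) * q.1.re, -⟨η * ε * (1 - q.2), -(τ * (η * ε * δ) * q.1.im)⟩)
    have e1 : P₂ + 1 * ε * (τ * δ * q.1.re) = P₂ + τ * (ε * δ) * q.1.re := by ring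
    have e2 : (-1 : ℂ) * ((η : ℂ) * ((ε : ℂ) * ⟨1 - q.2, -(τ * δ * q.1.im)⟩))
        = -⟨η * ε * (1 - q.2), -(τ * (η * ε * δ) * q.1.im)⟩ := by
      rw [neg_one_mul]
      congr 1
      apply Complex.ext
      · rw [Complex.re_ofReal_mul, Complex.re_ofReal_mul]
        change η * (ε * (1 - q.2)) = η * ε * (1 - q.2)
        ring
      · rw [Complex.im_ofReal_mul, Complex.im_ofReal_mul]
        change η * (ε * -(τ * δ * q.1.im)) = -(τ * (η * ε * δ) * q.1.im)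
        ring
    rw [e1, e2]

theorem Bd_core (T : E → N) (δ τ x : ℝ) : Bd T δ τ (0, x) = T (0, x) := by
  rw [Bdl_eq]
  congr 1
  refine Prod.ext ?_ rfl
  change ex (τ / 4 * stp (1 / 4) (3 / 4) x) * ((δ : ℂ) * 0) = 0
  rw [mul_zero, mul_zero]

/-- the slab of a thin tube is near the core of the chord -/
theorem Bd_small {T : E → N} (hT : Cht TD T) {O : Set N} (hO : IsOpen O)
    (h : ∀ x ∈ Icc (-(1 / 5) : ℝ) (6 / 5), T (0, x) ∈ O) :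
    ∃ r > 0, ∀ δ τ : ℝ, 0 < δ → δ ≤ r → ∀ q : E, ‖q.1‖ ≤ 1 → -(1 / 5) ≤ q.2 → q.2 ≤ 6 / 5 → Bd T δ τ q ∈ O := by
  have hA : IsOpen (TD ∩ T ⁻¹' O) := (cht_cont hT).isOpen_inter_preimage TD_open hO
  let C : Set E := (fun x : ℝ => ((0 : ℂ), x)) '' Icc (-(1 / 5)) (6 / 5)
  have hC : IsCompact C := isCompact_Icc.image (by fun_prop)
  have hCA : C ⊆ TD ∩ T ⁻¹' O := by
    rintro _ ⟨x, hx, rfl⟩
    refine ⟨⟨?_, ?_, ?_⟩, h x hx⟩
    · change ‖(0 : ℂ)‖ < 1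
      rw [norm_zero]
      exact one_pos
    · change -(1 / 4 : ℝ) < x
      linarith [hx.1]
    · change x < 5 / 4
      linarith [hx.2]
  obtain ⟨d, hd, hdA⟩ := hC.exists_thickening_subset_open hA hCA
  refine ⟨d / 2, half_pos hd, ?_⟩
  intro δ τ hδ hδd q h1 h2 h3
  have h4 : Bdl_r δ τ q ∈ Metric.thickening d C := by
    rw [Metric.mem_thickening_iff]
    refine ⟨((0 : ℂ), q.2), ⟨q.2, ⟨h2, h3⟩, rfl⟩, ?_⟩
    rw [Prod.dist_eq]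
    have e1 : dist (Bdl_r δ τ q).1 (0 : ℂ) = δ * ‖q.1‖ := by rw [dist_zero_right, Bdl_norm hδ]
    have e2 : dist (Bdl_r δ τ q).2 q.2 = 0 := dist_self _
    change max (dist (Bdl_r δ τ q).1 (0 : ℂ)) (dist (Bdl_r δ τ q).2 q.2) < d
    rw [e1, e2]
    apply max_lt _ hd
    calc δ * ‖q.1‖ ≤ δ * 1 := mul_le_mul_of_nonneg_left h1 hδ.le
      _ < d := by rw [mul_one]; linarith
  exact (hdA h4).2

end Pool.Agent.NHR
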