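import Mathlib
import Pool.Agent.NHR.Defs
import Pool.Agent.CSG.FunBasic

/-!
# NHR/Pin: the pinch (difficulty 3)

`x (1 - (1 - l) c χ(x))`, `χ = 1` on `[-9/64, 73/64]`, `0` off `[-3/16, 19/16]`, `0 ≤ c ≤ 1`, has derivative `≥ l` (since
`x χ'(x) ≤ 0`), and is the identity off `[-3/16, 19/16]`: a diffeomorphism of `ℝ`, smooth in `c = pnC u`.
`pnC`: product / sum of bump functions: `1` if `|im u| ≤ 1/640` and (`|re u| ≤ 3/128` or `|re u - 5/16| ≤ 3/128`); `0` if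
`|im u| ≥ 1/512` or (`|re u| ≥ 1/32` and `|re u - 5/16| ≥ 1/32`); use `stp` of squares.
The inverse function is smooth by the inverse function theorem.
-/

open scoped Manifold ContDiff Topology
open Set Filter
open Pool.Agent.CSG (stp)
open Pool.Agent.RSG (E3 ex Thick)
open Pool.Agent.KNT (Dom Str Str2 bmp)
open Pool.Agent.NHP

namespace Pool.Agent.NHR

universe u v

/-- cut-off in the direction `x` -/
noncomputable def Pin_chi (x : ℝ) : ℝ := stp (-(3 / 16)) (-(9 / 64)) x * (1 - stp (73 / 64) (19 / 16) x)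

/-- cut-off in the direction `u` -/
noncomputable def Pin_c (u : ℂ) : ℝ := (1 - stp ((1 / 640) ^ 2) ((1 / 512) ^ 2) (u.im ^ 2)) *
  (1 - stp ((3 / 128) ^ 2) ((1 / 32) ^ 2) (u.re ^ 2) * stp ((3 / 128) ^ 2) ((1 / 32) ^ 2) ((u.re - 5 / 16) ^ 2))

theorem Pin_chi_smooth : ContDiff ℝ ∞ Pin_chi :=
  (CSG.stp_smooth _ _).mul (contDiff_const.sub (CSG.stp_smooth _ _))

theorem Pin_c_smooth : ContDiff ℝ ∞ Pin_c := by
  unfold Pin_c
  refine ContDiff.mul ?_ ?_
  · exact contDiff_const.sub ((CSG.stp_smooth _ _).comp (Complex.imCLM.contDiff.pow 2))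
  · refine contDiff_const.sub (ContDiff.mul ?_ ?_)
    · exact (CSG.stp_smooth _ _).comp (Complex.reCLM.contDiff.pow 2)
    · exact (CSG.stp_smooth _ _).comp ((Complex.reCLM.contDiff.sub contDiff_const).pow 2)

theorem Pin_chi_mem (x : ℝ) : 0 ≤ Pin_chi x ∧ Pin_chi x ≤ 1 := by
  unfold Pin_chi
  have h1 := CSG.stp_nonneg (-(3 / 16)) (-(9 / 64)) x
  have h2 := CSG.stp_le_one (-(3 / 16)) (-(9 / 64)) x
  have h3 := CSG.stp_nonneg (73 / 64) (19 / 16) x
  have h4 := CSG.stp_le_one (73 / 64) (19 / 16) x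
  constructor
  · exact mul_nonneg h1 (by linarith)
  · nlinarith

theorem Pin_c_mem (u : ℂ) : 0 ≤ Pin_c u ∧ Pin_c u ≤ 1 := by
  unfold Pin_c
  have h1 := CSG.stp_nonneg ((1 / 640) ^ 2) ((1 / 512) ^ 2) (u.im ^ 2)
  have h2 := CSG.stp_le_one ((1 / 640) ^ 2) ((1 / 512) ^ 2) (u.im ^ 2)
  have h3 := CSG.stp_nonneg ((3 / 128) ^ 2) ((1 / 32) ^ 2) (u.re ^ 2)
  have h4 := CSG.stp_le_one ((3 / 128) ^ 2) ((1 / 32) ^ 2) (u.re ^ 2)
  have h5 := CSG.stp_nonneg ((3 / 128) ^ 2) ((1 / 32) ^ 2) ((u.re - 5 / 16) ^ 2)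
  have h6 := CSG.stp_le_one ((3 / 128) ^ 2) ((1 / 32) ^ 2) ((u.re - 5 / 16) ^ 2)
  have h7 := mul_nonneg h3 h5
  have h8 := mul_le_one₀ h4 h5 h6
  constructor
  · exact mul_nonneg (by linarith) (by linarith)
  · exact mul_le_one₀ (by linarith) (by linarith) (by linarith)

/-- `x χ'(x) ≤ 0` -/
theorem Pin_chi_deriv (x : ℝ) : ∃ d : ℝ, HasDerivAt Pin_chi d x ∧ x * d ≤ 0 := by
  have e1 : HasDerivAt (stp (-(3 / 16)) (-(9 / 64))) (deriv (stp (-(3 / 16)) (-(9 / 64))) x) x :=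
    ((CSG.stp_smooth _ _).differentiable (by simp) x).hasDerivAt
  have e2 : HasDerivAt (stp (73 / 64) (19 / 16)) (deriv (stp (73 / 64) (19 / 16)) x) x :=
    ((CSG.stp_smooth _ _).differentiable (by simp) x).hasDerivAt
  have h1 : 0 ≤ deriv (stp (-(3 / 16)) (-(9 / 64))) x := CSG.stp_deriv_nonneg (by norm_num) x
  have h2 : 0 ≤ deriv (stp (73 / 64) (19 / 16)) x := CSG.stp_deriv_nonneg (by norm_num) x
  have h3 := CSG.stp_nonneg (-(3 / 16)) (-(9 / 64)) x
  have h4 := CSG.stp_le_one (73 / 64) (19 / 16) x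
  refine ⟨_, e1.mul ((hasDerivAt_const x (1 : ℝ)).sub e2), ?_⟩
  rcases le_total x 0 with hx | hx
  · have : deriv (stp (73 / 64) (19 / 16)) x = 0 := by
      have : stp (73 / 64) (19 / 16) =ᶠ[𝓝 x] fun _ => 0 := by
        filter_upwards [gt_mem_nhds (show x < 73 / 64 by linarith)] with y hy
        exact CSG.stp_zero (by norm_num) hy.le
      rw [this.deriv_eq, deriv_const]
    rw [this]
    simp only [sub_zero, mul_zero, add_zero]
    have h5 := mul_nonneg h1 (sub_nonneg.2 h4)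
    nlinarith
  · have : deriv (stp (-(3 / 16)) (-(9 / 64))) x = 0 := by
      have : stp (-(3 / 16)) (-(9 / 64)) =ᶠ[𝓝 x] fun _ => 1 := by
        filter_upwards [lt_mem_nhds (show -(9 / 64) < x by linarith)] with y hy
        exact CSG.stp_one (by norm_num) hy.le
      rw [this.deriv_eq, deriv_const]
    rw [this]
    have h5 := mul_nonneg h3 h2
    nlinarith

/-- the map -/
noncomputable def Pin_f (l : ℝ) (q : E) : ℝ := q.2 * (1 - (1 - l) * Pin_c q.1 * Pin_chi q.2)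

theorem Pin_f_smooth (l : ℝ) : ContDiff ℝ ∞ (Pin_f l) := by
  unfold Pin_f
  refine contDiff_snd.mul (contDiff_const.sub ?_)
  exact (contDiff_const.mul (Pin_c_smooth.comp contDiff_fst)).mul (Pin_chi_smooth.comp contDiff_snd)

theorem Pin_f_deriv {l : ℝ} (h0 : 0 < l) (h1 : l ≤ 1) (u : ℂ) (x : ℝ) :
    ∃ d : ℝ, 0 < d ∧ HasDerivAt (fun x => Pin_f l (u, x)) d x := by
  obtain ⟨d, hd, hxd⟩ := Pin_chi_deriv x
  have hc := Pin_c_mem u
  have hχ := Pin_chi_mem x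
  refine ⟨_, ?_, (hasDerivAt_id x).mul ((hasDerivAt_const x (1 : ℝ)).sub (hd.const_mul ((1 - l) * Pin_c u)))⟩
  simp only [id_eq, one_mul, zero_sub]
  have k0 : 0 ≤ (1 - l) * Pin_c u := mul_nonneg (by linarith) hc.1
  have k1 : (1 - l) * Pin_c u ≤ 1 - l := by nlinarith
  have k2 : (1 - l) * Pin_c u * Pin_chi x ≤ 1 - l := by nlinarith
  have k3 : x * ((1 - l) * Pin_c u * d) ≤ 0 := by
    have : x * ((1 - l) * Pin_c u * d) = (1 - l) * Pin_c u * (x * d) := by ring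
    rw [this]
    exact mul_nonpos_of_nonneg_of_nonpos k0 hxd
  nlinarith

theorem Pin_f_out {l : ℝ} (q : E) (h : 1 / 512 ≤ |q.1.im| ∨ (1 / 32 ≤ |q.1.re| ∧ 1 / 32 ≤ |q.1.re - 5 / 16|) ∨
    q.2 ≤ -(3 / 16) ∨ 19 / 16 ≤ q.2) : Pin_f l q = q.2 := by
  have : Pin_c q.1 * Pin_chi q.2 = 0 := by
    rcases h with h | h | h | h
    · have : stp ((1 / 640) ^ 2) ((1 / 512) ^ 2) (q.1.im ^ 2) = 1 := by
        apply CSG.stp_one (by norm_num)
        rw [← sq_abs q.1.im]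
        exact pow_le_pow_left₀ (by norm_num) h 2
      unfold Pin_c
      rw [this]
      ring
    · have e1 : stp ((3 / 128) ^ 2) ((1 / 32) ^ 2) (q.1.re ^ 2) = 1 := by
        apply CSG.stp_one (by norm_num)
        rw [← sq_abs q.1.re]
        exact pow_le_pow_left₀ (by norm_num) h.1 2
      have e2 : stp ((3 / 128) ^ 2) ((1 / 32) ^ 2) ((q.1.re - 5 / 16) ^ 2) = 1 := by
        apply CSG.stp_one (by norm_num)
        rw [← sq_abs (q.1.re - 5 / 16)]
        exact pow_le_pow_left₀ (by norm_num) h.2 2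
      unfold Pin_c
      rw [e1, e2]
      ring
    · unfold Pin_chi
      rw [CSG.stp_zero (by norm_num) h]
      ring
    · unfold Pin_chi
      rw [CSG.stp_one (a := 73 / 64) (by norm_num) h]
      ring
  unfold Pin_f
  rw [mul_assoc, this]
  ring

theorem Pin_f_in {l : ℝ} (q : E) (h1 : |q.1.im| ≤ 1 / 640) (h2 : |q.1.re| ≤ 3 / 128 ∨ |q.1.re - 5 / 16| ≤ 3 / 128)
    (h3 : -(9 / 64) ≤ q.2) (h4 : q.2 ≤ 73 / 64) : Pin_f l q = l * q.2 := by
  have e1 : stp ((1 / 640) ^ 2) ((1 / 512) ^ 2) (q.1.im ^ 2) = 0 := by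
    apply CSG.stp_zero (by norm_num)
    rw [← sq_abs q.1.im]
    exact pow_le_pow_left₀ (abs_nonneg _) h1 2
  have e2 : stp ((3 / 128) ^ 2) ((1 / 32) ^ 2) (q.1.re ^ 2) * stp ((3 / 128) ^ 2) ((1 / 32) ^ 2) ((q.1.re - 5 / 16) ^ 2) = 0 := by
    rcases h2 with h | h
    · rw [CSG.stp_zero (a := (3 / 128) ^ 2) (x := q.1.re ^ 2) (by norm_num)
        (by rw [← sq_abs q.1.re]; exact pow_le_pow_left₀ (abs_nonneg _) h 2)]
      ring
    · rw [CSG.stp_zero (a := (3 / 128) ^ 2) (x := (q.1.re - 5 / 16) ^ 2) (by norm_num)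
        (by rw [← sq_abs (q.1.re - 5 / 16)]; exact pow_le_pow_left₀ (abs_nonneg _) h 2)]
      ring
  unfold Pin_f Pin_c Pin_chi
  rw [e1, e2, CSG.stp_one (by norm_num) h3, CSG.stp_zero (by norm_num) h4]
  ring

/-- the pinch exists: `F (u, x) = (u, f u x)` -/
theorem exists_pinch {l : ℝ} (h0 : 0 < l) (h1 : l ≤ 1) : ∃ F : Equiv.Perm E, ContDiff ℝ ∞ F ∧ ContDiff ℝ ∞ F.symm ∧
    (∀ q, (F q).1 = q.1) ∧ (∀ u : ℂ, F (u, 0) = (u, 0)) ∧
    (∀ q : E, |q.1.im| ≤ 1 / 640 → (|q.1.re| ≤ 3 / 128 ∨ |q.1.re - 5 / 16| ≤ 3 / 128) → -(9 / 64) ≤ q.2 → q.2 ≤ 73 / 64 →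
      F q = (q.1, l * q.2)) ∧
    (∀ q : E, 1 / 512 ≤ |q.1.im| ∨ (1 / 32 ≤ |q.1.re| ∧ 1 / 32 ≤ |q.1.re - 5 / 16|) ∨ q.2 ≤ -(3 / 16) ∨ 19 / 16 ≤ q.2 →
      F q = q) := by
  let f : E → E := fun q => (q.1, Pin_f l q)
  have hf : ContDiff ℝ ∞ f := contDiff_fst.prodMk (Pin_f_smooth l)
  have hmono : ∀ u : ℂ, StrictMono fun x => Pin_f l (u, x) := by
    intro u
    apply strictMono_of_deriv_pos
    intro x
    obtain ⟨d, hd, hd'⟩ := Pin_f_deriv h0 h1 u x
    rw [hd'.deriv]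
    exact hd
  have hcont : ∀ u : ℂ, Continuous fun x => Pin_f l (u, x) := fun u =>
    (Pin_f_smooth l).continuous.comp (by fun_prop)
  have hsurj : ∀ u : ℂ, Function.Surjective fun x => Pin_f l (u, x) := by
    intro u
    refine (hcont u).surjective ?_ ?_
    · refine (tendsto_id (α := ℝ) (x := atTop)).congr' ?_
      filter_upwards [eventually_ge_atTop (19 / 16 : ℝ)] with x hx
      exact (Pin_f_out (u, x) (Or.inr (Or.inr (Or.inr hx)))).symm
    · refine (tendsto_id (α := ℝ) (x := atBot)).congr' ?_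
      filter_upwards [eventually_le_atBot (-(3 / 16) : ℝ)] with x hx
      exact (Pin_f_out (u, x) (Or.inr (Or.inr (Or.inl hx)))).symm
  have hbij : Function.Bijective f := by
    constructor
    · rintro ⟨u, x⟩ ⟨u', x'⟩ h
      have e1 : u = u' := congrArg Prod.fst h
      subst e1
      have e2 : Pin_f l (u, x) = Pin_f l (u, x') := congrArg Prod.snd h
      rw [(hmono u).injective e2]
    · rintro ⟨u, y⟩
      obtain ⟨x, hx⟩ := hsurj u y
      exact ⟨(u, x), Prod.ext rfl hx⟩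
  -- the derivative is invertible
  have hder : ∀ q : E, ∃ A : E ≃L[ℝ] E, HasFDerivAt f (A : E →L[ℝ] E) q := by
    intro q
    have hfq : HasFDerivAt f (fderiv ℝ f q) q := (hf.differentiable (by simp) q).hasFDerivAt
    have e1 : (ContinuousLinearMap.fst ℝ ℂ ℝ).comp (fderiv ℝ f q) = ContinuousLinearMap.fst ℝ ℂ ℝ := by
      have h2 : HasFDerivAt (fun q : E => (f q).1) ((ContinuousLinearMap.fst ℝ ℂ ℝ).comp (fderiv ℝ f q)) q :=
        hfq.fst
      have h3 : HasFDerivAt (fun q : E => (f q).1) (ContinuousLinearMap.fst ℝ ℂ ℝ) q := hasFDerivAt_fst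
      exact h2.unique h3
    obtain ⟨d, hd, hd'⟩ := Pin_f_deriv h0 h1 q.1 q.2
    have e2 : ∀ t : ℝ, (fderiv ℝ f q (0, t)).2 = t * d := by
      intro t
      have h2 : HasFDerivAt (fun x : ℝ => (f (q.1, x)).2)
          ((ContinuousLinearMap.snd ℝ ℂ ℝ).comp ((fderiv ℝ f q).comp (ContinuousLinearMap.inr ℝ ℂ ℝ))) q.2 := by
        have h3 := HasFDerivAt.comp q.2 (f := fun x : ℝ => (q.1, x)) hfq (hasFDerivAt_prodMk_right q.1 q.2)
        exact (ContinuousLinearMap.snd ℝ ℂ ℝ).hasFDerivAt.comp q.2 h3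
      have h4 := h2.unique hd'.hasFDerivAt
      have h5 := congrArg (fun L : ℝ →L[ℝ] ℝ => L t) h4
      simpa using h5
    have hinj : Function.Injective (fderiv ℝ f q) := by
      rw [injective_iff_map_eq_zero]
      rintro ⟨w, t⟩ hw
      have e3 : (fderiv ℝ f q (w, t)).1 = w := congrArg (fun L : E →L[ℝ] ℂ => L (w, t)) e1
      rw [hw] at e3
      have e4 : w = 0 := e3.symm
      subst e4
      have e5 := e2 t
      rw [hw] at e5
      have e6 : t = 0 := by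
        have : t * d = 0 := e5.symm
        rcases mul_eq_zero.1 this with h | h
        · exact h
        · exact absurd h hd.ne'
      rw [e6]
      rfl
    let A : E ≃L[ℝ] E := (LinearEquiv.ofInjectiveEndo (fderiv ℝ f q : E →ₗ[ℝ] E) hinj).toContinuousLinearEquiv
    refine ⟨A, ?_⟩
    have : (A : E →L[ℝ] E) = fderiv ℝ f q := by
      ext x <;> rfl
    rw [this]
    exact hfq
  choose A hA using hder
  let F : Equiv.Perm E := Equiv.ofBijective f hbij
  have hopen : IsOpenMap f := by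
    rw [isOpenMap_iff_nhds_le]
    intro q
    have h2 : HasStrictFDerivAt f (A q : E →L[ℝ] E) q :=
      hf.contDiffAt.hasStrictFDerivAt' (hA q) (by simp)
    exact h2.map_nhds_eq_of_equiv.ge
  let Fh : E ≃ₜ E := F.toHomeomorphOfContinuousOpen hf.continuous hopen
  have hFs : ContDiff ℝ ∞ Fh.symm := Fh.contDiff_symm (f₀' := A) hA hf
  refine ⟨F, hf, hFs, fun q => rfl, fun u => ?_, fun q a1 a2 a3 a4 => ?_, fun q a => ?_⟩
  · show (u, Pin_f l (u, 0)) = (u, 0)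
    simp [Pin_f]
  · show (q.1, Pin_f l q) = (q.1, l * q.2)
    rw [Pin_f_in q a1 a2 a3 a4]
  · show (q.1, Pin_f l q) = q
    rw [Pin_f_out q a]

end Pool.Agent.NHR
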