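import Mathlib
import Pool.Agent.NHR.Defs
import Pool.Agent.NHR.Geo
import Pool.Agent.NHR.Pin

/-!
# NHR/Cwd: the special configuration from two chords (difficulty 4)

`K = core κ`.  `T` is a chord of `K`, standard with respect to `κ₁ = kap (rot κ (-1)) η`: `T (w, x) = κ (P + ε re w, -η ε (x + i im w))`
for `x < 1/4`, `T (w, x) = κ (P₂ + ε im w, -η ε (1 - x + i re w))` for `x > 3/4`.  `B = Bd T δ τ`.  `Θ` is a chord of `K`, standard with
respect to `rot κ₁ I`, foot `P`, tip `P + 5/16 ε δ`, radius `ε δ / 64`, its middle part is disjoint from `B '' SlabT`.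
With `ε' = ε δ / 64`: `Θ q = B (fa q)` for `q.2 < 1/4`, `fa q = (⟨re w / 64, x / 64⟩, -(δ / 64) im w)`;
`Θ q = B (fb q)` for `q.2 > 3/4`, `fb q = (⟨5/16 + im w / 64, (1 - x) / 64⟩, -(δ / 64) re w)`.
`W q = B (F⁻¹ (fa q))` for `q.2 < 1/4`, `B (F⁻¹ (fb q))` for `q.2 > 3/4`, `Θ q` otherwise; `F` the pinch with `l = δ / 2048`.
For `1/8 ≤ x < 1/4` the pinch is the identity at `fa q` (`im ≥ 1/512`), so `W = Θ` there: `W` is a local diffeomorphism.
Injectivity: `F⁻¹ (fa q) ≠ fa q` implies `F⁻¹ (fa q) ∈ SlabT` (`|im| < 1/512`, `|re| < 1/32`, `-3/16 ≤ x ≤ 19/16`), which is not in the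
middle part of `Θ`; foot against tip: `re ∈ (-1/64, 1/64)`, `re ∈ 5/16 + (-1/64, 1/64)`.
`hitW`: `B r ∈ K` iff `r ∈ TSB` (`im r = 0`, i.e. `x = 0`; `x_r ∈ {0, 1}`, then `F r = (.., l x_r)`, `-(δ / 64) im w = l x_r`, `im w = -x_r / 32`).
`sep`: `r ∈ Slab`, `|re r| < 1/64`: `F r = (r.1, l r.2) = fa q`.  `relA`: `F (ja q) = fa q`.
The statement on `B` itself (`chtB`, `hitB`, `Lnk`) is in `Bdl`.
-/

open scoped Manifold ContDiff Topology
open Set Filter
open Pool.Agent.CSG (stp)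
open Pool.Agent.RSG (E3 ex Thick)
open Pool.Agent.KNT (Dom Str Str2 bmp)
open Pool.Agent.NHP

namespace Pool.Agent.NHR

universe u v


/-- the foot of the short chord, in the chart `B` -/
noncomputable def Cwd_fa (δ : ℝ) (q : E) : E := (⟨q.1.re / 64, q.2 / 64⟩, -(δ / 64 * q.1.im))

/-- the tip of the short chord, in the chart `B` -/
noncomputable def Cwd_fb (δ : ℝ) (q : E) : E := (⟨5 / 16 + q.1.im / 64, (1 - q.2) / 64⟩, -(δ / 64 * q.1.re))

theorem Cwd_mk {V : Type*} [NormedAddCommGroup V] [NormedSpace ℝ V] {a b : V → ℝ} (ha : ContDiff ℝ ∞ a) (hb : ContDiff ℝ ∞ b) :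
    ContDiff ℝ ∞ fun v => (⟨a v, b v⟩ : ℂ) :=
  Complex.equivRealProdCLM.symm.contDiff.comp (ha.prodMk hb)

theorem Cwd_re : ContDiff ℝ ∞ fun q : E => q.1.re := Complex.reCLM.contDiff.comp contDiff_fst

theorem Cwd_im : ContDiff ℝ ∞ fun q : E => q.1.im := Complex.imCLM.contDiff.comp contDiff_fst

/-- `fa` as an equivalence -/
noncomputable def Cwd_ea (δ : ℝ) (h : δ ≠ 0) : E ≃ E where
  toFun := Cwd_fa δ
  invFun q := (⟨64 * q.1.re, -(64 / δ * q.2)⟩, 64 * q.1.im)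
  left_inv q := by
    have h1 : 64 / δ * (δ / 64 * q.1.im) = q.1.im := by field_simp
    refine Prod.ext (Complex.ext ?_ ?_) ?_
    · show 64 * (q.1.re / 64) = q.1.re
      ring
    · show -(64 / δ * -(δ / 64 * q.1.im)) = q.1.im
      rw [mul_neg, neg_neg, h1]
    · show 64 * (q.2 / 64) = q.2
      ring
  right_inv q := by
    have h1 : δ / 64 * (64 / δ * q.2) = q.2 := by field_simp
    refine Prod.ext (Complex.ext ?_ ?_) ?_
    · show 64 * q.1.re / 64 = q.1.re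
      ring
    · show 64 * q.1.im / 64 = q.1.im
      ring
    · show -(δ / 64 * -(64 / δ * q.2)) = q.2
      rw [mul_neg, neg_neg, h1]

/-- `fb` as an equivalence -/
noncomputable def Cwd_eb (δ : ℝ) (h : δ ≠ 0) : E ≃ E where
  toFun := Cwd_fb δ
  invFun q := (⟨-(64 / δ * q.2), 64 * (q.1.re - 5 / 16)⟩, 1 - 64 * q.1.im)
  left_inv q := by
    have h1 : 64 / δ * (δ / 64 * q.1.re) = q.1.re := by field_simp
    refine Prod.ext (Complex.ext ?_ ?_) ?_
    · show -(64 / δ * -(δ / 64 * q.1.re)) = q.1.re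
      rw [mul_neg, neg_neg, h1]
    · show 64 * (5 / 16 + q.1.im / 64 - 5 / 16) = q.1.im
      ring
    · show 1 - 64 * ((1 - q.2) / 64) = q.2
      ring
  right_inv q := by
    have h1 : δ / 64 * (64 / δ * q.2) = q.2 := by field_simp
    refine Prod.ext (Complex.ext ?_ ?_) ?_
    · show 5 / 16 + 64 * (q.1.re - 5 / 16) / 64 = q.1.re
      ring
    · show (1 - (1 - 64 * q.1.im)) / 64 = q.1.im
      ring
    · show -(δ / 64 * -(64 / δ * q.2)) = q.2
      rw [mul_neg, neg_neg, h1]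

theorem Cwd_ea_smooth (δ : ℝ) (h : δ ≠ 0) : ContDiff ℝ ∞ (Cwd_ea δ h) :=
  (Cwd_mk (Cwd_re.div_const 64) (contDiff_snd.div_const 64)).prodMk (contDiff_const.mul Cwd_im).neg

theorem Cwd_ea_symm (δ : ℝ) (h : δ ≠ 0) : ContDiff ℝ ∞ (Cwd_ea δ h).symm :=
  (Cwd_mk (contDiff_const.mul Cwd_re) (contDiff_const.mul contDiff_snd).neg).prodMk (contDiff_const.mul Cwd_im)

theorem Cwd_eb_smooth (δ : ℝ) (h : δ ≠ 0) : ContDiff ℝ ∞ (Cwd_eb δ h) :=
  (Cwd_mk (contDiff_const.add (Cwd_im.div_const 64)) ((contDiff_const.sub contDiff_snd).div_const 64)).prodMk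
    (contDiff_const.mul Cwd_re).neg

theorem Cwd_eb_symm (δ : ℝ) (h : δ ≠ 0) : ContDiff ℝ ∞ (Cwd_eb δ h).symm :=
  (Cwd_mk (contDiff_const.mul contDiff_snd).neg (contDiff_const.mul (Cwd_re.sub contDiff_const))).prodMk
    (contDiff_const.sub (contDiff_const.mul Cwd_im))

theorem Cwd_abs {q : E} (h : q ∈ TD) : |q.1.re| < 1 ∧ |q.1.im| < 1 :=
  ⟨lt_of_le_of_lt (Complex.abs_re_le_norm q.1) h.1, lt_of_le_of_lt (Complex.abs_im_le_norm q.1) h.1⟩

theorem Cwd_mem {z : E} (h1 : |z.1.re| ≤ 3 / 4) (h2 : |z.1.im| ≤ 1 / 4) (h3 : -(1 / 4) < z.2) (h4 : z.2 < 5 / 4) : z ∈ TD := by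
  refine ⟨?_, h3, h4⟩
  have h5 : ‖z.1‖ ^ 2 < 1 := by
    rw [Complex.sq_norm, Complex.normSq_apply]
    have e1 : z.1.re ^ 2 ≤ (3 / 4) ^ 2 := by
      rw [← sq_abs z.1.re]
      gcongr
    have e2 : z.1.im ^ 2 ≤ (1 / 4) ^ 2 := by
      rw [← sq_abs z.1.im]
      gcongr
    nlinarith
  nlinarith [norm_nonneg z.1]

theorem Cwd_fa_bd {δ : ℝ} (h0 : 0 < δ) (h1 : δ ≤ 1) {q : E} (hq : q ∈ TD) (hx : q.2 < 1 / 4) :
    |(Cwd_fa δ q).1.re| < 1 / 64 ∧ |(Cwd_fa δ q).1.im| < 1 / 256 ∧ |(Cwd_fa δ q).2| < 1 / 64 := by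
  obtain ⟨hr, hi⟩ := Cwd_abs hq
  have hx0 := hq.2.1
  rw [abs_lt] at hr hi
  refine ⟨?_, ?_, ?_⟩
  · show |q.1.re / 64| < 1 / 64
    rw [abs_lt]
    constructor <;> linarith [hr.1, hr.2]
  · show |q.2 / 64| < 1 / 256
    rw [abs_lt]
    constructor <;> linarith
  · show |-(δ / 64 * q.1.im)| < 1 / 64
    rw [abs_lt]
    constructor <;> nlinarith [hi.1, hi.2]

theorem Cwd_fb_bd {δ : ℝ} (h0 : 0 < δ) (h1 : δ ≤ 1) {q : E} (hq : q ∈ TD) (hx : 3 / 4 < q.2) :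
    |(Cwd_fb δ q).1.re - 5 / 16| < 1 / 64 ∧ |(Cwd_fb δ q).1.im| < 1 / 256 ∧ |(Cwd_fb δ q).2| < 1 / 64 := by
  obtain ⟨hr, hi⟩ := Cwd_abs hq
  have hx0 := hq.2.2
  rw [abs_lt] at hr hi
  refine ⟨?_, ?_, ?_⟩
  · show |5 / 16 + q.1.im / 64 - 5 / 16| < 1 / 64
    rw [abs_lt]
    constructor <;> linarith [hi.1, hi.2]
  · show |(1 - q.2) / 64| < 1 / 256
    rw [abs_lt]
    constructor <;> linarith
  · show |-(δ / 64 * q.1.re)| < 1 / 64
    rw [abs_lt]
    constructor <;> nlinarith [hr.1, hr.2]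

/-- the properties of the pinch -/
structure CwdF (l : ℝ) (F : Equiv.Perm E) : Prop where
  fst : ∀ q, (F q).1 = q.1
  zero : ∀ u : ℂ, F (u, 0) = (u, 0)
  lin : ∀ q : E, |q.1.im| ≤ 1 / 640 → (|q.1.re| ≤ 3 / 128 ∨ |q.1.re - 5 / 16| ≤ 3 / 128) → -(9 / 64) ≤ q.2 → q.2 ≤ 73 / 64 →
      F q = (q.1, l * q.2)
  out : ∀ q : E, 1 / 512 ≤ |q.1.im| ∨ (1 / 32 ≤ |q.1.re| ∧ 1 / 32 ≤ |q.1.re - 5 / 16|) ∨ q.2 ≤ -(3 / 16) ∨ 19 / 16 ≤ q.2 →
      F q = q

theorem Cwd_sfst {l : ℝ} {F : Equiv.Perm E} (h : CwdF l F) (q : E) : (F.symm q).1 = q.1 := by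
  have h1 := h.fst (F.symm q)
  rw [Equiv.apply_symm_apply] at h1
  exact h1.symm

/-- either the pinch does not move, or the preimage is in the slab -/
theorem Cwd_alt {l : ℝ} {F : Equiv.Perm E} (h : CwdF l F) {y : E} (hre : |y.1.re| ≤ 3 / 4) :
    F.symm y = y ∨ F.symm y ∈ SlabT := by
  by_cases hc : F.symm y = y
  · exact Or.inl hc
  · right
    have h1 : ¬ (1 / 512 ≤ |(F.symm y).1.im| ∨ (1 / 32 ≤ |(F.symm y).1.re| ∧ 1 / 32 ≤ |(F.symm y).1.re - 5 / 16|) ∨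
        (F.symm y).2 ≤ -(3 / 16) ∨ 19 / 16 ≤ (F.symm y).2) := by
      intro h2
      have h3 := h.out _ h2
      rw [Equiv.apply_symm_apply] at h3
      exact hc h3.symm
    push Not at h1
    obtain ⟨h2, _, h4, h5⟩ := h1
    refine ⟨?_, h2.le, by linarith, by linarith⟩
    rw [Cwd_sfst h]
    exact hre

theorem Cwd_preim {l : ℝ} {F : Equiv.Perm E} (h : CwdF l F) {y : E} (h1 : |y.1.re| ≤ 3 / 4) (h2 : |y.1.im| ≤ 1 / 4)
    (h3 : -(1 / 4) < y.2) (h4 : y.2 < 5 / 4) : F.symm y ∈ TD := by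
  rcases Cwd_alt h h1 with h5 | h5
  · rw [h5]
    exact Cwd_mem h1 h2 h3 h4
  · exact SlabT_sub h5

theorem Cwd_eq {l : ℝ} {F : Equiv.Perm E} (h : CwdF l F) {y z : E} (h1 : z.1 = y.1) (h2 : |z.1.im| ≤ 1 / 640)
    (h3 : |z.1.re| ≤ 3 / 128 ∨ |z.1.re - 5 / 16| ≤ 3 / 128) (h4 : -(9 / 64) ≤ z.2) (h5 : z.2 ≤ 73 / 64) (h6 : l * z.2 = y.2) :
    F.symm y = z := by
  rw [Equiv.symm_apply_eq, h.lin z h2 h3 h4 h5, h6, h1]

section
variable {N : Type u} [TopologicalSpace N] [ChartedSpace E3 N]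

/-- the chart `W` -/
noncomputable def CwdW (B Θ : E → N) (F : Equiv.Perm E) (δ : ℝ) (q : E) : N :=
  if q.2 < 1 / 4 then B (F.symm (Cwd_fa δ q)) else if 3 / 4 < q.2 then B (F.symm (Cwd_fb δ q)) else Θ q

/-- the data -/
structure CwdD (K : Set N) (B Θ : E → N) (F : Equiv.Perm E) (δ : ℝ) : Prop where
  d0 : 0 < δ
  d1 : δ ≤ 1
  pin : CwdF (δ / 2048) F
  Fs : ContDiff ℝ ∞ F
  Fs' : ContDiff ℝ ∞ F.symm
  cht : Cht TD B
  hit : K ∩ B '' TD = B '' TSB
  chd : Chd K Θ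
  fa : ∀ q ∈ TD, q.2 < 1 / 4 → Θ q = B (Cwd_fa δ q)
  fb : ∀ q ∈ TD, 3 / 4 < q.2 → Θ q = B (Cwd_fb δ q)
  dj : ∀ q ∈ TD, 1 / 4 ≤ q.2 → q.2 ≤ 3 / 4 → Θ q ∉ B '' SlabT

variable {K : Set N} {B Θ : E → N} {F : Equiv.Perm E} {δ : ℝ}

theorem Cwd_lo {q : E} (h : q.2 < 1 / 4) : CwdW B Θ F δ q = B (F.symm (Cwd_fa δ q)) := by
  unfold CwdW
  rw [if_pos h]

theorem Cwd_hi {q : E} (h : 3 / 4 < q.2) : CwdW B Θ F δ q = B (F.symm (Cwd_fb δ q)) := by
  unfold CwdW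
  rw [if_neg (by linarith), if_pos h]

theorem Cwd_mid {q : E} (h : 1 / 4 ≤ q.2) (h' : q.2 ≤ 3 / 4) : CwdW B Θ F δ q = Θ q := by
  unfold CwdW
  rw [if_neg (by linarith), if_neg (by linarith)]

theorem Cwd_lo_mem (D : CwdD K B Θ F δ) {q : E} (hq : q ∈ TD) (h : q.2 < 1 / 4) : F.symm (Cwd_fa δ q) ∈ TD := by
  obtain ⟨h1, h2, h3⟩ := Cwd_fa_bd D.d0 D.d1 hq h
  have h4 := abs_lt.1 h3
  exact Cwd_preim D.pin (by linarith) (by linarith) (by linarith [h4.1]) (by linarith [h4.2])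

theorem Cwd_hi_re (D : CwdD K B Θ F δ) {q : E} (hq : q ∈ TD) (h : 3 / 4 < q.2) : |(Cwd_fb δ q).1.re| ≤ 3 / 4 := by
  obtain ⟨h1, h2, h3⟩ := Cwd_fb_bd D.d0 D.d1 hq h
  have h5 := abs_lt.1 h1
  rw [abs_le]
  constructor <;> linarith [h5.1, h5.2]

theorem Cwd_hi_mem (D : CwdD K B Θ F δ) {q : E} (hq : q ∈ TD) (h : 3 / 4 < q.2) : F.symm (Cwd_fb δ q) ∈ TD := by
  obtain ⟨h1, h2, h3⟩ := Cwd_fb_bd D.d0 D.d1 hq h
  have h4 := abs_lt.1 h3
  exact Cwd_preim D.pin (Cwd_hi_re D hq h) (by linarith) (by linarith [h4.1]) (by linarith [h4.2])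

theorem Cwd_lo_alt (D : CwdD K B Θ F δ) {q : E} (hq : q ∈ TD) (h : q.2 < 1 / 4) :
    CwdW B Θ F δ q = Θ q ∨ CwdW B Θ F δ q ∈ B '' SlabT := by
  rw [Cwd_lo h]
  rcases Cwd_alt D.pin (y := Cwd_fa δ q) (by linarith [(Cwd_fa_bd D.d0 D.d1 hq h).1]) with h1 | h1
  · left
    rw [h1, D.fa q hq h]
  · right
    exact ⟨_, h1, rfl⟩

theorem Cwd_hi_alt (D : CwdD K B Θ F δ) {q : E} (hq : q ∈ TD) (h : 3 / 4 < q.2) :
    CwdW B Θ F δ q = Θ q ∨ CwdW B Θ F δ q ∈ B '' SlabT := by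
  rw [Cwd_hi h]
  rcases Cwd_alt D.pin (y := Cwd_fb δ q) (Cwd_hi_re D hq h) with h1 | h1
  · left
    rw [h1, D.fb q hq h]
  · right
    exact ⟨_, h1, rfl⟩

theorem Cwd_Th (D : CwdD K B Θ F δ) {q : E} (hq : q ∈ TD) (h : 1 / 8 ≤ q.2) (h' : q.2 ≤ 7 / 8) : CwdW B Θ F δ q = Θ q := by
  by_cases h1 : q.2 < 1 / 4
  · rw [Cwd_lo h1, D.fa q hq h1]
    congr 1
    rw [Equiv.symm_apply_eq]
    refine (D.pin.out _ (Or.inl ?_)).symm
    show 1 / 512 ≤ |q.2 / 64|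
    rw [abs_of_nonneg (by linarith)]
    linarith
  · push Not at h1
    by_cases h2 : 3 / 4 < q.2
    · rw [Cwd_hi h2, D.fb q hq h2]
      congr 1
      rw [Equiv.symm_apply_eq]
      refine (D.pin.out _ (Or.inl ?_)).symm
      show 1 / 512 ≤ |(1 - q.2) / 64|
      rw [abs_of_nonneg (by linarith)]
      linarith
    · push Not at h2
      exact Cwd_mid h1 h2

theorem Cwd_inB (D : CwdD K B Θ F δ) {z : E} (hz : z ∈ TD) : B z ∈ K ↔ z ∈ TSB := by
  constructor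
  · intro h1
    have h2 : B z ∈ K ∩ B '' TD := ⟨h1, z, hz, rfl⟩
    rw [D.hit] at h2
    obtain ⟨s, hs, he⟩ := h2
    rw [← D.cht.inj hs.1 hz he]
    exact hs
  · intro h1
    have h2 : B z ∈ B '' TSB := ⟨z, h1, rfl⟩
    rw [← D.hit] at h2
    exact h2.1

theorem Cwd_cht (D : CwdD K B Θ F δ) : Cht TD (CwdW B Θ F δ) := by
  have hd := D.d0.ne'
  refine ⟨TD_open, ?_, ?_⟩
  · intro q hq
    by_cases h1 : q.2 < 1 / 4
    · have hp : IsLocalDiffeomorphAt 𝓘(ℝ, E) 𝓘(ℝ, E) ∞ ((Cwd_ea δ hd).trans F.symm) q :=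
        CSG.ld_of_perm (f := (Cwd_ea δ hd).trans F.symm) (ContDiff.comp (g := ⇑F.symm) (f := ⇑(Cwd_ea δ hd)) D.Fs' (Cwd_ea_smooth δ hd))
          (ContDiff.comp (g := ⇑(Cwd_ea δ hd).symm) (f := ⇑F) (Cwd_ea_symm δ hd) D.Fs) q
      have h2 : IsLocalDiffeomorphAt 𝓘(ℝ, ℂ × ℝ) (𝓡 3) ∞ (fun s => B (F.symm (Cwd_fa δ s))) q :=
        IsLocalDiffeomorphAt.comp (hf := hp) (hg := D.cht.loc _ (Cwd_lo_mem D hq h1))
      refine CSG.ld_congr h2 ?_
      have h3 : ∀ᶠ s : E in 𝓝 q, s.2 < 1 / 4 := continuous_snd.continuousAt.eventually_lt_const h1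
      filter_upwards [h3] with s hs
      exact Cwd_lo hs
    · push Not at h1
      by_cases h2 : 3 / 4 < q.2
      · have hp : IsLocalDiffeomorphAt 𝓘(ℝ, E) 𝓘(ℝ, E) ∞ ((Cwd_eb δ hd).trans F.symm) q :=
          CSG.ld_of_perm (f := (Cwd_eb δ hd).trans F.symm) (ContDiff.comp (g := ⇑F.symm) (f := ⇑(Cwd_eb δ hd)) D.Fs' (Cwd_eb_smooth δ hd))
          (ContDiff.comp (g := ⇑(Cwd_eb δ hd).symm) (f := ⇑F) (Cwd_eb_symm δ hd) D.Fs) q
        have h4 : IsLocalDiffeomorphAt 𝓘(ℝ, ℂ × ℝ) (𝓡 3) ∞ (fun s => B (F.symm (Cwd_fb δ s))) q :=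
          IsLocalDiffeomorphAt.comp (hf := hp) (hg := D.cht.loc _ (Cwd_hi_mem D hq h2))
        refine CSG.ld_congr h4 ?_
        have h3 : ∀ᶠ s : E in 𝓝 q, 3 / 4 < s.2 := continuous_snd.continuousAt.eventually_const_lt h2
        filter_upwards [h3] with s hs
        exact Cwd_hi hs
      · push Not at h2
        refine CSG.ld_congr (D.chd.cht.loc q hq) ?_
        have h3 : ∀ᶠ s : E in 𝓝 q, 1 / 8 < s.2 := continuous_snd.continuousAt.eventually_const_lt (by linarith)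
        have h4 : ∀ᶠ s : E in 𝓝 q, s.2 < 7 / 8 := continuous_snd.continuousAt.eventually_lt_const (by linarith)
        filter_upwards [h3, h4, TD_open.mem_nhds hq] with s hs hs' hs''
        exact Cwd_Th D hs'' hs.le hs'.le
  · have key : ∀ q ∈ TD, ∀ q' ∈ TD, CwdW B Θ F δ q = CwdW B Θ F δ q' → q.2 ≤ q'.2 → q = q' := by
      intro q hq q' hq' he hle
      by_cases h1 : q.2 < 1 / 4
      · by_cases h1' : q'.2 < 1 / 4
        · rw [Cwd_lo h1, Cwd_lo h1'] at he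
          have h2 := F.symm.injective (D.cht.inj (Cwd_lo_mem D hq h1) (Cwd_lo_mem D hq' h1') he)
          exact (Cwd_ea δ hd).injective h2
        · push Not at h1'
          by_cases h2' : 3 / 4 < q'.2
          · rw [Cwd_lo h1, Cwd_hi h2'] at he
            have h2 := F.symm.injective (D.cht.inj (Cwd_lo_mem D hq h1) (Cwd_hi_mem D hq' h2') he)
            have h3 := abs_lt.1 (Cwd_fa_bd D.d0 D.d1 hq h1).1
            have h4 := abs_lt.1 (Cwd_fb_bd D.d0 D.d1 hq' h2').1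
            rw [h2] at h3
            linarith [h3.2, h4.1]
          · push Not at h2'
            rw [Cwd_mid h1' h2'] at he
            rcases Cwd_lo_alt D hq h1 with h3 | h3
            · rw [h3] at he
              exact D.chd.cht.inj hq hq' he
            · rw [he] at h3
              exact absurd h3 (D.dj q' hq' h1' h2')
      · push Not at h1
        by_cases h2 : 3 / 4 < q.2
        · have h2' : 3 / 4 < q'.2 := by linarith
          rw [Cwd_hi h2, Cwd_hi h2'] at he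
          have h3 := F.symm.injective (D.cht.inj (Cwd_hi_mem D hq h2) (Cwd_hi_mem D hq' h2') he)
          exact (Cwd_eb δ hd).injective h3
        · push Not at h2
          rw [Cwd_mid h1 h2] at he
          by_cases h2' : 3 / 4 < q'.2
          · rcases Cwd_hi_alt D hq' h2' with h3 | h3
            · rw [h3] at he
              exact D.chd.cht.inj hq hq' he
            · rw [← he] at h3
              exact absurd h3 (D.dj q hq h1 h2)
          · push Not at h2'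
            rw [Cwd_mid (by linarith) h2'] at he
            exact D.chd.cht.inj hq hq' he
    intro q hq q' hq' he
    rcases le_total q.2 q'.2 with h | h
    · exact key q hq q' hq' he h
    · exact (key q' hq' q hq he.symm h).symm

theorem Cwd_ja (D : CwdD K B Θ F δ) {q : E} (hq : q ∈ TD) (h : |q.2| ≤ 1 / 10) (h1 : -(9 / 64) ≤ -(32 * q.1.im))
    (h2 : -(32 * q.1.im) ≤ 73 / 64) : F.symm (Cwd_fa δ q) = ja q := by
  have h3 := abs_lt.1 (Cwd_abs hq).1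
  have h4 := abs_le.1 h
  refine Cwd_eq D.pin rfl ?_ (Or.inl ?_) h1 h2 ?_
  · show |q.2 / 64| ≤ 1 / 640
    rw [abs_le]
    constructor <;> linarith [h4.1, h4.2]
  · show |q.1.re / 64| ≤ 3 / 128
    rw [abs_le]
    constructor <;> linarith [h3.1, h3.2]
  · show δ / 2048 * -(32 * q.1.im) = -(δ / 64 * q.1.im)
    ring

theorem Cwd_jb (D : CwdD K B Θ F δ) {q : E} (hq : q ∈ TD) (h : |q.2 - 1| ≤ 1 / 10) (h1 : -(9 / 64) ≤ -(32 * q.1.re))
    (h2 : -(32 * q.1.re) ≤ 73 / 64) : F.symm (Cwd_fb δ q) = jb q := by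
  have h3 := abs_lt.1 (Cwd_abs hq).2
  have h4 := abs_le.1 h
  refine Cwd_eq D.pin rfl ?_ (Or.inr ?_) h1 h2 ?_
  · show |(1 - q.2) / 64| ≤ 1 / 640
    rw [abs_le]
    constructor <;> linarith [h4.1, h4.2]
  · show |5 / 16 + q.1.im / 64 - 5 / 16| ≤ 3 / 128
    rw [abs_le]
    constructor <;> linarith [h3.1, h3.2]
  · show δ / 2048 * -(32 * q.1.re) = -(δ / 64 * q.1.re)
    ring

theorem Cwd_hit (D : CwdD K B Θ F δ) {q : E} (hq : q ∈ TD) : CwdW B Θ F δ q ∈ K ↔ q ∈ TS2 := by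
  have hd := D.d0
  by_cases h1 : q.2 < 1 / 4
  · rw [Cwd_lo h1, Cwd_inB D (Cwd_lo_mem D hq h1)]
    constructor
    · rintro ⟨hz, him, hx⟩
      rw [Cwd_sfst D.pin] at him
      change q.2 / 64 = 0 at him
      have hx0 : q.2 = 0 := by linarith
      refine ⟨hq, Or.inl ⟨hx0, ?_⟩⟩
      have he : F.symm (Cwd_fa δ q) = ((Cwd_fa δ q).1, (F.symm (Cwd_fa δ q)).2) := Prod.ext (Cwd_sfst D.pin _) rfl
      rcases hx with hx | hx
      · left
        rw [hx, Equiv.symm_apply_eq, D.pin.zero] at he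
        have h5 : -(δ / 64 * q.1.im) = 0 := (Prod.ext_iff.1 he).2
        have h6 : δ / 64 * q.1.im = 0 := by linarith
        rcases mul_eq_zero.1 h6 with h7 | h7
        · linarith
        · exact h7
      · right
        rw [hx, Equiv.symm_apply_eq, D.pin.lin _ (by
          show |q.2 / 64| ≤ 1 / 640
          rw [hx0]; norm_num) (Or.inl (by
          show |(Cwd_fa δ q).1.re| ≤ 3 / 128
          linarith [(Cwd_fa_bd D.d0 D.d1 hq h1).1])) (by norm_num) (by norm_num)] at he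
        have h5 : -(δ / 64 * q.1.im) = δ / 2048 * 1 := (Prod.ext_iff.1 he).2
        have h6 : δ * (q.1.im + 1 / 32) = 0 := by linarith
        rcases mul_eq_zero.1 h6 with h7 | h7
        · linarith
        · linarith
    · rintro ⟨_, ⟨h2, h3⟩ | ⟨h2, _⟩⟩
      · have h4 : F.symm (Cwd_fa δ q) = ja q := by
          refine Cwd_ja D hq (by rw [h2]; norm_num) ?_ ?_
          · rcases h3 with h3 | h3 <;> rw [h3] <;> norm_num
          · rcases h3 with h3 | h3 <;> rw [h3] <;> norm_num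
        rw [h4]
        refine ⟨by rw [← h4]; exact Cwd_lo_mem D hq h1, ?_, ?_⟩
        · show q.2 / 64 = 0
          rw [h2]; norm_num
        · rcases h3 with h3 | h3
          · left
            show -(32 * q.1.im) = 0
            rw [h3]; norm_num
          · right
            show -(32 * q.1.im) = 1
            rw [h3]; norm_num
      · linarith
  · push Not at h1
    by_cases h2 : 3 / 4 < q.2
    · rw [Cwd_hi h2, Cwd_inB D (Cwd_hi_mem D hq h2)]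
      constructor
      · rintro ⟨hz, him, hx⟩
        rw [Cwd_sfst D.pin] at him
        change (1 - q.2) / 64 = 0 at him
        have hx0 : q.2 = 1 := by linarith
        refine ⟨hq, Or.inr ⟨hx0, ?_⟩⟩
        have he : F.symm (Cwd_fb δ q) = ((Cwd_fb δ q).1, (F.symm (Cwd_fb δ q)).2) := Prod.ext (Cwd_sfst D.pin _) rfl
        rcases hx with hx | hx
        · left
          rw [hx, Equiv.symm_apply_eq, D.pin.zero] at he
          have h5 : -(δ / 64 * q.1.re) = 0 := (Prod.ext_iff.1 he).2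
          have h6 : δ / 64 * q.1.re = 0 := by linarith
          rcases mul_eq_zero.1 h6 with h7 | h7
          · linarith
          · exact h7
        · right
          rw [hx, Equiv.symm_apply_eq, D.pin.lin _ (by
            show |(1 - q.2) / 64| ≤ 1 / 640
            rw [hx0]; norm_num) (Or.inr (by
            show |(Cwd_fb δ q).1.re - 5 / 16| ≤ 3 / 128
            linarith [(Cwd_fb_bd D.d0 D.d1 hq h2).1])) (by norm_num) (by norm_num)] at he
          have h5 : -(δ / 64 * q.1.re) = δ / 2048 * 1 := (Prod.ext_iff.1 he).2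
          have h6 : δ * (q.1.re + 1 / 32) = 0 := by linarith
          rcases mul_eq_zero.1 h6 with h7 | h7
          · linarith
          · linarith
      · rintro ⟨_, ⟨h3, _⟩ | ⟨h3, h4⟩⟩
        · linarith
        · have h5 : F.symm (Cwd_fb δ q) = jb q := by
            refine Cwd_jb D hq (by rw [h3]; norm_num) ?_ ?_
            · rcases h4 with h4 | h4 <;> rw [h4] <;> norm_num
            · rcases h4 with h4 | h4 <;> rw [h4] <;> norm_num
          rw [h5]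
          refine ⟨by rw [← h5]; exact Cwd_hi_mem D hq h2, ?_, ?_⟩
          · show (1 - q.2) / 64 = 0
            rw [h3]; norm_num
          · rcases h4 with h4 | h4
            · left
              show -(32 * q.1.re) = 0
              rw [h4]; norm_num
            · right
              show -(32 * q.1.re) = 1
              rw [h4]; norm_num
    · push Not at h2
      rw [Cwd_mid h1 h2]
      constructor
      · intro h3
        have h4 : Θ q ∈ K ∩ Θ '' TD := ⟨h3, q, hq, rfl⟩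
        rw [D.chd.hit] at h4
        obtain ⟨s, hs, he⟩ := h4
        rw [D.chd.cht.inj hs.1 hq he] at hs
        rcases hs.2 with h5 | h5
        · linarith [h5.1]
        · linarith [h5.1]
      · rintro ⟨_, h5 | h5⟩
        · linarith [h5.1]
        · linarith [h5.1]

theorem Cwd_sep (D : CwdD K B Θ F δ) {q r : E} (hq : q ∈ TD) (hr : r ∈ Slab) (h : CwdW B Θ F δ q = B r) :
    (|q.2| ≤ 1 / 10 ∧ ja q = r) ∨ (|q.2 - 1| ≤ 1 / 10 ∧ jb q = r) := by
  have hd := D.d0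
  by_cases h1 : q.2 < 1 / 4
  · left
    rw [Cwd_lo h1] at h
    have h2 := D.cht.inj (Cwd_lo_mem D hq h1) (Slab_sub hr) h
    rw [Equiv.symm_apply_eq] at h2
    have h3 : (Cwd_fa δ q).1 = r.1 := by rw [h2, D.pin.fst]
    have hb := Cwd_fa_bd D.d0 D.d1 hq h1
    rw [D.pin.lin r hr.2.1 (Or.inl (by rw [← h3]; linarith [hb.1])) hr.2.2.1 hr.2.2.2] at h2
    have h4 : -(δ / 64 * q.1.im) = δ / 2048 * r.2 := (Prod.ext_iff.1 h2).2
    have h5 : -(32 * q.1.im) = r.2 := by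
      have h6 : δ * (r.2 + 32 * q.1.im) = 0 := by linarith
      rcases mul_eq_zero.1 h6 with h7 | h7
      · linarith
      · linarith
    have h6 : q.2 / 64 = r.1.im := by rw [← h3]; rfl
    have h7 := abs_le.1 hr.2.1
    constructor
    · rw [abs_le]
      constructor <;> linarith [h7.1, h7.2]
    · exact Prod.ext h3 h5
  · push Not at h1
    by_cases h2' : 3 / 4 < q.2
    · right
      rw [Cwd_hi h2'] at h
      have h2 := D.cht.inj (Cwd_hi_mem D hq h2') (Slab_sub hr) h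
      rw [Equiv.symm_apply_eq] at h2
      have h3 : (Cwd_fb δ q).1 = r.1 := by rw [h2, D.pin.fst]
      have hb := Cwd_fb_bd D.d0 D.d1 hq h2'
      rw [D.pin.lin r hr.2.1 (Or.inr (by rw [← h3]; linarith [hb.1])) hr.2.2.1 hr.2.2.2] at h2
      have h4 : -(δ / 64 * q.1.re) = δ / 2048 * r.2 := (Prod.ext_iff.1 h2).2
      have h5 : -(32 * q.1.re) = r.2 := by
        have h6 : δ * (r.2 + 32 * q.1.re) = 0 := by linarith
        rcases mul_eq_zero.1 h6 with h7 | h7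
        · linarith
        · linarith
      have h6 : (1 - q.2) / 64 = r.1.im := by rw [← h3]; rfl
      have h7 := abs_le.1 hr.2.1
      constructor
      · rw [abs_le]
        constructor <;> linarith [h7.1, h7.2]
      · exact Prod.ext h3 h5
    · push Not at h2'
      rw [Cwd_mid h1 h2'] at h
      exfalso
      refine D.dj q hq h1 h2' ⟨r, ⟨hr.1, ?_, ?_, ?_⟩, h.symm⟩
      · linarith [hr.2.1]
      · linarith [hr.2.2.1]
      · linarith [hr.2.2.2]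

theorem Cwd_SP (D : CwdD K B Θ F δ) : SP K B (CwdW B Θ F δ) := by
  refine ⟨D.cht, D.hit, Cwd_cht D, ?_, ?_, ?_, ?_⟩
  · ext x
    constructor
    · rintro ⟨h1, q, hq, rfl⟩
      exact ⟨q, (Cwd_hit D hq).1 h1, rfl⟩
    · rintro ⟨q, hq, rfl⟩
      exact ⟨(Cwd_hit D hq.1).2 hq, q, hq.1, rfl⟩
  · intro q hq h h1 h2
    have h3 := (abs_le.1 h).2
    rw [Cwd_lo (by linarith), Cwd_ja D hq h h1 h2]
  · intro q hq h h1 h2
    have h3 := (abs_le.1 h).1
    rw [Cwd_hi (by linarith), Cwd_jb D hq h h1 h2]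
  · intro q hq r hr h
    exact Cwd_sep D hq hr h

end

variable {N : Type u} [TopologicalSpace N] [ChartedSpace E3 N]

theorem exists_SP {κ : ℝ × ℂ → N} (hκ : Thick κ) {P P₂ η ε δ τ : ℝ} (hη : 0 < η) (hη1 : η ≤ 1) (hε : 0 < ε) (hε1 : ε < 1 / 4)
    (hδ : 0 < δ) (hδ1 : δ ≤ 1) {T Θ : E → N} (hL : Lnk κ (Bd T δ τ) P P₂ (ε * δ) (η * ε) (η * ε * δ) τ)
    (hB : Cht TD (Bd T δ τ)) (hBK : core κ ∩ Bd T δ τ '' TD = Bd T δ τ '' TSB)
    (hΘ : Chd (core κ) Θ) (hΘE : StdE (rot (kap (rot κ (-1)) η) Complex.I) P (P + 5 / 16 * (ε * δ)) (ε * δ / 64) 1 Θ)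
    (hd : ∀ q ∈ TD, 1 / 4 ≤ q.2 → q.2 ≤ 3 / 4 → Θ q ∉ Bd T δ τ '' SlabT) :
    ∃ W : E → N, SP (core κ) (Bd T δ τ) W ∧ W '' TD ⊆ Θ '' TD ∪ Bd T δ τ '' SlabT ∧
      (∀ x : ℝ, 1 / 8 ≤ x → x ≤ 7 / 8 → W (0, x) = Θ (0, x)) ∧
      (∀ x : ℝ, 0 ≤ x → x ≤ 1 / 8 → W (0, x) = Bd T δ τ (⟨0, x / 64⟩, 0)) ∧
      (∀ x : ℝ, 7 / 8 ≤ x → x ≤ 1 → W (0, x) = Bd T δ τ (⟨5 / 16, (1 - x) / 64⟩, 0)) := by
  obtain ⟨F, hF1, hF2, hF3, hF4, hF5, hF6⟩ := exists_pinch (l := δ / 2048) (by positivity) (by linarith)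
  have D : CwdD (core κ) (Bd T δ τ) Θ F δ := by
    refine ⟨hδ, hδ1, ⟨hF3, hF4, hF5, hF6⟩, hF1, hF2, hB, hBK, hΘ, ?_, ?_, hd⟩
    · intro q hq hx
      obtain ⟨b1, b2, b3⟩ := Cwd_fa_bd hδ hδ1 hq hx
      have b4 := abs_lt.1 b3
      have hm : Cwd_fa δ q ∈ TD := Cwd_mem (by linarith) (by linarith) (by linarith [b4.1]) (by linarith [b4.2])
      rw [hΘE.foot q hq hx, hL.foot _ hm (by linarith [b4.2])]
      show κ (P + ε * δ / 64 * q.1.re, -1 * ((η : ℂ) * (Complex.I * (((ε * δ / 64 : ℝ) : ℂ) * ⟨q.2, q.1.im⟩)))) =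
        κ (P + ε * δ * (q.1.re / 64), -⟨η * ε * -(δ / 64 * q.1.im), η * ε * δ * (q.2 / 64)⟩)
      congr 1
      refine Prod.ext ?_ (Complex.ext ?_ ?_)
      · show P + ε * δ / 64 * q.1.re = P + ε * δ * (q.1.re / 64)
        ring
      · simp
        ring
      · simp
        ring
    · intro q hq hx
      obtain ⟨b1, b2, b3⟩ := Cwd_fb_bd hδ hδ1 hq hx
      have b4 := abs_lt.1 b3
      have b5 := abs_lt.1 b1
      have hre : |(Cwd_fb δ q).1.re| ≤ 3 / 4 := by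
        rw [abs_le]
        constructor <;> linarith [b5.1, b5.2]
      have hm : Cwd_fb δ q ∈ TD := Cwd_mem hre (by linarith) (by linarith [b4.1]) (by linarith [b4.2])
      rw [hΘE.tip q hq hx, hL.foot _ hm (by linarith [b4.2])]
      show κ (P + 5 / 16 * (ε * δ) + 1 * (ε * δ / 64) * q.1.im,
          -1 * ((η : ℂ) * (Complex.I * (((ε * δ / 64 : ℝ) : ℂ) * ⟨1 - q.2, q.1.re⟩)))) =
        κ (P + ε * δ * (5 / 16 + q.1.im / 64), -⟨η * ε * -(δ / 64 * q.1.re), η * ε * δ * ((1 - q.2) / 64)⟩)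
      congr 1
      refine Prod.ext ?_ (Complex.ext ?_ ?_)
      · show P + 5 / 16 * (ε * δ) + 1 * (ε * δ / 64) * q.1.im = P + ε * δ * (5 / 16 + q.1.im / 64)
        ring
      · simp
        ring
      · simp
        ring
  have hax : ∀ x : ℝ, -(1 / 4) < x → x < 5 / 4 → (((0 : ℂ), x) : E) ∈ TD := by
    intro x h1 h2
    exact ⟨by show ‖(0 : ℂ)‖ < 1; simp, h1, h2⟩
  refine ⟨CwdW (Bd T δ τ) Θ F δ, Cwd_SP D, ?_, ?_, ?_, ?_⟩
  · rintro _ ⟨q, hq, rfl⟩
    by_cases h1 : q.2 < 1 / 4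
    · rcases Cwd_lo_alt D hq h1 with h2 | h2
      · left
        rw [h2]
        exact ⟨q, hq, rfl⟩
      · exact Or.inr h2
    · push Not at h1
      by_cases h2 : 3 / 4 < q.2
      · rcases Cwd_hi_alt D hq h2 with h3 | h3
        · left
          rw [h3]
          exact ⟨q, hq, rfl⟩
        · exact Or.inr h3
      · push Not at h2
        left
        rw [Cwd_mid h1 h2]
        exact ⟨q, hq, rfl⟩
  · intro x h1 h2
    exact Cwd_Th D (hax x (by linarith) (by linarith)) h1 h2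
  · intro x h1 h2
    rw [Cwd_lo (by show x < 1 / 4; linarith)]
    congr 1
    have h3 : Cwd_fa δ ((0 : ℂ), x) = ((⟨0, x / 64⟩ : ℂ), (0 : ℝ)) := by
      refine Prod.ext (Complex.ext ?_ ?_) ?_
      · show (0 : ℂ).re / 64 = 0
        simp
      · rfl
      · show -(δ / 64 * (0 : ℂ).im) = 0
        simp
    rw [h3, Equiv.symm_apply_eq, hF4]
  · intro x h1 h2
    rw [Cwd_hi (by show 3 / 4 < x; linarith)]
    congr 1
    have h3 : Cwd_fb δ ((0 : ℂ), x) = ((⟨5 / 16, (1 - x) / 64⟩ : ℂ), (0 : ℝ)) := by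
      refine Prod.ext (Complex.ext ?_ ?_) ?_
      · show 5 / 16 + (0 : ℂ).im / 64 = 5 / 16
        simp
      · rfl
      · show -(δ / 64 * (0 : ℂ).re) = 0
        simp
    rw [h3, Equiv.symm_apply_eq, hF4]

end Pool.Agent.NHR
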