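import Mathlib
import Pool.Agent.NHR.Defs
import Pool.Agent.NHR.Geo
import Pool.Agent.NHR.Sgm
import Pool.Agent.NHR.MdY
import Pool.Agent.NHR.FinB
import Pool.Agent.NHR.Bdl

/-!
# NHR/ExH: existence of the second chord, with given class `g` (independent of `δ`) (difficulty 4)

`H = η ε`.  (1) `hG.sur`: a loop `γ` at `κ (P, -i H/8) = T (i/8, 0)` with `G.val γ = g`; `ext.Avd`: `γ` off the cores (`x ∈ [-1/5, 6/5]`) of `T`, `T₁`, `T₂`.
(2) `thnV`: thin `T₁`, `T₂` off `γ`.  (3) `δ` small: the slab `Bd T δ τ '' SlabT` is disjoint from `γ` (`Bd_small`, `‖u‖ ≤ 1` on `SlabT`).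
(4) `ext.E1b` for the thick knot `rot (kap (rot κ (-1)) η) I`, radius `ε δ / 64`, `Y` = complement of the core, the slab `Bd T δ τ '' SlabT`, the closures and the two closed end boxes.
All these points have `im u ≤ δ/256` in the chart `T`; the end tubes and the segments have `im u > δ/256`.
-/

open scoped Manifold ContDiff Topology
open Set Filter
open Pool.Agent.CSG (stp)
open Pool.Agent.RSG (E3 ex Thick)
open Pool.Agent.KNT (Dom Str Str2 bmp)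
open Pool.Agent.NHP

namespace Pool.Agent.NHR

universe u v

/-- the foot tube at `P + ε c` in the coordinates of the first chord -/
noncomputable def ExH_h (s c : ℝ) (q : E) : E := (⟨c + s * q.1.re, s * q.2⟩, -(s * q.1.im))

/-- the closed end box -/
def ExH_bx : Set E := {q | ‖q.1‖ ≤ 1 ∧ |q.2| ≤ 1 / 4}

/-- the tip end of the second chord in the coordinates of the first one -/
noncomputable def ExH_t (s δ : ℝ) (q : E) : E := (⟨5 / 16 * δ + s * q.1.im, s * (1 - q.2)⟩, -(s * q.1.re))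

theorem ExH_re {q : E} (h : ‖q.1‖ < 1) : |q.1.re| < 1 := lt_of_le_of_lt (Complex.abs_re_le_norm _) h

theorem ExH_im {q : E} (h : ‖q.1‖ < 1) : |q.1.im| < 1 := lt_of_le_of_lt (Complex.abs_im_le_norm _) h

theorem ExH_norm {a b : ℝ} (h : |a| + |b| < 1) : ‖(⟨a, b⟩ : ℂ)‖ < 1 :=
  lt_of_le_of_lt (Complex.norm_le_abs_re_add_abs_im _) h

theorem ExH_h_cont (s c : ℝ) : Continuous (ExH_h s c) := by
  unfold ExH_h
  refine Continuous.prodMk ?_ ?_
  · have h1 : Continuous fun q : E => ((c + s * q.1.re : ℝ) : ℂ) + ((s * q.2 : ℝ) : ℂ) * Complex.I := by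
      fun_prop
    refine h1.congr fun q => ?_
    apply Complex.ext <;> simp
  · exact (continuous_const.mul (Complex.continuous_im.comp continuous_fst)).neg

theorem ExH_bx_compact : IsCompact ExH_bx := by
  have h1 : ExH_bx = Metric.closedBall (0 : ℂ) 1 ×ˢ Icc (-(1 / 4) : ℝ) (1 / 4) := by
    ext q
    constructor
    · rintro ⟨h1, h2⟩
      exact ⟨by simpa using h1, abs_le.1 h2⟩
    · rintro ⟨h1, h2⟩
      exact ⟨by simpa using h1, abs_le.2 h2⟩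
  rw [h1]
  exact (isCompact_closedBall _ _).prod isCompact_Icc

theorem ExH_h_mem {s c : ℝ} (hs : 0 < s) (hs1 : s ≤ 1 / 64) (hc : 0 ≤ c) (hc1 : c ≤ 5 / 16) {q : E} (h : ‖q.1‖ ≤ 1)
    (h1 : |q.2| ≤ 5 / 4) : ExH_h s c q ∈ TD ∧ |(ExH_h s c q).2| ≤ 1 / 64 ∧ ‖(ExH_h s c q).1‖ ≤ c + s * 9 / 4 := by
  have hr : |q.1.re| ≤ 1 := le_trans (Complex.abs_re_le_norm _) h
  have hi : |q.1.im| ≤ 1 := le_trans (Complex.abs_im_le_norm _) h
  have h3 : |s * q.1.re| ≤ s := by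
    rw [abs_mul, abs_of_pos hs]
    have := mul_le_mul_of_nonneg_left hr hs.le
    linarith
  have h4 : |s * q.2| ≤ s * 5 / 4 := by
    rw [abs_mul, abs_of_pos hs]
    have := mul_le_mul_of_nonneg_left h1 hs.le
    linarith
  have h6 : |s * q.1.im| ≤ s := by
    rw [abs_mul, abs_of_pos hs]
    have := mul_le_mul_of_nonneg_left hi hs.le
    linarith
  have h7 := abs_le.1 h6
  have h8 : |c + s * q.1.re| ≤ c + s := by
    have := abs_le.1 h3
    exact abs_le.2 ⟨by linarith, by linarith⟩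
  refine ⟨⟨ExH_norm ?_, ?_, ?_⟩, ?_, ?_⟩
  · linarith
  · show -(1 / 4) < -(s * q.1.im)
    linarith
  · show -(s * q.1.im) < 5 / 4
    linarith
  · show |-(s * q.1.im)| ≤ 1 / 64
    rw [abs_neg]
    linarith
  · refine le_trans (Complex.norm_le_abs_re_add_abs_im _) ?_
    show |c + s * q.1.re| + |s * q.2| ≤ c + s * 9 / 4
    linarith

theorem ExH_t_mem {s δ : ℝ} (hs : 0 < s) (hs1 : s ≤ 1 / 64) (hδ : 0 < δ) (hδ1 : δ ≤ 1) {q : E} (h : ‖q.1‖ < 1)
    (h1 : -(1 / 4) < q.2) (h2 : q.2 < 5 / 4) : ExH_t s δ q ∈ TD ∧ (ExH_t s δ q).2 < 1 / 4 := by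
  have h3 : |s * q.1.im| ≤ 1 / 64 := by
    rw [abs_mul, abs_of_pos hs]
    have := mul_le_mul hs1 (ExH_im h).le (abs_nonneg _) (by norm_num)
    linarith
  have h3' := abs_le.1 h3
  have h4 : |s * (1 - q.2)| ≤ 5 / 256 := by
    rw [abs_mul, abs_of_pos hs]
    have h5 : |1 - q.2| ≤ 5 / 4 := abs_le.2 ⟨by linarith, by linarith⟩
    have := mul_le_mul hs1 h5 (abs_nonneg _) (by norm_num)
    linarith
  have h6 : |s * q.1.re| ≤ 1 / 64 := by
    rw [abs_mul, abs_of_pos hs]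
    have := mul_le_mul hs1 (ExH_re h).le (abs_nonneg _) (by norm_num)
    linarith
  have h7 := abs_le.1 h6
  have h8 : |5 / 16 * δ + s * q.1.im| ≤ 21 / 64 := abs_le.2 ⟨by linarith, by linarith⟩
  refine ⟨⟨ExH_norm (by linarith), ?_, ?_⟩, ?_⟩
  · show -(1 / 4) < -(s * q.1.re)
    linarith
  · show -(s * q.1.re) < 5 / 4
    linarith
  · show -(s * q.1.re) < 1 / 4
    linarith

section
variable {N : Type u} [TopologicalSpace N] [ChartedSpace E3 N]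

theorem ExH_T {κ : ℝ × ℂ → N} {P P₂ η ε : ℝ} {T : E → N} (hTE : StdE (kap (rot κ (-1)) η) P P₂ ε 1 T) {q : E}
    (hq : q ∈ TD) (hq1 : q.2 < 1 / 4) :
    T q = κ (P + ε * q.1.re, -(((η * ε : ℝ) : ℂ) * ⟨q.2, q.1.im⟩)) := by
  rw [hTE.foot q hq hq1]
  unfold footT kap rot
  simp only
  congr 2
  push_cast
  ring

theorem ExH_foot {κ : ℝ × ℂ → N} {P P₂ η ε s c : ℝ} {T : E → N} (hTE : StdE (kap (rot κ (-1)) η) P P₂ ε 1 T) {q : E}
    (hq : ExH_h s c q ∈ TD) (hq1 : (ExH_h s c q).2 < 1 / 4) :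
    footT (rot (kap (rot κ (-1)) η) Complex.I) (P + ε * c) (ε * s) q = T (ExH_h s c q) := by
  rw [ExH_T hTE hq hq1]
  unfold footT kap rot ExH_h
  simp only
  congr 1
  apply Prod.ext
  · show P + ε * c + ε * s * q.1.re = P + ε * (c + s * q.1.re)
    ring
  · apply Complex.ext
    · simp
      ring
    · simp
      ring

theorem ExH_tip {κ : ℝ × ℂ → N} {P P₂ η ε s δ : ℝ} {T : E → N} (hTE : StdE (kap (rot κ (-1)) η) P P₂ ε 1 T) {q : E}
    (hq : ExH_t s δ q ∈ TD) (hq1 : (ExH_t s δ q).2 < 1 / 4) :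
    tipT (rot (kap (rot κ (-1)) η) Complex.I) (P + 5 / 16 * (ε * δ)) (ε * s) 1 q = T (ExH_t s δ q) := by
  rw [ExH_T hTE hq hq1]
  unfold tipT kap rot ExH_t
  simp only
  congr 1
  apply Prod.ext
  · show P + 5 / 16 * (ε * δ) + 1 * (ε * s) * q.1.im = P + ε * (5 / 16 * δ + s * q.1.im)
    ring
  · apply Complex.ext
    · simp
      ring
    · simp
      ring

/-- points beside the slab -/
theorem ExH_slab {T : E → N} (hT : Cht TD T) {δ τ : ℝ} (hδ : 0 < δ) (hδ1 : δ ≤ 1) {q : E} (hq : q ∈ TD)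
    (hq1 : q.2 < 1 / 4) (h : δ / 512 < |q.1.im|) : T q ∉ Bd T δ τ '' SlabT := by
  rintro ⟨r, hr, hrq⟩
  unfold Bd at hrq
  have hrT : (ex (τ / 4 * stp (1 / 4) (3 / 4) r.2) * ((δ : ℂ) * r.1), r.2) ∈ TD := by
    have hr' := SlabT_sub hr
    refine ⟨?_, hr'.2.1, hr'.2.2⟩
    have h1 : ‖ex (τ / 4 * stp (1 / 4) (3 / 4) r.2)‖ = 1 := by
      unfold ex
      rw [Complex.norm_exp_ofReal_mul_I]
    show ‖ex (τ / 4 * stp (1 / 4) (3 / 4) r.2) * ((δ : ℂ) * r.1)‖ < 1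
    rw [norm_mul, h1, one_mul, norm_mul, Complex.norm_real, Real.norm_eq_abs, abs_of_pos hδ]
    have h2 := hr'.1
    have h3 : δ * ‖r.1‖ ≤ 1 * ‖r.1‖ := mul_le_mul_of_nonneg_right hδ1 (norm_nonneg _)
    linarith
  have h2 := hT.inj hrT hq hrq
  have h3 := congrArg Prod.snd h2
  simp only at h3
  have h4 := congrArg Prod.fst h2
  simp only at h4
  rw [h3, CSG.stp_zero (by norm_num) hq1.le] at h4
  have h5 : ex (τ / 4 * 0) = 1 := by
    unfold ex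
    simp
  rw [h5, one_mul] at h4
  rw [← h4, Complex.im_ofReal_mul, abs_mul, abs_of_pos hδ] at h
  have h6 : |r.1.im| ≤ 1 / 512 := hr.2.1
  have h7 := mul_le_mul_of_nonneg_left h6 hδ.le
  linarith

end

theorem ExH_seg {N : Type u} {κ : ℝ × ℂ → N} {η : ℝ} (l r r' : ℝ) :
    seg (rot (kap (rot κ (-1)) η) Complex.I) (l, (r : ℂ)) (l, (r' : ℂ))
      = seg κ (l, -(((η * r : ℝ) : ℂ) * Complex.I)) (l, -(((η * r' : ℝ) : ℂ) * Complex.I)) := by
  funext t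
  unfold seg rot kap
  simp only
  congr 1
  apply Prod.ext
  · rfl
  · show (-1 : ℂ) * ((η : ℂ) * (Complex.I * ((1 - t) • (r : ℂ) + t • (r' : ℂ))))
      = (1 - t) • -(((η * r : ℝ) : ℂ) * Complex.I) + t • -(((η * r' : ℝ) : ℂ) * Complex.I)
    simp only [Complex.real_smul]
    push_cast
    ring

variable {N : Type u} [TopologicalSpace N] [ChartedSpace E3 N] [T2Space N] {Γ : Type v} [Group Γ]

theorem exists_Th (ext : Ext N) {κ : ℝ × ℂ → N} (hκ : Thick κ) (G : GHom (core κ)ᶜ Γ) (hG : Full G) {p p' : ℝ} {τ : ℝ}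
    (hτ : τ = 1 ∨ τ = -1) (g : Γ) {P P₂ η ε : ℝ} (hη : 0 < η) (hη1 : η ≤ 1) (hε : 0 < ε) (hε1 : ε < 1 / 4)
    (hPP : ∀ k : ℤ, 2 * ε < |P - P₂ + k|) {T : E → N} (hT : Chd (core κ) T)
    (hTE : StdE (kap (rot κ (-1)) η) P P₂ ε 1 T) {c₁ c₂ : Γ} {T₁ T₂ : E → N} (h₁ : FinV G κ p p' c₁ T₁)
    (h₂ : FinV G κ p p' c₂ T₂) (hd₁ : Disjoint (T '' TD) (closure (T₁ '' TD)))
    (hd₂ : Disjoint (T '' TD) (closure (T₂ '' TD))) :
    ∃ (δ : ℝ) (Θ T₁' T₂' : E → N), 0 < δ ∧ δ ≤ 1 ∧ Chd (core κ) Θ ∧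
      StdE (rot (kap (rot κ (-1)) η) Complex.I) P (P + 5 / 16 * (ε * δ)) (ε * δ / 64) 1 Θ ∧
      (∀ q ∈ TD, 1 / 4 ≤ q.2 → q.2 ≤ 3 / 4 → Θ q ∉ Bd T δ τ '' SlabT) ∧
      G.val (cor Θ) = G.val (seg κ (P, -(((η * ε * δ / 512 : ℝ) : ℂ) * Complex.I)) (P, -(((η * ε / 8 : ℝ) : ℂ) * Complex.I))) *
        g * G.val (seg κ (P, -(((η * ε / 8 : ℝ) : ℂ) * Complex.I))
          (P + 5 / 16 * (ε * δ), -(((η * ε * δ / 512 : ℝ) : ℂ) * Complex.I))) ∧
      FinV G κ p p' c₁ T₁' ∧ LEqN (kn (core κ) T₁) (kn (core κ) T₁') ∧ Disjoint (Θ '' TD ∪ T '' TD) (T₁' '' TD) ∧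
      FinV G κ p p' c₂ T₂' ∧ LEqN (kn (core κ) T₂) (kn (core κ) T₂') ∧ Disjoint (Θ '' TD ∪ T '' TD) (T₂' '' TD) := by
  have hH : 0 < η * ε := mul_pos hη hε
  have hH1 : η * ε < 1 / 4 := by
    have := mul_le_mul_of_nonneg_right hη1 hε.le
    linarith
  -- the base point
  have hv : ∀ r : ℝ, 0 < r → r < 1 → ∀ l : ℝ, κ (l, -((r : ℂ) * Complex.I)) ∈ (core κ)ᶜ := by
    intro r hr hr1 l
    refine thick_off hκ ?_ ?_
    · rw [norm_neg, norm_mul, Complex.norm_I, mul_one, Complex.norm_real, Real.norm_eq_abs, abs_of_pos hr]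
      exact hr1
    · rw [neg_ne_zero]
      exact mul_ne_zero (Complex.ofReal_ne_zero.2 hr.ne') Complex.I_ne_zero
  have ha := hv (η * ε / 8) (by linarith) (by linarith) P
  set a : N := κ (P, -(((η * ε / 8 : ℝ) : ℂ) * Complex.I)) with hadef
  have hi8 : ((⟨0, 1 / 8⟩, 0) : E) ∈ TD := by
    refine ⟨ExH_norm ?_, by norm_num, by norm_num⟩
    rw [abs_zero, abs_of_pos (by norm_num)]
    norm_num
  have haT : a = T (⟨0, 1 / 8⟩, 0) := by
    rw [ExH_T hTE hi8 (by norm_num), hadef]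
    congr 1
    apply Prod.ext
    · simp
    · apply Complex.ext
      · simp
      · simp
        ring
  have haTD : a ∈ T '' TD := ⟨_, hi8, haT.symm⟩
  obtain ⟨γ, hγ, hγ0, hγ1, hγg⟩ := hG.sur a ha a ha g
  have hcT₁ : Chd (core κ) T₁ := by
    obtain ⟨η', ε', hF, _⟩ := h₁
    exact hF.chd
  have hcT₂ : Chd (core κ) T₂ := by
    obtain ⟨η', ε', hF, _⟩ := h₂
    exact hF.chd
  have hcoreTD : ∀ x ∈ Icc (-(1 / 5) : ℝ) (6 / 5), ((0, x) : E) ∈ TD := by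
    intro x hx
    refine ⟨by simp, ?_, ?_⟩
    · show -(1 / 4) < x
      linarith [hx.1]
    · show x < 5 / 4
      linarith [hx.2]
  have hneT : ∀ x ∈ Icc (-(1 / 5) : ℝ) (6 / 5), T (0, x) ≠ a := by
    intro x hx h
    rw [haT] at h
    have h1 := hT.cht.inj (hcoreTD x hx) hi8 h
    have h2 := congrArg Complex.im (congrArg Prod.fst h1)
    simp at h2
  have hneD : ∀ T' : E → N, Disjoint (T '' TD) (closure (T' '' TD)) →
      ∀ x ∈ Icc (-(1 / 5) : ℝ) (6 / 5), T' (0, x) ≠ a := by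
    intro T' hd x hx h
    refine Set.disjoint_left.1 hd haTD (subset_closure ?_)
    rw [← h]
    exact ⟨_, hcoreTD x hx, rfl⟩
  obtain ⟨γ', hγγ', hav⟩ := ext.Avd κ hκ (fun n => if n = 0 then T else if n = 1 then T₁ else T₂)
    (by
      intro n
      show Chd (core κ) (if n = 0 then T else if n = 1 then T₁ else T₂)
      split_ifs
      · exact hT
      · exact hcT₁
      · exact hcT₂) 3 γ hγ
    (by
      intro n _ x hx
      rw [hγ0, hγ1]
      show (if n = 0 then T else if n = 1 then T₁ else T₂) (0, x) ≠ a ∧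
        (if n = 0 then T else if n = 1 then T₁ else T₂) (0, x) ≠ a
      split_ifs
      · exact ⟨hneT x hx, hneT x hx⟩
      · exact ⟨hneD T₁ hd₁ x hx, hneD T₁ hd₁ x hx⟩
      · exact ⟨hneD T₂ hd₂ x hx, hneD T₂ hd₂ x hx⟩)
  have hav0 : ∀ x ∈ Icc (-(1 / 5) : ℝ) (6 / 5), ∀ t ∈ Icc (0 : ℝ) 1, T (0, x) ≠ γ' t := by
    intro x hx t ht
    have := hav 0 (by norm_num) x hx t ht
    simpa using this
  have hav1 : ∀ x ∈ Icc (-(1 / 5) : ℝ) (6 / 5), ∀ t ∈ Icc (0 : ℝ) 1, T₁ (0, x) ≠ γ' t := by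
    intro x hx t ht
    have := hav 1 (by norm_num) x hx t ht
    simpa using this
  have hav2 : ∀ x ∈ Icc (-(1 / 5) : ℝ) (6 / 5), ∀ t ∈ Icc (0 : ℝ) 1, T₂ (0, x) ≠ γ' t := by
    intro x hx t ht
    have := hav 2 (by norm_num) x hx t ht
    simpa using this
  have hγ' : PathOn (core κ)ᶜ γ' := hγγ'.right
  have hγ'0 : γ' 0 = a := by rw [← hγγ'.zero, hγ0]
  have hγ'1 : γ' 1 = a := by rw [← hγγ'.one, hγ1]
  have hγ'g : G.val γ' = g := by rw [← G.hmt _ _ hγγ', hγg]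
  -- the complement of the loop
  have hγc : IsClosed (γ' '' Icc (0 : ℝ) 1) := (isCompact_Icc.image_of_continuousOn hγ'.1).isClosed
  have hOo : IsOpen (γ' '' Icc (0 : ℝ) 1)ᶜ := hγc.isOpen_compl
  -- thinning
  have hthin : ∀ (c : Γ) (T' : E → N), FinV G κ p p' c T' → Disjoint (T '' TD) (closure (T' '' TD)) →
      (∀ x ∈ Icc (-(1 / 5) : ℝ) (6 / 5), ∀ t ∈ Icc (0 : ℝ) 1, T' (0, x) ≠ γ' t) →
      ∃ T'' : E → N, FinV G κ p p' c T'' ∧ LEqN (kn (core κ) T') (kn (core κ) T'') ∧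
        Disjoint (T '' TD) (closure (T'' '' TD)) ∧ Disjoint (γ' '' Icc (0 : ℝ) 1) (closure (T'' '' TD)) := by
    intro c T' hF hd hav
    obtain ⟨r, hr, h⟩ := thnV ext hκ G hF hOo (by
      rintro x hx ⟨t, ht, h⟩
      exact hav x ⟨by linarith [hx.1], by linarith [hx.2]⟩ t ht h.symm)
    obtain ⟨T'', hFE, hcl, _, hsub, hleq⟩ := h r r hr le_rfl hr le_rfl
    refine ⟨T'', ⟨r, r, hFE, hcl⟩, hleq, ?_, ?_⟩
    · rw [Set.disjoint_left]
      intro y hy hy'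
      exact Set.disjoint_left.1 hd hy (subset_closure (hsub hy').2)
    · rw [Set.disjoint_left]
      intro y hy hy'
      exact (hsub hy').1 hy
  obtain ⟨T₁', hF₁, hL₁, hD₁, hg₁⟩ := hthin c₁ T₁ h₁ hd₁ hav1
  obtain ⟨T₂', hF₂, hL₂, hD₂, hg₂⟩ := hthin c₂ T₂ h₂ hd₂ hav2
  -- the slab
  obtain ⟨r, hr, hsm⟩ := Bd_small hT.cht hOo (by
    rintro x hx ⟨t, ht, h⟩
    exact hav0 x hx t ht h.symm)
  set δ : ℝ := min r 1 with hδdef
  have hδ : 0 < δ := lt_min hr one_pos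
  have hδ1 : δ ≤ 1 := min_le_right _ _
  have hslabγ : ∀ t ∈ Icc (0 : ℝ) 1, γ' t ∉ Bd T δ τ '' SlabT := by
    rintro t ht ⟨q, hq, hqt⟩
    have h1 : ‖q.1‖ ≤ 1 := (SlabT_sub hq).1.le
    exact hsm δ τ hδ (min_le_left _ _) q h1 hq.2.2.1 hq.2.2.2 (by
      rw [hqt]
      exact ⟨t, ht, rfl⟩)
  have hslabC : IsCompact (Bd T δ τ '' SlabT) := by
    have hc : IsCompact SlabT := by
      have h1 : SlabT = (fun q : ℝ × ℝ × ℝ => ((⟨q.1, q.2.1⟩, q.2.2) : E)) ''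
          (Icc (-(3 / 4)) (3 / 4) ×ˢ Icc (-(1 / 512)) (1 / 512) ×ˢ Icc (-(1 / 5)) (6 / 5)) := by
        ext q
        constructor
        · rintro ⟨h1, h2, h3, h4⟩
          exact ⟨(q.1.re, q.1.im, q.2), ⟨abs_le.1 h1, abs_le.1 h2, h3, h4⟩, rfl⟩
        · rintro ⟨⟨x, y, z⟩, ⟨h1, h2, h3⟩, rfl⟩
          exact ⟨abs_le.2 h1, abs_le.2 h2, h3.1, h3.2⟩
      rw [h1]
      refine (isCompact_Icc.prod (isCompact_Icc.prod isCompact_Icc)).image ?_
      have h2 : Continuous fun q : ℝ × ℝ × ℝ => (((q.1 : ℂ) + (q.2.1 : ℂ) * Complex.I, q.2.2) : E) := by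
        fun_prop
      refine h2.congr fun q => ?_
      apply Prod.ext
      · apply Complex.ext <;> simp
      · rfl
    exact hc.image_of_continuousOn ((cht_cont (Bd_cht hT.cht hδ hδ1)).mono SlabT_sub)
  -- the ends of the second chord
  set s : ℝ := δ / 64 with hsdef
  have hs : 0 < s := div_pos hδ (by norm_num)
  have hs1 : s ≤ 1 / 64 := by
    rw [hsdef]
    linarith
  have hεs : ε * δ / 64 = ε * s := by
    rw [hsdef]
    ring
  have hεδ : 0 < ε * δ := mul_pos hε hδ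
  have hεδ1 : ε * δ < 1 / 4 := by
    have := mul_le_mul_of_nonneg_left hδ1 hε.le
    linarith
  have hA : Adm P (P + 5 / 16 * (ε * δ)) (ε * δ / 64) := by
    refine ⟨by linarith, by linarith, fun k => ?_⟩
    have h1 : P - (P + 5 / 16 * (ε * δ)) + k = k - 5 / 16 * (ε * δ) := by ring
    rw [h1]
    rcases eq_or_ne k 0 with rfl | hk
    · rw [Int.cast_zero, zero_sub, abs_neg, abs_of_pos (by linarith)]
      linarith
    · have h2 : (1 : ℝ) ≤ |(k : ℝ)| := by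
        have := Int.one_le_abs hk
        exact_mod_cast this
      have h3 : |(k : ℝ)| - |5 / 16 * (ε * δ)| ≤ |(k : ℝ) - 5 / 16 * (ε * δ)| := abs_sub_abs_le_abs_sub _ _
      rw [abs_of_pos (show 0 < 5 / 16 * (ε * δ) by linarith)] at h3
      linarith
  set κ' : ℝ × ℂ → N := rot (kap (rot κ (-1)) η) Complex.I with hκ'
  have hcore : core κ' = core κ := by
    rw [hκ', core_rot, core_kap, core_rot]
  have hκ't : Thick κ' :=
    thick_rot (thick_kap (thick_rot hκ (by rw [norm_neg, norm_one])) hη hη1) Complex.norm_I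
  -- the closed set to be avoided
  set C : Set N := Bd T δ τ '' SlabT ∪ (closure (T₁' '' TD) ∪ closure (T₂' '' TD)) with hC
  have hCc : IsClosed C := hslabC.isClosed.union (isClosed_closure.union isClosed_closure)
  -- the end boxes
  have hc0 : (0 : ℝ) ≤ 5 / 16 * δ := by linarith
  have hc1 : 5 / 16 * δ ≤ 5 / 16 := by linarith
  have hBc : ∀ c : ℝ, 0 ≤ c → c ≤ 5 / 16 → IsCompact (T '' (ExH_h s c '' ExH_bx)) := by
    intro c hc hc1
    refine (ExH_bx_compact.image (ExH_h_cont s c)).image_of_continuousOn ((cht_cont hT.cht).mono ?_)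
    rintro _ ⟨q, hq, rfl⟩
    exact (ExH_h_mem hs hs1 hc hc1 hq.1 (by linarith [hq.2])).1
  have hBim : ∀ c : ℝ, 0 ≤ c → c ≤ 5 / 16 → ∀ q ∈ TD, δ / 256 < q.1.im → T q ∉ T '' (ExH_h s c '' ExH_bx) := by
    rintro c hc hc1 q hq hq1 ⟨_, ⟨q', hq', rfl⟩, h⟩
    have h1 := hT.cht.inj (ExH_h_mem hs hs1 hc hc1 hq'.1 (by linarith [hq'.2])).1 hq h
    rw [← h1] at hq1
    have h2 : δ / 256 < s * q'.2 := hq1
    have h3 := mul_le_mul_of_nonneg_left (abs_le.1 hq'.2).2 hs.le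
    rw [hsdef] at h2 h3
    linarith
  have hBγ : ∀ c : ℝ, 0 ≤ c → c ≤ 5 / 16 * δ → ∀ t ∈ Icc (0 : ℝ) 1, γ' t ∉ T '' (ExH_h s c '' ExH_bx) := by
    rintro c hc hc2 t ht ⟨_, ⟨q', hq', rfl⟩, h⟩
    have h1 := ExH_h_mem hs hs1 hc (by linarith) hq'.1 (by linarith [hq'.2] : |q'.2| ≤ 5 / 4)
    have h5 := abs_le.1 h1.2.1
    have h6 : ‖(ExH_h s c q').1‖ ≤ δ := by
      have := h1.2.2
      rw [hsdef] at this
      rw [hsdef]
      linarith
    have h4 : Bd T δ τ ((δ : ℂ)⁻¹ * (ExH_h s c q').1, (ExH_h s c q').2) = T (ExH_h s c q') := by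
      unfold Bd
      simp only
      rw [CSG.stp_zero (by norm_num) (by linarith : (ExH_h s c q').2 ≤ 1 / 4)]
      have h7 : ex (τ / 4 * 0) = 1 := by
        unfold ex
        simp
      rw [h7, one_mul, mul_inv_cancel_left₀ (Complex.ofReal_ne_zero.2 hδ.ne')]
    refine hsm δ τ hδ (min_le_left _ _) ((δ : ℂ)⁻¹ * (ExH_h s c q').1, (ExH_h s c q').2) ?_ ?_ ?_ ?_
    · show ‖(δ : ℂ)⁻¹ * (ExH_h s c q').1‖ ≤ 1
      rw [norm_mul, norm_inv, Complex.norm_real, Real.norm_eq_abs, abs_of_pos hδ]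
      rw [inv_mul_le_iff₀ hδ, mul_one]
      exact h6
    · show -(1 / 5) ≤ (ExH_h s c q').2
      linarith
    · show (ExH_h s c q').2 ≤ 6 / 5
      linarith
    · rw [h4, h]
      exact ⟨t, ht, rfl⟩
  set BX : Set N := T '' (ExH_h s 0 '' ExH_bx) ∪ T '' (ExH_h s (5 / 16 * δ) '' ExH_bx) with hBX
  set Y : Set N := (core κ ∪ (C ∪ BX))ᶜ with hYdef
  have hYo : IsOpen Y := ((core_compact hκ).isClosed.union (hCc.union
    ((hBc 0 le_rfl (by norm_num)).isClosed.union (hBc _ hc0 hc1).isClosed))).isOpen_compl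
  -- points of the image of `T` beside the slab
  have hTC : ∀ q ∈ TD, q.2 < 1 / 4 → δ / 512 < |q.1.im| → T q ∈ Cᶜ := by
    intro q hq hq1 hq2 hqC
    rcases hqC with h | h | h
    · exact ExH_slab hT.cht hδ hδ1 hq hq1 hq2 h
    · exact Set.disjoint_left.1 hD₁ ⟨q, hq, rfl⟩ h
    · exact Set.disjoint_left.1 hD₂ ⟨q, hq, rfl⟩ h
  have hTY : ∀ q ∈ TD, q.2 < 1 / 4 → δ / 256 < q.1.im → T q ∈ Y := by
    intro q hq hq1 hq2
    rintro (h | h | h | h)
    · have h1 : T q ∈ core κ ∩ T '' TD := ⟨h, q, hq, rfl⟩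
      rw [hT.hit] at h1
      obtain ⟨q', hq', h'⟩ := h1
      have h3 := hT.cht.inj hq'.1 hq h'
      rw [h3] at hq'
      rcases hq'.2 with h4 | h4
      · linarith [h4.2]
      · linarith [h4.1]
    · exact hTC q hq hq1 (by rw [abs_of_pos (by linarith)]; linarith) h
    · exact hBim 0 le_rfl (by norm_num) q hq hq2 h
    · exact hBim _ hc0 hc1 q hq hq2 h
  -- the tubes
  have hfoot : ∀ c : ℝ, 0 ≤ c → c ≤ 5 / 16 → ∀ q : E, ‖q.1‖ ≤ 1 → |q.2| ≤ 5 / 4 →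
      footT κ' (P + ε * c) (ε * s) q = T (ExH_h s c q) := by
    intro c hc hc1 q hq hq1
    have h1 := ExH_h_mem hs hs1 hc hc1 hq hq1
    exact ExH_foot hTE h1.1 (by linarith [(abs_le.1 h1.2.1).2])
  have hP0 : P + ε * 0 = P := by ring
  have hP1 : P + ε * (5 / 16 * δ) = P + 5 / 16 * (ε * δ) := by ring
  have hf0 : ∀ q : E, ‖q.1‖ ≤ 1 → |q.2| ≤ 5 / 4 → footT κ' P (ε * δ / 64) q = T (ExH_h s 0 q) := by
    intro q hq hq1
    have := hfoot 0 le_rfl (by norm_num) q hq hq1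
    rw [hP0] at this
    rw [hεs, this]
  have hf1 : ∀ q : E, ‖q.1‖ ≤ 1 → |q.2| ≤ 5 / 4 →
      footT κ' (P + 5 / 16 * (ε * δ)) (ε * δ / 64) q = T (ExH_h s (5 / 16 * δ) q) := by
    intro q hq hq1
    have := hfoot _ hc0 hc1 q hq hq1
    rw [hP1] at this
    rw [hεs, this]
  have hh2 : ∀ c : ℝ, 0 ≤ c → c ≤ 5 / 16 → ∀ q : E, ‖q.1‖ ≤ 1 → |q.2| ≤ 5 / 4 → (ExH_h s c q).2 < 1 / 4 := by
    intro c hc hc1 q hq hq1
    linarith [(abs_le.1 (ExH_h_mem hs hs1 hc hc1 hq hq1).2.1).2]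
  have htube : ∀ c : ℝ, 0 ≤ c → c ≤ 5 / 16 → ∀ q : E, ‖q.1‖ < 1 / 2 → 1 / 4 < q.2 → q.2 < 5 / 8 →
      T (ExH_h s c q) ∈ Y := by
    intro c hc hc1 q hq hq1 hq2
    have hq3 : |q.2| ≤ 5 / 4 := abs_le.2 ⟨by linarith, by linarith⟩
    refine hTY _ (ExH_h_mem hs hs1 hc hc1 (by linarith) hq3).1 (hh2 c hc hc1 q (by linarith) hq3) ?_
    show δ / 256 < s * q.2
    have h3 := mul_lt_mul_of_pos_left hq1 hs
    rw [hsdef] at h3 ⊢
    linarith
  -- the segments at the ends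
  have hseg : ∀ l r : ℝ, κ (P + ε * l, -(((η * ε * r : ℝ) : ℂ) * Complex.I)) = κ (P + ε * ((⟨l, r⟩, 0) : E).1.re,
      -(((η * ε : ℝ) : ℂ) * ⟨((⟨l, r⟩, 0) : E).2, ((⟨l, r⟩, 0) : E).1.im⟩)) := by
    intro l r
    congr 1
    apply Prod.ext
    · rfl
    · apply Complex.ext
      · simp
      · simp
  have hsegT : ∀ l r : ℝ, |l| + |r| < 1 → κ (P + ε * l, -(((η * ε * r : ℝ) : ℂ) * Complex.I)) = T (⟨l, r⟩, 0) := by
    intro l r hlr
    rw [hseg, ExH_T hTE ⟨ExH_norm hlr, by norm_num, by norm_num⟩ (by norm_num)]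
  have hs1p : ∀ t : ℝ, seg κ (P, -(((η * ε * δ / 128 : ℝ) : ℂ) * Complex.I)) (P, -(((η * ε / 8 : ℝ) : ℂ) * Complex.I)) t
      = κ (P + ε * 0, -(((η * ε * ((1 - t) * (δ / 128) + t / 8) : ℝ) : ℂ) * Complex.I)) := by
    intro t
    unfold seg
    congr 1
    apply Prod.ext
    · simp
      ring
    · apply Complex.ext
      · simp
      · simp
        ring
  have hs2p : ∀ t : ℝ, seg κ (P, -(((η * ε / 8 : ℝ) : ℂ) * Complex.I))
      (P + 5 / 16 * (ε * δ), -(((η * ε * δ / 128 : ℝ) : ℂ) * Complex.I)) t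
      = κ (P + ε * (t * (5 / 16 * δ)), -(((η * ε * ((1 - t) / 8 + t * (δ / 128)) : ℝ) : ℂ) * Complex.I)) := by
    intro t
    unfold seg
    congr 1
    apply Prod.ext
    · simp
      ring
    · apply Complex.ext
      · simp
      · simp
        ring
  set s1 : ℝ → N := seg κ (P, -(((η * ε * δ / 128 : ℝ) : ℂ) * Complex.I)) (P, -(((η * ε / 8 : ℝ) : ℂ) * Complex.I))
    with hs1def
  set s2 : ℝ → N := seg κ (P, -(((η * ε / 8 : ℝ) : ℂ) * Complex.I))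
    (P + 5 / 16 * (ε * δ), -(((η * ε * δ / 128 : ℝ) : ℂ) * Complex.I)) with hs2def
  have hcont : ∀ x y : ℝ × ℂ, ‖x.2‖ < 1 → ‖y.2‖ < 1 → ContinuousOn (seg κ x y) (Icc 0 1) := by
    intro x y hx hy
    unfold seg
    refine (thick_cont hκ).comp (by fun_prop) ?_
    intro t ht
    show ‖(1 - t) • x.2 + t • y.2‖ < 1
    have h1 : Convex ℝ (Metric.ball (0 : ℂ) 1) := convex_ball _ _
    have h2 := h1 (x := x.2) (by simpa using hx) (y := y.2) (by simpa using hy)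
      (a := 1 - t) (b := t) (by linarith [ht.2]) ht.1 (by ring)
    simpa using h2
  have hnI : ∀ r : ℝ, 0 < r → r < 1 → ‖-((r : ℂ) * Complex.I)‖ < 1 := by
    intro r hr hr1
    rw [norm_neg, norm_mul, Complex.norm_I, mul_one, Complex.norm_real, Real.norm_eq_abs, abs_of_pos hr]
    exact hr1
  have hηεδ : 0 < η * ε * δ := mul_pos hH hδ
  have hηεδ1 : η * ε * δ ≤ η * ε := by
    have := mul_le_mul_of_nonneg_left hδ1 hH.le
    linarith
  have hs1c : ContinuousOn s1 (Icc 0 1) := hcont _ _ (hnI (η * ε * δ / 128) (by linarith) (by linarith))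
    (hnI (η * ε / 8) (by linarith) (by linarith))
  have hs2c : ContinuousOn s2 (Icc 0 1) := hcont _ _ (hnI (η * ε / 8) (by linarith) (by linarith))
    (hnI (η * ε * δ / 128) (by linarith) (by linarith))
  have hs1P : PathOn Y s1 := by
    refine ⟨hs1c, fun t ht => ?_⟩
    rw [hs1p t]
    have h1 : (1 - t) * (δ / 128) ≤ (1 - t) * (1 / 8) :=
      mul_le_mul_of_nonneg_left (by linarith) (by linarith [ht.2])
    have h2 : t * (δ / 128) ≤ t * (1 / 8) := mul_le_mul_of_nonneg_left (by linarith) ht.1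
    have h0 : δ / 128 ≤ (1 - t) * (δ / 128) + t / 8 ∧ (1 - t) * (δ / 128) + t / 8 ≤ 1 / 8 :=
      ⟨by linarith, by linarith⟩
    rw [hsegT 0 _ (by rw [abs_zero, abs_of_pos (by linarith)]; linarith)]
    refine hTY _ ⟨ExH_norm (by rw [abs_zero, abs_of_pos (by linarith)]; linarith), by norm_num, by norm_num⟩
      (by norm_num) ?_
    show δ / 256 < (1 - t) * (δ / 128) + t / 8
    linarith
  have hs2P : PathOn Y s2 := by
    refine ⟨hs2c, fun t ht => ?_⟩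
    have h1 : (1 - t) * (δ / 128) ≤ (1 - t) * (1 / 8) :=
      mul_le_mul_of_nonneg_left (by linarith) (by linarith [ht.2])
    have h2 : t * (δ / 128) ≤ t * (1 / 8) := mul_le_mul_of_nonneg_left (by linarith) ht.1
    have h0 : δ / 128 ≤ (1 - t) / 8 + t * (δ / 128) ∧ (1 - t) / 8 + t * (δ / 128) ≤ 1 / 8 :=
      ⟨by linarith, by linarith⟩
    have h5 : |t * (5 / 16 * δ)| ≤ 5 / 16 := by
      rw [abs_of_nonneg (mul_nonneg ht.1 (by linarith))]
      have := mul_le_mul ht.2 (show 5 / 16 * δ ≤ 5 / 16 by linarith) (by linarith) zero_le_one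
      linarith
    have h6 : |t * (5 / 16 * δ)| + |(1 - t) / 8 + t * (δ / 128)| < 1 := by
      rw [abs_of_pos (by linarith : 0 < (1 - t) / 8 + t * (δ / 128))]
      linarith
    rw [hs2p t, hsegT _ _ h6]
    refine hTY _ ⟨ExH_norm h6, by norm_num, by norm_num⟩ (by norm_num) ?_
    show δ / 256 < (1 - t) / 8 + t * (δ / 128)
    linarith
  have hγP : PathOn Y γ' := by
    refine ⟨hγ'.1, fun t ht => ?_⟩
    rintro (h | (h | h | h) | h | h)
    · exact hγ'.2 t ht h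
    · exact hslabγ t ht h
    · exact Set.disjoint_left.1 hg₁ ⟨t, ht, rfl⟩ h
    · exact Set.disjoint_left.1 hg₂ ⟨t, ht, rfl⟩ h
    · exact hBγ 0 le_rfl hc0 t ht h
    · exact hBγ _ hc0 le_rfl t ht h
  have e1 : s1 1 = γ' 0 := by
    rw [hs1def, seg_one, hγ'0]
  have e2 : γ' 1 = s2 0 := by
    rw [hs2def, seg_zero, hγ'1]
  have e3 : cat s1 γ' 1 = s2 0 := by
    rw [cat_one, e2]
  have hfP : PathOn Y (cat (cat s1 γ') s2) := PathOn.cat (PathOn.cat hs1P hγP e1) hs2P e3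
  have hκ'v : ∀ l r : ℝ, κ' (l, (r : ℂ)) = κ (l, -(((η * r : ℝ) : ℂ) * Complex.I)) := by
    intro l r
    rw [hκ']
    unfold rot kap
    simp only
    congr 2
    push_cast
    ring
  have hYc : Y ⊆ (core κ)ᶜ := fun y hy h => hy (Or.inl h)
  obtain ⟨Θ, hΘ, hΘE, hΘY, hΘh⟩ := ext.E1b κ' hκ't P (P + 5 / 16 * (ε * δ)) (ε * δ / 64) hA Y hYo
    (by
      rw [hcore, Set.disjoint_left]
      exact hYc)
    (by
      intro q hq hq1
      rw [hf0 q hq (by linarith), hf1 q hq (by linarith)]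
      exact ⟨fun h => h (Or.inr (Or.inr (Or.inl ⟨_, ⟨q, ⟨hq, hq1⟩, rfl⟩, rfl⟩))),
        fun h => h (Or.inr (Or.inr (Or.inr ⟨_, ⟨q, ⟨hq, hq1⟩, rfl⟩, rfl⟩)))⟩)
    (by
      intro q hq hq1 hq2
      have hq3 : |q.2| ≤ 5 / 4 := abs_le.2 ⟨by linarith, by linarith⟩
      rw [hf0 q (by linarith) hq3, hf1 q (by linarith) hq3]
      exact ⟨htube 0 le_rfl (by norm_num) q hq hq1 hq2, htube _ hc0 hc1 q hq hq1 hq2⟩)
    (cat (cat s1 γ') s2) hfP
    (by
      rw [cat_zero, cat_zero, hκ'v, hs1def, seg_zero]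
      congr 5
      ring)
    (by
      rw [cat_one, hκ'v, hs2def, seg_one]
      congr 5
      ring)
  rw [hcore] at hΘ hΘh
  -- the middle part
  have hmid : ∀ q ∈ TD, 1 / 4 ≤ q.2 → q.2 ≤ 3 / 4 → Θ q ∈ Y ∨ ∃ (c : ℝ) (q' : E), 0 ≤ c ∧ c ≤ 5 / 16 ∧
      ‖q'.1‖ < 1 ∧ 1 / 4 ≤ q'.2 ∧ q'.2 ≤ 3 / 8 ∧ Θ q = T (ExH_h s c q') := by
    intro q hq hq1 hq2
    rcases hΘY q hq hq1 hq2 with h | ⟨q', h1, h2, h3, h4⟩
    · exact Or.inl h
    · right
      have h5 : |q'.2| ≤ 5 / 4 := abs_le.2 ⟨by linarith, by linarith⟩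
      rw [hf0 q' h1.le h5, hf1 q' h1.le h5] at h4
      rcases h4 with h4 | h4
      · exact ⟨0, q', le_rfl, by norm_num, h1, h2, h3, h4⟩
      · exact ⟨_, q', hc0, hc1, h1, h2, h3, h4⟩
  have hΘT : ∀ T' : E → N, closure (T' '' TD) ⊆ C → Disjoint (T '' TD) (closure (T' '' TD)) →
      Disjoint (Θ '' TD ∪ T '' TD) (T' '' TD) := by
    intro T' hsub hd
    rw [Set.disjoint_left]
    have hTn : ∀ r ∈ TD, T r ∉ T' '' TD := fun r hr h =>
      Set.disjoint_left.1 hd ⟨r, hr, rfl⟩ (subset_closure h)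
    rintro y (⟨q, hq, rfl⟩ | hy) hy'
    · rcases lt_or_ge q.2 (1 / 4) with h1 | h1
      · have h5 : |q.2| ≤ 5 / 4 := abs_le.2 ⟨by linarith [hq.2.1], by linarith⟩
        rw [hΘE.foot q hq h1, hf0 q hq.1.le h5] at hy'
        exact hTn _ (ExH_h_mem hs hs1 le_rfl (by norm_num) hq.1.le h5).1 hy'
      · rcases lt_or_ge (3 / 4) q.2 with h2 | h2
        · have h3 := ExH_t_mem hs hs1 hδ hδ1 hq.1 (by linarith) hq.2.2
          rw [hΘE.tip q hq h2, hεs, ExH_tip hTE h3.1 h3.2] at hy'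
          exact hTn _ h3.1 hy'
        · rcases hmid q hq h1 h2 with h | ⟨c, q', hc, hc', h3, h4, h5, h6⟩
          · exact h (Or.inr (Or.inl (hsub (subset_closure hy'))))
          · rw [h6] at hy'
            exact hTn _ (ExH_h_mem hs hs1 hc hc' h3.le (abs_le.2 ⟨by linarith, by linarith⟩)).1 hy'
    · exact Set.disjoint_left.1 hd hy (subset_closure hy')
  refine ⟨δ, Θ, T₁', T₂', hδ, hδ1, hΘ, hΘE, ?_, ?_, hF₁, hL₁,
    hΘT T₁' (fun y hy => Or.inr (Or.inl hy)) hD₁, hF₂, hL₂, hΘT T₂' (fun y hy => Or.inr (Or.inr hy)) hD₂⟩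
  · intro q hq hq1 hq2 hqs
    rcases hmid q hq hq1 hq2 with h | ⟨c, q', hc, hc', h3, h4, h5, h6⟩
    · exact h (Or.inr (Or.inl (Or.inl hqs)))
    · have h7 : |q'.2| ≤ 5 / 4 := abs_le.2 ⟨by linarith, by linarith⟩
      rw [h6] at hqs
      refine ExH_slab hT.cht hδ hδ1 (ExH_h_mem hs hs1 hc hc' h3.le h7).1 (hh2 c hc hc' q' h3.le h7) ?_ hqs
      show δ / 512 < |s * q'.2|
      have h8 := mul_le_mul_of_nonneg_left h4 hs.le
      rw [abs_of_pos (mul_pos hs (by linarith)), hsdef]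
      rw [hsdef] at h8
      linarith
  · -- the value
    set V : Set (ℝ × ℂ) := {q | ‖q.2‖ < 1 ∧ q.2.im < 0} with hV
    have hVc : Convex ℝ V := by
      have h1 : V = (univ : Set ℝ) ×ˢ (Metric.ball (0 : ℂ) 1 ∩ {z : ℂ | z.im < 0}) := by
        ext q
        simp [hV]
      rw [h1]
      exact convex_univ.prod ((convex_ball _ _).inter (convex_halfSpace_im_lt 0))
    have hVcont : ContinuousOn κ V := (thick_cont hκ).mono fun q hq => hq.1
    have hVY : ∀ q ∈ V, κ q ∈ (core κ)ᶜ := by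
      rintro ⟨l, v⟩ ⟨h1, h2⟩
      refine thick_off hκ h1 ?_
      rintro rfl
      simp at h2
    have hVm : ∀ l r : ℝ, 0 < r → r < 1 → ((l, -((r : ℂ) * Complex.I)) : ℝ × ℂ) ∈ V := by
      intro l r hr hr1
      refine ⟨hnI r hr hr1, ?_⟩
      show (-((r : ℂ) * Complex.I)).im < 0
      simp
      exact hr
    have hp8 : η * ε / 8 < 1 := by linarith
    have hp1 : η * ε * δ / 128 < 1 := by linarith
    have hp2 : η * ε * δ / 512 < 1 := by linarith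
    have hm1 := hVm P (η * ε * δ / 512) (by linarith) hp2
    have hm2 := hVm P (η * ε * δ / 128) (by linarith) hp1
    have hm3 := hVm P (η * ε / 8) (by linarith) hp8
    have hm4 := hVm (P + 5 / 16 * (ε * δ)) (η * ε * δ / 128) (by linarith) hp1
    have hm5 := hVm (P + 5 / 16 * (ε * δ)) (η * ε * δ / 512) (by linarith) hp2
    have ea : η * (ε * δ / 64 / 8) = η * ε * δ / 512 := by ring
    have eb : η * (ε * δ / 64 / 2) = η * ε * δ / 128 := by ring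
    have hsg0 : seg κ' (P, ((ε * δ / 64 / 8 : ℝ) : ℂ)) (P, ((ε * δ / 64 / 2 : ℝ) : ℂ))
        = seg κ (P, -(((η * ε * δ / 512 : ℝ) : ℂ) * Complex.I)) (P, -(((η * ε * δ / 128 : ℝ) : ℂ) * Complex.I)) := by
      rw [hκ', ExH_seg, ea, eb]
    have hsg1 : seg κ' (P + 5 / 16 * (ε * δ), ((ε * δ / 64 / 2 : ℝ) : ℂ))
        (P + 5 / 16 * (ε * δ), ((ε * δ / 64 / 8 : ℝ) : ℂ))
        = seg κ (P + 5 / 16 * (ε * δ), -(((η * ε * δ / 128 : ℝ) : ℂ) * Complex.I))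
          (P + 5 / 16 * (ε * δ), -(((η * ε * δ / 512 : ℝ) : ℂ) * Complex.I)) := by
      rw [hκ', ExH_seg, ea, eb]
    rw [hsg0, hsg1] at hΘh
    have hq0 := seg_path hVc hVcont hVY hm1 hm2
    have hq1 := seg_path hVc hVcont hVY hm4 hm5
    have hfc := hfP.mono hYc
    have i1 : seg κ (P, -(((η * ε * δ / 512 : ℝ) : ℂ) * Complex.I)) (P, -(((η * ε * δ / 128 : ℝ) : ℂ) * Complex.I)) 1
        = cat (cat s1 γ') s2 0 := by
      rw [cat_zero, cat_zero, seg_one, hs1def, seg_zero]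
    have i2 : cat (seg κ (P, -(((η * ε * δ / 512 : ℝ) : ℂ) * Complex.I))
        (P, -(((η * ε * δ / 128 : ℝ) : ℂ) * Complex.I))) (cat (cat s1 γ') s2) 1
        = seg κ (P + 5 / 16 * (ε * δ), -(((η * ε * δ / 128 : ℝ) : ℂ) * Complex.I))
          (P + 5 / 16 * (ε * δ), -(((η * ε * δ / 512 : ℝ) : ℂ) * Complex.I)) 0 := by
      rw [cat_one, cat_one, seg_zero, hs2def, seg_one]
    rw [G.hmt _ _ hΘh, G.ct _ _ (PathOn.cat hq0 hfc i1) hq1 i2, G.ct _ _ hq0 hfc i1,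
      G.ct _ _ ((PathOn.cat hs1P hγP e1).mono hYc) (hs2P.mono hYc) e3,
      G.ct _ _ (hs1P.mono hYc) (hγP.mono hYc) e1, hγ'g,
      ← seg_tri G hVc hVcont hVY hm1 hm2 hm3, ← seg_tri G hVc hVcont hVY hm3 hm4 hm5, ← hs1def, ← hs2def]
    simp only [mul_assoc]

end Pool.Agent.NHR
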