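import Mathlib
import Pool.Agent.NHR.Defs
import Pool.Agent.NHR.Geo
import Pool.Agent.NHR.Sgm
import Pool.Agent.NHR.MdY
import Pool.Agent.NHR.FinB

/-!
# NHR/ExT: existence of the first chord, with given class `a η ε` (difficulty 4)

`P = (3p + p')/4`, `P₂ = (p + 3p')/4`.  (1) `thnV` with `O = univ`, small `ε'`: chords `T₁'`, `T₂'` with compact closures `C`; `K ∩ closure (T₁' '' TD) ⊆ T₁ '' TS` (`Chd`), so, thinning
once more with small `ε`, `κ (P, 0)`, `κ (P₂, 0) ∉ C`.  (2) `η`, `ε` small: the tubes `κ (l, v)`, `|l - P| ≤ ε`, `‖v‖ ≤ 2 η ε` (and `P₂`) are disjoint from `C`.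
(3) `hG.sur`: a path `f` of `(core κ)ᶜ` from `κ (P, -h)` to `κ (P₂, -h)`, `h = η ε / 8`, with `G.val f = a η ε`.
(4) `ext.Avd`: `f` off the cores of `T₁'`, `T₂'`.  (5) `thnV` again with `O` = the complement of `f '' [0,1]` and of the closed tubes of (2): `T₁''`, `T₂''`, closures disjoint from them.
(6) `E1V` for `rot κ (-1)`, `O = ` the complement of the two closures: `T`.
-/

open scoped Manifold ContDiff Topology
open Set Filter
open Pool.Agent.CSG (stp)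
open Pool.Agent.RSG (E3 ex Thick)
open Pool.Agent.KNT (Dom Str Str2 bmp)
open Pool.Agent.NHP

namespace Pool.Agent.NHR

universe u v

variable {N : Type u} [TopologicalSpace N] [ChartedSpace E3 N] [T2Space N] {Γ : Type v} [Group Γ]

/-- a chord with standard ends does not meet the knot between its ends -/
theorem extT_mem {κ : ℝ × ℂ → N} (hκ : Thick κ) {p p' η ε : ℝ} {T : E → N} (h : FinE κ p p' η ε T)
    (hp' : p' < p + 1) {l : ℝ} (hl : p + ε ≤ l) (hl' : l ≤ p' - ε) : κ (l, 0) ∉ T '' TD := by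
  intro hm
  have h1 : κ (l, 0) ∈ core κ ∩ T '' TD := ⟨⟨l, rfl⟩, hm⟩
  rw [h.chd.hit] at h1
  obtain ⟨q, ⟨hqD, hq⟩, hqe⟩ := h1
  have hε := h.adm.pos
  have hre : |q.1.re| < 1 := lt_of_le_of_lt (Complex.abs_re_le_norm _) hqD.1
  have him : |q.1.im| < 1 := lt_of_le_of_lt (Complex.abs_im_le_norm _) hqD.1
  have hre' := abs_lt.1 hre
  have him' := abs_lt.1 him
  have hint : ∀ m : ℤ, (m : ℝ) < 0 → (m : ℝ) ≤ -1 := by
    intro m hm
    have h2 : m < 0 := by exact_mod_cast hm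
    have h3 : m ≤ -1 := by omega
    exact_mod_cast h3
  rcases hq with ⟨hx, hy⟩ | ⟨hx, hy⟩
  · rw [h.std.foot q hqD (by rw [hx]; norm_num)] at hqe
    have e1 : footT (kap κ η) p ε q = κ (p + ε * q.1.re, 0) := by
      have e2 : (⟨q.2, q.1.im⟩ : ℂ) = 0 := Complex.ext hx hy
      unfold footT kap
      rw [e2, mul_zero]
      show κ (p + ε * q.1.re, (η : ℂ) * 0) = _
      rw [mul_zero]
    rw [e1] at hqe
    obtain ⟨-, m, hm⟩ := hκ.inj _ _ _ _ (by simp) (by simp) hqe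
    have h3 : ε * q.1.re < ε := by nlinarith [hre'.2]
    have h4 : -ε < ε * q.1.re := by nlinarith [hre'.1]
    have h5 : (-m : ℝ) < 0 ∨ (0 : ℝ) ≤ -m := lt_or_ge _ _
    rcases h5 with h5 | h5
    · have h6 := hint (-m) (by push_cast; exact h5)
      push_cast at h6
      linarith
    · linarith
  · rw [h.std.tip q hqD (by rw [hx]; norm_num)] at hqe
    have e1 : tipT (kap κ η) p' ε 1 q = κ (p' + ε * q.1.im, 0) := by
      have e2 : (⟨1 - q.2, q.1.re⟩ : ℂ) = 0 := Complex.ext (by rw [hx]; simp) hy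
      unfold tipT kap
      rw [e2, mul_zero]
      show κ (p' + 1 * ε * q.1.im, (η : ℂ) * 0) = _
      rw [mul_zero, one_mul]
    rw [e1] at hqe
    obtain ⟨-, m, hm⟩ := hκ.inj _ _ _ _ (by simp) (by simp) hqe
    have h3 : ε * q.1.im < ε := by nlinarith [him'.2]
    have h4 : -ε < ε * q.1.im := by nlinarith [him'.1]
    rcases lt_or_ge (m : ℝ) 0 with h5 | h5
    · have h6 := hint m h5
      linarith
    · linarith

/-- a closed tube around a short arc of the knot -/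
def extT_Z (κ : ℝ × ℂ → N) (P ε : ℝ) : Set N := κ '' (Icc (P - 4 * ε) (P + 4 * ε) ×ˢ Metric.closedBall (0 : ℂ) (4 * ε))

theorem extT_Z_compact {κ : ℝ × ℂ → N} (hκ : Thick κ) (P : ℝ) {ε : ℝ} (hε : 4 * ε < 1 / 4) :
    IsCompact (extT_Z κ P ε) := by
  refine (isCompact_Icc.prod (isCompact_closedBall _ _)).image_of_continuousOn
    ((thick_cont hκ).mono ?_)
  rintro ⟨l, v⟩ ⟨-, hv⟩
  have hv' : dist v 0 ≤ 4 * ε := hv
  rw [dist_zero_right] at hv'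
  show ‖v‖ < 1
  linarith

/-- a small tube around a point of the knot which is not in the closed set `C` -/
theorem extT_rho {κ : ℝ × ℂ → N} (hκ : Thick κ) (P : ℝ) {C : Set N} (hC : IsClosed C) (hP : κ (P, 0) ∉ C) :
    ∃ ρ : ℝ, 0 < ρ ∧ ∀ ε : ℝ, 4 * ε < ρ → Disjoint (extT_Z κ P ε) C := by
  have h1 : ContinuousAt κ (P, (0 : ℂ)) := by
    refine (thick_cont hκ).continuousAt (IsOpen.mem_nhds ?_ ?_)
    · exact isOpen_lt continuous_snd.norm continuous_const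
    · show ‖(0 : ℂ)‖ < 1
      rw [norm_zero]
      exact one_pos
  have h2 : κ ⁻¹' Cᶜ ∈ 𝓝 (P, (0 : ℂ)) := h1.preimage_mem_nhds (hC.isOpen_compl.mem_nhds hP)
  obtain ⟨ρ, hρ, hρ2⟩ := Metric.mem_nhds_iff.1 h2
  refine ⟨ρ, hρ, fun ε hε => ?_⟩
  rw [Set.disjoint_left]
  rintro _ ⟨⟨l, v⟩, ⟨hl, hv⟩, rfl⟩ hC'
  refine hρ2 ?_ hC'
  have hv' : dist v 0 ≤ 4 * ε := hv
  have hl' : P - 4 * ε ≤ l ∧ l ≤ P + 4 * ε := hl
  have h0 : 0 ≤ 4 * ε := dist_nonneg.trans hv'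
  rw [Metric.mem_ball, Prod.dist_eq, max_lt_iff]
  refine ⟨?_, lt_of_le_of_lt hv' hε⟩
  show dist l P < ρ
  rw [Real.dist_eq, abs_lt]
  constructor <;> linarith [hl'.1, hl'.2]

/-- thinning twice: the closure does not meet the knot between the ends -/
theorem extT_thin (ext : Ext N) {κ : ℝ × ℂ → N} (hκ : Thick κ) {Γ : Type v} [Group Γ] (G : GHom (core κ)ᶜ Γ) {p p' : ℝ}
    (hp : p < p') (hp' : p' < p + 1) {c : Γ} {T : E → N} (h : FinV G κ p p' c T) :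
    ∃ T' : E → N, FinV G κ p p' c T' ∧ LEqN (kn (core κ) T) (kn (core κ) T') ∧ IsCompact (closure (T' '' TD)) ∧
      κ ((3 * p + p') / 4, 0) ∉ closure (T' '' TD) ∧ κ ((p + 3 * p') / 4, 0) ∉ closure (T' '' TD) := by
  obtain ⟨r, hr, hr2⟩ := thnV ext hκ G h isOpen_univ (fun x _ => mem_univ _)
  have hε : 0 < min r ((p' - p) / 8) := lt_min hr (by linarith)
  obtain ⟨T₀, hT₀, hc₀, -, -, hL₀⟩ := hr2 r (min r ((p' - p) / 8)) hr le_rfl hε (min_le_left _ _)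
  obtain ⟨s, hs, hs2⟩ := thnV ext hκ G (c := c) ⟨_, _, hT₀, hc₀⟩ isOpen_univ (fun x _ => mem_univ _)
  obtain ⟨T₁, hT₁, hc₁, hK₁, hs₁, hL₁⟩ := hs2 s s hs le_rfl hs le_rfl
  have h8 : min r ((p' - p) / 8) ≤ (p' - p) / 8 := min_le_right _ _
  refine ⟨T₁, ⟨_, _, hT₁, hc₁⟩, hL₀.trans hL₁, hK₁, fun hm => ?_, fun hm => ?_⟩
  · exact extT_mem hκ hT₀ hp' (by linarith) (by linarith) (hs₁ hm).2
  · exact extT_mem hκ hT₀ hp' (by linarith) (by linarith) (hs₁ hm).2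

theorem exists_T (ext : Ext N) {κ : ℝ × ℂ → N} (hκ : Thick κ) (G : GHom (core κ)ᶜ Γ) (hG : Full G) {p p' : ℝ}
    (hp : p < p') (hp' : p' < p + 1) (a : ℝ → ℝ → Γ) {c₁ c₂ : Γ} {T₁ T₂ : E → N} (h₁ : FinV G κ p p' c₁ T₁)
    (h₂ : FinV G κ p p' c₂ T₂) : ∃ (η ε : ℝ) (T T₁' T₂' : E → N), 0 < η ∧ η ≤ 1 ∧ 0 < ε ∧ ε < (p' - p) / 16 ∧
      Chd (core κ) T ∧ StdE (kap (rot κ (-1)) η) ((3 * p + p') / 4) ((p + 3 * p') / 4) ε 1 T ∧
      G.val (cor T) = a η ε ∧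
      FinV G κ p p' c₁ T₁' ∧ LEqN (kn (core κ) T₁) (kn (core κ) T₁') ∧ IsCompact (closure (T₁' '' TD)) ∧
      Disjoint (T '' TD) (closure (T₁' '' TD)) ∧
      FinV G κ p p' c₂ T₂' ∧ LEqN (kn (core κ) T₂) (kn (core κ) T₂') ∧ IsCompact (closure (T₂' '' TD)) ∧
      Disjoint (T '' TD) (closure (T₂' '' TD)) := by
  classical
  obtain ⟨S₁, hS₁, hL₁, hK₁, hP₁, hQ₁⟩ := extT_thin ext hκ G hp hp' h₁
  obtain ⟨S₂, hS₂, hL₂, hK₂, hP₂, hQ₂⟩ := extT_thin ext hκ G hp hp' h₂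
  set P : ℝ := (3 * p + p') / 4 with hPd
  set Q : ℝ := (p + 3 * p') / 4 with hQd
  set C : Set N := closure (S₁ '' TD) ∪ closure (S₂ '' TD) with hCd
  have hC : IsClosed C := isClosed_closure.union isClosed_closure
  obtain ⟨ρ, hρ, hρ2⟩ := extT_rho hκ P hC (fun h => h.elim hP₁ hP₂)
  obtain ⟨σ, hσ, hσ2⟩ := extT_rho hκ Q hC (fun h => h.elim hQ₁ hQ₂)
  obtain ⟨ε, hε, hε1, hε2, hε3, hε4⟩ : ∃ ε : ℝ, 0 < ε ∧ 4 * ε < ρ ∧ 4 * ε < σ ∧ ε < (p' - p) / 16 ∧ 4 * ε < 1 / 4 := by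
    refine ⟨min (min (ρ / 8) (σ / 8)) (min ((p' - p) / 32) (1 / 32)), ?_, ?_, ?_, ?_, ?_⟩
    · exact lt_min (lt_min (by linarith) (by linarith)) (lt_min (by linarith) (by norm_num))
    · have : min (min (ρ / 8) (σ / 8)) (min ((p' - p) / 32) (1 / 32)) ≤ ρ / 8 :=
        (min_le_left _ _).trans (min_le_left _ _)
      linarith
    · have : min (min (ρ / 8) (σ / 8)) (min ((p' - p) / 32) (1 / 32)) ≤ σ / 8 :=
        (min_le_left _ _).trans (min_le_right _ _)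
      linarith
    · have : min (min (ρ / 8) (σ / 8)) (min ((p' - p) / 32) (1 / 32)) ≤ (p' - p) / 32 :=
        (min_le_right _ _).trans (min_le_left _ _)
      linarith
    · have : min (min (ρ / 8) (σ / 8)) (min ((p' - p) / 32) (1 / 32)) ≤ 1 / 32 :=
        (min_le_right _ _).trans (min_le_right _ _)
      linarith
  have hd1 : Disjoint (extT_Z κ P ε) C := hρ2 ε hε1
  have hd2 : Disjoint (extT_Z κ Q ε) C := hσ2 ε hε2
  have hZ1 : IsCompact (extT_Z κ P ε) := extT_Z_compact hκ P hε4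
  have hZ2 : IsCompact (extT_Z κ Q ε) := extT_Z_compact hκ Q hε4
  have hZmem : ∀ R l : ℝ, |l - R| ≤ 4 * ε → ∀ v : ℂ, ‖v‖ ≤ 4 * ε → κ (l, v) ∈ extT_Z κ R ε := by
    intro R l hl v hv
    have hl' := abs_le.1 hl
    refine ⟨(l, v), ⟨⟨by linarith [hl'.1], by linarith [hl'.2]⟩, ?_⟩, rfl⟩
    show dist v 0 ≤ 4 * ε
    rw [dist_zero_right]
    exact hv
  have hhne : ((-(ε / 8) : ℝ) : ℂ) ≠ 0 := by
    rw [Ne, Complex.ofReal_eq_zero]
    have := hε.ne'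
    intro h
    apply this
    linarith
  have hhn : ‖((-(ε / 8) : ℝ) : ℂ)‖ = ε / 8 := by
    rw [Complex.norm_real, Real.norm_eq_abs, abs_neg, abs_of_pos (by linarith)]
  obtain ⟨f, hf, hf0, hf1, hfG⟩ := hG.sur (κ (P, ((-(ε / 8) : ℝ) : ℂ)))
    (thick_off hκ (by rw [hhn]; linarith) hhne) (κ (Q, ((-(ε / 8) : ℝ) : ℂ)))
    (thick_off hκ (by rw [hhn]; linarith) hhne) (a 1 ε)
  have hfP : κ (P, ((-(ε / 8) : ℝ) : ℂ)) ∉ C := fun h => Set.disjoint_left.1 hd1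
    (hZmem P P (by rw [sub_self, abs_zero]; linarith) _ (by rw [hhn]; linarith)) h
  have hfQ : κ (Q, ((-(ε / 8) : ℝ) : ℂ)) ∉ C := fun h => Set.disjoint_left.1 hd2
    (hZmem Q Q (by rw [sub_self, abs_zero]; linarith) _ (by rw [hhn]; linarith)) h
  have hTD0 : ∀ x ∈ Icc (-(1 / 5) : ℝ) (6 / 5), ((0 : ℂ), x) ∈ TD := by
    intro x hx
    refine ⟨?_, ?_, ?_⟩
    · show ‖(0 : ℂ)‖ < 1
      rw [norm_zero]
      exact one_pos
    · show -(1 / 4 : ℝ) < x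
      linarith [hx.1]
    · show x < 5 / 4
      linarith [hx.2]
  have hchd : ∀ n : ℕ, Chd (core κ) (if n = 0 then S₁ else S₂) := by
    intro n
    obtain ⟨_, _, hF1, _⟩ := hS₁
    obtain ⟨_, _, hF2, _⟩ := hS₂
    split_ifs
    · exact hF1.chd
    · exact hF2.chd
  have hSC : ∀ n : ℕ, ∀ x ∈ Icc (-(1 / 5) : ℝ) (6 / 5), (if n = 0 then S₁ else S₂) (0, x) ∈ C := by
    intro n x hx
    split_ifs
    · exact Or.inl (subset_closure ⟨_, hTD0 x hx, rfl⟩)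
    · exact Or.inr (subset_closure ⟨_, hTD0 x hx, rfl⟩)
  obtain ⟨g, hfg, hg⟩ := ext.Avd κ hκ (fun n => if n = 0 then S₁ else S₂) hchd 2 f hf (by
    intro n _ x hx
    refine ⟨fun h => hfP ?_, fun h => hfQ ?_⟩
    · rw [← hf0, ← h]
      exact hSC n x hx
    · rw [← hf1, ← h]
      exact hSC n x hx)
  have hgP := hfg.right
  have hgK : IsCompact (g '' Icc 0 1) := isCompact_Icc.image_of_continuousOn hgP.1
  set O : Set N := (g '' Icc 0 1 ∪ (extT_Z κ P ε ∪ extT_Z κ Q ε))ᶜ with hOd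
  have hO : IsOpen O := (hgK.union (hZ1.union hZ2)).isClosed.isOpen_compl
  have hIcc : ∀ x ∈ Icc (0 : ℝ) 1, x ∈ Icc (-(1 / 5) : ℝ) (6 / 5) := fun x hx =>
    ⟨by linarith [hx.1], by linarith [hx.2]⟩
  have hO1 : ∀ x ∈ Icc (0 : ℝ) 1, S₁ (0, x) ∈ O := by
    intro x hx h
    have hC1 := hSC 0 x (hIcc x hx)
    rw [if_pos rfl] at hC1
    rcases h with ⟨t, ht, he⟩ | h | h
    · exact hg 0 (by norm_num) x (hIcc x hx) t ht (by rw [if_pos rfl]; exact he.symm)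
    · exact Set.disjoint_left.1 hd1 h hC1
    · exact Set.disjoint_left.1 hd2 h hC1
  have hO2 : ∀ x ∈ Icc (0 : ℝ) 1, S₂ (0, x) ∈ O := by
    intro x hx h
    have hC1 := hSC 1 x (hIcc x hx)
    rw [if_neg one_ne_zero] at hC1
    rcases h with ⟨t, ht, he⟩ | h | h
    · exact hg 1 (by norm_num) x (hIcc x hx) t ht (by rw [if_neg one_ne_zero]; exact he.symm)
    · exact Set.disjoint_left.1 hd1 h hC1
    · exact Set.disjoint_left.1 hd2 h hC1
  obtain ⟨r, hr, hr2⟩ := thnV ext hκ G hS₁ hO hO1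
  obtain ⟨R₁, hR₁, hcR₁, hKR₁, hsR₁, hLR₁⟩ := hr2 r r hr le_rfl hr le_rfl
  obtain ⟨s, hs, hs2⟩ := thnV ext hκ G hS₂ hO hO2
  obtain ⟨R₂, hR₂, hcR₂, hKR₂, hsR₂, hLR₂⟩ := hs2 s s hs le_rfl hs le_rfl
  have hV : IsOpen (closure (R₁ '' TD) ∪ closure (R₂ '' TD))ᶜ :=
    (isClosed_closure.union isClosed_closure).isOpen_compl
  have hVO : closure (R₁ '' TD) ∪ closure (R₂ '' TD) ⊆ O :=
    union_subset (fun x hx => (hsR₁ hx).1) (fun x hx => (hsR₂ hx).1)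
  have hrot : ∀ (l : ℝ) (v : ℂ), rot κ (-1) (l, v) = κ (l, -v) := by
    intro l v
    unfold rot
    rw [neg_one_mul]
  have hend : ∀ l : ℝ, rot κ (-1) (l, ((1 * ε / 8 : ℝ) : ℂ)) = κ (l, ((-(ε / 8) : ℝ) : ℂ)) := by
    intro l
    rw [hrot]
    congr 2
    push_cast
    ring
  have hadm : ∀ δ : ℝ, 0 < δ → δ < 1 / 4 → 2 * δ < (p' - p) / 2 → Adm P Q δ := by
    intro δ hδ hδ4 hδp
    refine ⟨hδ, hδ4, fun k => ?_⟩
    have hPQ : P - Q = -((p' - p) / 2) := by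
      rw [hPd, hQd]
      ring
    rw [hPQ]
    rcases lt_or_ge 0 k with hk | hk
    · have hk1 : (1 : ℝ) ≤ k := by exact_mod_cast hk
      refine lt_of_lt_of_le ?_ (le_abs_self _)
      linarith
    · have hk1 : (k : ℝ) ≤ 0 := by exact_mod_cast hk
      refine lt_of_lt_of_le ?_ (neg_le_abs _)
      linarith
  obtain ⟨T, hT, hTV, hTH⟩ := E1V ext (thick_rot hκ (c := -1) (by simp)) (p := P) (p' := Q) (η := 1) (ε := ε) one_pos
    le_rfl (hadm ε hε (by linarith) (by linarith)) (hadm (4 * ε) (by linarith) hε4 (by linarith)) hV (f := g) (by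
      intro l hl v hv
      rw [hrot]
      refine fun h => hVO h (Or.inr (Or.inl (hZmem P l (by linarith) _ ?_)))
      rw [norm_neg]
      linarith) (by
      intro l hl v hv
      rw [hrot]
      refine fun h => hVO h (Or.inr (Or.inr (hZmem Q l (by linarith) _ ?_)))
      rw [norm_neg]
      linarith) ⟨hgP.1, fun t ht => ⟨fun h => hVO h (Or.inl ⟨t, ht, rfl⟩), by
        rw [core_rot]
        exact hgP.2 t ht⟩⟩ (by rw [hend, ← hfg.zero, hf0]) (by rw [hend, ← hfg.one, hf1])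
  refine ⟨1, ε, T, R₁, R₂, one_pos, le_rfl, hε, hε3, ?_, hT.std, ?_, ⟨_, _, hR₁, hcR₁⟩, hL₁.trans hLR₁, hKR₁, ?_,
    ⟨_, _, hR₂, hcR₂⟩, hL₂.trans hLR₂, hKR₂, ?_⟩
  · have := hT.chd
    rw [core_rot] at this
    exact this
  · have h9 : Hmt (core κ)ᶜ (cor T) g := hTH.mono (by
      rw [core_rot]
      exact fun x hx => hx.2)
    rw [G.hmt _ _ h9, ← G.hmt _ _ hfg, hfG]
  · rw [Set.disjoint_left]
    intro x hx hx2
    exact hTV hx (Or.inl hx2)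
  · rw [Set.disjoint_left]
    intro x hx hx2
    exact hTV hx (Or.inr hx2)

end Pool.Agent.NHR
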