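import Mathlib
import Pool.Agent.NHR.Defs
import Pool.Agent.NHR.MdY
import Pool.Agent.NHR.Bdl

/-!
# NHR/IdA: the label `a` in terms of the core of the chord `T` (difficulty 3)

`B = Bd T δ (-1)`, `D = ε δ`, `H = η ε`, `H' = η ε δ`.  As in `IdB`: `v(s₄,s₃) = v(s₄,s₇) v(s₇,c) v(c,c') v(c',s₇') v(s₇',s₃)` with `c = (0,0,1/8)`, `c' = (0,0,7/8)`, `v(c,c') = G.val (cor T)`
(`Bd_core`); the rest is in the charts `κ` (`B_foot`, `B_tip`), half planes `n = 1, 1 - I, -I, -1 - I, -1`.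
-/

open scoped Manifold ContDiff Topology
open Set Filter
open Pool.Agent.CSG (stp)
open Pool.Agent.RSG (E3 ex Thick)
open Pool.Agent.KNT (Dom Str Str2 bmp)
open Pool.Agent.NHP

namespace Pool.Agent.NHR

universe u v

variable {N : Type u} [TopologicalSpace N] [ChartedSpace E3 N] {Γ : Type v} [Group Γ]

/-- the label `a`, if the core has the value `c` -/
noncomputable def laP {Y : Set N} (G : GHom Y Γ) (κ : ℝ × ℂ → N) (p P P₂ h : ℝ) (c : Γ) : Γ :=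
  G.val (seg κ (p, 1 / 2) (P, (h : ℂ))) * G.val (seg κ (P, (h : ℂ)) (P, -((h : ℂ) * Complex.I))) *
  G.val (seg κ (P, -((h : ℂ) * Complex.I)) (P, -(h : ℂ))) * c *
  G.val (seg κ (P₂, -(h : ℂ)) (P₂, -((h : ℂ) * Complex.I))) * G.val (seg κ (P₂, -((h : ℂ) * Complex.I)) (P₂, (h : ℂ))) *
  G.val (seg κ (P₂, (h : ℂ)) (p, 1 / 2))

theorem IdA_mem (l a b c d : ℝ) (h : |a| + |b| < 1) (h' : 0 < c * a + d * b) :
    (l, (⟨a, b⟩ : ℂ)) ∈ kH (⟨c, d⟩ : ℂ) := by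
  refine ⟨?_, ?_⟩
  · show ‖(⟨a, b⟩ : ℂ)‖ < 1
    exact lt_of_le_of_lt (Complex.norm_le_abs_re_add_abs_im _) h
  · show 0 < ((starRingEnd ℂ) (⟨c, d⟩ : ℂ) * (⟨a, b⟩ : ℂ)).re
    rw [Complex.mul_re, Complex.conj_re, Complex.conj_im]
    show 0 < c * a - -d * b
    linarith

/-- three quarters of a turn along the half planes, from `h` to `-h` over `im < 0` -/
theorem IdA_turn {κ : ℝ × ℂ → N} (hκ : Thick κ) (G : GHom (core κ)ᶜ Γ) (p P P' h y : ℝ) (h0 : 0 < h)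
    (h1 : h < 1 / 32) (y0 : 0 < y) (y1 : y < 1 / 32) :
    G.val (seg κ (p, (⟨1 / 2, 0⟩ : ℂ)) (P', (⟨h, 0⟩ : ℂ))) *
      G.val (seg κ (P', (⟨h, 0⟩ : ℂ)) (P', (⟨h, -y⟩ : ℂ))) *
      G.val (seg κ (P', (⟨h, -y⟩ : ℂ)) (P', (⟨-h, -y⟩ : ℂ))) *
      G.val (seg κ (P', (⟨-h, -y⟩ : ℂ)) (P, (⟨-h, 0⟩ : ℂ))) =
    G.val (seg κ (p, (⟨1 / 2, 0⟩ : ℂ)) (P, (⟨h, 0⟩ : ℂ))) *
      G.val (seg κ (P, (⟨h, 0⟩ : ℂ)) (P, (⟨0, -h⟩ : ℂ))) *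
      G.val (seg κ (P, (⟨0, -h⟩ : ℂ)) (P, (⟨-h, 0⟩ : ℂ))) := by
  have ah : |h| = h := abs_of_pos h0
  have ah' : |-h| = h := by rw [abs_neg, ah]
  have ay : |-y| = y := by rw [abs_neg, abs_of_pos y0]
  have a2 : |(1 / 2 : ℝ)| = 1 / 2 := abs_of_pos (by norm_num)
  have a0 : |(0 : ℝ)| = 0 := abs_zero
  -- half plane `re > 0`
  have m1 : (p, (⟨1 / 2, 0⟩ : ℂ)) ∈ kH (⟨1, 0⟩ : ℂ) := IdA_mem _ _ _ _ _ (by rw [a2, a0]; norm_num) (by norm_num)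
  have m2 : ∀ l : ℝ, (l, (⟨h, 0⟩ : ℂ)) ∈ kH (⟨1, 0⟩ : ℂ) := fun l =>
    IdA_mem _ _ _ _ _ (by rw [ah, a0]; linarith) (by linarith)
  have m3 : (P', (⟨h, -y⟩ : ℂ)) ∈ kH (⟨1, 0⟩ : ℂ) := IdA_mem _ _ _ _ _ (by rw [ah, ay]; linarith) (by linarith)
  have e1 := K_tri hκ G _ m1 (m2 P') m3
  have e2 := K_tri hκ G _ m1 (m2 P) m3
  -- half plane `im < 0`
  have n1 : (P', (⟨h, -y⟩ : ℂ)) ∈ kH (⟨0, -1⟩ : ℂ) := IdA_mem _ _ _ _ _ (by rw [ah, ay]; linarith) (by linarith)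
  have n2 : (P, (⟨0, -h⟩ : ℂ)) ∈ kH (⟨0, -1⟩ : ℂ) := IdA_mem _ _ _ _ _ (by rw [a0, ah']; linarith) (by linarith)
  have n3 : (P', (⟨-h, -y⟩ : ℂ)) ∈ kH (⟨0, -1⟩ : ℂ) := IdA_mem _ _ _ _ _ (by rw [ah', ay]; linarith) (by linarith)
  have e3 := K_tri hκ G _ n1 n2 n3
  -- half plane `re - im > 0`
  have k1 : (P, (⟨h, 0⟩ : ℂ)) ∈ kH (⟨1, -1⟩ : ℂ) := IdA_mem _ _ _ _ _ (by rw [ah, a0]; linarith) (by linarith)
  have k2 : (P', (⟨h, -y⟩ : ℂ)) ∈ kH (⟨1, -1⟩ : ℂ) := IdA_mem _ _ _ _ _ (by rw [ah, ay]; linarith) (by linarith)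
  have k3 : (P, (⟨0, -h⟩ : ℂ)) ∈ kH (⟨1, -1⟩ : ℂ) := IdA_mem _ _ _ _ _ (by rw [a0, ah']; linarith) (by linarith)
  have e4 := K_tri hκ G _ k1 k2 k3
  -- half plane `re + im < 0`
  have l1 : (P, (⟨0, -h⟩ : ℂ)) ∈ kH (⟨-1, -1⟩ : ℂ) := IdA_mem _ _ _ _ _ (by rw [a0, ah']; linarith) (by linarith)
  have l2 : (P', (⟨-h, -y⟩ : ℂ)) ∈ kH (⟨-1, -1⟩ : ℂ) := IdA_mem _ _ _ _ _ (by rw [ah', ay]; linarith) (by linarith)
  have l3 : (P, (⟨-h, 0⟩ : ℂ)) ∈ kH (⟨-1, -1⟩ : ℂ) := IdA_mem _ _ _ _ _ (by rw [ah', a0]; linarith) (by linarith)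
  have e5 := K_tri hκ G _ l1 l2 l3
  rw [e1, ← e2, ← e3, ← e4, ← e5]
  simp only [mul_assoc]

theorem IdA_gen {κ : ℝ × ℂ → N} (hκ : Thick κ) (G : GHom (core κ)ᶜ Γ) {P P₂ D H H' : ℝ} {B W : E → N}
    (S : SP (core κ) B W) (L : Lnk κ B P P₂ D H H' (-1)) (p : ℝ) :
    lba G κ B p P P₂ D H (-1) = laP G κ p P P₂ (H / 8) (G.val (seg B (P3 0 0 (1 / 8)) (P3 0 0 (7 / 8)))) := by
  have hH := L.Hpos
  have hH1 := L.Hlt
  have hH' := L.Hpos'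
  have hH1' := L.Hlt'
  -- points of the chart
  have s0 : P3 (-(1 / 256)) 0 (-(1 / 8)) ∈ TD := P3_mem (by norm_num) (by norm_num) (by norm_num)
  have s4 : P3 (-(1 / 256)) (1 / 768) (-(1 / 8)) ∈ TD := P3_mem (by norm_num) (by norm_num) (by norm_num)
  have s7 : P3 (-(1 / 256)) (1 / 768) (1 / 8) ∈ TD := P3_mem (by norm_num) (by norm_num) (by norm_num)
  have c1 : P3 0 0 (1 / 8) ∈ TD := P3_mem (by norm_num) (by norm_num) (by norm_num)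
  have c2 : P3 0 0 (7 / 8) ∈ TD := P3_mem (by norm_num) (by norm_num) (by norm_num)
  have s7' : P3 (-(1 / 256)) (1 / 768) (7 / 8) ∈ TD := P3_mem (by norm_num) (by norm_num) (by norm_num)
  have s3 : P3 (-(1 / 256)) (1 / 768) (9 / 8) ∈ TD := P3_mem (by norm_num) (by norm_num) (by norm_num)
  have s5 : P3 (-(1 / 256)) 0 (9 / 8) ∈ TD := P3_mem (by norm_num) (by norm_num) (by norm_num)
  -- `im > 0`
  have im : ∀ x z : ℝ, P3 x (1 / 768) z ∈ TD → P3 x (1 / 768) z ∈ TD ∩ gA 0 ∩ gB 0 := by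
    intro x z h
    refine ⟨⟨h, ?_⟩, ?_⟩
    · show (0 : ℝ) < 1 / 768
      norm_num
    · show (0 : ℝ) < 1 / 768
      norm_num
  -- `0 < x < 1`
  have mid : ∀ x y z : ℝ, 0 < z → z < 1 → P3 x y z ∈ TD → P3 x y z ∈ TD ∩ gA 2 ∩ gB 3 :=
    fun x y z h1 h2 h => ⟨⟨h, h1⟩, h2⟩
  have low : ∀ x y z : ℝ, z < 0 → P3 x y z ∈ TD → P3 x y z ∈ TD ∩ gA 3 ∩ gB 3 := by
    intro x y z h1 h
    refine ⟨⟨h, h1⟩, ?_⟩
    show z < 1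
    linarith
  have top : ∀ x y z : ℝ, 1 < z → P3 x y z ∈ TD → P3 x y z ∈ TD ∩ gA 2 ∩ gB 2 := by
    intro x y z h1 h
    refine ⟨⟨h, ?_⟩, h1⟩
    show 0 < z
    linarith
  have q1 := B_tri S G 0 0 (im _ _ s4) (im _ _ s7) (im _ _ s3)
  have q2 := B_tri S G 0 0 (im _ _ s7) (im _ _ s7') (im _ _ s3)
  have q3 := B_tri S G 2 3 (mid _ _ _ (by norm_num) (by norm_num) s7) (mid _ _ _ (by norm_num) (by norm_num) c1)
    (mid _ _ _ (by norm_num) (by norm_num) s7')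
  have q4 := B_tri S G 2 3 (mid _ _ _ (by norm_num) (by norm_num) c1) (mid _ _ _ (by norm_num) (by norm_num) c2)
    (mid _ _ _ (by norm_num) (by norm_num) s7')
  -- in the tube
  have f1 := B_foot L G s0 s4 (by show (-(1 / 8) : ℝ) < 1 / 4; norm_num) (by show (-(1 / 8) : ℝ) < 1 / 4; norm_num)
    (B_path S 3 3 (low _ _ _ (by norm_num) s0) (low _ _ _ (by norm_num) s4))
  have f2 := B_foot L G s4 s7 (by show (-(1 / 8) : ℝ) < 1 / 4; norm_num) (by show (1 / 8 : ℝ) < 1 / 4; norm_num)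
    (B_path S 0 0 (im _ _ s4) (im _ _ s7))
  have f3 := B_foot L G s7 c1 (by show (1 / 8 : ℝ) < 1 / 4; norm_num) (by show (1 / 8 : ℝ) < 1 / 4; norm_num)
    (B_path S 2 3 (mid _ _ _ (by norm_num) (by norm_num) s7) (mid _ _ _ (by norm_num) (by norm_num) c1))
  have g1 := B_tip L G c2 s7' (by show (3 / 4 : ℝ) < 7 / 8; norm_num) (by show (3 / 4 : ℝ) < 7 / 8; norm_num)
    (B_path S 2 3 (mid _ _ _ (by norm_num) (by norm_num) c2) (mid _ _ _ (by norm_num) (by norm_num) s7'))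
  have g2 := B_tip L G s7' s3 (by show (3 / 4 : ℝ) < 7 / 8; norm_num) (by show (3 / 4 : ℝ) < 9 / 8; norm_num)
    (B_path S 0 0 (im _ _ s7') (im _ _ s3))
  have g3 := B_tip L G s3 s5 (by show (3 / 4 : ℝ) < 9 / 8; norm_num) (by show (3 / 4 : ℝ) < 9 / 8; norm_num)
    (B_path S 2 2 (top _ _ _ (by norm_num) s3) (top _ _ _ (by norm_num) s5))
  -- coordinates
  set h := H / 8 with hh
  set y := H' * (1 / 768) with hy
  have h0 : 0 < h := by rw [hh]; linarith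
  have h1 : h < 1 / 32 := by rw [hh]; linarith
  have y0 : 0 < y := by rw [hy]; linarith
  have y1 : y < 1 / 32 := by rw [hy]; linarith
  have p0 : (P + D * (P3 (-(1 / 256)) 0 (-(1 / 8))).1.re,
      -(⟨H * (P3 (-(1 / 256)) 0 (-(1 / 8))).2, H' * (P3 (-(1 / 256)) 0 (-(1 / 8))).1.im⟩ : ℂ)) =
      (P - D / 256, (⟨h, 0⟩ : ℂ)) := by
    refine Prod.ext ?_ (Complex.ext ?_ ?_)
    · show P + D * (-(1 / 256)) = P - D / 256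
      ring
    · show -(H * (-(1 / 8))) = H / 8
      ring
    · show -(H' * 0) = 0
      ring
  have p4 : (P + D * (P3 (-(1 / 256)) (1 / 768) (-(1 / 8))).1.re,
      -(⟨H * (P3 (-(1 / 256)) (1 / 768) (-(1 / 8))).2, H' * (P3 (-(1 / 256)) (1 / 768) (-(1 / 8))).1.im⟩ : ℂ)) =
      (P - D / 256, (⟨h, -y⟩ : ℂ)) := by
    refine Prod.ext ?_ (Complex.ext ?_ ?_)
    · show P + D * (-(1 / 256)) = P - D / 256
      ring
    · show -(H * (-(1 / 8))) = H / 8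
      ring
    · rfl
  have p7 : (P + D * (P3 (-(1 / 256)) (1 / 768) (1 / 8)).1.re,
      -(⟨H * (P3 (-(1 / 256)) (1 / 768) (1 / 8)).2, H' * (P3 (-(1 / 256)) (1 / 768) (1 / 8)).1.im⟩ : ℂ)) =
      (P - D / 256, (⟨-h, -y⟩ : ℂ)) := by
    refine Prod.ext ?_ (Complex.ext ?_ ?_)
    · show P + D * (-(1 / 256)) = P - D / 256
      ring
    · show -(H * (1 / 8)) = -(H / 8)
      ring
    · rfl
  have pc : (P + D * (P3 0 0 (1 / 8)).1.re,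
      -(⟨H * (P3 0 0 (1 / 8)).2, H' * (P3 0 0 (1 / 8)).1.im⟩ : ℂ)) = (P, (⟨-h, 0⟩ : ℂ)) := by
    refine Prod.ext ?_ (Complex.ext ?_ ?_)
    · show P + D * 0 = P
      ring
    · show -(H * (1 / 8)) = -(H / 8)
      ring
    · show -(H' * 0) = 0
      ring
  have pc' : (P₂ + -1 * D * (P3 0 0 (7 / 8)).1.re,
      -(⟨H * (1 - (P3 0 0 (7 / 8)).2), -(-1 * H' * (P3 0 0 (7 / 8)).1.im)⟩ : ℂ)) = (P₂, (⟨-h, 0⟩ : ℂ)) := by
    refine Prod.ext ?_ (Complex.ext ?_ ?_)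
    · show P₂ + -1 * D * 0 = P₂
      ring
    · show -(H * (1 - 7 / 8)) = -(H / 8)
      ring
    · show -(-(-1 * H' * 0)) = 0
      ring
  have p7' : (P₂ + -1 * D * (P3 (-(1 / 256)) (1 / 768) (7 / 8)).1.re,
      -(⟨H * (1 - (P3 (-(1 / 256)) (1 / 768) (7 / 8)).2),
        -(-1 * H' * (P3 (-(1 / 256)) (1 / 768) (7 / 8)).1.im)⟩ : ℂ)) = (P₂ + D / 256, (⟨-h, -y⟩ : ℂ)) := by
    refine Prod.ext ?_ (Complex.ext ?_ ?_)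
    · show P₂ + -1 * D * (-(1 / 256)) = P₂ + D / 256
      ring
    · show -(H * (1 - 7 / 8)) = -(H / 8)
      ring
    · show -(-(-1 * H' * (1 / 768))) = -(H' * (1 / 768))
      ring
  have p3 : (P₂ + -1 * D * (P3 (-(1 / 256)) (1 / 768) (9 / 8)).1.re,
      -(⟨H * (1 - (P3 (-(1 / 256)) (1 / 768) (9 / 8)).2),
        -(-1 * H' * (P3 (-(1 / 256)) (1 / 768) (9 / 8)).1.im)⟩ : ℂ)) = (P₂ + D / 256, (⟨h, -y⟩ : ℂ)) := by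
    refine Prod.ext ?_ (Complex.ext ?_ ?_)
    · show P₂ + -1 * D * (-(1 / 256)) = P₂ + D / 256
      ring
    · show -(H * (1 - 9 / 8)) = H / 8
      ring
    · show -(-(-1 * H' * (1 / 768))) = -(H' * (1 / 768))
      ring
  have p5 : (P₂ + -1 * D * (P3 (-(1 / 256)) 0 (9 / 8)).1.re,
      -(⟨H * (1 - (P3 (-(1 / 256)) 0 (9 / 8)).2),
        -(-1 * H' * (P3 (-(1 / 256)) 0 (9 / 8)).1.im)⟩ : ℂ)) = (P₂ + D / 256, (⟨h, 0⟩ : ℂ)) := by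
    refine Prod.ext ?_ (Complex.ext ?_ ?_)
    · show P₂ + -1 * D * (-(1 / 256)) = P₂ + D / 256
      ring
    · show -(H * (1 - 9 / 8)) = H / 8
      ring
    · show -(-(-1 * H' * 0)) = 0
      ring
  rw [p0, p4] at f1
  rw [p4, p7] at f2
  rw [p7, pc] at f3
  rw [pc', p7'] at g1
  rw [p7', p3] at g2
  rw [p3, p5] at g3
  have t1 := IdA_turn hκ G p P (P - D / 256) h y h0 h1 y0 y1
  have t2 := IdA_turn hκ G p P₂ (P₂ + D / 256) h y h0 h1 y0 y1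
  -- the reversed segments at the tip
  have ah : |h| = h := abs_of_pos h0
  have ah' : |-h| = h := by rw [abs_neg, ah]
  have ay : |-y| = y := by rw [abs_neg, abs_of_pos y0]
  have a2 : |(1 / 2 : ℝ)| = 1 / 2 := abs_of_pos (by norm_num)
  have a0 : |(0 : ℝ)| = 0 := abs_zero
  have m1 : (p, (⟨1 / 2, 0⟩ : ℂ)) ∈ kH (⟨1, 0⟩ : ℂ) := IdA_mem _ _ _ _ _ (by rw [a2, a0]; norm_num) (by norm_num)
  have m2 : ∀ l : ℝ, (l, (⟨h, 0⟩ : ℂ)) ∈ kH (⟨1, 0⟩ : ℂ) := fun l =>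
    IdA_mem _ _ _ _ _ (by rw [ah, a0]; linarith) (by linarith)
  have m3 : (P₂ + D / 256, (⟨h, -y⟩ : ℂ)) ∈ kH (⟨1, 0⟩ : ℂ) :=
    IdA_mem _ _ _ _ _ (by rw [ah, ay]; linarith) (by linarith)
  have n1 : (P₂ + D / 256, (⟨h, -y⟩ : ℂ)) ∈ kH (⟨0, -1⟩ : ℂ) :=
    IdA_mem _ _ _ _ _ (by rw [ah, ay]; linarith) (by linarith)
  have n3 : (P₂ + D / 256, (⟨-h, -y⟩ : ℂ)) ∈ kH (⟨0, -1⟩ : ℂ) :=
    IdA_mem _ _ _ _ _ (by rw [ah', ay]; linarith) (by linarith)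
  have l2 : (P₂ + D / 256, (⟨-h, -y⟩ : ℂ)) ∈ kH (⟨-1, -1⟩ : ℂ) :=
    IdA_mem _ _ _ _ _ (by rw [ah', ay]; linarith) (by linarith)
  have l3 : (P₂, (⟨-h, 0⟩ : ℂ)) ∈ kH (⟨-1, -1⟩ : ℂ) := IdA_mem _ _ _ _ _ (by rw [ah', a0]; linarith) (by linarith)
  have l1 : (P₂, (⟨0, -h⟩ : ℂ)) ∈ kH (⟨-1, -1⟩ : ℂ) := IdA_mem _ _ _ _ _ (by rw [a0, ah']; linarith) (by linarith)
  have k1 : (P₂, (⟨h, 0⟩ : ℂ)) ∈ kH (⟨1, -1⟩ : ℂ) := IdA_mem _ _ _ _ _ (by rw [ah, a0]; linarith) (by linarith)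
  have k3 : (P₂, (⟨0, -h⟩ : ℂ)) ∈ kH (⟨1, -1⟩ : ℂ) := IdA_mem _ _ _ _ _ (by rw [a0, ah']; linarith) (by linarith)
  have r1 := K_symm hκ G _ m1 (m2 (P₂ + D / 256))
  have r2 := K_symm hκ G _ (m2 (P₂ + D / 256)) m3
  have r3 := K_symm hκ G _ n1 n3
  have r4 := K_symm hκ G _ l2 l3
  have r5 := K_symm hκ G _ m1 (m2 P₂)
  have r6 := K_symm hκ G _ k1 k3
  have r7 := K_symm hκ G _ l1 l3
  -- the points of the tube
  have hhalf : ((1 : ℂ) / 2) = (⟨1 / 2, 0⟩ : ℂ) := by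
    apply Complex.ext
    · simp
    · simp
  have hhC : ((h : ℝ) : ℂ) = (⟨h, 0⟩ : ℂ) := rfl
  have hhN : -((h : ℝ) : ℂ) = (⟨-h, 0⟩ : ℂ) := by
    apply Complex.ext
    · simp
    · simp
  have hhI : -(((h : ℝ) : ℂ) * Complex.I) = (⟨0, -h⟩ : ℂ) := by
    apply Complex.ext
    · simp
    · simp
  have hP : P₂ - -1 * D / 256 = P₂ + D / 256 := by ring
  unfold lba laP t0 HU
  rw [hP, ← q1, ← q2, ← q3, ← q4, ← f1, ← f2, ← f3, ← g1, ← g2, ← g3, hhalf, hhI, hhN, hhC]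
  rw [r1, r2, r3, r4, r5, r6, r7]
  have t3 := congrArg (fun x : Γ => x⁻¹) t2
  have t4 := fun X : Γ => congrArg (fun x : Γ => x * X) t1
  simp only [mul_inv_rev, mul_assoc] at t3 t4 ⊢
  rw [t3, t4]

theorem IdA {κ : ℝ × ℂ → N} (hκ : Thick κ) (G : GHom (core κ)ᶜ Γ) {P P₂ η ε δ : ℝ} (hη : 0 < η) (hη1 : η ≤ 1) (hε : 0 < ε)
    (hε1 : ε < 1 / 4) (hδ : 0 < δ) (hδ1 : δ ≤ 1) {T : E → N} (hT : Chd (core κ) T)
    (hTE : StdE (kap (rot κ (-1)) η) P P₂ ε 1 T) (p : ℝ) {W : E → N} (S : SP (core κ) (Bd T δ (-1)) W) :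
    lba G κ (Bd T δ (-1)) p P P₂ (ε * δ) (η * ε) (-1) = laP G κ p P P₂ (η * ε / 8) (G.val (cor T)) := by
  have L := Bd_lnk hη hη1 hε hε1 hδ hδ1 (Or.inr rfl) hTE
  rw [IdA_gen hκ G S L p]
  have : seg (Bd T δ (-1)) (P3 0 0 (1 / 8)) (P3 0 0 (7 / 8)) = cor T := by
    funext t
    show Bd T δ (-1) ((1 - t) • P3 0 0 (1 / 8) + t • P3 0 0 (7 / 8)) = T (0, 1 / 8 + 3 / 4 * t)
    have e : (1 - t) • P3 0 0 (1 / 8) + t • P3 0 0 (7 / 8) = ((0 : ℂ), 1 / 8 + 3 / 4 * t) := by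
      refine Prod.ext ?_ ?_
      · show (1 - t) • (⟨0, 0⟩ : ℂ) + t • (⟨0, 0⟩ : ℂ) = 0
        have : (⟨0, 0⟩ : ℂ) = 0 := rfl
        rw [this, smul_zero, smul_zero, add_zero]
      · show (1 - t) * (1 / 8) + t * (7 / 8) = 1 / 8 + 3 / 4 * t
        ring
    rw [e, Bd_core]
  rw [this]

end Pool.Agent.NHR
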