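import Mathlib
import Pool.Agent.NHR.Defs
import Pool.Agent.NHR.MdY
import Pool.Agent.NHR.Bdl
import Pool.Agent.NHR.IdA

/-!
# NHR/IdAp: parallel strands: the label `a` in terms of the core of the chord `T` (difficulty 2; copy of `IdA` with `τ = 1`)

Same proof as `NHR/IdA` (copy it from the store when it is done), `B = Bd T δ 1`.  The only difference: after the core the path in the chart `κ` (`B_tip`, `τ = 1`) goes from `-h` over
`+ h I` to `h` (half planes `-1`, `-1 + I`, `I`, `1 + I`, `1`).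
-/

open scoped Manifold ContDiff Topology
open Set Filter
open Pool.Agent.CSG (stp)
open Pool.Agent.RSG (E3 ex Thick)
open Pool.Agent.KNT (Dom Str Str2 bmp)
open Pool.Agent.NHP

namespace Pool.Agent.NHR

universe u v

variable {N : Type u} [TopologicalSpace N] [ChartedSpace E3 N] {Γ : Type v} [Group Γ]

/-- the label `a` for parallel strands, if the core has the value `c` -/
noncomputable def laPp {Y : Set N} (G : GHom Y Γ) (κ : ℝ × ℂ → N) (p P P₂ h : ℝ) (c : Γ) : Γ :=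
  G.val (seg κ (p, 1 / 2) (P, (h : ℂ))) * G.val (seg κ (P, (h : ℂ)) (P, -((h : ℂ) * Complex.I))) *
  G.val (seg κ (P, -((h : ℂ) * Complex.I)) (P, -(h : ℂ))) * c *
  G.val (seg κ (P₂, -(h : ℂ)) (P₂, (h : ℂ) * Complex.I)) * G.val (seg κ (P₂, (h : ℂ) * Complex.I) (P₂, (h : ℂ))) *
  G.val (seg κ (P₂, (h : ℂ)) (p, 1 / 2))

theorem IdAp_mem {x h y : ℝ} (n : ℂ) (hh : |h| < 1 / 2) (hy : |y| < 1 / 2) (h0 : 0 < n.re * h + n.im * y) :
    ((x, (⟨h, y⟩ : ℂ)) : ℝ × ℂ) ∈ kH n := by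
  constructor
  · have h1 : ‖(⟨h, y⟩ : ℂ)‖ ≤ |h| + |y| := by
      have := Complex.norm_le_abs_re_add_abs_im (⟨h, y⟩ : ℂ)
      simpa using this
    show ‖(⟨h, y⟩ : ℂ)‖ < 1
    linarith
  · show 0 < ((starRingEnd ℂ) n * (⟨h, y⟩ : ℂ)).re
    simp only [Complex.mul_re, Complex.conj_re, Complex.conj_im]
    linarith

theorem IdAp_low {κ : ℝ × ℂ → N} (hκ : Thick κ) (G : GHom (core κ)ᶜ Γ) (p P Q : ℝ) {h y : ℝ} (h0 : 0 < h) (h1 : h < 1 / 2)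
    (y0 : 0 < y) (y1 : y < 1 / 2) :
    G.val (seg κ (p, 1 / 2) (Q, (h : ℂ))) * G.val (seg κ (Q, (h : ℂ)) (Q, ⟨h, -y⟩)) * G.val (seg κ (Q, ⟨h, -y⟩) (Q, ⟨-h, -y⟩)) *
      G.val (seg κ (Q, ⟨-h, -y⟩) (P, -(h : ℂ))) =
    G.val (seg κ (p, 1 / 2) (P, (h : ℂ))) * G.val (seg κ (P, (h : ℂ)) (P, -((h : ℂ) * Complex.I))) *
      G.val (seg κ (P, -((h : ℂ) * Complex.I)) (P, -(h : ℂ))) := by
  have ah : |h| < 1 / 2 := by rw [abs_of_pos h0]; exact h1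
  have ahn : |(-h)| < 1 / 2 := by rw [abs_neg]; exact ah
  have ay : |(-y)| < 1 / 2 := by rw [abs_neg, abs_of_pos y0]; exact y1
  have a0 : |(0 : ℝ)| < 1 / 2 := by norm_num
  have eh : (h : ℂ) = ⟨h, 0⟩ := Complex.ext (by simp) (by simp)
  have enh : -(h : ℂ) = ⟨-h, 0⟩ := Complex.ext (by simp) (by simp)
  have enI : -((h : ℂ) * Complex.I) = ⟨0, -h⟩ := Complex.ext (by simp) (by simp)
  rw [enI, enh, eh]
  have hp1 : ((p, (1 / 2 : ℂ)) : ℝ × ℂ) ∈ kH 1 := by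
    constructor
    · show ‖(1 / 2 : ℂ)‖ < 1
      norm_num
    · show 0 < ((starRingEnd ℂ) 1 * (1 / 2 : ℂ)).re
      norm_num
  rw [K_tri hκ G 1 hp1 (IdAp_mem 1 ah a0 (by simpa using h0)) (IdAp_mem 1 ah ay (by simpa using h0)),
    ← K_tri hκ G 1 hp1 (IdAp_mem (x := P) (h := h) (y := 0) 1 ah a0 (by simpa using h0)) (IdAp_mem 1 ah ay (by simpa using h0)),
    ← K_tri hκ G (-Complex.I) (IdAp_mem (-Complex.I) ah ay (by simpa using y0)) (IdAp_mem (x := P) (h := 0) (y := -h) (-Complex.I) a0 ahn (by simpa using h0))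
      (IdAp_mem (-Complex.I) ahn ay (by simpa using y0)),
    ← K_tri hκ G (1 - Complex.I) (IdAp_mem (x := P) (h := h) (y := 0) (1 - Complex.I) ah a0 (by simpa using h0))
      (IdAp_mem (x := Q) (h := h) (y := -y) (1 - Complex.I) ah ay (by simp; linarith))
      (IdAp_mem (x := P) (h := 0) (y := -h) (1 - Complex.I) a0 ahn (by simpa using h0)),
    ← K_tri hκ G (-1 - Complex.I) (IdAp_mem (x := P) (h := 0) (y := -h) (-1 - Complex.I) a0 ahn (by simpa using h0))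
      (IdAp_mem (x := Q) (h := -h) (y := -y) (-1 - Complex.I) ahn ay (by simp; linarith))
      (IdAp_mem (x := P) (h := -h) (y := 0) (-1 - Complex.I) ahn a0 (by simpa using h0))]
  group

theorem IdAp_up {κ : ℝ × ℂ → N} (hκ : Thick κ) (G : GHom (core κ)ᶜ Γ) (p P Q : ℝ) {h y : ℝ} (h0 : 0 < h) (h1 : h < 1 / 2)
    (y0 : 0 < y) (y1 : y < 1 / 2) :
    G.val (seg κ (P, -(h : ℂ)) (Q, ⟨-h, y⟩)) * G.val (seg κ (Q, ⟨-h, y⟩) (Q, ⟨h, y⟩)) * G.val (seg κ (Q, ⟨h, y⟩) (Q, (h : ℂ))) *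
      G.val (seg κ (Q, (h : ℂ)) (p, 1 / 2)) =
    G.val (seg κ (P, -(h : ℂ)) (P, (h : ℂ) * Complex.I)) * G.val (seg κ (P, (h : ℂ) * Complex.I) (P, (h : ℂ))) *
      G.val (seg κ (P, (h : ℂ)) (p, 1 / 2)) := by
  have ah : |h| < 1 / 2 := by rw [abs_of_pos h0]; exact h1
  have ahn : |(-h)| < 1 / 2 := by rw [abs_neg]; exact ah
  have ay : |y| < 1 / 2 := by rw [abs_of_pos y0]; exact y1
  have a0 : |(0 : ℝ)| < 1 / 2 := by norm_num
  have eh : (h : ℂ) = ⟨h, 0⟩ := Complex.ext (by simp) (by simp)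
  have enh : -(h : ℂ) = ⟨-h, 0⟩ := Complex.ext (by simp) (by simp)
  have enI : (h : ℂ) * Complex.I = ⟨0, h⟩ := Complex.ext (by simp) (by simp)
  rw [enI, enh, eh]
  have hp1 : ((p, (1 / 2 : ℂ)) : ℝ × ℂ) ∈ kH 1 := by
    constructor
    · show ‖(1 / 2 : ℂ)‖ < 1
      norm_num
    · show 0 < ((starRingEnd ℂ) 1 * (1 / 2 : ℂ)).re
      norm_num
  rw [mul_assoc (G.val (seg κ (P, ⟨-h, 0⟩) (Q, ⟨-h, y⟩)) * _),
    K_tri hκ G 1 (IdAp_mem 1 ah ay (by simpa using h0)) (IdAp_mem 1 ah a0 (by simpa using h0)) hp1,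
    ← K_tri hκ G 1 (IdAp_mem 1 ah ay (by simpa using h0)) (IdAp_mem (x := P) (h := h) (y := 0) 1 ah a0 (by simpa using h0)) hp1,
    ← K_tri hκ G Complex.I (IdAp_mem Complex.I ahn ay (by simpa using y0)) (IdAp_mem (x := P) (h := 0) (y := h) Complex.I a0 ah (by simpa using h0))
      (IdAp_mem Complex.I ah ay (by simpa using y0)),
    ← K_tri hκ G (1 + Complex.I) (IdAp_mem (x := P) (h := 0) (y := h) (1 + Complex.I) a0 ah (by simpa using h0))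
      (IdAp_mem (x := Q) (h := h) (y := y) (1 + Complex.I) ah ay (by simp; linarith))
      (IdAp_mem (x := P) (h := h) (y := 0) (1 + Complex.I) ah a0 (by simpa using h0)),
    ← K_tri hκ G (-1 + Complex.I) (IdAp_mem (x := P) (h := -h) (y := 0) (-1 + Complex.I) ahn a0 (by simpa using h0))
      (IdAp_mem (x := Q) (h := -h) (y := y) (-1 + Complex.I) ahn ay (by simp; linarith))
      (IdAp_mem (x := P) (h := 0) (y := h) (-1 + Complex.I) a0 ah (by simpa using h0))]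
  group

theorem IdAp {κ : ℝ × ℂ → N} (hκ : Thick κ) (G : GHom (core κ)ᶜ Γ) {P P₂ η ε δ : ℝ} (hη : 0 < η) (hη1 : η ≤ 1) (hε : 0 < ε)
    (hε1 : ε < 1 / 4) (hδ : 0 < δ) (hδ1 : δ ≤ 1) {T : E → N} (hT : Chd (core κ) T)
    (hTE : StdE (kap (rot κ (-1)) η) P P₂ ε 1 T) (p : ℝ) {W : E → N} (S : SP (core κ) (Bd T δ 1) W) :
    lba G κ (Bd T δ 1) p P P₂ (ε * δ) (η * ε) 1 = laPp G κ p P P₂ (η * ε / 8) (G.val (cor T)) := by
  have L := Bd_lnk hη hη1 hε hε1 hδ hδ1 (τ := 1) (Or.inl rfl) hTE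
  have hH := L.Hpos
  have hH1 := L.Hlt
  have hH' := L.Hpos'
  have hH1' := L.Hlt'
  have mem : ∀ x y z : ℝ, |x| ≤ 1 / 256 → |y| ≤ 1 / 768 → -(1 / 8) ≤ z → z ≤ 9 / 8 → P3 x y z ∈ TD := by
    intro x y z hx hy hz hz'
    apply P3_mem _ (by linarith) (by linarith)
    have h1 : x ^ 2 ≤ (1 / 256) ^ 2 := sq_le_sq' (by linarith [(abs_le.1 hx).1]) (abs_le.1 hx).2
    have h2 : y ^ 2 ≤ (1 / 768) ^ 2 := sq_le_sq' (by linarith [(abs_le.1 hy).1]) (abs_le.1 hy).2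
    norm_num at h1 h2
    linarith
  have x1 : |(-(1 / 256) : ℝ)| ≤ 1 / 256 := by rw [abs_neg, abs_of_pos (by norm_num)]
  have x0 : |(0 : ℝ)| ≤ 1 / 256 := by norm_num
  have y0 : |(0 : ℝ)| ≤ 1 / 768 := by norm_num
  have y1 : |(1 / 768 : ℝ)| ≤ 1 / 768 := by rw [abs_of_pos (by norm_num)]
  have m33 : ∀ x y z : ℝ, |x| ≤ 1 / 256 → |y| ≤ 1 / 768 → -(1 / 8) ≤ z → z < 0 → P3 x y z ∈ TD ∩ gA 3 ∩ gB 3 := by
    intro x y z hx hy hz hz'
    exact ⟨⟨mem x y z hx hy hz (by linarith), hz'⟩, show z < 1 by linarith⟩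
  have m22 : ∀ x y z : ℝ, |x| ≤ 1 / 256 → |y| ≤ 1 / 768 → 1 < z → z ≤ 9 / 8 → P3 x y z ∈ TD ∩ gA 2 ∩ gB 2 := by
    intro x y z hx hy hz hz'
    exact ⟨⟨mem x y z hx hy (by linarith) hz', show 0 < z by linarith⟩, hz⟩
  have m00 : ∀ x y z : ℝ, |x| ≤ 1 / 256 → |y| ≤ 1 / 768 → -(1 / 8) ≤ z → z ≤ 9 / 8 → 0 < y → P3 x y z ∈ TD ∩ gA 0 ∩ gB 0 := by
    intro x y z hx hy hz hz' h
    exact ⟨⟨mem x y z hx hy hz hz', h⟩, h⟩
  have m23 : ∀ x y z : ℝ, |x| ≤ 1 / 256 → |y| ≤ 1 / 768 → 0 < z → z < 1 → P3 x y z ∈ TD ∩ gA 2 ∩ gB 3 := by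
    intro x y z hx hy hz hz'
    exact ⟨⟨mem x y z hx hy (by linarith) (by linarith), hz⟩, hz'⟩
  have tt : ∀ x y z : ℝ, |x| ≤ 1 / 256 → |y| ≤ 1 / 768 → -(1 / 8) ≤ z → z ≤ 9 / 8 → P3 x y z ∈ TD := mem
  -- the core
  have ecor : G.val (seg (Bd T δ 1) (P3 0 0 (1 / 8)) (P3 0 0 (7 / 8))) = G.val (cor T) := by
    refine (G.val_congr (B_path S 2 3 (m23 0 0 (1 / 8) x0 y0 (by norm_num) (by norm_num))
      (m23 0 0 (7 / 8) x0 y0 (by norm_num) (by norm_num))) ?_).symm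
    intro t ht
    show T (0, 1 / 8 + 3 / 4 * t) = Bd T δ 1 ((1 - t) • P3 0 0 (1 / 8) + t • P3 0 0 (7 / 8))
    rw [← Bd_core T δ 1]
    congr 1
    refine Prod.ext ?_ ?_
    · apply Complex.ext <;> simp [P3]
    · simp [P3]
      ring
  have k1 : G.val (seg (Bd T δ 1) (P3 (-(1 / 256)) (1 / 768) (-(1 / 8))) (P3 (-(1 / 256)) (1 / 768) (9 / 8))) =
      G.val (seg (Bd T δ 1) (P3 (-(1 / 256)) (1 / 768) (-(1 / 8))) (P3 (-(1 / 256)) (1 / 768) (1 / 8))) *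
      G.val (seg (Bd T δ 1) (P3 (-(1 / 256)) (1 / 768) (1 / 8)) (P3 0 0 (1 / 8))) * G.val (cor T) *
      G.val (seg (Bd T δ 1) (P3 0 0 (7 / 8)) (P3 (-(1 / 256)) (1 / 768) (7 / 8))) *
      G.val (seg (Bd T δ 1) (P3 (-(1 / 256)) (1 / 768) (7 / 8)) (P3 (-(1 / 256)) (1 / 768) (9 / 8))) := by
    rw [← ecor, mul_assoc (G.val (seg (Bd T δ 1) (P3 (-(1 / 256)) (1 / 768) (-(1 / 8))) (P3 (-(1 / 256)) (1 / 768) (1 / 8)))),
      B_tri S G 2 3 (m23 _ _ _ x1 y1 (by norm_num) (by norm_num)) (m23 0 0 (1 / 8) x0 y0 (by norm_num) (by norm_num))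
        (m23 0 0 (7 / 8) x0 y0 (by norm_num) (by norm_num)),
      mul_assoc (G.val (seg (Bd T δ 1) (P3 (-(1 / 256)) (1 / 768) (-(1 / 8))) (P3 (-(1 / 256)) (1 / 768) (1 / 8)))),
      B_tri S G 2 3 (m23 _ _ _ x1 y1 (by norm_num) (by norm_num)) (m23 0 0 (7 / 8) x0 y0 (by norm_num) (by norm_num))
        (m23 _ _ _ x1 y1 (by norm_num) (by norm_num)),
      B_tri S G 0 0 (m00 _ _ _ x1 y1 (by norm_num) (by norm_num) (by norm_num)) (m00 _ _ _ x1 y1 (by norm_num) (by norm_num) (by norm_num))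
        (m00 _ _ _ x1 y1 (by norm_num) (by norm_num) (by norm_num)),
      B_tri S G 0 0 (m00 _ _ _ x1 y1 (by norm_num) (by norm_num) (by norm_num)) (m00 _ _ _ x1 y1 (by norm_num) (by norm_num) (by norm_num))
        (m00 _ _ _ x1 y1 (by norm_num) (by norm_num) (by norm_num))]
  have lo := IdAp_low hκ G p P (P - ε * δ / 256) (h := η * ε / 8) (y := η * ε * δ / 768) (by positivity) (by linarith)
    (by positivity) (by linarith)
  have up := IdAp_up hκ G p P₂ (P₂ - 1 * (ε * δ) / 256) (h := η * ε / 8) (y := η * ε * δ / 768) (by positivity) (by linarith)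
    (by positivity) (by linarith)
  have f1 := B_foot L G (tt (-(1 / 256)) 0 (-(1 / 8)) x1 y0 (by norm_num) (by norm_num)) (tt (-(1 / 256)) (1 / 768) (-(1 / 8)) x1 y1 (by norm_num) (by norm_num))
    (by show (-(1 / 8) : ℝ) < 1 / 4; norm_num) (by show (-(1 / 8) : ℝ) < 1 / 4; norm_num)
    (B_path S 3 3 (m33 _ _ _ x1 y0 (by norm_num) (by norm_num)) (m33 _ _ _ x1 y1 (by norm_num) (by norm_num)))
  have f2 := B_foot L G (tt (-(1 / 256)) (1 / 768) (-(1 / 8)) x1 y1 (by norm_num) (by norm_num)) (tt (-(1 / 256)) (1 / 768) (1 / 8) x1 y1 (by norm_num) (by norm_num))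
    (by show (-(1 / 8) : ℝ) < 1 / 4; norm_num) (by show (1 / 8 : ℝ) < 1 / 4; norm_num)
    (B_path S 0 0 (m00 _ _ _ x1 y1 (by norm_num) (by norm_num) (by norm_num)) (m00 _ _ _ x1 y1 (by norm_num) (by norm_num) (by norm_num)))
  have f3 := B_foot L G (tt (-(1 / 256)) (1 / 768) (1 / 8) x1 y1 (by norm_num) (by norm_num)) (tt 0 0 (1 / 8) x0 y0 (by norm_num) (by norm_num))
    (by show (1 / 8 : ℝ) < 1 / 4; norm_num) (by show (1 / 8 : ℝ) < 1 / 4; norm_num)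
    (B_path S 2 3 (m23 _ _ _ x1 y1 (by norm_num) (by norm_num)) (m23 _ _ _ x0 y0 (by norm_num) (by norm_num)))
  have g1 := B_tip L G (tt 0 0 (7 / 8) x0 y0 (by norm_num) (by norm_num)) (tt (-(1 / 256)) (1 / 768) (7 / 8) x1 y1 (by norm_num) (by norm_num))
    (by show (3 / 4 : ℝ) < 7 / 8; norm_num) (by show (3 / 4 : ℝ) < 7 / 8; norm_num)
    (B_path S 2 3 (m23 _ _ _ x0 y0 (by norm_num) (by norm_num)) (m23 _ _ _ x1 y1 (by norm_num) (by norm_num)))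
  have g2 := B_tip L G (tt (-(1 / 256)) (1 / 768) (7 / 8) x1 y1 (by norm_num) (by norm_num)) (tt (-(1 / 256)) (1 / 768) (9 / 8) x1 y1 (by norm_num) (by norm_num))
    (by show (3 / 4 : ℝ) < 7 / 8; norm_num) (by show (3 / 4 : ℝ) < 9 / 8; norm_num)
    (B_path S 0 0 (m00 _ _ _ x1 y1 (by norm_num) (by norm_num) (by norm_num)) (m00 _ _ _ x1 y1 (by norm_num) (by norm_num) (by norm_num)))
  have g3 := B_tip L G (tt (-(1 / 256)) (1 / 768) (9 / 8) x1 y1 (by norm_num) (by norm_num)) (tt (-(1 / 256)) 0 (9 / 8) x1 y0 (by norm_num) (by norm_num))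
    (by show (3 / 4 : ℝ) < 9 / 8; norm_num) (by show (3 / 4 : ℝ) < 9 / 8; norm_num)
    (B_path S 2 2 (m22 _ _ _ x1 y1 (by norm_num) (by norm_num)) (m22 _ _ _ x1 y0 (by norm_num) (by norm_num)))
  have ea : ∀ x y z : ℝ, ((P + ε * δ * (P3 x y z).1.re, -(⟨η * ε * (P3 x y z).2, η * ε * δ * (P3 x y z).1.im⟩ : ℂ)) : ℝ × ℂ) =
      (P + ε * δ * x, ⟨-(η * ε * z), -(η * ε * δ * y)⟩) := fun x y z => rfl
  have eb : ∀ x y z : ℝ, ((P₂ + 1 * (ε * δ) * (P3 x y z).1.re, -(⟨η * ε * (1 - (P3 x y z).2), -(1 * (η * ε * δ) * (P3 x y z).1.im)⟩ : ℂ)) : ℝ × ℂ) =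
      (P₂ + 1 * (ε * δ) * x, ⟨-(η * ε * (1 - z)), - -(1 * (η * ε * δ) * y)⟩) := fun x y z => rfl
  rw [ea, ea] at f1 f2 f3
  rw [eb, eb] at g1 g2 g3
  have q1 : ((P + ε * δ * (-(1 / 256)), ⟨-(η * ε * (-(1 / 8))), -(η * ε * δ * 0)⟩) : ℝ × ℂ) = (P - ε * δ / 256, ((η * ε / 8 : ℝ) : ℂ)) :=
    Prod.ext (by ring) (Complex.ext (by simp; ring) (by simp))
  have q2 : ((P + ε * δ * (-(1 / 256)), ⟨-(η * ε * (-(1 / 8))), -(η * ε * δ * (1 / 768))⟩) : ℝ × ℂ) = (P - ε * δ / 256, ⟨η * ε / 8, -(η * ε * δ / 768)⟩) :=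
    Prod.ext (by ring) (Complex.ext (by ring) (by ring))
  have q3 : ((P + ε * δ * (-(1 / 256)), ⟨-(η * ε * (1 / 8)), -(η * ε * δ * (1 / 768))⟩) : ℝ × ℂ) = (P - ε * δ / 256, ⟨-(η * ε / 8), -(η * ε * δ / 768)⟩) :=
    Prod.ext (by ring) (Complex.ext (by ring) (by ring))
  have q4 : ((P + ε * δ * 0, ⟨-(η * ε * (1 / 8)), -(η * ε * δ * 0)⟩) : ℝ × ℂ) = (P, -((η * ε / 8 : ℝ) : ℂ)) :=
    Prod.ext (by ring) (Complex.ext (by simp; ring) (by simp))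
  have r4 : ((P₂ + 1 * (ε * δ) * 0, ⟨-(η * ε * (1 - 7 / 8)), - -(1 * (η * ε * δ) * 0)⟩) : ℝ × ℂ) = (P₂, -((η * ε / 8 : ℝ) : ℂ)) :=
    Prod.ext (by ring) (Complex.ext (by simp; ring) (by simp))
  have r3 : ((P₂ + 1 * (ε * δ) * (-(1 / 256)), ⟨-(η * ε * (1 - 7 / 8)), - -(1 * (η * ε * δ) * (1 / 768))⟩) : ℝ × ℂ) =
      (P₂ - 1 * (ε * δ) / 256, ⟨-(η * ε / 8), η * ε * δ / 768⟩) :=
    Prod.ext (by ring) (Complex.ext (by ring) (by ring))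
  have r2 : ((P₂ + 1 * (ε * δ) * (-(1 / 256)), ⟨-(η * ε * (1 - 9 / 8)), - -(1 * (η * ε * δ) * (1 / 768))⟩) : ℝ × ℂ) =
      (P₂ - 1 * (ε * δ) / 256, ⟨η * ε / 8, η * ε * δ / 768⟩) :=
    Prod.ext (by ring) (Complex.ext (by ring) (by ring))
  have r1 : ((P₂ + 1 * (ε * δ) * (-(1 / 256)), ⟨-(η * ε * (1 - 9 / 8)), - -(1 * (η * ε * δ) * 0)⟩) : ℝ × ℂ) =
      (P₂ - 1 * (ε * δ) / 256, ((η * ε / 8 : ℝ) : ℂ)) :=
    Prod.ext (by ring) (Complex.ext (by simp; ring) (by simp))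
  rw [q1, q2] at f1
  rw [q2, q3] at f2
  rw [q3, q4] at f3
  rw [r4, r3] at g1
  rw [r3, r2] at g2
  rw [r2, r1] at g3
  unfold lba laPp t0 HU
  rw [k1, ← f1, ← f2, ← f3, ← g1, ← g2, ← g3]
  have fin : ∀ a b c d e f g k l a' b' c' d' e' f' : Γ, a * b * c * d = a' * b' * c' → e * f * g * k = d' * e' * f' →
      a * (b * (c * d * l * e * f) * g) * k = a' * b' * c' * l * d' * e' * f' := by
    intro a b c d e f g k l a' b' c' d' e' f' h1 h2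
    have h3 : a * (b * (c * d * l * e * f) * g) * k = (a * b * c * d) * l * (e * f * g * k) := by group
    rw [h3, h1, h2]
    group
  exact fin _ _ _ _ _ _ _ _ _ _ _ _ _ _ _ lo up

end Pool.Agent.NHR
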