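import Mathlib
import Pool.Agent.NHR.Defs
import Pool.Agent.NHR.MdY

/-!
# NHR/IdE: the label `e` in terms of the core of the chord `W` (difficulty 3)

`v = G.val ∘ seg W`.  `Xc = v(A⁻, (-1/4,1/256,1/16)) v(→ (0,0,1/16)) v(→ (0,0,1/8)) v(→ (0,0,7/8)) v(→ (0,0,15/16)) v(→ (1/256,-1/4,15/16)) v(→ B⁻)`: `hA 0 ∩ hB 3`, `hA 2 ∩ hB 3` (five times), `hA 2 ∩ hB 0`.
`W_ja`, `W_jb` and the hypotheses on `W (0, x)`: the first three pieces are in `B`: `(-1/256,0,-1/8) → (-1/256,1/1024,-1/8) → (0,1/1024,0) → (0,1/512,0)`; the last three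
`(5/16,1/512,0) → (5/16,1/1024,0) → (79/256,1/1024,-1/8) → (79/256,0,-1/8)`.  In the chart `κ` (`B_foot`) half planes `n = 1, 1 - I, -I`.
-/

open scoped Manifold ContDiff Topology
open Set Filter
open Pool.Agent.CSG (stp)
open Pool.Agent.RSG (E3 ex Thick)
open Pool.Agent.KNT (Dom Str Str2 bmp)
open Pool.Agent.NHP

namespace Pool.Agent.NHR

universe u v

variable {N : Type u} [TopologicalSpace N] [ChartedSpace E3 N] {Γ : Type v} [Group Γ]

/-- the label `e`, if the core has the value `c` -/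
noncomputable def leP {Y : Set N} (G : GHom Y Γ) (κ : ℝ × ℂ → N) (p P D H H' : ℝ) (c : Γ) : Γ :=
  G.val (seg κ (p, 1 / 2) (P, ((H / 8 : ℝ) : ℂ))) *
  G.val (seg κ (P, ((H / 8 : ℝ) : ℂ)) (P, -(((H / 8 : ℝ) : ℂ) * Complex.I))) *
  G.val (seg κ (P, -(((H / 8 : ℝ) : ℂ) * Complex.I)) (P, -(((H' / 512 : ℝ) : ℂ) * Complex.I))) * c *
  G.val (seg κ (P + 5 / 16 * D, -(((H' / 512 : ℝ) : ℂ) * Complex.I)) (P, -(((H / 8 : ℝ) : ℂ) * Complex.I))) *
  (G.val (seg κ (P, ((H / 8 : ℝ) : ℂ)) (P, -(((H / 8 : ℝ) : ℂ) * Complex.I))))⁻¹ *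
  (G.val (seg κ (p, 1 / 2) (P, ((H / 8 : ℝ) : ℂ))))⁻¹

/-- points of `W` -/
theorem ide_W {x y z : ℝ} (h : x ^ 2 + y ^ 2 < 1) (h1 : -(1 / 4) < z) (h2 : z < 5 / 4) (i j : Fin 4)
    (hi : P3 x y z ∈ hA i) (hj : P3 x y z ∈ hB j) : P3 x y z ∈ TD ∩ hA i ∩ hB j :=
  ⟨⟨P3_mem h h1 h2, hi⟩, hj⟩

theorem ide_B {x y z : ℝ} (h : x ^ 2 + y ^ 2 < 1) (h1 : -(1 / 4) < z) (h2 : z < 5 / 4) (i j : Fin 4)
    (hi : P3 x y z ∈ gA i) (hj : P3 x y z ∈ gB j) : P3 x y z ∈ TD ∩ gA i ∩ gB j :=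
  ⟨⟨P3_mem h h1 h2, hi⟩, hj⟩

theorem ide_kH1 {l x y : ℝ} (hx : 0 < x) (hn : x + |y| < 1) : (l, (⟨x, y⟩ : ℂ)) ∈ kH 1 := by
  refine ⟨?_, ?_⟩
  · refine lt_of_le_of_lt (Complex.norm_le_abs_re_add_abs_im _) ?_
    simpa [abs_of_pos hx] using hn
  · simpa using hx

theorem ide_kHI {l x y : ℝ} (hx : 0 ≤ x) (hy : y ≤ 0) (hxy : 0 < x - y) (hn : x - y < 1) :
    (l, (⟨x, y⟩ : ℂ)) ∈ kH (1 - Complex.I) := by
  refine ⟨?_, ?_⟩
  · refine lt_of_le_of_lt (Complex.norm_le_abs_re_add_abs_im _) ?_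
    simpa [abs_of_nonneg hx, abs_of_nonpos hy, sub_eq_add_neg] using hn
  · simp only [map_sub, map_one, Complex.conj_I, Complex.mul_re, Complex.sub_re, Complex.one_re, Complex.neg_re,
      Complex.I_re, Complex.sub_im, Complex.one_im, Complex.neg_im, Complex.I_im]
    linarith

/-- the middle part, in `W` -/
theorem ide_Xc {K : Set N} {B W : E → N} (S : SP K B W) (G : GHom Kᶜ Γ) :
    Xc G W = G.val (seg W (P3 (-(1 / 4)) (1 / 256) 0) (P3 (-(1 / 4)) (1 / 256) (1 / 16))) *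
      G.val (seg W (P3 (-(1 / 4)) (1 / 256) (1 / 16)) (P3 0 0 (1 / 16))) *
      G.val (seg W (P3 0 0 (1 / 16)) (P3 0 0 (1 / 8))) * G.val (cor W) *
      G.val (seg W (P3 0 0 (7 / 8)) (P3 0 0 (15 / 16))) *
      G.val (seg W (P3 0 0 (15 / 16)) (P3 (1 / 256) (-(1 / 4)) (15 / 16))) *
      G.val (seg W (P3 (1 / 256) (-(1 / 4)) (15 / 16)) (P3 (1 / 256) (-(1 / 4)) 1)) := by
  have hc : G.val (cor W) = G.val (seg W (P3 0 0 (1 / 8)) (P3 0 0 (7 / 8))) := by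
    congr 1
    funext t
    simp only [cor, seg, P3]
    congr 1
    refine Prod.ext ?_ ?_
    · apply Complex.ext <;> simp
    · simp; ring
  have e1 : G.val (seg W (P3 (-(1 / 4)) (1 / 256) 0) (P3 (-(1 / 4)) (1 / 256) (1 / 2))) =
      G.val (seg W (P3 (-(1 / 4)) (1 / 256) 0) (P3 (-(1 / 4)) (1 / 256) (1 / 16))) *
      G.val (seg W (P3 (-(1 / 4)) (1 / 256) (1 / 16)) (P3 (-(1 / 4)) (1 / 256) (1 / 2))) := by
    symm
    apply W_tri S G 0 3 <;> apply ide_W <;> first | (norm_num; done) | (simp [hA, hB, P3]; done) | (simp [hA, hB, P3]; norm_num; done)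
  have e3 : G.val (seg W (P3 (1 / 256) (-(1 / 4)) (1 / 2)) (P3 (1 / 256) (-(1 / 4)) 1)) =
      G.val (seg W (P3 (1 / 256) (-(1 / 4)) (1 / 2)) (P3 (1 / 256) (-(1 / 4)) (15 / 16))) *
      G.val (seg W (P3 (1 / 256) (-(1 / 4)) (15 / 16)) (P3 (1 / 256) (-(1 / 4)) 1)) := by
    symm
    apply W_tri S G 2 0 <;> apply ide_W <;> first | (norm_num; done) | (simp [hA, hB, P3]; done) | (simp [hA, hB, P3]; norm_num; done)
  have m1 : P3 (-(1 / 4)) (1 / 256) (1 / 2) ∈ TD ∩ hA 2 ∩ hB 3 := by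
    apply ide_W <;> first | (norm_num; done) | (simp [hA, hB, P3]; done) | (simp [hA, hB, P3]; norm_num; done)
  have m2 : P3 (1 / 256) (-(1 / 4)) (1 / 2) ∈ TD ∩ hA 2 ∩ hB 3 := by
    apply ide_W <;> first | (norm_num; done) | (simp [hA, hB, P3]; done) | (simp [hA, hB, P3]; norm_num; done)
  have m3 : P3 (-(1 / 4)) (1 / 256) (1 / 16) ∈ TD ∩ hA 2 ∩ hB 3 := by
    apply ide_W <;> first | (norm_num; done) | (simp [hA, hB, P3]; done) | (simp [hA, hB, P3]; norm_num; done)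
  have m4 : P3 0 0 (1 / 16) ∈ TD ∩ hA 2 ∩ hB 3 := by
    apply ide_W <;> first | (norm_num; done) | (simp [hA, hB, P3]; done) | (simp [hA, hB, P3]; norm_num; done)
  have m5 : P3 0 0 (1 / 8) ∈ TD ∩ hA 2 ∩ hB 3 := by
    apply ide_W <;> first | (norm_num; done) | (simp [hA, hB, P3]; done) | (simp [hA, hB, P3]; norm_num; done)
  have m6 : P3 0 0 (7 / 8) ∈ TD ∩ hA 2 ∩ hB 3 := by
    apply ide_W <;> first | (norm_num; done) | (simp [hA, hB, P3]; done) | (simp [hA, hB, P3]; norm_num; done)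
  have m7 : P3 0 0 (15 / 16) ∈ TD ∩ hA 2 ∩ hB 3 := by
    apply ide_W <;> first | (norm_num; done) | (simp [hA, hB, P3]; done) | (simp [hA, hB, P3]; norm_num; done)
  have m8 : P3 (1 / 256) (-(1 / 4)) (15 / 16) ∈ TD ∩ hA 2 ∩ hB 3 := by
    apply ide_W <;> first | (norm_num; done) | (simp [hA, hB, P3]; done) | (simp [hA, hB, P3]; norm_num; done)
  have k1 : G.val (seg W (P3 (-(1 / 4)) (1 / 256) (1 / 16)) (P3 (-(1 / 4)) (1 / 256) (1 / 2))) *
      G.val (seg W (P3 (-(1 / 4)) (1 / 256) (1 / 2)) (P3 (1 / 256) (-(1 / 4)) (1 / 2))) *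
      G.val (seg W (P3 (1 / 256) (-(1 / 4)) (1 / 2)) (P3 (1 / 256) (-(1 / 4)) (15 / 16))) =
      G.val (seg W (P3 (-(1 / 4)) (1 / 256) (1 / 16)) (P3 (1 / 256) (-(1 / 4)) (15 / 16))) := by
    rw [W_tri S G 2 3 m3 m1 m2, W_tri S G 2 3 m3 m2 m8]
  have k2 : G.val (seg W (P3 (-(1 / 4)) (1 / 256) (1 / 16)) (P3 (1 / 256) (-(1 / 4)) (15 / 16))) =
      G.val (seg W (P3 (-(1 / 4)) (1 / 256) (1 / 16)) (P3 0 0 (1 / 16))) *
      G.val (seg W (P3 0 0 (1 / 16)) (P3 0 0 (1 / 8))) * G.val (seg W (P3 0 0 (1 / 8)) (P3 0 0 (7 / 8))) *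
      G.val (seg W (P3 0 0 (7 / 8)) (P3 0 0 (15 / 16))) *
      G.val (seg W (P3 0 0 (15 / 16)) (P3 (1 / 256) (-(1 / 4)) (15 / 16))) := by
    rw [W_tri S G 2 3 m3 m4 m5, W_tri S G 2 3 m3 m5 m6, W_tri S G 2 3 m3 m6 m7, W_tri S G 2 3 m3 m7 m8]
  rw [Xc, e1, e3, hc]
  rw [← mul_assoc, mul_assoc (G.val (seg W (P3 (-(1 / 4)) (1 / 256) 0) _)) _ _,
    mul_assoc (G.val (seg W (P3 (-(1 / 4)) (1 / 256) 0) _)) _ _, k1, k2]
  simp only [mul_assoc]

theorem IdE {κ : ℝ × ℂ → N} (hκ : Thick κ) {B W : E → N} (S : SP (core κ) B W) (G : GHom (core κ)ᶜ Γ) {P P₂ D H H' τ : ℝ}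
    (L : Lnk κ B P P₂ D H H' τ) (p : ℝ)
    (h1 : ∀ x : ℝ, 0 ≤ x → x ≤ 1 / 8 → W (0, x) = B (⟨0, x / 64⟩, 0))
    (h2 : ∀ x : ℝ, 7 / 8 ≤ x → x ≤ 1 → W (0, x) = B (⟨5 / 16, (1 - x) / 64⟩, 0)) :
    lbe G κ B W p P D H = leP G κ p P D H H' (G.val (cor W)) := by
  have hH := L.Hpos
  have hH1 := L.Hlt
  have hH' := L.Hpos'
  have hH1' := L.Hlt'
  -- a segment of `B` in `κ`
  have key : ∀ (x y z x' y' z' : ℝ), P3 x y z ∈ TD → P3 x' y' z' ∈ TD → z < 1 / 4 → z' < 1 / 4 →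
      PathOn (core κ)ᶜ (seg B (P3 x y z) (P3 x' y' z')) →
      G.val (seg B (P3 x y z) (P3 x' y' z')) =
        G.val (seg κ (P + D * x, (⟨-(H * z), -(H' * y)⟩ : ℂ)) (P + D * x', (⟨-(H * z'), -(H' * y')⟩ : ℂ))) := by
    intro x y z x' y' z' ha hb hz hz' hp
    rw [← B_foot L G ha hb hz hz' hp]
    congr 2
  -- the pieces in `B`
  have b01 : G.val (seg W (P3 (-(1 / 4)) (1 / 256) 0) (P3 (-(1 / 4)) (1 / 256) (1 / 16))) =
      G.val (seg B (P3 (-(1 / 256)) 0 (-(1 / 8))) (P3 (-(1 / 256)) (1 / 1024) (-(1 / 8)))) := by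
    rw [← W_ja S G (a := P3 (-(1 / 4)) (1 / 256) 0) (b := P3 (-(1 / 4)) (1 / 256) (1 / 16))]
    · congr 2 <;> simp only [ja, P3] <;> norm_num
    · refine ⟨P3_mem (by norm_num) (by norm_num) (by norm_num), ?_⟩
      simp only [P3]; norm_num
    · refine ⟨P3_mem (by norm_num) (by norm_num) (by norm_num), ?_⟩
      simp only [P3]; norm_num
    · apply W_path S 0 3 <;> apply ide_W <;> first | (norm_num; done) | (simp [hA, hB, P3]; done) | (simp [hA, hB, P3]; norm_num; done)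
  have b12 : G.val (seg W (P3 (-(1 / 4)) (1 / 256) (1 / 16)) (P3 0 0 (1 / 16))) =
      G.val (seg B (P3 (-(1 / 256)) (1 / 1024) (-(1 / 8))) (P3 0 (1 / 1024) 0)) := by
    rw [← W_ja S G (a := P3 (-(1 / 4)) (1 / 256) (1 / 16)) (b := P3 0 0 (1 / 16))]
    · congr 2 <;> simp only [ja, P3] <;> norm_num
    · refine ⟨P3_mem (by norm_num) (by norm_num) (by norm_num), ?_⟩
      simp only [P3]; norm_num
    · refine ⟨P3_mem (by norm_num) (by norm_num) (by norm_num), ?_⟩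
      simp only [P3]; norm_num
    · apply W_path S 2 3 <;> apply ide_W <;> first | (norm_num; done) | (simp [hA, hB, P3]; done) | (simp [hA, hB, P3]; norm_num; done)
  have b56 : G.val (seg W (P3 0 0 (15 / 16)) (P3 (1 / 256) (-(1 / 4)) (15 / 16))) =
      G.val (seg B (P3 (5 / 16) (1 / 1024) 0) (P3 (79 / 256) (1 / 1024) (-(1 / 8)))) := by
    rw [← W_jb S G (a := P3 0 0 (15 / 16)) (b := P3 (1 / 256) (-(1 / 4)) (15 / 16))]
    · congr 2 <;> simp only [jb, P3] <;> norm_num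
    · refine ⟨P3_mem (by norm_num) (by norm_num) (by norm_num), ?_⟩
      simp only [P3]; norm_num [abs_le]
    · refine ⟨P3_mem (by norm_num) (by norm_num) (by norm_num), ?_⟩
      simp only [P3]; norm_num [abs_le]
    · apply W_path S 2 3 <;> apply ide_W <;> first | (norm_num; done) | (simp [hA, hB, P3]; done) | (simp [hA, hB, P3]; norm_num; done)
  have b67 : G.val (seg W (P3 (1 / 256) (-(1 / 4)) (15 / 16)) (P3 (1 / 256) (-(1 / 4)) 1)) =
      G.val (seg B (P3 (79 / 256) (1 / 1024) (-(1 / 8))) (P3 (79 / 256) 0 (-(1 / 8)))) := by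
    rw [← W_jb S G (a := P3 (1 / 256) (-(1 / 4)) (15 / 16)) (b := P3 (1 / 256) (-(1 / 4)) 1)]
    · congr 2 <;> simp only [jb, P3] <;> norm_num
    · refine ⟨P3_mem (by norm_num) (by norm_num) (by norm_num), ?_⟩
      simp only [P3]; norm_num [abs_le]
    · refine ⟨P3_mem (by norm_num) (by norm_num) (by norm_num), ?_⟩
      simp only [P3]; norm_num [abs_le]
    · apply W_path S 2 0 <;> apply ide_W <;> first | (norm_num; done) | (simp [hA, hB, P3]; done) | (simp [hA, hB, P3]; norm_num; done)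
  have b23 : G.val (seg W (P3 0 0 (1 / 16)) (P3 0 0 (1 / 8))) =
      G.val (seg B (P3 0 (1 / 1024) 0) (P3 0 (1 / 512) 0)) := by
    refine (G.val_congr ?_ ?_).symm
    · apply W_path S 2 3 <;> apply ide_W <;> first | (norm_num; done) | (simp [hA, hB, P3]; done) | (simp [hA, hB, P3]; norm_num; done)
    · intro t ht
      have h := h1 (1 / 16 + t / 16) (by linarith [ht.1]) (by linarith [ht.2])
      have e1 : (1 - t) • P3 0 0 (1 / 16) + t • P3 0 0 (1 / 8) = ((0 : ℂ), 1 / 16 + t / 16) := by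
        refine Prod.ext ?_ ?_
        · apply Complex.ext <;> simp [P3]
        · simp [P3]; ring
      have e2 : (1 - t) • P3 0 (1 / 1024) 0 + t • P3 0 (1 / 512) 0 =
          ((⟨0, (1 / 16 + t / 16) / 64⟩ : ℂ), (0 : ℝ)) := by
        refine Prod.ext ?_ ?_
        · apply Complex.ext
          · simp [P3]
          · simp [P3]; ring
        · simp [P3]
      simp only [seg]
      rw [e1, e2, h]
  have b45 : G.val (seg W (P3 0 0 (7 / 8)) (P3 0 0 (15 / 16))) =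
      G.val (seg B (P3 (5 / 16) (1 / 512) 0) (P3 (5 / 16) (1 / 1024) 0)) := by
    refine (G.val_congr ?_ ?_).symm
    · apply W_path S 2 3 <;> apply ide_W <;> first | (norm_num; done) | (simp [hA, hB, P3]; done) | (simp [hA, hB, P3]; norm_num; done)
    · intro t ht
      have h := h2 (7 / 8 + t / 16) (by linarith [ht.1]) (by linarith [ht.2])
      have e1 : (1 - t) • P3 0 0 (7 / 8) + t • P3 0 0 (15 / 16) = ((0 : ℂ), 7 / 8 + t / 16) := by
        refine Prod.ext ?_ ?_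
        · apply Complex.ext <;> simp [P3]
        · simp [P3]; ring
      have e2 : (1 - t) • P3 (5 / 16) (1 / 512) 0 + t • P3 (5 / 16) (1 / 1024) 0 =
          ((⟨5 / 16, (1 - (7 / 8 + t / 16)) / 64⟩ : ℂ), (0 : ℝ)) := by
        refine Prod.ext ?_ ?_
        · apply Complex.ext
          · simp [P3]; ring
          · simp [P3]; ring
        · simp [P3]
      simp only [seg]
      rw [e1, e2, h]
  have c01 := key (-(1 / 256)) 0 (-(1 / 8)) (-(1 / 256)) (1 / 1024) (-(1 / 8))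
    (P3_mem (by norm_num) (by norm_num) (by norm_num)) (P3_mem (by norm_num) (by norm_num) (by norm_num))
    (by norm_num) (by norm_num)
    (by apply B_path S 3 3 <;> apply ide_B <;> first | (norm_num; done) | (simp [gA, gB, P3]; done) | (simp [gA, gB, P3]; norm_num; done))
  have c12 := key (-(1 / 256)) (1 / 1024) (-(1 / 8)) 0 (1 / 1024) 0
    (P3_mem (by norm_num) (by norm_num) (by norm_num)) (P3_mem (by norm_num) (by norm_num) (by norm_num))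
    (by norm_num) (by norm_num)
    (by apply B_path S 0 3 <;> apply ide_B <;> first | (norm_num; done) | (simp [gA, gB, P3]; done) | (simp [gA, gB, P3]; norm_num; done))
  have c23 := key 0 (1 / 1024) 0 0 (1 / 512) 0
    (P3_mem (by norm_num) (by norm_num) (by norm_num)) (P3_mem (by norm_num) (by norm_num) (by norm_num))
    (by norm_num) (by norm_num)
    (by apply B_path S 0 3 <;> apply ide_B <;> first | (norm_num; done) | (simp [gA, gB, P3]; done) | (simp [gA, gB, P3]; norm_num; done))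
  have c45 := key (5 / 16) (1 / 512) 0 (5 / 16) (1 / 1024) 0
    (P3_mem (by norm_num) (by norm_num) (by norm_num)) (P3_mem (by norm_num) (by norm_num) (by norm_num))
    (by norm_num) (by norm_num)
    (by apply B_path S 0 3 <;> apply ide_B <;> first | (norm_num; done) | (simp [gA, gB, P3]; done) | (simp [gA, gB, P3]; norm_num; done))
  have c56 := key (5 / 16) (1 / 1024) 0 (79 / 256) (1 / 1024) (-(1 / 8))
    (P3_mem (by norm_num) (by norm_num) (by norm_num)) (P3_mem (by norm_num) (by norm_num) (by norm_num))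
    (by norm_num) (by norm_num)
    (by apply B_path S 0 3 <;> apply ide_B <;> first | (norm_num; done) | (simp [gA, gB, P3]; done) | (simp [gA, gB, P3]; norm_num; done))
  have c67 := key (79 / 256) (1 / 1024) (-(1 / 8)) (79 / 256) 0 (-(1 / 8))
    (P3_mem (by norm_num) (by norm_num) (by norm_num)) (P3_mem (by norm_num) (by norm_num) (by norm_num))
    (by norm_num) (by norm_num)
    (by apply B_path S 3 3 <;> apply ide_B <;> first | (norm_num; done) | (simp [gA, gB, P3]; done) | (simp [gA, gB, P3]; norm_num; done))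
  have c07 := key (-(1 / 256)) 0 (-(1 / 8)) (79 / 256) 0 (-(1 / 8))
    (P3_mem (by norm_num) (by norm_num) (by norm_num)) (P3_mem (by norm_num) (by norm_num) (by norm_num))
    (by norm_num) (by norm_num)
    (by apply B_path S 3 3 <;> apply ide_B <;> first | (norm_num; done) | (simp [gA, gB, P3]; done) | (simp [gA, gB, P3]; norm_num; done))
  -- the points in `κ`
  set k0 : ℝ × ℂ := (P + D * (-(1 / 256)), (⟨-(H * (-(1 / 8))), -(H' * 0)⟩ : ℂ)) with hk0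
  set k1 : ℝ × ℂ := (P + D * (-(1 / 256)), (⟨-(H * (-(1 / 8))), -(H' * (1 / 1024))⟩ : ℂ)) with hk1
  set k2 : ℝ × ℂ := (P + D * 0, (⟨-(H * 0), -(H' * (1 / 1024))⟩ : ℂ)) with hk2
  set k3 : ℝ × ℂ := (P + D * 0, (⟨-(H * 0), -(H' * (1 / 512))⟩ : ℂ)) with hk3
  set k4 : ℝ × ℂ := (P + D * (5 / 16), (⟨-(H * 0), -(H' * (1 / 512))⟩ : ℂ)) with hk4
  set k5 : ℝ × ℂ := (P + D * (5 / 16), (⟨-(H * 0), -(H' * (1 / 1024))⟩ : ℂ)) with hk5
  set k6 : ℝ × ℂ := (P + D * (79 / 256), (⟨-(H * (-(1 / 8))), -(H' * (1 / 1024))⟩ : ℂ)) with hk6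
  set k7 : ℝ × ℂ := (P + D * (79 / 256), (⟨-(H * (-(1 / 8))), -(H' * 0)⟩ : ℂ)) with hk7
  have em0 : ((P, ((H / 8 : ℝ) : ℂ)) : ℝ × ℂ) = (P, (⟨H / 8, 0⟩ : ℂ)) := rfl
  have em1 : ((P, -(((H / 8 : ℝ) : ℂ) * Complex.I)) : ℝ × ℂ) = (P, (⟨0, -(H / 8)⟩ : ℂ)) := by
    refine Prod.ext rfl ?_
    apply Complex.ext <;> simp
  have ek3 : ((P, -(((H' / 512 : ℝ) : ℂ) * Complex.I)) : ℝ × ℂ) = k3 := by
    refine Prod.ext ?_ ?_
    · simp [hk3]
    · apply Complex.ext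
      · simp [hk3]
      · simp [hk3]; ring
  have ek4 : ((P + 5 / 16 * D, -(((H' / 512 : ℝ) : ℂ) * Complex.I)) : ℝ × ℂ) = k4 := by
    refine Prod.ext ?_ ?_
    · simp [hk4]; ring
    · apply Complex.ext
      · simp [hk4]
      · simp [hk4]; ring
  have ek0 : ((P - D / 256, ((H / 8 : ℝ) : ℂ)) : ℝ × ℂ) = k0 := by
    refine Prod.ext ?_ ?_
    · simp [hk0]; ring
    · apply Complex.ext
      · simp [hk0]; ring
      · simp [hk0]
  have emp : ((p, 1 / 2) : ℝ × ℂ) = (p, (⟨1 / 2, 0⟩ : ℂ)) := by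
    refine Prod.ext rfl ?_
    apply Complex.ext <;> norm_num
  have n0 : k0 ∈ kH 1 := ide_kH1 (by linarith) (by norm_num; linarith)
  have nm : ((P, (⟨H / 8, 0⟩ : ℂ)) : ℝ × ℂ) ∈ kH 1 := ide_kH1 (by linarith) (by norm_num; linarith)
  have np : ((p, (⟨1 / 2, 0⟩ : ℂ)) : ℝ × ℂ) ∈ kH 1 := ide_kH1 (by norm_num) (by norm_num)
  have q0 : k0 ∈ kH (1 - Complex.I) := ide_kHI (by linarith) (by linarith) (by linarith) (by linarith)
  have q1 : k1 ∈ kH (1 - Complex.I) := ide_kHI (by linarith) (by linarith) (by linarith) (by linarith)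
  have q2 : k2 ∈ kH (1 - Complex.I) := ide_kHI (by linarith) (by linarith) (by linarith) (by linarith)
  have q3 : k3 ∈ kH (1 - Complex.I) := ide_kHI (by linarith) (by linarith) (by linarith) (by linarith)
  have q4 : k4 ∈ kH (1 - Complex.I) := ide_kHI (by linarith) (by linarith) (by linarith) (by linarith)
  have q5 : k5 ∈ kH (1 - Complex.I) := ide_kHI (by linarith) (by linarith) (by linarith) (by linarith)
  have q6 : k6 ∈ kH (1 - Complex.I) := ide_kHI (by linarith) (by linarith) (by linarith) (by linarith)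
  have q7 : k7 ∈ kH (1 - Complex.I) := ide_kHI (by linarith) (by linarith) (by linarith) (by linarith)
  have qm0 : ((P, (⟨H / 8, 0⟩ : ℂ)) : ℝ × ℂ) ∈ kH (1 - Complex.I) :=
    ide_kHI (by linarith) (by linarith) (by linarith) (by linarith)
  have qm1 : ((P, (⟨0, -(H / 8)⟩ : ℂ)) : ℝ × ℂ) ∈ kH (1 - Complex.I) :=
    ide_kHI (by linarith) (by linarith) (by linarith) (by linarith)
  have g1 : G.val (seg κ (p, (⟨1 / 2, 0⟩ : ℂ)) k0) =
      G.val (seg κ (p, (⟨1 / 2, 0⟩ : ℂ)) (P, (⟨H / 8, 0⟩ : ℂ))) * G.val (seg κ (P, (⟨H / 8, 0⟩ : ℂ)) k0) :=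
    (K_tri hκ G 1 np nm n0).symm
  have g2 : G.val (seg κ (P, (⟨H / 8, 0⟩ : ℂ)) k0) * G.val (seg κ k0 k1) * G.val (seg κ k1 k2) *
      G.val (seg κ k2 k3) = G.val (seg κ (P, (⟨H / 8, 0⟩ : ℂ)) (P, (⟨0, -(H / 8)⟩ : ℂ))) *
      G.val (seg κ (P, (⟨0, -(H / 8)⟩ : ℂ)) k3) := by
    rw [K_tri hκ G _ qm0 q0 q1, K_tri hκ G _ qm0 q1 q2, K_tri hκ G _ qm0 q2 q3, K_tri hκ G _ qm0 qm1 q3]
  have g3 : G.val (seg κ k4 k5) * G.val (seg κ k5 k6) * G.val (seg κ k6 k7) * (G.val (seg κ k0 k7))⁻¹ =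
      G.val (seg κ k4 (P, (⟨0, -(H / 8)⟩ : ℂ))) *
      (G.val (seg κ (P, (⟨H / 8, 0⟩ : ℂ)) (P, (⟨0, -(H / 8)⟩ : ℂ))))⁻¹ *
      G.val (seg κ (P, (⟨H / 8, 0⟩ : ℂ)) k0) := by
    rw [← K_symm hκ G _ q0 q7, ← K_symm hκ G _ qm0 qm1, K_tri hκ G _ q4 q5 q6, K_tri hκ G _ q4 q6 q7,
      K_tri hκ G _ q4 q7 q0, K_tri hκ G _ q4 qm1 qm0, K_tri hκ G _ q4 qm0 q0]
  rw [lbe, leP, t0, ek0, em0, em1, ek3, ek4, emp, ide_Xc S G, b01, b12, b23, b45, b56, b67, c01, c12, c23, c45,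
    c56, c67, c07, g1]
  set A := G.val (seg κ (p, (⟨1 / 2, 0⟩ : ℂ)) (P, (⟨H / 8, 0⟩ : ℂ))) with hA'
  set Z := G.val (seg κ (P, (⟨H / 8, 0⟩ : ℂ)) k0) with hZ
  set Q := G.val (seg κ (P, (⟨H / 8, 0⟩ : ℂ)) (P, (⟨0, -(H / 8)⟩ : ℂ))) with hQ
  have t1 : A * Z * (G.val (seg κ k0 k1) * G.val (seg κ k1 k2) * G.val (seg κ k2 k3) * G.val (cor W) *
      G.val (seg κ k4 k5) * G.val (seg κ k5 k6) * G.val (seg κ k6 k7)) * (A * Z * G.val (seg κ k0 k7))⁻¹ =
      A * (Z * G.val (seg κ k0 k1) * G.val (seg κ k1 k2) * G.val (seg κ k2 k3)) * G.val (cor W) *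
      (G.val (seg κ k4 k5) * G.val (seg κ k5 k6) * G.val (seg κ k6 k7) * (G.val (seg κ k0 k7))⁻¹) * Z⁻¹ * A⁻¹ := by
    group
  rw [t1, g2, g3]
  group

end Pool.Agent.NHR
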