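import Mathlib
import Pool.Agent.NHR.Defs
import Pool.Agent.NHR.MdY

/-!
# NHR/IdI: from the base points to the special configuration (difficulty 2)

All points are in `kH 1` (`re v > 0`) of the thick knot: `B_foot`, `K_tri`.  `B (-3/4, 0, -ρ/H) = κ (P - 3/4 D, ρ)`, `B (r, 0, -1/8) = κ (P + D r, H/8)`.
-/

open scoped Manifold ContDiff Topology
open Set Filter
open Pool.Agent.CSG (stp)
open Pool.Agent.RSG (E3 ex Thick)
open Pool.Agent.KNT (Dom Str Str2 bmp)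
open Pool.Agent.NHP

namespace Pool.Agent.NHR

universe u v

variable {N : Type u} [TopologicalSpace N] [ChartedSpace E3 N] {Γ : Type v} [Group Γ]

theorem idI_mem {l x : ℝ} (h0 : 0 < x) (h1 : x < 1) : ((l, (x : ℂ)) : ℝ × ℂ) ∈ kH 1 := by
  refine ⟨?_, ?_⟩
  · change ‖(x : ℂ)‖ < 1
    rw [Complex.norm_real, Real.norm_of_nonneg h0.le]
    exact h1
  · simpa using h0

theorem idI_eq {κ : ℝ × ℂ → N} {B W : E → N} (S : SP (core κ) B W) (G : GHom (core κ)ᶜ Γ)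
    {P P₂ D H H' τ : ℝ} (L : Lnk κ B P P₂ D H H' τ) {r r' x x' : ℝ} (hr : |r| < 1) (hr' : |r'| < 1)
    (hx : -(1 / 4) < x) (hx0 : x < 0) (hx' : -(1 / 4) < x') (hx0' : x' < 0) :
    G.val (seg B (P3 r 0 x) (P3 r' 0 x')) =
      G.val (seg κ (P + D * r, ((-(H * x) : ℝ) : ℂ)) (P + D * r', ((-(H * x') : ℝ) : ℂ))) := by
  have mem : ∀ {r x : ℝ}, |r| < 1 → -(1 / 4) < x → x < 0 → P3 r 0 x ∈ TD ∩ gA 3 ∩ gB 3 := by
    intro r x h1 h2 h3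
    refine ⟨⟨⟨?_, h2, ?_⟩, h3⟩, ?_⟩
    · change ‖(⟨r, 0⟩ : ℂ)‖ < 1
      have : (⟨r, 0⟩ : ℂ) = (r : ℂ) := rfl
      rw [this, Complex.norm_real, Real.norm_eq_abs]
      exact h1
    · change x < 5 / 4
      linarith
    · change x < 1
      linarith
  have ha := mem hr hx hx0
  have hb := mem hr' hx' hx0'
  have key := B_foot L G ha.1.1 hb.1.1 (show x < 1 / 4 by linarith) (show x' < 1 / 4 by linarith) (B_path S 3 3 ha hb)
  rw [← key]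
  have e : ∀ r x : ℝ, ((P + D * (P3 r 0 x).1.re, -⟨H * (P3 r 0 x).2, H' * (P3 r 0 x).1.im⟩) : ℝ × ℂ) =
      (P + D * r, ((-(H * x) : ℝ) : ℂ)) := by
    intro r x
    refine Prod.ext rfl ?_
    apply Complex.ext
    · rfl
    · change -(H' * 0) = 0
      ring
  rw [e, e]

theorem IdI {κ : ℝ × ℂ → N} (hκ : Thick κ) {B W : E → N} (S : SP (core κ) B W) (G : GHom (core κ)ᶜ Γ) {P P₂ D H H' τ : ℝ}
    (L : Lnk κ B P P₂ D H H' τ) (p : ℝ) {ρ : ℝ} (h0 : 0 < ρ) (h1 : ρ ≤ H / 16) :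
    G.val (seg κ (p, 1 / 2) (p, (ρ : ℂ))) * In G κ B p P D H ρ = t0 G κ p P D H := by
  have hH := L.Hpos
  have hH' := L.Hlt
  have hd : ρ / H ≤ 1 / 16 := by
    rw [div_le_iff₀ hH]
    linarith
  have hd0 : 0 < ρ / H := by positivity
  unfold In t0
  rw [idI_eq S G L (by norm_num [abs_lt]) (by norm_num [abs_lt]) (by linarith) (by linarith) (by norm_num) (by norm_num),
    idI_eq S G L (by norm_num [abs_lt]) (by norm_num [abs_lt]) (by norm_num) (by norm_num) (by norm_num) (by norm_num)]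
  have e1 : -(H * -(ρ / H)) = ρ := by field_simp
  have e2 : -(H * -(1 / 8)) = H / 8 := by ring
  have e3 : P + D * -(3 / 4) = P - 3 / 4 * D := by ring
  have e4 : P + D * -(1 / 256) = P - D / 256 := by ring
  have e5 : (1 / 2 : ℂ) = ((1 / 2 : ℝ) : ℂ) := by push_cast; rfl
  rw [e1, e2, e3, e4, e5]
  have m : ∀ {l x : ℝ}, 0 < x → x < 1 → ((l, (x : ℂ)) : ℝ × ℂ) ∈ kH 1 := fun h h' => idI_mem h h'
  have m1 : ∀ l : ℝ, ((l, ((1 / 2 : ℝ) : ℂ)) : ℝ × ℂ) ∈ kH 1 := fun l => m (by norm_num) (by norm_num)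
  have m2 : ∀ l : ℝ, ((l, (ρ : ℂ)) : ℝ × ℂ) ∈ kH 1 := fun l => m h0 (by linarith)
  have m3 : ∀ l : ℝ, ((l, ((H / 8 : ℝ) : ℂ)) : ℝ × ℂ) ∈ kH 1 := fun l => m (by positivity) (by linarith)
  rw [K_tri hκ G 1 (m2 _) (m2 _) (m3 _), K_tri hκ G 1 (m2 _) (m3 _) (m3 _), K_tri hκ G 1 (m1 _) (m2 _) (m3 _)]

theorem IdI' {κ : ℝ × ℂ → N} (hκ : Thick κ) {B W : E → N} (S : SP (core κ) B W) (G : GHom (core κ)ᶜ Γ) {P P₂ D H H' τ : ℝ}
    (L : Lnk κ B P P₂ D H H' τ) (p p₀ : ℝ) {ρ : ℝ} (h0 : 0 < ρ) (h1 : ρ ≤ H / 16) :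
    t0 G κ p P D H * G.val (seg B (P3 (-(1 / 256)) 0 (-(1 / 8))) (P3 (81 / 256) 0 (-(1 / 8)))) * Out G κ B p₀ P D H ρ *
      G.val (seg κ (p₀, (ρ : ℂ)) (p₀, 1 / 2)) = G.val (seg κ (p, 1 / 2) (p₀, 1 / 2)) := by
  have hH := L.Hpos
  have hH' := L.Hlt
  have hd : ρ / H ≤ 1 / 16 := by
    rw [div_le_iff₀ hH]
    linarith
  have hd0 : 0 < ρ / H := by positivity
  unfold Out t0
  rw [idI_eq S G L (by norm_num [abs_lt]) (by norm_num [abs_lt]) (by norm_num) (by norm_num) (by norm_num) (by norm_num),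
    idI_eq S G L (by norm_num [abs_lt]) (by norm_num [abs_lt]) (by norm_num) (by norm_num) (by norm_num) (by norm_num),
    idI_eq S G L (by norm_num [abs_lt]) (by norm_num [abs_lt]) (by norm_num) (by norm_num) (by linarith) (by linarith)]
  have e1 : -(H * -(ρ / H)) = ρ := by field_simp
  have e2 : -(H * -(1 / 8)) = H / 8 := by ring
  have e3 : P + D * (3 / 4) = P + 3 / 4 * D := by ring
  have e4 : P + D * -(1 / 256) = P - D / 256 := by ring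
  have e5 : (1 / 2 : ℂ) = ((1 / 2 : ℝ) : ℂ) := by push_cast; rfl
  rw [e1, e2, e3, e4, e5]
  have m : ∀ {l x : ℝ}, 0 < x → x < 1 → ((l, (x : ℂ)) : ℝ × ℂ) ∈ kH 1 := fun h h' => idI_mem h h'
  have m1 : ∀ l : ℝ, ((l, ((1 / 2 : ℝ) : ℂ)) : ℝ × ℂ) ∈ kH 1 := fun l => m (by norm_num) (by norm_num)
  have m2 : ∀ l : ℝ, ((l, (ρ : ℂ)) : ℝ × ℂ) ∈ kH 1 := fun l => m h0 (by linarith)
  have m3 : ∀ l : ℝ, ((l, ((H / 8 : ℝ) : ℂ)) : ℝ × ℂ) ∈ kH 1 := fun l => m (by positivity) (by linarith)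
  rw [K_tri hκ G 1 (m1 _) (m3 _) (m3 _), K_tri hκ G 1 (m3 _) (m3 _) (m2 _), K_tri hκ G 1 (m3 _) (m2 _) (m2 _),
    K_tri hκ G 1 (m1 _) (m3 _) (m2 _), K_tri hκ G 1 (m1 _) (m2 _) (m1 _)]

end Pool.Agent.NHR
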