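import Mathlib
import Pool.Agent.NHR.Defs
import Pool.Agent.NHR.MdY

/-!
# NHR/IdT: the loop `BL` and translations (difficulty 2)

Insert `B_tri` for the translation of each of the five edges: `{x < 0}` (`gA 3`, `gB 3`), `{im < 0}` (`gA 1`, `gB 1`), `{x > 1}` (`gA 2`, `gB 2`), `{im > 0}`
(`gA 0`, `gB 0`), `{x < 0}`.  Every edge `seg (r, u) (r, v)` satisfies
`val (seg (r,u) (r,v)) * val (seg (r,v) (r',v)) = val (seg (r,u) (r',u)) * val (seg (r',u) (r',v))`.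
-/

open scoped Manifold ContDiff Topology
open Set Filter
open Pool.Agent.CSG (stp)
open Pool.Agent.RSG (E3 ex Thick)
open Pool.Agent.KNT (Dom Str Str2 bmp)
open Pool.Agent.NHP

namespace Pool.Agent.NHR

universe u v

variable {N : Type u} [TopologicalSpace N] [ChartedSpace E3 N] {Γ : Type v} [Group Γ]

theorem IdT_sq {K : Set N} {B W : E → N} (S : SP K B W) (G : GHom Kᶜ Γ) (i j : Fin 4) {a b a' b' : E}
    (ha : a ∈ TD ∩ gA i ∩ gB j) (hb : b ∈ TD ∩ gA i ∩ gB j) (ha' : a' ∈ TD ∩ gA i ∩ gB j) (hb' : b' ∈ TD ∩ gA i ∩ gB j) :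
    G.val (seg B a b) = G.val (seg B a a') * G.val (seg B a' b') * (G.val (seg B b b'))⁻¹ := by
  rw [B_tri S G i j ha ha' hb', ← B_tri S G i j ha hb hb', mul_assoc, mul_inv_cancel, mul_one]

omit [TopologicalSpace N] [ChartedSpace E3 N] [Group Γ] in
theorem IdT_mem {x y z : ℝ} (hx : |x| ≤ 3 / 4) (hy : |y| ≤ 1 / 768) (hz : -(1 / 8) ≤ z) (hz' : z ≤ 9 / 8) : P3 x y z ∈ TD := by
  apply P3_mem _ (by linarith) (by linarith)
  have h1 : x ^ 2 ≤ (3 / 4) ^ 2 := sq_le_sq' (by linarith [(abs_le.1 hx).1]) (abs_le.1 hx).2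
  have h2 : y ^ 2 ≤ (1 / 768) ^ 2 := sq_le_sq' (by linarith [(abs_le.1 hy).1]) (abs_le.1 hy).2
  norm_num at h1 h2
  linarith

theorem IdT {K : Set N} {B W : E → N} (S : SP K B W) (G : GHom Kᶜ Γ) {r r' : ℝ} (hr : |r| ≤ 3 / 4) (hr' : |r'| ≤ 3 / 4) :
    BL G B r = G.val (seg B (P3 r 0 (-(1 / 8))) (P3 r' 0 (-(1 / 8)))) * BL G B r' *
      (G.val (seg B (P3 r 0 (-(1 / 8))) (P3 r' 0 (-(1 / 8)))))⁻¹ := by
  have m1 : ∀ x y z : ℝ, |x| ≤ 3 / 4 → |y| ≤ 1 / 768 → -(1 / 8) ≤ z → z < 0 → P3 x y z ∈ TD ∩ gA 3 ∩ gB 3 := by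
    intro x y z hx hy hz hz'
    exact ⟨⟨IdT_mem hx hy hz (by linarith), hz'⟩, show z < 1 by linarith⟩
  have m2 : ∀ x y z : ℝ, |x| ≤ 3 / 4 → |y| ≤ 1 / 768 → -(1 / 8) ≤ z → z ≤ 9 / 8 → y < 0 → P3 x y z ∈ TD ∩ gA 1 ∩ gB 1 := by
    intro x y z hx hy hz hz' h
    exact ⟨⟨IdT_mem hx hy hz hz', h⟩, h⟩
  have m3 : ∀ x y z : ℝ, |x| ≤ 3 / 4 → |y| ≤ 1 / 768 → 1 < z → z ≤ 9 / 8 → P3 x y z ∈ TD ∩ gA 2 ∩ gB 2 := by
    intro x y z hx hy hz hz'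
    exact ⟨⟨IdT_mem hx hy (by linarith) hz', show 0 < z by linarith⟩, hz⟩
  have m4 : ∀ x y z : ℝ, |x| ≤ 3 / 4 → |y| ≤ 1 / 768 → -(1 / 8) ≤ z → z ≤ 9 / 8 → 0 < y → P3 x y z ∈ TD ∩ gA 0 ∩ gB 0 := by
    intro x y z hx hy hz hz' h
    exact ⟨⟨IdT_mem hx hy hz hz', h⟩, h⟩
  have y0 : |(0 : ℝ)| ≤ 1 / 768 := by norm_num
  have y1 : |(1 / 768 : ℝ)| ≤ 1 / 768 := by rw [abs_of_pos (by norm_num)]
  have y2 : |(-(1 / 768) : ℝ)| ≤ 1 / 768 := by rw [abs_neg, abs_of_pos (by norm_num)]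
  unfold BL
  rw [IdT_sq S G 3 3 (m1 r 0 (-(1 / 8)) hr y0 (by norm_num) (by norm_num))
      (m1 r (-(1 / 768)) (-(1 / 8)) hr y2 (by norm_num) (by norm_num))
      (m1 r' 0 (-(1 / 8)) hr' y0 (by norm_num) (by norm_num))
      (m1 r' (-(1 / 768)) (-(1 / 8)) hr' y2 (by norm_num) (by norm_num)),
    IdT_sq S G 1 1 (m2 r (-(1 / 768)) (-(1 / 8)) hr y2 (by norm_num) (by norm_num) (by norm_num))
      (m2 r (-(1 / 768)) (9 / 8) hr y2 (by norm_num) (by norm_num) (by norm_num))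
      (m2 r' (-(1 / 768)) (-(1 / 8)) hr' y2 (by norm_num) (by norm_num) (by norm_num))
      (m2 r' (-(1 / 768)) (9 / 8) hr' y2 (by norm_num) (by norm_num) (by norm_num)),
    IdT_sq S G 2 2 (m3 r (-(1 / 768)) (9 / 8) hr y2 (by norm_num) (by norm_num))
      (m3 r (1 / 768) (9 / 8) hr y1 (by norm_num) (by norm_num))
      (m3 r' (-(1 / 768)) (9 / 8) hr' y2 (by norm_num) (by norm_num))
      (m3 r' (1 / 768) (9 / 8) hr' y1 (by norm_num) (by norm_num)),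
    IdT_sq S G 0 0 (m4 r (1 / 768) (9 / 8) hr y1 (by norm_num) (by norm_num) (by norm_num))
      (m4 r (1 / 768) (-(1 / 8)) hr y1 (by norm_num) (by norm_num) (by norm_num))
      (m4 r' (1 / 768) (9 / 8) hr' y1 (by norm_num) (by norm_num) (by norm_num))
      (m4 r' (1 / 768) (-(1 / 8)) hr' y1 (by norm_num) (by norm_num) (by norm_num)),
    IdT_sq S G 3 3 (m1 r (1 / 768) (-(1 / 8)) hr y1 (by norm_num) (by norm_num))
      (m1 r 0 (-(1 / 8)) hr y0 (by norm_num) (by norm_num))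
      (m1 r' (1 / 768) (-(1 / 8)) hr' y1 (by norm_num) (by norm_num))
      (m1 r' 0 (-(1 / 8)) hr' y0 (by norm_num) (by norm_num))]
  group

end Pool.Agent.NHR
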