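import Mathlib
import Pool.Agent.NHR.Defs
import Pool.Agent.NHR.IdR
import Pool.Agent.NHR.IdT
import Pool.Agent.NHR.IdI

/-!
# NHR/Id1: the value of the loop of relation (1) in the complement of `K` (difficulty 2)

`IdR`, `IdT`, `IdI` and `group`.
-/

open scoped Manifold ContDiff Topology
open Set Filter
open Pool.Agent.CSG (stp)
open Pool.Agent.RSG (E3 ex Thick)
open Pool.Agent.KNT (Dom Str Str2 bmp)
open Pool.Agent.NHP

namespace Pool.Agent.NHR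

universe u v

variable {N : Type u} [TopologicalSpace N] [ChartedSpace E3 N] {Γ : Type v} [Group Γ]

theorem Id1 {κ : ℝ × ℂ → N} (hκ : Thick κ) {B W : E → N} (S : SP (core κ) B W) (G : GHom (core κ)ᶜ Γ) {P P₂ D H H' τ : ℝ}
    (L : Lnk κ B P P₂ D H H' τ) (p : ℝ) {ρ : ℝ} (h0 : 0 < ρ) (h1 : ρ ≤ H / 16) {b e : Γ}
    (hb : b = bet G κ B p P D H) (he : e = lbe G κ B W p P D H) :
    G.val (seg κ (p, 1 / 2) (p, (ρ : ℂ))) * ex1 G κ B W p P D H ρ * (G.val (seg κ (p, 1 / 2) (p, (ρ : ℂ))))⁻¹ =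
      (e * b * e⁻¹) * b * (e * b * e⁻¹)⁻¹ * b⁻¹ := by
  have hI := IdI hκ S G L p h0 h1
  have hR := IdR S G (U := G.val (seg W (P3 (-(1 / 4)) (1 / 256) 0) (P3 (-(1 / 4)) (1 / 256) (1 / 2))) *
      G.val (seg W (P3 (-(1 / 4)) (1 / 256) (1 / 2)) (P3 (3 / 64) (1 / 4) (1 / 2)))) rfl
  have hT := IdT S G (r := -(1 / 256)) (r' := 79 / 256) (by norm_num [abs_le]) (by norm_num [abs_le])
  subst hb he
  unfold ex1 In1 lbe bet
  generalize G.val (seg κ (p, 1 / 2) (p, (ρ : ℂ))) = s0 at hI ⊢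
  generalize In G κ B p P D H ρ = i0 at hI ⊢
  generalize t0 G κ p P D H = t at hI ⊢
  generalize G.val (seg W (P3 (-(1 / 4)) (1 / 256) 0) (P3 (-(1 / 4)) (1 / 256) (1 / 2))) = u1 at hR ⊢
  generalize G.val (seg W (P3 (-(1 / 4)) (1 / 256) (1 / 2)) (P3 (3 / 64) (1 / 4) (1 / 2))) = u2 at hR ⊢
  generalize RL G W (1 / 4) * Lw G W * (RL G W (-(1 / 4)))⁻¹ * (Lw G W)⁻¹ = c at hR ⊢
  generalize Xc G W = x at hR ⊢
  generalize G.val (seg B (P3 (-(1 / 256)) 0 (-(1 / 8))) (P3 (79 / 256) 0 (-(1 / 8)))) = v at hT ⊢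
  generalize BL G B (79 / 256) = m at hR hT ⊢
  generalize BL G B (-(1 / 256)) = b at hR hT ⊢
  have h3 : m = v⁻¹ * b * v := by
    rw [hT]
    group
  have h4 : c = (u1 * u2)⁻¹ * (x * m * x⁻¹ * b * (x * m * x⁻¹)⁻¹ * b⁻¹) * (u1 * u2) := by
    rw [← hR]
    group
  have h5 : i0 = s0⁻¹ * t := by
    rw [← hI]
    group
  rw [h4, h5, h3]
  group

end Pool.Agent.NHR
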