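import Mathlib
import Pool.Agent.NHR.Defs
import Pool.Agent.NHR.MdY
import Pool.Agent.NHR.IdB

/-!
# NHR/IdBp: parallel strands: the loop `β` is `m (a m a⁻¹)` (difficulty 2; copy of `IdB` with `τ = 1`)

Same proof as `NHR/IdB` (copy it from the store when it is done): `BL = M₀ HU M₂ HU⁻¹`, `M₀ = t0⁻¹ m t0`.  The only difference: in the chart `κ` (`B_tip`, `τ = 1`) the points of `M₂`
are `v = H/8, H/8 + iH'y, -H/8 + iH'y, -H/8 - iH'y, H/8 - iH'y` at `l = P₂ - D/256`, so `M₂` is the positive loop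
`G (seg (P₂ - D/256, H/8) (p, 1/2)) m (..)⁻¹`.
`mer_four`, `mer_move` are in `NHR/IdB`.
-/

open scoped Manifold ContDiff Topology
open Set Filter
open Pool.Agent.CSG (stp)
open Pool.Agent.RSG (E3 ex Thick)
open Pool.Agent.KNT (Dom Str Str2 bmp)
open Pool.Agent.NHP

namespace Pool.Agent.NHR

universe u v

variable {N : Type u} [TopologicalSpace N] [ChartedSpace E3 N] {Γ : Type v} [Group Γ]

/-- the rectangle, reversed -/
theorem idbp_rect {κ : ℝ × ℂ → N} (hκ : Thick κ) (G : GHom (core κ)ᶜ Γ) (l : ℝ) {a b : ℝ} (h0 : 0 < a) (h1 : 0 < b)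
    (h : a + b < 1) :
    G.val (seg κ (l, (⟨a, 0⟩ : ℂ)) (l, (⟨a, -b⟩ : ℂ))) * G.val (seg κ (l, (⟨a, -b⟩ : ℂ)) (l, (⟨-a, -b⟩ : ℂ))) *
      G.val (seg κ (l, (⟨-a, -b⟩ : ℂ)) (l, (⟨-a, b⟩ : ℂ))) * G.val (seg κ (l, (⟨-a, b⟩ : ℂ)) (l, (⟨a, b⟩ : ℂ))) *
      G.val (seg κ (l, (⟨a, b⟩ : ℂ)) (l, (⟨a, 0⟩ : ℂ))) = (G.val (mer κ l a))⁻¹ := by
  have ha : |a| = a := abs_of_pos h0
  have hb : |b| = b := abs_of_pos h1
  have m : ∀ {n₁ n₂ : ℝ} {x y : ℝ}, |x| ≤ a → |y| ≤ b → 0 < n₁ * x + n₂ * y →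
      ((l, (⟨x, y⟩ : ℂ)) : ℝ × ℂ) ∈ kH (⟨n₁, n₂⟩ : ℂ) := by
    intro n₁ n₂ x y hx hy hn
    exact idb_mem (by linarith) hn
  have ca : |-a| = a := by rw [abs_neg, ha]
  have cb : |-b| = b := by rw [abs_neg, hb]
  have c0 : |(0 : ℝ)| ≤ b := by rw [abs_zero]; exact h1.le
  have g1 : G.val (seg κ (l, (⟨a, 0⟩ : ℂ)) (l, (⟨a, -b⟩ : ℂ))) =
      (G.val (seg κ (l, (⟨a, -b⟩ : ℂ)) (l, (⟨a, 0⟩ : ℂ))))⁻¹ :=
    K_symm hκ G ⟨1, 0⟩ (m ha.le cb.le (by linarith)) (m ha.le c0 (by linarith))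
  have g2 : G.val (seg κ (l, (⟨a, -b⟩ : ℂ)) (l, (⟨-a, -b⟩ : ℂ))) =
      (G.val (seg κ (l, (⟨-a, -b⟩ : ℂ)) (l, (⟨a, -b⟩ : ℂ))))⁻¹ :=
    K_symm hκ G ⟨0, -1⟩ (m ca.le cb.le (by linarith)) (m ha.le cb.le (by linarith))
  have g3 : G.val (seg κ (l, (⟨-a, -b⟩ : ℂ)) (l, (⟨-a, b⟩ : ℂ))) =
      (G.val (seg κ (l, (⟨-a, b⟩ : ℂ)) (l, (⟨-a, -b⟩ : ℂ))))⁻¹ :=
    K_symm hκ G ⟨-1, 0⟩ (m ca.le hb.le (by linarith)) (m ca.le cb.le (by linarith))
  have g4 : G.val (seg κ (l, (⟨-a, b⟩ : ℂ)) (l, (⟨a, b⟩ : ℂ))) =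
      (G.val (seg κ (l, (⟨a, b⟩ : ℂ)) (l, (⟨-a, b⟩ : ℂ))))⁻¹ :=
    K_symm hκ G ⟨0, 1⟩ (m ha.le hb.le (by linarith)) (m ca.le hb.le (by linarith))
  have g5 : G.val (seg κ (l, (⟨a, b⟩ : ℂ)) (l, (⟨a, 0⟩ : ℂ))) =
      (G.val (seg κ (l, (⟨a, 0⟩ : ℂ)) (l, (⟨a, b⟩ : ℂ))))⁻¹ :=
    K_symm hκ G ⟨1, 0⟩ (m ha.le c0 (by linarith)) (m ha.le hb.le (by linarith))
  rw [← idb_rect hκ G l h0 h1 h, g1, g2, g3, g4, g5]
  simp only [mul_inv_rev, mul_assoc]

theorem IdBp {κ : ℝ × ℂ → N} (hκ : Thick κ) {B W : E → N} (S : SP (core κ) B W) (G : GHom (core κ)ᶜ Γ) {P P₂ D H H' : ℝ}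
    (L : Lnk κ B P P₂ D H H' 1) (p : ℝ) :
    bet G κ B p P D H = G.val (mer κ p (1 / 2)) * (lba G κ B p P P₂ D H 1 * G.val (mer κ p (1 / 2)) *
      (lba G κ B p P P₂ D H 1)⁻¹) := by
  have hH := L.Hpos
  have hH1 := L.Hlt
  have hH' := L.Hpos'
  have hH1' := L.Hlt'
  have h0 : 0 < H / 8 := by linarith
  have h1 : 0 < H' / 768 := by linarith
  -- foot
  have keyf : ∀ (x y z x' y' z' : ℝ) {b b' : ℂ}, P3 x y z ∈ TD → P3 x' y' z' ∈ TD → z < 1 / 4 → z' < 1 / 4 →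
      PathOn (core κ)ᶜ (seg B (P3 x y z) (P3 x' y' z')) → (⟨-(H * z), -(H' * y)⟩ : ℂ) = b →
      (⟨-(H * z'), -(H' * y')⟩ : ℂ) = b' →
      G.val (seg B (P3 x y z) (P3 x' y' z')) = G.val (seg κ (P + D * x, b) (P + D * x', b')) := by
    intro x y z x' y' z' b b' ha hb hz hz' hp e e'
    rw [← B_foot L G ha hb hz hz' hp, ← e, ← e']
    congr 2
  -- tip
  have keyt : ∀ (x y z x' y' z' : ℝ) {b b' : ℂ}, P3 x y z ∈ TD → P3 x' y' z' ∈ TD → 3 / 4 < z → 3 / 4 < z' →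
      PathOn (core κ)ᶜ (seg B (P3 x y z) (P3 x' y' z')) → (⟨-(H * (1 - z)), H' * y⟩ : ℂ) = b →
      (⟨-(H * (1 - z')), H' * y'⟩ : ℂ) = b' →
      G.val (seg B (P3 x y z) (P3 x' y' z')) = G.val (seg κ (P₂ + D * x, b) (P₂ + D * x', b')) := by
    intro x y z x' y' z' b b' ha hb hz hz' hp e e'
    rw [← B_tip L G ha hb hz hz' hp, ← e, ← e']
    simp only [P3]
    congr 2
    · refine Prod.ext ?_ ?_
      · simp
      · apply Complex.ext <;> simp
    · refine Prod.ext ?_ ?_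
      · simp
      · apply Complex.ext <;> simp
  have c1 : (⟨-(H * (-(1 / 8))), -(H' * 0)⟩ : ℂ) = ⟨H / 8, 0⟩ := by
    apply Complex.ext
    · show -(H * (-(1 / 8))) = H / 8
      ring
    · show -(H' * 0) = 0
      ring
  have c2 : (⟨-(H * (-(1 / 8))), -(H' * (-(1 / 768)))⟩ : ℂ) = ⟨H / 8, H' / 768⟩ := by
    apply Complex.ext
    · show -(H * (-(1 / 8))) = H / 8
      ring
    · show -(H' * (-(1 / 768))) = H' / 768
      ring
  have c3 : (⟨-(H * (1 / 8)), -(H' * (-(1 / 768)))⟩ : ℂ) = ⟨-(H / 8), H' / 768⟩ := by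
    apply Complex.ext
    · show -(H * (1 / 8)) = -(H / 8)
      ring
    · show -(H' * (-(1 / 768))) = H' / 768
      ring
  have c4 : (⟨-(H * (1 / 8)), -(H' * (1 / 768))⟩ : ℂ) = ⟨-(H / 8), -(H' / 768)⟩ := by
    apply Complex.ext
    · show -(H * (1 / 8)) = -(H / 8)
      ring
    · show -(H' * (1 / 768)) = -(H' / 768)
      ring
  have c5 : (⟨-(H * (-(1 / 8))), -(H' * (1 / 768))⟩ : ℂ) = ⟨H / 8, -(H' / 768)⟩ := by
    apply Complex.ext
    · show -(H * (-(1 / 8))) = H / 8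
      ring
    · show -(H' * (1 / 768)) = -(H' / 768)
      ring
  have k1 : (⟨-(H * (1 - 9 / 8)), H' * 0⟩ : ℂ) = ⟨H / 8, 0⟩ := by
    apply Complex.ext
    · show -(H * (1 - 9 / 8)) = H / 8
      ring
    · show H' * 0 = 0
      ring
  have k2 : (⟨-(H * (1 - 9 / 8)), H' * (-(1 / 768))⟩ : ℂ) = ⟨H / 8, -(H' / 768)⟩ := by
    apply Complex.ext
    · show -(H * (1 - 9 / 8)) = H / 8
      ring
    · show H' * (-(1 / 768)) = -(H' / 768)
      ring
  have k3 : (⟨-(H * (1 - 7 / 8)), H' * (-(1 / 768))⟩ : ℂ) = ⟨-(H / 8), -(H' / 768)⟩ := by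
    apply Complex.ext
    · show -(H * (1 - 7 / 8)) = -(H / 8)
      ring
    · show H' * (-(1 / 768)) = -(H' / 768)
      ring
  have k4 : (⟨-(H * (1 - 7 / 8)), H' * (1 / 768)⟩ : ℂ) = ⟨-(H / 8), H' / 768⟩ := by
    apply Complex.ext
    · show -(H * (1 - 7 / 8)) = -(H / 8)
      ring
    · show H' * (1 / 768) = H' / 768
      ring
  have k5 : (⟨-(H * (1 - 9 / 8)), H' * (1 / 768)⟩ : ℂ) = ⟨H / 8, H' / 768⟩ := by
    apply Complex.ext
    · show -(H * (1 - 9 / 8)) = H / 8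
      ring
    · show H' * (1 / 768) = H' / 768
      ring
  have f1 := keyf (-(1 / 256)) 0 (-(1 / 8)) (-(1 / 256)) (-(1 / 768)) (-(1 / 8))
    (P3_mem (by norm_num) (by norm_num) (by norm_num)) (P3_mem (by norm_num) (by norm_num) (by norm_num))
    (by norm_num) (by norm_num)
    (by apply B_path S 3 3 <;> apply idb_B <;> first | (norm_num; done) | (simp [gA, gB, P3]; done) | (simp [gA, gB, P3]; norm_num; done))
    c1 c2
  have f2 := keyf (-(1 / 256)) (-(1 / 768)) (-(1 / 8)) (-(1 / 256)) (-(1 / 768)) (1 / 8)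
    (P3_mem (by norm_num) (by norm_num) (by norm_num)) (P3_mem (by norm_num) (by norm_num) (by norm_num))
    (by norm_num) (by norm_num)
    (by apply B_path S 1 1 <;> apply idb_B <;> first | (norm_num; done) | (simp [gA, gB, P3]; done) | (simp [gA, gB, P3]; norm_num; done))
    c2 c3
  have f3 := keyf (-(1 / 256)) (-(1 / 768)) (1 / 8) (-(1 / 256)) (1 / 768) (1 / 8)
    (P3_mem (by norm_num) (by norm_num) (by norm_num)) (P3_mem (by norm_num) (by norm_num) (by norm_num))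
    (by norm_num) (by norm_num)
    (by apply B_path S 2 3 <;> apply idb_B <;> first | (norm_num; done) | (simp [gA, gB, P3]; done) | (simp [gA, gB, P3]; norm_num; done))
    c3 c4
  have f4 := keyf (-(1 / 256)) (1 / 768) (1 / 8) (-(1 / 256)) (1 / 768) (-(1 / 8))
    (P3_mem (by norm_num) (by norm_num) (by norm_num)) (P3_mem (by norm_num) (by norm_num) (by norm_num))
    (by norm_num) (by norm_num)
    (by apply B_path S 0 0 <;> apply idb_B <;> first | (norm_num; done) | (simp [gA, gB, P3]; done) | (simp [gA, gB, P3]; norm_num; done))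
    c4 c5
  have f5 := keyf (-(1 / 256)) (1 / 768) (-(1 / 8)) (-(1 / 256)) 0 (-(1 / 8))
    (P3_mem (by norm_num) (by norm_num) (by norm_num)) (P3_mem (by norm_num) (by norm_num) (by norm_num))
    (by norm_num) (by norm_num)
    (by apply B_path S 3 3 <;> apply idb_B <;> first | (norm_num; done) | (simp [gA, gB, P3]; done) | (simp [gA, gB, P3]; norm_num; done))
    c5 c1
  have t1 := keyt (-(1 / 256)) 0 (9 / 8) (-(1 / 256)) (-(1 / 768)) (9 / 8)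
    (P3_mem (by norm_num) (by norm_num) (by norm_num)) (P3_mem (by norm_num) (by norm_num) (by norm_num))
    (by norm_num) (by norm_num)
    (by apply B_path S 2 2 <;> apply idb_B <;> first | (norm_num; done) | (simp [gA, gB, P3]; done) | (simp [gA, gB, P3]; norm_num; done))
    k1 k2
  have t2 := keyt (-(1 / 256)) (-(1 / 768)) (9 / 8) (-(1 / 256)) (-(1 / 768)) (7 / 8)
    (P3_mem (by norm_num) (by norm_num) (by norm_num)) (P3_mem (by norm_num) (by norm_num) (by norm_num))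
    (by norm_num) (by norm_num)
    (by apply B_path S 1 1 <;> apply idb_B <;> first | (norm_num; done) | (simp [gA, gB, P3]; done) | (simp [gA, gB, P3]; norm_num; done))
    k2 k3
  have t3 := keyt (-(1 / 256)) (-(1 / 768)) (7 / 8) (-(1 / 256)) (1 / 768) (7 / 8)
    (P3_mem (by norm_num) (by norm_num) (by norm_num)) (P3_mem (by norm_num) (by norm_num) (by norm_num))
    (by norm_num) (by norm_num)
    (by apply B_path S 2 3 <;> apply idb_B <;> first | (norm_num; done) | (simp [gA, gB, P3]; done) | (simp [gA, gB, P3]; norm_num; done))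
    k3 k4
  have t4 := keyt (-(1 / 256)) (1 / 768) (7 / 8) (-(1 / 256)) (1 / 768) (9 / 8)
    (P3_mem (by norm_num) (by norm_num) (by norm_num)) (P3_mem (by norm_num) (by norm_num) (by norm_num))
    (by norm_num) (by norm_num)
    (by apply B_path S 0 0 <;> apply idb_B <;> first | (norm_num; done) | (simp [gA, gB, P3]; done) | (simp [gA, gB, P3]; norm_num; done))
    k4 k5
  have t5 := keyt (-(1 / 256)) (1 / 768) (9 / 8) (-(1 / 256)) 0 (9 / 8)
    (P3_mem (by norm_num) (by norm_num) (by norm_num)) (P3_mem (by norm_num) (by norm_num) (by norm_num))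
    (by norm_num) (by norm_num)
    (by apply B_path S 2 2 <;> apply idb_B <;> first | (norm_num; done) | (simp [gA, gB, P3]; done) | (simp [gA, gB, P3]; norm_num; done))
    k5 k1
  have r1 := idb_rect hκ G (P + D * (-(1 / 256))) h0 h1 (by linarith)
  have r2 := idbp_rect hκ G (P₂ + D * (-(1 / 256))) h0 h1 (by linarith)
  have m1 := mer_move hκ G p (P + D * (-(1 / 256))) (r := 1 / 2) (r' := H / 8) (by norm_num) (by norm_num) h0
    (by linarith)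
  have m2 := mer_move hκ G p (P₂ + D * (-(1 / 256))) (r := 1 / 2) (r' := H / 8) (by norm_num) (by norm_num) h0
    (by linarith)
  have eq1 : ((1 / 2 : ℝ) : ℂ) = 1 / 2 := by push_cast; rfl
  have eP : P + D * (-(1 / 256)) = P - D / 256 := by ring
  have eP2 : P₂ + D * (-(1 / 256)) = P₂ - 1 * D / 256 := by ring
  rw [eq1] at m1 m2
  have np : ((p, (1 / 2 : ℂ)) : ℝ × ℂ) ∈ kH 1 := by
    refine ⟨?_, ?_⟩
    · show ‖(1 / 2 : ℂ)‖ < 1
      norm_num
    · show 0 < ((starRingEnd ℂ) 1 * (1 / 2 : ℂ)).re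
      norm_num
  have nq : ((P₂ - 1 * D / 256, ((H / 8 : ℝ) : ℂ)) : ℝ × ℂ) ∈ kH 1 := by
    refine ⟨?_, ?_⟩
    · show ‖((H / 8 : ℝ) : ℂ)‖ < 1
      rw [Complex.norm_real, Real.norm_of_nonneg h0.le]
      linarith
    · show 0 < ((starRingEnd ℂ) 1 * ((H / 8 : ℝ) : ℂ)).re
      rw [map_one, one_mul, Complex.ofReal_re]
      exact h0
  have i1 : G.val (seg κ (P₂ - 1 * D / 256, ((H / 8 : ℝ) : ℂ)) (p, 1 / 2)) =
      (G.val (seg κ (p, 1 / 2) (P₂ - 1 * D / 256, ((H / 8 : ℝ) : ℂ))))⁻¹ := K_symm hκ G 1 np nq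
  rw [bet, lba, idb_BL S G, f1, f2, f3, f4, f5, t1, t2, t3, t4, t5, r1, r2, m1, m2, eP, eP2, i1, t0]
  group

end Pool.Agent.NHR
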