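import Mathlib
import Pool.Agent.NHR.Defs
import Pool.Agent.NHR.Geo
import Pool.Agent.NHR.Sgm
import Pool.Agent.NHR.MdY

/-!
# NHR/MdW: convex sets in the complement of `KW K W` (difficulty 2)

`Y = (KW K W)ᶜ`.  In the chart `W` the set is `TF2`: convex sets beside the fingers (`hA'`) and beside the vertical pair (`hB`).
In `Slab` (chart `B`) the set `KW K W` is contained in `x ∈ {0, 1}` (use `sep`: a finger point `W q`, `q.2 = 9/8 bmp (re q)`, with `jb q ∈ Slab`,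
`|q.2 - 1| ≤ 1/10`, has `|re q| ≤ 73/2048 < 1/16`, so `q.2 = 9/8`).
-/

open scoped Manifold ContDiff Topology
open Set Filter
open Pool.Agent.CSG (stp)
open Pool.Agent.RSG (E3 ex Thick)
open Pool.Agent.KNT (Dom Str Str2 bmp)
open Pool.Agent.NHP

namespace Pool.Agent.NHR

universe u v

/-- convex sets beside the fingers -/
def hA' : Fin 5 → Set E := ![{q | 0 < q.1.im}, {q | q.1.im < -(1 / 32)}, {q | 9 / 8 < q.2}, {q | q.2 < 0},
  {q | |q.1.re| < 1 / 16 ∧ q.2 < 9 / 8}]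

theorem mdw_im : IsLinearMap ℝ (fun q : E => q.1.im) := ⟨fun x y => by simp, fun c x => by simp⟩

theorem mdw_re : IsLinearMap ℝ (fun q : E => q.1.re) := ⟨fun x y => by simp, fun c x => by simp⟩

theorem mdw_sn : IsLinearMap ℝ (fun q : E => q.2) := ⟨fun x y => by simp, fun c x => by simp⟩

theorem mdw_hA' (i : Fin 5) : Convex ℝ (hA' i) := by
  fin_cases i
  · exact convex_halfSpace_gt mdw_im 0
  · exact convex_halfSpace_lt mdw_im (-(1 / 32))
  · exact convex_halfSpace_gt mdw_sn (9 / 8)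
  · exact convex_halfSpace_lt mdw_sn 0
  · change Convex ℝ {q : E | |q.1.re| < 1 / 16 ∧ q.2 < 9 / 8}
    have h : {q : E | |q.1.re| < 1 / 16 ∧ q.2 < 9 / 8} =
        ({q : E | -(1 / 16) < q.1.re} ∩ {q : E | q.1.re < 1 / 16}) ∩ {q : E | q.2 < 9 / 8} := by
      ext q
      simp only [mem_setOf_eq, mem_inter_iff, abs_lt]
    rw [h]
    exact ((convex_halfSpace_gt mdw_re (-(1 / 16))).inter (convex_halfSpace_lt mdw_re (1 / 16))).inter
      (convex_halfSpace_lt mdw_sn (9 / 8))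

theorem mdw_hB (i : Fin 4) : Convex ℝ (hB i) := by
  fin_cases i
  · exact convex_halfSpace_gt mdw_re 0
  · exact convex_halfSpace_lt mdw_re (-(1 / 32))
  · exact convex_halfSpace_gt mdw_sn 1
  · exact convex_halfSpace_lt mdw_sn 1

theorem mdw_hA'_off {i : Fin 5} {q : E} (h : q ∈ hA' i) (h0 : q.2 = 9 / 8 * bmp q.1.re)
    (h1 : q.1.im = 0 ∨ q.1.im = -(1 / 32)) : False := by
  have hb0 := bmp_nonneg q.1.re
  have hb1 := bmp_le q.1.re
  fin_cases i
  · have h' : 0 < q.1.im := h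
    rcases h1 with h1 | h1 <;> linarith
  · have h' : q.1.im < -(1 / 32) := h
    rcases h1 with h1 | h1 <;> linarith
  · have h' : 9 / 8 < q.2 := h
    linarith
  · have h' : q.2 < 0 := h
    linarith
  · have h' : |q.1.re| < 1 / 16 ∧ q.2 < 9 / 8 := h
    have h2 := bmp_one h'.1.le
    rw [h2] at h0
    linarith [h'.2]

theorem mdw_hB_off {i : Fin 4} {q : E} (h : q ∈ hB i) (h0 : q.2 = 1) (h1 : q.1.re = 0 ∨ q.1.re = -(1 / 32)) : False := by
  fin_cases i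
  · have h' : 0 < q.1.re := h
    rcases h1 with h1 | h1 <;> linarith
  · have h' : q.1.re < -(1 / 32) := h
    rcases h1 with h1 | h1 <;> linarith
  · have h' : 1 < q.2 := h
    linarith
  · have h' : q.2 < 1 := h
    linarith

variable {N : Type u} [TopologicalSpace N] [ChartedSpace E3 N] {Γ : Type v} [Group Γ]

theorem hitKW {K : Set N} {B W : E → N} (S : SP K B W) {q : E} (hq : q ∈ TD) : W q ∈ KW K W ↔ q ∈ TF2 := by
  constructor
  · rintro (h | h)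
    · exact absurd (mem_image_of_mem W hq) h.2
    · obtain ⟨r, hr, hrq⟩ := h
      have h2 : r = q := S.chtW.inj hr.1 hq hrq
      rw [← h2]
      exact hr
  · intro h
    exact Or.inr (mem_image_of_mem W h)

theorem slabKW {K : Set N} {B W : E → N} (S : SP K B W) {r : E} (hr : r ∈ Slab) (h : B r ∈ KW K W) :
    r.2 = 0 ∨ r.2 = 1 := by
  rcases h with h | h
  · have h1 : B r ∈ K ∩ B '' TD := ⟨h.1, r, Slab_sub hr, rfl⟩
    rw [S.hitB] at h1
    obtain ⟨r', hr', he⟩ := h1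
    have h2 : r' = r := S.chtB.inj hr'.1 (Slab_sub hr) he
    rw [← h2]
    exact hr'.2.2
  · obtain ⟨q, hq, he⟩ := h
    rcases S.sep q hq.1 r hr he with ⟨h1, h2⟩ | ⟨h1, h2⟩
    · have h3 : r.2 = -(32 * q.1.im) := by rw [← h2]; rfl
      rcases hq.2 with ⟨-, h4⟩ | ⟨h4, -⟩
      · rcases h4 with h4 | h4
        · left; rw [h3, h4]; norm_num
        · right; rw [h3, h4]; norm_num
      · rw [h4] at h1
        norm_num at h1
    · have h3 : r.2 = -(32 * q.1.re) := by rw [← h2]; rfl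
      rcases hq.2 with ⟨h4, -⟩ | ⟨-, h4⟩
      · exfalso
        have h5 : -(9 / 64) ≤ r.2 := hr.2.2.1
        have h6 : r.2 ≤ 73 / 64 := hr.2.2.2
        have h7 : |q.1.re| ≤ 1 / 16 := by
          rw [abs_le]
          constructor <;> linarith
        rw [bmp_one h7] at h4
        rw [h4] at h1
        norm_num at h1
      · rcases h4 with h4 | h4
        · left; rw [h3, h4]; norm_num
        · right; rw [h3, h4]; norm_num

theorem mdw_convex (i : Fin 5) (j : Fin 4) : Convex ℝ (TD ∩ hA' i ∩ hB j) :=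
  (TD_convex.inter (mdw_hA' i)).inter (mdw_hB j)

theorem mdw_cont {K : Set N} {B W : E → N} (S : SP K B W) (i : Fin 5) (j : Fin 4) :
    ContinuousOn W (TD ∩ hA' i ∩ hB j) :=
  (cht_cont S.chtW).mono fun _ hq => hq.1.1

theorem mdw_off {K : Set N} {B W : E → N} (S : SP K B W) (i : Fin 5) (j : Fin 4) :
    ∀ q ∈ TD ∩ hA' i ∩ hB j, W q ∈ (KW K W)ᶜ := by
  intro q hq hK
  have h1 : q ∈ TF2 := (hitKW S hq.1.1).1 hK
  rcases h1.2 with ⟨h3, h4⟩ | ⟨h3, h4⟩
  · exact mdw_hA'_off hq.1.2 h3 h4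
  · exact mdw_hB_off hq.2 h3 h4

theorem W'_path {K : Set N} {B W : E → N} (S : SP K B W) (i : Fin 5) (j : Fin 4) {a b : E}
    (ha : a ∈ TD ∩ hA' i ∩ hB j) (hb : b ∈ TD ∩ hA' i ∩ hB j) : PathOn (KW K W)ᶜ (seg W a b) :=
  seg_path (mdw_convex i j) (mdw_cont S i j) (mdw_off S i j) ha hb

theorem W'_tri {K : Set N} {B W : E → N} (S : SP K B W) (G : GHom (KW K W)ᶜ Γ) (i : Fin 5) (j : Fin 4) {a b c : E}
    (ha : a ∈ TD ∩ hA' i ∩ hB j) (hb : b ∈ TD ∩ hA' i ∩ hB j) (hc : c ∈ TD ∩ hA' i ∩ hB j) :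
    G.val (seg W a b) * G.val (seg W b c) = G.val (seg W a c) :=
  seg_tri G (mdw_convex i j) (mdw_cont S i j) (mdw_off S i j) ha hb hc

theorem W'_symm {K : Set N} {B W : E → N} (S : SP K B W) (G : GHom (KW K W)ᶜ Γ) (i : Fin 5) (j : Fin 4) {a b : E}
    (ha : a ∈ TD ∩ hA' i ∩ hB j) (hb : b ∈ TD ∩ hA' i ∩ hB j) : G.val (seg W b a) = (G.val (seg W a b))⁻¹ :=
  seg_symm G (W'_path S i j ha hb)

theorem W'_in {K : Set N} {B W : E → N} (S : SP K B W) (G : GHom (KW K W)ᶜ Γ) (i : Fin 5) (j : Fin 4) {g : ℝ → E}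
    (hg : ContinuousOn g (Icc 0 1)) (hgC : ∀ t ∈ Icc (0 : ℝ) 1, g t ∈ TD ∩ hA' i ∩ hB j) :
    G.val (fun t => W (g t)) = G.val (seg W (g 0) (g 1)) :=
  seg_in G (mdw_convex i j) (mdw_cont S i j) (mdw_off S i j) hg hgC

theorem mdw_slab : Convex ℝ (Slab ∩ {q : E | q.2 < 0}) := Slab_convex.inter (convex_halfSpace_lt mdw_sn 0)

theorem mdw_B_cont {K : Set N} {B W : E → N} (S : SP K B W) : ContinuousOn B (Slab ∩ {q : E | q.2 < 0}) :=
  (cht_cont S.chtB).mono fun _ hq => Slab_sub hq.1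

theorem mdw_B_off {K : Set N} {B W : E → N} (S : SP K B W) :
    ∀ q ∈ Slab ∩ {q : E | q.2 < 0}, B q ∈ (KW K W)ᶜ := by
  intro q hq hK
  have h0 : q.2 < 0 := hq.2
  rcases slabKW S hq.1 hK with h | h <;> linarith

theorem B'_path {K : Set N} {B W : E → N} (S : SP K B W) {a b : E}
    (ha : a ∈ Slab) (hb : b ∈ Slab) (ha1 : a.2 < 0) (hb1 : b.2 < 0) : PathOn (KW K W)ᶜ (seg B a b) :=
  seg_path mdw_slab (mdw_B_cont S) (mdw_B_off S) ⟨ha, ha1⟩ ⟨hb, hb1⟩

theorem B'_tri {K : Set N} {B W : E → N} (S : SP K B W) (G : GHom (KW K W)ᶜ Γ) {a b c : E}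
    (ha : a ∈ Slab) (hb : b ∈ Slab) (hc : c ∈ Slab) (ha1 : a.2 < 0) (hb1 : b.2 < 0) (hc1 : c.2 < 0) :
    G.val (seg B a b) * G.val (seg B b c) = G.val (seg B a c) :=
  seg_tri G mdw_slab (mdw_B_cont S) (mdw_B_off S) ⟨ha, ha1⟩ ⟨hb, hb1⟩ ⟨hc, hc1⟩

end Pool.Agent.NHR
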