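import Mathlib
import Pool.Agent.NHR.Defs
import Pool.Agent.NHR.MdW

/-!
# NHR/Iw1: the loop of relation (1) is trivial in the complement of `KW` (difficulty 2)

`St = G.val (seg W (3/64, 1/4, 1/2) (3/64, -1/4, 1/2))`.  In `hA' 4 ∩ hB 0` (`|re w| < 1/16`, `x < 9/8`, `re w > 0`): `Lw = St`.  In `hA' 4`: `RL (1/4) = St RL (-1/4) St⁻¹`
(edges in `hB 0, 2, 1, 3`).
-/

open scoped Manifold ContDiff Topology
open Set Filter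
open Pool.Agent.CSG (stp)
open Pool.Agent.RSG (E3 ex Thick)
open Pool.Agent.KNT (Dom Str Str2 bmp)
open Pool.Agent.NHP

namespace Pool.Agent.NHR

universe u v

variable {N : Type u} [TopologicalSpace N] [ChartedSpace E3 N] {Γ : Type v} [Group Γ]

theorem Iw1_sq {K : Set N} {B W : E → N} (S : SP K B W) (G : GHom (KW K W)ᶜ Γ) (i : Fin 5) (j : Fin 4) {a b a' b' : E}
    (ha : a ∈ TD ∩ hA' i ∩ hB j) (hb : b ∈ TD ∩ hA' i ∩ hB j) (ha' : a' ∈ TD ∩ hA' i ∩ hB j) (hb' : b' ∈ TD ∩ hA' i ∩ hB j) :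
    G.val (seg W a b) = G.val (seg W a a') * G.val (seg W a' b') * (G.val (seg W b b'))⁻¹ := by
  rw [W'_tri S G i j ha ha' hb', ← W'_tri S G i j ha hb hb', mul_assoc, mul_inv_cancel, mul_one]

theorem Iw1 {κ : ℝ × ℂ → N} {B W : E → N} (S : SP (core κ) B W) {Y : Set N} (hY : Y = (KW (core κ) W)ᶜ) (G : GHom Y Γ)
    (p P D H ρ : ℝ) :
    ex1 G κ B W p P D H ρ = 1 := by
  subst hY
  have hm : ∀ x y z : ℝ, |x| ≤ 3 / 64 → |y| ≤ 1 / 4 → -(1 / 8) ≤ z → z ≤ 13 / 12 → P3 x y z ∈ TD ∩ hA' 4 := by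
    intro x y z hx hy hz hz'
    have h1 : x ^ 2 ≤ (3 / 64) ^ 2 := sq_le_sq' (by linarith [(abs_le.1 hx).1]) (abs_le.1 hx).2
    have h2 : y ^ 2 ≤ (1 / 4) ^ 2 := sq_le_sq' (by linarith [(abs_le.1 hy).1]) (abs_le.1 hy).2
    norm_num at h1 h2
    exact ⟨P3_mem (by linarith) (by linarith) (by linarith), show |x| < 1 / 16 by linarith, show z < 9 / 8 by linarith⟩
  have a1 : |(3 / 64 : ℝ)| ≤ 3 / 64 := by rw [abs_of_pos (by norm_num)]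
  have a2 : |(-(3 / 64) : ℝ)| ≤ 3 / 64 := by rw [abs_neg, abs_of_pos (by norm_num)]
  have b1 : |(1 / 4 : ℝ)| ≤ 1 / 4 := by rw [abs_of_pos (by norm_num)]
  have b2 : |(-(1 / 4) : ℝ)| ≤ 1 / 4 := by rw [abs_neg, abs_of_pos (by norm_num)]
  have m0 : ∀ y z : ℝ, |y| ≤ 1 / 4 → -(1 / 8) ≤ z → z ≤ 13 / 12 → P3 (3 / 64) y z ∈ TD ∩ hA' 4 ∩ hB 0 :=
    fun y z hy hz hz' => ⟨hm _ _ _ a1 hy hz hz', show (0 : ℝ) < 3 / 64 by norm_num⟩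
  have m1 : ∀ y z : ℝ, |y| ≤ 1 / 4 → -(1 / 8) ≤ z → z ≤ 13 / 12 → P3 (-(3 / 64)) y z ∈ TD ∩ hA' 4 ∩ hB 1 :=
    fun y z hy hz hz' => ⟨hm _ _ _ a2 hy hz hz', show (-(3 / 64) : ℝ) < -(1 / 32) by norm_num⟩
  have m2 : ∀ x y : ℝ, |x| ≤ 3 / 64 → |y| ≤ 1 / 4 → P3 x y (13 / 12) ∈ TD ∩ hA' 4 ∩ hB 2 :=
    fun x y hx hy => ⟨hm _ _ _ hx hy (by norm_num) (by norm_num), show (1 : ℝ) < 13 / 12 by norm_num⟩
  have m3 : ∀ x y : ℝ, |x| ≤ 3 / 64 → |y| ≤ 1 / 4 → P3 x y (1 / 2) ∈ TD ∩ hA' 4 ∩ hB 3 :=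
    fun x y hx hy => ⟨hm _ _ _ hx hy (by norm_num) (by norm_num), show (1 / 2 : ℝ) < 1 by norm_num⟩
  have hL : Lw G W = G.val (seg W (P3 (3 / 64) (1 / 4) (1 / 2)) (P3 (3 / 64) (-(1 / 4)) (1 / 2))) := by
    unfold Lw
    rw [W'_tri S G 4 0 (m0 (1 / 4) (1 / 2) b1 (by norm_num) (by norm_num)) (m0 (1 / 4) (-(1 / 8)) b1 (by norm_num) (by norm_num))
        (m0 (-(1 / 4)) (-(1 / 8)) b2 (by norm_num) (by norm_num)),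
      W'_tri S G 4 0 (m0 (1 / 4) (1 / 2) b1 (by norm_num) (by norm_num)) (m0 (-(1 / 4)) (-(1 / 8)) b2 (by norm_num) (by norm_num))
        (m0 (-(1 / 4)) (1 / 2) b2 (by norm_num) (by norm_num))]
  have hR : RL G W (1 / 4) = G.val (seg W (P3 (3 / 64) (1 / 4) (1 / 2)) (P3 (3 / 64) (-(1 / 4)) (1 / 2))) *
      RL G W (-(1 / 4)) * (G.val (seg W (P3 (3 / 64) (1 / 4) (1 / 2)) (P3 (3 / 64) (-(1 / 4)) (1 / 2))))⁻¹ := by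
    unfold RL
    rw [Iw1_sq S G 4 0 (m0 (1 / 4) (1 / 2) b1 (by norm_num) (by norm_num)) (m0 (1 / 4) (13 / 12) b1 (by norm_num) (by norm_num))
        (m0 (-(1 / 4)) (1 / 2) b2 (by norm_num) (by norm_num)) (m0 (-(1 / 4)) (13 / 12) b2 (by norm_num) (by norm_num)),
      Iw1_sq S G 4 2 (m2 (3 / 64) (1 / 4) a1 b1) (m2 (-(3 / 64)) (1 / 4) a2 b1)
        (m2 (3 / 64) (-(1 / 4)) a1 b2) (m2 (-(3 / 64)) (-(1 / 4)) a2 b2),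
      Iw1_sq S G 4 1 (m1 (1 / 4) (13 / 12) b1 (by norm_num) (by norm_num)) (m1 (1 / 4) (1 / 2) b1 (by norm_num) (by norm_num))
        (m1 (-(1 / 4)) (13 / 12) b2 (by norm_num) (by norm_num)) (m1 (-(1 / 4)) (1 / 2) b2 (by norm_num) (by norm_num)),
      Iw1_sq S G 4 3 (m3 (-(3 / 64)) (1 / 4) a2 b1) (m3 (3 / 64) (1 / 4) a1 b1)
        (m3 (-(3 / 64)) (-(1 / 4)) a2 b2) (m3 (3 / 64) (-(1 / 4)) a1 b2)]
    group
  unfold ex1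
  rw [hL, hR]
  group

end Pool.Agent.NHR
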