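import Mathlib
import Pool.Agent.NHR.Defs
import Pool.Agent.NHR.Geo

/-!
# NHR/Off: points off the support of the move (difficulty 2)

`W q ∈ B '' QCB`: `W q = B r`, `r ∈ QCB ⊆ Slab`, use `sep`; `W q ∈ W '' QCW`: injectivity.  `B r ∈ W '' QCW`: `sep`.

Corrected: `B_off` needs `h5` (the points `B r`, `r = jb q`, `q ∈ QCW`, have `r.1.re ∈ (79/256, 81/256)`).
-/

open scoped Manifold ContDiff Topology
open Set Filter
open Pool.Agent.CSG (stp)
open Pool.Agent.RSG (E3 ex Thick)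
open Pool.Agent.KNT (Dom Str Str2 bmp)
open Pool.Agent.NHP

namespace Pool.Agent.NHR

universe u v

variable {N : Type u} [TopologicalSpace N] [ChartedSpace E3 N]

theorem W_off {K : Set N} {B W : E → N} (S : SP K B W) {q : E} (hq : q ∈ TD) (h1 : q ∉ QCW)
    (h2 : ¬ (|q.2| ≤ 1 / 16 ∧ -(13 / 384) ≤ q.1.im ∧ q.1.im ≤ 1 / 384))
    (h3 : ¬ (|q.2 - 1| ≤ 1 / 16 ∧ -(13 / 384) ≤ q.1.re ∧ q.1.re ≤ 1 / 384)) : W q ∉ QC B W := by
  rintro (⟨r, hr, hrq⟩ | ⟨r, hr, hrq⟩)
  · rcases S.sep q hq r (QCB_sub hr) hrq.symm with ⟨_, h⟩ | ⟨_, h⟩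
    · obtain ⟨_, b1, b2, b3⟩ := hr
      subst h
      simp only [ja] at b1 b2 b3
      apply h2
      rw [abs_le] at b1 ⊢
      exact ⟨⟨by linarith [b1.1], by linarith [b1.2]⟩, by linarith, by linarith⟩
    · obtain ⟨_, b1, b2, b3⟩ := hr
      subst h
      simp only [jb] at b1 b2 b3
      apply h3
      rw [abs_le] at b1 ⊢
      exact ⟨⟨by linarith [b1.2], by linarith [b1.1]⟩, by linarith, by linarith⟩
  · have := S.chtW.inj (QCW_sub hr) hq hrq
    subst this
    exact h1 hr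

theorem B_off {K : Set N} {B W : E → N} (S : SP K B W) {r : E} (hr : r ∈ Slab) (h : r.2 < -(1 / 12))
    (h5 : r.1.re ≤ 79 / 256 ∨ 81 / 256 ≤ r.1.re) : B r ∉ QC B W := by
  rintro (⟨s, hs, hsr⟩ | ⟨q, hq, hqr⟩)
  · have := S.chtB.inj (Slab_sub (QCB_sub hs)) (Slab_sub hr) hsr
    subst this
    have := hs.2.2.1
    linarith
  · rcases S.sep q (QCW_sub hq) r hr hqr with ⟨_, h'⟩ | ⟨_, h'⟩
    · subst h'
      simp only [ja] at h
      have := hq.2.2.1
      linarith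
    · subst h'
      simp only [jb] at h5
      have b1 := hq.2.1
      have b2 := hq.2.2.1
      rcases h5 with h5 | h5 <;> linarith

theorem B_off' {K : Set N} {B W : E → N} (S : SP K B W) {r : E} (hr : r ∈ Slab) (h : 1 / 2 < |r.1.re|) : B r ∉ QC B W := by
  rintro (⟨s, hs, hsr⟩ | ⟨q, hq, hqr⟩)
  · have := S.chtB.inj (Slab_sub (QCB_sub hs)) (Slab_sub hr) hsr
    subst this
    have := hs.1
    linarith
  · rcases S.sep q (QCW_sub hq) r hr hqr with ⟨_, h'⟩ | ⟨_, h'⟩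
    · subst h'
      simp only [ja] at h
      have b1 := hq.1
      rw [abs_le] at b1
      rcases lt_abs.1 h with h | h <;> linarith [b1.1, b1.2]
    · subst h'
      simp only [jb] at h
      have b1 := hq.2.1
      have b2 := hq.2.2.1
      rcases lt_abs.1 h with h | h <;> linarith

end Pool.Agent.NHR
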