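import Mathlib
import Pool.Agent.NHR.Defs
import Pool.Agent.NHR.Off
import Pool.Agent.NHR.Sgm

/-!
# NHR/Pa1: the loop of relation (1) avoids the support of the move (difficulty 3)

As `Pa3`, with `rv` for the inverses.  `W (z)` for `z` on the segment from `(-1/4, 1/256, 1/2)` to `(3/64, 1/4, 1/2)`: `im z ≥ 1/256`; `RL (c)`, `c = ±1/4`, `|re w| = 3/64 > 13/384`
on the vertical edges, `x = 13/12`, `x = 1/2` on the others.
-/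

open scoped Manifold ContDiff Topology
open Set Filter
open Pool.Agent.CSG (stp)
open Pool.Agent.RSG (E3 ex Thick)
open Pool.Agent.KNT (Dom Str Str2 bmp)
open Pool.Agent.NHP

namespace Pool.Agent.NHR

universe u v

variable {N : Type u} [TopologicalSpace N] [ChartedSpace E3 N]

/-- `w` is the value of a path of `Z` from `a` to `b` -/
def Pa1_R {N : Type u} [TopologicalSpace N] (Z : Set N) (a b : N)
    (w : ∀ (Y : Set N) (Γ : Type v) (_ : Group Γ), GHom Y Γ → Γ) : Prop :=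
  ∃ f : ℝ → N, PathOn Z f ∧ f 0 = a ∧ f 1 = b ∧
    ∀ (Y : Set N) (Γ : Type v) (_ : Group Γ) (G : GHom Y Γ), Z ⊆ Y → G.val f = w Y Γ _ G

omit [ChartedSpace E3 N] in
theorem Pa1_cat {Z : Set N} {a b b' c : N} {w w' : ∀ (Y : Set N) (Γ : Type v) (_ : Group Γ), GHom Y Γ → Γ}
    (h : Pa1_R.{u, v} Z a b w) (h' : Pa1_R.{u, v} Z b' c w') (e : b = b') :
    Pa1_R.{u, v} Z a c (fun Y Γ _ G => w Y Γ _ G * w' Y Γ _ G) := by
  obtain ⟨f, hf, hf0, hf1, hfv⟩ := h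
  obtain ⟨g, hg, hg0, hg1, hgv⟩ := h'
  have e1 : f 1 = g 0 := by rw [hf1, hg0, e]
  refine ⟨cat f g, hf.cat hg e1, by rw [cat_zero, hf0], by rw [cat_one, hg1], ?_⟩
  intro Y Γ _ G hZ
  rw [G.ct f g (hf.mono hZ) (hg.mono hZ) e1, hfv Y Γ _ G hZ, hgv Y Γ _ G hZ]

omit [ChartedSpace E3 N] in
theorem Pa1_rv {Z : Set N} {a b : N} {w : ∀ (Y : Set N) (Γ : Type v) (_ : Group Γ), GHom Y Γ → Γ}
    (h : Pa1_R.{u, v} Z a b w) : Pa1_R.{u, v} Z b a (fun Y Γ _ G => (w Y Γ _ G)⁻¹) := by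
  obtain ⟨f, hf, hf0, hf1, hfv⟩ := h
  refine ⟨rv f, hf.rv, by rw [rv_zero, hf1], by rw [rv_one, hf0], ?_⟩
  intro Y Γ _ G hZ
  rw [G.val_rv (hf.mono hZ), hfv Y Γ _ G hZ]

omit [ChartedSpace E3 N] in
theorem Pa1_seg {Z : Set N} {M : Type*} [NormedAddCommGroup M] [NormedSpace ℝ M] {β : M → N} {a b : M}
    (h : PathOn Z (seg β a b)) : Pa1_R.{u, v} Z (β a) (β b) (fun _ _ _ G => G.val (seg β a b)) :=
  ⟨seg β a b, h, seg_zero _ _ _, seg_one _ _ _, fun _ _ _ _ _ => rfl⟩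

theorem Pa1_P3 (x y z x' y' z' t : ℝ) : (1 - t) • P3 x y z + t • P3 x' y' z' =
    P3 ((1 - t) * x + t * x') ((1 - t) * y + t * y') ((1 - t) * z + t * z') := by
  unfold P3
  refine Prod.ext ?_ ?_
  · apply Complex.ext <;> simp
  · simp

theorem Pa1_TD {x y z : ℝ} (h1 : -(3 / 4) ≤ x) (h2 : x ≤ 3 / 4) (h3 : -(1 / 2) ≤ y) (h4 : y ≤ 1 / 2)
    (h5 : -(1 / 4) < z) (h6 : z < 5 / 4) : P3 x y z ∈ TD := by
  apply P3_mem _ h5 h6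
  nlinarith

omit [ChartedSpace E3 N] in
/-- segments in a chart -/
theorem Pa1_seg3 {Z : Set N} {β : E → N} (hβ : ContinuousOn β TD) {x y z x' y' z' : ℝ}
    (h : ∀ t : ℝ, 0 ≤ t → t ≤ 1 →
      P3 ((1 - t) * x + t * x') ((1 - t) * y + t * y') ((1 - t) * z + t * z') ∈ TD ∧
      β (P3 ((1 - t) * x + t * x') ((1 - t) * y + t * y') ((1 - t) * z + t * z')) ∈ Z) :
    Pa1_R.{u, v} Z (β (P3 x y z)) (β (P3 x' y' z')) (fun _ _ _ G => G.val (seg β (P3 x y z) (P3 x' y' z'))) := by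
  apply Pa1_seg
  refine ⟨?_, ?_⟩
  · unfold seg
    apply hβ.comp (by fun_prop)
    intro t ht
    show (1 - t) • P3 x y z + t • P3 x' y' z' ∈ TD
    rw [Pa1_P3]
    exact (h t ht.1 ht.2).1
  · intro t ht
    unfold seg
    rw [Pa1_P3]
    exact (h t ht.1 ht.2).2

/-- points of the chart `W` -/
theorem Pa1_W {K : Set N} {B W : E → N} (S : SP K B W) {x y z : ℝ} (h : P3 x y z ∈ TD)
    (h1 : ¬ (|x| ≤ 1 / 8 ∧ -(13 / 384) ≤ y ∧ y ≤ 1 / 384 ∧ -(1 / 16) ≤ z ∧ z ≤ 19 / 16))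
    (h2 : ¬ (|z| ≤ 1 / 16 ∧ -(13 / 384) ≤ y ∧ y ≤ 1 / 384))
    (h3 : ¬ (|z - 1| ≤ 1 / 16 ∧ -(13 / 384) ≤ x ∧ x ≤ 1 / 384)) : W (P3 x y z) ∈ Kᶜ ∩ (QC B W)ᶜ := by
  refine ⟨?_, W_off S h h1 h2 h3⟩
  intro hK
  have h4 : W (P3 x y z) ∈ W '' TS2 := by
    rw [← S.hitW]
    exact ⟨hK, ⟨_, h, rfl⟩⟩
  obtain ⟨q, hq, he⟩ := h4
  have h5 : q = P3 x y z := S.chtW.inj hq.1 h he
  rw [h5] at hq
  rcases hq.2 with ⟨hz, hy⟩ | ⟨hz, hx⟩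
  · have hz : z = 0 := hz
    have hy : y = 0 ∨ y = -(1 / 32) := hy
    apply h2
    rw [hz, abs_zero]
    rcases hy with rfl | rfl <;> norm_num
  · have hz : z = 1 := hz
    have hx : x = 0 ∨ x = -(1 / 32) := hx
    apply h3
    rw [hz, sub_self, abs_zero]
    rcases hx with rfl | rfl <;> norm_num

/-- points of the chart `B` -/
theorem Pa1_Bk {K : Set N} {B W : E → N} (S : SP K B W) {x z : ℝ} (h1 : |x| ≤ 3 / 4)
    (h2 : -(9 / 64) ≤ z) (h3 : z < 0) : P3 x 0 z ∈ Slab ∧ P3 x 0 z ∈ TD ∧ B (P3 x 0 z) ∉ K := by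
  have hS : P3 x 0 z ∈ Slab := by
    refine ⟨h1, ?_, h2, ?_⟩
    · show |(0 : ℝ)| ≤ 1 / 640
      norm_num
    · show z ≤ 73 / 64
      linarith
  have hT := Slab_sub hS
  refine ⟨hS, hT, ?_⟩
  intro hK
  have h4 : B (P3 x 0 z) ∈ B '' TSB := by
    rw [← S.hitB]
    exact ⟨hK, ⟨_, hT, rfl⟩⟩
  obtain ⟨q, hq, he⟩ := h4
  have h5 : q = P3 x 0 z := S.chtB.inj hq.1 hT he
  rw [h5] at hq
  rcases hq.2.2 with hz | hz
  · have hz : z = 0 := hz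
    linarith
  · have hz : z = 1 := hz
    linarith

/-- horizontal segments of `B` -/
theorem Pa1_Bh {K : Set N} {B W : E → N} (S : SP K B W) {x x' : ℝ} (h1 : |x| ≤ 3 / 4) (h2 : |x'| ≤ 3 / 4)
    (h5 : (x ≤ 79 / 256 ∧ x' ≤ 79 / 256) ∨ (81 / 256 ≤ x ∧ 81 / 256 ≤ x')) :
    Pa1_R.{u, v} (Kᶜ ∩ (QC B W)ᶜ) (B (P3 x 0 (-(1 / 8)))) (B (P3 x' 0 (-(1 / 8))))
      (fun _ _ _ G => G.val (seg B (P3 x 0 (-(1 / 8))) (P3 x' 0 (-(1 / 8))))) := by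
  apply Pa1_seg3 (cht_cont S.chtB)
  intro t h0 h1t
  rw [abs_le] at h1 h2
  have e1 : (1 - t) * (0 : ℝ) + t * 0 = 0 := by ring
  have e2 : (1 - t) * (-(1 / 8) : ℝ) + t * (-(1 / 8)) = -(1 / 8) := by ring
  rw [e1, e2]
  have hx : |(1 - t) * x + t * x'| ≤ 3 / 4 := by
    rw [abs_le]
    constructor
    · nlinarith [mul_nonneg h0 (by linarith : 0 ≤ x' + 3 / 4), mul_nonneg (by linarith : 0 ≤ 1 - t) (by linarith : 0 ≤ x + 3 / 4)]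
    · nlinarith [mul_nonneg h0 (by linarith : 0 ≤ 3 / 4 - x'), mul_nonneg (by linarith : 0 ≤ 1 - t) (by linarith : 0 ≤ 3 / 4 - x)]
  obtain ⟨hS, hT, hK⟩ := Pa1_Bk S hx (by norm_num : -(9 / 64 : ℝ) ≤ -(1 / 8)) (by norm_num)
  refine ⟨hT, hK, B_off S hS ?_ ?_⟩
  · show -(1 / 8 : ℝ) < -(1 / 12)
    norm_num
  · show (1 - t) * x + t * x' ≤ 79 / 256 ∨ 81 / 256 ≤ (1 - t) * x + t * x'
    rcases h5 with ⟨h5, h6⟩ | ⟨h5, h6⟩
    · left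
      nlinarith [mul_nonneg h0 (sub_nonneg.2 h6), mul_nonneg (by linarith : 0 ≤ 1 - t) (sub_nonneg.2 h5)]
    · right
      nlinarith [mul_nonneg h0 (sub_nonneg.2 h6), mul_nonneg (by linarith : 0 ≤ 1 - t) (sub_nonneg.2 h5)]

/-- vertical segments of `B` -/
theorem Pa1_Bv {K : Set N} {B W : E → N} (S : SP K B W) {x z z' : ℝ} (h1 : |x| = 3 / 4) (h2 : -(1 / 8) ≤ z) (h3 : z < 0)
    (h4 : -(1 / 8) ≤ z') (h5 : z' < 0) : Pa1_R.{u, v} (Kᶜ ∩ (QC B W)ᶜ) (B (P3 x 0 z)) (B (P3 x 0 z'))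
      (fun _ _ _ G => G.val (seg B (P3 x 0 z) (P3 x 0 z'))) := by
  apply Pa1_seg3 (cht_cont S.chtB)
  intro t h0 h1t
  have e1 : (1 - t) * (0 : ℝ) + t * 0 = 0 := by ring
  have e2 : (1 - t) * x + t * x = x := by ring
  rw [e1, e2]
  have hz : -(9 / 64) ≤ (1 - t) * z + t * z' := by
    nlinarith [mul_nonneg h0 (by linarith : 0 ≤ z' + 1 / 8), mul_nonneg (by linarith : 0 ≤ 1 - t) (by linarith : 0 ≤ z + 1 / 8)]
  have hz' : (1 - t) * z + t * z' < 0 := by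
    rcases eq_or_lt_of_le h0 with h | h
    · rw [← h]
      linarith
    · have h6 : t * z' < 0 := mul_neg_of_pos_of_neg h h5
      have h7 : (1 - t) * z ≤ 0 := mul_nonpos_of_nonneg_of_nonpos (by linarith) h3.le
      linarith
  obtain ⟨hS, hT, hK⟩ := Pa1_Bk S h1.le hz hz'
  refine ⟨hT, hK, B_off' S hS ?_⟩
  show 1 / 2 < |x|
  rw [h1]
  norm_num

/-- segments parallel to the knot -/
theorem Pa1_kap {κ : ℝ × ℂ → N} (hκ : Thick κ) {B W : E → N} {a b ρ : ℝ} (hab : a ≤ b) (h0 : 0 < ρ) (h1 : ρ < 1)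
    (hoff : ∀ l ∈ Icc a b, κ (l, (ρ : ℂ)) ∉ QC B W) :
    Pa1_R.{u, v} ((core κ)ᶜ ∩ (QC B W)ᶜ) (κ (a, (ρ : ℂ))) (κ (b, (ρ : ℂ)))
      (fun _ _ _ G => G.val (seg κ (a, (ρ : ℂ)) (b, (ρ : ℂ)))) := by
  have hn : ‖(ρ : ℂ)‖ < 1 := by
    rw [Complex.norm_real, Real.norm_eq_abs, abs_of_pos h0]
    exact h1
  have he : ∀ t : ℝ, (1 - t) • ((a, (ρ : ℂ)) : ℝ × ℂ) + t • ((b, (ρ : ℂ)) : ℝ × ℂ) = ((1 - t) * a + t * b, (ρ : ℂ)) := by
    intro t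
    refine Prod.ext ?_ ?_
    · simp
    · simp only [Prod.smul_mk, Prod.mk_add_mk]
      rw [← add_smul]
      simp
  apply Pa1_seg
  refine ⟨?_, ?_⟩
  · unfold seg
    apply (thick_cont hκ).comp (by fun_prop)
    intro t ht
    show (1 - t) • ((a, (ρ : ℂ)) : ℝ × ℂ) + t • ((b, (ρ : ℂ)) : ℝ × ℂ) ∈ {q : ℝ × ℂ | ‖q.2‖ < 1}
    rw [he]
    exact hn
  · intro t ht
    unfold seg
    rw [he]
    refine ⟨thick_off hκ hn ?_, hoff _ ⟨?_, ?_⟩⟩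
    · exact_mod_cast h0.ne'
    · nlinarith [mul_nonneg ht.1 (by linarith : 0 ≤ b - a)]
    · nlinarith [mul_nonneg (by linarith [ht.2] : 0 ≤ 1 - t) (by linarith : 0 ≤ b - a)]

omit [TopologicalSpace N] [ChartedSpace E3 N] in
/-- the foot of `B` -/
theorem Pa1_foot {κ : ℝ × ℂ → N} {B : E → N} {P P₂ D H H' τ : ℝ} (L : Lnk κ B P P₂ D H H' τ) {x ρ : ℝ}
    (hx : |x| ≤ 3 / 4) (h0 : 0 < ρ) (h1 : ρ ≤ H / 16) : B (P3 x 0 (-(ρ / H))) = κ (P + D * x, (ρ : ℂ)) := by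
  have hH := L.Hpos
  rw [abs_le] at hx
  have hr : ρ / H ≤ 1 / 16 := by
    rw [div_le_iff₀ hH]
    linarith
  have hr0 : 0 < ρ / H := div_pos h0 hH
  rw [L.foot _ (Pa1_TD hx.1 hx.2 (by norm_num) (by norm_num) (by linarith) (by linarith))
    (by show -(ρ / H) < 1 / 4; linarith)]
  congr 1
  refine Prod.ext rfl ?_
  show -(⟨H * -(ρ / H), H' * 0⟩ : ℂ) = (ρ : ℂ)
  have h2 : H * -(ρ / H) = -ρ := by
    rw [mul_neg, mul_div_cancel₀ _ hH.ne']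
  apply Complex.ext
  · simp [h2]
  · simp

theorem Pa1_A {K : Set N} {B W : E → N} (S : SP K B W) {x y x' z' : ℝ} (hx : |x| ≤ 3 / 4) (hy : |y| ≤ 1 / 2)
    (h1 : -(9 / 64) ≤ z') (h2 : z' ≤ 73 / 64) (h3 : x' = x / 64) (h4 : z' = -(32 * y)) :
    W (P3 x y 0) = B (P3 x' 0 z') := by
  rw [abs_le] at hx hy
  rw [S.relA _ (Pa1_TD hx.1 hx.2 hy.1 hy.2 (by norm_num) (by norm_num)) (by show |(0 : ℝ)| ≤ 1 / 10; norm_num)
    (by show -(9 / 64) ≤ -(32 * y); linarith) (by show -(32 * y) ≤ 73 / 64; linarith)]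
  congr 1
  unfold ja P3
  refine Prod.ext ?_ ?_
  · apply Complex.ext
    · show x / 64 = x'
      rw [h3]
    · show (0 : ℝ) / 64 = 0
      norm_num
  · show -(32 * y) = z'
    rw [h4]

theorem path1 {κ : ℝ × ℂ → N} (hκ : Thick κ) {B W : E → N} (S : SP (core κ) B W) {P P₂ D H H' τ : ℝ}
    (L : Lnk κ B P P₂ D H H' τ) {p ρ : ℝ} (hp : p < P - D) (h0 : 0 < ρ) (h1 : ρ ≤ H / 16)
    (hoff : ∀ l ∈ Icc p (P - 3 / 4 * D), κ (l, (ρ : ℂ)) ∉ QC B W) :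
    ∃ f : ℝ → N, PathOn ((core κ)ᶜ ∩ (QC B W)ᶜ) f ∧ f 0 = κ (p, (ρ : ℂ)) ∧ f 1 = κ (p, (ρ : ℂ)) ∧
      ∀ (Y : Set N) (Γ : Type v) (_ : Group Γ) (G : GHom Y Γ), (core κ)ᶜ ∩ (QC B W)ᶜ ⊆ Y →
        G.val f = ex1 G κ B W p P D H ρ := by
  have hH := L.Hpos
  have hD := L.Dpos
  have hρ1 : ρ < 1 := by linarith [L.Hlt]
  have hr : ρ / H ≤ 1 / 16 := by
    rw [div_le_iff₀ hH]
    linarith
  have hr0 : 0 < ρ / H := div_pos h0 hH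
  have hcW := cht_cont S.chtW
  -- the first part
  have i1 := Pa1_kap.{u, v} hκ (by linarith : p ≤ P - 3 / 4 * D) h0 hρ1 hoff
  have i2 := Pa1_Bv.{u, v} S (x := -(3 / 4)) (z := -(ρ / H)) (z' := -(1 / 8)) (by norm_num [abs_of_nonneg, abs_neg]) (by linarith) (by linarith)
    (le_refl _) (by norm_num)
  have i3 := Pa1_Bh.{u, v} S (x := -(3 / 4)) (x' := -(1 / 256)) (by rw [abs_le]; constructor <;> norm_num)
    (by rw [abs_le]; constructor <;> norm_num) (Or.inl ⟨by norm_num, by norm_num⟩)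
  have e12 : κ (P - 3 / 4 * D, (ρ : ℂ)) = B (P3 (-(3 / 4)) 0 (-(ρ / H))) := by
    rw [Pa1_foot L (by rw [abs_le]; constructor <;> norm_num) h0 h1]
    congr 2
    ring
  have hIn := Pa1_cat (Pa1_cat i1 i2 e12) i3 rfl
  have o1 := Pa1_seg3.{u, v} (Z := (core κ)ᶜ ∩ (QC B W)ᶜ) hcW (x := -(1 / 4)) (y := 1 / 256) (z := 0) (x' := -(1 / 4)) (y' := 1 / 256) (z' := 1 / 2)
    (by
      intro t h0 h1
      have hT : P3 ((1 - t) * -(1 / 4) + t * -(1 / 4)) ((1 - t) * (1 / 256) + t * (1 / 256)) ((1 - t) * 0 + t * (1 / 2)) ∈ TD := by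
        apply Pa1_TD <;> linarith
      refine ⟨hT, Pa1_W S hT ?_ ?_ ?_⟩
      · rintro ⟨-, -, h, -⟩; linarith
      · rintro ⟨-, -, h⟩; linarith
      · rintro ⟨-, h, -⟩; linarith)
  have o2 := Pa1_seg3.{u, v} (Z := (core κ)ᶜ ∩ (QC B W)ᶜ) hcW (x := -(1 / 4)) (y := 1 / 256) (z := 1 / 2) (x' := 3 / 64) (y' := 1 / 4) (z' := 1 / 2)
    (by
      intro t h0 h1
      have hT : P3 ((1 - t) * -(1 / 4) + t * (3 / 64)) ((1 - t) * (1 / 256) + t * (1 / 4)) ((1 - t) * (1 / 2) + t * (1 / 2)) ∈ TD := by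
        apply Pa1_TD <;> linarith
      refine ⟨hT, Pa1_W S hT ?_ ?_ ?_⟩
      · rintro ⟨-, -, h, -⟩; linarith
      · rintro ⟨-, -, h⟩; linarith
      · rintro ⟨h, -, -⟩; rw [abs_le] at h; linarith [h.1])
  have e34 : B (P3 (-(1 / 256)) 0 (-(1 / 8))) = W (P3 (-(1 / 4)) (1 / 256) 0) :=
    (Pa1_A S (by rw [abs_le]; constructor <;> norm_num) (by rw [abs_le]; constructor <;> norm_num) (by norm_num) (by norm_num)
      (by norm_num) (by norm_num)).symm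
  have hIn1 := Pa1_cat (Pa1_cat hIn o1 e34) o2 rfl
  have r1 := Pa1_seg3.{u, v} (Z := (core κ)ᶜ ∩ (QC B W)ᶜ) hcW (x := 3 / 64) (y := 1 / 4) (z := 1 / 2) (x' := 3 / 64) (y' := 1 / 4) (z' := 13 / 12)
    (by
      intro t h0 h1
      have hT : P3 ((1 - t) * (3 / 64) + t * (3 / 64)) ((1 - t) * (1 / 4) + t * (1 / 4)) ((1 - t) * (1 / 2) + t * (13 / 12)) ∈ TD := by
        apply Pa1_TD <;> linarith
      refine ⟨hT, Pa1_W S hT ?_ ?_ ?_⟩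
      · rintro ⟨-, -, h, -⟩; linarith
      · rintro ⟨-, -, h⟩; linarith
      · rintro ⟨-, -, h⟩; linarith)
  have r2 := Pa1_seg3.{u, v} (Z := (core κ)ᶜ ∩ (QC B W)ᶜ) hcW (x := 3 / 64) (y := 1 / 4) (z := 13 / 12) (x' := -(3 / 64)) (y' := 1 / 4) (z' := 13 / 12)
    (by
      intro t h0 h1
      have hT : P3 ((1 - t) * (3 / 64) + t * -(3 / 64)) ((1 - t) * (1 / 4) + t * (1 / 4)) ((1 - t) * (13 / 12) + t * (13 / 12)) ∈ TD := by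
        apply Pa1_TD <;> linarith
      refine ⟨hT, Pa1_W S hT ?_ ?_ ?_⟩
      · rintro ⟨-, -, h, -⟩; linarith
      · rintro ⟨-, -, h⟩; linarith
      · rintro ⟨h, -, -⟩; rw [abs_le] at h; linarith [h.2])
  have r3 := Pa1_seg3.{u, v} (Z := (core κ)ᶜ ∩ (QC B W)ᶜ) hcW (x := -(3 / 64)) (y := 1 / 4) (z := 13 / 12) (x' := -(3 / 64)) (y' := 1 / 4) (z' := 1 / 2)
    (by
      intro t h0 h1
      have hT : P3 ((1 - t) * -(3 / 64) + t * -(3 / 64)) ((1 - t) * (1 / 4) + t * (1 / 4)) ((1 - t) * (13 / 12) + t * (1 / 2)) ∈ TD := by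
        apply Pa1_TD <;> linarith
      refine ⟨hT, Pa1_W S hT ?_ ?_ ?_⟩
      · rintro ⟨-, -, h, -⟩; linarith
      · rintro ⟨-, -, h⟩; linarith
      · rintro ⟨-, h, -⟩; linarith)
  have r4 := Pa1_seg3.{u, v} (Z := (core κ)ᶜ ∩ (QC B W)ᶜ) hcW (x := -(3 / 64)) (y := 1 / 4) (z := 1 / 2) (x' := 3 / 64) (y' := 1 / 4) (z' := 1 / 2)
    (by
      intro t h0 h1
      have hT : P3 ((1 - t) * -(3 / 64) + t * (3 / 64)) ((1 - t) * (1 / 4) + t * (1 / 4)) ((1 - t) * (1 / 2) + t * (1 / 2)) ∈ TD := by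
        apply Pa1_TD <;> linarith
      refine ⟨hT, Pa1_W S hT ?_ ?_ ?_⟩
      · rintro ⟨-, -, h, -⟩; linarith
      · rintro ⟨-, -, h⟩; linarith
      · rintro ⟨h, -, -⟩; rw [abs_le] at h; linarith [h.1])
  have r := Pa1_cat (Pa1_cat (Pa1_cat r1 r2 rfl) r3 rfl) r4 rfl
  have s1 := Pa1_seg3.{u, v} (Z := (core κ)ᶜ ∩ (QC B W)ᶜ) hcW (x := 3 / 64) (y := -(1 / 4)) (z := 1 / 2) (x' := 3 / 64) (y' := -(1 / 4)) (z' := 13 / 12)
    (by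
      intro t h0 h1
      have hT : P3 ((1 - t) * (3 / 64) + t * (3 / 64)) ((1 - t) * -(1 / 4) + t * -(1 / 4)) ((1 - t) * (1 / 2) + t * (13 / 12)) ∈ TD := by
        apply Pa1_TD <;> linarith
      refine ⟨hT, Pa1_W S hT ?_ ?_ ?_⟩
      · rintro ⟨-, h, -, -⟩; linarith
      · rintro ⟨-, h, -⟩; linarith
      · rintro ⟨-, -, h⟩; linarith)
  have s2 := Pa1_seg3.{u, v} (Z := (core κ)ᶜ ∩ (QC B W)ᶜ) hcW (x := 3 / 64) (y := -(1 / 4)) (z := 13 / 12) (x' := -(3 / 64)) (y' := -(1 / 4)) (z' := 13 / 12)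
    (by
      intro t h0 h1
      have hT : P3 ((1 - t) * (3 / 64) + t * -(3 / 64)) ((1 - t) * -(1 / 4) + t * -(1 / 4)) ((1 - t) * (13 / 12) + t * (13 / 12)) ∈ TD := by
        apply Pa1_TD <;> linarith
      refine ⟨hT, Pa1_W S hT ?_ ?_ ?_⟩
      · rintro ⟨-, h, -, -⟩; linarith
      · rintro ⟨-, h, -⟩; linarith
      · rintro ⟨h, -, -⟩; rw [abs_le] at h; linarith [h.2])
  have s3 := Pa1_seg3.{u, v} (Z := (core κ)ᶜ ∩ (QC B W)ᶜ) hcW (x := -(3 / 64)) (y := -(1 / 4)) (z := 13 / 12) (x' := -(3 / 64)) (y' := -(1 / 4)) (z' := 1 / 2)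
    (by
      intro t h0 h1
      have hT : P3 ((1 - t) * -(3 / 64) + t * -(3 / 64)) ((1 - t) * -(1 / 4) + t * -(1 / 4)) ((1 - t) * (13 / 12) + t * (1 / 2)) ∈ TD := by
        apply Pa1_TD <;> linarith
      refine ⟨hT, Pa1_W S hT ?_ ?_ ?_⟩
      · rintro ⟨-, h, -, -⟩; linarith
      · rintro ⟨-, h, -⟩; linarith
      · rintro ⟨-, h, -⟩; linarith)
  have s4 := Pa1_seg3.{u, v} (Z := (core κ)ᶜ ∩ (QC B W)ᶜ) hcW (x := -(3 / 64)) (y := -(1 / 4)) (z := 1 / 2) (x' := 3 / 64) (y' := -(1 / 4)) (z' := 1 / 2)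
    (by
      intro t h0 h1
      have hT : P3 ((1 - t) * -(3 / 64) + t * (3 / 64)) ((1 - t) * -(1 / 4) + t * -(1 / 4)) ((1 - t) * (1 / 2) + t * (1 / 2)) ∈ TD := by
        apply Pa1_TD <;> linarith
      refine ⟨hT, Pa1_W S hT ?_ ?_ ?_⟩
      · rintro ⟨-, h, -, -⟩; linarith
      · rintro ⟨-, h, -⟩; linarith
      · rintro ⟨h, -, -⟩; rw [abs_le] at h; linarith [h.1])
  have s := Pa1_cat (Pa1_cat (Pa1_cat s1 s2 rfl) s3 rfl) s4 rfl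
  have l1 := Pa1_seg3.{u, v} (Z := (core κ)ᶜ ∩ (QC B W)ᶜ) hcW (x := 3 / 64) (y := 1 / 4) (z := 1 / 2) (x' := 3 / 64) (y' := 1 / 4) (z' := -(1 / 8))
    (by
      intro t h0 h1
      have hT : P3 ((1 - t) * (3 / 64) + t * (3 / 64)) ((1 - t) * (1 / 4) + t * (1 / 4)) ((1 - t) * (1 / 2) + t * -(1 / 8)) ∈ TD := by
        apply Pa1_TD <;> linarith
      refine ⟨hT, Pa1_W S hT ?_ ?_ ?_⟩
      · rintro ⟨-, -, h, -⟩; linarith
      · rintro ⟨-, -, h⟩; linarith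
      · rintro ⟨-, -, h⟩; linarith)
  have l2 := Pa1_seg3.{u, v} (Z := (core κ)ᶜ ∩ (QC B W)ᶜ) hcW (x := 3 / 64) (y := 1 / 4) (z := -(1 / 8)) (x' := 3 / 64) (y' := -(1 / 4)) (z' := -(1 / 8))
    (by
      intro t h0 h1
      have hT : P3 ((1 - t) * (3 / 64) + t * (3 / 64)) ((1 - t) * (1 / 4) + t * -(1 / 4)) ((1 - t) * -(1 / 8) + t * -(1 / 8)) ∈ TD := by
        apply Pa1_TD <;> linarith
      refine ⟨hT, Pa1_W S hT ?_ ?_ ?_⟩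
      · rintro ⟨-, -, -, h, -⟩; linarith
      · rintro ⟨h, -, -⟩; rw [abs_le] at h; linarith [h.1]
      · rintro ⟨-, -, h⟩; linarith)
  have l3 := Pa1_seg3.{u, v} (Z := (core κ)ᶜ ∩ (QC B W)ᶜ) hcW (x := 3 / 64) (y := -(1 / 4)) (z := -(1 / 8)) (x' := 3 / 64) (y' := -(1 / 4)) (z' := 1 / 2)
    (by
      intro t h0 h1
      have hT : P3 ((1 - t) * (3 / 64) + t * (3 / 64)) ((1 - t) * -(1 / 4) + t * -(1 / 4)) ((1 - t) * -(1 / 8) + t * (1 / 2)) ∈ TD := by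
        apply Pa1_TD <;> linarith
      refine ⟨hT, Pa1_W S hT ?_ ?_ ?_⟩
      · rintro ⟨-, h, -, -⟩; linarith
      · rintro ⟨-, h, -⟩; linarith
      · rintro ⟨-, -, h⟩; linarith)
  have hLw := Pa1_cat (Pa1_cat l1 l2 rfl) l3 rfl
  have hloop := Pa1_cat (Pa1_cat (Pa1_cat r hLw rfl) (Pa1_rv s) rfl) (Pa1_rv hLw) rfl
  exact Pa1_cat (Pa1_cat hIn1 hloop rfl) (Pa1_rv hIn1) rfl

end Pool.Agent.NHR
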