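import Mathlib
import Pool.Agent.NHR.Defs
import Pool.Agent.NHR.ExT
import Pool.Agent.NHR.ExH
import Pool.Agent.NHR.Bdl
import Pool.Agent.NHR.Cwd
import Pool.Agent.NHR.IdA
import Pool.Agent.NHR.IdE
import Pool.Agent.NHR.Pth
import Pool.Agent.NHR.Sgm
import Pool.Agent.NHR.Geo

/-!
# NHR/Exi: existence of a special configuration with given labels (difficulty 2)

`ExT` with `a η ε` such that `laP G κ p P P₂ (η ε / 8) (a η ε) = a`, `ExH` (`τ = -1`) with `g = w₀⁻¹ e w₀` (`w₀` = the first two factors of `leP`), `Bdl`, `Cwd`, `IdA`, `IdE` (`cor W = cor Θ` on `[0, 1]`).  `p₀ = (p + p')/2`, `D = ε δ`, `H = η ε`, `H' = η ε δ`.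
`QC B W ⊆ Bd T δ τ '' TD ∪ W '' TD ⊆ T '' TD ∪ Θ '' TD`.
-/

open scoped Manifold ContDiff Topology
open Set Filter
open Pool.Agent.CSG (stp)
open Pool.Agent.RSG (E3 ex Thick)
open Pool.Agent.KNT (Dom Str Str2 bmp)
open Pool.Agent.NHP

namespace Pool.Agent.NHR

universe u v

variable {N : Type u} [TopologicalSpace N] [ChartedSpace E3 N] [T2Space N] {Γ : Type v} [Group Γ]

theorem Exi_la {Y : Set N} (G : GHom Y Γ) (κ : ℝ × ℂ → N) (p P P₂ : ℝ) (a : Γ) :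
    ∃ f : ℝ → Γ, ∀ h : ℝ, laP G κ p P P₂ h (f h) = a := by
  refine ⟨fun h => (G.val (seg κ (p, 1 / 2) (P, (h : ℂ))) * G.val (seg κ (P, (h : ℂ)) (P, -((h : ℂ) * Complex.I))) *
    G.val (seg κ (P, -((h : ℂ) * Complex.I)) (P, -(h : ℂ))))⁻¹ * a *
    (G.val (seg κ (P₂, -(h : ℂ)) (P₂, -((h : ℂ) * Complex.I))) * G.val (seg κ (P₂, -((h : ℂ) * Complex.I)) (P₂, (h : ℂ))) *
    G.val (seg κ (P₂, (h : ℂ)) (p, 1 / 2)))⁻¹, ?_⟩
  intro h
  unfold laP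
  group

theorem Exi_half {κ : ℝ × ℂ → N} (hκ : Thick κ) (l l' : ℝ) {h h' : ℝ} (h0 : 0 < h) (h1 : h < 1) (h0' : 0 < h')
    (h1' : h' < 1) : PathOn (core κ)ᶜ (seg κ (l, -((h : ℂ) * Complex.I)) (l', -((h' : ℂ) * Complex.I))) := by
  have hC : Convex ℝ {q : ℝ × ℂ | ‖q.2‖ < 1 ∧ q.2.im < 0} := by
    intro x hx y hy a b ha hb hab
    have m1 : a • x.2 + b • y.2 ∈ Metric.ball (0 : ℂ) 1 :=
      convex_ball (0 : ℂ) 1 (by simpa using hx.1) (by simpa using hy.1) ha hb hab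
    have m2 : (a • x.2 + b • y.2).im < 0 := by
      have e : (a • x.2 + b • y.2).im = a * x.2.im + b * y.2.im := by simp
      have hx2 : x.2.im < 0 := hx.2
      have hy2 : y.2.im < 0 := hy.2
      rw [e]
      rcases ha.eq_or_lt with h | h
      · have hb1 : b = 1 := by linarith
        rw [← h, hb1]
        linarith
      · nlinarith
    have m3 : ‖a • x.2 + b • y.2‖ < 1 := by simpa using m1
    exact ⟨m3, m2⟩
  have key : ∀ (l : ℝ) {h : ℝ}, 0 < h → h < 1 →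
      (l, -((h : ℂ) * Complex.I)) ∈ {q : ℝ × ℂ | ‖q.2‖ < 1 ∧ q.2.im < 0} := by
    intro l h h0 h1
    refine ⟨?_, ?_⟩
    · show ‖-((h : ℂ) * Complex.I)‖ < 1
      rw [norm_neg, norm_mul, Complex.norm_I, mul_one, Complex.norm_real, Real.norm_of_nonneg h0.le]
      exact h1
    · show (-((h : ℂ) * Complex.I)).im < 0
      simpa using h0
  refine seg_path hC ((thick_cont hκ).mono fun q hq => hq.1) ?_ (key l h0 h1) (key l' h0' h1')
  intro q hq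
  refine thick_off hκ hq.1 ?_
  intro h3
  have := hq.2
  rw [h3] at this
  simp at this

theorem Exi_cor {κ : ℝ × ℂ → N} {Θ : E → N} (h : Chd (core κ) Θ) : PathOn (core κ)ᶜ (cor Θ) := by
  have hmem : ∀ t ∈ Icc (0 : ℝ) 1, ((0 : ℂ), 1 / 8 + 3 / 4 * t) ∈ TD := by
    intro t ht
    refine ⟨by simp, ?_, ?_⟩
    · show -(1 / 4) < 1 / 8 + 3 / 4 * t
      linarith [ht.1]
    · show 1 / 8 + 3 / 4 * t < 5 / 4
      linarith [ht.2]
  refine ⟨?_, ?_⟩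
  · refine (cht_cont h.cht).comp (f := fun t : ℝ => ((0 : ℂ), 1 / 8 + 3 / 4 * t)) ?_ hmem
    fun_prop
  · intro t ht hK
    have h1 : cor Θ t ∈ Θ '' TS := by
      rw [← h.hit]
      exact ⟨hK, mem_image_of_mem _ (hmem t ht)⟩
    obtain ⟨q, hq, hq'⟩ := h1
    have h2 : q = ((0 : ℂ), 1 / 8 + 3 / 4 * t) := h.cht.inj hq.1 (hmem t ht) hq'
    subst h2
    rcases hq.2 with h3 | h3
    · have h4 : 1 / 8 + 3 / 4 * t = 0 := h3.1
      linarith [ht.1]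
    · have h4 : 1 / 8 + 3 / 4 * t = 1 := h3.1
      linarith [ht.2]

theorem exists_config (ext : Ext N) {κ : ℝ × ℂ → N} (hκ : Thick κ) (G : GHom (core κ)ᶜ Γ) (hG : Full G) {p p' : ℝ}
    (hp : p < p') (hp' : p' < p + 1) (a e : Γ) {c₁ c₂ : Γ} {T₁ T₂ : E → N} (h₁ : FinV G κ p p' c₁ T₁)
    (h₂ : FinV G κ p p' c₂ T₂) :
    ∃ (P p₀ P₂ D H H' : ℝ) (B W T₁' T₂' : E → N), Pos p P p₀ P₂ p' D ∧ Lnk κ B P P₂ D H H' (-1) ∧ SP (core κ) B W ∧
      lba G κ B p P P₂ D H (-1) = a ∧ lbe G κ B W p P D H = e ∧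
      FinV G κ p p' c₁ T₁' ∧ LEqN (kn (core κ) T₁) (kn (core κ) T₁') ∧ Disjoint (T₁' '' TD) (QC B W) ∧
      FinV G κ p p' c₂ T₂' ∧ LEqN (kn (core κ) T₂) (kn (core κ) T₂') ∧ Disjoint (T₂' '' TD) (QC B W) := by
  obtain ⟨f, hf⟩ := Exi_la G κ p ((3 * p + p') / 4) ((p + 3 * p') / 4) a
  obtain ⟨η, ε, T, T₁', T₂', hη, hη1, hε, hεp, hT, hTE, hTv, hF1, hL1, -, hd1, hF2, hL2, -, hd2⟩ :=
    exists_T ext hκ G hG hp hp' (fun η ε => f (η * ε / 8)) h₁ h₂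
  have hε4 : ε < 1 / 4 := by linarith
  have hη' : η * ε < 1 / 4 := by nlinarith
  have hη0 : 0 < η * ε := mul_pos hη hε
  have hPP : ∀ k : ℤ, 2 * ε < |(3 * p + p') / 4 - (p + 3 * p') / 4 + k| := by
    intro k
    have h1 : (3 * p + p') / 4 - (p + 3 * p') / 4 = -((p' - p) / 2) := by ring
    rw [h1]
    rcases le_or_gt k 0 with hk | hk
    · have h2 : (k : ℝ) ≤ 0 := by exact_mod_cast hk
      rw [abs_of_neg (by linarith)]
      linarith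
    · have h2 : (1 : ℝ) ≤ k := by exact_mod_cast hk
      rw [abs_of_pos (by linarith)]
      linarith
  obtain ⟨w, hw⟩ : ∃ w : Γ, w = G.val (seg κ (p, 1 / 2) ((3 * p + p') / 4, ((η * ε / 8 : ℝ) : ℂ))) *
      G.val (seg κ ((3 * p + p') / 4, ((η * ε / 8 : ℝ) : ℂ)) ((3 * p + p') / 4, -(((η * ε / 8 : ℝ) : ℂ) * Complex.I))) :=
    ⟨_, rfl⟩
  obtain ⟨δ, Θ, T₁'', T₂'', hδ, hδ1, hΘ, hΘE, hΘs, hΘv, hF1', hL1', hd1', hF2', hL2', hd2'⟩ :=
    exists_Th ext hκ G hG (τ := -1) (Or.inr rfl) (w⁻¹ * e * w) hη hη1 hε hε4 hPP hT hTE hF1 hF2 hd1 hd2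
  have hLnk : Lnk κ (Bd T δ (-1)) ((3 * p + p') / 4) ((p + 3 * p') / 4) (ε * δ) (η * ε) (η * ε * δ) (-1) :=
    Bd_lnk hη hη1 hε hε4 hδ hδ1 (Or.inr rfl) hTE
  obtain ⟨W, hS, hWs, hW1, hW2, hW3⟩ := exists_SP hκ hη hη1 hε hε4 hδ hδ1 hLnk (Bd_cht hT.cht hδ hδ1)
    (Bd_hit hT hδ hδ1 (Or.inr rfl)) hΘ hΘE hΘs
  have hD1 : ε * δ ≤ ε := by nlinarith
  have hQ : QC (Bd T δ (-1)) W ⊆ Θ '' TD ∪ T '' TD := by
    have hB : Bd T δ (-1) '' TD ⊆ T '' TD := Bd_sub hδ hδ1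
    rintro y (hy | hy)
    · exact Or.inr (hB (image_mono (QCB_sub.trans Slab_sub) hy))
    · rcases hWs (image_mono QCW_sub hy) with h | h
      · exact Or.inl h
      · exact Or.inr (hB (image_mono SlabT_sub h))
  refine ⟨(3 * p + p') / 4, (p + p') / 2, (p + 3 * p') / 4, ε * δ, η * ε, η * ε * δ, Bd T δ (-1), W, T₁'', T₂'',
    ?_, hLnk, hS, ?_, ?_, hF1', hL1.trans hL1', ?_, hF2', hL2.trans hL2', ?_⟩
  · exact ⟨by linarith, by linarith, by linarith, by linarith, hp'⟩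
  · rw [IdA hκ G hη hη1 hε hε4 hδ hδ1 hT hTE p hS, hTv]
    exact hf _
  · rw [IdE hκ hS G hLnk p hW2 hW3]
    have h1 : G.val (cor W) = G.val (cor Θ) := by
      refine G.val_congr (Exi_cor hΘ) ?_
      intro t ht
      exact hW1 _ (by linarith [ht.1]) (by linarith [ht.2])
    have a1 : 0 < η * ε / 8 := by linarith
    have a2 : η * ε / 8 < 1 := by linarith
    have a3 : 0 < η * ε * δ / 512 := by positivity
    have a4 : η * ε * δ / 512 < 1 := by nlinarith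
    have h2 := seg_symm G (Exi_half hκ ((3 * p + p') / 4) ((3 * p + p') / 4) a1 a2 a3 a4)
    have h3 := seg_symm G (Exi_half hκ ((3 * p + p') / 4) ((3 * p + p') / 4 + 5 / 16 * (ε * δ)) a1 a2 a3 a4)
    rw [h1, hΘv]
    unfold leP
    rw [h2, h3, hw]
    group
  · exact (hd1'.mono_left hQ).symm
  · exact (hd2'.mono_left hQ).symm

end Pool.Agent.NHR
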