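import Mathlib
import Pool.Agent.NHR.Defs
import Pool.Agent.NHR.Geo

/-!
# NHR/Tub: the tube of the knot off the special configuration (difficulty 3)

`K ∩ QC B W ⊆ {κ (P + D s, 0), κ (P₂ + D s, 0) | |s| ≤ 1/2}` (`hitB`, `hitW`, `relA`, `relB`, `Lnk`); compactness of
`Icc l₁ l₂ × {‖v‖ ≤ 1/2}` and of `QC B W`.
-/

open scoped Manifold ContDiff Topology
open Set Filter
open Pool.Agent.CSG (stp)
open Pool.Agent.RSG (E3 ex Thick)
open Pool.Agent.KNT (Dom Str Str2 bmp)
open Pool.Agent.NHP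

namespace Pool.Agent.NHR

universe u v

variable {N : Type u} [TopologicalSpace N] [ChartedSpace E3 N]

theorem tub_bdd {s : Set E} (hs : IsClosed s) (h : ∀ q ∈ s, |q.1.re| ≤ 1 ∧ |q.1.im| ≤ 1 ∧ |q.2| ≤ 2) : IsCompact s := by
  refine Metric.isCompact_of_isClosed_isBounded hs ?_
  refine (Metric.isBounded_closedBall (x := (0 : E)) (r := 2)).subset ?_
  intro q hq
  obtain ⟨h1, h2, h3⟩ := h q hq
  rw [mem_closedBall_zero_iff, Prod.norm_def]
  refine max_le ?_ ?_
  · exact (Complex.norm_le_abs_re_add_abs_im _).trans (by linarith)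
  · rw [Real.norm_eq_abs]; exact h3

theorem QC_compact {K : Set N} {B W : E → N} (S : SP K B W) : IsCompact (QC B W) := by
  have h1 : IsCompact QCB := by
    refine tub_bdd ?_ ?_
    · unfold QCB
      have a1 : IsClosed {q : E | |q.1.re| ≤ 1 / 2} := isClosed_le (by fun_prop) continuous_const
      have a2 : IsClosed {q : E | |q.1.im| ≤ 1 / 1024} := isClosed_le (by fun_prop) continuous_const
      have a3 : IsClosed {q : E | -(1 / 12) ≤ q.2} := isClosed_le continuous_const (by fun_prop)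
      have a4 : IsClosed {q : E | q.2 ≤ 13 / 12} := isClosed_le (by fun_prop) continuous_const
      exact a1.inter (a2.inter (a3.inter a4))
    · rintro q ⟨a1, a2, a3, a4⟩
      refine ⟨by linarith, by linarith, abs_le.2 ⟨by linarith, by linarith⟩⟩
  have h2 : IsCompact QCW := by
    refine tub_bdd ?_ ?_
    · unfold QCW
      have a1 : IsClosed {q : E | |q.1.re| ≤ 1 / 8} := isClosed_le (by fun_prop) continuous_const
      have a2 : IsClosed {q : E | -(13 / 384) ≤ q.1.im} := isClosed_le continuous_const (by fun_prop)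
      have a2' : IsClosed {q : E | q.1.im ≤ 1 / 384} := isClosed_le (by fun_prop) continuous_const
      have a3 : IsClosed {q : E | -(1 / 16) ≤ q.2} := isClosed_le continuous_const (by fun_prop)
      have a4 : IsClosed {q : E | q.2 ≤ 19 / 16} := isClosed_le (by fun_prop) continuous_const
      exact a1.inter (a2.inter (a2'.inter (a3.inter a4)))
    · rintro q ⟨a1, a2, a2', a3, a4⟩
      refine ⟨by linarith, abs_le.2 ⟨by linarith, by linarith⟩, abs_le.2 ⟨by linarith, by linarith⟩⟩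
  exact (h1.image_of_continuousOn ((cht_cont S.chtB).mono (QCB_sub.trans Slab_sub))).union
    (h2.image_of_continuousOn ((cht_cont S.chtW).mono QCW_sub))

theorem tub_aux {κ : ℝ × ℂ → N} (hκ : Thick κ) {B : E → N} {P P₂ D H H' τ : ℝ}
    (L : Lnk κ B P P₂ D H H' τ) {l : ℝ} (h : ∀ k : ℤ, D / 2 < |l - P + k| ∧ D / 2 < |l - P₂ + k|)
    {q : E} (hq : q ∈ TD) (him : q.1.im = 0) (hre : |q.1.re| ≤ 1 / 2) (hx : q.2 = 0 ∨ q.2 = 1) : κ (l, 0) ≠ B q := by
  intro he
  have hD := L.Dpos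
  rcases hx with hx | hx
  · rw [L.foot q hq (by rw [hx]; norm_num), him, hx] at he
    have e : (-⟨H * 0, H' * 0⟩ : ℂ) = 0 := by apply Complex.ext <;> simp
    rw [e] at he
    obtain ⟨-, m, hm⟩ := hκ.inj l 0 _ 0 (by simp) (by simp) he
    have h1 := (h m).1
    have h2 : l - P + m = D * q.1.re := by linarith
    rw [h2, abs_mul, abs_of_pos hD] at h1
    nlinarith
  · rw [L.tip q hq (by rw [hx]; norm_num), him, hx] at he
    have e : (-⟨H * (1 - 1), -(τ * H' * 0)⟩ : ℂ) = 0 := by apply Complex.ext <;> simp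
    rw [e] at he
    obtain ⟨-, m, hm⟩ := hκ.inj l 0 _ 0 (by simp) (by simp) he
    have h1 := (h m).2
    have h2 : l - P₂ + m = τ * D * q.1.re := by linarith
    have h3 : |τ| = 1 := by rcases L.sgn with h3 | h3 <;> rw [h3] <;> norm_num
    rw [h2, abs_mul, abs_mul, h3, abs_of_pos hD, one_mul] at h1
    nlinarith

theorem tub_core {κ : ℝ × ℂ → N} (hκ : Thick κ) {B W : E → N} (S : SP (core κ) B W) {P P₂ D H H' τ : ℝ}
    (L : Lnk κ B P P₂ D H H' τ) {l : ℝ} (h : ∀ k : ℤ, D / 2 < |l - P + k| ∧ D / 2 < |l - P₂ + k|) :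
    κ (l, 0) ∉ QC B W := by
  have hK : κ (l, 0) ∈ core κ := ⟨l, rfl⟩
  rintro (⟨q, hq, he⟩ | ⟨q, hq, he⟩)
  · have hqT : q ∈ TD := Slab_sub (QCB_sub hq)
    have h1 : B q ∈ B '' TSB := by
      rw [← S.hitB]
      exact ⟨by rw [he]; exact hK, q, hqT, rfl⟩
    obtain ⟨q', hq', he'⟩ := h1
    have h2 := S.chtB.inj hq'.1 hqT he'
    rw [h2] at hq'
    exact tub_aux hκ L h hqT hq'.2.1 hq.1 hq'.2.2 he.symm
  · have hqT : q ∈ TD := QCW_sub hq
    have h1 : W q ∈ W '' TS2 := by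
      rw [← S.hitW]
      exact ⟨by rw [he]; exact hK, q, hqT, rfl⟩
    obtain ⟨q', hq', he'⟩ := h1
    have h2 := S.chtW.inj hq'.1 hqT he'
    rw [h2] at hq'
    obtain ⟨a1, a2, a3, a4, a5⟩ := hq
    rw [abs_le] at a1
    rcases hq'.2 with ⟨h3, h4⟩ | ⟨h3, h4⟩
    · have h5 : -(32 * q.1.im) = 0 ∨ -(32 * q.1.im) = 1 := by
        rcases h4 with h4 | h4 <;> rw [h4] <;> norm_num
      have h6 : -(9 / 64) ≤ -(32 * q.1.im) := by rcases h5 with h5 | h5 <;> rw [h5] <;> norm_num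
      have h7 : -(32 * q.1.im) ≤ 73 / 64 := by rcases h5 with h5 | h5 <;> rw [h5] <;> norm_num
      have h8 := S.relA q hqT (by rw [h3]; norm_num) h6 h7
      rw [he] at h8
      have i1 : (ja q).1.re = q.1.re / 64 := rfl
      have i2 : (ja q).1.im = q.2 / 64 := rfl
      have i3 : (ja q).2 = -(32 * q.1.im) := rfl
      have h9 : |(ja q).1.re| ≤ 1 / 2 := by
        rw [i1, abs_le]
        constructor <;> linarith [a1.1, a1.2]
      have h10 : (ja q).1.im = 0 := by rw [i2, h3]; norm_num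
      have h11 : ja q ∈ TD := by
        refine ⟨?_, ?_, ?_⟩
        · refine (Complex.norm_le_abs_re_add_abs_im _).trans_lt ?_
          rw [h10, abs_zero]
          linarith
        · rw [i3]; linarith
        · rw [i3]; linarith
      exact tub_aux hκ L h h11 h10 h9 (by rw [i3]; exact h5) h8
    · have h5 : -(32 * q.1.re) = 0 ∨ -(32 * q.1.re) = 1 := by
        rcases h4 with h4 | h4 <;> rw [h4] <;> norm_num
      have h6 : -(9 / 64) ≤ -(32 * q.1.re) := by rcases h5 with h5 | h5 <;> rw [h5] <;> norm_num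
      have h7 : -(32 * q.1.re) ≤ 73 / 64 := by rcases h5 with h5 | h5 <;> rw [h5] <;> norm_num
      have h8 := S.relB q hqT (by rw [h3]; norm_num) h6 h7
      rw [he] at h8
      have i1 : (jb q).1.re = 5 / 16 + q.1.im / 64 := rfl
      have i2 : (jb q).1.im = (1 - q.2) / 64 := rfl
      have i3 : (jb q).2 = -(32 * q.1.re) := rfl
      have h9 : |(jb q).1.re| ≤ 1 / 2 := by
        rw [i1, abs_le]
        constructor <;> linarith
      have h10 : (jb q).1.im = 0 := by rw [i2, h3]; norm_num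
      have h11 : jb q ∈ TD := by
        refine ⟨?_, ?_, ?_⟩
        · refine (Complex.norm_le_abs_re_add_abs_im _).trans_lt ?_
          rw [h10, abs_zero]
          linarith
        · rw [i3]; linarith
        · rw [i3]; linarith
      exact tub_aux hκ L h h11 h10 h9 (by rw [i3]; exact h5) h8

theorem tube_off [T2Space N] {κ : ℝ × ℂ → N} (hκ : Thick κ) {B W : E → N} (S : SP (core κ) B W) {P P₂ D H H' τ : ℝ}
    (L : Lnk κ B P P₂ D H H' τ) {l₁ l₂ : ℝ} (h : ∀ l ∈ Icc l₁ l₂, ∀ k : ℤ, D / 2 < |l - P + k| ∧ D / 2 < |l - P₂ + k|) :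
    ∃ r : ℝ, 0 < r ∧ r < 1 ∧ ∀ l ∈ Icc l₁ l₂, ∀ v : ℂ, ‖v‖ ≤ r → κ (l, v) ∉ QC B W := by
  have hU : IsOpen {q : ℝ × ℂ | ‖q.2‖ < 1} := isOpen_lt (by fun_prop) continuous_const
  have hn : IsOpen ({q : ℝ × ℂ | ‖q.2‖ < 1} ∩ κ ⁻¹' (QC B W)ᶜ) :=
    (thick_cont hκ).isOpen_inter_preimage hU (QC_compact S).isClosed.isOpen_compl
  have hsub : Icc l₁ l₂ ×ˢ ({0} : Set ℂ) ⊆ {q : ℝ × ℂ | ‖q.2‖ < 1} ∩ κ ⁻¹' (QC B W)ᶜ := by
    rintro ⟨l, v⟩ ⟨hl, hv⟩
    rw [mem_singleton_iff] at hv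
    simp only at hv
    rw [hv]
    refine ⟨?_, tub_core hκ S L (h l hl)⟩
    change ‖(0 : ℂ)‖ < 1
    simp
  obtain ⟨u, v, -, hv, hu', hv', huv⟩ := generalized_tube_lemma isCompact_Icc isCompact_singleton hn hsub
  obtain ⟨ε, hε, hball⟩ := Metric.isOpen_iff.1 hv 0 (hv' rfl)
  refine ⟨min (ε / 2) (1 / 2), lt_min (by linarith) (by norm_num), (min_le_right _ _).trans_lt (by norm_num), ?_⟩
  intro l hl w hw
  have h1 : w ∈ v := by
    apply hball
    rw [Metric.mem_ball, dist_zero_right]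
    exact (hw.trans (min_le_left _ _)).trans_lt (by linarith)
  exact (huv (show ((l, w) : ℝ × ℂ) ∈ u ×ˢ v from ⟨hu' hl, h1⟩)).2

end Pool.Agent.NHR
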