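import Mathlib
import Pool.Agent.NHR.Defs
import Pool.Agent.NHR.Grp
import Pool.Agent.NHR.Exi
import Pool.Agent.NHR.Cmn
import Pool.Agent.NHR.Tub
import Pool.Agent.NHR.Pa1
import Pool.Agent.NHR.Iw1
import Pool.Agent.NHR.Id1
import Pool.Agent.NHR.IdB

/-!
# NHR/R1: relation (1) (difficulty 4)

Show: `kn K T ~ kn K T'` if `FinV c T`, `FinV (g x g⁻¹ c) T'`, `x = (e b e⁻¹) b (e b e⁻¹)⁻¹ b⁻¹`.
(1) `finV_ex`: a chord `T₂` of class `g c`; `exists_config` for `T₁ = T` (class `c`) and `T₂`.  (2) as in `R3`: `η`, thinner chords `T₁''`, `T₂''` with the same parameters `η'`, `ε'`, foot `p`, tip `p'`, disjoint from `QC`.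
(3) `path1`: the loop `f` at `κ (p, ρ)`, `ρ = η' ε' / 8`.  The path `k = cor T₂'' · (cor T₁'')⁻¹ · f · cor T₁'' · (cor T₂'')⁻¹ · cor T₁''` (nested `cat`, `rv`) is in `(core κ)ᶜ ∩ (QC)ᶜ`; `E1V` with `O = (QC)ᶜ`: `T₃`, class in
`(core κ)ᶜ`: `(g c) c⁻¹ x c (g c)⁻¹ c = g x g⁻¹ c` (`Id1`, `IdB`); class in `(core (kW κ W η))ᶜ`: the one of `T₁''` (`Iw1`).
(4) `rib_kn`, `finE_kW`, `finV_uniq` for `kW κ W η`: `kn K T₃ ~ kn KW T₃ ~ kn KW T₁'' ~ kn K T₁'' ~ kn K T`; `finV_uniq` for `κ`.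
-/

open scoped Manifold ContDiff Topology
open Set Filter
open Pool.Agent.CSG (stp)
open Pool.Agent.RSG (E3 ex Thick)
open Pool.Agent.KNT (Dom Str Str2 bmp)
open Pool.Agent.NHP

namespace Pool.Agent.NHR

universe u v

variable {N : Type u} [TopologicalSpace N] [ChartedSpace E3 N] [T2Space N] {Γ : Type v} [Group Γ]

universe w

omit [TopologicalSpace N] [ChartedSpace E3 N] [T2Space N] in
theorem R1_num {p P p₀ P₂ p' D : ℝ} (hD : 0 < D) (h : Pos p P p₀ P₂ p' D) :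
    (∀ l ∈ Icc (p - D / 4) (P - 3 / 4 * D), ∀ k : ℤ, D / 2 < |l - P + k| ∧ D / 2 < |l - P₂ + k|) ∧
    ∀ l ∈ Icc (p' - D / 4) (p' + D / 4), ∀ k : ℤ, D / 2 < |l - P + k| ∧ D / 2 < |l - P₂ + k| := by
  have h1 := h.h1
  have h2 := h.h2
  have h3 := h.h3
  have h4 := h.h4
  have h5 := h.h5
  constructor
  · intro l hl k
    have hl1 := hl.1
    have hl2 := hl.2
    rcases le_or_gt k 0 with hk | hk
    · have hk' : (k : ℝ) ≤ 0 := by exact_mod_cast hk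
      constructor
      · rw [abs_of_neg (by linarith)]; linarith
      · rw [abs_of_neg (by linarith)]; linarith
    · have hk' : (1 : ℝ) ≤ k := by exact_mod_cast hk
      constructor
      · rw [abs_of_pos (by linarith)]; linarith
      · rw [abs_of_pos (by linarith)]; linarith
  · intro l hl k
    have hl1 := hl.1
    have hl2 := hl.2
    rcases le_or_gt 0 k with hk | hk
    · have hk' : (0 : ℝ) ≤ k := by exact_mod_cast hk
      constructor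
      · rw [abs_of_pos (by linarith)]; linarith
      · rw [abs_of_pos (by linarith)]; linarith
    · have hk1 : k ≤ -1 := by omega
      have hk' : (k : ℝ) ≤ -1 := by exact_mod_cast hk1
      constructor
      · rw [abs_of_neg (by linarith)]; linarith
      · rw [abs_of_neg (by linarith)]; linarith

/-- composition with a homomorphism of groups -/
def R1_map {M : Type u} [TopologicalSpace M] {Y : Set M} {Γ₁ : Type v} [Group Γ₁] {Γ₂ : Type w} [Group Γ₂] (G : GHom Y Γ₁)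
    (φ : Γ₁ →* Γ₂) : GHom Y Γ₂ where
  val f := φ (G.val f)
  hmt f g h := by rw [G.hmt f g h]
  ct f g hf hg h := by rw [G.ct f g hf hg h, map_mul]

omit [T2Space N] [Group Γ] in
theorem R1_ex {Y : Set N} {Γ₁ : Type v} [Group Γ₁] {Γ₂ : Type w} [Group Γ₂] (G : GHom Y Γ₁)
    (φ : Γ₁ →* Γ₂) (κ : ℝ × ℂ → N) (B W : E → N) (p P D H ρ : ℝ) :
    ex1 (R1_map G φ) κ B W p P D H ρ = φ (ex1 G κ B W p P D H ρ) := by
  simp only [ex1, In1, In, RL, Lw, R1_map, map_mul, map_inv]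

omit [T2Space N] in
/-- the path of `path1`, with values in groups of two universes -/
theorem R1_path {κ : ℝ × ℂ → N} (hκ : Thick κ) {B W : E → N} (S : SP (core κ) B W) {P P₂ D H H' τ : ℝ}
    (L : Lnk κ B P P₂ D H H' τ) {p ρ : ℝ} (hp : p < P - D) (h0 : 0 < ρ) (h1 : ρ ≤ H / 16)
    (hoff : ∀ l ∈ Icc p (P - 3 / 4 * D), κ (l, (ρ : ℂ)) ∉ QC B W) :
    ∃ f : ℝ → N, PathOn ((core κ)ᶜ ∩ (QC B W)ᶜ) f ∧ f 0 = κ (p, (ρ : ℂ)) ∧ f 1 = κ (p, (ρ : ℂ)) ∧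
      (∀ (Y : Set N) (Γ : Type v) (_ : Group Γ) (G : GHom Y Γ), (core κ)ᶜ ∩ (QC B W)ᶜ ⊆ Y →
        G.val f = ex1 G κ B W p P D H ρ) ∧
      (∀ (Y : Set N) (Γ : Type w) (_ : Group Γ) (G : GHom Y Γ), (core κ)ᶜ ∩ (QC B W)ᶜ ⊆ Y →
        G.val f = ex1 G κ B W p P D H ρ) := by
  obtain ⟨f, hf, hf0, hf1, hG⟩ := path1.{u, max v w} hκ S L hp h0 h1 hoff
  refine ⟨f, hf, hf0, hf1, ?_, ?_⟩
  · intro Y Γ _ G hY
    have h := hG Y (ULift.{w} Γ) inferInstance (R1_map G (MulEquiv.ulift.symm : Γ ≃* ULift.{w} Γ).toMonoidHom) hY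
    rw [R1_ex] at h
    exact (MulEquiv.ulift.symm : Γ ≃* ULift.{w} Γ).injective h
  · intro Y Γ _ G hY
    have h := hG Y (ULift.{v} Γ) inferInstance (R1_map G (MulEquiv.ulift.symm : Γ ≃* ULift.{v} Γ).toMonoidHom) hY
    rw [R1_ex] at h
    exact (MulEquiv.ulift.symm : Γ ≃* ULift.{v} Γ).injective h

omit [ChartedSpace E3 N] [T2Space N] [Group Γ] in
/-- the conjugated path -/
theorem R1_k {Y : Set N} {c1 c2 f : ℝ → N} (h1 : PathOn Y c1) (h2 : PathOn Y c2) (hf : PathOn Y f) {a b : N} (h10 : c1 0 = a)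
    (h11 : c1 1 = b) (h20 : c2 0 = a) (h21 : c2 1 = b) (hf0 : f 0 = a) (hf1 : f 1 = a) :
    ∃ k : ℝ → N, PathOn Y k ∧ k 0 = a ∧ k 1 = b ∧
      (∀ (Y' : Set N) (Γ : Type v) (_ : Group Γ) (G : GHom Y' Γ), Y ⊆ Y' →
        G.val k = G.val c2 * (G.val c1)⁻¹ * G.val f * G.val c1 * (G.val c2)⁻¹ * G.val c1) ∧
      (∀ (Y' : Set N) (Γ : Type w) (_ : Group Γ) (G : GHom Y' Γ), Y ⊆ Y' →
        G.val k = G.val c2 * (G.val c1)⁻¹ * G.val f * G.val c1 * (G.val c2)⁻¹ * G.val c1) := by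
  have e1 : c2 1 = rv c1 0 := by rw [rv_zero, h11, h21]
  have k1 := h2.cat h1.rv e1
  have e2 : cat c2 (rv c1) 1 = f 0 := by rw [cat_one, rv_one, h10, hf0]
  have k2 := k1.cat hf e2
  have e3 : cat (cat c2 (rv c1)) f 1 = c1 0 := by rw [cat_one, h10, hf1]
  have k3 := k2.cat h1 e3
  have e4 : cat (cat (cat c2 (rv c1)) f) c1 1 = rv c2 0 := by rw [cat_one, rv_zero, h11, h21]
  have k4 := k3.cat h2.rv e4
  have e5 : cat (cat (cat (cat c2 (rv c1)) f) c1) (rv c2) 1 = c1 0 := by rw [cat_one, rv_one, h20, h10]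
  have k5 := k4.cat h1 e5
  refine ⟨_, k5, ?_, ?_, ?_, ?_⟩
  · rw [cat_zero, cat_zero, cat_zero, cat_zero, cat_zero, h20]
  · rw [cat_one, h11]
  · intro Y' Γ _ G hY
    rw [G.ct _ _ (k4.mono hY) (h1.mono hY) e5, G.ct _ _ (k3.mono hY) (h2.rv.mono hY) e4,
      G.ct _ _ (k2.mono hY) (h1.mono hY) e3, G.ct _ _ (k1.mono hY) (hf.mono hY) e2,
      G.ct _ _ (h2.mono hY) (h1.rv.mono hY) e1, G.val_rv (h1.mono hY), G.val_rv (h2.mono hY)]
  · intro Y' Γ _ G hY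
    rw [G.ct _ _ (k4.mono hY) (h1.mono hY) e5, G.ct _ _ (k3.mono hY) (h2.rv.mono hY) e4,
      G.ct _ _ (k2.mono hY) (h1.mono hY) e3, G.ct _ _ (k1.mono hY) (hf.mono hY) e2,
      G.ct _ _ (h2.mono hY) (h1.rv.mono hY) e1, G.val_rv (h1.mono hY), G.val_rv (h2.mono hY)]

omit [TopologicalSpace N] [ChartedSpace E3 N] [T2Space N] [Group Γ] in
theorem R1_adm {p P p₀ P₂ p' D ε : ℝ} (hD : 0 < D) (hD1 : D < 1 / 4) (h : Pos p P p₀ P₂ p' D) (hε : 0 < ε) (h1 : ε ≤ D / 16)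
    (h2 : ε ≤ (p + 1 - p') / 16) : Adm p p' (4 * ε) := by
  refine ⟨by positivity, by linarith, ?_⟩
  intro k
  have h1' := h.h1
  have h2' := h.h2
  have h3 := h.h3
  have h4 := h.h4
  have h5 := h.h5
  rcases le_or_gt k 0 with hk | hk
  · have hk' : (k : ℝ) ≤ 0 := by exact_mod_cast hk
    rw [abs_of_neg (by linarith)]; linarith
  · have hk' : (1 : ℝ) ≤ k := by exact_mod_cast hk
    rw [abs_of_pos (by linarith)]; linarith

/-- the main part: a special configuration and two chords off its support -/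
theorem R1_main (ext : Ext N) {κ : ℝ × ℂ → N} (hκ : Thick κ) (G : GHom (core κ)ᶜ Γ) {p P p₀ P₂ p' D H H' τ : ℝ}
    {B W : E → N} (hpos : Pos p P p₀ P₂ p' D) (L : Lnk κ B P P₂ D H H' τ) (S : SP (core κ) B W) {b e g c : Γ}
    (hbb : b = bet G κ B p P D H) (hee : e = lbe G κ B W p P D H) {T₁' T₂' : E → N}
    (hV1 : FinV G κ p p' c T₁') (hd1 : Disjoint (T₁' '' TD) (QC B W))
    (hV2 : FinV G κ p p' (g * c) T₂') (hd2 : Disjoint (T₂' '' TD) (QC B W)) :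
    ∃ T₃, FinV G κ p p' (g * ((e * b * e⁻¹) * b * (e * b * e⁻¹)⁻¹ * b⁻¹) * g⁻¹ * c) T₃ ∧
      LEqN (kn (core κ) T₃) (kn (core κ) T₁') := by
  have hD := L.Dpos
  have hH := L.Hpos
  obtain ⟨hn1, hn2⟩ := R1_num hD hpos
  obtain ⟨r₀, hr₀, hr₀1, hkW⟩ := kW_thick hκ S
  obtain ⟨r₁, hr₁, hr₁1, hoff1⟩ := tube_off hκ S L hn1
  obtain ⟨r₂, hr₂, hr₂1, hoff2⟩ := tube_off hκ S L hn2
  obtain ⟨s₁, hs₁, hth1⟩ := thnV ext hκ G hV1 isOpen_univ (fun x _ => mem_univ _)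
  obtain ⟨s₂, hs₂, hth2⟩ := thnV ext hκ G hV2 isOpen_univ (fun x _ => mem_univ _)
  set η : ℝ := min r₀ (min r₁ r₂) with hη
  have hη0 : 0 < η := by positivity
  have hηr0 : η ≤ r₀ := min_le_left _ _
  have hηr1 : η ≤ r₁ := (min_le_right _ _).trans (min_le_left _ _)
  have hηr2 : η ≤ r₂ := (min_le_right _ _).trans (min_le_right _ _)
  have hη1 : η ≤ 1 := hηr0.trans hr₀1
  set η' : ℝ := min η (min (min s₁ s₂) (H / 16)) with hη'
  have hη'0 : 0 < η' := by positivity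
  have hη'η : η' ≤ η := min_le_left _ _
  have hη's1 : η' ≤ s₁ := (min_le_right _ _).trans ((min_le_left _ _).trans (min_le_left _ _))
  have hη's2 : η' ≤ s₂ := (min_le_right _ _).trans ((min_le_left _ _).trans (min_le_right _ _))
  have hη'H : η' ≤ H / 16 := (min_le_right _ _).trans (min_le_right _ _)
  have hpp : 0 < (p + 1 - p') / 16 := by linarith [hpos.h5]
  set ε' : ℝ := min (min (D / 16) ((p + 1 - p') / 16)) (min s₁ s₂) with hε'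
  have hε'0 : 0 < ε' := by positivity
  have hε'D16 : ε' ≤ D / 16 := (min_le_left _ _).trans (min_le_left _ _)
  have hε'p : ε' ≤ (p + 1 - p') / 16 := (min_le_left _ _).trans (min_le_right _ _)
  have hε'D : ε' ≤ D / 4 := by linarith
  have hε's1 : ε' ≤ s₁ := (min_le_right _ _).trans (min_le_left _ _)
  have hε's2 : ε' ≤ s₂ := (min_le_right _ _).trans (min_le_right _ _)
  clear_value η η' ε'
  obtain ⟨T₁, hF1, hc1, -, hcl1, hl1⟩ := hth1 η' ε' hη'0 hη's1 hε'0 hε's1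
  obtain ⟨T₂'', hF2, hc2, -, hcl2, hl2⟩ := hth2 η' ε' hη'0 hη's2 hε'0 hε's2
  have hDis1 : Disjoint (T₁ '' TD) (QC B W) :=
    hd1.mono_left (subset_closure.trans (hcl1.trans inter_subset_right))
  have hDis2 : Disjoint (T₂'' '' TD) (QC B W) :=
    hd2.mono_left (subset_closure.trans (hcl2.trans inter_subset_right))
  have hD4 := L.Dlt
  have hε1 : ε' < 1 / 4 := hF1.adm.lt
  set ρ : ℝ := η' * ε' / 8 with hρ
  have hρ0 : 0 < ρ := by positivity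
  have hρη : ρ ≤ η' := by rw [hρ]; nlinarith
  have hρH : ρ ≤ H / 16 := hρη.trans hη'H
  have hnρ : ‖(ρ : ℂ)‖ ≤ η := by
    rw [Complex.norm_real, Real.norm_of_nonneg hρ0.le]
    linarith
  have hofp : ∀ l ∈ Icc p (P - 3 / 4 * D), κ (l, (ρ : ℂ)) ∉ QC B W := by
    intro l hl
    exact hoff1 l ⟨by linarith [hl.1], hl.2⟩ _ (hnρ.trans hηr1)
  obtain ⟨hkT, hkc⟩ := hkW η hη0 hηr0
  -- the homomorphism for the new knot
  obtain ⟨Γ', iΓ', G', hG'⟩ := exists_GHom (ext.Pcn _ hkT)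
  obtain ⟨f, hf, hf0, hf1, hfG, hfG'⟩ := R1_path.{u, v, u} hκ S L hpos.h1 hρ0 hρH hofp
  have hcor : ∀ T₀ : E → N, FinE κ p p' η' ε' T₀ → Disjoint (T₀ '' TD) (QC B W) →
      PathOn ((core κ)ᶜ ∩ (QC B W)ᶜ) (cor T₀) := by
    intro T₀ h hd
    have h1 := cor_path h
    refine ⟨h1.1, fun t ht => ⟨h1.2 t ht, fun hq => ?_⟩⟩
    refine disjoint_left.1 hd ⟨((0 : ℂ), 1 / 8 + 3 / 4 * t), ?_, rfl⟩ hq
    refine ⟨by simp, ?_, ?_⟩
    · show -(1 / 4) < 1 / 8 + 3 / 4 * t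
      linarith [ht.1]
    · show 1 / 8 + 3 / 4 * t < 5 / 4
      linarith [ht.2]
  have hcp1 := hcor _ hF1 hDis1
  have hcp2 := hcor _ hF2 hDis2
  obtain ⟨e10, e11⟩ := cor_ends hF1
  obtain ⟨e20, e21⟩ := cor_ends hF2
  obtain ⟨k, hk, hk0, hk1, hkG, hkG'⟩ := R1_k.{u, v, u} hcp1 hcp2 hf e10 e11 e20 e21 hf0 hf1
  have hQo : IsOpen (QC B W)ᶜ := (QC_compact S).isClosed.isOpen_compl
  have hofe : ∀ l : ℝ, |l - p| < D / 4 → ∀ v : ℂ, ‖v‖ ≤ η → κ (l, v) ∉ QC B W := by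
    intro l hl v hv
    rw [abs_lt] at hl
    exact hoff1 l ⟨by linarith [hl.1], by linarith [hl.2, hpos.h1]⟩ v (hv.trans hηr1)
  have hofe' : ∀ l : ℝ, |l - p'| < D / 4 → ∀ v : ℂ, ‖v‖ ≤ η → κ (l, v) ∉ QC B W := by
    intro l hl v hv
    rw [abs_lt] at hl
    exact hoff2 l ⟨by linarith [hl.1], by linarith [hl.2]⟩ v (hv.trans hηr2)
  have hηε : 4 * (η' * ε') ≤ η := by nlinarith
  have hηε0 : 0 < η' * ε' := by positivity
  have hadm4 : Adm p p' (4 * ε') := R1_adm hD hD4 hpos hε'0 hε'D16 hε'p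
  obtain ⟨T₃, hF3, hT3O, hT3h⟩ := E1V ext hκ hη'0 (hη'η.trans hη1) hF1.adm hadm4 hQo
    (fun l hl v hv => hofe l (by linarith) v (by linarith))
    (fun l hl v hv => hofe' l (by linarith) v (by linarith))
    (f := k) (by rw [sdiff_eq, inter_comm]; exact hk) hk0 hk1
  have hDis3 : Disjoint (T₃ '' TD) (QC B W) := disjoint_left.2 fun y hy hq => hT3O hy hq
  -- the class in the complement of `K`
  have hsub : (core κ)ᶜ ∩ (QC B W)ᶜ ⊆ (core κ)ᶜ := inter_subset_left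
  have hv3 : G.val (cor T₃) = G.val k := G.hmt _ _ (hT3h.mono (by rw [sdiff_eq]; exact inter_subset_right))
  have hid := Id1 hκ S G L p hρ0 hρH hbb hee
  have hkv := hkG (core κ)ᶜ Γ inferInstance G hsub
  rw [hfG (core κ)ᶜ Γ inferInstance G hsub] at hkv
  have hV3 : FinV G κ p p' (g * ((e * b * e⁻¹) * b * (e * b * e⁻¹)⁻¹ * b⁻¹) * g⁻¹ * c) T₃ := by
    refine ⟨η', ε', hF3, ?_⟩
    rw [← hid]
    unfold clV at hc1 hc2 ⊢
    rw [hv3, hkv]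
    rw [← hρ] at hc1 hc2 ⊢
    generalize G.val (seg κ (p, 1 / 2) (p, (ρ : ℂ))) = A at hc1 hc2 ⊢
    generalize G.val (seg κ (p', (ρ : ℂ)) (p', 1 / 2)) = A' at hc1 hc2 ⊢
    generalize G.val (cor T₁) = v1 at hc1 hc2 ⊢
    generalize G.val (cor T₂'') = v2 at hc1 hc2 ⊢
    generalize ex1 G κ B W p P D H ρ = x
    have hv2 : v2 = A⁻¹ * (g * c) * A'⁻¹ := by rw [← hc2]; group
    have hg : v1 = A⁻¹ * c * A'⁻¹ := by rw [← hc1]; group
    rw [hv2, hg]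
    group
  -- the class in the complement of `KW`
  have hsub' : (core κ)ᶜ ∩ (QC B W)ᶜ ⊆ (core (kW κ W η))ᶜ := by
    rintro y ⟨hy, hyq⟩ hyk
    rw [hkc, KW_off S hyq] at hyk
    exact hy hyk
  have hv3' : G'.val (cor T₃) = G'.val k := G'.hmt _ _ (hT3h.mono (by
    rw [sdiff_eq, inter_comm]; exact hsub'))
  have hkv' := hkG' (core (kW κ W η))ᶜ Γ' inferInstance G' hsub'
  rw [hfG' (core (kW κ W η))ᶜ Γ' inferInstance G' hsub', Iw1 S (by rw [hkc]) G' p P D H ρ] at hkv'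
  have hE1 := (finE_kW S hη0 hkc hη'0 hη'η hη1 hε'D hofe hofe' hDis1).2 hF1
  have hE3 := (finE_kW S hη0 hkc hη'0 hη'η hη1 hε'D hofe hofe' hDis3).2 hF3
  have hcl : clV G' (kW κ W η) p p' (η' / η) ε' T₃ = clV G' (kW κ W η) p p' (η' / η) ε' T₁ := by
    unfold clV
    rw [hv3', hkv']
    group
  have hu : LEqN (kn (core (kW κ W η)) T₃) (kn (core (kW κ W η)) T₁) :=
    finV_uniq ext hkT G' hG' (c := clV G' (kW κ W η) p p' (η' / η) ε' T₁) ⟨_, _, hE3, hcl⟩ ⟨_, _, hE1, rfl⟩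
  rw [hkc] at hu
  have a2 := rib_kn S hDis3 hF3.chd
  have a3 := rib_kn S hDis1 hF1.chd
  exact ⟨T₃, hV3, a2.trans (hu.trans (a3.symm.trans hl1.symm))⟩

/-- the relation follows from the existence of configurations -/
theorem R1_of_config (ext : Ext N) {κ : ℝ × ℂ → N} (hκ : Thick κ) (G : GHom (core κ)ᶜ Γ) (hG : Full G) {p p' : ℝ}
    (hp : p < p') (hp' : p' < p + 1) (e g : Γ) {b : Γ}
    (hconf : ∀ (c₁ c₂ : Γ) (T₁ T₂ : E → N), FinV G κ p p' c₁ T₁ → FinV G κ p p' c₂ T₂ →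
      ∃ (P p₀ P₂ D H H' τ : ℝ) (B W T₁' T₂' : E → N), Pos p P p₀ P₂ p' D ∧ Lnk κ B P P₂ D H H' τ ∧ SP (core κ) B W ∧
      b = bet G κ B p P D H ∧ e = lbe G κ B W p P D H ∧
      FinV G κ p p' c₁ T₁' ∧ LEqN (kn (core κ) T₁) (kn (core κ) T₁') ∧ Disjoint (T₁' '' TD) (QC B W) ∧
      FinV G κ p p' c₂ T₂' ∧ LEqN (kn (core κ) T₂) (kn (core κ) T₂') ∧ Disjoint (T₂' '' TD) (QC B W)) :
    g * ((e * b * e⁻¹) * b * (e * b * e⁻¹)⁻¹ * b⁻¹) * g⁻¹ ∈ Lset G κ p p' := by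
  intro c T T' hT hT'
  obtain ⟨T₂, hT₂⟩ := finV_ex ext hκ G hG hp hp' (g * c)
  obtain ⟨P, p₀, P₂, D, H, H', τ, B, W, T₁', T₂', hpos, L, S, hbb, hee, hV1, hq1, hd1, hV2, -, hd2⟩ :=
    hconf c (g * c) T' T₂ hT' hT₂
  obtain ⟨T₃, hV3, h3⟩ := R1_main ext hκ G hpos L S hbb hee hV1 hd1 hV2 hd2
  exact (finV_uniq ext hκ G hG hT hV3).trans (h3.trans hq1.symm)

theorem R1 (ext : Ext N) {κ : ℝ × ℂ → N} (hκ : Thick κ) (G : GHom (core κ)ᶜ Γ) (hG : Full G) {p p' : ℝ}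
    (hp : p < p') (hp' : p' < p + 1) (a e g : Γ) {b : Γ}
    (hb : b = G.val (mer κ p (1 / 2)) * a * (G.val (mer κ p (1 / 2)))⁻¹ * a⁻¹) :
    g * ((e * b * e⁻¹) * b * (e * b * e⁻¹)⁻¹ * b⁻¹) * g⁻¹ ∈ Lset G κ p p' := by
  refine R1_of_config ext hκ G hG hp hp' e g ?_
  intro c₁ c₂ T₁ T₂ h₁ h₂
  obtain ⟨P, p₀, P₂, D, H, H', B, W, T₁', T₂', hpos, L, S, hla, hle, hV1, hq1, hd1, hV2, hq2, hd2⟩ :=
    exists_config ext hκ G hG hp hp' a e h₁ h₂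
  exact ⟨P, p₀, P₂, D, H, H', -1, B, W, T₁', T₂', hpos, L, S, by rw [IdB hκ S G L p, hla, hb], hle.symm, hV1, hq1, hd1,
    hV2, hq2, hd2⟩

end Pool.Agent.NHR
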