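import Mathlib
import Pool.Agent.NHR.Defs
import Pool.Agent.NHR.Grp
import Pool.Agent.NHR.Exip
import Pool.Agent.NHR.Cmn
import Pool.Agent.NHR.Tub
import Pool.Agent.NHR.Pa1
import Pool.Agent.NHR.Iw1
import Pool.Agent.NHR.Id1
import Pool.Agent.NHR.IdBp
import Pool.Agent.NHR.R1

/-!
# NHR/R1p: parallel strands: the relation of `R1` with `b = m (a m a⁻¹)` (difficulty 2, copy of `R1` with `τ = 1`)

Same proof as `NHR/R1` (copy it from the store when it is done), with `exists_configP` (`τ = 1`) instead of `exists_config` and `IdBp` instead of `IdB`.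
-/

open scoped Manifold ContDiff Topology
open Set Filter
open Pool.Agent.CSG (stp)
open Pool.Agent.RSG (E3 ex Thick)
open Pool.Agent.KNT (Dom Str Str2 bmp)
open Pool.Agent.NHP

namespace Pool.Agent.NHR

universe u v

variable {N : Type u} [TopologicalSpace N] [ChartedSpace E3 N] [T2Space N] {Γ : Type v} [Group Γ]

theorem R1p (ext : Ext N) {κ : ℝ × ℂ → N} (hκ : Thick κ) (G : GHom (core κ)ᶜ Γ) (hG : Full G) {p p' : ℝ}
    (hp : p < p') (hp' : p' < p + 1) (a e g : Γ) {b : Γ}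
    (hb : b = G.val (mer κ p (1 / 2)) * (a * G.val (mer κ p (1 / 2)) * a⁻¹)) :
    g * ((e * b * e⁻¹) * b * (e * b * e⁻¹)⁻¹ * b⁻¹) * g⁻¹ ∈ Lset G κ p p' := by
  refine R1_of_config ext hκ G hG hp hp' e g ?_
  intro c₁ c₂ T₁ T₂ h₁ h₂
  obtain ⟨P, p₀, P₂, D, H, H', B, W, T₁', T₂', hpos, L, S, hla, hle, hV1, hq1, hd1, hV2, hq2, hd2⟩ :=
    exists_configP ext hκ G hG hp hp' a e h₁ h₂
  exact ⟨P, p₀, P₂, D, H, H', 1, B, W, T₁', T₂', hpos, L, S, by rw [IdBp hκ S G L p, hla, hb], hle.symm, hV1, hq1, hd1,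
    hV2, hq2, hd2⟩

end Pool.Agent.NHR
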