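import Mathlib
import Pool.Agent.NHR.Defs
import Pool.Agent.NHR.MdY

/-!
# NHR/IdL: the path under the horizontal pair (difficulty 3)

As `IdO`, with the roles of the two pairs exchanged (`(re w, im w, x) ↔ (im w, re w, 1 - x)`, `hA i ↔ hB i'`): in the plane `re w = 1/256` the loop
`Lo · v (B⁺, B⁻)` goes down at `im w = -1/4`, along `x = -1/8`, up at `im w = 1/4`, and back; it goes once around the horizontal pair.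
Cut at `x = 1/2`; translate in `re w` to `-1/4` (all in `hB 3`, `x ≤ 1/2`); `BL G B (-(1/256))` in the chart `W` (`W_ja`): plane `re w = -1/4`, points `(im w, x)`:
`(1/256, 0) → (1/256, -1/12) → (-9/256, -1/12) → (-9/256, 1/12) → (1/256, 1/12) → (1/256, 0)`; and `Lo · v (B⁺, B⁻) = Xc⁻¹ BL⁻¹ Xc`.
-/

open scoped Manifold ContDiff Topology
open Set Filter
open Pool.Agent.CSG (stp)
open Pool.Agent.RSG (E3 ex Thick)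
open Pool.Agent.KNT (Dom Str Str2 bmp)
open Pool.Agent.NHP

namespace Pool.Agent.NHR

universe u v

theorem IdL_TD {x y z : ℝ} (h : x ^ 2 + y ^ 2 < 1 ∧ -(1 / 4) < z ∧ z < 5 / 4) : P3 x y z ∈ TD := by
  refine ⟨?_, h.2.1, h.2.2⟩
  change ‖(⟨x, y⟩ : ℂ)‖ < 1
  rw [Complex.norm_def, Complex.normSq_mk, Real.sqrt_lt' one_pos]
  nlinarith [h.1]

theorem IdL_A0 {x y z : ℝ} (h : 0 < y) : P3 x y z ∈ hA 0 := h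

theorem IdL_A1 {x y z : ℝ} (h : y < -(1 / 32)) : P3 x y z ∈ hA 1 := h

theorem IdL_A2 {x y z : ℝ} (h : 0 < z) : P3 x y z ∈ hA 2 := h

theorem IdL_A3 {x y z : ℝ} (h : z < 0) : P3 x y z ∈ hA 3 := h

theorem IdL_B0 {x y z : ℝ} (h : 0 < x) : P3 x y z ∈ hB 0 := h

theorem IdL_B1 {x y z : ℝ} (h : x < -(1 / 32)) : P3 x y z ∈ hB 1 := h

theorem IdL_B2 {x y z : ℝ} (h : 1 < z) : P3 x y z ∈ hB 2 := h

theorem IdL_B3 {x y z : ℝ} (h : z < 1) : P3 x y z ∈ hB 3 := h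

section
variable {N : Type u} [TopologicalSpace N] [ChartedSpace E3 N] {Γ : Type v} [Group Γ]

theorem IdL_inv {K : Set N} {B W : E → N} (S : SP K B W) (G : GHom Kᶜ Γ) (i j : Fin 4) {p q : E}
    (h : p ∈ TD ∩ hA i ∩ hB j) (h' : q ∈ TD ∩ hA i ∩ hB j) :
    G.val (seg W p q) = (G.val (seg W q p))⁻¹ :=
  W_symm S G i j h' h

/-- from `p` to `q`, through `r` -/
theorem IdL_thr {K : Set N} {B W : E → N} (S : SP K B W) (G : GHom Kᶜ Γ) (i j : Fin 4) {p r q : E}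
    (h : p ∈ TD ∩ hA i ∩ hB j) (h' : r ∈ TD ∩ hA i ∩ hB j) (h'' : q ∈ TD ∩ hA i ∩ hB j) :
    G.val (seg W p q) = G.val (seg W p r) * G.val (seg W r q) :=
  (W_tri S G i j h h' h'').symm

end

variable {N : Type u} [TopologicalSpace N] [ChartedSpace E3 N] {Γ : Type v} [Group Γ]

theorem IdL_BL {K : Set N} {B W : E → N} (S : SP K B W) (G : GHom Kᶜ Γ) :
    BL G B (-(1 / 256)) = G.val (seg W (P3 (-(1 / 4)) (1 / 256) 0) (P3 (-(1 / 4)) (1 / 256) (-(1 / 12)))) *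
      G.val (seg W (P3 (-(1 / 4)) (1 / 256) (-(1 / 12))) (P3 (-(1 / 4)) (-(9 / 256)) (-(1 / 12)))) *
      G.val (seg W (P3 (-(1 / 4)) (-(9 / 256)) (-(1 / 12))) (P3 (-(1 / 4)) (-(9 / 256)) (1 / 12))) *
      G.val (seg W (P3 (-(1 / 4)) (-(9 / 256)) (1 / 12)) (P3 (-(1 / 4)) (1 / 256) (1 / 12))) *
      G.val (seg W (P3 (-(1 / 4)) (1 / 256) (1 / 12)) (P3 (-(1 / 4)) (1 / 256) 0)) := by
  have j0 : ja (P3 (-(1 / 4)) (1 / 256) 0) = P3 (-(1 / 256)) 0 (-(1 / 8)) := by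
    simp only [ja, P3]
    norm_num
  have z0 : (P3 (-(1 / 4)) (1 / 256) 0) ∈ zA := by
    refine ⟨IdL_TD (by norm_num), ?_, ?_, ?_⟩
    · change |(0 : ℝ)| ≤ 1 / 10
      norm_num [abs_le]
    · change -(9 / 64) ≤ -(32 * ((1 / 256) : ℝ))
      norm_num
    · change -(32 * ((1 / 256) : ℝ)) ≤ 73 / 64
      norm_num
  have j1 : ja (P3 (-(1 / 4)) (1 / 256) (-(1 / 12))) = P3 (-(1 / 256)) (-(1 / 768)) (-(1 / 8)) := by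
    simp only [ja, P3]
    norm_num
  have z1 : (P3 (-(1 / 4)) (1 / 256) (-(1 / 12))) ∈ zA := by
    refine ⟨IdL_TD (by norm_num), ?_, ?_, ?_⟩
    · change |((-(1 / 12)) : ℝ)| ≤ 1 / 10
      norm_num [abs_le]
    · change -(9 / 64) ≤ -(32 * ((1 / 256) : ℝ))
      norm_num
    · change -(32 * ((1 / 256) : ℝ)) ≤ 73 / 64
      norm_num
  have j2 : ja (P3 (-(1 / 4)) (-(9 / 256)) (-(1 / 12))) = P3 (-(1 / 256)) (-(1 / 768)) (9 / 8) := by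
    simp only [ja, P3]
    norm_num
  have z2 : (P3 (-(1 / 4)) (-(9 / 256)) (-(1 / 12))) ∈ zA := by
    refine ⟨IdL_TD (by norm_num), ?_, ?_, ?_⟩
    · change |((-(1 / 12)) : ℝ)| ≤ 1 / 10
      norm_num [abs_le]
    · change -(9 / 64) ≤ -(32 * ((-(9 / 256)) : ℝ))
      norm_num
    · change -(32 * ((-(9 / 256)) : ℝ)) ≤ 73 / 64
      norm_num
  have j3 : ja (P3 (-(1 / 4)) (-(9 / 256)) (1 / 12)) = P3 (-(1 / 256)) (1 / 768) (9 / 8) := by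
    simp only [ja, P3]
    norm_num
  have z3 : (P3 (-(1 / 4)) (-(9 / 256)) (1 / 12)) ∈ zA := by
    refine ⟨IdL_TD (by norm_num), ?_, ?_, ?_⟩
    · change |((1 / 12) : ℝ)| ≤ 1 / 10
      norm_num [abs_le]
    · change -(9 / 64) ≤ -(32 * ((-(9 / 256)) : ℝ))
      norm_num
    · change -(32 * ((-(9 / 256)) : ℝ)) ≤ 73 / 64
      norm_num
  have j4 : ja (P3 (-(1 / 4)) (1 / 256) (1 / 12)) = P3 (-(1 / 256)) (1 / 768) (-(1 / 8)) := by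
    simp only [ja, P3]
    norm_num
  have z4 : (P3 (-(1 / 4)) (1 / 256) (1 / 12)) ∈ zA := by
    refine ⟨IdL_TD (by norm_num), ?_, ?_, ?_⟩
    · change |((1 / 12) : ℝ)| ≤ 1 / 10
      norm_num [abs_le]
    · change -(9 / 64) ≤ -(32 * ((1 / 256) : ℝ))
      norm_num
    · change -(32 * ((1 / 256) : ℝ)) ≤ 73 / 64
      norm_num
  have w0 := W_ja S G z0 z1 (W_path S 0 3 ⟨⟨IdL_TD (by norm_num), IdL_A0 (by norm_num)⟩, IdL_B3 (by norm_num)⟩ ⟨⟨IdL_TD (by norm_num), IdL_A0 (by norm_num)⟩, IdL_B3 (by norm_num)⟩)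
  rw [j0, j1] at w0
  have w1 := W_ja S G z1 z2 (W_path S 3 3 ⟨⟨IdL_TD (by norm_num), IdL_A3 (by norm_num)⟩, IdL_B3 (by norm_num)⟩ ⟨⟨IdL_TD (by norm_num), IdL_A3 (by norm_num)⟩, IdL_B3 (by norm_num)⟩)
  rw [j1, j2] at w1
  have w2 := W_ja S G z2 z3 (W_path S 1 3 ⟨⟨IdL_TD (by norm_num), IdL_A1 (by norm_num)⟩, IdL_B3 (by norm_num)⟩ ⟨⟨IdL_TD (by norm_num), IdL_A1 (by norm_num)⟩, IdL_B3 (by norm_num)⟩)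
  rw [j2, j3] at w2
  have w3 := W_ja S G z3 z4 (W_path S 2 3 ⟨⟨IdL_TD (by norm_num), IdL_A2 (by norm_num)⟩, IdL_B3 (by norm_num)⟩ ⟨⟨IdL_TD (by norm_num), IdL_A2 (by norm_num)⟩, IdL_B3 (by norm_num)⟩)
  rw [j3, j4] at w3
  have w4 := W_ja S G z4 z0 (W_path S 0 3 ⟨⟨IdL_TD (by norm_num), IdL_A0 (by norm_num)⟩, IdL_B3 (by norm_num)⟩ ⟨⟨IdL_TD (by norm_num), IdL_A0 (by norm_num)⟩, IdL_B3 (by norm_num)⟩)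
  rw [j4, j0] at w4
  unfold BL
  rw [w0, w1, w2, w3, w4]

theorem IdL_ad {K : Set N} {B W : E → N} (S : SP K B W) (G : GHom Kᶜ Γ) :
    G.val (seg B (P3 (79 / 256) 0 (-(1 / 8))) (P3 (81 / 256) 0 (-(1 / 8)))) =
      G.val (seg W (P3 (1 / 256) (-(1 / 4)) 1) (P3 (1 / 256) (1 / 4) 1)) := by
  have j0 : jb (P3 (1 / 256) (-(1 / 4)) 1) = P3 (79 / 256) 0 (-(1 / 8)) := by
    simp only [jb, P3]
    norm_num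
  have j1 : jb (P3 (1 / 256) (1 / 4) 1) = P3 (81 / 256) 0 (-(1 / 8)) := by
    simp only [jb, P3]
    norm_num
  have z : ∀ y : ℝ, (1 / 256) ^ 2 + y ^ 2 < 1 → P3 (1 / 256) y 1 ∈ zB := by
    intro y hy
    refine ⟨IdL_TD ⟨hy, by norm_num, by norm_num⟩, ?_, ?_, ?_⟩
    · change |(1 : ℝ) - 1| ≤ 1 / 10
      norm_num
    · change -(9 / 64) ≤ -(32 * (1 / 256 : ℝ))
      norm_num
    · change -(32 * (1 / 256 : ℝ)) ≤ 73 / 64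
      norm_num
  have w := W_jb S G (z (-(1 / 4)) (by norm_num)) (z (1 / 4) (by norm_num)) (W_path S 2 0 ⟨⟨IdL_TD (by norm_num), IdL_A2 (by norm_num)⟩, IdL_B0 (by norm_num)⟩ ⟨⟨IdL_TD (by norm_num), IdL_A2 (by norm_num)⟩, IdL_B0 (by norm_num)⟩)
  rw [j0, j1] at w
  exact w

theorem IdL {K : Set N} {B W : E → N} (S : SP K B W) (G : GHom Kᶜ Γ) :
    Lo G W = (Xc G W)⁻¹ * (BL G B (-(1 / 256)))⁻¹ * Xc G W *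
      G.val (seg B (P3 (79 / 256) 0 (-(1 / 8))) (P3 (81 / 256) 0 (-(1 / 8)))) := by
  rw [IdL_BL S G, IdL_ad S G]
  unfold Lo Xc
  have e0 : G.val (seg W (P3 (1 / 256) (-(1 / 4)) 1) (P3 (1 / 256) (-(1 / 4)) (-(1 / 8)))) =
      G.val (seg W (P3 (1 / 256) (-(1 / 4)) 1) (P3 (1 / 256) (-(1 / 4)) (1 / 2))) * G.val (seg W (P3 (1 / 256) (-(1 / 4)) (1 / 2)) (P3 (1 / 256) (-(1 / 4)) (-(1 / 8)))) :=
    IdL_thr S G 1 0 ⟨⟨IdL_TD (by norm_num), IdL_A1 (by norm_num)⟩, IdL_B0 (by norm_num)⟩ ⟨⟨IdL_TD (by norm_num), IdL_A1 (by norm_num)⟩, IdL_B0 (by norm_num)⟩ ⟨⟨IdL_TD (by norm_num), IdL_A1 (by norm_num)⟩, IdL_B0 (by norm_num)⟩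
  have e1 : G.val (seg W (P3 (1 / 256) (-(1 / 4)) 1) (P3 (1 / 256) (-(1 / 4)) (1 / 2))) = (G.val (seg W (P3 (1 / 256) (-(1 / 4)) (1 / 2)) (P3 (1 / 256) (-(1 / 4)) 1)))⁻¹ :=
    IdL_inv S G 1 0 ⟨⟨IdL_TD (by norm_num), IdL_A1 (by norm_num)⟩, IdL_B0 (by norm_num)⟩ ⟨⟨IdL_TD (by norm_num), IdL_A1 (by norm_num)⟩, IdL_B0 (by norm_num)⟩
  have e2 : G.val (seg W (P3 (1 / 256) (-(1 / 4)) (1 / 2)) (P3 (1 / 256) (-(1 / 4)) (-(1 / 8)))) =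
      G.val (seg W (P3 (1 / 256) (-(1 / 4)) (1 / 2)) (P3 (-(1 / 4)) (-(1 / 4)) (-(1 / 8)))) * (G.val (seg W (P3 (1 / 256) (-(1 / 4)) (-(1 / 8))) (P3 (-(1 / 4)) (-(1 / 4)) (-(1 / 8)))))⁻¹ :=
    eq_mul_inv_of_mul_eq (IdL_thr S G 1 3 ⟨⟨IdL_TD (by norm_num), IdL_A1 (by norm_num)⟩, IdL_B3 (by norm_num)⟩ ⟨⟨IdL_TD (by norm_num), IdL_A1 (by norm_num)⟩, IdL_B3 (by norm_num)⟩ ⟨⟨IdL_TD (by norm_num), IdL_A1 (by norm_num)⟩, IdL_B3 (by norm_num)⟩).symm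
  have e3 : G.val (seg W (P3 (1 / 256) (-(1 / 4)) (1 / 2)) (P3 (-(1 / 4)) (-(1 / 4)) (-(1 / 8)))) =
      G.val (seg W (P3 (1 / 256) (-(1 / 4)) (1 / 2)) (P3 (-(1 / 4)) (-(1 / 4)) (1 / 2))) * G.val (seg W (P3 (-(1 / 4)) (-(1 / 4)) (1 / 2)) (P3 (-(1 / 4)) (-(1 / 4)) (-(1 / 8)))) :=
    IdL_thr S G 1 3 ⟨⟨IdL_TD (by norm_num), IdL_A1 (by norm_num)⟩, IdL_B3 (by norm_num)⟩ ⟨⟨IdL_TD (by norm_num), IdL_A1 (by norm_num)⟩, IdL_B3 (by norm_num)⟩ ⟨⟨IdL_TD (by norm_num), IdL_A1 (by norm_num)⟩, IdL_B3 (by norm_num)⟩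
  have e4 : G.val (seg W (P3 (-(1 / 4)) (-(1 / 4)) (1 / 2)) (P3 (-(1 / 4)) (-(1 / 4)) (-(1 / 8)))) =
      G.val (seg W (P3 (-(1 / 4)) (-(1 / 4)) (1 / 2)) (P3 (-(1 / 4)) (-(9 / 256)) (1 / 12))) * G.val (seg W (P3 (-(1 / 4)) (-(9 / 256)) (1 / 12)) (P3 (-(1 / 4)) (-(1 / 4)) (-(1 / 8)))) :=
    IdL_thr S G 1 3 ⟨⟨IdL_TD (by norm_num), IdL_A1 (by norm_num)⟩, IdL_B3 (by norm_num)⟩ ⟨⟨IdL_TD (by norm_num), IdL_A1 (by norm_num)⟩, IdL_B3 (by norm_num)⟩ ⟨⟨IdL_TD (by norm_num), IdL_A1 (by norm_num)⟩, IdL_B3 (by norm_num)⟩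
  have e5 : G.val (seg W (P3 (-(1 / 4)) (-(9 / 256)) (1 / 12)) (P3 (-(1 / 4)) (-(1 / 4)) (-(1 / 8)))) =
      G.val (seg W (P3 (-(1 / 4)) (-(9 / 256)) (1 / 12)) (P3 (-(1 / 4)) (-(9 / 256)) (-(1 / 12)))) * G.val (seg W (P3 (-(1 / 4)) (-(9 / 256)) (-(1 / 12))) (P3 (-(1 / 4)) (-(1 / 4)) (-(1 / 8)))) :=
    IdL_thr S G 1 3 ⟨⟨IdL_TD (by norm_num), IdL_A1 (by norm_num)⟩, IdL_B3 (by norm_num)⟩ ⟨⟨IdL_TD (by norm_num), IdL_A1 (by norm_num)⟩, IdL_B3 (by norm_num)⟩ ⟨⟨IdL_TD (by norm_num), IdL_A1 (by norm_num)⟩, IdL_B3 (by norm_num)⟩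
  have e6 : G.val (seg W (P3 (1 / 256) (-(1 / 4)) (-(1 / 8))) (P3 (1 / 256) (1 / 4) (-(1 / 8)))) =
      G.val (seg W (P3 (1 / 256) (-(1 / 4)) (-(1 / 8))) (P3 (-(1 / 4)) (1 / 4) (-(1 / 8)))) * (G.val (seg W (P3 (1 / 256) (1 / 4) (-(1 / 8))) (P3 (-(1 / 4)) (1 / 4) (-(1 / 8)))))⁻¹ :=
    eq_mul_inv_of_mul_eq (IdL_thr S G 3 3 ⟨⟨IdL_TD (by norm_num), IdL_A3 (by norm_num)⟩, IdL_B3 (by norm_num)⟩ ⟨⟨IdL_TD (by norm_num), IdL_A3 (by norm_num)⟩, IdL_B3 (by norm_num)⟩ ⟨⟨IdL_TD (by norm_num), IdL_A3 (by norm_num)⟩, IdL_B3 (by norm_num)⟩).symm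
  have e7 : G.val (seg W (P3 (1 / 256) (-(1 / 4)) (-(1 / 8))) (P3 (-(1 / 4)) (1 / 4) (-(1 / 8)))) =
      G.val (seg W (P3 (1 / 256) (-(1 / 4)) (-(1 / 8))) (P3 (-(1 / 4)) (-(1 / 4)) (-(1 / 8)))) * G.val (seg W (P3 (-(1 / 4)) (-(1 / 4)) (-(1 / 8))) (P3 (-(1 / 4)) (1 / 4) (-(1 / 8)))) :=
    IdL_thr S G 3 3 ⟨⟨IdL_TD (by norm_num), IdL_A3 (by norm_num)⟩, IdL_B3 (by norm_num)⟩ ⟨⟨IdL_TD (by norm_num), IdL_A3 (by norm_num)⟩, IdL_B3 (by norm_num)⟩ ⟨⟨IdL_TD (by norm_num), IdL_A3 (by norm_num)⟩, IdL_B3 (by norm_num)⟩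
  have e8 : G.val (seg W (P3 (-(1 / 4)) (-(1 / 4)) (-(1 / 8))) (P3 (-(1 / 4)) (1 / 4) (-(1 / 8)))) =
      (G.val (seg W (P3 (-(1 / 4)) (-(9 / 256)) (-(1 / 12))) (P3 (-(1 / 4)) (-(1 / 4)) (-(1 / 8)))))⁻¹ * G.val (seg W (P3 (-(1 / 4)) (-(9 / 256)) (-(1 / 12))) (P3 (-(1 / 4)) (1 / 4) (-(1 / 8)))) :=
    eq_inv_mul_of_mul_eq (IdL_thr S G 3 3 ⟨⟨IdL_TD (by norm_num), IdL_A3 (by norm_num)⟩, IdL_B3 (by norm_num)⟩ ⟨⟨IdL_TD (by norm_num), IdL_A3 (by norm_num)⟩, IdL_B3 (by norm_num)⟩ ⟨⟨IdL_TD (by norm_num), IdL_A3 (by norm_num)⟩, IdL_B3 (by norm_num)⟩).symm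
  have e9 : G.val (seg W (P3 (-(1 / 4)) (-(9 / 256)) (-(1 / 12))) (P3 (-(1 / 4)) (1 / 4) (-(1 / 8)))) =
      G.val (seg W (P3 (-(1 / 4)) (-(9 / 256)) (-(1 / 12))) (P3 (-(1 / 4)) (1 / 256) (-(1 / 12)))) * G.val (seg W (P3 (-(1 / 4)) (1 / 256) (-(1 / 12))) (P3 (-(1 / 4)) (1 / 4) (-(1 / 8)))) :=
    IdL_thr S G 3 3 ⟨⟨IdL_TD (by norm_num), IdL_A3 (by norm_num)⟩, IdL_B3 (by norm_num)⟩ ⟨⟨IdL_TD (by norm_num), IdL_A3 (by norm_num)⟩, IdL_B3 (by norm_num)⟩ ⟨⟨IdL_TD (by norm_num), IdL_A3 (by norm_num)⟩, IdL_B3 (by norm_num)⟩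
  have e10 : G.val (seg W (P3 (1 / 256) (1 / 4) (-(1 / 8))) (P3 (1 / 256) (1 / 4) 1)) =
      G.val (seg W (P3 (1 / 256) (1 / 4) (-(1 / 8))) (P3 (1 / 256) (1 / 4) (1 / 2))) * G.val (seg W (P3 (1 / 256) (1 / 4) (1 / 2)) (P3 (1 / 256) (1 / 4) 1)) :=
    IdL_thr S G 0 0 ⟨⟨IdL_TD (by norm_num), IdL_A0 (by norm_num)⟩, IdL_B0 (by norm_num)⟩ ⟨⟨IdL_TD (by norm_num), IdL_A0 (by norm_num)⟩, IdL_B0 (by norm_num)⟩ ⟨⟨IdL_TD (by norm_num), IdL_A0 (by norm_num)⟩, IdL_B0 (by norm_num)⟩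
  have e11 : G.val (seg W (P3 (1 / 256) (1 / 4) (-(1 / 8))) (P3 (1 / 256) (1 / 4) (1 / 2))) =
      G.val (seg W (P3 (1 / 256) (1 / 4) (-(1 / 8))) (P3 (-(1 / 4)) (1 / 4) (1 / 2))) * (G.val (seg W (P3 (1 / 256) (1 / 4) (1 / 2)) (P3 (-(1 / 4)) (1 / 4) (1 / 2))))⁻¹ :=
    eq_mul_inv_of_mul_eq (IdL_thr S G 0 3 ⟨⟨IdL_TD (by norm_num), IdL_A0 (by norm_num)⟩, IdL_B3 (by norm_num)⟩ ⟨⟨IdL_TD (by norm_num), IdL_A0 (by norm_num)⟩, IdL_B3 (by norm_num)⟩ ⟨⟨IdL_TD (by norm_num), IdL_A0 (by norm_num)⟩, IdL_B3 (by norm_num)⟩).symm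
  have e12 : G.val (seg W (P3 (1 / 256) (1 / 4) (-(1 / 8))) (P3 (-(1 / 4)) (1 / 4) (1 / 2))) =
      G.val (seg W (P3 (1 / 256) (1 / 4) (-(1 / 8))) (P3 (-(1 / 4)) (1 / 4) (-(1 / 8)))) * G.val (seg W (P3 (-(1 / 4)) (1 / 4) (-(1 / 8))) (P3 (-(1 / 4)) (1 / 4) (1 / 2))) :=
    IdL_thr S G 0 3 ⟨⟨IdL_TD (by norm_num), IdL_A0 (by norm_num)⟩, IdL_B3 (by norm_num)⟩ ⟨⟨IdL_TD (by norm_num), IdL_A0 (by norm_num)⟩, IdL_B3 (by norm_num)⟩ ⟨⟨IdL_TD (by norm_num), IdL_A0 (by norm_num)⟩, IdL_B3 (by norm_num)⟩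
  have e13 : G.val (seg W (P3 (-(1 / 4)) (1 / 4) (-(1 / 8))) (P3 (-(1 / 4)) (1 / 4) (1 / 2))) =
      (G.val (seg W (P3 (-(1 / 4)) (1 / 256) (-(1 / 12))) (P3 (-(1 / 4)) (1 / 4) (-(1 / 8)))))⁻¹ * G.val (seg W (P3 (-(1 / 4)) (1 / 256) (-(1 / 12))) (P3 (-(1 / 4)) (1 / 4) (1 / 2))) :=
    eq_inv_mul_of_mul_eq (IdL_thr S G 0 3 ⟨⟨IdL_TD (by norm_num), IdL_A0 (by norm_num)⟩, IdL_B3 (by norm_num)⟩ ⟨⟨IdL_TD (by norm_num), IdL_A0 (by norm_num)⟩, IdL_B3 (by norm_num)⟩ ⟨⟨IdL_TD (by norm_num), IdL_A0 (by norm_num)⟩, IdL_B3 (by norm_num)⟩).symm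
  have e14 : G.val (seg W (P3 (-(1 / 4)) (1 / 256) (-(1 / 12))) (P3 (-(1 / 4)) (1 / 4) (1 / 2))) =
      G.val (seg W (P3 (-(1 / 4)) (1 / 256) (-(1 / 12))) (P3 (-(1 / 4)) (1 / 256) (1 / 12))) * G.val (seg W (P3 (-(1 / 4)) (1 / 256) (1 / 12)) (P3 (-(1 / 4)) (1 / 4) (1 / 2))) :=
    IdL_thr S G 0 3 ⟨⟨IdL_TD (by norm_num), IdL_A0 (by norm_num)⟩, IdL_B3 (by norm_num)⟩ ⟨⟨IdL_TD (by norm_num), IdL_A0 (by norm_num)⟩, IdL_B3 (by norm_num)⟩ ⟨⟨IdL_TD (by norm_num), IdL_A0 (by norm_num)⟩, IdL_B3 (by norm_num)⟩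
  have e15 : G.val (seg W (P3 (-(1 / 4)) (1 / 256) (-(1 / 12))) (P3 (-(1 / 4)) (1 / 256) (1 / 12))) =
      G.val (seg W (P3 (-(1 / 4)) (1 / 256) (-(1 / 12))) (P3 (-(1 / 4)) (1 / 256) 0)) * G.val (seg W (P3 (-(1 / 4)) (1 / 256) 0) (P3 (-(1 / 4)) (1 / 256) (1 / 12))) :=
    IdL_thr S G 0 3 ⟨⟨IdL_TD (by norm_num), IdL_A0 (by norm_num)⟩, IdL_B3 (by norm_num)⟩ ⟨⟨IdL_TD (by norm_num), IdL_A0 (by norm_num)⟩, IdL_B3 (by norm_num)⟩ ⟨⟨IdL_TD (by norm_num), IdL_A0 (by norm_num)⟩, IdL_B3 (by norm_num)⟩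
  have e16 : G.val (seg W (P3 (1 / 256) (-(1 / 4)) 1) (P3 (1 / 256) (1 / 4) 1)) =
      G.val (seg W (P3 (1 / 256) (-(1 / 4)) 1) (P3 (1 / 256) (-(1 / 4)) (1 / 2))) * G.val (seg W (P3 (1 / 256) (-(1 / 4)) (1 / 2)) (P3 (1 / 256) (1 / 4) 1)) :=
    IdL_thr S G 2 0 ⟨⟨IdL_TD (by norm_num), IdL_A2 (by norm_num)⟩, IdL_B0 (by norm_num)⟩ ⟨⟨IdL_TD (by norm_num), IdL_A2 (by norm_num)⟩, IdL_B0 (by norm_num)⟩ ⟨⟨IdL_TD (by norm_num), IdL_A2 (by norm_num)⟩, IdL_B0 (by norm_num)⟩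
  have e17 : G.val (seg W (P3 (1 / 256) (-(1 / 4)) (1 / 2)) (P3 (1 / 256) (1 / 4) 1)) =
      G.val (seg W (P3 (1 / 256) (-(1 / 4)) (1 / 2)) (P3 (1 / 256) (1 / 4) (1 / 2))) * G.val (seg W (P3 (1 / 256) (1 / 4) (1 / 2)) (P3 (1 / 256) (1 / 4) 1)) :=
    IdL_thr S G 2 0 ⟨⟨IdL_TD (by norm_num), IdL_A2 (by norm_num)⟩, IdL_B0 (by norm_num)⟩ ⟨⟨IdL_TD (by norm_num), IdL_A2 (by norm_num)⟩, IdL_B0 (by norm_num)⟩ ⟨⟨IdL_TD (by norm_num), IdL_A2 (by norm_num)⟩, IdL_B0 (by norm_num)⟩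
  have e18 : G.val (seg W (P3 (1 / 256) (-(1 / 4)) (1 / 2)) (P3 (1 / 256) (1 / 4) (1 / 2))) =
      G.val (seg W (P3 (1 / 256) (-(1 / 4)) (1 / 2)) (P3 (-(1 / 4)) (1 / 4) (1 / 2))) * (G.val (seg W (P3 (1 / 256) (1 / 4) (1 / 2)) (P3 (-(1 / 4)) (1 / 4) (1 / 2))))⁻¹ :=
    eq_mul_inv_of_mul_eq (IdL_thr S G 2 3 ⟨⟨IdL_TD (by norm_num), IdL_A2 (by norm_num)⟩, IdL_B3 (by norm_num)⟩ ⟨⟨IdL_TD (by norm_num), IdL_A2 (by norm_num)⟩, IdL_B3 (by norm_num)⟩ ⟨⟨IdL_TD (by norm_num), IdL_A2 (by norm_num)⟩, IdL_B3 (by norm_num)⟩).symm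
  have e19 : G.val (seg W (P3 (1 / 256) (-(1 / 4)) (1 / 2)) (P3 (-(1 / 4)) (1 / 4) (1 / 2))) =
      G.val (seg W (P3 (1 / 256) (-(1 / 4)) (1 / 2)) (P3 (-(1 / 4)) (-(1 / 4)) (1 / 2))) * G.val (seg W (P3 (-(1 / 4)) (-(1 / 4)) (1 / 2)) (P3 (-(1 / 4)) (1 / 4) (1 / 2))) :=
    IdL_thr S G 2 3 ⟨⟨IdL_TD (by norm_num), IdL_A2 (by norm_num)⟩, IdL_B3 (by norm_num)⟩ ⟨⟨IdL_TD (by norm_num), IdL_A2 (by norm_num)⟩, IdL_B3 (by norm_num)⟩ ⟨⟨IdL_TD (by norm_num), IdL_A2 (by norm_num)⟩, IdL_B3 (by norm_num)⟩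
  have e20 : G.val (seg W (P3 (-(1 / 4)) (-(1 / 4)) (1 / 2)) (P3 (-(1 / 4)) (1 / 4) (1 / 2))) =
      G.val (seg W (P3 (-(1 / 4)) (-(1 / 4)) (1 / 2)) (P3 (-(1 / 4)) (1 / 256) (1 / 12))) * G.val (seg W (P3 (-(1 / 4)) (1 / 256) (1 / 12)) (P3 (-(1 / 4)) (1 / 4) (1 / 2))) :=
    IdL_thr S G 2 3 ⟨⟨IdL_TD (by norm_num), IdL_A2 (by norm_num)⟩, IdL_B3 (by norm_num)⟩ ⟨⟨IdL_TD (by norm_num), IdL_A2 (by norm_num)⟩, IdL_B3 (by norm_num)⟩ ⟨⟨IdL_TD (by norm_num), IdL_A2 (by norm_num)⟩, IdL_B3 (by norm_num)⟩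
  have e21 : G.val (seg W (P3 (-(1 / 4)) (-(1 / 4)) (1 / 2)) (P3 (-(1 / 4)) (1 / 256) (1 / 12))) =
      G.val (seg W (P3 (-(1 / 4)) (-(1 / 4)) (1 / 2)) (P3 (-(1 / 4)) (-(9 / 256)) (1 / 12))) * (G.val (seg W (P3 (-(1 / 4)) (1 / 256) (1 / 12)) (P3 (-(1 / 4)) (-(9 / 256)) (1 / 12))))⁻¹ :=
    eq_mul_inv_of_mul_eq (IdL_thr S G 2 3 ⟨⟨IdL_TD (by norm_num), IdL_A2 (by norm_num)⟩, IdL_B3 (by norm_num)⟩ ⟨⟨IdL_TD (by norm_num), IdL_A2 (by norm_num)⟩, IdL_B3 (by norm_num)⟩ ⟨⟨IdL_TD (by norm_num), IdL_A2 (by norm_num)⟩, IdL_B3 (by norm_num)⟩).symm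
  have e22 : G.val (seg W (P3 (-(1 / 4)) (1 / 256) (1 / 2)) (P3 (1 / 256) (-(1 / 4)) (1 / 2))) =
      G.val (seg W (P3 (-(1 / 4)) (1 / 256) (1 / 2)) (P3 (-(1 / 4)) (-(1 / 4)) (1 / 2))) * (G.val (seg W (P3 (1 / 256) (-(1 / 4)) (1 / 2)) (P3 (-(1 / 4)) (-(1 / 4)) (1 / 2))))⁻¹ :=
    eq_mul_inv_of_mul_eq (IdL_thr S G 2 3 ⟨⟨IdL_TD (by norm_num), IdL_A2 (by norm_num)⟩, IdL_B3 (by norm_num)⟩ ⟨⟨IdL_TD (by norm_num), IdL_A2 (by norm_num)⟩, IdL_B3 (by norm_num)⟩ ⟨⟨IdL_TD (by norm_num), IdL_A2 (by norm_num)⟩, IdL_B3 (by norm_num)⟩).symm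
  have e23 : G.val (seg W (P3 (-(1 / 4)) (1 / 256) (1 / 2)) (P3 (-(1 / 4)) (-(1 / 4)) (1 / 2))) =
      G.val (seg W (P3 (-(1 / 4)) (1 / 256) (1 / 2)) (P3 (-(1 / 4)) (1 / 256) (1 / 12))) * (G.val (seg W (P3 (-(1 / 4)) (-(1 / 4)) (1 / 2)) (P3 (-(1 / 4)) (1 / 256) (1 / 12))))⁻¹ :=
    eq_mul_inv_of_mul_eq (IdL_thr S G 2 3 ⟨⟨IdL_TD (by norm_num), IdL_A2 (by norm_num)⟩, IdL_B3 (by norm_num)⟩ ⟨⟨IdL_TD (by norm_num), IdL_A2 (by norm_num)⟩, IdL_B3 (by norm_num)⟩ ⟨⟨IdL_TD (by norm_num), IdL_A2 (by norm_num)⟩, IdL_B3 (by norm_num)⟩).symm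
  have e24 : G.val (seg W (P3 (-(1 / 4)) (1 / 256) (1 / 2)) (P3 (-(1 / 4)) (1 / 256) (1 / 12))) =
      (G.val (seg W (P3 (-(1 / 4)) (1 / 256) 0) (P3 (-(1 / 4)) (1 / 256) (1 / 2))))⁻¹ * G.val (seg W (P3 (-(1 / 4)) (1 / 256) 0) (P3 (-(1 / 4)) (1 / 256) (1 / 12))) :=
    eq_inv_mul_of_mul_eq (IdL_thr S G 0 3 ⟨⟨IdL_TD (by norm_num), IdL_A0 (by norm_num)⟩, IdL_B3 (by norm_num)⟩ ⟨⟨IdL_TD (by norm_num), IdL_A0 (by norm_num)⟩, IdL_B3 (by norm_num)⟩ ⟨⟨IdL_TD (by norm_num), IdL_A0 (by norm_num)⟩, IdL_B3 (by norm_num)⟩).symm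
  have e25 : G.val (seg W (P3 (-(1 / 4)) (1 / 256) 0) (P3 (-(1 / 4)) (1 / 256) (-(1 / 12)))) = (G.val (seg W (P3 (-(1 / 4)) (1 / 256) (-(1 / 12))) (P3 (-(1 / 4)) (1 / 256) 0)))⁻¹ :=
    IdL_inv S G 0 3 ⟨⟨IdL_TD (by norm_num), IdL_A0 (by norm_num)⟩, IdL_B3 (by norm_num)⟩ ⟨⟨IdL_TD (by norm_num), IdL_A0 (by norm_num)⟩, IdL_B3 (by norm_num)⟩
  have e26 : G.val (seg W (P3 (-(1 / 4)) (1 / 256) (-(1 / 12))) (P3 (-(1 / 4)) (-(9 / 256)) (-(1 / 12)))) = (G.val (seg W (P3 (-(1 / 4)) (-(9 / 256)) (-(1 / 12))) (P3 (-(1 / 4)) (1 / 256) (-(1 / 12)))))⁻¹ :=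
    IdL_inv S G 3 3 ⟨⟨IdL_TD (by norm_num), IdL_A3 (by norm_num)⟩, IdL_B3 (by norm_num)⟩ ⟨⟨IdL_TD (by norm_num), IdL_A3 (by norm_num)⟩, IdL_B3 (by norm_num)⟩
  have e27 : G.val (seg W (P3 (-(1 / 4)) (-(9 / 256)) (-(1 / 12))) (P3 (-(1 / 4)) (-(9 / 256)) (1 / 12))) = (G.val (seg W (P3 (-(1 / 4)) (-(9 / 256)) (1 / 12)) (P3 (-(1 / 4)) (-(9 / 256)) (-(1 / 12)))))⁻¹ :=
    IdL_inv S G 1 3 ⟨⟨IdL_TD (by norm_num), IdL_A1 (by norm_num)⟩, IdL_B3 (by norm_num)⟩ ⟨⟨IdL_TD (by norm_num), IdL_A1 (by norm_num)⟩, IdL_B3 (by norm_num)⟩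
  have e28 : G.val (seg W (P3 (-(1 / 4)) (-(9 / 256)) (1 / 12)) (P3 (-(1 / 4)) (1 / 256) (1 / 12))) = (G.val (seg W (P3 (-(1 / 4)) (1 / 256) (1 / 12)) (P3 (-(1 / 4)) (-(9 / 256)) (1 / 12))))⁻¹ :=
    IdL_inv S G 2 3 ⟨⟨IdL_TD (by norm_num), IdL_A2 (by norm_num)⟩, IdL_B3 (by norm_num)⟩ ⟨⟨IdL_TD (by norm_num), IdL_A2 (by norm_num)⟩, IdL_B3 (by norm_num)⟩
  have e29 : G.val (seg W (P3 (-(1 / 4)) (1 / 256) (1 / 12)) (P3 (-(1 / 4)) (1 / 256) 0)) = (G.val (seg W (P3 (-(1 / 4)) (1 / 256) 0) (P3 (-(1 / 4)) (1 / 256) (1 / 12))))⁻¹ :=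
    IdL_inv S G 0 3 ⟨⟨IdL_TD (by norm_num), IdL_A0 (by norm_num)⟩, IdL_B3 (by norm_num)⟩ ⟨⟨IdL_TD (by norm_num), IdL_A0 (by norm_num)⟩, IdL_B3 (by norm_num)⟩
  simp only [e0, e1, e2, e3, e4, e5, e6, e7, e8, e9, e10, e11, e12, e13, e14, e15, e16, e17, e18, e19, e20, e21, e22, e23, e24, e25, e26, e27, e28, e29]
  group

end Pool.Agent.NHR
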