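import Mathlib
import Pool.Agent.NHR.Defs
import Pool.Agent.NHR.MdY

/-!
# NHR/IdO: the path over the vertical pair (difficulty 3)

`c = im w`, points `(re w, x)` in the planes `c = 1/256` (without index) and `c = -1/4` (index 1).  `h = 39/32`.
`a = (-1/4, 0)` (`A⁻`), `b = (-1/4, h)`, `c = (1/4, h)`, `d = (1/4, 0)`, `a' = (-1/4, 1/2)`, `d' = (1/4, 1/2)`; `v = G.val ∘ seg W`.
`Ov · v (d, a) = v (a,b) v (b,c) v (c,d) v (d,a)`; `v (a,b) = v (a,a') v (a',b)` (`hA 0`, `hB 1`), `v (c,d) = v (c,d') v (d',d)` (`hA 0`, `hB 0`),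
`v (d',d) v (d,a) v (a,a') = v (d',a')` (`hA 0`, `hB 3`).  So it is `v (a,a') R v (a,a')⁻¹`, `R = v (a',b) v (b,c) v (c,d') v (d',a')`.
Translation to `c = -1/4` (all in `hA 2`): `R = v (a',a'₁) R₁ v (a',a'₁)⁻¹`.  In the plane `-1/4`: `f₁ = (-9/256, 11/12)`, `f₂ = (-9/256, 13/12)`,
`f₃ = (1/256, 13/12)`, `f₄ = (1/256, 11/12)`, `B = (1/256, 1)` (`B⁻`), `x₂ = (1/256, 1/2)`:
`v (a'₁,b₁) = v (a'₁,f₁) v (f₁,f₂) v (f₂,b₁)` (`hB 1`), `v (b₁,c₁) = v (b₁,f₂) v (f₂,f₃) v (f₃,c₁)` (`hB 2`), `v (c₁,d'₁) = v (c₁,f₃) v (f₃,f₄) v (f₄,d'₁)` (`hB 0`),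
`v (d'₁,a'₁) = v (d'₁,f₄) v (f₄,f₁) v (f₁,a'₁)` (`hB 3`).  `BL G B (79/256)` in the chart `W` (`W_jb`) is `v (B,f₃) v (f₃,f₂) v (f₂,f₁) v (f₁,f₄) v (f₄,B)`.
So `R₁ = v (a'₁,f₄) v (f₄,B) BL⁻¹ (..)⁻¹`, and `Xc = v (a,a') v (a',x₂) v (x₂,B) = v (a,a') v (a',a'₁) v (a'₁,f₄) v (f₄,B)`.
Finally `v (a, d)` is the segment of `B` (`W_ja`).
-/

open scoped Manifold ContDiff Topology
open Set Filter
open Pool.Agent.CSG (stp)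
open Pool.Agent.RSG (E3 ex Thick)
open Pool.Agent.KNT (Dom Str Str2 bmp)
open Pool.Agent.NHP

namespace Pool.Agent.NHR

universe u v

theorem IdO_TD {x y z : ℝ} (h : x ^ 2 + y ^ 2 < 1 ∧ -(1 / 4) < z ∧ z < 5 / 4) : P3 x y z ∈ TD := by
  refine ⟨?_, h.2.1, h.2.2⟩
  change ‖(⟨x, y⟩ : ℂ)‖ < 1
  rw [Complex.norm_def, Complex.normSq_mk, Real.sqrt_lt' one_pos]
  nlinarith [h.1]

theorem IdO_A0 {x y z : ℝ} (h : 0 < y) : P3 x y z ∈ hA 0 := h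

theorem IdO_A1 {x y z : ℝ} (h : y < -(1 / 32)) : P3 x y z ∈ hA 1 := h

theorem IdO_A2 {x y z : ℝ} (h : 0 < z) : P3 x y z ∈ hA 2 := h

theorem IdO_A3 {x y z : ℝ} (h : z < 0) : P3 x y z ∈ hA 3 := h

theorem IdO_B0 {x y z : ℝ} (h : 0 < x) : P3 x y z ∈ hB 0 := h

theorem IdO_B1 {x y z : ℝ} (h : x < -(1 / 32)) : P3 x y z ∈ hB 1 := h

theorem IdO_B2 {x y z : ℝ} (h : 1 < z) : P3 x y z ∈ hB 2 := h

theorem IdO_B3 {x y z : ℝ} (h : z < 1) : P3 x y z ∈ hB 3 := h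

section
variable {N : Type u} [TopologicalSpace N] [ChartedSpace E3 N] {Γ : Type v} [Group Γ]

theorem IdO_inv {K : Set N} {B W : E → N} (S : SP K B W) (G : GHom Kᶜ Γ) (i j : Fin 4) {p q : E}
    (h : p ∈ TD ∩ hA i ∩ hB j) (h' : q ∈ TD ∩ hA i ∩ hB j) :
    G.val (seg W p q) = (G.val (seg W q p))⁻¹ :=
  W_symm S G i j h' h

/-- from `p` to `q`, through `r` -/
theorem IdO_thr {K : Set N} {B W : E → N} (S : SP K B W) (G : GHom Kᶜ Γ) (i j : Fin 4) {p r q : E}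
    (h : p ∈ TD ∩ hA i ∩ hB j) (h' : r ∈ TD ∩ hA i ∩ hB j) (h'' : q ∈ TD ∩ hA i ∩ hB j) :
    G.val (seg W p q) = G.val (seg W p r) * G.val (seg W r q) :=
  (W_tri S G i j h h' h'').symm

end

variable {N : Type u} [TopologicalSpace N] [ChartedSpace E3 N] {Γ : Type v} [Group Γ]

theorem IdO_BL {K : Set N} {B W : E → N} (S : SP K B W) (G : GHom Kᶜ Γ) :
    BL G B (79 / 256) = G.val (seg W (P3 (1 / 256) (-(1 / 4)) 1) (P3 (1 / 256) (-(1 / 4)) (13 / 12))) *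
      G.val (seg W (P3 (1 / 256) (-(1 / 4)) (13 / 12)) (P3 (-(9 / 256)) (-(1 / 4)) (13 / 12))) *
      G.val (seg W (P3 (-(9 / 256)) (-(1 / 4)) (13 / 12)) (P3 (-(9 / 256)) (-(1 / 4)) (11 / 12))) *
      G.val (seg W (P3 (-(9 / 256)) (-(1 / 4)) (11 / 12)) (P3 (1 / 256) (-(1 / 4)) (11 / 12))) *
      G.val (seg W (P3 (1 / 256) (-(1 / 4)) (11 / 12)) (P3 (1 / 256) (-(1 / 4)) 1)) := by
  have j0 : jb (P3 (1 / 256) (-(1 / 4)) 1) = P3 (79 / 256) 0 (-(1 / 8)) := by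
    simp only [jb, P3]
    norm_num
  have z0 : (P3 (1 / 256) (-(1 / 4)) 1) ∈ zB := by
    refine ⟨IdO_TD (by norm_num), ?_, ?_, ?_⟩
    · change |(1 : ℝ) - 1| ≤ 1 / 10
      norm_num [abs_le]
    · change -(9 / 64) ≤ -(32 * ((1 / 256) : ℝ))
      norm_num
    · change -(32 * ((1 / 256) : ℝ)) ≤ 73 / 64
      norm_num
  have j1 : jb (P3 (1 / 256) (-(1 / 4)) (13 / 12)) = P3 (79 / 256) (-(1 / 768)) (-(1 / 8)) := by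
    simp only [jb, P3]
    norm_num
  have z1 : (P3 (1 / 256) (-(1 / 4)) (13 / 12)) ∈ zB := by
    refine ⟨IdO_TD (by norm_num), ?_, ?_, ?_⟩
    · change |((13 / 12) : ℝ) - 1| ≤ 1 / 10
      norm_num [abs_le]
    · change -(9 / 64) ≤ -(32 * ((1 / 256) : ℝ))
      norm_num
    · change -(32 * ((1 / 256) : ℝ)) ≤ 73 / 64
      norm_num
  have j2 : jb (P3 (-(9 / 256)) (-(1 / 4)) (13 / 12)) = P3 (79 / 256) (-(1 / 768)) (9 / 8) := by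
    simp only [jb, P3]
    norm_num
  have z2 : (P3 (-(9 / 256)) (-(1 / 4)) (13 / 12)) ∈ zB := by
    refine ⟨IdO_TD (by norm_num), ?_, ?_, ?_⟩
    · change |((13 / 12) : ℝ) - 1| ≤ 1 / 10
      norm_num [abs_le]
    · change -(9 / 64) ≤ -(32 * ((-(9 / 256)) : ℝ))
      norm_num
    · change -(32 * ((-(9 / 256)) : ℝ)) ≤ 73 / 64
      norm_num
  have j3 : jb (P3 (-(9 / 256)) (-(1 / 4)) (11 / 12)) = P3 (79 / 256) (1 / 768) (9 / 8) := by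
    simp only [jb, P3]
    norm_num
  have z3 : (P3 (-(9 / 256)) (-(1 / 4)) (11 / 12)) ∈ zB := by
    refine ⟨IdO_TD (by norm_num), ?_, ?_, ?_⟩
    · change |((11 / 12) : ℝ) - 1| ≤ 1 / 10
      norm_num [abs_le]
    · change -(9 / 64) ≤ -(32 * ((-(9 / 256)) : ℝ))
      norm_num
    · change -(32 * ((-(9 / 256)) : ℝ)) ≤ 73 / 64
      norm_num
  have j4 : jb (P3 (1 / 256) (-(1 / 4)) (11 / 12)) = P3 (79 / 256) (1 / 768) (-(1 / 8)) := by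
    simp only [jb, P3]
    norm_num
  have z4 : (P3 (1 / 256) (-(1 / 4)) (11 / 12)) ∈ zB := by
    refine ⟨IdO_TD (by norm_num), ?_, ?_, ?_⟩
    · change |((11 / 12) : ℝ) - 1| ≤ 1 / 10
      norm_num [abs_le]
    · change -(9 / 64) ≤ -(32 * ((1 / 256) : ℝ))
      norm_num
    · change -(32 * ((1 / 256) : ℝ)) ≤ 73 / 64
      norm_num
  have w0 := W_jb S G z0 z1 (W_path S 1 0 ⟨⟨IdO_TD (by norm_num), IdO_A1 (by norm_num)⟩, IdO_B0 (by norm_num)⟩ ⟨⟨IdO_TD (by norm_num), IdO_A1 (by norm_num)⟩, IdO_B0 (by norm_num)⟩)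
  rw [j0, j1] at w0
  have w1 := W_jb S G z1 z2 (W_path S 1 2 ⟨⟨IdO_TD (by norm_num), IdO_A1 (by norm_num)⟩, IdO_B2 (by norm_num)⟩ ⟨⟨IdO_TD (by norm_num), IdO_A1 (by norm_num)⟩, IdO_B2 (by norm_num)⟩)
  rw [j1, j2] at w1
  have w2 := W_jb S G z2 z3 (W_path S 1 1 ⟨⟨IdO_TD (by norm_num), IdO_A1 (by norm_num)⟩, IdO_B1 (by norm_num)⟩ ⟨⟨IdO_TD (by norm_num), IdO_A1 (by norm_num)⟩, IdO_B1 (by norm_num)⟩)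
  rw [j2, j3] at w2
  have w3 := W_jb S G z3 z4 (W_path S 1 3 ⟨⟨IdO_TD (by norm_num), IdO_A1 (by norm_num)⟩, IdO_B3 (by norm_num)⟩ ⟨⟨IdO_TD (by norm_num), IdO_A1 (by norm_num)⟩, IdO_B3 (by norm_num)⟩)
  rw [j3, j4] at w3
  have w4 := W_jb S G z4 z0 (W_path S 1 0 ⟨⟨IdO_TD (by norm_num), IdO_A1 (by norm_num)⟩, IdO_B0 (by norm_num)⟩ ⟨⟨IdO_TD (by norm_num), IdO_A1 (by norm_num)⟩, IdO_B0 (by norm_num)⟩)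
  rw [j4, j0] at w4
  unfold BL
  rw [w0, w1, w2, w3, w4]

theorem IdO_ad {K : Set N} {B W : E → N} (S : SP K B W) (G : GHom Kᶜ Γ) :
    G.val (seg B (P3 (-(1 / 256)) 0 (-(1 / 8))) (P3 (1 / 256) 0 (-(1 / 8)))) =
      G.val (seg W (P3 (-(1 / 4)) (1 / 256) 0) (P3 (1 / 4) (1 / 256) 0)) := by
  have j0 : ja (P3 (-(1 / 4)) (1 / 256) 0) = P3 (-(1 / 256)) 0 (-(1 / 8)) := by
    simp only [ja, P3]
    norm_num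
  have j1 : ja (P3 (1 / 4) (1 / 256) 0) = P3 (1 / 256) 0 (-(1 / 8)) := by
    simp only [ja, P3]
    norm_num
  have z : ∀ x : ℝ, x ^ 2 + (1 / 256) ^ 2 < 1 → P3 x (1 / 256) 0 ∈ zA := by
    intro x hx
    refine ⟨IdO_TD ⟨hx, by norm_num, by norm_num⟩, ?_, ?_, ?_⟩
    · change |(0 : ℝ)| ≤ 1 / 10
      norm_num
    · change -(9 / 64) ≤ -(32 * (1 / 256 : ℝ))
      norm_num
    · change -(32 * (1 / 256 : ℝ)) ≤ 73 / 64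
      norm_num
  have w := W_ja S G (z (-(1 / 4)) (by norm_num)) (z (1 / 4) (by norm_num)) (W_path S 0 3 ⟨⟨IdO_TD (by norm_num), IdO_A0 (by norm_num)⟩, IdO_B3 (by norm_num)⟩ ⟨⟨IdO_TD (by norm_num), IdO_A0 (by norm_num)⟩, IdO_B3 (by norm_num)⟩)
  rw [j0, j1] at w
  exact w

theorem IdO {K : Set N} {B W : E → N} (S : SP K B W) (G : GHom Kᶜ Γ) :
    Ov G W = Xc G W * (BL G B (79 / 256))⁻¹ * (Xc G W)⁻¹ *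
      G.val (seg B (P3 (-(1 / 256)) 0 (-(1 / 8))) (P3 (1 / 256) 0 (-(1 / 8)))) := by
  rw [IdO_BL S G, IdO_ad S G]
  unfold Ov Xc
  have e0 : G.val (seg W (P3 (-(1 / 4)) (1 / 256) 0) (P3 (-(1 / 4)) (1 / 256) (39 / 32))) =
      G.val (seg W (P3 (-(1 / 4)) (1 / 256) 0) (P3 (-(1 / 4)) (1 / 256) (1 / 2))) * G.val (seg W (P3 (-(1 / 4)) (1 / 256) (1 / 2)) (P3 (-(1 / 4)) (1 / 256) (39 / 32))) :=
    IdO_thr S G 0 1 ⟨⟨IdO_TD (by norm_num), IdO_A0 (by norm_num)⟩, IdO_B1 (by norm_num)⟩ ⟨⟨IdO_TD (by norm_num), IdO_A0 (by norm_num)⟩, IdO_B1 (by norm_num)⟩ ⟨⟨IdO_TD (by norm_num), IdO_A0 (by norm_num)⟩, IdO_B1 (by norm_num)⟩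
  have e1 : G.val (seg W (P3 (-(1 / 4)) (1 / 256) (1 / 2)) (P3 (-(1 / 4)) (1 / 256) (39 / 32))) =
      G.val (seg W (P3 (-(1 / 4)) (1 / 256) (1 / 2)) (P3 (-(1 / 4)) (-(1 / 4)) (39 / 32))) * (G.val (seg W (P3 (-(1 / 4)) (1 / 256) (39 / 32)) (P3 (-(1 / 4)) (-(1 / 4)) (39 / 32))))⁻¹ :=
    eq_mul_inv_of_mul_eq (IdO_thr S G 2 1 ⟨⟨IdO_TD (by norm_num), IdO_A2 (by norm_num)⟩, IdO_B1 (by norm_num)⟩ ⟨⟨IdO_TD (by norm_num), IdO_A2 (by norm_num)⟩, IdO_B1 (by norm_num)⟩ ⟨⟨IdO_TD (by norm_num), IdO_A2 (by norm_num)⟩, IdO_B1 (by norm_num)⟩).symm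
  have e2 : G.val (seg W (P3 (-(1 / 4)) (1 / 256) (1 / 2)) (P3 (-(1 / 4)) (-(1 / 4)) (39 / 32))) =
      G.val (seg W (P3 (-(1 / 4)) (1 / 256) (1 / 2)) (P3 (-(1 / 4)) (-(1 / 4)) (1 / 2))) * G.val (seg W (P3 (-(1 / 4)) (-(1 / 4)) (1 / 2)) (P3 (-(1 / 4)) (-(1 / 4)) (39 / 32))) :=
    IdO_thr S G 2 1 ⟨⟨IdO_TD (by norm_num), IdO_A2 (by norm_num)⟩, IdO_B1 (by norm_num)⟩ ⟨⟨IdO_TD (by norm_num), IdO_A2 (by norm_num)⟩, IdO_B1 (by norm_num)⟩ ⟨⟨IdO_TD (by norm_num), IdO_A2 (by norm_num)⟩, IdO_B1 (by norm_num)⟩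
  have e3 : G.val (seg W (P3 (-(1 / 4)) (-(1 / 4)) (1 / 2)) (P3 (-(1 / 4)) (-(1 / 4)) (39 / 32))) =
      G.val (seg W (P3 (-(1 / 4)) (-(1 / 4)) (1 / 2)) (P3 (-(9 / 256)) (-(1 / 4)) (11 / 12))) * G.val (seg W (P3 (-(9 / 256)) (-(1 / 4)) (11 / 12)) (P3 (-(1 / 4)) (-(1 / 4)) (39 / 32))) :=
    IdO_thr S G 1 1 ⟨⟨IdO_TD (by norm_num), IdO_A1 (by norm_num)⟩, IdO_B1 (by norm_num)⟩ ⟨⟨IdO_TD (by norm_num), IdO_A1 (by norm_num)⟩, IdO_B1 (by norm_num)⟩ ⟨⟨IdO_TD (by norm_num), IdO_A1 (by norm_num)⟩, IdO_B1 (by norm_num)⟩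
  have e4 : G.val (seg W (P3 (-(9 / 256)) (-(1 / 4)) (11 / 12)) (P3 (-(1 / 4)) (-(1 / 4)) (39 / 32))) =
      G.val (seg W (P3 (-(9 / 256)) (-(1 / 4)) (11 / 12)) (P3 (-(9 / 256)) (-(1 / 4)) (13 / 12))) * G.val (seg W (P3 (-(9 / 256)) (-(1 / 4)) (13 / 12)) (P3 (-(1 / 4)) (-(1 / 4)) (39 / 32))) :=
    IdO_thr S G 1 1 ⟨⟨IdO_TD (by norm_num), IdO_A1 (by norm_num)⟩, IdO_B1 (by norm_num)⟩ ⟨⟨IdO_TD (by norm_num), IdO_A1 (by norm_num)⟩, IdO_B1 (by norm_num)⟩ ⟨⟨IdO_TD (by norm_num), IdO_A1 (by norm_num)⟩, IdO_B1 (by norm_num)⟩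
  have e5 : G.val (seg W (P3 (-(1 / 4)) (1 / 256) (39 / 32)) (P3 (1 / 4) (1 / 256) (39 / 32))) =
      G.val (seg W (P3 (-(1 / 4)) (1 / 256) (39 / 32)) (P3 (1 / 4) (-(1 / 4)) (39 / 32))) * (G.val (seg W (P3 (1 / 4) (1 / 256) (39 / 32)) (P3 (1 / 4) (-(1 / 4)) (39 / 32))))⁻¹ :=
    eq_mul_inv_of_mul_eq (IdO_thr S G 2 2 ⟨⟨IdO_TD (by norm_num), IdO_A2 (by norm_num)⟩, IdO_B2 (by norm_num)⟩ ⟨⟨IdO_TD (by norm_num), IdO_A2 (by norm_num)⟩, IdO_B2 (by norm_num)⟩ ⟨⟨IdO_TD (by norm_num), IdO_A2 (by norm_num)⟩, IdO_B2 (by norm_num)⟩).symm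
  have e6 : G.val (seg W (P3 (-(1 / 4)) (1 / 256) (39 / 32)) (P3 (1 / 4) (-(1 / 4)) (39 / 32))) =
      G.val (seg W (P3 (-(1 / 4)) (1 / 256) (39 / 32)) (P3 (-(1 / 4)) (-(1 / 4)) (39 / 32))) * G.val (seg W (P3 (-(1 / 4)) (-(1 / 4)) (39 / 32)) (P3 (1 / 4) (-(1 / 4)) (39 / 32))) :=
    IdO_thr S G 2 2 ⟨⟨IdO_TD (by norm_num), IdO_A2 (by norm_num)⟩, IdO_B2 (by norm_num)⟩ ⟨⟨IdO_TD (by norm_num), IdO_A2 (by norm_num)⟩, IdO_B2 (by norm_num)⟩ ⟨⟨IdO_TD (by norm_num), IdO_A2 (by norm_num)⟩, IdO_B2 (by norm_num)⟩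
  have e7 : G.val (seg W (P3 (-(1 / 4)) (-(1 / 4)) (39 / 32)) (P3 (1 / 4) (-(1 / 4)) (39 / 32))) =
      (G.val (seg W (P3 (-(9 / 256)) (-(1 / 4)) (13 / 12)) (P3 (-(1 / 4)) (-(1 / 4)) (39 / 32))))⁻¹ * G.val (seg W (P3 (-(9 / 256)) (-(1 / 4)) (13 / 12)) (P3 (1 / 4) (-(1 / 4)) (39 / 32))) :=
    eq_inv_mul_of_mul_eq (IdO_thr S G 1 2 ⟨⟨IdO_TD (by norm_num), IdO_A1 (by norm_num)⟩, IdO_B2 (by norm_num)⟩ ⟨⟨IdO_TD (by norm_num), IdO_A1 (by norm_num)⟩, IdO_B2 (by norm_num)⟩ ⟨⟨IdO_TD (by norm_num), IdO_A1 (by norm_num)⟩, IdO_B2 (by norm_num)⟩).symm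
  have e8 : G.val (seg W (P3 (-(9 / 256)) (-(1 / 4)) (13 / 12)) (P3 (1 / 4) (-(1 / 4)) (39 / 32))) =
      G.val (seg W (P3 (-(9 / 256)) (-(1 / 4)) (13 / 12)) (P3 (1 / 256) (-(1 / 4)) (13 / 12))) * G.val (seg W (P3 (1 / 256) (-(1 / 4)) (13 / 12)) (P3 (1 / 4) (-(1 / 4)) (39 / 32))) :=
    IdO_thr S G 1 2 ⟨⟨IdO_TD (by norm_num), IdO_A1 (by norm_num)⟩, IdO_B2 (by norm_num)⟩ ⟨⟨IdO_TD (by norm_num), IdO_A1 (by norm_num)⟩, IdO_B2 (by norm_num)⟩ ⟨⟨IdO_TD (by norm_num), IdO_A1 (by norm_num)⟩, IdO_B2 (by norm_num)⟩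
  have e9 : G.val (seg W (P3 (1 / 4) (1 / 256) (39 / 32)) (P3 (1 / 4) (1 / 256) 0)) =
      G.val (seg W (P3 (1 / 4) (1 / 256) (39 / 32)) (P3 (1 / 4) (1 / 256) (1 / 2))) * G.val (seg W (P3 (1 / 4) (1 / 256) (1 / 2)) (P3 (1 / 4) (1 / 256) 0)) :=
    IdO_thr S G 0 0 ⟨⟨IdO_TD (by norm_num), IdO_A0 (by norm_num)⟩, IdO_B0 (by norm_num)⟩ ⟨⟨IdO_TD (by norm_num), IdO_A0 (by norm_num)⟩, IdO_B0 (by norm_num)⟩ ⟨⟨IdO_TD (by norm_num), IdO_A0 (by norm_num)⟩, IdO_B0 (by norm_num)⟩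
  have e10 : G.val (seg W (P3 (1 / 4) (1 / 256) (39 / 32)) (P3 (1 / 4) (1 / 256) (1 / 2))) =
      G.val (seg W (P3 (1 / 4) (1 / 256) (39 / 32)) (P3 (1 / 4) (-(1 / 4)) (1 / 2))) * (G.val (seg W (P3 (1 / 4) (1 / 256) (1 / 2)) (P3 (1 / 4) (-(1 / 4)) (1 / 2))))⁻¹ :=
    eq_mul_inv_of_mul_eq (IdO_thr S G 2 0 ⟨⟨IdO_TD (by norm_num), IdO_A2 (by norm_num)⟩, IdO_B0 (by norm_num)⟩ ⟨⟨IdO_TD (by norm_num), IdO_A2 (by norm_num)⟩, IdO_B0 (by norm_num)⟩ ⟨⟨IdO_TD (by norm_num), IdO_A2 (by norm_num)⟩, IdO_B0 (by norm_num)⟩).symm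
  have e11 : G.val (seg W (P3 (1 / 4) (1 / 256) (39 / 32)) (P3 (1 / 4) (-(1 / 4)) (1 / 2))) =
      G.val (seg W (P3 (1 / 4) (1 / 256) (39 / 32)) (P3 (1 / 4) (-(1 / 4)) (39 / 32))) * G.val (seg W (P3 (1 / 4) (-(1 / 4)) (39 / 32)) (P3 (1 / 4) (-(1 / 4)) (1 / 2))) :=
    IdO_thr S G 2 0 ⟨⟨IdO_TD (by norm_num), IdO_A2 (by norm_num)⟩, IdO_B0 (by norm_num)⟩ ⟨⟨IdO_TD (by norm_num), IdO_A2 (by norm_num)⟩, IdO_B0 (by norm_num)⟩ ⟨⟨IdO_TD (by norm_num), IdO_A2 (by norm_num)⟩, IdO_B0 (by norm_num)⟩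
  have e12 : G.val (seg W (P3 (1 / 4) (-(1 / 4)) (39 / 32)) (P3 (1 / 4) (-(1 / 4)) (1 / 2))) =
      (G.val (seg W (P3 (1 / 256) (-(1 / 4)) (13 / 12)) (P3 (1 / 4) (-(1 / 4)) (39 / 32))))⁻¹ * G.val (seg W (P3 (1 / 256) (-(1 / 4)) (13 / 12)) (P3 (1 / 4) (-(1 / 4)) (1 / 2))) :=
    eq_inv_mul_of_mul_eq (IdO_thr S G 1 0 ⟨⟨IdO_TD (by norm_num), IdO_A1 (by norm_num)⟩, IdO_B0 (by norm_num)⟩ ⟨⟨IdO_TD (by norm_num), IdO_A1 (by norm_num)⟩, IdO_B0 (by norm_num)⟩ ⟨⟨IdO_TD (by norm_num), IdO_A1 (by norm_num)⟩, IdO_B0 (by norm_num)⟩).symm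
  have e13 : G.val (seg W (P3 (1 / 256) (-(1 / 4)) (13 / 12)) (P3 (1 / 4) (-(1 / 4)) (1 / 2))) =
      G.val (seg W (P3 (1 / 256) (-(1 / 4)) (13 / 12)) (P3 (1 / 256) (-(1 / 4)) (11 / 12))) * G.val (seg W (P3 (1 / 256) (-(1 / 4)) (11 / 12)) (P3 (1 / 4) (-(1 / 4)) (1 / 2))) :=
    IdO_thr S G 1 0 ⟨⟨IdO_TD (by norm_num), IdO_A1 (by norm_num)⟩, IdO_B0 (by norm_num)⟩ ⟨⟨IdO_TD (by norm_num), IdO_A1 (by norm_num)⟩, IdO_B0 (by norm_num)⟩ ⟨⟨IdO_TD (by norm_num), IdO_A1 (by norm_num)⟩, IdO_B0 (by norm_num)⟩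
  have e14 : G.val (seg W (P3 (1 / 256) (-(1 / 4)) (13 / 12)) (P3 (1 / 256) (-(1 / 4)) (11 / 12))) =
      G.val (seg W (P3 (1 / 256) (-(1 / 4)) (13 / 12)) (P3 (1 / 256) (-(1 / 4)) 1)) * G.val (seg W (P3 (1 / 256) (-(1 / 4)) 1) (P3 (1 / 256) (-(1 / 4)) (11 / 12))) :=
    IdO_thr S G 1 0 ⟨⟨IdO_TD (by norm_num), IdO_A1 (by norm_num)⟩, IdO_B0 (by norm_num)⟩ ⟨⟨IdO_TD (by norm_num), IdO_A1 (by norm_num)⟩, IdO_B0 (by norm_num)⟩ ⟨⟨IdO_TD (by norm_num), IdO_A1 (by norm_num)⟩, IdO_B0 (by norm_num)⟩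
  have e15 : G.val (seg W (P3 (-(1 / 4)) (1 / 256) 0) (P3 (1 / 4) (1 / 256) 0)) =
      G.val (seg W (P3 (-(1 / 4)) (1 / 256) 0) (P3 (-(1 / 4)) (1 / 256) (1 / 2))) * G.val (seg W (P3 (-(1 / 4)) (1 / 256) (1 / 2)) (P3 (1 / 4) (1 / 256) 0)) :=
    IdO_thr S G 0 3 ⟨⟨IdO_TD (by norm_num), IdO_A0 (by norm_num)⟩, IdO_B3 (by norm_num)⟩ ⟨⟨IdO_TD (by norm_num), IdO_A0 (by norm_num)⟩, IdO_B3 (by norm_num)⟩ ⟨⟨IdO_TD (by norm_num), IdO_A0 (by norm_num)⟩, IdO_B3 (by norm_num)⟩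
  have e16 : G.val (seg W (P3 (-(1 / 4)) (1 / 256) (1 / 2)) (P3 (1 / 4) (1 / 256) 0)) =
      G.val (seg W (P3 (-(1 / 4)) (1 / 256) (1 / 2)) (P3 (1 / 4) (1 / 256) (1 / 2))) * G.val (seg W (P3 (1 / 4) (1 / 256) (1 / 2)) (P3 (1 / 4) (1 / 256) 0)) :=
    IdO_thr S G 0 3 ⟨⟨IdO_TD (by norm_num), IdO_A0 (by norm_num)⟩, IdO_B3 (by norm_num)⟩ ⟨⟨IdO_TD (by norm_num), IdO_A0 (by norm_num)⟩, IdO_B3 (by norm_num)⟩ ⟨⟨IdO_TD (by norm_num), IdO_A0 (by norm_num)⟩, IdO_B3 (by norm_num)⟩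
  have e17 : G.val (seg W (P3 (-(1 / 4)) (1 / 256) (1 / 2)) (P3 (1 / 4) (1 / 256) (1 / 2))) =
      G.val (seg W (P3 (-(1 / 4)) (1 / 256) (1 / 2)) (P3 (1 / 4) (-(1 / 4)) (1 / 2))) * (G.val (seg W (P3 (1 / 4) (1 / 256) (1 / 2)) (P3 (1 / 4) (-(1 / 4)) (1 / 2))))⁻¹ :=
    eq_mul_inv_of_mul_eq (IdO_thr S G 2 3 ⟨⟨IdO_TD (by norm_num), IdO_A2 (by norm_num)⟩, IdO_B3 (by norm_num)⟩ ⟨⟨IdO_TD (by norm_num), IdO_A2 (by norm_num)⟩, IdO_B3 (by norm_num)⟩ ⟨⟨IdO_TD (by norm_num), IdO_A2 (by norm_num)⟩, IdO_B3 (by norm_num)⟩).symm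
  have e18 : G.val (seg W (P3 (-(1 / 4)) (1 / 256) (1 / 2)) (P3 (1 / 4) (-(1 / 4)) (1 / 2))) =
      G.val (seg W (P3 (-(1 / 4)) (1 / 256) (1 / 2)) (P3 (-(1 / 4)) (-(1 / 4)) (1 / 2))) * G.val (seg W (P3 (-(1 / 4)) (-(1 / 4)) (1 / 2)) (P3 (1 / 4) (-(1 / 4)) (1 / 2))) :=
    IdO_thr S G 2 3 ⟨⟨IdO_TD (by norm_num), IdO_A2 (by norm_num)⟩, IdO_B3 (by norm_num)⟩ ⟨⟨IdO_TD (by norm_num), IdO_A2 (by norm_num)⟩, IdO_B3 (by norm_num)⟩ ⟨⟨IdO_TD (by norm_num), IdO_A2 (by norm_num)⟩, IdO_B3 (by norm_num)⟩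
  have e19 : G.val (seg W (P3 (-(1 / 4)) (-(1 / 4)) (1 / 2)) (P3 (1 / 4) (-(1 / 4)) (1 / 2))) =
      G.val (seg W (P3 (-(1 / 4)) (-(1 / 4)) (1 / 2)) (P3 (1 / 256) (-(1 / 4)) (11 / 12))) * G.val (seg W (P3 (1 / 256) (-(1 / 4)) (11 / 12)) (P3 (1 / 4) (-(1 / 4)) (1 / 2))) :=
    IdO_thr S G 1 3 ⟨⟨IdO_TD (by norm_num), IdO_A1 (by norm_num)⟩, IdO_B3 (by norm_num)⟩ ⟨⟨IdO_TD (by norm_num), IdO_A1 (by norm_num)⟩, IdO_B3 (by norm_num)⟩ ⟨⟨IdO_TD (by norm_num), IdO_A1 (by norm_num)⟩, IdO_B3 (by norm_num)⟩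
  have e20 : G.val (seg W (P3 (-(1 / 4)) (-(1 / 4)) (1 / 2)) (P3 (1 / 256) (-(1 / 4)) (11 / 12))) =
      G.val (seg W (P3 (-(1 / 4)) (-(1 / 4)) (1 / 2)) (P3 (-(9 / 256)) (-(1 / 4)) (11 / 12))) * (G.val (seg W (P3 (1 / 256) (-(1 / 4)) (11 / 12)) (P3 (-(9 / 256)) (-(1 / 4)) (11 / 12))))⁻¹ :=
    eq_mul_inv_of_mul_eq (IdO_thr S G 1 3 ⟨⟨IdO_TD (by norm_num), IdO_A1 (by norm_num)⟩, IdO_B3 (by norm_num)⟩ ⟨⟨IdO_TD (by norm_num), IdO_A1 (by norm_num)⟩, IdO_B3 (by norm_num)⟩ ⟨⟨IdO_TD (by norm_num), IdO_A1 (by norm_num)⟩, IdO_B3 (by norm_num)⟩).symm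
  have e21 : G.val (seg W (P3 (-(1 / 4)) (1 / 256) (1 / 2)) (P3 (1 / 256) (-(1 / 4)) (1 / 2))) =
      G.val (seg W (P3 (-(1 / 4)) (1 / 256) (1 / 2)) (P3 (-(1 / 4)) (-(1 / 4)) (1 / 2))) * G.val (seg W (P3 (-(1 / 4)) (-(1 / 4)) (1 / 2)) (P3 (1 / 256) (-(1 / 4)) (1 / 2))) :=
    IdO_thr S G 2 3 ⟨⟨IdO_TD (by norm_num), IdO_A2 (by norm_num)⟩, IdO_B3 (by norm_num)⟩ ⟨⟨IdO_TD (by norm_num), IdO_A2 (by norm_num)⟩, IdO_B3 (by norm_num)⟩ ⟨⟨IdO_TD (by norm_num), IdO_A2 (by norm_num)⟩, IdO_B3 (by norm_num)⟩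
  have e22 : G.val (seg W (P3 (1 / 256) (-(1 / 4)) (1 / 2)) (P3 (1 / 256) (-(1 / 4)) 1)) =
      G.val (seg W (P3 (1 / 256) (-(1 / 4)) (1 / 2)) (P3 (1 / 256) (-(1 / 4)) (11 / 12))) * (G.val (seg W (P3 (1 / 256) (-(1 / 4)) 1) (P3 (1 / 256) (-(1 / 4)) (11 / 12))))⁻¹ :=
    eq_mul_inv_of_mul_eq (IdO_thr S G 1 0 ⟨⟨IdO_TD (by norm_num), IdO_A1 (by norm_num)⟩, IdO_B0 (by norm_num)⟩ ⟨⟨IdO_TD (by norm_num), IdO_A1 (by norm_num)⟩, IdO_B0 (by norm_num)⟩ ⟨⟨IdO_TD (by norm_num), IdO_A1 (by norm_num)⟩, IdO_B0 (by norm_num)⟩).symm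
  have e23 : G.val (seg W (P3 (1 / 256) (-(1 / 4)) (1 / 2)) (P3 (1 / 256) (-(1 / 4)) (11 / 12))) =
      (G.val (seg W (P3 (-(1 / 4)) (-(1 / 4)) (1 / 2)) (P3 (1 / 256) (-(1 / 4)) (1 / 2))))⁻¹ * G.val (seg W (P3 (-(1 / 4)) (-(1 / 4)) (1 / 2)) (P3 (1 / 256) (-(1 / 4)) (11 / 12))) :=
    eq_inv_mul_of_mul_eq (IdO_thr S G 1 3 ⟨⟨IdO_TD (by norm_num), IdO_A1 (by norm_num)⟩, IdO_B3 (by norm_num)⟩ ⟨⟨IdO_TD (by norm_num), IdO_A1 (by norm_num)⟩, IdO_B3 (by norm_num)⟩ ⟨⟨IdO_TD (by norm_num), IdO_A1 (by norm_num)⟩, IdO_B3 (by norm_num)⟩).symm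
  have e24 : G.val (seg W (P3 (1 / 256) (-(1 / 4)) 1) (P3 (1 / 256) (-(1 / 4)) (13 / 12))) = (G.val (seg W (P3 (1 / 256) (-(1 / 4)) (13 / 12)) (P3 (1 / 256) (-(1 / 4)) 1)))⁻¹ :=
    IdO_inv S G 1 0 ⟨⟨IdO_TD (by norm_num), IdO_A1 (by norm_num)⟩, IdO_B0 (by norm_num)⟩ ⟨⟨IdO_TD (by norm_num), IdO_A1 (by norm_num)⟩, IdO_B0 (by norm_num)⟩
  have e25 : G.val (seg W (P3 (1 / 256) (-(1 / 4)) (13 / 12)) (P3 (-(9 / 256)) (-(1 / 4)) (13 / 12))) = (G.val (seg W (P3 (-(9 / 256)) (-(1 / 4)) (13 / 12)) (P3 (1 / 256) (-(1 / 4)) (13 / 12))))⁻¹ :=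
    IdO_inv S G 1 2 ⟨⟨IdO_TD (by norm_num), IdO_A1 (by norm_num)⟩, IdO_B2 (by norm_num)⟩ ⟨⟨IdO_TD (by norm_num), IdO_A1 (by norm_num)⟩, IdO_B2 (by norm_num)⟩
  have e26 : G.val (seg W (P3 (-(9 / 256)) (-(1 / 4)) (13 / 12)) (P3 (-(9 / 256)) (-(1 / 4)) (11 / 12))) = (G.val (seg W (P3 (-(9 / 256)) (-(1 / 4)) (11 / 12)) (P3 (-(9 / 256)) (-(1 / 4)) (13 / 12))))⁻¹ :=
    IdO_inv S G 1 1 ⟨⟨IdO_TD (by norm_num), IdO_A1 (by norm_num)⟩, IdO_B1 (by norm_num)⟩ ⟨⟨IdO_TD (by norm_num), IdO_A1 (by norm_num)⟩, IdO_B1 (by norm_num)⟩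
  have e27 : G.val (seg W (P3 (-(9 / 256)) (-(1 / 4)) (11 / 12)) (P3 (1 / 256) (-(1 / 4)) (11 / 12))) = (G.val (seg W (P3 (1 / 256) (-(1 / 4)) (11 / 12)) (P3 (-(9 / 256)) (-(1 / 4)) (11 / 12))))⁻¹ :=
    IdO_inv S G 1 3 ⟨⟨IdO_TD (by norm_num), IdO_A1 (by norm_num)⟩, IdO_B3 (by norm_num)⟩ ⟨⟨IdO_TD (by norm_num), IdO_A1 (by norm_num)⟩, IdO_B3 (by norm_num)⟩
  have e28 : G.val (seg W (P3 (1 / 256) (-(1 / 4)) (11 / 12)) (P3 (1 / 256) (-(1 / 4)) 1)) = (G.val (seg W (P3 (1 / 256) (-(1 / 4)) 1) (P3 (1 / 256) (-(1 / 4)) (11 / 12))))⁻¹ :=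
    IdO_inv S G 1 0 ⟨⟨IdO_TD (by norm_num), IdO_A1 (by norm_num)⟩, IdO_B0 (by norm_num)⟩ ⟨⟨IdO_TD (by norm_num), IdO_A1 (by norm_num)⟩, IdO_B0 (by norm_num)⟩
  simp only [e0, e1, e2, e3, e4, e5, e6, e7, e8, e9, e10, e11, e12, e13, e14, e15, e16, e17, e18, e19, e20, e21, e22, e23, e24, e25, e26, e27, e28]
  group

end Pool.Agent.NHR
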