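import Mathlib
import Pool.Agent.NHR.Defs
import Pool.Agent.NHR.IdO
import Pool.Agent.NHR.IdL
import Pool.Agent.NHR.IdT
import Pool.Agent.NHR.IdI

/-!
# NHR/Id3: the value of the path of relation (3) in the complement of `K` (difficulty 2)

`IdO`, `IdL`, `IdT` (from `-1/256` to `79/256`), `IdI`, `IdI'`, `B_tri` on the line `x = -1/8` (`gA 3`, `gB 3`), and `group`.
-/

open scoped Manifold ContDiff Topology
open Set Filter
open Pool.Agent.CSG (stp)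
open Pool.Agent.RSG (E3 ex Thick)
open Pool.Agent.KNT (Dom Str Str2 bmp)
open Pool.Agent.NHP

namespace Pool.Agent.NHR

universe u v

variable {N : Type u} [TopologicalSpace N] [ChartedSpace E3 N] {Γ : Type v} [Group Γ]

theorem Id3 {κ : ℝ × ℂ → N} (hκ : Thick κ) {B W : E → N} (S : SP (core κ) B W) (G : GHom (core κ)ᶜ Γ) {P P₂ D H H' τ : ℝ}
    (L : Lnk κ B P P₂ D H H' τ) (p p₀ : ℝ) {ρ : ℝ} (h0 : 0 < ρ) (h1 : ρ ≤ H / 16) {b e : Γ}
    (hb : b = bet G κ B p P D H) (he : e = lbe G κ B W p P D H) :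
    G.val (seg κ (p, 1 / 2) (p, (ρ : ℂ))) * ex3 G κ B W p p₀ P D H ρ * G.val (seg κ (p₀, (ρ : ℂ)) (p₀, 1 / 2)) =
      (e * b⁻¹ * e⁻¹) * (e⁻¹ * b⁻¹ * e) * G.val (seg κ (p, 1 / 2) (p₀, 1 / 2)) := by
  have hI := IdI hκ S G L p h0 h1
  have hI' := IdI' hκ S G L p p₀ h0 h1
  have hO := IdO S G
  have hL := IdL S G
  have hT := IdT S G (r := -(1 / 256)) (r' := 79 / 256) (by norm_num [abs_le]) (by norm_num [abs_le])
  have mem : ∀ {r : ℝ}, |r| < 1 → P3 r 0 (-(1 / 8)) ∈ TD ∩ gA 3 ∩ gB 3 := by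
    intro r h1
    refine ⟨⟨⟨?_, ?_, ?_⟩, ?_⟩, ?_⟩
    · change ‖(⟨r, 0⟩ : ℂ)‖ < 1
      have : (⟨r, 0⟩ : ℂ) = (r : ℂ) := rfl
      rw [this, Complex.norm_real, Real.norm_eq_abs]
      exact h1
    · change -(1 / 4) < -(1 / 8 : ℝ)
      norm_num
    · change -(1 / 8 : ℝ) < 5 / 4
      norm_num
    · change -(1 / 8 : ℝ) < 0
      norm_num
    · change -(1 / 8 : ℝ) < 1
      norm_num
  have ha := mem (r := -(1 / 256)) (by norm_num [abs_lt])
  have hb1 := mem (r := 1 / 256) (by norm_num [abs_lt])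
  have hc := mem (r := 79 / 256) (by norm_num [abs_lt])
  have hd := mem (r := 81 / 256) (by norm_num [abs_lt])
  have t1 := B_tri S G 3 3 ha hb1 hc
  have t2 := B_tri S G 3 3 ha hc hd
  rw [← t2] at hI'
  subst hb he
  unfold ex3 lbe bet
  rw [hO, hL]
  generalize G.val (seg κ (p, 1 / 2) (p, (ρ : ℂ))) = s0 at hI ⊢
  generalize G.val (seg κ (p₀, (ρ : ℂ)) (p₀, 1 / 2)) = s1 at hI' ⊢
  generalize G.val (seg κ (p, 1 / 2) (p₀, 1 / 2)) = s2 at hI' ⊢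
  generalize In G κ B p P D H ρ = i0 at hI ⊢
  generalize Out G κ B p₀ P D H ρ = o0 at hI' ⊢
  generalize t0 G κ p P D H = t at hI hI' ⊢
  generalize Xc G W = x at ⊢
  generalize G.val (seg B (P3 (-(1 / 256)) 0 (-(1 / 8))) (P3 (79 / 256) 0 (-(1 / 8)))) = v at hT hI' t1 ⊢
  generalize G.val (seg B (P3 (-(1 / 256)) 0 (-(1 / 8))) (P3 (1 / 256) 0 (-(1 / 8)))) = v1 at t1 ⊢
  generalize G.val (seg B (P3 (1 / 256) 0 (-(1 / 8))) (P3 (79 / 256) 0 (-(1 / 8)))) = v2 at t1 ⊢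
  generalize G.val (seg B (P3 (79 / 256) 0 (-(1 / 8))) (P3 (81 / 256) 0 (-(1 / 8)))) = v3 at hI' ⊢
  generalize BL G B (79 / 256) = m at hT ⊢
  generalize BL G B (-(1 / 256)) = b at hT ⊢
  have h3 : m = v⁻¹ * b * v := by
    rw [hT]
    group
  have h5 : i0 = s0⁻¹ * t := by
    rw [← hI]
    group
  have h6 : v2 = v1⁻¹ * v := by
    rw [← t1]
    group
  rw [h3, h5, h6, ← hI']
  group

end Pool.Agent.NHR
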