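import Mathlib
import Pool.Agent.NHR.Defs
import Pool.Agent.NHR.ThW
import Pool.Agent.NHR.Tub
import Pool.Agent.NHR.Off
import Pool.Agent.NHR.MdW

/-!
# NHR/Iw3: the value of the path of relation (3) in the complement of `KW` (difficulty 4)

`g = fun l => kW κ W η (l, r)`, cut (`sub_tri`) at `l = p, P - 3/4 D, P - D/256, P + D/256, P + 79/256 D, P + 81/256 D, P + 3/4 D, p₀`.  `κ (l, η r) = B (l', 0, -x₁)`, `l' = (l - P)/D`,
`x₁ = η r / H`, for `|l'| ≤ 3/4`; for `|l'| < 1/64` this is `W (64 l', x₁/32, 0)`.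
(1) `l ∈ [p, P - 3/4 D]`: `g = κ (·, η r)` (`Psi_out`, off `QC`), so the segment of `κ`.
(2) `l' ∈ [-3/4, -1/256]`: `g = B (l', 0, -x₁)` (`Psi = id`: either `∉ W '' QA`, or `bmp = 0`), homotopic in `Slab ∩ {x < 0}` (`B'_tri`) to the path through
`(-3/4, 0, -1/8)`, `(-1/256, 0, -1/8)` and back to `x = -x₁`.
(3) `l' ∈ [-1/256, 1/256]`: `g = W (64 l', x₁/32, 9/8 bmp (64 l'))`.  Cut at `64 l' = ∓1/16`: `W'_in` with (`hA' 0`, `hB 1`), (`hA' 0`, `hB 2`), (`hA' 0`, `hB 0`);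
`Ov` has the same pieces (its ends are `im w = 1/256`, all in `hA' 0`).  The change of `x₁` to `1/8` at the ends: `W_ja` and `B'_tri`.
(4) `l' ∈ [1/256, 79/256]`: as (2).
(5) `l' ∈ [79/256, 81/256]`: `g = B (l', 0, -x₁) = W (x₁/32, 64 l' - 20, 1)` (`relB`), in `hA' 4 ∩ hB 0`; `Lo` is in the same convex set.
(6), (7): as (2), (1).
-/

open scoped Manifold ContDiff Topology
open Set Filter
open Pool.Agent.CSG (stp)
open Pool.Agent.RSG (E3 ex Thick)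
open Pool.Agent.KNT (Dom Str Str2 bmp)
open Pool.Agent.NHP

namespace Pool.Agent.NHR

universe u v

variable {N : Type u} [TopologicalSpace N] [ChartedSpace E3 N] {Γ : Type v} [Group Γ]


omit [ChartedSpace E3 N] in
theorem Iw3_P3 (x y z : ℝ) : (P3 x y z).1.re = x ∧ (P3 x y z).1.im = y ∧ (P3 x y z).2 = z := ⟨rfl, rfl, rfl⟩

/-- the foot piece of `B` in the thick knot -/
theorem Iw3_foot {κ : ℝ × ℂ → N} {B : E → N} {P P₂ D H H' τ : ℝ} (L : Lnk κ B P P₂ D H H' τ) {s x : ℝ}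
    (hs : |s| ≤ 3 / 4) (hx : 0 ≤ x) (hx1 : x ≤ 1 / 8) :
    B (P3 s 0 (-x)) = κ (P + D * s, ((H * x : ℝ) : ℂ)) := by
  have h1 : P3 s 0 (-x) ∈ TD := by
    have := abs_le.1 hs
    refine P3_mem ?_ (by linarith) (by linarith)
    nlinarith
  rw [L.foot _ h1 (by show -x < 1 / 4; linarith)]
  congr 1
  refine Prod.ext rfl ?_
  refine Complex.ext ?_ ?_
  · show -(H * -x) = (((H * x : ℝ) : ℂ)).re
    rw [Complex.ofReal_re]; ring
  · show -(H' * 0) = (((H * x : ℝ) : ℂ)).im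
    rw [Complex.ofReal_im]; ring

theorem Iw3_slab {s x : ℝ} (hs : |s| ≤ 3 / 4) (hx : 0 ≤ x) (hx1 : x ≤ 1 / 8) : P3 s 0 (-x) ∈ Slab := by
  refine ⟨hs, ?_, ?_, ?_⟩
  · show |(0 : ℝ)| ≤ 1 / 640
    rw [abs_zero]; norm_num
  · show -(9 / 64) ≤ -x
    linarith
  · show -x ≤ 73 / 64
    linarith

/-- the move is the identity at the points of `B` off the finger -/
theorem Iw3_id {K : Set N} {B W : E → N} (S : SP K B W) {s x : ℝ} (hs : |s| ≤ 3 / 4) (hs1 : 1 / 256 ≤ |s|)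
    (hx : 0 ≤ x) (hx1 : x ≤ 1 / 8) : Psi W (B (P3 s 0 (-x))) = B (P3 s 0 (-x)) := by
  refine Psi_out ?_
  rintro ⟨q, hq, hqe⟩
  have hqT : q ∈ TD := QCW_sub (QA_sub hq)
  have hq2 : |q.2| ≤ 1 / 16 := hq.2.2.2
  rcases S.sep q hqT _ (Iw3_slab hs hx hx1) hqe with ⟨-, h⟩ | ⟨h, -⟩
  · have h1 : q.1.re / 64 = s := congrArg (fun z : E => z.1.re) h
    have h2 : |q.1.re| ≤ 1 / 8 := hq.1
    rw [← h1, abs_div] at hs1
    have h3 : |(64 : ℝ)| = 64 := by norm_num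
    rw [h3] at hs1
    linarith
  · have h4 := abs_le.1 h
    have h5 := abs_le.1 hq2
    linarith [h4.1, h5.2]

/-- the move at the points of the finger -/
theorem Iw3_mv {K : Set N} {B W : E → N} (S : SP K B W) {s y : ℝ} (hs : |s| ≤ 1 / 4) (hy : 0 ≤ y) (hy1 : y ≤ 1 / 384) :
    Psi W (W (P3 s y 0)) = W (P3 s y (9 / 8 * bmp s)) := by
  by_cases h : |s| ≤ 1 / 8
  · have hq : P3 s y 0 ∈ QA := by
      refine ⟨h, ?_, hy1, ?_⟩
      · show -(13 / 384) ≤ y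
        linarith
      · show |(0 : ℝ)| ≤ 1 / 16
        rw [abs_zero]; norm_num
    rw [Psi_in S.chtW hq]
    congr 1
    refine Prod.ext rfl ?_
    show 0 + 9 / 8 * bmp s = 9 / 8 * bmp s
    ring
  · push Not at h
    have hT : P3 s y 0 ∈ TD := by
      have := abs_le.1 hs
      refine P3_mem ?_ (by norm_num) (by norm_num)
      nlinarith
    rw [Psi_out]
    · rw [bmp_zero h.le]
      congr 1
      refine Prod.ext rfl ?_
      show (0 : ℝ) = 9 / 8 * 0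
      ring
    · rintro ⟨q, hq, hqe⟩
      have hqT : q ∈ TD := QCW_sub (QA_sub hq)
      have he := S.chtW.inj hqT hT hqe
      have h2 : |q.1.re| ≤ 1 / 8 := hq.1
      rw [he] at h2
      have h3 : |s| ≤ 1 / 8 := h2
      linarith

theorem Iw3_relA {K : Set N} {B W : E → N} (S : SP K B W) {s y : ℝ} (hs : |s| ≤ 1 / 4) (hy : 0 ≤ y) (hy1 : y ≤ 1 / 256) :
    W (P3 s y 0) = B (P3 (s / 64) 0 (-(32 * y))) := by
  have hT : P3 s y 0 ∈ TD := by
    have := abs_le.1 hs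
    refine P3_mem ?_ (by norm_num) (by norm_num)
    nlinarith
  rw [S.relA _ hT (by show |(0 : ℝ)| ≤ 1 / 10; rw [abs_zero]; norm_num) (by show -(9 / 64) ≤ -(32 * y); linarith)
    (by show -(32 * y) ≤ 73 / 64; linarith)]
  congr 1
  refine Prod.ext (Complex.ext rfl ?_) rfl
  show (0 : ℝ) / 64 = 0
  norm_num

theorem Iw3_relB {K : Set N} {B W : E → N} (S : SP K B W) {x y : ℝ} (hy : |y| ≤ 1 / 4) (hx : 0 ≤ x) (hx1 : x ≤ 1 / 256) :
    W (P3 x y 1) = B (P3 (5 / 16 + y / 64) 0 (-(32 * x))) := by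
  have hT : P3 x y 1 ∈ TD := by
    have := abs_le.1 hy
    refine P3_mem ?_ (by norm_num) (by norm_num)
    nlinarith
  rw [S.relB _ hT (by show |(1 : ℝ) - 1| ≤ 1 / 10; rw [sub_self, abs_zero]; norm_num)
    (by show -(9 / 64) ≤ -(32 * x); linarith) (by show -(32 * x) ≤ 73 / 64; linarith)]
  congr 1
  refine Prod.ext (Complex.ext rfl ?_) rfl
  show (1 - (1 : ℝ)) / 64 = 0
  norm_num

theorem Iw3_zA {s y : ℝ} (hs : |s| ≤ 1 / 4) (hy : 0 ≤ y) (hy1 : y ≤ 1 / 256) : P3 s y 0 ∈ zA := by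
  refine ⟨?_, ?_, ?_, ?_⟩
  · have := abs_le.1 hs
    refine P3_mem ?_ (by norm_num) (by norm_num)
    nlinarith
  · show |(0 : ℝ)| ≤ 1 / 10
    rw [abs_zero]; norm_num
  · show -(9 / 64) ≤ -(32 * y)
    linarith
  · show -(32 * y) ≤ 73 / 64
    linarith

theorem Iw3_zB {x y : ℝ} (hy : |y| ≤ 1 / 4) (hx : 0 ≤ x) (hx1 : x ≤ 1 / 256) : P3 x y 1 ∈ zB := by
  refine ⟨?_, ?_, ?_, ?_⟩
  · have := abs_le.1 hy
    refine P3_mem ?_ (by norm_num) (by norm_num)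
    nlinarith
  · show |(1 : ℝ) - 1| ≤ 1 / 10
    rw [sub_self, abs_zero]; norm_num
  · show -(9 / 64) ≤ -(32 * x)
    linarith
  · show -(32 * x) ≤ 73 / 64
    linarith

theorem Iw3_ja (s y : ℝ) : ja (P3 s y 0) = P3 (s / 64) 0 (-(32 * y)) := by
  refine Prod.ext (Complex.ext rfl ?_) rfl
  show (0 : ℝ) / 64 = 0
  norm_num

theorem Iw3_jb (x y : ℝ) : jb (P3 x y 1) = P3 (5 / 16 + y / 64) 0 (-(32 * x)) := by
  refine Prod.ext (Complex.ext rfl ?_) rfl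
  show (1 - (1 : ℝ)) / 64 = 0
  norm_num

omit [ChartedSpace E3 N] in
theorem Iw3_lin (a b : ℝ) (y z t : ℝ) : (1 - t) • P3 a y z + t • P3 b y z = P3 ((1 - t) * a + t * b) y z := by
  refine Prod.ext (Complex.ext ?_ ?_) ?_
  · simp [P3]
  · simp [P3]; ring
  · simp [P3]; ring

omit [ChartedSpace E3 N] in
theorem Iw3_lin' (x : ℝ) (a b : ℝ) (z t : ℝ) : (1 - t) • P3 x a z + t • P3 x b z = P3 x ((1 - t) * a + t * b) z := by
  refine Prod.ext (Complex.ext ?_ ?_) ?_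
  · simp [P3]; ring
  · simp [P3]
  · simp [P3]; ring

omit [TopologicalSpace N] [ChartedSpace E3 N] in
/-- membership in the convex sets of the chart `W` -/
theorem Iw3_m01 {x y z : ℝ} (hx : -(1 / 4) ≤ x) (hx1 : x < -(1 / 32)) (hy : 0 < y) (hy1 : y ≤ 1 / 4) (hz : 0 ≤ z) (hz1 : z ≤ 39 / 32) :
    P3 x y z ∈ TD ∩ hA' 0 ∩ hB 1 := by
  refine ⟨⟨P3_mem ?_ (by linarith) (by linarith), ?_⟩, ?_⟩
  · nlinarith
  · show 0 < y
    exact hy
  · show x < -(1 / 32)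
    exact hx1

omit [TopologicalSpace N] [ChartedSpace E3 N] in
theorem Iw3_m02 {x y z : ℝ} (hx : -(1 / 4) ≤ x) (hx1 : x ≤ 1 / 4) (hy : 0 < y) (hy1 : y ≤ 1 / 4) (hz : 1 < z) (hz1 : z ≤ 39 / 32) :
    P3 x y z ∈ TD ∩ hA' 0 ∩ hB 2 := by
  refine ⟨⟨P3_mem ?_ (by linarith) (by linarith), ?_⟩, ?_⟩
  · nlinarith
  · show 0 < y
    exact hy
  · show 1 < z
    exact hz

omit [TopologicalSpace N] [ChartedSpace E3 N] in
theorem Iw3_m00 {x y z : ℝ} (hx : 0 < x) (hx1 : x ≤ 1 / 4) (hy : 0 < y) (hy1 : y ≤ 1 / 4) (hz : 0 ≤ z) (hz1 : z ≤ 39 / 32) :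
    P3 x y z ∈ TD ∩ hA' 0 ∩ hB 0 := by
  refine ⟨⟨P3_mem ?_ (by linarith) (by linarith), ?_⟩, ?_⟩
  · nlinarith
  · show 0 < y
    exact hy
  · show 0 < x
    exact hx

omit [TopologicalSpace N] [ChartedSpace E3 N] in
theorem Iw3_m40 {x y z : ℝ} (hx : 0 < x) (hx1 : x ≤ 1 / 256) (hy : -(1 / 4) ≤ y) (hy1 : y ≤ 1 / 4) (hz : -(1 / 8) ≤ z) (hz1 : z ≤ 1) :
    P3 x y z ∈ TD ∩ hA' 4 ∩ hB 0 := by
  refine ⟨⟨P3_mem ?_ (by linarith) (by linarith), ?_⟩, ?_⟩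
  · nlinarith
  · show |x| < 1 / 16 ∧ z < 9 / 8
    exact ⟨by rw [abs_of_pos hx]; linarith, by linarith⟩
  · show 0 < x
    exact hx

/-- the path over the vertical pair, with the ends at height `y` -/
theorem Iw3_over {K : Set N} {B W : E → N} (S : SP K B W) (G : GHom (KW K W)ᶜ Γ) {y : ℝ} (hy : 0 < y)
    (hy1 : y ≤ 1 / 384) :
    G.val (seg W (P3 (-(1 / 4)) y 0) (P3 (-(1 / 16)) y (9 / 8))) *
      G.val (seg W (P3 (-(1 / 16)) y (9 / 8)) (P3 (1 / 16) y (9 / 8))) *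
      G.val (seg W (P3 (1 / 16) y (9 / 8)) (P3 (1 / 4) y 0)) =
    G.val (seg B (P3 (-(1 / 256)) 0 (-(32 * y))) (P3 (-(1 / 256)) 0 (-(1 / 8)))) * Ov G W *
      G.val (seg B (P3 (1 / 256) 0 (-(1 / 8))) (P3 (1 / 256) 0 (-(32 * y)))) := by
  have e1 : G.val (seg B (P3 (-(1 / 256)) 0 (-(32 * y))) (P3 (-(1 / 256)) 0 (-(1 / 8)))) =
      G.val (seg W (P3 (-(1 / 4)) y 0) (P3 (-(1 / 4)) (1 / 256) 0)) := by
    have h := W_ja S G (a := P3 (-(1 / 4)) y 0) (b := P3 (-(1 / 4)) (1 / 256) 0)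
      (Iw3_zA (by norm_num [abs_of_nonneg]) hy.le (by linarith)) (Iw3_zA (by norm_num [abs_of_nonneg]) (by norm_num) le_rfl)
      (W'_path S 0 1 (Iw3_m01 (by norm_num) (by norm_num) hy (by linarith) le_rfl (by norm_num))
        (Iw3_m01 (by norm_num) (by norm_num) (by norm_num) (by norm_num) le_rfl (by norm_num)))
    rw [← h, Iw3_ja, Iw3_ja]
    norm_num
  have e2 : G.val (seg B (P3 (1 / 256) 0 (-(1 / 8))) (P3 (1 / 256) 0 (-(32 * y)))) =
      G.val (seg W (P3 (1 / 4) (1 / 256) 0) (P3 (1 / 4) y 0)) := by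
    have h := W_ja S G (a := P3 (1 / 4) (1 / 256) 0) (b := P3 (1 / 4) y 0)
      (Iw3_zA (by norm_num [abs_of_nonneg]) (by norm_num) le_rfl) (Iw3_zA (by norm_num [abs_of_nonneg]) hy.le (by linarith))
      (W'_path S 0 0 (Iw3_m00 (by norm_num) (by norm_num) (by norm_num) (by norm_num) le_rfl (by norm_num))
        (Iw3_m00 (by norm_num) (by norm_num) hy (by linarith) le_rfl (by norm_num)))
    rw [← h, Iw3_ja, Iw3_ja]
    norm_num
  rw [e1, e2]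
  unfold Ov
  have a0 : P3 (-(1 / 4)) y 0 ∈ TD ∩ hA' 0 ∩ hB 1 :=
    Iw3_m01 (by norm_num) (by norm_num) hy (by linarith) le_rfl (by norm_num)
  have b0 : P3 (-(1 / 4)) (1 / 256) 0 ∈ TD ∩ hA' 0 ∩ hB 1 :=
    Iw3_m01 (by norm_num) (by norm_num) (by norm_num) (by norm_num) le_rfl (by norm_num)
  have b1 : P3 (-(1 / 4)) (1 / 256) (39 / 32) ∈ TD ∩ hA' 0 ∩ hB 1 :=
    Iw3_m01 (by norm_num) (by norm_num) (by norm_num) (by norm_num) (by norm_num) le_rfl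
  have a1 : P3 (-(1 / 16)) y (9 / 8) ∈ TD ∩ hA' 0 ∩ hB 1 :=
    Iw3_m01 (by norm_num) (by norm_num) hy (by linarith) (by norm_num) (by norm_num)
  have b1' : P3 (-(1 / 4)) (1 / 256) (39 / 32) ∈ TD ∩ hA' 0 ∩ hB 2 :=
    Iw3_m02 (by norm_num) (by norm_num) (by norm_num) (by norm_num) (by norm_num) le_rfl
  have a1' : P3 (-(1 / 16)) y (9 / 8) ∈ TD ∩ hA' 0 ∩ hB 2 :=
    Iw3_m02 (by norm_num) (by norm_num) hy (by linarith) (by norm_num) (by norm_num)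
  have b2' : P3 (1 / 4) (1 / 256) (39 / 32) ∈ TD ∩ hA' 0 ∩ hB 2 :=
    Iw3_m02 (by norm_num) (by norm_num) (by norm_num) (by norm_num) (by norm_num) le_rfl
  have a2' : P3 (1 / 16) y (9 / 8) ∈ TD ∩ hA' 0 ∩ hB 2 :=
    Iw3_m02 (by norm_num) (by norm_num) hy (by linarith) (by norm_num) (by norm_num)
  have b2 : P3 (1 / 4) (1 / 256) (39 / 32) ∈ TD ∩ hA' 0 ∩ hB 0 :=
    Iw3_m00 (by norm_num) (by norm_num) (by norm_num) (by norm_num) (by norm_num) le_rfl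
  have b3 : P3 (1 / 4) (1 / 256) 0 ∈ TD ∩ hA' 0 ∩ hB 0 :=
    Iw3_m00 (by norm_num) (by norm_num) (by norm_num) (by norm_num) le_rfl (by norm_num)
  have a2 : P3 (1 / 16) y (9 / 8) ∈ TD ∩ hA' 0 ∩ hB 0 :=
    Iw3_m00 (by norm_num) (by norm_num) hy (by linarith) (by norm_num) (by norm_num)
  have a3 : P3 (1 / 4) y 0 ∈ TD ∩ hA' 0 ∩ hB 0 :=
    Iw3_m00 (by norm_num) (by norm_num) hy (by linarith) le_rfl (by norm_num)
  have t1 := W'_tri S G 0 1 a0 b0 b1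
  have t2 := W'_tri S G 0 1 a0 a1 b1
  have t3 := W'_tri S G 0 2 a1' b1' b2'
  have t4 := W'_tri S G 0 2 a1' a2' b2'
  have t5 := W'_tri S G 0 0 a2 b2 b3
  have t6 := W'_tri S G 0 0 a2 b3 a3
  calc _ = G.val (seg W (P3 (-(1 / 4)) y 0) (P3 (-(1 / 16)) y (9 / 8))) *
        (G.val (seg W (P3 (-(1 / 16)) y (9 / 8)) (P3 (1 / 16) y (9 / 8))) *
        G.val (seg W (P3 (1 / 16) y (9 / 8)) (P3 (1 / 4) (1 / 256) (39 / 32)))) *
        G.val (seg W (P3 (1 / 4) (1 / 256) (39 / 32)) (P3 (1 / 4) (1 / 256) 0)) *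
        G.val (seg W (P3 (1 / 4) (1 / 256) 0) (P3 (1 / 4) y 0)) := by
        rw [← t6, ← t5]
        simp only [mul_assoc]
    _ = _ := by
        rw [t4, ← t3]
        rw [← mul_assoc (G.val (seg W (P3 (-(1 / 4)) y 0) (P3 (-(1 / 16)) y (9 / 8))))
          (G.val (seg W (P3 (-(1 / 16)) y (9 / 8)) (P3 (-(1 / 4)) (1 / 256) (39 / 32)))), t2, ← t1]
        simp only [mul_assoc]

/-- the path under the horizontal pair, with the ends at the height `x` -/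
theorem Iw3_under {K : Set N} {B W : E → N} (S : SP K B W) (G : GHom (KW K W)ᶜ Γ) {x : ℝ} (hx : 0 < x)
    (hx1 : x ≤ 1 / 384) :
    G.val (seg W (P3 x (-(1 / 4)) 1) (P3 x (1 / 4) 1)) =
    G.val (seg B (P3 (79 / 256) 0 (-(32 * x))) (P3 (79 / 256) 0 (-(1 / 8)))) * Lo G W *
      G.val (seg B (P3 (81 / 256) 0 (-(1 / 8))) (P3 (81 / 256) 0 (-(32 * x)))) := by
  have a0 : P3 x (-(1 / 4)) 1 ∈ TD ∩ hA' 4 ∩ hB 0 :=
    Iw3_m40 hx (by linarith) le_rfl (by norm_num) (by norm_num) le_rfl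
  have a1 : P3 x (1 / 4) 1 ∈ TD ∩ hA' 4 ∩ hB 0 :=
    Iw3_m40 hx (by linarith) (by norm_num) le_rfl (by norm_num) le_rfl
  have b0 : P3 (1 / 256) (-(1 / 4)) 1 ∈ TD ∩ hA' 4 ∩ hB 0 :=
    Iw3_m40 (by norm_num) le_rfl le_rfl (by norm_num) (by norm_num) le_rfl
  have b1 : P3 (1 / 256) (1 / 4) 1 ∈ TD ∩ hA' 4 ∩ hB 0 :=
    Iw3_m40 (by norm_num) le_rfl (by norm_num) le_rfl (by norm_num) le_rfl
  have c0 : P3 (1 / 256) (-(1 / 4)) (-(1 / 8)) ∈ TD ∩ hA' 4 ∩ hB 0 :=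
    Iw3_m40 (by norm_num) le_rfl le_rfl (by norm_num) le_rfl (by norm_num)
  have c1 : P3 (1 / 256) (1 / 4) (-(1 / 8)) ∈ TD ∩ hA' 4 ∩ hB 0 :=
    Iw3_m40 (by norm_num) le_rfl (by norm_num) le_rfl le_rfl (by norm_num)
  have e1 : G.val (seg B (P3 (79 / 256) 0 (-(32 * x))) (P3 (79 / 256) 0 (-(1 / 8)))) =
      G.val (seg W (P3 x (-(1 / 4)) 1) (P3 (1 / 256) (-(1 / 4)) 1)) := by
    have h := W_jb S G (a := P3 x (-(1 / 4)) 1) (b := P3 (1 / 256) (-(1 / 4)) 1)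
      (Iw3_zB (by norm_num [abs_of_nonneg]) hx.le (by linarith)) (Iw3_zB (by norm_num [abs_of_nonneg]) (by norm_num) le_rfl)
      (W'_path S 4 0 a0 b0)
    rw [← h, Iw3_jb, Iw3_jb]
    norm_num
  have e2 : G.val (seg B (P3 (81 / 256) 0 (-(1 / 8))) (P3 (81 / 256) 0 (-(32 * x)))) =
      G.val (seg W (P3 (1 / 256) (1 / 4) 1) (P3 x (1 / 4) 1)) := by
    have h := W_jb S G (a := P3 (1 / 256) (1 / 4) 1) (b := P3 x (1 / 4) 1)
      (Iw3_zB (by norm_num [abs_of_nonneg]) (by norm_num) le_rfl) (Iw3_zB (by norm_num [abs_of_nonneg]) hx.le (by linarith))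
      (W'_path S 4 0 b1 a1)
    rw [← h, Iw3_jb, Iw3_jb]
    norm_num
  rw [e1, e2]
  unfold Lo
  rw [W'_tri S G 4 0 b0 c0 c1, W'_tri S G 4 0 b0 c1 b1, W'_tri S G 4 0 a0 b0 b1, W'_tri S G 4 0 a0 b1 a1]

/-- a piece on which the path runs in the slab -/
theorem Iw3_slabpiece {K : Set N} {B W : E → N} (S : SP K B W) (G : GHom (KW K W)ᶜ Γ) {s s' x : ℝ}
    (hs : |s| ≤ 3 / 4) (hs' : |s'| ≤ 3 / 4) (hx : 0 < x) (hx1 : x ≤ 1 / 8) :
    G.val (seg B (P3 s 0 (-x)) (P3 s' 0 (-x))) = G.val (seg B (P3 s 0 (-x)) (P3 s 0 (-(1 / 8)))) *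
      G.val (seg B (P3 s 0 (-(1 / 8))) (P3 s' 0 (-(1 / 8)))) * G.val (seg B (P3 s' 0 (-(1 / 8))) (P3 s' 0 (-x))) := by
  have a : P3 s 0 (-x) ∈ Slab := Iw3_slab hs hx.le hx1
  have a' : P3 s' 0 (-x) ∈ Slab := Iw3_slab hs' hx.le hx1
  have b : P3 s 0 (-(1 / 8)) ∈ Slab := Iw3_slab hs (by norm_num) le_rfl
  have b' : P3 s' 0 (-(1 / 8)) ∈ Slab := Iw3_slab hs' (by norm_num) le_rfl
  have ha : (P3 s 0 (-x)).2 < 0 := by show -x < 0; linarith
  have ha' : (P3 s' 0 (-x)).2 < 0 := by show -x < 0; linarith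
  have hb : (P3 s 0 (-(1 / 8))).2 < 0 := by show -(1 / 8 : ℝ) < 0; norm_num
  have hb' : (P3 s' 0 (-(1 / 8))).2 < 0 := by show -(1 / 8 : ℝ) < 0; norm_num
  rw [B'_tri S G a b b' ha hb hb', B'_tri S G a b' a' ha hb' ha']

/-- forth and back -/
theorem Iw3_fb {K : Set N} {B W : E → N} (S : SP K B W) (G : GHom (KW K W)ᶜ Γ) {s x : ℝ}
    (hs : |s| ≤ 3 / 4) (hx : 0 < x) (hx1 : x ≤ 1 / 8) :
    G.val (seg B (P3 s 0 (-(1 / 8))) (P3 s 0 (-x))) * G.val (seg B (P3 s 0 (-x)) (P3 s 0 (-(1 / 8)))) = 1 := by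
  have a : P3 s 0 (-x) ∈ Slab := Iw3_slab hs hx.le hx1
  have b : P3 s 0 (-(1 / 8)) ∈ Slab := Iw3_slab hs (by norm_num) le_rfl
  have ha : (P3 s 0 (-x)).2 < 0 := by show -x < 0; linarith
  have hb : (P3 s 0 (-(1 / 8))).2 < 0 := by show -(1 / 8 : ℝ) < 0; norm_num
  rw [B'_tri S G b a b hb ha hb]
  refine seg_self G ?_
  have h := (B'_path S b b hb hb).2 0 ⟨le_rfl, zero_le_one⟩
  rwa [seg_zero] at h


theorem Iw3 {κ : ℝ × ℂ → N} (hκ : Thick κ) {B W : E → N} (S : SP (core κ) B W) {P P₂ D H H' τ : ℝ}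
    (L : Lnk κ B P P₂ D H H' τ) {Y : Set N} (hY : Y = (KW (core κ) W)ᶜ) (G : GHom Y Γ) {p p₀ η r : ℝ} (hp : p < P - D) (hp0 : P + D < p₀)
    (hη : 0 < η) (hηH : η ≤ H / 16) (hr : 0 < r) (hr1 : r < 1) (hk : Thick (kW κ W η))
    (hc : core (kW κ W η) = KW (core κ) W) (hoff : ∀ l ∈ Icc p (P - 3 / 4 * D), ∀ v : ℂ, ‖v‖ ≤ η → κ (l, v) ∉ QC B W)
    (hoff' : ∀ l ∈ Icc (P + 3 / 4 * D) p₀, ∀ v : ℂ, ‖v‖ ≤ η → κ (l, v) ∉ QC B W) :
    G.val (seg (kW κ W η) (p, (r : ℂ)) (p₀, (r : ℂ))) = ex3 G κ B W p p₀ P D H (η * r) := by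
  subst hY
  have hD := L.Dpos
  have hH := L.Hpos
  set x : ℝ := η * r / H with hxd
  have hx : 0 < x := by positivity
  have hx16 : x ≤ 1 / 16 := by
    rw [hxd, div_le_iff₀ hH]
    nlinarith
  have hHx : H * x = η * r := by
    rw [hxd]; field_simp
  set g : ℝ → N := fun l => kW κ W η (l, (r : ℂ)) with hg
  have hnr : ‖(r : ℂ)‖ < 1 := by rw [Complex.norm_real, Real.norm_of_nonneg hr.le]; exact hr1
  have hgc : ContinuousOn g univ := by
    have h := thick_cont hk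
    refine h.comp (f := fun l : ℝ => (l, (r : ℂ))) (by fun_prop) ?_
    intro l _
    exact hnr
  have hgY : ∀ l ∈ (univ : Set ℝ), g l ∈ (KW (core κ) W)ᶜ := by
    intro l _
    have h := thick_off hk (l := l) (v := (r : ℂ)) hnr (by exact_mod_cast hr.ne')
    rw [hc] at h
    exact h
  have hgv : ∀ l, g l = Psi W (κ (l, ((η * r : ℝ) : ℂ))) := by
    intro l
    show Psi W (κ (l, (η : ℂ) * (r : ℂ))) = _
    rw [Complex.ofReal_mul]
  have hgp : ∀ a b : ℝ, PathOn (KW (core κ) W)ᶜ (seg g a b) := by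
    intro a b
    exact seg_path convex_univ hgc hgY (mem_univ _) (mem_univ _)
  have h0 : G.val (seg (kW κ W η) (p, (r : ℂ)) (p₀, (r : ℂ))) = G.val (seg g p p₀) := by
    refine G.val_congr (hgp p p₀) ?_
    intro t _
    show kW κ W η ((1 - t) • (p, (r : ℂ)) + t • (p₀, (r : ℂ))) = kW κ W η ((1 - t) • p + t • p₀, (r : ℂ))
    congr 1
    refine Prod.ext rfl ?_
    show (1 - t) • (r : ℂ) + t • (r : ℂ) = (r : ℂ)
    rw [← add_smul]; simp
  have htri : ∀ a b c : ℝ, G.val (seg g a b) * G.val (seg g b c) = G.val (seg g a c) := by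
    intro a b c
    exact sub_tri G convex_univ hgc hgY (mem_univ _) (mem_univ _) (mem_univ _)
  -- the value at the points of `B`
  have hgB : ∀ s : ℝ, |s| ≤ 3 / 4 → g (P + D * s) = Psi W (B (P3 s 0 (-x))) := by
    intro s hs
    rw [hgv, Iw3_foot L hs hx.le (by linarith), hHx]
  have hgB1 : ∀ s : ℝ, |s| ≤ 3 / 4 → 1 / 256 ≤ |s| → g (P + D * s) = B (P3 s 0 (-x)) := by
    intro s hs hs1
    rw [hgB s hs, Iw3_id S hs hs1 hx.le (by linarith)]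
  have hgW : ∀ s : ℝ, |s| ≤ 1 / 4 → g (P + D * (s / 64)) = W (P3 s (x / 32) (9 / 8 * bmp s)) := by
    intro s hs
    rw [hgB _ (by rw [abs_div, abs_of_pos (by norm_num : (0 : ℝ) < 64)]; linarith), ← Iw3_mv S hs (by positivity) (by linarith),
      Iw3_relA S hs (by positivity) (by linarith)]
    congr 4
    ring
  have hlin : ∀ s s' t : ℝ, (1 - t) • (P + D * s) + t • (P + D * s') = P + D * ((1 - t) * s + t * s') := by
    intro s s' t
    simp only [smul_eq_mul]; ring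
  -- pieces in the slab
  have hpc : ∀ s s' : ℝ, |s| ≤ 3 / 4 → |s'| ≤ 3 / 4 → (∀ t ∈ Icc (0 : ℝ) 1, 1 / 256 ≤ |(1 - t) * s + t * s'|) →
      G.val (seg g (P + D * s) (P + D * s')) = G.val (seg B (P3 s 0 (-x)) (P3 s' 0 (-x))) := by
    intro s s' hs hs' h
    refine (G.val_congr (hgp _ _) ?_).symm
    intro t ht
    show B ((1 - t) • P3 s 0 (-x) + t • P3 s' 0 (-x)) = g ((1 - t) • (P + D * s) + t • (P + D * s'))
    rw [Iw3_lin, hlin, hgB1 _ ?_ (h t ht)]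
    rw [abs_le] at hs hs' ⊢
    constructor <;> nlinarith [ht.1, ht.2, hs.1, hs.2, hs'.1, hs'.2]
  -- the first and the last piece
  have hout : ∀ l, κ (l, ((η * r : ℝ) : ℂ)) ∉ QC B W → g l = κ (l, ((η * r : ℝ) : ℂ)) := by
    intro l hl
    rw [hgv]
    refine Psi_out ?_
    rintro ⟨q, hq, hqe⟩
    exact hl (Or.inr ⟨q, QA_sub hq, hqe⟩)
  have hnv : ‖((η * r : ℝ) : ℂ)‖ ≤ η := by
    rw [Complex.norm_real, Real.norm_of_nonneg (by positivity)]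
    nlinarith
  have hk1 : G.val (seg g p (P - 3 / 4 * D)) =
      G.val (seg κ (p, ((η * r : ℝ) : ℂ)) (P - 3 / 4 * D, ((η * r : ℝ) : ℂ))) := by
    refine (G.val_congr (hgp _ _) ?_).symm
    intro t ht
    have hl : (1 - t) * p + t * (P - 3 / 4 * D) ∈ Icc p (P - 3 / 4 * D) := by
      constructor <;> nlinarith [ht.1, ht.2]
    have e := hout _ (hoff _ hl _ hnv)
    show κ ((1 - t) • (p, ((η * r : ℝ) : ℂ)) + t • (P - 3 / 4 * D, ((η * r : ℝ) : ℂ))) =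
      g ((1 - t) * p + t * (P - 3 / 4 * D))
    rw [e]
    congr 1
    refine Prod.ext rfl ?_
    show (1 - t) • ((η * r : ℝ) : ℂ) + t • ((η * r : ℝ) : ℂ) = ((η * r : ℝ) : ℂ)
    rw [← add_smul]; simp
  have hk2 : G.val (seg g (P + 3 / 4 * D) p₀) =
      G.val (seg κ (P + 3 / 4 * D, ((η * r : ℝ) : ℂ)) (p₀, ((η * r : ℝ) : ℂ))) := by
    refine (G.val_congr (hgp _ _) ?_).symm
    intro t ht
    have hl : (1 - t) * (P + 3 / 4 * D) + t * p₀ ∈ Icc (P + 3 / 4 * D) p₀ := by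
      constructor <;> nlinarith [ht.1, ht.2]
    have e := hout _ (hoff' _ hl _ hnv)
    show κ ((1 - t) • (P + 3 / 4 * D, ((η * r : ℝ) : ℂ)) + t • (p₀, ((η * r : ℝ) : ℂ))) =
      g ((1 - t) * (P + 3 / 4 * D) + t * p₀)
    rw [e]
    congr 1
    refine Prod.ext rfl ?_
    show (1 - t) • ((η * r : ℝ) : ℂ) + t • ((η * r : ℝ) : ℂ) = ((η * r : ℝ) : ℂ)
    rw [← add_smul]; simp
  -- the pieces of the finger
  have hbmc : Continuous bmp := bmp_smooth.continuous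
  have hfp : ∀ (i : Fin 5) (j : Fin 4) (s s' : ℝ), (∀ t ∈ Icc (0 : ℝ) 1, |(1 - t) * s + t * s'| ≤ 1 / 4) →
      (∀ t ∈ Icc (0 : ℝ) 1, P3 ((1 - t) * s + t * s') (x / 32) (9 / 8 * bmp ((1 - t) * s + t * s')) ∈
        TD ∩ hA' i ∩ hB j) →
      G.val (seg g (P + D * (s / 64)) (P + D * (s' / 64))) =
        G.val (seg W (P3 s (x / 32) (9 / 8 * bmp s)) (P3 s' (x / 32) (9 / 8 * bmp s'))) := by
    intro i j s s' h1 h2
    have hcont : Continuous fun t : ℝ => P3 ((1 - t) * s + t * s') (x / 32) (9 / 8 * bmp ((1 - t) * s + t * s')) := by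
      unfold P3
      refine Continuous.prodMk ?_ (by fun_prop)
      have e : (fun t : ℝ => (⟨(1 - t) * s + t * s', x / 32⟩ : ℂ)) =
          fun t : ℝ => (((1 - t) * s + t * s' : ℝ) : ℂ) + ((x / 32 : ℝ) : ℂ) * Complex.I := by
        funext t
        refine Complex.ext ?_ ?_ <;> simp
      rw [e]
      fun_prop
    have h := W'_in S G i j hcont.continuousOn h2
    simp only [sub_zero, one_mul, zero_mul, add_zero, sub_self, zero_add] at h
    rw [← h]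
    refine (G.val_congr (hgp _ _) ?_).symm
    intro t ht
    show W (P3 ((1 - t) * s + t * s') (x / 32) (9 / 8 * bmp ((1 - t) * s + t * s'))) =
      g ((1 - t) • (P + D * (s / 64)) + t • (P + D * (s' / 64)))
    rw [hlin, ← hgW _ (h1 t ht)]
    congr 2
    ring
  have hb0 : ∀ s, 0 ≤ 9 / 8 * bmp s := fun s => mul_nonneg (by norm_num) (bmp_nonneg s)
  have hb1 : ∀ s, 9 / 8 * bmp s ≤ 39 / 32 := fun s => by linarith [bmp_le s]
  have hx32 : 0 < x / 32 := by positivity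
  have p1 : G.val (seg g (P + D * (-(1 / 4) / 64)) (P + D * (-(1 / 16) / 64))) =
      G.val (seg W (P3 (-(1 / 4)) (x / 32) 0) (P3 (-(1 / 16)) (x / 32) (9 / 8))) := by
    have h := hfp 0 1 (-(1 / 4)) (-(1 / 16)) (fun t ht => by rw [abs_le]; constructor <;> nlinarith [ht.1, ht.2])
      (fun t ht => Iw3_m01 (by nlinarith [ht.1, ht.2]) (by nlinarith [ht.1, ht.2]) hx32 (by linarith) (hb0 _) (hb1 _))
    rw [h, bmp_zero (by norm_num [abs_of_nonneg]), bmp_one (by norm_num [abs_of_nonneg])]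
    norm_num
  have p2 : G.val (seg g (P + D * (-(1 / 16) / 64)) (P + D * (1 / 16 / 64))) =
      G.val (seg W (P3 (-(1 / 16)) (x / 32) (9 / 8)) (P3 (1 / 16) (x / 32) (9 / 8))) := by
    have h := hfp 0 2 (-(1 / 16)) (1 / 16) (fun t ht => by rw [abs_le]; constructor <;> nlinarith [ht.1, ht.2])
      (fun t ht => by
        refine Iw3_m02 (by nlinarith [ht.1, ht.2]) (by nlinarith [ht.1, ht.2]) hx32 (by linarith) ?_ (hb1 _)
        rw [bmp_one (by rw [abs_le]; constructor <;> nlinarith [ht.1, ht.2])]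
        norm_num)
    rw [h, bmp_one (by norm_num [abs_of_nonneg]), bmp_one (by norm_num [abs_of_nonneg])]
    norm_num
  have p3 : G.val (seg g (P + D * (1 / 16 / 64)) (P + D * (1 / 4 / 64))) =
      G.val (seg W (P3 (1 / 16) (x / 32) (9 / 8)) (P3 (1 / 4) (x / 32) 0)) := by
    have h := hfp 0 0 (1 / 16) (1 / 4) (fun t ht => by rw [abs_le]; constructor <;> nlinarith [ht.1, ht.2])
      (fun t ht => Iw3_m00 (by nlinarith [ht.1, ht.2]) (by nlinarith [ht.1, ht.2]) hx32 (by linarith) (hb0 _) (hb1 _))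
    rw [h, bmp_one (by norm_num [abs_of_nonneg]), bmp_zero (by norm_num [abs_of_nonneg])]
    norm_num
  have hOv := Iw3_over S G hx32 (by linarith)
  rw [← p1, ← p2, ← p3, htri, htri] at hOv
  have e32 : 32 * (x / 32) = x := by ring
  rw [e32] at hOv
  -- the piece under the horizontal pair
  have q1 : G.val (seg g (P + D * (79 / 256)) (P + D * (81 / 256))) =
      G.val (seg W (P3 (x / 32) (-(1 / 4)) 1) (P3 (x / 32) (1 / 4) 1)) := by
    rw [hpc _ _ (by norm_num [abs_of_nonneg]) (by norm_num [abs_of_nonneg])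
      (fun t ht => by rw [abs_of_nonneg (by nlinarith [ht.1, ht.2])]; nlinarith [ht.1, ht.2])]
    have h := W_jb S G (a := P3 (x / 32) (-(1 / 4)) 1) (b := P3 (x / 32) (1 / 4) 1)
      (Iw3_zB (by norm_num [abs_of_nonneg]) hx32.le (by linarith)) (Iw3_zB (by norm_num [abs_of_nonneg]) hx32.le (by linarith))
      (W'_path S 4 0 (Iw3_m40 hx32 (by linarith) le_rfl (by norm_num) (by norm_num) le_rfl)
        (Iw3_m40 hx32 (by linarith) (by norm_num) le_rfl (by norm_num) le_rfl))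
    rw [← h, Iw3_jb, Iw3_jb, e32]
    norm_num
  have hLo := Iw3_under S G hx32 (by linarith)
  rw [← q1, e32] at hLo
  have r1 : G.val (seg g (P + D * (-(3 / 4))) (P + D * (-(1 / 256)))) =
      G.val (seg B (P3 (-(3 / 4)) 0 (-x)) (P3 (-(1 / 256)) 0 (-x))) :=
    hpc _ _ (by norm_num [abs_of_nonneg]) (by norm_num [abs_of_nonneg])
      (fun t ht => by rw [abs_of_nonpos (by nlinarith [ht.1, ht.2])]; nlinarith [ht.1, ht.2])
  have r2 : G.val (seg g (P + D * (1 / 256)) (P + D * (79 / 256))) =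
      G.val (seg B (P3 (1 / 256) 0 (-x)) (P3 (79 / 256) 0 (-x))) :=
    hpc _ _ (by norm_num [abs_of_nonneg]) (by norm_num [abs_of_nonneg])
      (fun t ht => by rw [abs_of_nonneg (by nlinarith [ht.1, ht.2])]; nlinarith [ht.1, ht.2])
  have r3 : G.val (seg g (P + D * (81 / 256)) (P + D * (3 / 4))) =
      G.val (seg B (P3 (81 / 256) 0 (-x)) (P3 (3 / 4) 0 (-x))) :=
    hpc _ _ (by norm_num [abs_of_nonneg]) (by norm_num [abs_of_nonneg])
      (fun t ht => by rw [abs_of_nonneg (by nlinarith [ht.1, ht.2])]; nlinarith [ht.1, ht.2])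
  rw [Iw3_slabpiece S G (by norm_num [abs_of_nonneg]) (by norm_num [abs_of_nonneg]) hx (by linarith)] at r1 r2 r3
  have n1 : P + D * (-(1 / 4) / 64) = P + D * (-(1 / 256)) := by ring
  have n2 : P + D * (1 / 4 / 64) = P + D * (1 / 256) := by ring
  have n3 : P + D * (-(3 / 4)) = P - 3 / 4 * D := by ring
  have n4 : P + D * (3 / 4) = P + 3 / 4 * D := by ring
  rw [n1, n2] at hOv
  rw [n3] at r1
  rw [n4] at r3
  have f1 := Iw3_fb S G (s := -(1 / 256)) (x := x) (by norm_num [abs_of_nonneg]) hx (by linarith)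
  have f2 := Iw3_fb S G (s := 1 / 256) (x := x) (by norm_num [abs_of_nonneg]) hx (by linarith)
  have f3 := Iw3_fb S G (s := 79 / 256) (x := x) (by norm_num [abs_of_nonneg]) hx (by linarith)
  have f4 := Iw3_fb S G (s := 81 / 256) (x := x) (by norm_num [abs_of_nonneg]) hx (by linarith)
  rw [h0, ← htri p (P - 3 / 4 * D) p₀, ← htri (P - 3 / 4 * D) (P + D * (-(1 / 256))) p₀,
    ← htri (P + D * (-(1 / 256))) (P + D * (1 / 256)) p₀, ← htri (P + D * (1 / 256)) (P + D * (79 / 256)) p₀,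
    ← htri (P + D * (79 / 256)) (P + D * (81 / 256)) p₀, ← htri (P + D * (81 / 256)) (P + 3 / 4 * D) p₀,
    hk1, hk2, r1, r2, r3, hOv, hLo]
  unfold ex3 In Out
  rw [← hxd]
  clear_value x
  generalize G.val (seg κ (p, ((η * r : ℝ) : ℂ)) (P - 3 / 4 * D, ((η * r : ℝ) : ℂ))) = A1
  generalize G.val (seg κ (P + 3 / 4 * D, ((η * r : ℝ) : ℂ)) (p₀, ((η * r : ℝ) : ℂ))) = A2
  generalize Ov G W = A3
  generalize Lo G W = A4
  generalize G.val (seg B (P3 (-(1 / 256)) 0 (-(1 / 8))) (P3 (-(1 / 256)) 0 (-x))) = u1 at f1 ⊢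
  generalize G.val (seg B (P3 (-(1 / 256)) 0 (-x)) (P3 (-(1 / 256)) 0 (-(1 / 8)))) = u1' at f1 ⊢
  generalize G.val (seg B (P3 (1 / 256) 0 (-(1 / 8))) (P3 (1 / 256) 0 (-x))) = u2 at f2 ⊢
  generalize G.val (seg B (P3 (1 / 256) 0 (-x)) (P3 (1 / 256) 0 (-(1 / 8)))) = u2' at f2 ⊢
  generalize G.val (seg B (P3 (79 / 256) 0 (-(1 / 8))) (P3 (79 / 256) 0 (-x))) = u3 at f3 ⊢
  generalize G.val (seg B (P3 (79 / 256) 0 (-x)) (P3 (79 / 256) 0 (-(1 / 8)))) = u3' at f3 ⊢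
  generalize G.val (seg B (P3 (81 / 256) 0 (-(1 / 8))) (P3 (81 / 256) 0 (-x))) = u4 at f4 ⊢
  generalize G.val (seg B (P3 (81 / 256) 0 (-x)) (P3 (81 / 256) 0 (-(1 / 8)))) = u4' at f4 ⊢
  have g1 : u1' = u1⁻¹ := (inv_eq_of_mul_eq_one_right f1).symm
  have g2 : u2' = u2⁻¹ := (inv_eq_of_mul_eq_one_right f2).symm
  have g3 : u3' = u3⁻¹ := (inv_eq_of_mul_eq_one_right f3).symm
  have g4 : u4' = u4⁻¹ := (inv_eq_of_mul_eq_one_right f4).symm
  rw [g1, g2, g3, g4]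
  group

end Pool.Agent.NHR
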