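import Mathlib
import Pool.Agent.NHR.Defs
import Pool.Agent.NHR.Off
import Pool.Agent.NHR.Sgm

/-!
# NHR/Pa3: the path of relation (3) avoids the support of the move (difficulty 3)

`f` = the concatenation of the segments in `ex3` (nested `cat`); each segment is off `QC B W` and off `K` (`W_off`, `B_off`, `B_off'`, `hitB`, `hitW`, `thick_off`),
consecutive segments have a common end point by `relA`, `relB`, `L.foot`; `G.ct` gives the value.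
Segments: `κ (l, ρ)`, `l ∈ [p, P - 3/4 D]` (`hoff`); `B (-3/4, 0, x)`, `-1/8 ≤ x ≤ -ρ/H` (`B_off'`); `B (s, 0, -1/8)` (`B_off`); `W` on `re w = ±1/4`, `im w = 1/256 > 1/384`;
`x = 39/32 > 19/16`; `im w = ±1/4`, `re w = 1/256 > 1/384`; `x = -1/8 < -1/16`.
-/

open scoped Manifold ContDiff Topology
open Set Filter
open Pool.Agent.CSG (stp)
open Pool.Agent.RSG (E3 ex Thick)
open Pool.Agent.KNT (Dom Str Str2 bmp)
open Pool.Agent.NHP

namespace Pool.Agent.NHR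

universe u v

variable {N : Type u} [TopologicalSpace N] [ChartedSpace E3 N]

/-- `w` is the value of a path of `Z` from `a` to `b` -/
def Pa3_R {N : Type u} [TopologicalSpace N] (Z : Set N) (a b : N)
    (w : ∀ (Y : Set N) (Γ : Type v) (_ : Group Γ), GHom Y Γ → Γ) : Prop :=
  ∃ f : ℝ → N, PathOn Z f ∧ f 0 = a ∧ f 1 = b ∧
    ∀ (Y : Set N) (Γ : Type v) (_ : Group Γ) (G : GHom Y Γ), Z ⊆ Y → G.val f = w Y Γ _ G

omit [ChartedSpace E3 N] in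
theorem Pa3_cat {Z : Set N} {a b b' c : N} {w w' : ∀ (Y : Set N) (Γ : Type v) (_ : Group Γ), GHom Y Γ → Γ}
    (h : Pa3_R.{u, v} Z a b w) (h' : Pa3_R.{u, v} Z b' c w') (e : b = b') :
    Pa3_R.{u, v} Z a c (fun Y Γ _ G => w Y Γ _ G * w' Y Γ _ G) := by
  obtain ⟨f, hf, hf0, hf1, hfv⟩ := h
  obtain ⟨g, hg, hg0, hg1, hgv⟩ := h'
  have e1 : f 1 = g 0 := by rw [hf1, hg0, e]
  refine ⟨cat f g, hf.cat hg e1, by rw [cat_zero, hf0], by rw [cat_one, hg1], ?_⟩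
  intro Y Γ _ G hZ
  rw [G.ct f g (hf.mono hZ) (hg.mono hZ) e1, hfv Y Γ _ G hZ, hgv Y Γ _ G hZ]

omit [ChartedSpace E3 N] in
theorem Pa3_rv {Z : Set N} {a b : N} {w : ∀ (Y : Set N) (Γ : Type v) (_ : Group Γ), GHom Y Γ → Γ}
    (h : Pa3_R.{u, v} Z a b w) : Pa3_R.{u, v} Z b a (fun Y Γ _ G => (w Y Γ _ G)⁻¹) := by
  obtain ⟨f, hf, hf0, hf1, hfv⟩ := h
  refine ⟨rv f, hf.rv, by rw [rv_zero, hf1], by rw [rv_one, hf0], ?_⟩
  intro Y Γ _ G hZ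
  rw [G.val_rv (hf.mono hZ), hfv Y Γ _ G hZ]

omit [ChartedSpace E3 N] in
theorem Pa3_seg {Z : Set N} {M : Type*} [NormedAddCommGroup M] [NormedSpace ℝ M] {β : M → N} {a b : M}
    (h : PathOn Z (seg β a b)) : Pa3_R.{u, v} Z (β a) (β b) (fun _ _ _ G => G.val (seg β a b)) :=
  ⟨seg β a b, h, seg_zero _ _ _, seg_one _ _ _, fun _ _ _ _ _ => rfl⟩

theorem Pa3_P3 (x y z x' y' z' t : ℝ) : (1 - t) • P3 x y z + t • P3 x' y' z' =
    P3 ((1 - t) * x + t * x') ((1 - t) * y + t * y') ((1 - t) * z + t * z') := by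
  unfold P3
  refine Prod.ext ?_ ?_
  · apply Complex.ext <;> simp
  · simp

theorem Pa3_TD {x y z : ℝ} (h1 : -(3 / 4) ≤ x) (h2 : x ≤ 3 / 4) (h3 : -(1 / 2) ≤ y) (h4 : y ≤ 1 / 2)
    (h5 : -(1 / 4) < z) (h6 : z < 5 / 4) : P3 x y z ∈ TD := by
  apply P3_mem _ h5 h6
  nlinarith

omit [ChartedSpace E3 N] in
/-- segments in a chart -/
theorem Pa3_seg3 {Z : Set N} {β : E → N} (hβ : ContinuousOn β TD) {x y z x' y' z' : ℝ}
    (h : ∀ t : ℝ, 0 ≤ t → t ≤ 1 →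
      P3 ((1 - t) * x + t * x') ((1 - t) * y + t * y') ((1 - t) * z + t * z') ∈ TD ∧
      β (P3 ((1 - t) * x + t * x') ((1 - t) * y + t * y') ((1 - t) * z + t * z')) ∈ Z) :
    Pa3_R.{u, v} Z (β (P3 x y z)) (β (P3 x' y' z')) (fun _ _ _ G => G.val (seg β (P3 x y z) (P3 x' y' z'))) := by
  apply Pa3_seg
  refine ⟨?_, ?_⟩
  · unfold seg
    apply hβ.comp (by fun_prop)
    intro t ht
    show (1 - t) • P3 x y z + t • P3 x' y' z' ∈ TD
    rw [Pa3_P3]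
    exact (h t ht.1 ht.2).1
  · intro t ht
    unfold seg
    rw [Pa3_P3]
    exact (h t ht.1 ht.2).2

/-- points of the chart `W` -/
theorem Pa3_W {K : Set N} {B W : E → N} (S : SP K B W) {x y z : ℝ} (h : P3 x y z ∈ TD)
    (h1 : ¬ (|x| ≤ 1 / 8 ∧ -(13 / 384) ≤ y ∧ y ≤ 1 / 384 ∧ -(1 / 16) ≤ z ∧ z ≤ 19 / 16))
    (h2 : ¬ (|z| ≤ 1 / 16 ∧ -(13 / 384) ≤ y ∧ y ≤ 1 / 384))
    (h3 : ¬ (|z - 1| ≤ 1 / 16 ∧ -(13 / 384) ≤ x ∧ x ≤ 1 / 384)) : W (P3 x y z) ∈ Kᶜ ∩ (QC B W)ᶜ := by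
  refine ⟨?_, W_off S h h1 h2 h3⟩
  intro hK
  have h4 : W (P3 x y z) ∈ W '' TS2 := by
    rw [← S.hitW]
    exact ⟨hK, ⟨_, h, rfl⟩⟩
  obtain ⟨q, hq, he⟩ := h4
  have h5 : q = P3 x y z := S.chtW.inj hq.1 h he
  rw [h5] at hq
  rcases hq.2 with ⟨hz, hy⟩ | ⟨hz, hx⟩
  · have hz : z = 0 := hz
    have hy : y = 0 ∨ y = -(1 / 32) := hy
    apply h2
    rw [hz, abs_zero]
    rcases hy with rfl | rfl <;> norm_num
  · have hz : z = 1 := hz
    have hx : x = 0 ∨ x = -(1 / 32) := hx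
    apply h3
    rw [hz, sub_self, abs_zero]
    rcases hx with rfl | rfl <;> norm_num

/-- points of the chart `B` -/
theorem Pa3_Bk {K : Set N} {B W : E → N} (S : SP K B W) {x z : ℝ} (h1 : |x| ≤ 3 / 4)
    (h2 : -(9 / 64) ≤ z) (h3 : z < 0) : P3 x 0 z ∈ Slab ∧ P3 x 0 z ∈ TD ∧ B (P3 x 0 z) ∉ K := by
  have hS : P3 x 0 z ∈ Slab := by
    refine ⟨h1, ?_, h2, ?_⟩
    · show |(0 : ℝ)| ≤ 1 / 640
      norm_num
    · show z ≤ 73 / 64
      linarith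
  have hT := Slab_sub hS
  refine ⟨hS, hT, ?_⟩
  intro hK
  have h4 : B (P3 x 0 z) ∈ B '' TSB := by
    rw [← S.hitB]
    exact ⟨hK, ⟨_, hT, rfl⟩⟩
  obtain ⟨q, hq, he⟩ := h4
  have h5 : q = P3 x 0 z := S.chtB.inj hq.1 hT he
  rw [h5] at hq
  rcases hq.2.2 with hz | hz
  · have hz : z = 0 := hz
    linarith
  · have hz : z = 1 := hz
    linarith

/-- horizontal segments of `B` -/
theorem Pa3_Bh {K : Set N} {B W : E → N} (S : SP K B W) {x x' : ℝ} (h1 : |x| ≤ 3 / 4) (h2 : |x'| ≤ 3 / 4)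
    (h5 : (x ≤ 79 / 256 ∧ x' ≤ 79 / 256) ∨ (81 / 256 ≤ x ∧ 81 / 256 ≤ x')) :
    Pa3_R.{u, v} (Kᶜ ∩ (QC B W)ᶜ) (B (P3 x 0 (-(1 / 8)))) (B (P3 x' 0 (-(1 / 8))))
      (fun _ _ _ G => G.val (seg B (P3 x 0 (-(1 / 8))) (P3 x' 0 (-(1 / 8))))) := by
  apply Pa3_seg3 (cht_cont S.chtB)
  intro t h0 h1t
  rw [abs_le] at h1 h2
  have e1 : (1 - t) * (0 : ℝ) + t * 0 = 0 := by ring
  have e2 : (1 - t) * (-(1 / 8) : ℝ) + t * (-(1 / 8)) = -(1 / 8) := by ring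
  rw [e1, e2]
  have hx : |(1 - t) * x + t * x'| ≤ 3 / 4 := by
    rw [abs_le]
    constructor
    · nlinarith [mul_nonneg h0 (by linarith : 0 ≤ x' + 3 / 4), mul_nonneg (by linarith : 0 ≤ 1 - t) (by linarith : 0 ≤ x + 3 / 4)]
    · nlinarith [mul_nonneg h0 (by linarith : 0 ≤ 3 / 4 - x'), mul_nonneg (by linarith : 0 ≤ 1 - t) (by linarith : 0 ≤ 3 / 4 - x)]
  obtain ⟨hS, hT, hK⟩ := Pa3_Bk S hx (by norm_num : -(9 / 64 : ℝ) ≤ -(1 / 8)) (by norm_num)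
  refine ⟨hT, hK, B_off S hS ?_ ?_⟩
  · show -(1 / 8 : ℝ) < -(1 / 12)
    norm_num
  · show (1 - t) * x + t * x' ≤ 79 / 256 ∨ 81 / 256 ≤ (1 - t) * x + t * x'
    rcases h5 with ⟨h5, h6⟩ | ⟨h5, h6⟩
    · left
      nlinarith [mul_nonneg h0 (sub_nonneg.2 h6), mul_nonneg (by linarith : 0 ≤ 1 - t) (sub_nonneg.2 h5)]
    · right
      nlinarith [mul_nonneg h0 (sub_nonneg.2 h6), mul_nonneg (by linarith : 0 ≤ 1 - t) (sub_nonneg.2 h5)]

/-- vertical segments of `B` -/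
theorem Pa3_Bv {K : Set N} {B W : E → N} (S : SP K B W) {x z z' : ℝ} (h1 : |x| = 3 / 4) (h2 : -(1 / 8) ≤ z) (h3 : z < 0)
    (h4 : -(1 / 8) ≤ z') (h5 : z' < 0) : Pa3_R.{u, v} (Kᶜ ∩ (QC B W)ᶜ) (B (P3 x 0 z)) (B (P3 x 0 z'))
      (fun _ _ _ G => G.val (seg B (P3 x 0 z) (P3 x 0 z'))) := by
  apply Pa3_seg3 (cht_cont S.chtB)
  intro t h0 h1t
  have e1 : (1 - t) * (0 : ℝ) + t * 0 = 0 := by ring
  have e2 : (1 - t) * x + t * x = x := by ring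
  rw [e1, e2]
  have hz : -(9 / 64) ≤ (1 - t) * z + t * z' := by
    nlinarith [mul_nonneg h0 (by linarith : 0 ≤ z' + 1 / 8), mul_nonneg (by linarith : 0 ≤ 1 - t) (by linarith : 0 ≤ z + 1 / 8)]
  have hz' : (1 - t) * z + t * z' < 0 := by
    rcases eq_or_lt_of_le h0 with h | h
    · rw [← h]
      linarith
    · have h6 : t * z' < 0 := mul_neg_of_pos_of_neg h h5
      have h7 : (1 - t) * z ≤ 0 := mul_nonpos_of_nonneg_of_nonpos (by linarith) h3.le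
      linarith
  obtain ⟨hS, hT, hK⟩ := Pa3_Bk S h1.le hz hz'
  refine ⟨hT, hK, B_off' S hS ?_⟩
  show 1 / 2 < |x|
  rw [h1]
  norm_num

/-- segments parallel to the knot -/
theorem Pa3_kap {κ : ℝ × ℂ → N} (hκ : Thick κ) {B W : E → N} {a b ρ : ℝ} (hab : a ≤ b) (h0 : 0 < ρ) (h1 : ρ < 1)
    (hoff : ∀ l ∈ Icc a b, κ (l, (ρ : ℂ)) ∉ QC B W) :
    Pa3_R.{u, v} ((core κ)ᶜ ∩ (QC B W)ᶜ) (κ (a, (ρ : ℂ))) (κ (b, (ρ : ℂ)))
      (fun _ _ _ G => G.val (seg κ (a, (ρ : ℂ)) (b, (ρ : ℂ)))) := by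
  have hn : ‖(ρ : ℂ)‖ < 1 := by
    rw [Complex.norm_real, Real.norm_eq_abs, abs_of_pos h0]
    exact h1
  have he : ∀ t : ℝ, (1 - t) • ((a, (ρ : ℂ)) : ℝ × ℂ) + t • ((b, (ρ : ℂ)) : ℝ × ℂ) = ((1 - t) * a + t * b, (ρ : ℂ)) := by
    intro t
    refine Prod.ext ?_ ?_
    · simp
    · simp only [Prod.smul_mk, Prod.mk_add_mk]
      rw [← add_smul]
      simp
  apply Pa3_seg
  refine ⟨?_, ?_⟩
  · unfold seg
    apply (thick_cont hκ).comp (by fun_prop)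
    intro t ht
    show (1 - t) • ((a, (ρ : ℂ)) : ℝ × ℂ) + t • ((b, (ρ : ℂ)) : ℝ × ℂ) ∈ {q : ℝ × ℂ | ‖q.2‖ < 1}
    rw [he]
    exact hn
  · intro t ht
    unfold seg
    rw [he]
    refine ⟨thick_off hκ hn ?_, hoff _ ⟨?_, ?_⟩⟩
    · exact_mod_cast h0.ne'
    · nlinarith [mul_nonneg ht.1 (by linarith : 0 ≤ b - a)]
    · nlinarith [mul_nonneg (by linarith [ht.2] : 0 ≤ 1 - t) (by linarith : 0 ≤ b - a)]

omit [TopologicalSpace N] [ChartedSpace E3 N] in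
/-- the foot of `B` -/
theorem Pa3_foot {κ : ℝ × ℂ → N} {B : E → N} {P P₂ D H H' τ : ℝ} (L : Lnk κ B P P₂ D H H' τ) {x ρ : ℝ}
    (hx : |x| ≤ 3 / 4) (h0 : 0 < ρ) (h1 : ρ ≤ H / 16) : B (P3 x 0 (-(ρ / H))) = κ (P + D * x, (ρ : ℂ)) := by
  have hH := L.Hpos
  rw [abs_le] at hx
  have hr : ρ / H ≤ 1 / 16 := by
    rw [div_le_iff₀ hH]
    linarith
  have hr0 : 0 < ρ / H := div_pos h0 hH
  rw [L.foot _ (Pa3_TD hx.1 hx.2 (by norm_num) (by norm_num) (by linarith) (by linarith))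
    (by show -(ρ / H) < 1 / 4; linarith)]
  congr 1
  refine Prod.ext rfl ?_
  show -(⟨H * -(ρ / H), H' * 0⟩ : ℂ) = (ρ : ℂ)
  have h2 : H * -(ρ / H) = -ρ := by
    rw [mul_neg, mul_div_cancel₀ _ hH.ne']
  apply Complex.ext
  · simp [h2]
  · simp

theorem Pa3_A {K : Set N} {B W : E → N} (S : SP K B W) {x y x' z' : ℝ} (hx : |x| ≤ 3 / 4) (hy : |y| ≤ 1 / 2)
    (h1 : -(9 / 64) ≤ z') (h2 : z' ≤ 73 / 64) (h3 : x' = x / 64) (h4 : z' = -(32 * y)) :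
    W (P3 x y 0) = B (P3 x' 0 z') := by
  rw [abs_le] at hx hy
  rw [S.relA _ (Pa3_TD hx.1 hx.2 hy.1 hy.2 (by norm_num) (by norm_num)) (by show |(0 : ℝ)| ≤ 1 / 10; norm_num)
    (by show -(9 / 64) ≤ -(32 * y); linarith) (by show -(32 * y) ≤ 73 / 64; linarith)]
  congr 1
  unfold ja P3
  refine Prod.ext ?_ ?_
  · apply Complex.ext
    · show x / 64 = x'
      rw [h3]
    · show (0 : ℝ) / 64 = 0
      norm_num
  · show -(32 * y) = z'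
    rw [h4]

theorem Pa3_Bb {K : Set N} {B W : E → N} (S : SP K B W) {x y x' z' : ℝ} (hx : |x| ≤ 3 / 4) (hy : |y| ≤ 1 / 2)
    (h1 : -(9 / 64) ≤ z') (h2 : z' ≤ 73 / 64) (h3 : x' = 5 / 16 + y / 64) (h4 : z' = -(32 * x)) :
    W (P3 x y 1) = B (P3 x' 0 z') := by
  rw [abs_le] at hx hy
  rw [S.relB _ (Pa3_TD hx.1 hx.2 hy.1 hy.2 (by norm_num) (by norm_num)) (by show |(1 : ℝ) - 1| ≤ 1 / 10; norm_num)
    (by show -(9 / 64) ≤ -(32 * x); linarith) (by show -(32 * x) ≤ 73 / 64; linarith)]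
  congr 1
  unfold jb P3
  refine Prod.ext ?_ ?_
  · apply Complex.ext
    · show 5 / 16 + y / 64 = x'
      rw [h3]
    · show (1 - (1 : ℝ)) / 64 = 0
      norm_num
  · show -(32 * x) = z'
    rw [h4]

theorem path3 {κ : ℝ × ℂ → N} (hκ : Thick κ) {B W : E → N} (S : SP (core κ) B W) {P P₂ D H H' τ : ℝ}
    (L : Lnk κ B P P₂ D H H' τ) {p p₀ ρ : ℝ} (hp : p < P - D) (hp0 : P + D < p₀) (h0 : 0 < ρ) (h1 : ρ ≤ H / 16)
    (hoff : ∀ l ∈ Icc p (P - 3 / 4 * D), κ (l, (ρ : ℂ)) ∉ QC B W)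
    (hoff' : ∀ l ∈ Icc (P + 3 / 4 * D) p₀, κ (l, (ρ : ℂ)) ∉ QC B W) :
    ∃ f : ℝ → N, PathOn ((core κ)ᶜ ∩ (QC B W)ᶜ) f ∧ f 0 = κ (p, (ρ : ℂ)) ∧ f 1 = κ (p₀, (ρ : ℂ)) ∧
      ∀ (Y : Set N) (Γ : Type v) (_ : Group Γ) (G : GHom Y Γ), (core κ)ᶜ ∩ (QC B W)ᶜ ⊆ Y →
        G.val f = ex3 G κ B W p p₀ P D H ρ := by
  have hH := L.Hpos
  have hD := L.Dpos
  have hρ1 : ρ < 1 := by linarith [L.Hlt]
  have hr : ρ / H ≤ 1 / 16 := by
    rw [div_le_iff₀ hH]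
    linarith
  have hr0 : 0 < ρ / H := div_pos h0 hH
  have hcW := cht_cont S.chtW
  -- the first part
  have i1 := Pa3_kap.{u, v} hκ (by linarith : p ≤ P - 3 / 4 * D) h0 hρ1 hoff
  have i2 := Pa3_Bv.{u, v} S (x := -(3 / 4)) (z := -(ρ / H)) (z' := -(1 / 8)) (by norm_num [abs_of_nonneg, abs_neg]) (by linarith) (by linarith)
    (le_refl _) (by norm_num)
  have i3 := Pa3_Bh.{u, v} S (x := -(3 / 4)) (x' := -(1 / 256)) (by rw [abs_le]; constructor <;> norm_num)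
    (by rw [abs_le]; constructor <;> norm_num) (Or.inl ⟨by norm_num, by norm_num⟩)
  have e12 : κ (P - 3 / 4 * D, (ρ : ℂ)) = B (P3 (-(3 / 4)) 0 (-(ρ / H))) := by
    rw [Pa3_foot L (by rw [abs_le]; constructor <;> norm_num) h0 h1]
    congr 2
    ring
  have hIn := Pa3_cat (Pa3_cat i1 i2 e12) i3 rfl
  -- over the vertical pair
  have o1 := Pa3_seg3.{u, v} (Z := (core κ)ᶜ ∩ (QC B W)ᶜ) hcW (x := -(1 / 4)) (y := 1 / 256) (z := 0) (x' := -(1 / 4)) (y' := 1 / 256) (z' := 39 / 32)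
    (by
      intro t h0 h1
      have hT : P3 ((1 - t) * -(1 / 4) + t * -(1 / 4)) ((1 - t) * (1 / 256) + t * (1 / 256)) ((1 - t) * 0 + t * (39 / 32)) ∈ TD := by
        apply Pa3_TD <;> linarith
      refine ⟨hT, Pa3_W S hT ?_ ?_ ?_⟩
      · rintro ⟨-, -, h, -⟩
        linarith
      · rintro ⟨-, -, h⟩
        linarith
      · rintro ⟨-, h, -⟩
        linarith)
  have o2 := Pa3_seg3.{u, v} (Z := (core κ)ᶜ ∩ (QC B W)ᶜ) hcW (x := -(1 / 4)) (y := 1 / 256) (z := 39 / 32) (x' := 1 / 4) (y' := 1 / 256) (z' := 39 / 32)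
    (by
      intro t h0 h1
      have hT : P3 ((1 - t) * -(1 / 4) + t * (1 / 4)) ((1 - t) * (1 / 256) + t * (1 / 256)) ((1 - t) * (39 / 32) + t * (39 / 32)) ∈ TD := by
        apply Pa3_TD <;> linarith
      refine ⟨hT, Pa3_W S hT ?_ ?_ ?_⟩
      · rintro ⟨-, -, h, -⟩
        linarith
      · rintro ⟨-, -, h⟩
        linarith
      · rintro ⟨h, -, -⟩
        rw [abs_le] at h
        linarith [h.2])
  have o3 := Pa3_seg3.{u, v} (Z := (core κ)ᶜ ∩ (QC B W)ᶜ) hcW (x := 1 / 4) (y := 1 / 256) (z := 39 / 32) (x' := 1 / 4) (y' := 1 / 256) (z' := 0)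
    (by
      intro t h0 h1
      have hT : P3 ((1 - t) * (1 / 4) + t * (1 / 4)) ((1 - t) * (1 / 256) + t * (1 / 256)) ((1 - t) * (39 / 32) + t * 0) ∈ TD := by
        apply Pa3_TD <;> linarith
      refine ⟨hT, Pa3_W S hT ?_ ?_ ?_⟩
      · rintro ⟨-, -, h, -⟩
        linarith
      · rintro ⟨-, -, h⟩
        linarith
      · rintro ⟨-, -, h⟩
        linarith)
  have hOv := Pa3_cat (Pa3_cat o1 o2 rfl) o3 rfl
  have e34 : B (P3 (-(1 / 256)) 0 (-(1 / 8))) = W (P3 (-(1 / 4)) (1 / 256) 0) :=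
    (Pa3_A S (by rw [abs_le]; constructor <;> norm_num) (by rw [abs_le]; constructor <;> norm_num) (by norm_num) (by norm_num)
      (by norm_num) (by norm_num)).symm
  have hIO := Pa3_cat hIn hOv e34
  -- the segment between the pairs
  have m1 := Pa3_Bh.{u, v} S (x := 1 / 256) (x' := 79 / 256) (by rw [abs_le]; constructor <;> norm_num)
    (by rw [abs_le]; constructor <;> norm_num) (Or.inl ⟨by norm_num, by norm_num⟩)
  have e45 : W (P3 (1 / 4) (1 / 256) 0) = B (P3 (1 / 256) 0 (-(1 / 8))) :=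
    Pa3_A S (by rw [abs_le]; constructor <;> norm_num) (by rw [abs_le]; constructor <;> norm_num) (by norm_num) (by norm_num)
      (by norm_num) (by norm_num)
  have hIOM := Pa3_cat hIO m1 e45
  -- under the horizontal pair
  have l1 := Pa3_seg3.{u, v} (Z := (core κ)ᶜ ∩ (QC B W)ᶜ) hcW (x := 1 / 256) (y := -(1 / 4)) (z := 1) (x' := 1 / 256) (y' := -(1 / 4)) (z' := -(1 / 8))
    (by
      intro t h0 h1
      have hT : P3 ((1 - t) * (1 / 256) + t * (1 / 256)) ((1 - t) * -(1 / 4) + t * -(1 / 4)) ((1 - t) * 1 + t * -(1 / 8)) ∈ TD := by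
        apply Pa3_TD <;> linarith
      refine ⟨hT, Pa3_W S hT ?_ ?_ ?_⟩
      · rintro ⟨-, h, -, -⟩
        linarith
      · rintro ⟨-, h, -⟩
        linarith
      · rintro ⟨-, -, h⟩
        linarith)
  have l2 := Pa3_seg3.{u, v} (Z := (core κ)ᶜ ∩ (QC B W)ᶜ) hcW (x := 1 / 256) (y := -(1 / 4)) (z := -(1 / 8)) (x' := 1 / 256) (y' := 1 / 4) (z' := -(1 / 8))
    (by
      intro t h0 h1
      have hT : P3 ((1 - t) * (1 / 256) + t * (1 / 256)) ((1 - t) * -(1 / 4) + t * (1 / 4)) ((1 - t) * -(1 / 8) + t * -(1 / 8)) ∈ TD := by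
        apply Pa3_TD <;> linarith
      refine ⟨hT, Pa3_W S hT ?_ ?_ ?_⟩
      · rintro ⟨-, -, -, h, -⟩
        linarith
      · rintro ⟨h, -, -⟩
        rw [abs_le] at h
        linarith [h.1]
      · rintro ⟨h, -, -⟩
        rw [abs_le] at h
        linarith [h.1])
  have l3 := Pa3_seg3.{u, v} (Z := (core κ)ᶜ ∩ (QC B W)ᶜ) hcW (x := 1 / 256) (y := 1 / 4) (z := -(1 / 8)) (x' := 1 / 256) (y' := 1 / 4) (z' := 1)
    (by
      intro t h0 h1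
      have hT : P3 ((1 - t) * (1 / 256) + t * (1 / 256)) ((1 - t) * (1 / 4) + t * (1 / 4)) ((1 - t) * -(1 / 8) + t * 1) ∈ TD := by
        apply Pa3_TD <;> linarith
      refine ⟨hT, Pa3_W S hT ?_ ?_ ?_⟩
      · rintro ⟨-, -, h, -⟩
        linarith
      · rintro ⟨-, -, h⟩
        linarith
      · rintro ⟨-, -, h⟩
        linarith)
  have hLo := Pa3_cat (Pa3_cat l1 l2 rfl) l3 rfl
  have e56 : B (P3 (79 / 256) 0 (-(1 / 8))) = W (P3 (1 / 256) (-(1 / 4)) 1) :=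
    (Pa3_Bb S (by rw [abs_le]; constructor <;> norm_num) (by rw [abs_le]; constructor <;> norm_num) (by norm_num) (by norm_num)
      (by norm_num) (by norm_num)).symm
  have hIOML := Pa3_cat hIOM hLo e56
  -- the last part
  have u1 := Pa3_Bh.{u, v} S (x := 81 / 256) (x' := 3 / 4) (by rw [abs_le]; constructor <;> norm_num)
    (by rw [abs_le]; constructor <;> norm_num) (Or.inr ⟨by norm_num, by norm_num⟩)
  have u2 := Pa3_Bv.{u, v} S (x := 3 / 4) (z := -(1 / 8)) (z' := -(ρ / H)) (by norm_num [abs_of_nonneg]) (le_refl _) (by norm_num)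
    (by linarith) (by linarith)
  have u3 := Pa3_kap.{u, v} hκ (by linarith : P + 3 / 4 * D ≤ p₀) h0 hρ1 hoff'
  have e89 : B (P3 (3 / 4) 0 (-(ρ / H))) = κ (P + 3 / 4 * D, (ρ : ℂ)) := by
    rw [Pa3_foot L (by rw [abs_le]; constructor <;> norm_num) h0 h1]
    congr 2
    ring
  have hOut := Pa3_cat (Pa3_cat u1 u2 rfl) u3 e89
  have e67 : W (P3 (1 / 256) (1 / 4) 1) = B (P3 (81 / 256) 0 (-(1 / 8))) :=
    Pa3_Bb S (by rw [abs_le]; constructor <;> norm_num) (by rw [abs_le]; constructor <;> norm_num) (by norm_num) (by norm_num)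
      (by norm_num) (by norm_num)
  exact Pa3_cat hIOML hOut e67

end Pool.Agent.NHR
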