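import Mathlib
import Pool.Agent.NHR.Defs
import Pool.Agent.NHR.Grp
import Pool.Agent.NHR.Exi
import Pool.Agent.NHR.Cmn
import Pool.Agent.NHR.Tub
import Pool.Agent.NHR.Pa3
import Pool.Agent.NHR.Iw3
import Pool.Agent.NHR.Id3
import Pool.Agent.NHR.IdB
import Pool.Agent.NHR.IdI
import Pool.Agent.NHR.FinB
import Pool.Agent.NHR.Rib
import Pool.Agent.NHR.ThW
import Pool.Agent.NHR.Geo
import Pool.Agent.NHR.Pth
import Pool.Agent.NHR.Sgm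
import Pool.Agent.NHR.MdY
import Pool.Agent.NHR.Off

/-!
# NHR/R3: relation (3) (difficulty 4)

Given `FinV c T`, `FinV c' T'`, `c' = ((e⁻¹ b e) (e b e⁻¹))⁻¹ c` or the other way round; show `LEqN`.
(1) `exists_config` with `T₁ = T₂ = T` (class `c`).  (2) `kW_thick`, `tube_off` on `[p - s, P - 3/4 D]`, `[P + 3/4 D, P₂ - 3/4 D]` and near `p'`: `η` with `Thick (kW κ W η)`, `η ≤ H/16`,
`κ (l, v) ∉ QC` for `‖v‖ ≤ η`.  (3) `thnV` (`O = univ`): thinner chord `T₁''`, `FinE κ p p' η' ε' T₁''`, `η' ≤ η`, `ε'` small, still disjoint from `QC`.  `ρ = η' ε' / 8`.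
(4) `rib_kn`: `kn K T₁'' ~ kn KW T₁''`; `finE_kW`: it is a chord of `kW κ W η`.  `Full` homomorphism `G_W` for `(core (kW κ W η))ᶜ` (`ext.Pcn`, `exists_GHom`).
(5) `finV_sld` for `kW κ W η` from `p` to `p₀`: `T₂`, class `G_W (seg (p₀,1/2) (p,1/2)) c_W`.  (6) `path3` with `ρ`: `f`; `E1V` for `κ` (or `kW`), `O = (QC B W)ᶜ`, foot `p₀`, path `cat (rv f) (cor T₁'')`:
`T₃`, `FinE κ p₀ p' η' ε' T₃`, disjoint from `QC`.  (7) `Iw3`: `G_W.val f = G_W (seg (kW) (p, r) (p₀, r))`, `η r = ρ`, so `T₂`, `T₃` have the same class in `kW κ W η` (foot `p₀`): `finV_uniq`: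
`kn KW T₂ ~ kn KW T₃`.  (8) `rib_kn` for `T₃`: `kn K T₃ ~ kn KW T₃`.  (9) `finV_sld` for `κ` from `p₀` back to `p`: `T₄`, class
`G (seg κ (p,1/2) (p₀,1/2)) · G(seg κ (p₀,1/2)(p₀,ρ)) (G.val f)⁻¹ G (seg κ (p,ρ) (p,1/2)) · c = ((e b⁻¹ e⁻¹) (e⁻¹ b⁻¹ e))⁻¹ c = (e⁻¹ b e) (e b e⁻¹) c` by `Id3` (`b = bet = m a m⁻¹ a⁻¹` by `IdB`).  (10) `finV_uniq`.
-/

open scoped Manifold ContDiff Topology
open Set Filter
open Pool.Agent.CSG (stp)
open Pool.Agent.RSG (E3 ex Thick)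
open Pool.Agent.KNT (Dom Str Str2 bmp)
open Pool.Agent.NHP

namespace Pool.Agent.NHR

universe u v w


section

variable {N : Type u} [TopologicalSpace N] [ChartedSpace E3 N] {Γ : Type v} [Group Γ]

theorem R3_kH (l : ℝ) {r : ℝ} (h0 : 0 < r) (h1 : r < 1) : ((l, (r : ℂ)) : ℝ × ℂ) ∈ kH 1 := by
  constructor
  · simpa [Complex.norm_real, abs_of_pos h0] using h1
  · simpa using h0

theorem R3_kH2 (l : ℝ) : ((l, (1 / 2 : ℂ)) : ℝ × ℂ) ∈ kH 1 := by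
  have h := R3_kH l (r := 1 / 2) (by norm_num) (by norm_num)
  have e : (((1 / 2 : ℝ)) : ℂ) = (1 / 2 : ℂ) := by push_cast; rfl
  rwa [e] at h

/-- the homomorphism into the lifted group -/
def r3_lift {Y : Set N} (G : GHom Y Γ) : GHom Y (ULift.{w, v} Γ) where
  val f := ULift.up (G.val f)
  hmt f g h := by rw [G.hmt f g h]
  ct f g hf hg h := by rw [G.ct f g hf hg h]; rfl

omit [ChartedSpace E3 N] in
theorem R3_lift_ex3 {Y : Set N} (G : GHom Y Γ) (κ : ℝ × ℂ → N) (B W : E → N) (p p₀ P D H ρ : ℝ) :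
    ex3 (r3_lift.{u, v, w} G) κ B W p p₀ P D H ρ = ULift.up (ex3 G κ B W p p₀ P D H ρ) := rfl

omit [ChartedSpace E3 N] in
theorem R3_lift_ex1 {Y : Set N} (G : GHom Y Γ) (κ : ℝ × ℂ → N) (B W : E → N) (p P D H ρ : ℝ) :
    ex1 (r3_lift.{u, v, w} G) κ B W p P D H ρ = ULift.up (ex1 G κ B W p P D H ρ) := rfl

/-- `path3` for groups in two universes -/
theorem R3_path3 {κ : ℝ × ℂ → N} (hκ : Thick κ) {B W : E → N} (S : SP (core κ) B W) {P P₂ D H H' τ : ℝ}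
    (L : Lnk κ B P P₂ D H H' τ) {p p₀ ρ : ℝ} (hp : p < P - D) (hp0 : P + D < p₀) (h0 : 0 < ρ) (h1 : ρ ≤ H / 16)
    (hoff : ∀ l ∈ Icc p (P - 3 / 4 * D), κ (l, (ρ : ℂ)) ∉ QC B W)
    (hoff' : ∀ l ∈ Icc (P + 3 / 4 * D) p₀, κ (l, (ρ : ℂ)) ∉ QC B W) :
    ∃ f : ℝ → N, PathOn ((core κ)ᶜ ∩ (QC B W)ᶜ) f ∧ f 0 = κ (p, (ρ : ℂ)) ∧ f 1 = κ (p₀, (ρ : ℂ)) ∧
      (∀ (Y : Set N) (Γ : Type v) (_ : Group Γ) (G : GHom Y Γ), (core κ)ᶜ ∩ (QC B W)ᶜ ⊆ Y →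
        G.val f = ex3 G κ B W p p₀ P D H ρ) ∧
      (∀ (Y : Set N) (Γ : Type w) (_ : Group Γ) (G : GHom Y Γ), (core κ)ᶜ ∩ (QC B W)ᶜ ⊆ Y →
        G.val f = ex3 G κ B W p p₀ P D H ρ) := by
  obtain ⟨f, hf, hf0, hf1, hv⟩ := path3.{u, max v w} hκ S L hp hp0 h0 h1 hoff hoff'
  refine ⟨f, hf, hf0, hf1, ?_, ?_⟩
  · intro Y Γ _ G hY
    have h := hv Y (ULift.{w, v} Γ) inferInstance (r3_lift.{u, v, w} G) hY
    rw [R3_lift_ex3] at h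
    exact ULift.up_injective h
  · intro Y Γ _ G hY
    have h := hv Y (ULift.{v, w} Γ) inferInstance (r3_lift.{u, w, v} G) hY
    rw [R3_lift_ex3] at h
    exact ULift.up_injective h

end

variable {N : Type u} [TopologicalSpace N] [ChartedSpace E3 N] [T2Space N] {Γ : Type v} [Group Γ]

theorem R3_far {x D : ℝ} (h : x < -(D / 2) ∨ D / 2 < x) : D / 2 < |x| := by
  rcases h with h | h
  · exact lt_abs.2 (Or.inr (by linarith))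
  · exact lt_abs.2 (Or.inl h)

/-- the parameters are off the two arcs -/
theorem R3_int {x D u w : ℝ} (hu : D / 2 < u) (hw : w < 1 - D / 2) (h1 : u ≤ x) (h2 : x ≤ w) (k : ℤ) :
    D / 2 < |x + k| := by
  apply R3_far
  rcases lt_or_ge k 0 with h | h
  · have h' : (k : ℝ) ≤ -1 := by exact_mod_cast (by omega : k ≤ -1)
    left; linarith
  · have h' : (0 : ℝ) ≤ k := by exact_mod_cast h
    right; linarith

theorem R3_int' {x D u w : ℝ} (hu : D / 2 < u) (hw : w < 1 - D / 2) (h1 : u ≤ -x) (h2 : -x ≤ w) (k : ℤ) :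
    D / 2 < |x + k| := by
  have h := R3_int hu hw h1 h2 (-k)
  rw [← abs_neg]
  have e : -(x + (k : ℝ)) = -x + ((-k : ℤ) : ℝ) := by push_cast; ring
  rw [e]; exact h

/-- choice of the size of the new thick knot -/
theorem R3_eta {κ : ℝ × ℂ → N} (hκ : Thick κ) {p p' P p₀ P₂ D H H' τ : ℝ} {B W : E → N} (hP : Pos p P p₀ P₂ p' D)
    (L : Lnk κ B P P₂ D H H' τ) (S : SP (core κ) B W) :
    ∃ η : ℝ, 0 < η ∧ η < 1 ∧ η ≤ H / 16 ∧ Thick (kW κ W η) ∧ core (kW κ W η) = KW (core κ) W ∧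
      (∀ l ∈ Icc (p - D / 4) (P - 3 / 4 * D), ∀ v : ℂ, ‖v‖ ≤ η → κ (l, v) ∉ QC B W) ∧
      (∀ l ∈ Icc (P + 3 / 4 * D) (P₂ - 3 / 4 * D), ∀ v : ℂ, ‖v‖ ≤ η → κ (l, v) ∉ QC B W) ∧
      ∀ l ∈ Icc (p' - D / 4) (p' + D / 4), ∀ v : ℂ, ‖v‖ ≤ η → κ (l, v) ∉ QC B W := by
  obtain ⟨h1, h2, h3, h4, h5⟩ := hP
  have hD := L.Dpos
  obtain ⟨r₀, hr₀, -, hk⟩ := kW_thick hκ S
  obtain ⟨r₁, hr₁, hr₁1, ho₁⟩ := tube_off hκ S L (l₁ := p - D / 4) (l₂ := P - 3 / 4 * D) (by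
    intro l hl k
    exact ⟨R3_int' (u := 3 / 4 * D) (w := P - p + D / 4) (by linarith) (by linarith) (by linarith [hl.2])
        (by linarith [hl.1]) k,
      R3_int' (u := 3 / 4 * D) (w := P₂ - p + D / 4) (by linarith) (by linarith) (by linarith [hl.2])
        (by linarith [hl.1]) k⟩)
  obtain ⟨r₂, hr₂, hr₂1, ho₂⟩ := tube_off hκ S L (l₁ := P + 3 / 4 * D) (l₂ := P₂ - 3 / 4 * D) (by
    intro l hl k
    exact ⟨R3_int (u := 3 / 4 * D) (w := P₂ - P) (by linarith) (by linarith) (by linarith [hl.1])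
        (by linarith [hl.2]) k,
      R3_int' (u := 3 / 4 * D) (w := P₂ - P) (by linarith) (by linarith) (by linarith [hl.2])
        (by linarith [hl.1]) k⟩)
  obtain ⟨r₃, hr₃, hr₃1, ho₃⟩ := tube_off hκ S L (l₁ := p' - D / 4) (l₂ := p' + D / 4) (by
    intro l hl k
    exact ⟨R3_int (u := 3 / 4 * D) (w := p' - P + D / 4) (by linarith) (by linarith) (by linarith [hl.1])
        (by linarith [hl.2]) k,
      R3_int (u := 3 / 4 * D) (w := p' - P₂ + D / 4) (by linarith) (by linarith) (by linarith [hl.1])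
        (by linarith [hl.2]) k⟩)
  have hH := L.Hpos
  obtain ⟨η, hη, h0, h1, h2, h3, h4⟩ : ∃ η : ℝ, 0 < η ∧ η ≤ r₀ ∧ η ≤ r₁ ∧ η ≤ r₂ ∧ η ≤ r₃ ∧ η ≤ H / 16 := by
    refine ⟨min (min (min r₀ r₁) (min r₂ r₃)) (H / 16), ?_, ?_, ?_, ?_, ?_, ?_⟩
    · refine lt_min (lt_min (lt_min hr₀ hr₁) (lt_min hr₂ hr₃)) (by linarith)
    · exact (min_le_left _ _).trans ((min_le_left _ _).trans (min_le_left _ _))
    · exact (min_le_left _ _).trans ((min_le_left _ _).trans (min_le_right _ _))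
    · exact (min_le_left _ _).trans ((min_le_right _ _).trans (min_le_left _ _))
    · exact (min_le_left _ _).trans ((min_le_right _ _).trans (min_le_right _ _))
    · exact min_le_right _ _
  obtain ⟨hk1, hk2⟩ := hk η hη h0
  exact ⟨η, hη, by linarith, h4, hk1, hk2, fun l hl v hv => ho₁ l hl v (hv.trans h1),
    fun l hl v hv => ho₂ l hl v (hv.trans h2), fun l hl v hv => ho₃ l hl v (hv.trans h3)⟩

omit [ChartedSpace E3 N] [T2Space N] in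
theorem R3_val {Y Y' : Set N} (G : GHom Y' Γ) (hY : Y ⊆ Y') {f g k : ℝ → N} (hf : PathOn Y f) (hg : PathOn Y g)
    (h : f 0 = g 0) (hk : Hmt Y k (cat (rv f) g)) : G.val k = (G.val f)⁻¹ * G.val g := by
  rw [G.hmt _ _ (hk.mono hY), G.ct _ _ (hf.rv.mono hY) (hg.mono hY) (by rw [rv_one, h]), G.val_rv (hf.mono hY)]

/-- the main part, for a given configuration (`τ` arbitrary) -/
theorem R3_main (ext : Ext N) {κ : ℝ × ℂ → N} (hκ : Thick κ) (G : GHom (core κ)ᶜ Γ) {p p' P p₀ P₂ D H H' τ : ℝ}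
    {B W : E → N} (hP : Pos p P p₀ P₂ p' D) (L : Lnk κ B P P₂ D H H' τ) (S : SP (core κ) B W) {b e c : Γ}
    (hb : b = bet G κ B p P D H) (he : e = lbe G κ B W p P D H) {T₁ : E → N} (h₁ : FinV G κ p p' c T₁)
    (hd : Disjoint (T₁ '' TD) (QC B W)) :
    ∃ T₄, FinV G κ p p' ((e⁻¹ * b * e) * (e * b * e⁻¹) * c) T₄ ∧ LEqN (kn (core κ) T₁) (kn (core κ) T₄) := by
  obtain ⟨η, hη, hη1, hηH, hkW, hcW, hoA, hoB, hoC⟩ := R3_eta hκ hP L S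
  obtain ⟨h1, h2, h3, h4, h5⟩ := hP
  have hD := L.Dpos
  have hD1 := L.Dlt
  -- the thin chord
  obtain ⟨r, hr, hthn⟩ := thnV ext hκ G h₁ isOpen_univ (fun _ _ => mem_univ _)
  obtain ⟨η', hη', hη'r, hη'η⟩ : ∃ η' : ℝ, 0 < η' ∧ η' ≤ r ∧ η' ≤ η :=
    ⟨min r η, lt_min hr hη, min_le_left _ _, min_le_right _ _⟩
  obtain ⟨ε', hε', hε'r, hε'D⟩ : ∃ ε' : ℝ, 0 < ε' ∧ ε' ≤ r ∧ ε' ≤ D / 16 :=
    ⟨min r (D / 16), lt_min hr (by linarith), min_le_left _ _, min_le_right _ _⟩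
  have hε'D4 : ε' ≤ D / 4 := by linarith
  obtain ⟨Tt, hTt, hTtc, -, hTts, hTtL⟩ := hthn η' ε' hη' hη'r hε' hε'r
  have hTd : Disjoint (Tt '' TD) (QC B W) :=
    hd.mono_left (subset_closure.trans (hTts.trans inter_subset_right))
  obtain ⟨ρ, hρ⟩ : ∃ ρ : ℝ, ρ = η' * ε' / 8 := ⟨_, rfl⟩
  have hρ0 : 0 < ρ := by rw [hρ]; positivity
  have hρη : ρ < η := by
    rw [hρ]
    have : η' * ε' ≤ η * 1 := mul_le_mul hη'η (by linarith) hε'.le hη.le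
    linarith
  have hρH : ρ ≤ H / 16 := by linarith
  have hρn : ‖(ρ : ℂ)‖ ≤ η := by
    rw [Complex.norm_real, Real.norm_eq_abs, abs_of_pos hρ0]; exact hρη.le
  -- the new thick knot
  have fTt : FinE (kW κ W η) p p' (η' / η) ε' Tt :=
    (finE_kW S hη hcW hη' hη'η hη1.le hε'D4 (fun l hl v hv => hoA l ⟨by linarith [(abs_lt.1 hl).1],
      by linarith [(abs_lt.1 hl).2]⟩ v hv) (fun l hl v hv => hoC l ⟨by linarith [(abs_lt.1 hl).1],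
      by linarith [(abs_lt.1 hl).2]⟩ v hv) hTd).2 hTt
  obtain ⟨Γ', gr, GW, hGW⟩ := exists_GHom (ext.Pcn _ hkW)
  obtain ⟨cW, hcW'⟩ : ∃ cW, cW = clV GW (kW κ W η) p p' (η' / η) ε' Tt := ⟨_, rfl⟩
  have hs : ∀ k : ℤ, p' + k ∉ uIcc p p₀ := by
    intro k hk
    rw [uIcc_of_le (by linarith)] at hk
    rcases lt_or_ge k 0 with h | h
    · have h' : (k : ℝ) ≤ -1 := by exact_mod_cast (by omega : k ≤ -1)
      linarith [hk.1]
    · have h' : (0 : ℝ) ≤ k := by exact_mod_cast h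
      linarith [hk.2]
  obtain ⟨T₂, hT₂, hT₂L⟩ := finV_sld ext hkW GW hs (c := cW) (T := Tt) ⟨_, _, fTt, hcW'.symm⟩
  -- the path
  obtain ⟨f, hf, hf0, hf1, hfv, hfw⟩ := R3_path3.{u, v, u} hκ S L h1 h2 hρ0 hρH
    (fun l hl => hoA l ⟨by linarith [hl.1], hl.2⟩ _ hρn)
    (fun l hl => hoB l ⟨hl.1, by linarith [hl.2]⟩ _ hρn)
  have hQ : IsOpen ((QC B W)ᶜ) := (QC_compact S).isClosed.isOpen_compl
  have hsub : (QC B W)ᶜ \ core κ ⊆ (core κ)ᶜ := fun y hy => hy.2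
  have hsubW : (QC B W)ᶜ \ core κ ⊆ (core (kW κ W η))ᶜ := by
    intro y hy h
    rw [hcW, KW_off S hy.1] at h
    exact hy.2 h
  have hee : (core κ)ᶜ ∩ (QC B W)ᶜ ⊆ (QC B W)ᶜ \ core κ := fun y hy => ⟨hy.2, hy.1⟩
  have hf' : PathOn ((QC B W)ᶜ \ core κ) f := hf.mono hee
  obtain ⟨hc0, hc1⟩ := cor_ends hTt
  rw [← hρ] at hc0 hc1
  have hcor : PathOn ((QC B W)ᶜ \ core κ) (cor Tt) := by
    have h := cor_path hTt
    refine ⟨h.1, fun t ht => ⟨fun hq => ?_, h.2 t ht⟩⟩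
    exact disjoint_left.1 hTd ⟨(0, 1 / 8 + 3 / 4 * t), ⟨by simp, by linarith [ht.1], by linarith [ht.2]⟩, rfl⟩ hq
  have hvn : ∀ v : ℂ, ‖v‖ ≤ 4 * (η' * ε') → ‖v‖ ≤ η := by
    intro v hv
    have : η' * ε' ≤ η * (1 / 4) := mul_le_mul hη'η (by linarith) hε'.le hη.le
    linarith
  have hoB' : ∀ l : ℝ, |l - p₀| ≤ 4 * ε' → ∀ v : ℂ, ‖v‖ ≤ 4 * (η' * ε') → κ (l, v) ∈ (QC B W)ᶜ := fun l hl v hv =>
    hoB l ⟨by linarith [(abs_le.1 hl).1], by linarith [(abs_le.1 hl).2]⟩ v (hvn v hv)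
  have hoC' : ∀ l : ℝ, |l - p'| ≤ 4 * ε' → ∀ v : ℂ, ‖v‖ ≤ 4 * (η' * ε') → κ (l, v) ∈ (QC B W)ᶜ := fun l hl v hv =>
    hoC l ⟨by linarith [(abs_le.1 hl).1], by linarith [(abs_le.1 hl).2]⟩ v (hvn v hv)
  have hηε' : 0 < η' * ε' := mul_pos hη' hε'
  have hadm4 : Adm p₀ p' (4 * ε') := ⟨by linarith, by linarith, fun k => by
    have h := R3_int' (x := p₀ - p') (D := 2 * (8 * ε')) (u := 2 * D) (w := p' - p₀) (by linarith) (by linarith)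
      (by linarith) (by linarith) k
    linarith⟩
  have hadm : Adm p₀ p' ε' := ⟨hε', by linarith, fun k => by
    have h := hadm4.far k
    linarith⟩
  obtain ⟨T₃, hT₃, hT₃Q, hT₃H⟩ := E1V ext hκ hη' (hη'η.trans hη1.le) (p := p₀) (p' := p') (ε := ε')
    hadm hadm4 hQ (O := (QC B W)ᶜ)
    (fun l hl v hv => hoB' l (by linarith [hl]) v (by linarith [hv]))
    (fun l hl v hv => hoC' l (by linarith [hl]) v (by linarith [hv]))
    (f := cat (rv f) (cor Tt)) (hf'.rv.cat hcor (by rw [rv_one, hf0, hc0]))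
    (by rw [cat_zero, rv_zero, hf1, hρ]) (by rw [cat_one, hc1, hρ])
  have hT₃d : Disjoint (T₃ '' TD) (QC B W) := disjoint_left.2 fun y hy hq => hT₃Q hy hq
  have fT₃ : FinE (kW κ W η) p₀ p' (η' / η) ε' T₃ :=
    (finE_kW S hη hcW hη' hη'η hη1.le hε'D4 (fun l hl v hv => hoB l ⟨by linarith [(abs_lt.1 hl).1],
      by linarith [(abs_lt.1 hl).2]⟩ v hv) (fun l hl v hv => hoC l ⟨by linarith [(abs_lt.1 hl).1],
      by linarith [(abs_lt.1 hl).2]⟩ v hv) hT₃d).2 hT₃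
  -- the class of `T₃` with respect to the new thick knot
  obtain ⟨ρ', hρ'⟩ : ∃ ρ' : ℝ, ρ' = η' / η * ε' / 8 := ⟨_, rfl⟩
  have hηρ' : η * ρ' = ρ := by rw [hρ', hρ]; field_simp
  have hρ'0 : 0 < ρ' := by rw [hρ']; positivity
  have hρ'1 : ρ' < 1 := by
    by_contra h
    have : η * 1 ≤ η * ρ' := mul_le_mul_of_nonneg_left (not_lt.1 h) hη.le
    linarith
  have hval := R3_val GW hsubW hf' hcor (by rw [hf0, hc0]) hT₃H
  have hvf : GW.val f = GW.val (seg (kW κ W η) (p, (ρ' : ℂ)) (p₀, (ρ' : ℂ))) := by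
    rw [hfw _ _ _ GW (hee.trans hsubW), Iw3 hκ S L (by rw [hcW]) GW h1 h2 hη hηH hρ'0 hρ'1 hkW hcW
      (fun l hl v hv => hoA l ⟨by linarith [hl.1], hl.2⟩ v hv)
      (fun l hl v hv => hoB l ⟨hl.1, by linarith [hl.2]⟩ v hv), hηρ']
  have hclW : clV GW (kW κ W η) p₀ p' (η' / η) ε' T₃ =
      GW.val (seg (kW κ W η) (p₀, 1 / 2) (p, 1 / 2)) * cW := by
    rw [hcW']
    unfold clV
    rw [← hρ', hval, hvf, ← K_symm hkW GW 1 (R3_kH p hρ'0 hρ'1) (R3_kH p₀ hρ'0 hρ'1)]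
    have k1 := K_tri hkW GW 1 (R3_kH2 p₀) (R3_kH p₀ hρ'0 hρ'1) (R3_kH p hρ'0 hρ'1)
    have k2 := K_tri hkW GW 1 (R3_kH2 p₀) (R3_kH2 p) (R3_kH p hρ'0 hρ'1)
    simp only [mul_assoc]
    rw [← mul_assoc (GW.val (seg (kW κ W η) (p₀, 1 / 2) (p₀, (ρ' : ℂ)))), k1, ← k2]
    simp only [mul_assoc]
  have hL₂₃ : LEqN (kn (core (kW κ W η)) T₂) (kn (core (kW κ W η)) T₃) :=
    finV_uniq ext hkW GW hGW hT₂ ⟨_, _, fT₃, hclW⟩
  -- back to `κ`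
  obtain ⟨T₄, hT₄, hT₄L⟩ := finV_sld ext hκ G (p := p₀) (p₀ := p) (p' := p') (fun k => by rw [uIcc_comm]; exact hs k)
    (c := clV G κ p₀ p' η' ε' T₃) (T := T₃) ⟨_, _, hT₃, rfl⟩
  refine ⟨T₄, ?_, ?_⟩
  · have hval' := R3_val G hsub hf' hcor (by rw [hf0, hc0]) hT₃H
    have hvf' := hfv _ _ _ G (hee.trans hsub)
    have hid := Id3 hκ S G L p p₀ hρ0 hρH hb he
    have hcl : G.val (seg κ (p, 1 / 2) (p₀, 1 / 2)) * clV G κ p₀ p' η' ε' T₃ =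
        (e⁻¹ * b * e) * (e * b * e⁻¹) * c := by
      have hρ1 : ρ < 1 := by linarith
      rw [← hTtc]
      unfold clV
      rw [← hρ, hval', hvf', K_symm hκ G 1 (R3_kH p₀ hρ0 hρ1) (R3_kH2 p₀)]
      have e1 : G.val (seg κ (p, 1 / 2) (p₀, 1 / 2)) = (e⁻¹ * b * e) * (e * b * e⁻¹) *
          (G.val (seg κ (p, 1 / 2) (p, (ρ : ℂ))) * ex3 G κ B W p p₀ P D H ρ *
            G.val (seg κ (p₀, (ρ : ℂ)) (p₀, 1 / 2))) := by
        rw [hid]; group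
      rw [e1]; group
    rw [hcl] at hT₄
    exact hT₄
  · have l1 := rib_kn S hTd hTt.chd
    have l3 := rib_kn S hT₃d hT₃.chd
    rw [hcW] at hT₂L hL₂₃
    exact hTtL.trans (l1.trans (hT₂L.trans (hL₂₃.trans (l3.symm.trans hT₄L))))

theorem R3_of_config (ext : Ext N) {κ : ℝ × ℂ → N} (hκ : Thick κ) (G : GHom (core κ)ᶜ Γ) (hG : Full G) {p p' : ℝ}
    {b e : Γ}
    (hconf : ∀ (c : Γ) (T : E → N), FinV G κ p p' c T → ∃ (P p₀ P₂ D H H' τ : ℝ) (B W T' : E → N),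
      Pos p P p₀ P₂ p' D ∧ Lnk κ B P P₂ D H H' τ ∧ SP (core κ) B W ∧ b = bet G κ B p P D H ∧
      e = lbe G κ B W p P D H ∧ FinV G κ p p' c T' ∧ LEqN (kn (core κ) T) (kn (core κ) T') ∧
      Disjoint (T' '' TD) (QC B W)) :
    (e⁻¹ * b * e) * (e * b * e⁻¹) ∈ Lset G κ p p' := by
  intro c T T' hT hT'
  obtain ⟨P, p₀, P₂, D, H, H', τ, B, W, T₁, hP, L, S, hb, he, h₁, hL, hd⟩ := hconf c T' hT'
  obtain ⟨T₄, h₄, hL₄⟩ := R3_main ext hκ G hP L S hb he h₁ hd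
  exact (finV_uniq ext hκ G hG hT h₄).trans (hL₄.symm.trans hL.symm)

theorem R3 (ext : Ext N) {κ : ℝ × ℂ → N} (hκ : Thick κ) (G : GHom (core κ)ᶜ Γ) (hG : Full G) {p p' : ℝ}
    (hp : p < p') (hp' : p' < p + 1) (a e : Γ) {b : Γ}
    (hb : b = G.val (mer κ p (1 / 2)) * a * (G.val (mer κ p (1 / 2)))⁻¹ * a⁻¹) :
    (e⁻¹ * b * e) * (e * b * e⁻¹) ∈ Lset G κ p p' := by
  apply R3_of_config ext hκ G hG
  intro c T hT
  obtain ⟨P, p₀, P₂, D, H, H', B, W, T₁, T₂, hP, L, S, ha, he, h₁, hL, hd, -⟩ :=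
    exists_config ext hκ G hG hp hp' a e hT hT
  refine ⟨P, p₀, P₂, D, H, H', -1, B, W, T₁, hP, L, S, ?_, he.symm, h₁, hL, hd⟩
  rw [IdB hκ S G L p, ha, hb]

end Pool.Agent.NHR
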