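import Mathlib
import Pool.Agent.NHR.Defs
import Pool.Agent.NHR.Grp
import Pool.Agent.NHR.Exip
import Pool.Agent.NHR.Cmn
import Pool.Agent.NHR.Tub
import Pool.Agent.NHR.Pa3
import Pool.Agent.NHR.Iw3
import Pool.Agent.NHR.Id3
import Pool.Agent.NHR.IdBp
import Pool.Agent.NHR.IdB
import Pool.Agent.NHR.R3

/-!
# NHR/R2p: parallel strands: the meridian commutes with `w = (e⁻¹ b e) (e b e⁻¹)` modulo `L` (difficulty 4; structure of the proof of `R1`)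

Show: `kn K T ~ kn K T'` if `FinV c T`, `FinV (g x g⁻¹ c) T'`, `x = m w⁻¹ m⁻¹ w`.
(1) `finV_ex`: a chord `T₂` of class `g c`; `exists_configP` for `T₁ = T` (class `c`) and `T₂`, labels `a`, `e`; `b = bet` by `IdBp`.  (2) as in `R1`, `R3`: `kW_thick`, `tube_off` on
`[p - s, P - 3/4 D]`, `[P + 3/4 D, P₂ - 3/4 D]` and near `p'`: `η` with `Thick (kW κ W η)`, `η ≤ H/16`, `κ (l, v) ∉ QC` for `‖v‖ ≤ η`; thinner chords `T₁''`, `T₂''` (`thnV`) with the same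
parameters `η' ≤ η`, `ε'`, foot `p`, tip `p'`, disjoint from `QC`; `ρ = η' ε' / 8`, `r = ρ / η`.
(3) `path3` (as in `R3`): the path `f` from `κ (p, ρ)` to `κ (p₀, ρ)`, off `K` and off `QC`.  The loop `ℓ = mer κ p ρ · f · rv (mer κ p₀ ρ) · rv f` (nested `cat`) at `κ (p, ρ)` is in
`(core κ)ᶜ ∩ (QC)ᶜ` (`κ (p, v), κ (p₀, v) ∉ QC` for `‖v‖ ≤ η`).  Value in `(core κ)ᶜ`, moved to the base point `κ (p, 1/2)` by `σ = G (seg (p, 1/2) (p, ρ))`: with `Id3`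
`G.val f = σ⁻¹ w⁻¹ s σ₀⁻¹` (`s = G (seg (p,1/2) (p₀,1/2))`, `σ₀ = G (seg (p₀,ρ) (p₀,1/2))`; `(e b⁻¹ e⁻¹) (e⁻¹ b⁻¹ e) = w⁻¹`) and `mer_move` (twice):
`σ G.val ℓ σ⁻¹ = m w⁻¹ m⁻¹ w`.
Value in `(core (kW κ W η))ᶜ`: `G_W.val f = G_W (seg (kW) (p, r) (p₀, r))` (`Iw3`, `η r = ρ`), `mer κ p ρ = mer (kW κ W η) p r`, the same for `p₀` (off `QC`, as in `Cmn`), `mer_move` for
`kW κ W η`: so `G_W.val ℓ = 1`.
(4) From here on exactly as `R1` (4): the path `k = cor T₂'' · (cor T₁'')⁻¹ · ℓ · cor T₁'' · (cor T₂'')⁻¹ · cor T₁''`, `E1V` with `O = (QC)ᶜ`: `T₃` of class `g x g⁻¹ c` in `(core κ)ᶜ` and of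
the class of `T₁''` in `(core (kW κ W η))ᶜ`; `rib_kn`, `finE_kW`, `finV_uniq`: `kn K T₃ ~ kn KW T₃ ~ kn KW T₁'' ~ kn K T₁'' ~ kn K T`; `finV_uniq` for `κ`.
-/

open scoped Manifold ContDiff Topology
open Set Filter
open Pool.Agent.CSG (stp)
open Pool.Agent.RSG (E3 ex Thick)
open Pool.Agent.KNT (Dom Str Str2 bmp)
open Pool.Agent.NHP

namespace Pool.Agent.NHR

universe u v

variable {N : Type u} [TopologicalSpace N] [ChartedSpace E3 N] [T2Space N] {Γ : Type v} [Group Γ]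

/-- a loop `ℓ` off the support of the move, trivial for the new thick knot, gives a relation -/
theorem R2p_loop (ext : Ext N) {κ : ℝ × ℂ → N} (hκ : Thick κ) (G : GHom (core κ)ᶜ Γ)
    {p p' P p₀ P₂ D η : ℝ} {B W : E → N} (hP : Pos p P p₀ P₂ p' D) (hD : 0 < D) (S : SP (core κ) B W)
    (hη : 0 < η) (hη1 : η < 1) (hkW : Thick (kW κ W η)) (hcW : core (kW κ W η) = KW (core κ) W)
    (hoA : ∀ l ∈ Icc (p - D / 4) (P - 3 / 4 * D), ∀ v : ℂ, ‖v‖ ≤ η → κ (l, v) ∉ QC B W)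
    (hoC : ∀ l ∈ Icc (p' - D / 4) (p' + D / 4), ∀ v : ℂ, ‖v‖ ≤ η → κ (l, v) ∉ QC B W) {c g x : Γ} {T₁ T₂ : E → N}
    (h₁ : FinV G κ p p' c T₁) (hd₁ : Disjoint (T₁ '' TD) (QC B W)) (h₂ : FinV G κ p p' (g * c) T₂)
    (hd₂ : Disjoint (T₂ '' TD) (QC B W))
    (hloop : ∀ ρ : ℝ, 0 < ρ → ρ < η → ∃ ℓ : ℝ → N, PathOn ((QC B W)ᶜ \ core κ) ℓ ∧ ℓ 0 = κ (p, (ρ : ℂ)) ∧
      ℓ 1 = κ (p, (ρ : ℂ)) ∧ G.val (seg κ (p, 1 / 2) (p, (ρ : ℂ))) * G.val ℓ *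
        (G.val (seg κ (p, 1 / 2) (p, (ρ : ℂ))))⁻¹ = x ∧
      ∀ (Γ' : Type u) (_ : Group Γ') (GW : GHom (core (kW κ W η))ᶜ Γ'), GW.val ℓ = 1) :
    ∃ T₃, FinV G κ p p' (g * x * g⁻¹ * c) T₃ ∧ LEqN (kn (core κ) T₁) (kn (core κ) T₃) := by
  obtain ⟨h1, h2, h3, h4, h5⟩ := hP
  obtain ⟨r₁, hr₁, hthn₁⟩ := thnV ext hκ G h₁ isOpen_univ (fun _ _ => mem_univ _)
  obtain ⟨r₂, hr₂, hthn₂⟩ := thnV ext hκ G h₂ isOpen_univ (fun _ _ => mem_univ _)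
  obtain ⟨r, hr, hrr₁, hrr₂⟩ : ∃ r : ℝ, 0 < r ∧ r ≤ r₁ ∧ r ≤ r₂ :=
    ⟨min r₁ r₂, lt_min hr₁ hr₂, min_le_left _ _, min_le_right _ _⟩
  obtain ⟨η', hη', hη'r, hη'η⟩ : ∃ η' : ℝ, 0 < η' ∧ η' ≤ r ∧ η' ≤ η :=
    ⟨min r η, lt_min hr hη, min_le_left _ _, min_le_right _ _⟩
  obtain ⟨ε', hε', hε'r, hε'D, hε'p⟩ : ∃ ε' : ℝ, 0 < ε' ∧ ε' ≤ r ∧ ε' ≤ D / 16 ∧ ε' ≤ (p + 1 - p') / 16 :=
    ⟨min r (min (D / 16) ((p + 1 - p') / 16)), lt_min hr (lt_min (by linarith) (by linarith)), min_le_left _ _,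
      (min_le_right _ _).trans (min_le_left _ _), (min_le_right _ _).trans (min_le_right _ _)⟩
  have hε'D4 : ε' ≤ D / 4 := by linarith
  obtain ⟨Ta, hTa, hTac, -, hTas, hTaL⟩ := hthn₁ η' ε' hη' (hη'r.trans hrr₁) hε' (hε'r.trans hrr₁)
  obtain ⟨Tb, hTb, hTbc, -, hTbs, -⟩ := hthn₂ η' ε' hη' (hη'r.trans hrr₂) hε' (hε'r.trans hrr₂)
  have hTad : Disjoint (Ta '' TD) (QC B W) :=
    hd₁.mono_left (subset_closure.trans (hTas.trans inter_subset_right))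
  have hTbd : Disjoint (Tb '' TD) (QC B W) :=
    hd₂.mono_left (subset_closure.trans (hTbs.trans inter_subset_right))
  obtain ⟨ρ, hρ⟩ : ∃ ρ : ℝ, ρ = η' * ε' / 8 := ⟨_, rfl⟩
  have hρ0 : 0 < ρ := by rw [hρ]; positivity
  have hρη : ρ < η := by
    rw [hρ]
    have : η' * ε' ≤ η * 1 := mul_le_mul hη'η (by linarith) hε'.le hη.le
    linarith
  obtain ⟨f, hf', hf0, hf1, hfG, hfW⟩ := hloop ρ hρ0 hρη
  have hQ : IsOpen ((QC B W)ᶜ) := (QC_compact S).isClosed.isOpen_compl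
  have hsub : (QC B W)ᶜ \ core κ ⊆ (core κ)ᶜ := fun y hy => hy.2
  have hsubW : (QC B W)ᶜ \ core κ ⊆ (core (kW κ W η))ᶜ := by
    intro y hy h
    rw [hcW, KW_off S hy.1] at h
    exact hy.2 h
  have hcor : ∀ T₀ : E → N, FinE κ p p' η' ε' T₀ → Disjoint (T₀ '' TD) (QC B W) →
      PathOn ((QC B W)ᶜ \ core κ) (cor T₀) := by
    intro T₀ h0 hd0
    have h := cor_path h0
    refine ⟨h.1, fun t ht => ⟨fun hq => ?_, h.2 t ht⟩⟩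
    exact disjoint_left.1 hd0 ⟨(0, 1 / 8 + 3 / 4 * t), ⟨by simp, by linarith [ht.1], by linarith [ht.2]⟩, rfl⟩ hq
  have ha := hcor Ta hTa hTad
  have hb := hcor Tb hTb hTbd
  obtain ⟨ha0, ha1⟩ := cor_ends hTa
  obtain ⟨hb0, hb1⟩ := cor_ends hTb
  rw [← hρ] at ha0 ha1 hb0 hb1
  -- the path `cor Tb · (cor Ta)⁻¹ · f · cor Ta · (cor Tb)⁻¹ · cor Ta`
  have e1 : cor Tb 1 = rv (cor Ta) 0 := by rw [rv_zero, ha1, hb1]
  have k1 := hb.cat ha.rv e1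
  have e2 : cat (cor Tb) (rv (cor Ta)) 1 = f 0 := by rw [cat_one, rv_one, ha0, hf0]
  have k2 := k1.cat hf' e2
  have e3 : cat (cat (cor Tb) (rv (cor Ta))) f 1 = cor Ta 0 := by rw [cat_one, ha0, hf1]
  have k3 := k2.cat ha e3
  have e4 : cat (cat (cat (cor Tb) (rv (cor Ta))) f) (cor Ta) 1 = rv (cor Tb) 0 := by
    rw [cat_one, rv_zero, ha1, hb1]
  have k4 := k3.cat hb.rv e4
  have e5 : cat (cat (cat (cat (cor Tb) (rv (cor Ta))) f) (cor Ta)) (rv (cor Tb)) 1 = cor Ta 0 := by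
    rw [cat_one, rv_one, hb0, ha0]
  have k5 := k4.cat ha e5
  have hkv : ∀ {Y : Set N} {Γ₁ : Type v} [Group Γ₁] (G₁ : GHom Y Γ₁), (QC B W)ᶜ \ core κ ⊆ Y →
      G₁.val (cat (cat (cat (cat (cat (cor Tb) (rv (cor Ta))) f) (cor Ta)) (rv (cor Tb))) (cor Ta)) =
        G₁.val (cor Tb) * (G₁.val (cor Ta))⁻¹ * G₁.val f * G₁.val (cor Ta) * (G₁.val (cor Tb))⁻¹ *
          G₁.val (cor Ta) := by
    intro Y Γ₁ _ G₁ hY
    rw [G₁.ct _ _ (k4.mono hY) (ha.mono hY) e5, G₁.ct _ _ (k3.mono hY) (hb.rv.mono hY) e4,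
      G₁.ct _ _ (k2.mono hY) (ha.mono hY) e3, G₁.ct _ _ (k1.mono hY) (hf'.mono hY) e2,
      G₁.ct _ _ (hb.mono hY) (ha.rv.mono hY) e1, G₁.val_rv (ha.mono hY), G₁.val_rv (hb.mono hY)]
  have hkvW : ∀ {Y : Set N} {Γ₁ : Type u} [Group Γ₁] (G₁ : GHom Y Γ₁), (QC B W)ᶜ \ core κ ⊆ Y →
      G₁.val (cat (cat (cat (cat (cat (cor Tb) (rv (cor Ta))) f) (cor Ta)) (rv (cor Tb))) (cor Ta)) =
        G₁.val (cor Tb) * (G₁.val (cor Ta))⁻¹ * G₁.val f * G₁.val (cor Ta) * (G₁.val (cor Tb))⁻¹ *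
          G₁.val (cor Ta) := by
    intro Y Γ₁ _ G₁ hY
    rw [G₁.ct _ _ (k4.mono hY) (ha.mono hY) e5, G₁.ct _ _ (k3.mono hY) (hb.rv.mono hY) e4,
      G₁.ct _ _ (k2.mono hY) (ha.mono hY) e3, G₁.ct _ _ (k1.mono hY) (hf'.mono hY) e2,
      G₁.ct _ _ (hb.mono hY) (ha.rv.mono hY) e1, G₁.val_rv (ha.mono hY), G₁.val_rv (hb.mono hY)]
  have hvn : ∀ v : ℂ, ‖v‖ ≤ 4 * (η' * ε') → ‖v‖ ≤ η := by
    intro v hv
    have : η' * ε' ≤ η * (1 / 4) := mul_le_mul hη'η (by linarith) hε'.le hη.le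
    linarith
  have hoA' : ∀ l : ℝ, |l - p| ≤ 4 * ε' → ∀ v : ℂ, ‖v‖ ≤ 4 * (η' * ε') → κ (l, v) ∈ (QC B W)ᶜ := fun l hl v hv =>
    hoA l ⟨by linarith [(abs_le.1 hl).1], by linarith [(abs_le.1 hl).2]⟩ v (hvn v hv)
  have hoC' : ∀ l : ℝ, |l - p'| ≤ 4 * ε' → ∀ v : ℂ, ‖v‖ ≤ 4 * (η' * ε') → κ (l, v) ∈ (QC B W)ᶜ := fun l hl v hv =>
    hoC l ⟨by linarith [(abs_le.1 hl).1], by linarith [(abs_le.1 hl).2]⟩ v (hvn v hv)
  have hηε' : 0 < η' * ε' := mul_pos hη' hε'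
  have hadm4 : Adm p p' (4 * ε') := ⟨by linarith, by linarith, fun k => by
    have h := R3_int' (x := p - p') (D := 2 * (8 * ε')) (u := 2 * D) (w := p' - p) (by linarith) (by linarith)
      (by linarith) (by linarith) k
    linarith⟩
  obtain ⟨T₃, hT₃, hT₃Q, hT₃H⟩ := E1V ext hκ hη' (hη'η.trans hη1.le) (p := p) (p' := p') (ε := ε') hTa.adm hadm4 hQ
    (O := (QC B W)ᶜ) (fun l hl v hv => hoA' l (by linarith [hl]) v (by linarith [hv]))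
    (fun l hl v hv => hoC' l (by linarith [hl]) v (by linarith [hv])) k5
    (by rw [cat_zero, cat_zero, cat_zero, cat_zero, cat_zero, hb0, hρ]) (by rw [cat_one, ha1, hρ])
  have hT₃d : Disjoint (T₃ '' TD) (QC B W) := disjoint_left.2 fun y hy hq => hT₃Q hy hq
  have hoA'' : ∀ l : ℝ, |l - p| < D / 4 → ∀ v : ℂ, ‖v‖ ≤ η → κ (l, v) ∉ QC B W := fun l hl v hv =>
    hoA l ⟨by linarith [(abs_lt.1 hl).1], by linarith [(abs_lt.1 hl).2]⟩ v hv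
  have hoC'' : ∀ l : ℝ, |l - p'| < D / 4 → ∀ v : ℂ, ‖v‖ ≤ η → κ (l, v) ∉ QC B W := fun l hl v hv =>
    hoC l ⟨by linarith [(abs_lt.1 hl).1], by linarith [(abs_lt.1 hl).2]⟩ v hv
  have fTa := (finE_kW S hη hcW hη' hη'η hη1.le hε'D4 hoA'' hoC'' hTad).2 hTa
  have fT₃ := (finE_kW S hη hcW hη' hη'η hη1.le hε'D4 hoA'' hoC'' hT₃d).2 hT₃
  obtain ⟨Γ', gr, GW, hGW⟩ := exists_GHom (ext.Pcn _ hkW)
  have hclW : clV GW (kW κ W η) p p' (η' / η) ε' T₃ = clV GW (kW κ W η) p p' (η' / η) ε' Ta := by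
    unfold clV
    rw [GW.hmt _ _ (hT₃H.mono hsubW), hkvW GW hsubW, hfW _ _ GW]
    group
  have hL : LEqN (kn (core (kW κ W η)) Ta) (kn (core (kW κ W η)) T₃) :=
    finV_uniq ext hkW GW hGW (c := clV GW (kW κ W η) p p' (η' / η) ε' Ta) ⟨_, _, fTa, rfl⟩ ⟨_, _, fT₃, hclW⟩
  refine ⟨T₃, ⟨η', ε', hT₃, ?_⟩, ?_⟩
  · unfold clV at hTac hTbc ⊢
    rw [G.hmt _ _ (hT₃H.mono hsub), hkv G hsub]
    rw [← hρ] at hTac hTbc ⊢
    generalize G.val (seg κ (p, 1 / 2) (p, (ρ : ℂ))) = A at hTac hTbc hfG ⊢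
    generalize G.val (seg κ (p', (ρ : ℂ)) (p', 1 / 2)) = A' at hTac hTbc ⊢
    generalize G.val (cor Ta) = v1 at hTac hTbc ⊢
    generalize G.val (cor Tb) = v2 at hTac hTbc ⊢
    have hv2 : v2 = A⁻¹ * (g * c) * A'⁻¹ := by rw [← hTbc]; group
    have hv1 : v1 = A⁻¹ * c * A'⁻¹ := by rw [← hTac]; group
    rw [← hfG, hv2, hv1]
    group
  · have l1 := rib_kn S hTad hTa.chd
    have l3 := rib_kn S hT₃d hT₃.chd
    rw [hcW] at hL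
    exact hTaL.trans (l1.trans (hL.trans l3.symm))

omit [TopologicalSpace N] [ChartedSpace E3 N] [T2Space N] in
theorem R2p_ex_norm (t : ℝ) : ‖ex t‖ = 1 := by
  unfold ex
  exact Complex.norm_exp_ofReal_mul_I _

omit [T2Space N] in
/-- the meridian loop is a path off the support of the move -/
theorem R2p_mer {κ : ℝ × ℂ → N} (hκ : Thick κ) {Q : Set N} {l ρ η : ℝ} (h0 : 0 < ρ) (h1 : ρ < η) (h2 : η < 1)
    (ho : ∀ v : ℂ, ‖v‖ ≤ η → κ (l, v) ∉ Q) :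
    PathOn (Qᶜ \ core κ) (mer κ l ρ) ∧ mer κ l ρ 0 = κ (l, (ρ : ℂ)) ∧ mer κ l ρ 1 = κ (l, (ρ : ℂ)) := by
  have hn : ∀ t : ℝ, ‖(ρ : ℂ) * ex t‖ = ρ := by
    intro t
    rw [norm_mul, R2p_ex_norm, mul_one, Complex.norm_real, Real.norm_eq_abs, abs_of_pos h0]
  refine ⟨⟨?_, fun t ht => ⟨ho _ (by rw [hn]; exact h1.le), ?_⟩⟩, ?_, ?_⟩
  · have hc : Continuous fun t : ℝ => ((l, (ρ : ℂ) * ex t) : ℝ × ℂ) := by
      unfold ex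
      fun_prop
    exact (thick_cont hκ).comp hc.continuousOn fun t _ => by
      show ‖(ρ : ℂ) * ex t‖ < 1
      rw [hn]; linarith
  · refine thick_off hκ (by rw [hn]; linarith) fun h => ?_
    have := hn t
    rw [h, norm_zero] at this
    linarith
  · simp [mer, ex]
  · simp [mer, ex]

theorem R2p_main (ext : Ext N) {κ : ℝ × ℂ → N} (hκ : Thick κ) (G : GHom (core κ)ᶜ Γ) {p p' P p₀ P₂ D H H' τ : ℝ}
    {B W : E → N} (hP : Pos p P p₀ P₂ p' D) (L : Lnk κ B P P₂ D H H' τ) (S : SP (core κ) B W) {b e c g m w : Γ}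
    (hm : m = G.val (mer κ p (1 / 2)))
    (hb : b = bet G κ B p P D H) (he : e = lbe G κ B W p P D H) (hw : w = (e⁻¹ * b * e) * (e * b * e⁻¹))
    {T₁ T₂ : E → N} (h₁ : FinV G κ p p' c T₁)
    (hd₁ : Disjoint (T₁ '' TD) (QC B W)) (h₂ : FinV G κ p p' (g * c) T₂) (hd₂ : Disjoint (T₂ '' TD) (QC B W)) :
    ∃ T₃, FinV G κ p p' (g * (m * w⁻¹ * m⁻¹ * w) * g⁻¹ * c) T₃ ∧ LEqN (kn (core κ) T₁) (kn (core κ) T₃) := by
  obtain ⟨η, hη, hη1, hηH, hkW, hcW, hoA, hoB, hoC⟩ := R3_eta hκ hP L S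
  refine R2p_loop ext hκ G hP L.Dpos S hη hη1 hkW hcW hoA hoC h₁ hd₁ h₂ hd₂ ?_
  obtain ⟨h1, h2, h3, h4, h5⟩ := hP
  have hD := L.Dpos
  have hD1 := L.Dlt
  intro ρ hρ0 hρη
  have hρH : ρ ≤ H / 16 := by linarith
  have hρ1 : ρ < 1 := by linarith
  have hρn : ‖(ρ : ℂ)‖ ≤ η := by
    rw [Complex.norm_real, Real.norm_eq_abs, abs_of_pos hρ0]; exact hρη.le
  obtain ⟨f, hf, hf0, hf1, hfv, hfw⟩ := R3_path3.{u, v, u} hκ S L h1 h2 hρ0 hρH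
    (fun l hl => hoA l ⟨by linarith [hl.1], hl.2⟩ _ hρn)
    (fun l hl => hoB l ⟨hl.1, by linarith [hl.2]⟩ _ hρn)
  have hsub : (QC B W)ᶜ \ core κ ⊆ (core κ)ᶜ := fun y hy => hy.2
  have hsubW : (QC B W)ᶜ \ core κ ⊆ (core (kW κ W η))ᶜ := by
    intro y hy h
    rw [hcW, KW_off S hy.1] at h
    exact hy.2 h
  have hee : (core κ)ᶜ ∩ (QC B W)ᶜ ⊆ (QC B W)ᶜ \ core κ := fun y hy => ⟨hy.2, hy.1⟩
  have hf' : PathOn ((QC B W)ᶜ \ core κ) f := hf.mono hee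
  have hop : ∀ v : ℂ, ‖v‖ ≤ η → κ (p, v) ∉ QC B W := hoA p ⟨by linarith, by linarith⟩
  have hop₀ : ∀ v : ℂ, ‖v‖ ≤ η → κ (p₀, v) ∉ QC B W := hoB p₀ ⟨by linarith, by linarith⟩
  obtain ⟨hm1, hm10, hm11⟩ := R2p_mer hκ hρ0 hρη hη1 hop
  obtain ⟨hm2, hm20, hm21⟩ := R2p_mer hκ hρ0 hρη hη1 hop₀
  have e1 : mer κ p ρ 1 = f 0 := by rw [hm11, hf0]
  have k1 := hm1.cat hf' e1
  have e2 : cat (mer κ p ρ) f 1 = rv (mer κ p₀ ρ) 0 := by rw [cat_one, rv_zero, hm21, hf1]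
  have k2 := k1.cat hm2.rv e2
  have e3 : cat (cat (mer κ p ρ) f) (rv (mer κ p₀ ρ)) 1 = rv f 0 := by rw [cat_one, rv_one, rv_zero, hm20, hf1]
  have k3 := k2.cat hf'.rv e3
  refine ⟨_, k3, ?_, ?_, ?_, ?_⟩
  · rw [cat_zero, cat_zero, cat_zero, hm10]
  · rw [cat_one, rv_one, hf0]
  · rw [G.ct _ _ (k2.mono hsub) (hf'.rv.mono hsub) e3, G.ct _ _ (k1.mono hsub) (hm2.rv.mono hsub) e2,
      G.ct _ _ (hm1.mono hsub) (hf'.mono hsub) e1, G.val_rv (hm2.mono hsub), G.val_rv (hf'.mono hsub),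
      hfv _ _ _ G (hee.trans hsub)]
    have q1 := mer_move hκ G p p (r := 1 / 2) (r' := ρ) (by norm_num) (by norm_num) hρ0 hρ1
    have q2 := mer_move hκ G p p₀ (r := 1 / 2) (r' := ρ) (by norm_num) (by norm_num) hρ0 hρ1
    have eh : (((1 / 2 : ℝ)) : ℂ) = (1 / 2 : ℂ) := by push_cast; rfl
    rw [eh] at q1 q2
    rw [q1, q2, ← hm]
    have hid := Id3 hκ S G L p p₀ hρ0 hρH hb he
    have k4 := K_tri hκ G 1 (R3_kH2 p) (R3_kH p₀ hρ0 hρ1) (R3_kH2 p₀)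
    have hww : w⁻¹ = (e * b⁻¹ * e⁻¹) * (e⁻¹ * b⁻¹ * e) := by rw [hw]; group
    rw [← hww, ← k4] at hid
    generalize G.val (seg κ (p, 1 / 2) (p, (ρ : ℂ))) = A at hid ⊢
    generalize G.val (seg κ (p, 1 / 2) (p₀, (ρ : ℂ))) = A₀ at hid ⊢
    generalize ex3 G κ B W p p₀ P D H ρ = F at hid ⊢
    have hF : A * F = w⁻¹ * A₀ := by
      rw [← mul_assoc] at hid
      exact mul_right_cancel hid
    have hF' : F = A⁻¹ * (w⁻¹ * A₀) := by rw [← hF]; group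
    rw [hF']
    group
  · intro Γ' _ GW
    obtain ⟨r, hr⟩ : ∃ r : ℝ, r = ρ / η := ⟨_, rfl⟩
    have hηr : η * r = ρ := by rw [hr]; field_simp
    have hr0 : 0 < r := by rw [hr]; positivity
    have hr1 : r < 1 := by rw [hr, div_lt_one hη]; exact hρη
    have hmm : ∀ l : ℝ, (∀ v : ℂ, ‖v‖ ≤ η → κ (l, v) ∉ QC B W) → PathOn ((QC B W)ᶜ \ core κ) (mer κ l ρ) →
        GW.val (mer (kW κ W η) l r) = GW.val (mer κ l ρ) := by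
      intro l hl hpth
      refine GW.val_congr (hpth.mono hsubW) fun t _ => ?_
      show Psi W (κ (l, (η : ℂ) * ((r : ℂ) * ex t))) = κ (l, (ρ : ℂ) * ex t)
      have e5 : (η : ℂ) * ((r : ℂ) * ex t) = (ρ : ℂ) * ex t := by
        rw [← hηr]; push_cast; ring
      rw [e5]
      apply Psi_out
      rintro ⟨q, hq, hqe⟩
      refine hl ((ρ : ℂ) * ex t) ?_ (Or.inr ⟨q, QA_sub hq, hqe⟩)
      rw [norm_mul, R2p_ex_norm, mul_one]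
      exact hρn
    rw [GW.ct _ _ (k2.mono hsubW) (hf'.rv.mono hsubW) e3, GW.ct _ _ (k1.mono hsubW) (hm2.rv.mono hsubW) e2,
      GW.ct _ _ (hm1.mono hsubW) (hf'.mono hsubW) e1, GW.val_rv (hm2.mono hsubW), GW.val_rv (hf'.mono hsubW),
      hfw _ _ _ GW (hee.trans hsubW), ← hmm p hop hm1, ← hmm p₀ hop₀ hm2,
      mer_move hkW GW p p₀ (r := r) (r' := r) hr0 hr1 hr0 hr1,
      Iw3 hκ S L (by rw [hcW]) GW h1 h2 hη hηH hr0 hr1 hkW hcW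
      (fun l hl v hv => hoA l ⟨by linarith [hl.1], hl.2⟩ v hv)
      (fun l hl v hv => hoB l ⟨hl.1, by linarith [hl.2]⟩ v hv), hηr]
    group

theorem R2p (ext : Ext N) {κ : ℝ × ℂ → N} (hκ : Thick κ) (G : GHom (core κ)ᶜ Γ) (hG : Full G) {p p' : ℝ}
    (hp : p < p') (hp' : p' < p + 1) (a e g : Γ) {m b w : Γ} (hm : m = G.val (mer κ p (1 / 2)))
    (hb : b = m * (a * m * a⁻¹)) (hw : w = (e⁻¹ * b * e) * (e * b * e⁻¹)) :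
    g * (m * w⁻¹ * m⁻¹ * w) * g⁻¹ ∈ Lset G κ p p' := by
  intro c T T' hT hT'
  obtain ⟨T₂, hT₂⟩ := finV_ex ext hκ G hG hp hp' (g * c)
  obtain ⟨P, p₀, P₂, D, H, H', B, W, T₁', T₂', hP, L, S, ha, he, h₁, hL, hd₁, h₂, -, hd₂⟩ :=
    exists_configP ext hκ G hG hp hp' a e hT' hT₂
  have hb' : b = bet G κ B p P D H := by rw [IdBp hκ S G L p, ha, hb, hm]
  obtain ⟨T₃, hT₃, hL₃⟩ := R2p_main ext hκ G hP L S hm hb' he.symm hw h₁ hd₁ h₂ hd₂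
  exact (finV_uniq ext hκ G hG hT hT₃).trans (hL₃.symm.trans hL.symm)

end Pool.Agent.NHR
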