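import Mathlib
import Pool.Agent.NHR.Defs
import Pool.Agent.NHT.AlgC
import Pool.Agent.NHR.Mem
import Pool.Agent.NHR.R1p
import Pool.Agent.NHR.R3p
import Pool.Agent.NHR.R2p

/-!
# NHR/Mainp: parallel strands: the relations of the homotopy theorem, hypotheses of `NHT.AlgE_main` (difficulty 1)

`exists_L`, `mer_mem`, `R1p`, `R2p`, `R3p`; the element of `R1p` is the inverse of `g * cm b (e b e⁻¹) * g⁻¹`; the element of `R2p` for `g * w` is the inverse of `g * cm m w * g⁻¹`.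
-/

open scoped Manifold ContDiff Topology
open Set Filter
open Pool.Agent.CSG (stp)
open Pool.Agent.RSG (E3 ex Thick)
open Pool.Agent.KNT (Dom Str Str2 bmp)
open Pool.Agent.NHP

namespace Pool.Agent.NHR

universe u v

variable {N : Type u} [TopologicalSpace N] [ChartedSpace E3 N] [T2Space N] {Γ : Type v} [Group Γ]

theorem relationsP (ext : Ext N) {κ : ℝ × ℂ → N} (hκ : Thick κ) (G : GHom (core κ)ᶜ Γ) (hG : Full G) {p p' : ℝ}
    (hp : p < p') (hp' : p' < p + 1) {m : Γ} (hm : m = G.val (mer κ p (1 / 2))) :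
    ∃ L : Subgroup Γ, (∀ g, g ∈ L ↔ g ∈ Lset G κ p p') ∧ m ∈ L ∧
      (∀ a e g : Γ, g * NHT.cm (m * (a * m * a⁻¹)) (e * (m * (a * m * a⁻¹)) * e⁻¹) * g⁻¹ ∈ L) ∧
      (∀ a e g : Γ, g * NHT.cm m ((e⁻¹ * (m * (a * m * a⁻¹)) * e) * (e * (m * (a * m * a⁻¹)) * e⁻¹)) * g⁻¹ ∈ L) ∧
      ∀ a e : Γ, (e⁻¹ * (m * (a * m * a⁻¹)) * e) * (e * (m * (a * m * a⁻¹)) * e⁻¹) ∈ L := by
  obtain ⟨L, hL⟩ := exists_L ext hκ G hG hp hp'
  refine ⟨L, hL, ?_, ?_, ?_, ?_⟩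
  · rw [hL, hm]
    exact mer_mem ext hκ G hG hp hp'
  · intro a e g
    have h1 := (hL _).2 (R1p ext hκ G hG hp hp' a e g (b := m * (a * m * a⁻¹)) (by rw [hm]))
    have h2 : g * NHT.cm (m * (a * m * a⁻¹)) (e * (m * (a * m * a⁻¹)) * e⁻¹) * g⁻¹
        = (g * ((e * (m * (a * m * a⁻¹)) * e⁻¹) * (m * (a * m * a⁻¹)) * (e * (m * (a * m * a⁻¹)) * e⁻¹)⁻¹ *
          (m * (a * m * a⁻¹))⁻¹) * g⁻¹)⁻¹ := by
      unfold NHT.cm
      group
    rw [h2]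
    exact L.inv_mem h1
  · intro a e g
    generalize hw : (e⁻¹ * (m * (a * m * a⁻¹)) * e) * (e * (m * (a * m * a⁻¹)) * e⁻¹) = w
    have h1 := (hL _).2 (R2p ext hκ G hG hp hp' a e (g * w) (b := m * (a * m * a⁻¹)) hm rfl hw.symm)
    have h2 : g * NHT.cm m w * g⁻¹ = ((g * w) * (m * w⁻¹ * m⁻¹ * w) * (g * w)⁻¹)⁻¹ := by
      unfold NHT.cm
      group
    rw [h2]
    exact L.inv_mem h1
  · intro a e
    exact (hL _).2 (R3p ext hκ G hG hp hp' a e (b := m * (a * m * a⁻¹)) (by rw [hm]))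

end Pool.Agent.NHR
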